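import Mathlib

/-!
# The left vertical of the polygon: algebra, `θ ≤ π / 4`

`s = sin π a`, `c = cos π a`, `x = sinh π b`, `k = cosh π b`; `S`, `C`, `X`, `K` for the other vertex.
With `T = s / c`, `τ = x / k` the imaginary part of `tan² π v` is
`2 T τ (1 + T²) (1 - τ²) / (1 + T² τ²)²`.
-/

set_option autoImplicit false

namespace Pool.Agent.S3.T2

/-- `T ↦ T (1 + T²) / (1 + τ² T²)²` increases while `τ T ≤ 1`. -/
theorem f_T {τ T U : ℝ} (h0 : 0 ≤ T) (h1 : T ≤ U) (hτ : 0 ≤ τ) (hτ1 : τ ≤ 1) (h : τ * U ≤ 1) :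
    T * (1 + T ^ 2) * (1 + τ ^ 2 * U ^ 2) ^ 2 ≤ U * (1 + U ^ 2) * (1 + τ ^ 2 * T ^ 2) ^ 2 := by
  have hU : 0 ≤ U := h0.trans h1
  have h2 : (τ * T) * (τ * U) ≤ 1 := by
    have h3 : τ * T ≤ τ * U := mul_le_mul_of_nonneg_left h1 hτ
    have := mul_le_mul (h3.trans h) h (by positivity) zero_le_one
    linarith only [this]
  have A : T * (1 + τ ^ 2 * U ^ 2) ≤ U * (1 + τ ^ 2 * T ^ 2) := by
    have := mul_nonneg (sub_nonneg.2 h1) (sub_nonneg.2 h2)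
    linarith only [this]
  have B : (1 + T ^ 2) * (1 + τ ^ 2 * U ^ 2) ≤ (1 + U ^ 2) * (1 + τ ^ 2 * T ^ 2) := by
    have h3 : T ^ 2 ≤ U ^ 2 := pow_le_pow_left₀ h0 h1 2
    have h4 : τ ^ 2 ≤ 1 := by linarith only [hτ1, mul_nonneg (sub_nonneg.2 hτ) (sub_nonneg.2 hτ1)]
    have := mul_nonneg (sub_nonneg.2 h3) (sub_nonneg.2 h4)
    linarith only [this]
  have := mul_le_mul A B (by positivity) (by positivity)
  linarith only [this]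

/-- The scaling. -/
theorem f_L {P Q L : ℝ} (hP : 0 ≤ P) (hQ : 0 ≤ Q) (hL : 0 ≤ L) (hL1 : L ≤ 1)
    (h : Q * (2 + P) ≤ 1) :
    L * (1 + L * P) * (1 - L * Q) * (1 + P * Q) ^ 2 ≤
      (1 + P) * (1 - Q) * (1 + L ^ 2 * (P * Q)) ^ 2 := by
  obtain ⟨m, hm⟩ : ∃ m, m = P * Q := ⟨_, rfl⟩
  have hm0 : 0 ≤ m := by rw [hm]; positivity
  have hQ1 : Q ≤ 1 / 2 := by linarith only [hm0, hm, h]
  have hm1 : m ≤ 1 := by rw [hm]; linarith only [h, hQ]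
  obtain ⟨B, hB⟩ : ∃ B, B = (1 + P) * (1 - Q) := ⟨_, rfl⟩
  have hB0 : 0 ≤ B := by rw [hB]; exact mul_nonneg (by linarith only [hP]) (by linarith only [hm0,
                                                                                 hm, h])
  have hBm : B = 1 + P - Q - m := by rw [hB, hm]; ring
  -- the value at `L = 1`
  have h1 : 0 ≤ 1 - 6 * m + m ^ 2 + 2 * (P - Q) * (1 - m) := by
    have hd : 0 < 2 + P := by linarith only [hP]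
    have hQ2 : Q ≤ 1 / (2 + P) := by rw [le_div_iff₀ hd]; exact h
    obtain ⟨R, hR⟩ : ∃ R, R = 1 / (2 + P) := ⟨_, rfl⟩
    rw [← hR] at hQ2
    have hR0 : R * (2 + P) = 1 := by rw [hR]; field_simp
    have hR1 : R ≤ 1 / 2 := by rw [hR, div_le_div_iff₀ hd (by norm_num)]; linarith only [hP]
    have hRp : 0 ≤ R := hQ.trans hQ2
    have key : 1 - 6 * (P * R) + (P * R) ^ 2 + 2 * (P - R) * (1 - P * R) = 0 := by
      have e : P * R = 1 - 2 * R := by linear_combination hR0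
      have e2 : 2 * (P - R) * (1 - P * R) = 4 * (P * R) - 4 * R ^ 2 := by
        rw [show 1 - P * R = 2 * R by linarith only [hR0]]; ring
      rw [e2, e]
      ring
    rw [hm]
    have e : 1 - 6 * (P * Q) + (P * Q) ^ 2 + 2 * (P - Q) * (1 - P * Q) =
        (1 - 6 * (P * R) + (P * R) ^ 2 + 2 * (P - R) * (1 - P * R)) +
          (R - Q) * (6 * P + 2 + 2 * P ^ 2 - (P ^ 2 + 2 * P) * (R + Q)) := by ring
    rw [e, key, zero_add]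
    have h5 : 0 ≤ 6 * P + 2 + 2 * P ^ 2 - (P ^ 2 + 2 * P) * (R + Q) := by
      linarith only [mul_nonneg (mul_nonneg hP hP) (sub_nonneg.2 hQ1),
        mul_nonneg hP (sub_nonneg.2 hR1), mul_nonneg (mul_nonneg hP hP) (sub_nonneg.2 hR1),
        mul_nonneg hP hP, h, hQ, hP]
    exact mul_nonneg (sub_nonneg.2 hQ2) h5
  -- the bracket
  have h2 : 0 ≤ B * (1 - 2 * L * m - m ^ 2 * (L + L ^ 2 + L ^ 3)) +
      L * (1 + m) ^ 2 * (P - Q - (1 + L) * m) := by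
    have e : B * (1 - 2 * L * m - m ^ 2 * (L + L ^ 2 + L ^ 3)) +
        L * (1 + m) ^ 2 * (P - Q - (1 + L) * m) =
        (1 - L) * B + L * ((1 + m) * (1 - 6 * m + m ^ 2 + 2 * (P - Q) * (1 - m))) +
          (B * m ^ 2 + (1 + m) ^ 2 * m) * (L * (1 - L)) + B * m ^ 2 * (L * (1 - L ^ 2)) := by
      rw [hBm]; ring
    rw [e]
    have g1 : 0 ≤ (1 - L) * B := mul_nonneg (by linarith only [hL1]) hB0
    have g2 : 0 ≤ L * ((1 + m) * (1 - 6 * m + m ^ 2 + 2 * (P - Q) * (1 - m))) :=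
      mul_nonneg hL (mul_nonneg (by linarith only [hm0]) h1)
    have g3 : 0 ≤ (B * m ^ 2 + (1 + m) ^ 2 * m) * (L * (1 - L)) :=
      mul_nonneg (by positivity) (mul_nonneg hL (by linarith only [hL1]))
    have g4 : 0 ≤ B * m ^ 2 * (L * (1 - L ^ 2)) :=
      mul_nonneg (by positivity) (mul_nonneg hL (by linarith only [hL1,
                                                      mul_nonneg (sub_nonneg.2 hL) (sub_nonneg.2 hL1)]))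
    linarith only [g4, g3, g2, g1]
  have e3 : (1 + P) * (1 - Q) * (1 + L ^ 2 * (P * Q)) ^ 2 -
      L * (1 + L * P) * (1 - L * Q) * (1 + P * Q) ^ 2 =
      (1 - L) * (B * (1 - 2 * L * m - m ^ 2 * (L + L ^ 2 + L ^ 3)) +
      L * (1 + m) ^ 2 * (P - Q - (1 + L) * m)) := by
    rw [hBm, hm]; ring
  have := mul_nonneg (sub_nonneg.2 hL1) h2
  linarith only [this, e3]

/-- The two steps. -/
theorem f_TL {T τ T' τ' : ℝ} (hT : 0 ≤ T) (hτ : 0 ≤ τ) (hT' : 0 ≤ T') (hτ' : 0 < τ')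
    (hττ : τ ≤ τ') (hτ1 : τ' ≤ 1) (h : T * τ' ≤ τ * T') (hz : τ' ^ 2 * (2 + T' ^ 2) ≤ 1) :
    T * τ * (1 + T ^ 2) * (1 - τ ^ 2) * (1 + T' ^ 2 * τ' ^ 2) ^ 2 ≤
      T' * τ' * (1 + T' ^ 2) * (1 - τ' ^ 2) * (1 + τ ^ 2 * T ^ 2) ^ 2 := by
  obtain ⟨l, hl⟩ : ∃ l, l = τ / τ' := ⟨_, rfl⟩
  have hl0 : 0 ≤ l := by rw [hl]; positivity
  have hl1 : l ≤ 1 := by rw [hl, div_le_one hτ']; exact hττ
  have eτ : τ = l * τ' := by rw [hl]; field_simp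
  obtain ⟨U, hU⟩ : ∃ U, U = l * T' := ⟨_, rfl⟩
  have hTU : T ≤ U := by
    rw [hU, hl, div_mul_eq_mul_div, le_div_iff₀ hτ']; exact h
  have hm : (τ' * T') ^ 2 ≤ 1 := by
    rw [mul_pow]
    linarith only [sq_nonneg τ', hz]
  have hm1 : τ' * T' ≤ 1 := by
    by_contra hc
    push Not at hc
    linarith only [hc, hz, mul_pos (sub_pos.2 hc) (sub_pos.2 hc),
      mul_pos (sub_pos.2 hτ') (sub_pos.2 hτ')]
  have hU1 : τ * U ≤ 1 := by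
    rw [eτ, hU]
    have h1 : l * l ≤ 1 := mul_le_one₀ hl1 hl0 hl1
    have h2 : 0 ≤ τ' * T' := by positivity
    calc l * τ' * (l * T') = (l * l) * (τ' * T') := by ring
      _ ≤ 1 * 1 := mul_le_mul h1 hm1 h2 zero_le_one
      _ = 1 := one_mul 1
  have A := f_T hT hTU hτ (hττ.trans hτ1) hU1
  have B := f_L (P := T' ^ 2) (Q := τ' ^ 2) (L := l ^ 2) (sq_nonneg _) (sq_nonneg _) (sq_nonneg _)
    (pow_le_one₀ hl0 hl1) hz
  have h1τ : 0 ≤ 1 - τ ^ 2 := by linarith only [hτ1, hττ,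
                                   mul_nonneg (sub_nonneg.2 hτ) (sub_nonneg.2 hτ1),
                                   mul_nonneg (sub_nonneg.2 hτ) (sub_nonneg.2 hττ)]
  have hA : T * (1 + T ^ 2) * (1 + τ ^ 2 * U ^ 2) ^ 2 * (τ * (1 - τ ^ 2)) ≤
      U * (1 + U ^ 2) * (1 + τ ^ 2 * T ^ 2) ^ 2 * (τ * (1 - τ ^ 2)) :=
    mul_le_mul_of_nonneg_right A (mul_nonneg hτ h1τ)
  have eU : U ^ 2 = l ^ 2 * T' ^ 2 := by rw [hU]; ring
  have eτ2 : τ ^ 2 = l ^ 2 * τ' ^ 2 := by rw [eτ]; ring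
  have eL : τ ^ 2 * U ^ 2 = (l ^ 2) ^ 2 * (T' ^ 2 * τ' ^ 2) := by rw [eU, eτ2]; ring
  have hB : l ^ 2 * (1 + l ^ 2 * T' ^ 2) * (1 - l ^ 2 * τ' ^ 2) * (1 + T' ^ 2 * τ' ^ 2) ^ 2 *
      (τ' * T' * (1 + τ ^ 2 * T ^ 2) ^ 2) ≤
      (1 + T' ^ 2) * (1 - τ' ^ 2) * (1 + (l ^ 2) ^ 2 * (T' ^ 2 * τ' ^ 2)) ^ 2 *
      (τ' * T' * (1 + τ ^ 2 * T ^ 2) ^ 2) :=
    mul_le_mul_of_nonneg_right B (by positivity)
  have hA2 := mul_le_mul_of_nonneg_right hA (sq_nonneg (1 + T' ^ 2 * τ' ^ 2))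
  have e1 : U * (1 + U ^ 2) * (1 + τ ^ 2 * T ^ 2) ^ 2 * (τ * (1 - τ ^ 2)) *
      (1 + T' ^ 2 * τ' ^ 2) ^ 2 = l ^ 2 * (1 + l ^ 2 * T' ^ 2) * (1 - l ^ 2 * τ' ^ 2) *
      (1 + T' ^ 2 * τ' ^ 2) ^ 2 * (τ' * T' * (1 + τ ^ 2 * T ^ 2) ^ 2) := by
    have e2 : U * (1 + U ^ 2) * (1 + τ ^ 2 * T ^ 2) ^ 2 * (τ * (1 - τ ^ 2)) =
        (U * τ) * (1 + U ^ 2) * (1 - τ ^ 2) * (1 + τ ^ 2 * T ^ 2) ^ 2 := by ring
    have e3 : U * τ = l ^ 2 * (τ' * T') := by rw [hU, eτ]; ring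
    rw [e2, e3, eU]
    nth_rewrite 1 [eτ2]
    ring
  rw [e1] at hA2
  have k := hA2.trans hB
  rw [← eL] at k
  have hp : 0 < (1 + τ ^ 2 * U ^ 2) ^ 2 := by positivity
  apply le_of_mul_le_mul_right _ hp
  calc _ = T * (1 + T ^ 2) * (1 + τ ^ 2 * U ^ 2) ^ 2 * (τ * (1 - τ ^ 2)) *
      (1 + T' ^ 2 * τ' ^ 2) ^ 2 := by ring
    _ ≤ _ := k
    _ = _ := by ring

/-- Comparison of the imaginary parts of `tan² π v`. -/
theorem la_mono2 {s c x k S C X K : ℝ} (hs : 0 ≤ s) (hc : 0 < c) (hx : 0 ≤ x) (hk : 0 < k)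
    (hS : 0 ≤ S) (hC : 0 < C) (hK : 0 < K) (h1 : s ^ 2 + c ^ 2 = 1)
    (h2 : k ^ 2 = 1 + x ^ 2) (h3 : S ^ 2 + C ^ 2 = 1) (h4 : K ^ 2 = 1 + X ^ 2)
    (hz : X ^ 2 ≤ C ^ 2) (hxX : x < X) (hT : s * k * (C * X) ≤ c * x * (S * K)) :
    s * c * (x * k) * (C ^ 2 + X ^ 2) ^ 2 ≤ S * C * (X * K) * (c ^ 2 + x ^ 2) ^ 2 := by
  have hX : 0 < X := hx.trans_lt hxX
  obtain ⟨T, eT⟩ : ∃ T, T = s / c := ⟨_, rfl⟩
  obtain ⟨t, et⟩ : ∃ t, t = x / k := ⟨_, rfl⟩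
  obtain ⟨U, eU⟩ : ∃ U, U = S / C := ⟨_, rfl⟩
  obtain ⟨u, eu⟩ : ∃ u, u = X / K := ⟨_, rfl⟩
  have es : s = T * c := by rw [eT]; field_simp
  have ex : x = t * k := by rw [et]; field_simp
  have eS : S = U * C := by rw [eU]; field_simp
  have eX : X = u * K := by rw [eu]; field_simp
  have c1 : c ^ 2 * (1 + T ^ 2) = 1 := by
    have h : (T * c) ^ 2 + c ^ 2 = 1 := by rw [← es]; exact h1
    linear_combination h
  have c2 : C ^ 2 * (1 + U ^ 2) = 1 := by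
    have h : (U * C) ^ 2 + C ^ 2 = 1 := by rw [← eS]; exact h3
    linear_combination h
  have k1 : k ^ 2 * (1 - t ^ 2) = 1 := by
    have : k ^ 2 = 1 + (t * k) ^ 2 := by rw [← ex]; exact h2
    linarith only [this]
  have k2 : K ^ 2 * (1 - u ^ 2) = 1 := by
    have : K ^ 2 = 1 + (u * K) ^ 2 := by rw [← eX]; exact h4
    linarith only [this]
  have hT0 : 0 ≤ T := by rw [eT]; positivity
  have ht0 : 0 ≤ t := by rw [et]; positivity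
  have hU0 : 0 ≤ U := by rw [eU]; positivity
  have hu0 : 0 < u := by rw [eu]; positivity
  have hu1 : u ≤ 1 := by
    rw [eu, div_le_one hK]
    by_contra h0
    push Not at h0
    linarith only [h4, mul_pos (sub_pos.2 hxX) (sub_pos.2 h0),
      mul_pos (sub_pos.2 hK) (sub_pos.2 h0), mul_nonneg (sub_nonneg.2 hx) (sub_nonneg.2 h0.le)]
  have htu : t ≤ u := by
    rw [et, eu, div_le_div_iff₀ hk hK]
    have h7 : (x * K) ^ 2 ≤ (X * k) ^ 2 := by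
      rw [mul_pow, mul_pow, h2, h4]
      have := pow_le_pow_left₀ hx hxX.le 2
      linarith only [this]
    exact le_of_sq_le_sq h7 (by positivity)
  have hTu : T * u ≤ t * U := by
    rw [eT, eu, et, eU, div_mul_div_comm, div_mul_div_comm, div_le_div_iff₀ (by positivity)
      (by positivity)]
    linarith only [hT]
  have hz' : u ^ 2 * (2 + U ^ 2) ≤ 1 := by
    have g1 : C ^ 2 * (2 + U ^ 2) = 1 + C ^ 2 := by
      linear_combination c2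
    have g2 : X ^ 2 = u ^ 2 * (1 + X ^ 2) := by
      rw [← h4, eX]; ring
    have g3 : 0 < C ^ 2 * (1 + X ^ 2) := by positivity
    have g4 : u ^ 2 * (2 + U ^ 2) * (C ^ 2 * (1 + X ^ 2)) ≤ 1 * (C ^ 2 * (1 + X ^ 2)) := by
      calc u ^ 2 * (2 + U ^ 2) * (C ^ 2 * (1 + X ^ 2)) =
            (C ^ 2 * (2 + U ^ 2)) * (u ^ 2 * (1 + X ^ 2)) := by ring
        _ = (1 + C ^ 2) * X ^ 2 := by rw [g1, ← g2]
        _ ≤ _ := by linarith only [hz]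
    exact le_of_mul_le_mul_right g4 g3
  have key := f_TL hT0 ht0 hU0 hu0 htu hu1 hTu hz'
  have n1 : c ^ 2 + x ^ 2 = c ^ 2 * k ^ 2 * (1 + t ^ 2 * T ^ 2) := by
    have : c ^ 2 * k ^ 2 * (1 + t ^ 2 * T ^ 2) = c ^ 2 * k ^ 2 + (T * c) ^ 2 * (t * k) ^ 2 := by ring
    rw [this, ← es, ← ex, h2]
    linear_combination (-x ^ 2) * h1
  have n2 : C ^ 2 + X ^ 2 = C ^ 2 * K ^ 2 * (1 + U ^ 2 * u ^ 2) := by
    have : C ^ 2 * K ^ 2 * (1 + U ^ 2 * u ^ 2) = C ^ 2 * K ^ 2 + (U * C) ^ 2 * (u * K) ^ 2 := by ring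
    rw [this, ← eS, ← eX, h4]
    linear_combination (-X ^ 2) * h3
  have p1 : s * c * (x * k) = T * t * (c ^ 2 * k ^ 2) := by rw [es, ex]; ring
  have p2 : S * C * (X * K) = U * u * (C ^ 2 * K ^ 2) := by rw [eS, eX]; ring
  rw [n1, n2, p1, p2]
  have hp : 0 ≤ (c ^ 2 * k ^ 2) * (C ^ 2 * K ^ 2) * ((c ^ 2 * k ^ 2) * (C ^ 2 * K ^ 2)) := by
    positivity
  have := mul_le_mul_of_nonneg_left key hp
  have q1 : (c ^ 2 * (1 + T ^ 2)) * (k ^ 2 * (1 - t ^ 2)) = 1 := by rw [c1, k1, one_mul]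
  have q2 : (C ^ 2 * (1 + U ^ 2)) * (K ^ 2 * (1 - u ^ 2)) = 1 := by rw [c2, k2, one_mul]
  calc T * t * (c ^ 2 * k ^ 2) * (C ^ 2 * K ^ 2 * (1 + U ^ 2 * u ^ 2)) ^ 2 =
      (c ^ 2 * k ^ 2) * (C ^ 2 * K ^ 2) * ((c ^ 2 * k ^ 2) * (C ^ 2 * K ^ 2)) *
        (T * t * (1 + U ^ 2 * u ^ 2) ^ 2) / (c ^ 2 * k ^ 2) := by
        field_simp
    _ = (c ^ 2 * k ^ 2) * (C ^ 2 * K ^ 2) * ((c ^ 2 * k ^ 2) * (C ^ 2 * K ^ 2)) *
        (T * t * (1 + U ^ 2 * u ^ 2) ^ 2) * ((c ^ 2 * (1 + T ^ 2)) * (k ^ 2 * (1 - t ^ 2))) /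
          (c ^ 2 * k ^ 2) := by rw [q1, mul_one]
    _ = (c ^ 2 * k ^ 2) * (C ^ 2 * K ^ 2) * ((c ^ 2 * k ^ 2) * (C ^ 2 * K ^ 2)) *
        (T * t * (1 + T ^ 2) * (1 - t ^ 2) * (1 + U ^ 2 * u ^ 2) ^ 2) := by
        field_simp
    _ ≤ (c ^ 2 * k ^ 2) * (C ^ 2 * K ^ 2) * ((c ^ 2 * k ^ 2) * (C ^ 2 * K ^ 2)) *
        (U * u * (1 + U ^ 2) * (1 - u ^ 2) * (1 + t ^ 2 * T ^ 2) ^ 2) := this
    _ = (c ^ 2 * k ^ 2) * (C ^ 2 * K ^ 2) * ((c ^ 2 * k ^ 2) * (C ^ 2 * K ^ 2)) *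
        (U * u * (1 + t ^ 2 * T ^ 2) ^ 2) * ((C ^ 2 * (1 + U ^ 2)) * (K ^ 2 * (1 - u ^ 2))) /
          (C ^ 2 * K ^ 2) := by field_simp
    _ = (c ^ 2 * k ^ 2) * (C ^ 2 * K ^ 2) * ((c ^ 2 * k ^ 2) * (C ^ 2 * K ^ 2)) *
        (U * u * (1 + t ^ 2 * T ^ 2) ^ 2) / (C ^ 2 * K ^ 2) := by rw [q2, mul_one]
    _ = _ := by field_simp

end Pool.Agent.S3.T2
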