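import Pool.Agent.S3.W.Right
import Pool.Agent.S3.W2.LeftAlg2

/-!
# The left vertical of the polygon, `θ ≤ π / 4`
-/

set_option autoImplicit false

namespace Pool.Agent.S3.T2

open Complex
open Pool.Agent.H63.VC3 (hh)

/-- The sign pattern `+ -` is impossible on the left vertical. -/
theorem la_pattern2 {s c x k S C X K : ℝ} (hs : 0 ≤ s) (hc : 0 < c) (hx : 0 ≤ x) (hk : 0 < k)
    (hS : 0 ≤ S) (hC : 0 < C) (hX : 0 ≤ X) (hK : 0 < K) (h1 : s ^ 2 + c ^ 2 = 1)
    (h2 : k ^ 2 = 1 + x ^ 2) (h3 : S ^ 2 + C ^ 2 = 1) (h4 : K ^ 2 = 1 + X ^ 2)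
    (hz : X ^ 2 ≤ C ^ 2)
    (hG : S * C * (X * K) * (c ^ 2 + x ^ 2) ^ 2 < s * c * (x * k) * (C ^ 2 + X ^ 2) ^ 2) :
    S * C * (X * K) ≤ s * c * (x * k) ∨
      s * c * (x * k) - S * C * (X * K) ≤ s * c * (x * k) * (C ^ 2 * K ^ 2 - S ^ 2 * X ^ 2) -
        S * C * (X * K) * (c ^ 2 * k ^ 2 - s ^ 2 * x ^ 2) := by
  by_contra hcon
  push Not at hcon
  obtain ⟨hA, hB⟩ := hcon
  have hn : 0 < c ^ 2 + x ^ 2 := by positivity
  have hN : 0 < C ^ 2 + X ^ 2 := by positivity
  have hp : 0 ≤ s * c * (x * k) := by positivity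
  have hq : 0 ≤ S * C * (X * K) := by positivity
  rcases le_or_gt X x with hxX | hxX
  · -- `b' ≤ b`
    have hx2 : X ^ 2 ≤ x ^ 2 := pow_le_pow_left₀ hX hxX 2
    have n1 : (c ^ 2 + x ^ 2) ^ 2 < (C ^ 2 + X ^ 2) ^ 2 := by
      by_contra h0
      push Not at h0
      have := mul_le_mul hA.le h0 (by positivity) hq
      linarith only [this, hG]
    have n2 : c ^ 2 + x ^ 2 < C ^ 2 + X ^ 2 := lt_of_pow_lt_pow_left₀ 2 hN.le n1
    have c2 : c ^ 2 < C ^ 2 := by linarith only [n2, hx2]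
    have sc : s * c < S * C := by
      by_contra h0
      push Not at h0
      have h5 : X * K ≤ x * k := by
        apply mul_le_mul hxX _ hK.le hx
        apply le_of_sq_le_sq _ hk.le
        rw [h2, h4]; linarith only [hx2]
      have := mul_le_mul h0 h5 (by positivity) (by positivity)
      linarith only [this, hA]
    have sc2 : (s * c) ^ 2 < (S * C) ^ 2 := pow_lt_pow_left₀ sc (by positivity) two_ne_zero
    have c3 : c ^ 2 + C ^ 2 < 1 := by
      have : (C ^ 2 - c ^ 2) * (1 - c ^ 2 - C ^ 2) > 0 := by linarith only [sc2,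
                                                               mul_nonneg (sq_nonneg (C)) (sub_nonneg.2 h3.le),
                                                               mul_nonneg (sq_nonneg (C)) (sub_nonneg.2 h3.ge),
                                                               mul_nonneg (sq_nonneg (c)) (sub_nonneg.2 h1.le),
                                                               mul_nonneg (sq_nonneg (c)) (sub_nonneg.2 h1.ge)]
      have h5 : 0 < C ^ 2 - c ^ 2 := by linarith only [n2, hx2]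
      have := pos_of_mul_pos_of_nonneg h5.le this
      linarith only [this]
    have e1 : 1 - (c ^ 2 * k ^ 2 - s ^ 2 * x ^ 2) = s ^ 2 + (s ^ 2 - c ^ 2) * x ^ 2 := by
      rw [h2]; linear_combination (-1 : ℝ) * h1
    have e2 : 1 - (C ^ 2 * K ^ 2 - S ^ 2 * X ^ 2) = S ^ 2 + (S ^ 2 - C ^ 2) * X ^ 2 := by
      rw [h4]; linear_combination (-1 : ℝ) * h3
    have d1 : 0 < s ^ 2 - c ^ 2 := by linarith only [c3, n2, hx2, h1]
    have d2 : 0 < 1 - (c ^ 2 * k ^ 2 - s ^ 2 * x ^ 2) := by
      rw [e1]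
      have := mul_nonneg d1.le (sq_nonneg x)
      linarith only [this, c3, n2, hn, hz, h1]
    have d3 : 1 - (C ^ 2 * K ^ 2 - S ^ 2 * X ^ 2) ≤ 1 - (c ^ 2 * k ^ 2 - s ^ 2 * x ^ 2) := by
      rw [e1, e2]
      have f1 : (S ^ 2 - C ^ 2) * X ^ 2 ≤ (s ^ 2 - c ^ 2) * X ^ 2 :=
        mul_le_mul_of_nonneg_right (by linarith only [n2, hx2, h3, h1]) (sq_nonneg X)
      have f2 : (s ^ 2 - c ^ 2) * X ^ 2 ≤ (s ^ 2 - c ^ 2) * x ^ 2 :=
        mul_le_mul_of_nonneg_left hx2 d1.le
      linarith only [f2, f1, n2, hx2, h3, h1]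
    have g1 := mul_le_mul_of_nonneg_left d3 hp
    have g2 := mul_le_mul_of_nonneg_right hA.le d2.le
    linarith only [g2, g1, hB]
  · -- `b < b'`
    obtain ⟨P, hP⟩ : ∃ P, P = s * k := ⟨_, rfl⟩
    obtain ⟨Q, hQ⟩ : ∃ Q, Q = c * x := ⟨_, rfl⟩
    obtain ⟨P', hP'⟩ : ∃ P', P' = S * K := ⟨_, rfl⟩
    obtain ⟨Q', hQ'⟩ : ∃ Q', Q' = C * X := ⟨_, rfl⟩
    have e1 : 1 - (c ^ 2 * k ^ 2 - s ^ 2 * x ^ 2) = P ^ 2 - Q ^ 2 := by
      rw [hP, hQ]
      linear_combination (-(k ^ 2 - x ^ 2)) * h1 - h2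
    have e2 : 1 - (C ^ 2 * K ^ 2 - S ^ 2 * X ^ 2) = P' ^ 2 - Q' ^ 2 := by
      rw [hP', hQ']
      linear_combination (-(K ^ 2 - X ^ 2)) * h3 - h4
    have hP0 : 0 ≤ P := by rw [hP]; positivity
    have hQ0 : 0 ≤ Q := by rw [hQ]; positivity
    have hP0' : 0 ≤ P' := by rw [hP']; positivity
    have hQ0' : 0 ≤ Q' := by rw [hQ']; positivity
    have e3 : s * c * (x * k) = P * Q := by rw [hP, hQ]; ring
    have e4 : S * C * (X * K) = P' * Q' := by rw [hP', hQ']; ring
    have h5 : 0 < (P * P' + Q * Q') * (Q * P' - P * Q') := by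
      have h6 : P' * Q' * (P ^ 2 - Q ^ 2) < P * Q * (P' ^ 2 - Q' ^ 2) := by
        rw [← e1, ← e2, ← e3, ← e4]
        linarith only [hB]
      linarith only [h6]
    have h6 : P * Q' < Q * P' := by
      have h7 : 0 ≤ P * P' + Q * Q' := by positivity
      have := pos_of_mul_pos_of_nonneg h7 h5
      linarith only [this]
    have h7 : s * k * (C * X) ≤ c * x * (S * K) := by
      calc s * k * (C * X) = P * Q' := by rw [hP, hQ']
        _ ≤ Q * P' := h6.le
        _ = _ := by rw [hQ, hP']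
    have := la_mono2 hs hc hx hk hS hC hK h1 h2 h3 h4 hz hxX h7
    linarith only [this, hG]

/-- The left vertical above the real axis. -/
theorem gE_left_pos2 {a b a' b' h H η : ℝ} {y : ℂ} (ha : 0 ≤ a) (ha1 : a < 1 / 2) (ha' : 0 ≤ a')
    (ha1' : a' < 1 / 2) (hb : 0 ≤ b) (hb' : 0 ≤ b')
    (hz : Real.sinh (Real.pi * b') ^ 2 ≤ Real.cos (Real.pi * a') ^ 2)
    (hy0 : 0 < y.re) (hy1 : y.re < 1 / 2) (hyh : y.im = h) (hh : 0 < h)
    (hy : 1 / cos (Real.pi * y) ^ 2 = 1 / cos (Real.pi * ((a : ℂ) + b * I)) ^ 2 +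
      1 / cos (Real.pi * ((a' : ℂ) + ((-b' : ℝ) : ℂ) * I)) ^ 2) (hη : 0 ≤ η) (hηh : η ≤ H) :
    gE a b a' b' η ≤ max (gE a b a' b' 0) (gE a b a' b' H) := by
  have hpi := Real.pi_pos
  have ea : |a| < 1 / 2 := by rw [abs_of_nonneg ha]; exact ha1
  have ea' : |a'| < 1 / 2 := by rw [abs_of_nonneg ha']; linarith only [ha1']
  have ey : |y.re| < 1 / 2 := by rw [abs_of_pos hy0]; exact hy1
  have hn := nn_pos b ea
  have hn' := nn_pos b' ea'
  have hny := nn_pos h ey
  have hpy : 0 < pp y.re h := by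
    have h1 := sin_pi_pos hy0 (by linarith only [hy1])
    have h2 := cos_pi_pos ey
    have h3 : 0 < Real.sinh (Real.pi * h) := Real.sinh_pos_iff.2 (by positivity)
    have h4 := Real.cosh_pos (Real.pi * h)
    unfold pp
    positivity
  have e := congrArg Complex.im hy
  have ey2 : y = ((y.re : ℝ) : ℂ) + ((h : ℝ) : ℂ) * I := by rw [← hyh, re_add_im]
  rw [ey2, add_im, inv_cos_sq_im, inv_cos_sq_im, inv_cos_sq_im] at e
  have em : pp a' (-b') = -pp a' b' := by
    unfold pp
    rw [mul_neg, Real.sinh_neg, Real.cosh_neg]; ring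
  have en : nn a' (-b') = nn a' b' := by
    unfold nn
    rw [mul_neg, Real.sinh_neg]; ring
  rw [em, en] at e
  have hG : pp a' b' * nn a b ^ 2 < pp a b * nn a' b' ^ 2 := by
    have h1 : 0 < 2 * pp y.re h / nn y.re h ^ 2 := by positivity
    rw [e] at h1
    have h2 : 2 * pp a b / nn a b ^ 2 + 2 * -pp a' b' / nn a' b' ^ 2 =
        2 * (pp a b * nn a' b' ^ 2 - pp a' b' * nn a b ^ 2) / (nn a b ^ 2 * nn a' b' ^ 2) := by
      field_simp
      ring
    rw [h2] at h1
    have h3 : 0 < 2 * (pp a b * nn a' b' ^ 2 - pp a' b' * nn a b ^ 2) := by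
      by_contra hc
      push Not at hc
      have := div_nonpos_of_nonpos_of_nonneg hc
        (by positivity : 0 ≤ nn a b ^ 2 * nn a' b' ^ 2)
      linarith only [this, h1]
    linarith only [h3]
  have s0 : 0 ≤ Real.sin (Real.pi * a) := Real.sin_nonneg_of_nonneg_of_le_pi
    (mul_nonneg hpi.le ha) (by (refine le_of_not_gt fun hng => ?_; linarith only [hpi,
                                 mul_pos (sub_pos.2 ha1) (sub_pos.2 hpi),
                                 mul_pos (sub_pos.2 hng) (sub_pos.2 hy1),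
                                 mul_pos (sub_pos.2 hng) (sub_pos.2 hy0)]))
  have s0' : 0 ≤ Real.sin (Real.pi * a') := Real.sin_nonneg_of_nonneg_of_le_pi
    (mul_nonneg hpi.le ha') (by (refine le_of_not_gt fun hng => ?_; linarith only [hpi,
                                  mul_pos (sub_pos.2 ha1') (sub_pos.2 hpi),
                                  mul_pos (sub_pos.2 hng) (sub_pos.2 hy1),
                                  mul_pos (sub_pos.2 hng) (sub_pos.2 hy0)]))
  have c0 := cos_pi_pos ea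
  have c0' := cos_pi_pos ea'
  have x0 : 0 ≤ Real.sinh (Real.pi * b) := Real.sinh_nonneg_iff.2 (mul_nonneg hpi.le hb)
  have x0' : 0 ≤ Real.sinh (Real.pi * b') := Real.sinh_nonneg_iff.2 (mul_nonneg hpi.le hb')
  have k0 := Real.cosh_pos (Real.pi * b)
  have k0' := Real.cosh_pos (Real.pi * b')
  have pp0 : 0 ≤ pp a b := by unfold pp; positivity
  have pp0' : 0 ≤ pp a' b' := by unfold pp; positivity
  -- `a > 0`
  have hpp : 0 < pp a b := by
    rcases pp0.eq_or_lt with h0 | h0
    · rw [← h0, zero_mul] at hG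
      have := mul_nonneg pp0' (sq_nonneg (nn a b))
      linarith only [this, hG]
    · exact h0
  have ha0 : 0 < a := by
    rcases ha.eq_or_lt with h0 | h0
    · exfalso
      rw [← h0] at hpp
      unfold pp at hpp
      rw [mul_zero, Real.sin_zero, zero_mul, zero_mul] at hpp
      exact lt_irrefl _ hpp
    · exact h0
  rcases ha'.eq_or_lt with h0 | h0
  · -- `a' = 0`: limit
    have hc : Continuous fun t : ℝ => pp t b' := by
      unfold pp
      fun_prop
    have hev : ∀ᶠ t in nhdsWithin (0 : ℝ) (Set.Ioi 0), gE a b t b' η ≤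
        max (gE a b t b' 0) (gE a b t b' H) := by
      have hz0 : pp 0 b' < pp a b := by
        unfold pp at hpp ⊢
        rw [mul_zero, Real.sin_zero, zero_mul, zero_mul]
        exact hpp
      have e1 : ∀ᶠ t in nhdsWithin (0 : ℝ) (Set.Ioi 0), pp t b' < pp a b :=
        (hc.continuousAt.eventually_lt continuousAt_const hz0).filter_mono nhdsWithin_le_nhds
      have e2 : ∀ᶠ t in nhdsWithin (0 : ℝ) (Set.Ioi 0), t < 1 / 2 :=
        (continuousAt_id.eventually_lt continuousAt_const (by norm_num)).filter_mono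
          nhdsWithin_le_nhds
      filter_upwards [e1, e2, self_mem_nhdsWithin] with t h1 h2 h3
      exact gE_le ha0 ha1 h3 h2 hb hb' hη hηh (Or.inl h1.le)
    have l1 : Filter.Tendsto (fun t => gE a b t b' η) (nhdsWithin (0 : ℝ) (Set.Ioi 0))
        (nhds (gE a b 0 b' η)) :=
      ((gE_continuous_left a b b' η).tendsto 0).mono_left nhdsWithin_le_nhds
    have l2 : Filter.Tendsto (fun t => max (gE a b t b' 0) (gE a b t b' H))
        (nhdsWithin (0 : ℝ) (Set.Ioi 0)) (nhds (max (gE a b 0 b' 0) (gE a b 0 b' H))) :=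
      (((gE_continuous_left a b b' 0).max (gE_continuous_left a b b' H)).tendsto 0).mono_left
        nhdsWithin_le_nhds
    rw [← h0]
    exact le_of_tendsto_of_tendsto l1 l2 hev
  · apply gE_le ha0 ha1 h0 (by linarith only [ha1']) hb hb' hη hηh
    exact la_pattern2 s0 c0 x0 k0 s0' c0' x0' k0' (Real.sin_sq_add_cos_sq _)
      (by have := Real.cosh_sq (Real.pi * b); linarith only [this]) (Real.sin_sq_add_cos_sq _)
      (by have := Real.cosh_sq (Real.pi * b'); linarith only [this]) hz hG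

end Pool.Agent.S3.T2
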