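import Pool.Agent.S3.W.Pair
import Pool.Agent.S3.W2.Left2

/-!
# A pair of core points: the polygon, inner vertices with two half twists included

`v` and `w` are points of the first quadrant below the `u`-lines of height `θ` and `θ'`; the slots
are `op v` and `op (conj w)`.
-/

set_option autoImplicit false

namespace Pool.Agent.S3.T2

open Complex
open Pool.Agent.H25.RK (gdv gdv_re_lt gdv_hasDerivAt)

/-- Points of the first quadrant below the `u`-line with `re v ≤ 2/5`. -/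
structure Und (θ : ℝ) (v : ℂ) : Prop where
  re0 : 0 ≤ v.re
  re1 : v.re ≤ 2 / 5
  im0 : 0 ≤ v.im
  im1 : v.im ≤ bl θ v.re

/-- The heights: `θ ≤ π / 4`. -/
structure Ht (θ : ℝ) : Prop where
  pos : 0 < θ
  lt : θ < Real.pi / 2
  tan : Real.tan θ ^ 2 ≤ 1

section

variable {θ θ' : ℝ} {v w : ℂ}

theorem Und.abs (h : Und θ v) : |v.re| < 1 / 2 := by
  rw [abs_of_nonneg h.re0]; linarith only [h.re1]

theorem Ht.abs (h : Ht θ) : |θ| < Real.pi / 2 := by
  rw [abs_of_pos h.pos]; exact h.lt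

/-- Data of the coordinate. -/
theorem Und.u (h : Und θ v) (hθ : Ht θ) : 0 ≤ (uof v).re ∧ 0 ≤ (uof v).im ∧ (uof v).im ≤ θ ∧
    (uof v).im < Real.pi / 2 ∧ Real.tan (uof v).im ^ 2 ≤ 1 := by
  have h1 := uof_re_nonneg h.abs h.re0
  have h2 := uof_im_nonneg h.abs h.im0
  have h3 := uof_im_le h.abs hθ.abs h.im1
  refine ⟨h1, h2, h3, h3.trans_lt hθ.lt, ?_⟩
  have t0 : 0 ≤ Real.tan (uof v).im :=
    Real.tan_nonneg_of_nonneg_of_le_pi_div_two h2 (h3.trans hθ.lt.le)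
  have t1 : Real.tan (uof v).im ≤ Real.tan θ := by
    rcases h3.eq_or_lt with h4 | h4
    · rw [h4]
    · exact (Real.tan_lt_tan_of_lt_of_lt_pi_div_two (by linarith only [Real.pi_pos, h2]) hθ.lt h4).le
  have := pow_le_pow_left₀ t0 t1 2
  linarith only [hθ.tan, this]

theorem Und.conj_u (h : Und θ v) : uof ((starRingEnd ℂ) v) = (starRingEnd ℂ) (uof v) := by
  have e : (Real.pi : ℂ) * (starRingEnd ℂ) v = (starRingEnd ℂ) ((Real.pi : ℂ) * v) := by
    rw [map_mul, conj_ofReal]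
  rw [uof, uof, e, igd_conj (pi_re_lt h.abs)]

theorem Und.bl_sinh (h : Und θ v) (hθ : Ht θ) :
    Real.sinh (Real.pi * v.im) ^ 2 ≤ Real.cos (Real.pi * v.re) ^ 2 := by
  have h1 : Real.sinh (Real.pi * v.im) ≤ Real.tan θ * Real.cos (Real.pi * v.re) := by
    rw [← sinh_pi_bl]
    exact Real.sinh_le_sinh.2 (mul_le_mul_of_nonneg_left h.im1 Real.pi_pos.le)
  have h0 : 0 ≤ Real.sinh (Real.pi * v.im) :=
    Real.sinh_nonneg_iff.2 (mul_nonneg Real.pi_pos.le h.im0)
  have h2 := pow_le_pow_left₀ h0 h1 2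
  rw [mul_pow] at h2
  have h3 := mul_le_mul_of_nonneg_right hθ.tan (sq_nonneg (Real.cos (Real.pi * v.re)))
  linarith only [h3, h2]

/-! ### The pair -/

/-- Both points. -/
structure Pr (θ θ' : ℝ) (v w : ℂ) : Prop where
  hv : Und θ v
  hw : Und θ' w
  hθ : Ht θ
  hθ' : Ht θ'
  S : θ + θ' < Real.pi / 2

theorem Pr.symm (h : Pr θ θ' v w) : Pr θ' θ w v :=
  ⟨h.hw, h.hv, h.hθ', h.hθ, by have := h.S; linarith only [this]⟩

theorem Pr.qo (h : Pr θ θ' v w) : QO (uof v) ((starRingEnd ℂ) (uof w)) := by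
  obtain ⟨u1, u2, u3, u4, u5⟩ := h.hv.u h.hθ
  obtain ⟨w1, w2, w3, w4, w5⟩ := h.hw.u h.hθ'
  refine ⟨?_, u1, by rwa [conj_re], u2, by rw [conj_im]; linarith only [w2]⟩
  rw [Reg, conj_im, abs_neg, abs_of_nonneg u2, abs_of_nonneg w2]
  linarith only [h.S, w3, u3]

theorem Pr.gdv_u (h : Pr θ θ' v w) : gdv (uof v) = v := gdv_uof h.hv.abs

theorem Pr.gdv_w (h : Pr θ θ' v w) : gdv ((starRingEnd ℂ) (uof w)) = (starRingEnd ℂ) w := by
  rw [← h.hw.conj_u, gdv_uof (conj_abs h.hw.abs)]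

theorem Pr.yv_re (h : Pr θ θ' v w) : 0 < (yv v w).re ∧ (yv v w).re < 1 / 2 :=
  ⟨yy_re_pos h.qo.reg, yy_re_lt h.qo.reg⟩

/-- The equation of the critical point. -/
theorem Pr.yv_eq (h : Pr θ θ' v w) : 1 / cos (Real.pi * yv v w) ^ 2 =
    1 / cos (Real.pi * v) ^ 2 + 1 / cos (Real.pi * (starRingEnd ℂ) w) ^ 2 := by
  have h1 := cos_yy_sq h.qo.reg
  rw [← cosh_sq_of h.hv.abs, ← cosh_sq_of (conj_abs h.hw.abs), h.hw.conj_u]
  have h2 : cos (Real.pi * yv v w) ^ 2 ≠ 0 := pow_ne_zero 2 (cos_yy_ne h.qo.reg)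
  rw [div_eq_iff h2, mul_comm]
  exact h1.symm

theorem cosh_sq_re_ge {u : ℂ} {κ : ℝ} (hκ : 0 ≤ κ) (hκ1 : κ ≤ 1) (h0 : 0 ≤ u.im)
    (h1 : u.im < Real.pi / 2) (h2 : Real.tan u.im ^ 2 ≤ κ) : 1 / (1 + κ) ≤ (cosh u ^ 2).re := by
  have hc : 0 < Real.cos u.im := Real.cos_pos_of_mem_Ioo ⟨by linarith only [h1, h0], h1⟩
  have e : (cosh u ^ 2).re = Real.cos u.im ^ 2 + Real.sinh u.re ^ 2 *
      (Real.cos u.im ^ 2 - Real.sin u.im ^ 2) := by
    rw [sq, mul_re, cosh_re', cosh_im']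
    have := Real.cosh_sq u.re
    linear_combination (Real.cos u.im ^ 2) * this
  have h3 := Real.sin_sq_add_cos_sq u.im
  have h4 : Real.sin u.im ^ 2 ≤ κ * Real.cos u.im ^ 2 := by
    rw [Real.tan_eq_sin_div_cos, div_pow, div_le_iff₀ (by positivity)] at h2
    exact h2
  have h5 : 0 ≤ Real.sinh u.re ^ 2 * (Real.cos u.im ^ 2 - Real.sin u.im ^ 2) := by
    apply mul_nonneg (sq_nonneg _)
    linarith only [h4, mul_nonneg (sq_nonneg (Real.cos u.im)) (sub_nonneg.2 hκ1)]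
  rw [e, div_le_iff₀ (by linarith only [hκ])]
  linarith only [h5, h4, h3, mul_nonneg (sub_nonneg.2 hκ) (sub_nonneg.2 h5)]

theorem Pr.yv_im (h : Pr θ θ' v w) : |(yv v w).im| ≤ 1 := by
  obtain ⟨u1, u2, u3, u4, u5⟩ := h.hv.u h.hθ
  obtain ⟨w1, w2, w3, w4, w5⟩ := h.hw.u h.hθ'
  have k1 := cosh_sq_re_ge zero_le_one le_rfl u2 u4 u5
  have k2 := cosh_sq_re_ge zero_le_one le_rfl w2 w4 w5
  have k3 : (cosh ((starRingEnd ℂ) (uof w)) ^ 2).re = (cosh (uof w) ^ 2).re := by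
    rw [← conj_cosh', ← map_pow, conj_re]
  have h1 := cos_yy_sq h.qo.reg
  have h2 : 1 ≤ normSq (cosh (uof v) ^ 2 + cosh ((starRingEnd ℂ) (uof w)) ^ 2) := by
    have h3 : 1 ≤ (cosh (uof v) ^ 2 + cosh ((starRingEnd ℂ) (uof w)) ^ 2).re := by
      rw [add_re, k3]; linarith only [k2, k1]
    rw [normSq_apply]
    linarith only [h3, mul_self_nonneg ((cosh (uof v) ^ 2 + cosh ((starRingEnd ℂ) (uof w)) ^ 2).im),
      mul_nonneg (sub_nonneg.2 h3) (sub_nonneg.2 h3)]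
  have h3 := congrArg normSq h1
  rw [map_mul, map_pow, map_one] at h3
  change normSq (cos (Real.pi * yv v w)) ^ 2 * _ = 1 at h3
  by_contra hc
  push Not at hc
  have h4 : 1 < normSq (cos (Real.pi * yv v w)) := by
    have e := nn_eq (yv v w).re (yv v w).im
    rw [re_add_im] at e
    rw [e, nn]
    have h5 : 1 < Real.sinh (Real.pi * (yv v w).im) ^ 2 := by
      have h6 : 1 < |Real.sinh (Real.pi * (yv v w).im)| := by
        rw [Real.abs_sinh]
        have h7 : |Real.pi * (yv v w).im| ≤ Real.sinh |Real.pi * (yv v w).im| :=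
          Real.self_le_sinh_iff.2 (abs_nonneg _)
        rw [abs_mul, abs_of_pos Real.pi_pos] at h7
        rw [abs_mul, abs_of_pos Real.pi_pos]
        have := Real.pi_gt_three
        linarith only [this, h7, mul_pos (sub_pos.2 u4) (sub_pos.2 hc),
          mul_nonneg (sub_nonneg.2 u2) (sub_nonneg.2 hc.le)]
      rw [← sq_abs]
      linarith only [h6, mul_pos (sub_pos.2 h6) (sub_pos.2 h6)]
    have := sq_nonneg (Real.cos (Real.pi * (yv v w).re))
    linarith only [this, h5]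
  have h5 : 1 < normSq (cos (Real.pi * yv v w)) ^ 2 := by linarith only [h4,
                                                            mul_pos (sub_pos.2 h4) (sub_pos.2 h4)]
  linarith only [h5, h3,
    mul_nonneg (sq_nonneg (normSq (cos (↑Real.pi * yv v w)))) (sub_nonneg.2 h2)]

/-- The real part of `1 / cos²` in terms of `q = cos² π a`, `X = sinh² π b`. -/
noncomputable def Gf (q X : ℝ) : ℝ := (q - X + 2 * q * X) / (q + X) ^ 2

theorem inv_cos_sq_re (a b : ℝ) : (1 / cos (Real.pi * ((a : ℂ) + b * I)) ^ 2).re =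
    Gf (Real.cos (Real.pi * a) ^ 2) (Real.sinh (Real.pi * b) ^ 2) := by
  rw [one_div, inv_re, cos_sq_line_re, map_pow, nn_eq, nn, Gf]
  congr 1
  have h1 := Real.sin_sq_add_cos_sq (Real.pi * a)
  have h2 := Real.cosh_sq (Real.pi * b)
  rw [h2]
  linear_combination (-(Real.sinh (Real.pi * b) ^ 2)) * h1

/-- The comparison: a point farther up and farther left has no larger `Gf`, up to `g`. -/
theorem Gf_lt {q X q' X' g : ℝ} (hq : 0 < q) (hX : 0 ≤ X) (hz : X ≤ q)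
    (hqq : q ≤ q') (hq1 : q' ≤ 1) (hXX : X ≤ X') (hg : 0 < g)
    (hB : 4 * X * (1 + X) / (q + X) - (1 + 2 * X) ≤ 0 ∨
      (4 * X * (1 + X) / (q + X) - (1 + 2 * X)) ^ 2 < 8 * X * (1 + X) * g) :
    Gf q' X' < Gf q X + g := by
  have hq' : 0 < q' := by linarith only [hqq, hq]
  have hX' : 0 ≤ X' := hX.trans hXX
  -- the value at `q' X`
  have s1 : Gf q' X' ≤ Gf q' X ∨ Gf q' X' ≤ 0 := by
    rcases le_or_gt (q' - X' + 2 * q' * X') 0 with h | h
    · right
      unfold Gf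
      exact div_nonpos_of_nonpos_of_nonneg h (by positivity)
    · left
      unfold Gf
      rw [div_le_div_iff₀ (by positivity) (by positivity)]
      have e : (q' - X + 2 * q' * X) * (q' + X') ^ 2 - (q' - X' + 2 * q' * X') * (q' + X) ^ 2 =
          (X' - X) * (q' ^ 2 * (3 - 2 * q') + q' * (X + X') - X * (X' * (1 - 2 * q'))) := by ring
      have h2 : 0 ≤ q' ^ 2 * (3 - 2 * q') + q' * (X + X') - X * (X' * (1 - 2 * q')) := by
        have h3 : X' * (1 - 2 * q') ≤ q' := by linarith only [h]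
        have h4 := mul_le_mul_of_nonneg_left h3 hX
        have h5 : 0 ≤ q' ^ 2 * (3 - 2 * q') := mul_nonneg (sq_nonneg _) (by linarith only [hq1])
        have h6 : 0 ≤ q' * X' := by positivity
        linarith only [h6, h5, h4]
      have := mul_nonneg (sub_nonneg.2 hXX) h2
      linarith only [this]
  have hG0 : 0 ≤ Gf q X := by
    unfold Gf
    apply div_nonneg _ (by positivity)
    linarith only [hz, mul_nonneg (sub_nonneg.2 hq.le) (sub_nonneg.2 hX)]
  rcases s1 with s1 | s1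
  · refine s1.trans_lt ?_
    have hw : 0 < q + X := by linarith only [hX, hq]
    have hw' : 0 < q' + X := by linarith only [hqq, hX, hq]
    obtain ⟨W, hW⟩ : ∃ W, W = 1 / (q + X) := ⟨_, rfl⟩
    obtain ⟨W', hW'⟩ : ∃ W, W = 1 / (q' + X) := ⟨_, rfl⟩
    have e1 : Gf q X = (1 + 2 * X) * W - 2 * X * (1 + X) * W ^ 2 := by
      rw [Gf, hW]; field_simp; ring
    have e2 : Gf q' X = (1 + 2 * X) * W' - 2 * X * (1 + X) * W' ^ 2 := by
      rw [Gf, hW']; field_simp; ring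
    have hWW : W' ≤ W := by
      rw [hW, hW']
      exact one_div_le_one_div_of_le hw (by linarith only [hqq])
    obtain ⟨d, hd⟩ : ∃ d, d = W - W' := ⟨_, rfl⟩
    have hd0 : 0 ≤ d := by rw [hd]; linarith only [hWW]
    obtain ⟨B, hB'⟩ : ∃ B, B = 4 * X * (1 + X) / (q + X) - (1 + 2 * X) := ⟨_, rfl⟩
    rw [← hB'] at hB
    have hBW : B = 4 * X * (1 + X) * W - (1 + 2 * X) := by rw [hB', hW]; ring
    obtain ⟨A, hA⟩ : ∃ A, A = 2 * X * (1 + X) := ⟨_, rfl⟩
    have hA0 : 0 ≤ A := by rw [hA]; positivity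
    have e3 : Gf q' X - Gf q X = d * B - A * d ^ 2 := by
      rw [e1, e2, hBW, hA, hd]; ring
    rcases hB with h | h
    · have := mul_nonpos_of_nonneg_of_nonpos hd0 h
      have := mul_nonneg hA0 (sq_nonneg d)
      linarith [this, e3, hg]
    · have hBA : B ^ 2 < 4 * A * g := by rw [hA]; linarith only [h]
      have h5 : 0 < 4 * A * (g - (d * B - A * d ^ 2)) := by
        have : 4 * A * (g - (d * B - A * d ^ 2)) = (2 * A * d - B) ^ 2 +
          (4 * A * g - B ^ 2) := by ring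
        rw [this]
        have := sq_nonneg (2 * A * d - B)
        linarith only [this, hBA]
      have := pos_of_mul_pos_of_nonneg (by linarith only [hA0] : 0 ≤ 4 * A) h5
      linarith only [this, e3]
  · linarith only [s1, hG0, hg]

/-- No loss. -/
def NL (v w : ℂ) : Prop := (yv v w - v).im ≤ 0 ∨ 0 ≤ (yv v w - v).re

/-- There is no loss if the bulge is small. -/
theorem Pr.nl_of (h : Pr θ θ' v w) {κ : ℝ} (hκ : 0 ≤ κ) (hκ1 : κ ≤ 1)
    (hw : Real.tan θ' ^ 2 ≤ κ)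
    (hB : 4 * Real.sinh (Real.pi * v.im) ^ 2 * (1 + Real.sinh (Real.pi * v.im) ^ 2) /
          (Real.cos (Real.pi * v.re) ^ 2 + Real.sinh (Real.pi * v.im) ^ 2) -
          (1 + 2 * Real.sinh (Real.pi * v.im) ^ 2) ≤ 0 ∨
      (4 * Real.sinh (Real.pi * v.im) ^ 2 * (1 + Real.sinh (Real.pi * v.im) ^ 2) /
          (Real.cos (Real.pi * v.re) ^ 2 + Real.sinh (Real.pi * v.im) ^ 2) -
          (1 + 2 * Real.sinh (Real.pi * v.im) ^ 2)) ^ 2 <
        8 * Real.sinh (Real.pi * v.im) ^ 2 * (1 + Real.sinh (Real.pi * v.im) ^ 2) *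
          (1 / (1 + κ))) : NL v w := by
  have hpi := Real.pi_pos
  unfold NL
  rw [sub_re, sub_im]
  by_contra hc
  push Not at hc
  obtain ⟨h1, h2⟩ := hc
  have hy := h.yv_re
  have e := congrArg Complex.re h.yv_eq
  have ev : v = ((v.re : ℝ) : ℂ) + ((v.im : ℝ) : ℂ) * I := (re_add_im v).symm
  have ey : yv v w = (((yv v w).re : ℝ) : ℂ) + (((yv v w).im : ℝ) : ℂ) * I := (re_add_im _).symm
  have e1 : (1 / cos (Real.pi * yv v w) ^ 2).re = Gf (Real.cos (Real.pi * (yv v w).re) ^ 2)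
      (Real.sinh (Real.pi * (yv v w).im) ^ 2) := by
    conv_lhs => rw [ey]
    exact inv_cos_sq_re _ _
  have e2 : (1 / cos (Real.pi * v) ^ 2).re = Gf (Real.cos (Real.pi * v.re) ^ 2)
      (Real.sinh (Real.pi * v.im) ^ 2) := by
    conv_lhs => rw [ev]
    exact inv_cos_sq_re _ _
  have e3 : 1 / (1 + κ) ≤ (1 / cos (Real.pi * (starRingEnd ℂ) w) ^ 2).re := by
    obtain ⟨w1, w2, w3, w4, w5⟩ := h.hw.u h.hθ'
    have w6 : Real.tan (uof w).im ^ 2 ≤ κ := by
      have t0 : 0 ≤ Real.tan (uof w).im :=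
        Real.tan_nonneg_of_nonneg_of_le_pi_div_two w2 w4.le
      have t1 : Real.tan (uof w).im ≤ Real.tan θ' := by
        rcases w3.eq_or_lt with h4 | h4
        · rw [h4]
        · exact (Real.tan_lt_tan_of_lt_of_lt_pi_div_two (by linarith only [w2, hpi]) h.hθ'.lt
            h4).le
      exact (pow_le_pow_left₀ t0 t1 2).trans hw
    have k := cosh_sq_re_ge hκ hκ1 w2 w4 w6
    rw [← cosh_sq_of (conj_abs h.hw.abs), h.hw.conj_u, ← conj_cosh', ← map_pow, conj_re]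
    exact k
  rw [add_re, e1, e2] at e
  have hcv : 0 < Real.cos (Real.pi * v.re) ^ 2 := pow_pos (cos_pi_pos h.hv.abs) 2
  have c1 : Real.cos (Real.pi * v.re) ^ 2 ≤ Real.cos (Real.pi * (yv v w).re) ^ 2 := by
    apply pow_le_pow_left₀ (cos_pi_pos h.hv.abs).le
    apply Real.cos_le_cos_of_nonneg_of_le_pi
    · exact mul_nonneg hpi.le hy.1.le
    · (refine le_of_not_gt fun hng => ?_; linarith only [mul_nonneg (sub_nonneg.2 hpi.le) (sub_nonneg.2 h.hv.re1),
        mul_pos (sub_pos.2 hpi) (sub_pos.2 hy.2), mul_pos (sub_pos.2 hpi) (sub_pos.2 hy.1),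
        mul_nonneg (sub_nonneg.2 hng.le) (sub_nonneg.2 h.hv.re1),
        mul_pos (sub_pos.2 hng) (sub_pos.2 hy.1), mul_pos (sub_pos.2 hng) (sub_pos.2 h2)])
    · exact mul_le_mul_of_nonneg_left (by linarith only [h2]) hpi.le
  have c2 : Real.sinh (Real.pi * v.im) ^ 2 ≤ Real.sinh (Real.pi * (yv v w).im) ^ 2 := by
    apply pow_le_pow_left₀ (Real.sinh_nonneg_iff.2 (mul_nonneg hpi.le h.hv.im0))
    exact Real.sinh_le_sinh.2 (mul_le_mul_of_nonneg_left (by linarith only [h1]) hpi.le)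
  have k := Gf_lt (g := 1 / (1 + κ)) hcv (sq_nonneg (Real.sinh (Real.pi * v.im)))
    (h.hv.bl_sinh h.hθ) c1 (Real.cos_sq_le_one _) c2 (by positivity) hB
  linarith only [k, e3, e]

theorem yv_swap (h : Pr θ θ' v w) : yv w v = (starRingEnd ℂ) (yv v w) := by
  have e := yy_conj (u := uof w) (w := (starRingEnd ℂ) (uof v)) h.symm.qo.reg
  rw [conj_conj] at e
  rw [yv, yv, ← conj_conj (yy (uof w) ((starRingEnd ℂ) (uof v))), ← e, yy_comm]

/-- The growth rate at the critical point is the real part of `Φ`. -/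
theorem Pr.bridge {Φ : ℂ → ℂ → ℂ} (hΦ : IsPhi Φ) (h0 : Φ 0 0 = c00) (h : Pr θ θ' v w)
    (n1 : NL v w) (n2 : NL w v) :
    EE (.op v) (.op ((starRingEnd ℂ) w)) (yv v w) = (Φ v ((starRingEnd ℂ) w)).re := by
  have hq := h.qo
  have hul : |(uof v).im| < Real.pi / 2 := uof_im_lt h.hv.abs
  have l1 : lossL (yy (uof v) ((starRingEnd ℂ) (uof w)) - gdv (uof v)) = 0 := by
    apply lossL_zero
    rw [h.gdv_u]
    exact n1
  have l2 : lossL ((starRingEnd ℂ) (yy (uof v) ((starRingEnd ℂ) (uof w)) -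
      gdv ((starRingEnd ℂ) (uof w)))) = 0 := by
    apply lossL_zero
    rw [h.gdv_w, map_sub, conj_conj]
    have := n2
    unfold NL at this
    rw [yv_swap h] at this
    exact this
  have k := bridge_QO_re hΦ h0 hq
  rw [l1, l2, sub_zero, sub_zero, ← gdv_eq_gd hul, ← gdv_eq_gd hq.reg.right, h.gdv_u,
    h.gdv_w] at k
  exact k.symm


/-- The heights on the side of the critical point. -/
def Side (y : ℂ) (H : ℝ) : Prop := (0 < y.im ∧ 0 ≤ H) ∨ (y.im < 0 ∧ H ≤ 0) ∨ H = 0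

theorem side_self (y : ℂ) : Side y y.im := by
  rcases lt_trichotomy y.im 0 with h | h | h
  · exact Or.inr (Or.inl ⟨h, h.le⟩)
  · exact Or.inr (Or.inr h)
  · exact Or.inl ⟨h, h.le⟩

/-- The left vertical. -/
theorem Pr.left (h : Pr θ θ' v w) {H : ℝ} (hH : Side (yv v w) H) {Y : ℝ} (hY : Y ∈ Set.uIcc 0 H) :
    EE (.op v) (.op ((starRingEnd ℂ) w)) (((0 : ℝ) : ℂ) + Y * I) ≤
      max (Real.pi * (v.im + w.im))
        (EE (.op v) (.op ((starRingEnd ℂ) w)) (((0 : ℝ) : ℂ) + H * I)) := by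
  have key : ∀ {θ θ' : ℝ} {v w : ℂ}, Pr θ θ' v w → 0 < (yv v w).im → ∀ {H Y : ℝ}, 0 ≤ Y →
      Y ≤ H → gE v.re v.im w.re w.im Y ≤
        max (Real.pi * (v.im + w.im)) (gE v.re v.im w.re w.im H) := by
    intro θ θ' v w h hh H Y h0 h1
    have e := h.yv_eq
    have ew : (starRingEnd ℂ) w = (w.re : ℂ) + ((-w.im : ℝ) : ℂ) * I := by
      conv_lhs => rw [← re_add_im w]
      exact conj_line _ _
    rw [ew] at e
    have hv1 := h.hv.abs
    rw [abs_of_nonneg h.hv.re0] at hv1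
    have := gE_left_pos2 (y := yv v w) (h := (yv v w).im) (H := H) h.hv.re0 hv1 h.hw.re0
      (by linarith only [h.hw.re1]) h.hv.im0
      h.hw.im0 (h.hw.bl_sinh h.hθ')
      h.yv_re.1 h.yv_re.2 rfl hh (by rw [re_add_im]; exact e) h0 h1
    rwa [EE_zero h.hv.im0 h.hw.im0] at this
  have eE : ∀ (v w : ℂ) (Y : ℝ), EE (.op v) (.op ((starRingEnd ℂ) w)) (((0 : ℝ) : ℂ) + Y * I) =
      gE v.re v.im w.re w.im Y := by
    intro v w Y
    have ew : (starRingEnd ℂ) w = (w.re : ℂ) + ((-w.im : ℝ) : ℂ) * I := by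
      conv_lhs => rw [← re_add_im w]
      exact conj_line _ _
    rw [gE, re_add_im, ew]
  rw [eE, eE]
  rcases hH with ⟨hh, h0⟩ | ⟨hh, h0⟩ | h0
  · rw [Set.uIcc_of_le h0] at hY
    exact key h hh hY.1 hY.2
  · rw [Set.uIcc_of_ge h0] at hY
    have hs : (yv w v).im = -(yv v w).im := by rw [yv_swap h, conj_im]
    have := key h.symm (by rw [hs]; linarith only [hh]) (Y := -Y) (H := -H) (by linarith only [hY.2])
      (by linarith only [hY.1])
    rw [gE_swap v.re, gE_swap v.re v.im w.re w.im H, add_comm v.im]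
    exact this
  · rw [h0, Set.uIcc_self, Set.mem_singleton_iff] at hY
    rw [h0, hY]
    exact le_max_right _ _

end

end Pool.Agent.S3.T2
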