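import Pool.Agent.S3.W2.P1T

/-!
# Soundness of the test of phase 1
-/

set_option autoImplicit false

namespace Pool.Agent.S3.P1

open Real Pool.Agent.S3.NI Pool.Agent.S3.T2

theorem bif_tf {c x : Bool} (h : (bif c then x else false) = true) : c = true ∧ x = true := by
  rcases c with _ | _
  · exact absurd h Bool.false_ne_true
  · exact ⟨rfl, h⟩

theorem bif_tt {c x : Bool} (h : (bif c then true else x) = true) : c = true ∨ x = true := by
  rcases c with _ | _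
  · exact Or.inr h
  · exact Or.inl rfl

theorem bif_ff {c x : Bool} (h : (bif c then false else x) = true) : c = false ∧ x = true := by
  rcases c with _ | _
  · exact ⟨rfl, h⟩
  · exact absurd h Bool.false_ne_true

/-- `S²` -/
noncomputable def Sq (p b : ℝ) : ℝ := b ^ 2 * (1 + p ^ 2) * (1 - b ^ 2)⁻¹
/-- `sinh² πh` -/
noncomputable def Hq (k : ℝ) : ℝ := k ^ 2 * (1 - k ^ 2)⁻¹
noncomputable def St (z : ℝ) : ℝ := z + z
noncomputable def Ct (z : ℝ) : ℝ := 1 - z ^ 2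
noncomputable def E2 (p b z k : ℝ) : ℝ :=
  (1 + k * b) ^ 2 * (St z + Ct z * p) ^ 2 + (k + b) ^ 2 * (Ct z - St z * p) ^ 2
noncomputable def D2 (p b z k : ℝ) : ℝ :=
  (1 - k * b) ^ 2 * (St z - Ct z * p) ^ 2 + (b - k) ^ 2 * (Ct z + St z * p) ^ 2
noncomputable def Mq (z k : ℝ) : ℝ := (1 + z ^ 2) ^ 2 * (1 - k ^ 2)
noncomputable def Ny (z k : ℝ) : ℝ := Ct z ^ 2 + St z ^ 2 * k ^ 2
noncomputable def Gq (p b : ℝ) : ℝ := (1 + p ^ 2) * (1 - b ^ 2)
noncomputable def Wq (z k r i : ℝ) : ℝ :=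
  (Mq z k * r + St z ^ 2 * k ^ 2 - Ct z ^ 2) ^ 2 +
    (Mq z k * i + (Ct z * St z * k + Ct z * St z * k)) ^ 2
noncomputable def Rq (p b z k : ℝ) : ℝ :=
  ((1 - (k * b) ^ 2) * St z ^ 2 + (b ^ 2 - k ^ 2) * (St z ^ 2 * p ^ 2)) -
    ((1 - (k * b) ^ 2) * (Ct z ^ 2 * p ^ 2) + (b ^ 2 - k ^ 2) * Ct z ^ 2)
noncomputable def Iq (p b z k : ℝ) : ℝ :=
  (b + b) * (1 - k ^ 2) * (Ct z * St z * (1 + p ^ 2)) -
    (k + k) * (1 - b ^ 2) * (p * (1 + z ^ 2) ^ 2)

/-- The hypotheses on the variables. -/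
structure Hyp (P : Par) (p b z k : ℝ) : Prop where
  p1 : 1 ≤ p
  k0 : 0 < k
  kb : 20 * k ≤ 19 * b
  b1 : b < 1
  z0 : 0 ≤ z
  z1 : z ≤ 1
  s0 : (P.slo : ℝ) ≤ Sq p b * 1073741824
  s1 : Sq p b * 1073741824 ≤ P.shi
  h0 : (P.klo : ℝ) * Sq p b ≤ Hq k * 1073741824
  h1 : Hq k * 1073741824 ≤ P.khi * Sq p b

/-- The conclusion: either the point is not critical, or the last comparison holds. -/
def Concl (F : Fn) (P : Par) (p b z k : ℝ) : Prop := ∀ r i α : ℝ, Mem r P.r → Mem i P.i →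
  Ang α (Rq p b z k) (Iq p b z k) →
  (Ny z k ^ 2 * Gq p b) ^ 2 = E2 p b z k * D2 p b z k * Wq z k r i →
  ∃ (S2 T s2 : N) (q : ℕ) (an : ℕ × ℕ), F S2 T s2 q an = true ∧ Mem (Sq p b) S2 ∧
    Mem (p * b) T ∧ Mem (s2R p b) s2 ∧
    (q : ℝ) ≤ Real.log (E2 p b z k / D2 p b z k) / 4 * 1073741824 ∧
    (an.1 : ℝ) - an.2 ≤ α * 1073741824

section

variable {F : Fn} {P : Par} {p b z k r i α : ℝ} {A B C D : N}

theorem Hyp.b0 (H : Hyp P p b z k) : 0 < b := by linarith [H.k0, H.kb]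
theorem Hyp.k1 (H : Hyp P p b z k) : k < 1 := by linarith [H.k0, H.kb, H.b1]
theorem Hyp.kltb (H : Hyp P p b z k) : k < b := by linarith [H.k0, H.kb, H.b0]
theorem Hyp.b2 (H : Hyp P p b z k) : b ^ 2 < 1 := by nlinarith [H.b0, H.b1]
theorem Hyp.k2 (H : Hyp P p b z k) : k ^ 2 < 1 := by nlinarith [H.k0, H.k1]
theorem Hyp.kb1 (H : Hyp P p b z k) : k * b < 1 := by nlinarith [H.k0, H.k1, H.b0, H.b1]
theorem Hyp.z2 (H : Hyp P p b z k) : z ^ 2 ≤ 1 := by nlinarith [H.z0, H.z1]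
theorem Hyp.D2pos (H : Hyp P p b z k) : 0 < D2 p b z k := by
  unfold D2
  have h1 : 0 < b - k := by linarith [H.kltb]
  have h2 : 0 < Ct z + St z * p := by
    unfold Ct St
    have h3 := H.z0
    have h4 := H.z1
    have h5 := H.p1
    have h6 := mul_nonneg h3 (by linarith : (0 : ℝ) ≤ p - 1)
    nlinarith
  have h3 : 0 < (b - k) ^ 2 * (Ct z + St z * p) ^ 2 := by positivity
  have h4 : 0 ≤ (1 - k * b) ^ 2 * (St z - Ct z * p) ^ 2 := by positivity
  linarith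
theorem Hyp.Nypos (H : Hyp P p b z k) : 0 < Ny z k := by
  unfold Ny Ct St
  have h3 := H.z0
  have h4 := H.z1
  have h5 := H.k0
  rcases h3.eq_or_lt with h | h
  · rw [← h]; norm_num
  · have : 0 < (z + z) ^ 2 * k ^ 2 := by positivity
    nlinarith [sq_nonneg (1 - z ^ 2)]
theorem Hyp.Gpos (H : Hyp P p b z k) : 0 < Gq p b := by
  unfold Gq
  have := H.b2
  have h : 0 < 1 - b ^ 2 := by linarith
  positivity

theorem div_ge1 {e d : ℝ} {E D : N} (he : Mem e E) (hd : Mem d D) (d0 : 0 < d) :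
    ((Nat.div (Nat.mul E.lo 1073741824) D.hi : ℕ) : ℝ) ≤ e / d * 1073741824 := by
  have h1 := nat_div_le (Nat.mul E.lo 1073741824) D.hi
  rw [cast_mul', Nat.cast_ofNat] at h1
  have hD : (0 : ℝ) < D.hi := lt_of_lt_of_le (by positivity) hd.2
  refine h1.trans ?_
  rw [div_le_iff₀ hD, div_mul_eq_mul_div, div_mul_eq_mul_div, le_div_iff₀ d0]
  have e0 := he.nonneg
  have a1 : (E.lo : ℝ) * (d * 1073741824) ≤ (e * 1073741824) * D.hi :=
    mul_le_mul he.1 hd.2 (by positivity) (by positivity)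
  nlinarith

theorem t8_sound {p2 b2 k2 S2 n2 kb2 St2 Ct2 cs : N} {y : ℕ} (H : Hyp P p b z k)
    (h : t8 F A B D p2 b2 k2 S2 n2 kb2 St2 Ct2 cs y = true)
    (hp : Mem p A) (hb : Mem b B) (hk : Mem k D) (hp2 : Mem (p ^ 2) p2) (hb2 : Mem (b ^ 2) b2)
    (hk2 : Mem (k ^ 2) k2) (hS : Mem (Sq p b) S2) (hn : Mem ((1 + z ^ 2) ^ 2) n2)
    (hkb : Mem ((k * b) ^ 2) kb2) (hSt : Mem (St z ^ 2) St2) (hCt : Mem (Ct z ^ 2) Ct2)
    (hcs : Mem (Ct z * St z) cs) (ps1 : N.ps (N.sub one b2) = true) (ps2 : N.ps p2 = true)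
    (hy : (y : ℝ) ≤ E2 p b z k / D2 p b z k * 1073741824) (hα : Ang α (Rq p b z k) (Iq p b z k)) :
    ∃ (S2 T s2 : N) (q : ℕ) (an : ℕ × ℕ), F S2 T s2 q an = true ∧ Mem (Sq p b) S2 ∧
      Mem (p * b) T ∧ Mem (s2R p b) s2 ∧
      (q : ℝ) ≤ Real.log (E2 p b z k / D2 p b z k) / 4 * 1073741824 ∧
      (an.1 : ℝ) - an.2 ≤ α * 1073741824 := by
  unfold t8 at h
  obtain ⟨c1, h⟩ := bif_ff h
  have hy1 : 1073741824 ≤ y := ble_false c1
  have g1 : b ^ 2 ≤ 1 := H.b2.le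
  have g2 : k ^ 2 ≤ 1 := H.k2.le
  have g3 : k ^ 2 ≤ b ^ 2 := by nlinarith [H.kltb, H.k0]
  have g4 : (k * b) ^ 2 ≤ 1 := by
    have := H.kb1
    have h2 : 0 < k * b := mul_pos H.k0 H.b0
    nlinarith
  have m1 := mem_one.sub hkb g4
  have m2 := hb2.sub hk2 g3
  have m3 := (m1.mul hSt).add (m2.mul (hSt.mul hp2))
  have m4 := (m1.mul (hCt.mul hp2)).add (m2.mul hCt)
  have m5 := ((hb.add hb).mul (mem_one.sub hk2 g2)).mul (hcs.mul (mem_one.add hp2))
  have m6 := ((hk.add hk).mul (mem_one.sub hb2 g1)).mul (hp.mul hn)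
  have m7 := al2_sound m3 m4 m5 m6 hα
  have m8 := mem_s2N hb hb2 hb2.sq (hp2.inv ps2) g1 ps1 H.p1
  have m9 := Mem.lnLo 12 hy hy1
  have m10 : ((Nat.div (lnLo 12 y) 4 : ℕ) : ℝ) ≤
      Real.log (E2 p b z k / D2 p b z k) / 4 * 1073741824 := by
    have := nat_div_le (lnLo 12 y) 4
    rw [Nat.cast_ofNat] at this
    linarith
  exact ⟨_, _, _, _, _, h, hS, hp.mul hb, m8, m10, m7⟩

theorem test_sound (h : test F P A B C D = true) (hp : Mem p A) (hb : Mem b B) (hz : Mem z C)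
    (hk : Mem k D) (H : Hyp P p b z k) : Concl F P p b z k := by
  intro r i α hr hi hα hc
  unfold test t1 at h
  obtain ⟨c1, h⟩ := bif_tf h
  rw [Bool.and_eq_true, Bool.and_eq_true] at c1
  obtain ⟨⟨ps1, ps2⟩, ps3⟩ := c1
  have hp2 := hp.sq
  have hb2 := hb.sq
  have hk2 := hk.sq
  have hz2 := hz.sq
  have g1 : b ^ 2 ≤ 1 := H.b2.le
  have g2 : k ^ 2 ≤ 1 := H.k2.le
  have hS : Mem (Sq p b) (N.mul (N.mul (N.sq B) (N.add one (N.sq A)))
      (N.inv (N.sub one (N.sq B)))) :=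
    (hb2.mul (mem_one.add hp2)).mul ((mem_one.sub hb2 g1).inv ps1)
  have hH : Mem (Hq k) (N.mul (N.sq D) (N.inv (N.sub one (N.sq D)))) :=
    hk2.mul ((mem_one.sub hk2 g2).inv ps2)
  generalize N.mul (N.mul (N.sq B) (N.add one (N.sq A))) (N.inv (N.sub one (N.sq B))) = S2 at h hS
  generalize N.mul (N.sq D) (N.inv (N.sub one (N.sq D))) = H2 at h hH
  unfold t2 at h
  rcases bif_tt h with c | h
  · -- range of S²
    exfalso
    rw [Bool.or_eq_true, Nat.ble_eq, Nat.ble_eq] at c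
    rcases c with c | c
    · have c' : (S2.hi : ℝ) + 1 ≤ P.slo := by exact_mod_cast c
      linarith [H.s0, hS.2]
    · have c' : (P.shi : ℝ) + 1 ≤ S2.lo := by exact_mod_cast c
      linarith [H.s1, hS.1]
  rcases bif_tt h with c | h
  · -- range of sinh²
    exfalso
    rw [Bool.or_eq_true, Nat.ble_eq, Nat.ble_eq] at c
    rcases c with c | c
    · have c' : (H2.hi : ℝ) + 1 ≤ ((Nat.div (Nat.mul P.klo S2.lo) 1073741824 : ℕ) : ℝ) := by
        exact_mod_cast c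
      have a1 := nat_div_le (Nat.mul P.klo S2.lo) 1073741824
      rw [cast_mul', Nat.cast_ofNat] at a1
      have a2 : (P.klo : ℝ) * S2.lo ≤ P.klo * (Sq p b * 1073741824) :=
        mul_le_mul_of_nonneg_left hS.1 P.klo.cast_nonneg
      have a3 : (P.klo : ℝ) * S2.lo / 1073741824 ≤ P.klo * Sq p b := by
        rw [div_le_iff₀ (by norm_num)]; linarith
      linarith [H.h0, hH.2]
    · have c' : ((Nat.succ (Nat.div (Nat.mul P.khi S2.hi) 1073741824) : ℕ) : ℝ) + 1 ≤ H2.lo := by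
        exact_mod_cast c
      have a1 := le_succ_div (Nat.mul P.khi S2.hi) (d := 1073741824) (by norm_num)
      rw [cast_mul', Nat.cast_ofNat] at a1
      have a2 : (P.khi : ℝ) * (Sq p b * 1073741824) ≤ P.khi * S2.hi :=
        mul_le_mul_of_nonneg_left hS.2 P.khi.cast_nonneg
      have a3 : P.khi * Sq p b ≤ (P.khi : ℝ) * S2.hi / 1073741824 := by
        rw [le_div_iff₀ (by norm_num)]; linarith
      linarith [H.h1, hH.1]
  rcases bif_tt h with c | h
  · exfalso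
    rw [Nat.ble_eq] at c
    have c' : (((Nat.succ (Nat.mul 19 B.hi)) : ℕ) : ℝ) ≤ ((Nat.mul 20 D.lo : ℕ) : ℝ) := by
      exact_mod_cast c
    rw [Nat.cast_succ, cast_mul', cast_mul', Nat.cast_ofNat, Nat.cast_ofNat] at c'
    nlinarith [H.kb, hb.2, hk.1]
  have hSt : Mem (St z) (N.add C C) := hz.add hz
  have hCt : Mem (Ct z) (N.sub one (N.sq C)) := mem_one.sub hz2 H.z2
  have hn : Mem ((1 + z ^ 2) ^ 2) (N.sq (N.add one (N.sq C))) := (mem_one.add hz2).sq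
  have hkb : Mem (k * b) (N.mul D B) := hk.mul hb
  generalize N.add C C = StN at h hSt
  generalize N.sub one (N.sq C) = CtN at h hCt
  generalize N.sq (N.add one (N.sq C)) = n2 at h hn
  generalize N.mul D B = kbN at h hkb
  unfold t3 at h
  have hpc : Mem (Ct z * p) (N.mul CtN A) := hCt.mul hp
  have hps : Mem (St z * p) (N.mul StN A) := hSt.mul hp
  have hSt2 := hSt.sq
  have hCt2 := hCt.sq
  have hcs : Mem (Ct z * St z) (N.mul CtN StN) := hCt.mul hSt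
  generalize N.mul CtN A = pc at h hpc
  generalize N.mul StN A = ps at h hps
  generalize N.sq StN = St2 at h hSt2
  generalize N.sq CtN = Ct2 at h hCt2
  generalize N.mul CtN StN = cs at h hcs
  unfold t4 at h
  have gk : k * b ≤ 1 := H.kb1.le
  have hE : Mem (E2 p b z k) (N.add (N.mul (N.sq (N.add one kbN)) (N.sq (N.add StN pc)))
      (N.mul (N.sq (N.add D B)) (N.sq (N.ad CtN ps)))) :=
    ((mem_one.add hkb).sq.mul (hSt.add hpc).sq).add ((hk.add hb).sq.mul (hCt.ad hps).sq_abs)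
  have hD : Mem (D2 p b z k) (N.add (N.mul (N.sq (N.sub one kbN)) (N.sq (N.ad StN pc)))
      (N.mul (N.sq (N.sub B D)) (N.sq (N.add CtN ps)))) :=
    ((mem_one.sub hkb gk).sq.mul (hSt.ad hpc).sq_abs).add
      ((hb.sub hk H.kltb.le).sq.mul (hCt.add hps).sq)
  generalize N.add (N.mul (N.sq (N.add one kbN)) (N.sq (N.add StN pc)))
      (N.mul (N.sq (N.add D B)) (N.sq (N.ad CtN ps))) = EN at h hE
  generalize N.add (N.mul (N.sq (N.sub one kbN)) (N.sq (N.ad StN pc)))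
      (N.mul (N.sq (N.sub B D)) (N.sq (N.add CtN ps))) = DN at h hD
  have hkb2 := hkb.sq
  generalize N.sq kbN = kb2 at h hkb2
  have hM : Mem (Mq z k) (N.mul n2 (N.sub one (N.sq D))) := hn.mul (mem_one.sub hk2 g2)
  have hSk : Mem (St z ^ 2 * k ^ 2) (N.mul St2 (N.sq D)) := hSt2.mul hk2
  have hcsk : Mem (Ct z * St z * k) (N.mul cs D) := hcs.mul hk
  generalize N.mul n2 (N.sub one (N.sq D)) = MN at h hM
  generalize N.mul St2 (N.sq D) = Sk at h hSk
  generalize N.mul cs D = csk at h hcsk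
  unfold t5 at h
  have hW : Mem (Wq z k r i) (fW P MN Sk Ct2 (N.add csk csk)) :=
    (((hM.mul hr).add hSk).ad hCt2).sq_abs.add ((hM.mul hi).add (hcsk.add hcsk)).sq
  have hG : Mem (Gq p b) (N.mul (N.add one (N.sq A)) (N.sub one (N.sq B))) :=
    (mem_one.add hp2).mul (mem_one.sub hb2 g1)
  have hN : Mem (Ny z k) (N.add Ct2 Sk) := hCt2.add hSk
  generalize fW P MN Sk Ct2 (N.add csk csk) = WN at h hW
  generalize N.mul (N.add one (N.sq A)) (N.sub one (N.sq B)) = GN at h hG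
  generalize N.add Ct2 Sk = NN at h hN
  unfold t6 at h
  have hl := (hN.sq.mul hG).sq
  have hrr := (hE.mul hD).mul hW
  generalize N.sq (N.mul (N.sq NN) GN) = lhs at h hl
  generalize N.mul (N.mul EN DN) WN = rhs at h hrr
  unfold t7 at h
  rcases bif_tt h with c | h
  · exfalso
    rw [Bool.or_eq_true, Nat.ble_eq, Nat.ble_eq] at c
    rcases c with c | c
    · have c' : (lhs.hi : ℝ) + 1 ≤ rhs.lo := by exact_mod_cast c
      have a1 := hl.2
      have a2 := hrr.1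
      rw [hc] at a1
      linarith
    · have c' : (rhs.hi : ℝ) + 1 ≤ lhs.lo := by exact_mod_cast c
      have a1 := hl.1
      have a2 := hrr.2
      rw [hc] at a1
      linarith
  obtain ⟨-, h⟩ := bif_ff h
  have hEW := hE.sq.mul hW
  refine t8_sound H h hp hb hk hp2 hb2 hk2 hS hn hkb2 hSt2 hCt2 hcs ps1 ps3 ?_ hα
  have hd0 := H.D2pos
  rcases mx_cases (Nat.div (Nat.mul EN.lo 1073741824) DN.hi)
    (Nat.div (Nat.mul (N.lo (N.mul (N.sq EN) WN)) 1073741824) lhs.hi) with e | e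
  · rw [e]
    exact div_ge1 hE hD hd0
  · rw [e]
    have hl0 : 0 < (Ny z k ^ 2 * Gq p b) ^ 2 := by
      have := H.Nypos
      have := H.Gpos
      positivity
    refine (div_ge1 hEW hl hl0).trans (le_of_eq ?_)
    have hE0 : E2 p b z k ≠ 0 := by
      intro h0
      rw [hc, h0] at hl0
      norm_num at hl0
    have hW0 : Wq z k r i ≠ 0 := by
      intro h0
      rw [hc, h0] at hl0
      norm_num at hl0
    rw [hc]
    field_simp

end

end Pool.Agent.S3.P1
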