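import Pool.Agent.S3.W2.Scheme
import Pool.Agent.S3.W2.P1S

/-!
# Rational variables for the critical points of a flat

`p = tan πa`, `b = tanh πβ`, `z = tan (πt/2)`, `k = tanh πh` for `v = a + iβ`, `y = t + ih`.
-/

set_option autoImplicit false

namespace Pool.Agent.S3.P1

open Complex Pool.Agent.S3.NI Pool.Agent.S3.T2 Pool.Agent.S3

/-- The argument of `X - i Y`, `Y > 0`. -/
theorem arg_lower {X Y : ℝ} (hY : 0 < Y) :
    ((X : ℂ) - (Y : ℂ) * I).arg = -(Real.pi / 2 - Real.arctan (X / Y)) := by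
  have e : (X : ℂ) - (Y : ℂ) * I = -I * ((Y : ℂ) + (X : ℂ) * I) := by
    ring_nf
    rw [I_sq]
    ring
  have hw : ((Y : ℂ) + (X : ℂ) * I) ≠ 0 := by
    intro h
    have := congrArg Complex.re h
    simp at this
    linarith
  have hre : ((Y : ℂ) + (X : ℂ) * I).re = Y := by simp
  have him : ((Y : ℂ) + (X : ℂ) * I).im = X := by simp
  have h1 : ((Y : ℂ) + (X : ℂ) * I).arg = Real.arctan (X / Y) := by
    have := arg_eq_arctan (z := (Y : ℂ) + (X : ℂ) * I) (by rw [hre]; exact hY)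
    rw [this, hre, him]
  have h2 := Real.neg_pi_div_two_lt_arctan (X / Y)
  have h3 := Real.arctan_lt_pi_div_two (X / Y)
  have hI : (-I).arg = -(Real.pi / 2) := arg_neg_I
  rw [e, Complex.arg_mul (neg_ne_zero.2 I_ne_zero) hw, hI, h1]
  · ring
  · rw [hI, h1]
    constructor <;> linarith [Real.pi_pos]

/-- The common factor. -/
structure Fac (a β t h p b z k φ : ℝ) : Prop where
  φ0 : 0 < φ
  φ2 : φ ^ 2 * (Mq z k * Gq p b) = 1
  s1 : Real.sin (Real.pi * (t + a)) * Real.cosh (Real.pi * (h + β)) =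
    φ * ((1 + k * b) * (St z + Ct z * p))
  s2 : Real.cos (Real.pi * (t + a)) * Real.sinh (Real.pi * (h + β)) =
    φ * ((k + b) * (Ct z - St z * p))
  s3 : Real.sin (Real.pi * (t - a)) * Real.cosh (Real.pi * (h - β)) =
    φ * ((1 - k * b) * (St z - Ct z * p))
  s4 : Real.cos (Real.pi * (t - a)) * Real.sinh (Real.pi * (h - β)) =
    -(φ * ((b - k) * (Ct z + St z * p)))
  c1 : Real.cos (Real.pi * t) ^ 2 * (1 + z ^ 2) ^ 2 = Ct z ^ 2
  c2 : Real.sin (Real.pi * t) ^ 2 * (1 + z ^ 2) ^ 2 = St z ^ 2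
  c3 : Real.sin (Real.pi * t) * Real.cos (Real.pi * t) * (1 + z ^ 2) ^ 2 = St z * Ct z
  d1 : Real.sinh (Real.pi * h) ^ 2 * (1 - k ^ 2) = k ^ 2
  d2 : Real.sinh (Real.pi * h) * Real.cosh (Real.pi * h) * (1 - k ^ 2) = k

theorem fac {a β t h : ℝ} (a0 : 0 ≤ a) (a1 : a < 1 / 2) (t0 : 0 ≤ t) (t1 : t ≤ 1 / 2) :
    ∃ φ : ℝ, Fac a β t h (Real.tan (Real.pi * a)) (Real.tanh (Real.pi * β))
      (Real.tan (Real.pi * t / 2)) (Real.tanh (Real.pi * h)) φ := by
  have hpi := Real.pi_pos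
  have hca : 0 < Real.cos (Real.pi * a) := cos_pos_of (by linarith) a1
  have hct : 0 < Real.cos (Real.pi * t / 2) := by
    apply Real.cos_pos_of_mem_Ioo
    constructor <;> nlinarith
  have hcb := Real.cosh_pos (Real.pi * β)
  have hch := Real.cosh_pos (Real.pi * h)
  have e1 := Real.sin_sq_add_cos_sq (Real.pi * a)
  have e2 := Real.sin_sq_add_cos_sq (Real.pi * t / 2)
  have e3 := Real.cosh_sq (Real.pi * β)
  have e4 := Real.cosh_sq (Real.pi * h)
  set p := Real.tan (Real.pi * a) with hp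
  set b := Real.tanh (Real.pi * β) with hb
  set z := Real.tan (Real.pi * t / 2) with hz
  set k := Real.tanh (Real.pi * h) with hk
  have sa : Real.sin (Real.pi * a) = p * Real.cos (Real.pi * a) := by
    rw [hp, Real.tan_mul_cos hca.ne']
  have sz : Real.sin (Real.pi * t / 2) = z * Real.cos (Real.pi * t / 2) := by
    rw [hz, Real.tan_mul_cos hct.ne']
  have sb : Real.sinh (Real.pi * β) = b * Real.cosh (Real.pi * β) := by
    rw [hb, Real.tanh_eq_sinh_div_cosh, div_mul_cancel₀ _ hcb.ne']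
  have sk : Real.sinh (Real.pi * h) = k * Real.cosh (Real.pi * h) := by
    rw [hk, Real.tanh_eq_sinh_div_cosh, div_mul_cancel₀ _ hch.ne']
  have f1 : Real.cos (Real.pi * a) ^ 2 * (1 + p ^ 2) = 1 := by
    rw [sa] at e1; linarith
  have f2 : Real.cos (Real.pi * t / 2) ^ 2 * (1 + z ^ 2) = 1 := by
    rw [sz] at e2; linarith
  have f3 : Real.cosh (Real.pi * β) ^ 2 * (1 - b ^ 2) = 1 := by
    rw [sb] at e3; linarith
  have f4 : Real.cosh (Real.pi * h) ^ 2 * (1 - k ^ 2) = 1 := by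
    rw [sk] at e4; linarith
  have st : Real.sin (Real.pi * t) = St z * Real.cos (Real.pi * t / 2) ^ 2 := by
    rw [show Real.pi * t = 2 * (Real.pi * t / 2) by ring, Real.sin_two_mul, sz, St,
      show 2 * (Real.pi * t / 2) / 2 = Real.pi * t / 2 by ring]
    ring
  have ct : Real.cos (Real.pi * t) = Ct z * Real.cos (Real.pi * t / 2) ^ 2 := by
    rw [show Real.pi * t = 2 * (Real.pi * t / 2) by ring, Real.cos_two_mul', sz, Ct,
      show 2 * (Real.pi * t / 2) / 2 = Real.pi * t / 2 by ring]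
    ring
  have hn : (1 + z ^ 2) ≠ 0 := by positivity
  refine ⟨Real.cos (Real.pi * a) * Real.cosh (Real.pi * β) * Real.cosh (Real.pi * h) *
    Real.cos (Real.pi * t / 2) ^ 2, by positivity, ?_, ?_, ?_, ?_, ?_, ?_, ?_, ?_, ?_, ?_⟩
  · unfold Mq Gq
    calc _ = (Real.cos (Real.pi * a) ^ 2 * (1 + p ^ 2)) * (Real.cosh (Real.pi * β) ^ 2 * (1 - b ^ 2))
        * (Real.cosh (Real.pi * h) ^ 2 * (1 - k ^ 2)) *
          (Real.cos (Real.pi * t / 2) ^ 2 * (1 + z ^ 2)) ^ 2 := by ring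
      _ = 1 := by rw [f1, f2, f3, f4]; ring
  · rw [mul_add, mul_add, Real.sin_add, Real.cosh_add, sa, sb, sk, st, ct]
    ring
  · rw [mul_add, mul_add, Real.cos_add, Real.sinh_add, sa, sb, sk, st, ct]
    ring
  · rw [mul_sub, mul_sub, Real.sin_sub, Real.cosh_sub, sa, sb, sk, st, ct]
    ring
  · rw [mul_sub, mul_sub, Real.cos_sub, Real.sinh_sub, sa, sb, sk, st, ct]
    ring
  · rw [ct]
    calc _ = Ct z ^ 2 * (Real.cos (Real.pi * t / 2) ^ 2 * (1 + z ^ 2)) ^ 2 := by ring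
      _ = _ := by rw [f2]; ring
  · rw [st]
    calc _ = St z ^ 2 * (Real.cos (Real.pi * t / 2) ^ 2 * (1 + z ^ 2)) ^ 2 := by ring
      _ = _ := by rw [f2]; ring
  · rw [st, ct]
    calc _ = St z * Ct z * (Real.cos (Real.pi * t / 2) ^ 2 * (1 + z ^ 2)) ^ 2 := by ring
      _ = _ := by rw [f2]; ring
  · rw [sk]
    calc _ = k ^ 2 * (Real.cosh (Real.pi * h) ^ 2 * (1 - k ^ 2)) := by ring
      _ = _ := by rw [f4]; ring
  · rw [sk]
    calc _ = k * (Real.cosh (Real.pi * h) ^ 2 * (1 - k ^ 2)) := by ring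
      _ = _ := by rw [f4]; ring

section

variable {a β t h p b z k φ : ℝ}

theorem fst_re (a β t h : ℝ) : (((t : ℂ) + (h : ℂ) * I) + ((a : ℂ) + (β : ℂ) * I)).re = t + a := by
  simp
theorem fst_im (a β t h : ℝ) : (((t : ℂ) + (h : ℂ) * I) + ((a : ℂ) + (β : ℂ) * I)).im = h + β := by
  simp
theorem snd_re (a β t h : ℝ) : (((t : ℂ) + (h : ℂ) * I) - ((a : ℂ) + (β : ℂ) * I)).re = t - a := by
  simp
theorem snd_im (a β t h : ℝ) : (((t : ℂ) + (h : ℂ) * I) - ((a : ℂ) + (β : ℂ) * I)).im = h - β := by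
  simp

theorem eq_of_re_im {w : ℂ} {x y : ℝ} (h1 : w.re = x) (h2 : w.im = y) :
    w = (x : ℂ) + (y : ℂ) * I := by
  rw [← h1, ← h2, re_add_im]

theorem norm_sq_of {w : ℂ} {x y : ℝ} (h1 : w.re = x) (h2 : w.im = y) :
    ‖w‖ ^ 2 = x ^ 2 + y ^ 2 := by
  rw [← h1, ← h2, Complex.sq_norm, normSq_apply]
  ring

/-- the norms -/
theorem Fac.norm1 (F : Fac a β t h p b z k φ) :
    ‖2 * sin (Real.pi * (((t : ℂ) + (h : ℂ) * I) + ((a : ℂ) + (β : ℂ) * I)))‖ ^ 2 =
      4 * φ ^ 2 * E2 p b z k := by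
  rw [norm_sq_of (sin_pi_re _) (sin_pi_im _), fst_re, fst_im, F.s1, F.s2, E2]
  ring

theorem Fac.norm2 (F : Fac a β t h p b z k φ) :
    ‖2 * sin (Real.pi * (((t : ℂ) + (h : ℂ) * I) - ((a : ℂ) + (β : ℂ) * I)))‖ ^ 2 =
      4 * φ ^ 2 * D2 p b z k := by
  rw [norm_sq_of (sin_pi_re _) (sin_pi_im _), snd_re, snd_im, F.s3, F.s4, D2]
  ring

/-- the critical equation -/
theorem Fac.crit (F : Fac a β t h p b z k φ) {w : ℂ}
    (hc : gPd ((t : ℂ) + (h : ℂ) * I) ((a : ℂ) + (β : ℂ) * I) w =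
      ‖cos (Real.pi * ((t : ℂ) + (h : ℂ) * I))‖ ^ 4) (hk : k ^ 2 < 1) :
    (Ny z k ^ 2 * Gq p b) ^ 2 =
      E2 p b z k * D2 p b z k * Wq z k (cc w).re (cc w).im := by
  set y : ℂ := (t : ℂ) + (h : ℂ) * I with hy
  set v : ℂ := (a : ℂ) + (β : ℂ) * I with hv
  have hM : 0 < Mq z k := by
    unfold Mq
    have : 0 < 1 - k ^ 2 := by linarith
    positivity
  -- the norm of `cc y`
  have n1 : ‖cc y‖ * Mq z k = Ny z k := by
    rw [hy, cc_norm, Mq, Ny]
    have e1 := F.c1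
    have e2 := F.d1
    have e3 := F.c2
    have e4 : Real.sin (Real.pi * t) ^ 2 + Real.cos (Real.pi * t) ^ 2 = 1 :=
      Real.sin_sq_add_cos_sq _
    have e5 : (1 + z ^ 2) ^ 2 = St z ^ 2 + Ct z ^ 2 := by rw [← e1, ← e3, ← add_mul, e4, one_mul]
    calc (Real.cos (Real.pi * t) ^ 2 + Real.sinh (Real.pi * h) ^ 2) * ((1 + z ^ 2) ^ 2 * (1 - k ^ 2))
        = (Real.cos (Real.pi * t) ^ 2 * (1 + z ^ 2) ^ 2) * (1 - k ^ 2) +
          (Real.sinh (Real.pi * h) ^ 2 * (1 - k ^ 2)) * (1 + z ^ 2) ^ 2 := by ring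
      _ = Ct z ^ 2 * (1 - k ^ 2) + k ^ 2 * (St z ^ 2 + Ct z ^ 2) := by rw [e1, e2, e5]
      _ = _ := by ring
  have r1 : (cc y).re * Mq z k = Ct z ^ 2 - St z ^ 2 * k ^ 2 := by
    rw [hy, cc_re, Mq]
    have e1 := F.c1
    have e2 := F.d1
    have e3 := F.c2
    have e4 : Real.sin (Real.pi * t) ^ 2 + Real.cos (Real.pi * t) ^ 2 = 1 :=
      Real.sin_sq_add_cos_sq _
    have e6 : 2 * Real.cos (Real.pi * t) ^ 2 - 1 =
      Real.cos (Real.pi * t) ^ 2 - Real.sin (Real.pi * t) ^ 2 := by linarith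
    calc (Real.cos (Real.pi * t) ^ 2 + Real.sinh (Real.pi * h) ^ 2 *
          (2 * Real.cos (Real.pi * t) ^ 2 - 1)) * ((1 + z ^ 2) ^ 2 * (1 - k ^ 2))
        = (Real.cos (Real.pi * t) ^ 2 * (1 + z ^ 2) ^ 2) * (1 - k ^ 2) +
          (Real.sinh (Real.pi * h) ^ 2 * (1 - k ^ 2)) *
          (Real.cos (Real.pi * t) ^ 2 * (1 + z ^ 2) ^ 2 -
            Real.sin (Real.pi * t) ^ 2 * (1 + z ^ 2) ^ 2) := by rw [e6]; ring
      _ = Ct z ^ 2 * (1 - k ^ 2) + k ^ 2 * (Ct z ^ 2 - St z ^ 2) := by rw [e1, e2, e3]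
      _ = _ := by ring
  have i1 : (cc y).im * Mq z k = -(2 * (Ct z * St z * k)) := by
    rw [hy, cc_im, Mq]
    have e1 := F.c3
    have e2 := F.d2
    calc -(2 * (Real.sin (Real.pi * t) * Real.cos (Real.pi * t)) *
          (Real.sinh (Real.pi * h) * Real.cosh (Real.pi * h))) * ((1 + z ^ 2) ^ 2 * (1 - k ^ 2))
        = -(2 * (Real.sin (Real.pi * t) * Real.cos (Real.pi * t) * (1 + z ^ 2) ^ 2) *
          (Real.sinh (Real.pi * h) * Real.cosh (Real.pi * h) * (1 - k ^ 2))) := by ring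
      _ = _ := by rw [e1, e2]; ring
  have w1 : (‖cc w - cc y‖ * Mq z k) ^ 2 = Wq z k (cc w).re (cc w).im := by
    rw [mul_pow, norm_sq_of (sub_re _ _) (sub_im _ _), Wq]
    calc _ = ((cc w).re * Mq z k - (cc y).re * Mq z k) ^ 2 +
        ((cc w).im * Mq z k - (cc y).im * Mq z k) ^ 2 := by ring
      _ = _ := by rw [r1, i1]; ring
  have k1 := F.norm1
  have k2 := F.norm2
  rw [← hy, ← hv, norm_mul] at k1 k2
  have t2 : ‖(2 : ℂ)‖ = 2 := by simp
  rw [t2] at k1 k2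
  have k1' : ‖sin (Real.pi * (y + v))‖ ^ 2 = φ ^ 2 * E2 p b z k := by linarith
  have k2' : ‖sin (Real.pi * (y - v))‖ ^ 2 = φ ^ 2 * D2 p b z k := by linarith
  have k3 : (‖sin (Real.pi * (y - v))‖ * ‖sin (Real.pi * (y + v))‖) ^ 2 =
      φ ^ 4 * (E2 p b z k * D2 p b z k) := by
    rw [mul_pow, k1', k2']
    ring
  have k4 : ‖sin (Real.pi * (y - v))‖ * ‖sin (Real.pi * (y + v))‖ * ‖cc w - cc y‖ = ‖cc y‖ ^ 2 := by
    have h1 : gPd y v w = ‖sin (Real.pi * (y - v))‖ * ‖sin (Real.pi * (y + v))‖ *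
        ‖cc w - cc y‖ := by
      unfold gPd
      rw [← norm_mul (sin (Real.pi * (y - w))), sin_mul_sin]
    rw [← h1, hc, cos_four]
    ring
  have hφ := F.φ2
  have k5 : φ ^ 4 * (Mq z k * Gq p b) ^ 2 = 1 := by
    calc φ ^ 4 * (Mq z k * Gq p b) ^ 2 = (φ ^ 2 * (Mq z k * Gq p b)) ^ 2 := by ring
      _ = 1 := by rw [hφ]; ring
  calc (Ny z k ^ 2 * Gq p b) ^ 2 = (‖cc y‖ ^ 2) ^ 2 * Mq z k ^ 4 * Gq p b ^ 2 := by
        rw [← n1]; ring
    _ = (‖sin (Real.pi * (y - v))‖ * ‖sin (Real.pi * (y + v))‖) ^ 2 * (‖cc w - cc y‖ * Mq z k) ^ 2 *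
        (Mq z k * Gq p b) ^ 2 := by rw [← k4]; ring
    _ = (φ ^ 4 * (Mq z k * Gq p b) ^ 2) * (E2 p b z k * D2 p b z k) *
        Wq z k (cc w).re (cc w).im := by rw [k3, w1]; ring
    _ = _ := by rw [k5]; ring

end

section

variable {a β t h : ℝ} {w : ℂ}

theorem he_add {φ : ℝ} (ha0 : 0 < a) (ha1 : a < 1 / 2) (t0 : 0 < t) (t1 : t < 1 / 2)
    (h0 : 0 < h) (hβ : 0 < β)
    (F : Fac a β t h (Real.tan (Real.pi * a)) (Real.tanh (Real.pi * β))
      (Real.tan (Real.pi * t / 2)) (Real.tanh (Real.pi * h)) φ)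
    (hV : 0 < (1 + Real.tanh (Real.pi * h) * Real.tanh (Real.pi * β)) *
      (St (Real.tan (Real.pi * t / 2)) + Ct (Real.tan (Real.pi * t / 2)) *
        Real.tan (Real.pi * a))) :
    (he (((t : ℂ) + (h : ℂ) * I) + ((a : ℂ) + (β : ℂ) * I))).im =
      Real.arctan (((Real.tanh (Real.pi * h) + Real.tanh (Real.pi * β)) *
        (Ct (Real.tan (Real.pi * t / 2)) - St (Real.tan (Real.pi * t / 2)) *
          Real.tan (Real.pi * a))) /
        ((1 + Real.tanh (Real.pi * h) * Real.tanh (Real.pi * β)) *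
      (St (Real.tan (Real.pi * t / 2)) + Ct (Real.tan (Real.pi * t / 2)) *
        Real.tan (Real.pi * a)))) := by
  have hf : fdom (((t : ℂ) + (h : ℂ) * I) + ((a : ℂ) + (β : ℂ) * I)) := by
    left
    rw [fst_im]
    linarith
  rw [he_eq_log hf (by rw [fst_re]; linarith) (by rw [fst_re]; linarith), log_im]
  have hre := sin_pi_re (((t : ℂ) + (h : ℂ) * I) + ((a : ℂ) + (β : ℂ) * I))
  have him := sin_pi_im (((t : ℂ) + (h : ℂ) * I) + ((a : ℂ) + (β : ℂ) * I))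
  rw [fst_re, fst_im, F.s1] at hre
  rw [fst_re, fst_im, F.s2] at him
  have hφ := F.φ0
  rw [arg_eq_arctan (by rw [hre]; positivity), hre, him]
  congr 1
  rw [← mul_assoc, ← mul_assoc 2 φ (_ * _), mul_div_mul_left _ _ (by positivity)]

theorem he_sub {φ : ℝ} (ha0 : 0 < a) (ha1 : a < 1 / 2) (t0 : 0 < t) (t1 : t < 1 / 2)
    (hβ : h < β)
    (F : Fac a β t h (Real.tan (Real.pi * a)) (Real.tanh (Real.pi * β))
      (Real.tan (Real.pi * t / 2)) (Real.tanh (Real.pi * h)) φ)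
    (hY : 0 < (Real.tanh (Real.pi * β) - Real.tanh (Real.pi * h)) *
      (Ct (Real.tan (Real.pi * t / 2)) + St (Real.tan (Real.pi * t / 2)) *
        Real.tan (Real.pi * a))) :
    (he (((t : ℂ) + (h : ℂ) * I) - ((a : ℂ) + (β : ℂ) * I))).im =
      -(Real.pi / 2 - Real.arctan (((1 - Real.tanh (Real.pi * h) * Real.tanh (Real.pi * β)) *
        (St (Real.tan (Real.pi * t / 2)) - Ct (Real.tan (Real.pi * t / 2)) *
          Real.tan (Real.pi * a))) /
        ((Real.tanh (Real.pi * β) - Real.tanh (Real.pi * h)) *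
      (Ct (Real.tan (Real.pi * t / 2)) + St (Real.tan (Real.pi * t / 2)) *
        Real.tan (Real.pi * a))))) := by
  have hf : fdom (((t : ℂ) + (h : ℂ) * I) - ((a : ℂ) + (β : ℂ) * I)) := by
    left
    rw [snd_im]
    linarith
  rw [he_eq_log hf (by rw [snd_re]; linarith) (by rw [snd_re]; linarith), log_im]
  have hre := sin_pi_re (((t : ℂ) + (h : ℂ) * I) - ((a : ℂ) + (β : ℂ) * I))
  have him := sin_pi_im (((t : ℂ) + (h : ℂ) * I) - ((a : ℂ) + (β : ℂ) * I))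
  rw [snd_re, snd_im, F.s3] at hre
  rw [snd_re, snd_im, F.s4] at him
  have hφ := F.φ0
  have e := eq_of_re_im hre him
  rw [e]
  have e2 : ∀ x y : ℝ, ((x : ℝ) : ℂ) + ((2 * -y : ℝ) : ℂ) * I =
      ((x : ℝ) : ℂ) - ((2 * y : ℝ) : ℂ) * I := by
    intro x y
    push_cast
    ring
  rw [e2, arg_lower (by positivity)]
  congr 3
  rw [← mul_assoc, ← mul_assoc 2 φ (_ * _), mul_div_mul_left _ _ (by positivity)]

/-- The data of a critical point. -/
theorem dic (ha0 : 1 / 4 ≤ a) (ha1 : a < 1 / 2) (t0 : 0 < t) (t1 : t < 1 / 2) (h0 : 0 < h)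
    (hk : 20 * Real.tanh (Real.pi * h) ≤ 19 * Real.tanh (Real.pi * β)) :
    1 ≤ Real.tan (Real.pi * a) ∧ 0 < Real.tanh (Real.pi * h) ∧ Real.tanh (Real.pi * β) < 1 ∧
    0 ≤ Real.tan (Real.pi * t / 2) ∧ Real.tan (Real.pi * t / 2) ≤ 1 ∧
    Ang (he (((t : ℂ) + (h : ℂ) * I) + ((a : ℂ) + (β : ℂ) * I)) -
      he (((t : ℂ) + (h : ℂ) * I) - ((a : ℂ) + (β : ℂ) * I))).im
      (Rq (Real.tan (Real.pi * a)) (Real.tanh (Real.pi * β)) (Real.tan (Real.pi * t / 2))
        (Real.tanh (Real.pi * h)))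
      (Iq (Real.tan (Real.pi * a)) (Real.tanh (Real.pi * β)) (Real.tan (Real.pi * t / 2))
        (Real.tanh (Real.pi * h))) ∧
    (he (((t : ℂ) + (h : ℂ) * I) + ((a : ℂ) + (β : ℂ) * I)) -
      he (((t : ℂ) + (h : ℂ) * I) - ((a : ℂ) + (β : ℂ) * I))).re =
      Real.log (E2 (Real.tan (Real.pi * a)) (Real.tanh (Real.pi * β)) (Real.tan (Real.pi * t / 2))
        (Real.tanh (Real.pi * h)) / D2 (Real.tan (Real.pi * a)) (Real.tanh (Real.pi * β))
        (Real.tan (Real.pi * t / 2)) (Real.tanh (Real.pi * h))) / 2 ∧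
    (gPd ((t : ℂ) + (h : ℂ) * I) ((a : ℂ) + (β : ℂ) * I) w =
      ‖cos (Real.pi * ((t : ℂ) + (h : ℂ) * I))‖ ^ 4 →
      (Ny (Real.tan (Real.pi * t / 2)) (Real.tanh (Real.pi * h)) ^ 2 *
        Gq (Real.tan (Real.pi * a)) (Real.tanh (Real.pi * β))) ^ 2 =
      E2 (Real.tan (Real.pi * a)) (Real.tanh (Real.pi * β)) (Real.tan (Real.pi * t / 2))
        (Real.tanh (Real.pi * h)) * D2 (Real.tan (Real.pi * a)) (Real.tanh (Real.pi * β))
        (Real.tan (Real.pi * t / 2)) (Real.tanh (Real.pi * h)) *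
      Wq (Real.tan (Real.pi * t / 2)) (Real.tanh (Real.pi * h)) (cc w).re (cc w).im) := by
  have hpi := Real.pi_pos
  obtain ⟨φ, F⟩ := fac (β := β) (h := h) (a := a) (t := t) (by linarith) ha1 t0.le t1.le
  have hkpos : 0 < Real.tanh (Real.pi * h) := tanh_pos_of (by positivity)
  have hb1 : Real.tanh (Real.pi * β) < 1 := (abs_lt.1 (Real.abs_tanh_lt_one _)).2
  have hk1 : Real.tanh (Real.pi * h) < 1 := (abs_lt.1 (Real.abs_tanh_lt_one _)).2
  have hkb : Real.tanh (Real.pi * h) < Real.tanh (Real.pi * β) := by linarith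
  have hβ : h < β := by
    by_contra hc
    push Not at hc
    have := tanh_mono (mul_le_mul_of_nonneg_left hc hpi.le)
    linarith
  have hp1 : 1 ≤ Real.tan (Real.pi * a) := by
    rw [← Real.tan_pi_div_four]
    rcases ha0.eq_or_lt with h1 | h1
    · rw [← h1, show Real.pi * (1 / 4) = Real.pi / 4 by ring]
    · exact (Real.tan_lt_tan_of_lt_of_lt_pi_div_two (by nlinarith) (by nlinarith)
        (by nlinarith)).le
  have hz0 : 0 ≤ Real.tan (Real.pi * t / 2) :=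
    Real.tan_nonneg_of_nonneg_of_le_pi_div_two (by positivity) (by nlinarith)
  have hz1 : Real.tan (Real.pi * t / 2) ≤ 1 := by
    rw [← Real.tan_pi_div_four]
    exact (Real.tan_lt_tan_of_lt_of_lt_pi_div_two (by nlinarith) (by nlinarith)
        (by nlinarith)).le
  have hz0' : 0 < Real.tan (Real.pi * t / 2) :=
    Real.tan_pos_of_pos_of_lt_pi_div_two (by positivity) (by nlinarith)
  have A1 := he_add (a := a) (β := β) (t := t) (h := h) (by linarith) ha1 t0 t1 h0 (by linarith) F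
  have A2 := he_sub (a := a) (β := β) (t := t) (h := h) (by linarith) ha1 t0 t1 hβ F
  have n1 := F.norm1
  have n2 := F.norm2
  have cr := F.crit (w := w)
  set p := Real.tan (Real.pi * a)
  set b := Real.tanh (Real.pi * β)
  set z := Real.tan (Real.pi * t / 2)
  set k := Real.tanh (Real.pi * h)
  have hk2 : k ^ 2 < 1 := by nlinarith
  have hC : 0 ≤ Ct z := by unfold Ct; nlinarith
  have hS : 0 < St z := by unfold St; linarith
  have hV1 : 0 < St z + Ct z * p := by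
    have := mul_nonneg hC (by linarith : (0 : ℝ) ≤ p)
    linarith
  have hY1 : 0 < Ct z + St z * p := by
    have := mul_pos hS (by linarith : (0 : ℝ) < p)
    linarith
  have hbk : 0 < b - k := by linarith
  have h1kb : 0 < 1 + k * b := by
    have := mul_pos hkpos (by linarith : (0 : ℝ) < b)
    linarith
  have hV : 0 < (1 + k * b) * (St z + Ct z * p) := mul_pos h1kb hV1
  have hY : 0 < (b - k) * (Ct z + St z * p) := mul_pos hbk hY1
  refine ⟨hp1, hkpos, hb1, hz0, hz1, ?_, ?_, fun hc => cr hc hk2⟩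
  · rw [sub_im, A1 hV, A2 hY]
    have := Ang.mk' (X := (1 - k * b) * (St z - Ct z * p)) (W := (k + b) * (Ct z - St z * p)) hY hV
    have e : ∀ u v : ℝ, u - -(Real.pi / 2 - v) = Real.pi / 2 - v + u := fun u v => by ring
    rw [e]
    convert this using 1
    · unfold Rq; ring
    · unfold Iq St Ct; ring
  · have hf1 : fdom (((t : ℂ) + (h : ℂ) * I) + ((a : ℂ) + (β : ℂ) * I)) := by
      left
      rw [fst_im]
      linarith
    have hf2 : fdom (((t : ℂ) + (h : ℂ) * I) - ((a : ℂ) + (β : ℂ) * I)) := by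
      left
      rw [snd_im]
      linarith
    have hφ := F.φ0
    have hE : 0 < E2 p b z k := by
      unfold E2
      have h1 : 0 < (1 + k * b) ^ 2 * (St z + Ct z * p) ^ 2 := by positivity
      have h2 : 0 ≤ (k + b) ^ 2 * (Ct z - St z * p) ^ 2 := by positivity
      linarith
    have hD : 0 < D2 p b z k := by
      unfold D2
      have h1 : 0 < (b - k) ^ 2 * (Ct z + St z * p) ^ 2 := by positivity
      have h2 : 0 ≤ (1 - k * b) ^ 2 * (St z - Ct z * p) ^ 2 := by positivity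
      linarith
    rw [sub_re, re_he hf1, re_he hf2]
    have l1 := congrArg Real.log n1
    have l2 := congrArg Real.log n2
    rw [Real.log_pow, Real.log_mul (by positivity) hE.ne'] at l1
    rw [Real.log_pow, Real.log_mul (by positivity) hD.ne'] at l2
    rw [Real.log_div hE.ne' hD.ne']
    push_cast at l1 l2
    linarith

end

end Pool.Agent.S3.P1
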