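import Pool.Agent.S3.W2.P1S

/-!
# The interval test of phase 2

Variables `p = tan πa`, `b = tanh πβ`, `z = tan (πt/2)`; the height is given by `k = 19/20 b`.
-/

set_option autoImplicit false

namespace Pool.Agent.S3.P2

open Real Pool.Agent.S3.NI Pool.Agent.S3.T2
open Pool.Agent.S3.P1 (s2N mem_s2N ble_false bif_tf bif_tt bif_ff Sq div_ge1)

/-- Parameters: the rectangle of `c_w`, the range of `S²`, the comparison
`cn / cd S2 + (dp - dn) + (ep - en) S²`. -/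
structure Par where
  r : N
  i : N
  slo : ℕ
  shi : ℕ
  cn : ℕ
  cd : ℕ
  dp : ℕ
  dn : ℕ
  ep : ℕ
  en : ℕ

/-- lower bound of `arctan ((x - x') / y)`: positive part, negative part -/
def qS (X X' Y : N) : ℕ × ℕ :=
  bif Nat.ble X'.hi X.lo then (qLo (Nat.sub X.lo X'.hi) Y.hi, 0)
  else (0, qUp (Nat.sub X'.hi X.lo) Y.lo)

/-- lower bound of `π / 2 + arctan ((x - x') / y)` -/
def hS (q : ℕ × ℕ) : ℕ := Nat.sub (Nat.add 1686629713 q.1) q.2

/-- the bracket: positive part, negative part -/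
def br (R1 R2 R : N) (qa : ℕ × ℕ) (qb qw qc : ℕ) : ℕ × ℕ :=
  (Nat.div (Nat.add (Nat.add (Nat.mul R1.lo qa.1) (Nat.mul R2.lo qb))
    (Nat.mul R.lo (Nat.add qw (Nat.mul 4 qc)))) 1073741824,
   Nat.succ (Nat.div (Nat.mul R1.hi qa.2) 1073741824))

/-- The last comparison. -/
def fin2 (P : Par) (S2 T s2 : N) (q : ℕ) (α : ℕ × ℕ) : Bool :=
  Nat.ble (Nat.add (Nat.mul P.cn s2.hi) (Nat.mul P.cd (Nat.add
      (Nat.add P.dp (Nat.succ (Nat.div (Nat.mul P.ep S2.hi) 1073741824)))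
      (Nat.succ (Nat.div (Nat.mul T.hi (Nat.succ (Nat.div α.2 2))) 1073741824)))))
    (Nat.mul P.cd (Nat.add (Nat.add q (Nat.div (Nat.mul T.lo (Nat.div α.1 2)) 1073741824))
      (Nat.add P.dn (Nat.div (Nat.mul P.en S2.lo) 1073741824))))

def w9 (P : Par) (p b b2 p2 S2 R St Ct Ct2 pc ps k Wx Wy YA YB : N) (y : ℕ) : Bool :=
  bif Nat.ble y 1073741823 then false else
  bif N.ps YA && N.ps YB && N.ps Wy then
    fin2 P S2 (N.mul p b) (s2N b b2 (N.sq b2) (N.inv p2)) (Nat.div (lnLo 12 y) 4)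
      (br (N.add one R) (N.sub one R) R (qS Ct ps YA) (hS (qS pc St YB)) (hS (qS Ct2 Wx Wy))
        (qLo (N.lo (N.mul St k)) Ct.hi))
  else false

def w8 (P : Par) (p b b2 p2 S2 R St Ct Ct2 pc ps kb k Wx Wy E2 d2 W2 lhs rhs : N) : Bool :=
  bif Nat.ble (Nat.succ lhs.hi) rhs.lo || Nat.ble (Nat.succ rhs.hi) lhs.lo then true else
  bif Nat.ble lhs.hi 0 || Nat.ble d2.hi 0 then false else
  bif N.ps (N.add k b) && N.ps (N.sub one kb) then
    w9 P p b b2 p2 S2 R St Ct Ct2 pc ps k Wx Wy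
      (N.mul (N.add St pc) (N.mul (N.add one kb) (N.inv (N.add k b))))
      (N.mul (N.add Ct ps) (N.mul (N.dv b 20) (N.inv (N.sub one kb))))
      (mx (Nat.div (Nat.mul E2.lo 1073741824) d2.hi) (Nat.div (Nat.mul
        (N.lo (N.mul (N.sq E2) W2)) 1073741824) lhs.hi))
  else false

def w7 (P : Par) (p b b2 p2 S2 R St Ct Ct2 pc ps kb k Wx Wy E2 d2 W2 lhs : N) : Bool :=
  w8 P p b b2 p2 S2 R St Ct Ct2 pc ps kb k Wx Wy E2 d2 W2 lhs (N.mul (N.mul E2 d2) W2)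

def w6 (P : Par) (p b b2 p2 S2 R St Ct Ct2 pc ps kb k Wx Wy E2 d2 Ny : N) : Bool :=
  w7 P p b b2 p2 S2 R St Ct Ct2 pc ps kb k Wx Wy E2 d2
    (N.add (N.sq (N.ad Wx Ct2)) (N.sq Wy))
    (N.sq (N.mul (N.sq Ny) (N.mul (N.add one p2) (N.sub one b2))))

def w5 (P : Par) (p b b2 p2 S2 R St Ct Ct2 pc ps kb k E2 d2 M Sk csk : N) : Bool :=
  w6 P p b b2 p2 S2 R St Ct Ct2 pc ps kb k (N.add (N.mul M P.r) Sk)
    (N.add (N.mul M P.i) (N.add csk csk)) E2 d2 (N.add Ct2 Sk)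

def w4 (P : Par) (p b b2 p2 S2 R St Ct n2 k2 kb k pc ps St2 Ct2 cs : N) : Bool :=
  w5 P p b b2 p2 S2 R St Ct Ct2 pc ps kb k
    (N.add (N.mul (N.sq (N.add one kb)) (N.sq (N.add St pc)))
      (N.mul (N.sq (N.add k b)) (N.sq (N.ad Ct ps))))
    (N.add (N.mul (N.sq (N.sub one kb)) (N.sq (N.ad St pc)))
      (N.mul (N.sq (N.dv b 20)) (N.sq (N.add Ct ps))))
    (N.mul n2 (N.sub one k2)) (N.mul St2 k2) (N.mul cs k)

def w3 (P : Par) (p b b2 p2 S2 R St Ct n2 k2 kb k : N) : Bool :=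
  w4 P p b b2 p2 S2 R St Ct n2 k2 kb k (N.mul Ct p) (N.mul St p) (N.sq St) (N.sq Ct)
    (N.mul Ct St)

def w2 (P : Par) (p b b2 p2 z z2 k k2 S2 : N) : Bool :=
  bif Nat.ble (Nat.succ S2.hi) P.slo || Nat.ble (Nat.succ P.shi) S2.lo then true else
  w3 P p b b2 p2 S2 (N.dv (N.sm 19 (N.mul (N.sub one b2) (N.inv (N.sub one k2)))) 20)
    (N.add z z) (N.sub one z2) (N.sq (N.add one z2)) k2 (N.mul k b) k

def w1 (P : Par) (p b b2 p2 z z2 k k2 : N) : Bool :=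
  bif N.ps (N.sub one b2) && N.ps (N.sub one k2) && N.ps p2 then
    w2 P p b b2 p2 z z2 k k2 (N.mul (N.mul b2 (N.add one p2)) (N.inv (N.sub one b2)))
  else false

def w0 (P : Par) (p b z k : N) : Bool := w1 P p b (N.sq b) (N.sq p) z (N.sq z) k (N.sq k)

/-- The test. -/
def test (P : Par) (p b z : N) : Bool := w0 P p b z (N.dv (N.sm 19 b) 20)

/-! ### Soundness -/

theorem qS_sound {x x' y : ℝ} {X X' Y : N} (h1 : Mem x X) (h2 : Mem x' X') (h3 : Mem y Y)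
    (hY : N.ps Y = true) : ((qS X X' Y).1 : ℝ) - (qS X X' Y).2 ≤
      arctan ((x - x') / y) * 1073741824 := by
  have hy := h3.pos hY
  unfold qS
  rcases e1 : Nat.ble X'.hi X.lo with _ | _
  · rw [cond_false]
    have hb : 0 < Y.lo := by
      unfold N.ps at hY
      rw [Nat.ble_eq] at hY
      omega
    have k := le_qUp (x := x' - x) (y := y) hb
      (le_nsub (a := X'.hi) (b := X.lo) (u := (x' - x) * 1073741824) (by linarith [h2.2, h1.1]))
      h3.1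
    have e : (x' - x) / y = -((x - x') / y) := by rw [← neg_div]; congr 1; ring
    rw [e, arctan_neg] at k
    simp only [Nat.cast_zero, zero_sub]
    linarith
  · rw [cond_true]
    rw [Nat.ble_eq] at e1
    have hx : 0 ≤ x - x' := by
      have : (X'.hi : ℝ) ≤ X.lo := by exact_mod_cast e1
      nlinarith [h1.1, h2.2]
    have k := qLo_le (x := x - x') (y := y) hy
      (nsub_le (a := X.lo) (b := X'.hi) (u := (x - x') * 1073741824) (by linarith [h1.1, h2.2])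
        (by positivity)) h3.2
    simp only [Nat.cast_zero, sub_zero]
    exact k

theorem hS_sound {q : ℕ × ℕ} {u : ℝ} (h : (q.1 : ℝ) - q.2 ≤ arctan u * 1073741824) :
    (hS q : ℝ) ≤ (π / 2 + arctan u) * 1073741824 := by
  unfold hS
  have h1 := neg_pi_div_two_lt_arctan u
  refine nsub_le ?_ (mul_nonneg (by linarith) (by norm_num))
  rw [cast_add', Nat.cast_ofNat]
  linarith [pi_lo]

theorem br_sound {R1 R2 R : N} {ρ A B W C : ℝ} {qa : ℕ × ℕ} {qb qw qc : ℕ}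
    (h1 : Mem (1 + ρ) R1) (h2 : Mem (1 - ρ) R2) (h : Mem ρ R) (ha : (qa.1 : ℝ) - qa.2 ≤ A * 1073741824)
    (hb : (qb : ℝ) ≤ B * 1073741824) (hw : (qw : ℝ) ≤ W * 1073741824)
    (hc : (qc : ℝ) ≤ C * 1073741824) :
    ((br R1 R2 R qa qb qw qc).1 : ℝ) - (br R1 R2 R qa qb qw qc).2 ≤
      ((1 + ρ) * A + (1 - ρ) * B + ρ * (W + 4 * C)) * 1073741824 := by
  unfold br
  have a1 := nat_div_le (Nat.add (Nat.add (Nat.mul R1.lo qa.1) (Nat.mul R2.lo qb))
    (Nat.mul R.lo (Nat.add qw (Nat.mul 4 qc)))) 1073741824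
  have a2 := le_succ_div (Nat.mul R1.hi qa.2) (d := 1073741824) (by norm_num)
  simp only [cast_mul', cast_add', Nat.cast_ofNat] at a1 a2
  have n1 : (0 : ℝ) ≤ qa.1 := qa.1.cast_nonneg
  have n2 : (0 : ℝ) ≤ qa.2 := qa.2.cast_nonneg
  have n3 : (0 : ℝ) ≤ qb := qb.cast_nonneg
  have n4 : (0 : ℝ) ≤ qw := qw.cast_nonneg
  have n5 : (0 : ℝ) ≤ qc := qc.cast_nonneg
  have p1 := h1.nonneg
  have p2 := h2.nonneg
  have p3 := h.nonneg
  have b1 : (R1.lo : ℝ) * qa.1 ≤ (1 + ρ) * 1073741824 * qa.1 := mul_le_mul_of_nonneg_right h1.1 n1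
  have b2 : (R2.lo : ℝ) * qb ≤ (1 - ρ) * 1073741824 * (B * 1073741824) :=
    mul_le_mul h2.1 hb n3 (by positivity)
  have b3 : (R.lo : ℝ) * (qw + 4 * qc) ≤ ρ * 1073741824 * ((W + 4 * C) * 1073741824) :=
    mul_le_mul h.1 (by linarith) (by positivity) (by positivity)
  have b4 : (1 + ρ) * 1073741824 * qa.2 ≤ (R1.hi : ℝ) * qa.2 := mul_le_mul_of_nonneg_right h1.2 n2
  have b5 : (1 + ρ) * 1073741824 * ((qa.1 : ℝ) - qa.2) ≤
      (1 + ρ) * 1073741824 * (A * 1073741824) := mul_le_mul_of_nonneg_left ha (by positivity)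
  have c1 : ((R1.lo : ℝ) * qa.1 + R2.lo * qb + R.lo * (qw + 4 * qc)) / 1073741824 ≤
      (1 + ρ) * qa.1 + (1 - ρ) * (B * 1073741824) + ρ * ((W + 4 * C) * 1073741824) := by
    rw [div_le_iff₀ (by norm_num)]
    linarith
  have c2 : (1 + ρ) * qa.2 ≤ (R1.hi : ℝ) * qa.2 / 1073741824 := by
    rw [le_div_iff₀ (by norm_num)]
    linarith
  have c3 : (1 + ρ) * ((qa.1 : ℝ) - qa.2) ≤ (1 + ρ) * (A * 1073741824) :=
    mul_le_mul_of_nonneg_left ha p1
  linarith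

theorem fin2_sound {P : Par} {s T s2 L α : ℝ} {S2 TN s2I : N} {q : ℕ} {an : ℕ × ℕ}
    (hcd : 0 < P.cd) (h : fin2 P S2 TN s2I q an = true) (h1 : Mem s S2) (h2 : Mem T TN)
    (h3 : Mem s2 s2I) (hq : (q : ℝ) ≤ L * 1073741824)
    (hα : (an.1 : ℝ) - an.2 ≤ α * 1073741824) :
    (P.cn : ℝ) / P.cd * s2 + ((P.dp : ℝ) - P.dn) / 1073741824 +
      ((P.ep : ℝ) - P.en) / 1073741824 * s ≤ L + T / 2 * α := by
  unfold fin2 at h
  rw [Nat.ble_eq] at h
  have hR : ((Nat.add (Nat.mul P.cn s2I.hi) (Nat.mul P.cd (Nat.add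
      (Nat.add P.dp (Nat.succ (Nat.div (Nat.mul P.ep S2.hi) 1073741824)))
      (Nat.succ (Nat.div (Nat.mul TN.hi (Nat.succ (Nat.div an.2 2))) 1073741824)))) : ℕ) : ℝ) ≤
    ((Nat.mul P.cd (Nat.add (Nat.add q (Nat.div (Nat.mul TN.lo (Nat.div an.1 2)) 1073741824))
      (Nat.add P.dn (Nat.div (Nat.mul P.en S2.lo) 1073741824))) : ℕ) : ℝ) := by exact_mod_cast h
  simp only [cast_mul', cast_add'] at hR
  have a1 := le_succ_div (Nat.mul TN.hi (Nat.succ (Nat.div an.2 2))) (d := 1073741824) (by norm_num)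
  have a2 := nat_div_le (Nat.mul TN.lo (Nat.div an.1 2)) 1073741824
  have a3 := nat_div_le (Nat.mul P.en S2.lo) 1073741824
  have a6 := le_succ_div (Nat.mul P.ep S2.hi) (d := 1073741824) (by norm_num)
  have a4 := nat_div_le an.1 2
  have a5 := le_succ_div an.2 (d := 2) (by norm_num)
  rw [cast_mul', Nat.cast_ofNat] at a1 a2 a3 a6
  rw [Nat.cast_ofNat] at a4 a5
  have T0 := h2.nonneg
  have s0 := h1.nonneg
  have hTlo : (0 : ℝ) ≤ TN.lo := TN.lo.cast_nonneg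
  have hThi : (0 : ℝ) ≤ TN.hi := TN.hi.cast_nonneg
  have n1 : (0 : ℝ) ≤ an.1 := an.1.cast_nonneg
  have n2 : (0 : ℝ) ≤ an.2 := an.2.cast_nonneg
  have ncd : (0 : ℝ) < P.cd := by exact_mod_cast hcd
  have ncn : (0 : ℝ) ≤ P.cn := P.cn.cast_nonneg
  have nd : (0 : ℝ) ≤ ((Nat.div an.1 2 : ℕ) : ℝ) := Nat.cast_nonneg _
  have b1 : (TN.lo : ℝ) * ((Nat.div an.1 2 : ℕ) : ℝ) ≤ T * 1073741824 * (an.1 / 2) :=
    mul_le_mul h2.1 a4 nd (by positivity)
  have b2 : T * 1073741824 * (an.2 / 2) ≤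
      (TN.hi : ℝ) * ((Nat.succ (Nat.div an.2 2) : ℕ) : ℝ) :=
    mul_le_mul h2.2 a5 (by positivity) hThi
  have b3 : (P.en : ℝ) * S2.lo ≤ P.en * (s * 1073741824) :=
    mul_le_mul_of_nonneg_left h1.1 P.en.cast_nonneg
  have b4 : (P.ep : ℝ) * (s * 1073741824) ≤ P.ep * S2.hi :=
    mul_le_mul_of_nonneg_left h1.2 P.ep.cast_nonneg
  have c1 := mul_le_mul_of_nonneg_left h3.2 ncn
  have c2 : T * (an.1 - an.2) ≤ T * (α * 1073741824) := mul_le_mul_of_nonneg_left hα T0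
  have e1 : (TN.lo : ℝ) * ((Nat.div an.1 2 : ℕ) : ℝ) / 1073741824 ≤ T * (an.1 / 2) := by
    rw [div_le_iff₀ (by norm_num)]
    linarith
  have e2 : T * (an.2 / 2) ≤ (TN.hi : ℝ) * ((Nat.succ (Nat.div an.2 2) : ℕ) : ℝ) / 1073741824 := by
    rw [le_div_iff₀ (by norm_num)]
    linarith
  have e3 : (P.en : ℝ) * S2.lo / 1073741824 ≤ P.en * s := by
    rw [div_le_iff₀ (by norm_num)]
    linarith
  have e4 : (P.ep : ℝ) * s ≤ P.ep * S2.hi / 1073741824 := by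
    rw [le_div_iff₀ (by norm_num)]
    linarith
  have key : P.cn * (s2 * 1073741824) + P.cd * (P.dp + P.ep * s + T * (an.2 / 2)) ≤
      P.cd * (L * 1073741824 + T * (an.1 / 2) + (P.dn + P.en * s)) := by
    refine le_trans ?_ (hR.trans ?_)
    · exact add_le_add c1 (mul_le_mul_of_nonneg_left (by linarith) ncd.le)
    · exact mul_le_mul_of_nonneg_left (by linarith) ncd.le
  have key2 : P.cn / P.cd * (s2 * 1073741824) + (P.dp + P.ep * s + T * (an.2 / 2)) ≤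
      L * 1073741824 + T * (an.1 / 2) + (P.dn + P.en * s) := by
    have h5 : P.cd * ((P.cn : ℝ) / P.cd * (s2 * 1073741824) + (P.dp + P.ep * s + T * (an.2 / 2))) ≤
        P.cd * (L * 1073741824 + T * (an.1 / 2) + (P.dn + P.en * s)) := by
      refine le_trans (le_of_eq ?_) key
      field_simp
    exact le_of_mul_le_mul_left h5 ncd
  have hfin : ((P.cn : ℝ) / P.cd * s2 + ((P.dp : ℝ) - P.dn) / 1073741824 +
      ((P.ep : ℝ) - P.en) / 1073741824 * s) * 1073741824 ≤ (L + T / 2 * α) * 1073741824 := by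
    have e5 : ((P.cn : ℝ) / P.cd * s2 + ((P.dp : ℝ) - P.dn) / 1073741824 +
      ((P.ep : ℝ) - P.en) / 1073741824 * s) * 1073741824 =
      P.cn / P.cd * (s2 * 1073741824) + (P.dp - P.dn) + (P.ep - P.en) * s := by
      field_simp
    rw [e5]
    linarith
  exact le_of_mul_le_mul_right hfin (by norm_num)

end Pool.Agent.S3.P2
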