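import Pool.Agent.S3.W2.Geo
import Pool.Agent.S3.W2.P2T

/-!
# Soundness of the test of phase 2
-/

set_option autoImplicit false

namespace Pool.Agent.S3.P2

open Real Pool.Agent.S3.NI Pool.Agent.S3.T2
open Pool.Agent.S3.P1 (s2N mem_s2N ble_false bif_tf bif_tt bif_ff Sq div_ge1)

/-- The hypotheses on the variables. -/
structure Hyp (P : Par) (p b z : ℝ) : Prop where
  p1 : 1 ≤ p
  b0 : 0 < b
  b1 : b < 1
  z0 : 0 < z
  z1 : z < 1
  s0 : (P.slo : ℝ) ≤ Sq p b * 1073741824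
  s1 : Sq p b * 1073741824 ≤ P.shi

/-- the factor of the height -/
noncomputable def rho (b : ℝ) : ℝ := 19 * ((1 - b ^ 2) * (1 - (19 * b / 20) ^ 2)⁻¹) / 20

/-- The conclusion. -/
def Concl (P : Par) (p b z : ℝ) : Prop := ∀ r i : ℝ, Mem r P.r → Mem i P.i →
  rE2 p b z (19 * b / 20) * rd2 p b z (19 * b / 20) *
    (rX z (19 * b / 20) r ^ 2 + rY z (19 * b / 20) i ^ 2) = (rNy z (19 * b / 20) ^ 2 * rG p b) ^ 2 →
  (P.cn : ℝ) / P.cd * s2R p b + ((P.dp : ℝ) - P.dn) / 1073741824 +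
      ((P.ep : ℝ) - P.en) / 1073741824 * Sq p b ≤
    Real.log (rE2 p b z (19 * b / 20) / rd2 p b z (19 * b / 20)) / 4 + p * b / 2 *
      ((1 + rho b) * aA p b z (19 * b / 20) + (1 - rho b) * aB p b z (19 * b / 20) +
        rho b * (aW z (19 * b / 20) r i + 4 * aC z (19 * b / 20)))

section

variable {P : Par} {p b z r i : ℝ} {A B C : N}

theorem Hyp.k1 (H : Hyp P p b z) : 19 * b / 20 < 1 := by linarith [H.b0, H.b1]
theorem Hyp.b2 (H : Hyp P p b z) : b ^ 2 < 1 := by nlinarith [H.b0, H.b1]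
theorem Hyp.k2 (H : Hyp P p b z) : (19 * b / 20) ^ 2 < 1 := by nlinarith [H.b0, H.k1]
theorem Hyp.z2 (H : Hyp P p b z) : z ^ 2 ≤ 1 := by nlinarith [H.z0, H.z1]
theorem Hyp.Ct0 (H : Hyp P p b z) : 0 < 1 - z ^ 2 := by nlinarith [H.z0, H.z1]
theorem Hyp.kb0 (H : Hyp P p b z) : 0 < 1 - 19 * b / 20 * b := by nlinarith [H.b0, H.b1]

theorem Hyp.rho0 (H : Hyp P p b z) : 0 ≤ rho b ∧ rho b ≤ 1 := by
  have h1 := H.b2
  have h2 := H.k2
  have h3 : 0 < 1 - (19 * b / 20) ^ 2 := by linarith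
  have h4 : 0 ≤ (1 - b ^ 2) * (1 - (19 * b / 20) ^ 2)⁻¹ :=
    mul_nonneg (by linarith) (inv_nonneg.2 h3.le)
  have h5 : (1 - b ^ 2) * (1 - (19 * b / 20) ^ 2)⁻¹ ≤ 1 := by
    rw [← div_eq_mul_inv, div_le_one h3]
    nlinarith [sq_nonneg b]
  unfold rho
  constructor <;> linarith

theorem Hyp.d2pos (H : Hyp P p b z) : 0 < rd2 p b z (19 * b / 20) := by
  unfold rd2
  have h1 : 0 < b - 19 * b / 20 := by linarith [H.b0]
  have h2 := H.Ct0
  have h3 : 0 < 2 * z * p := by have := H.z0; have := H.p1; positivity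
  positivity

theorem w9_sound {b2 p2 S2 R St Ct Ct2 pc ps k Wx Wy YA YB : N} {y : ℕ} (H : Hyp P p b z)
    (hcd : 0 < P.cd) {L ya yb wx wy : ℝ}
    (h : w9 P A B b2 p2 S2 R St Ct Ct2 pc ps k Wx Wy YA YB y = true)
    (hp : Mem p A) (hb : Mem b B) (hp2 : Mem (p ^ 2) p2) (hb2 : Mem (b ^ 2) b2)
    (hS : Mem (Sq p b) S2) (hR : Mem (rho b) R) (hSt : Mem (2 * z) St) (hCt : Mem (1 - z ^ 2) Ct)
    (hCt2 : Mem ((1 - z ^ 2) ^ 2) Ct2) (hpc : Mem ((1 - z ^ 2) * p) pc) (hps : Mem (2 * z * p) ps)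
    (hk : Mem (19 * b / 20) k) (hWx : Mem wx Wx) (hWy : Mem wy Wy) (hYA : Mem ya YA)
    (hYB : Mem yb YB)
    (ps1 : N.ps (N.sub one b2) = true) (ps2 : N.ps p2 = true)
    (hy : (y : ℝ) ≤ L * 1073741824) :
    (P.cn : ℝ) / P.cd * s2R p b + ((P.dp : ℝ) - P.dn) / 1073741824 +
      ((P.ep : ℝ) - P.en) / 1073741824 * Sq p b ≤ Real.log L / 4 + p * b / 2 *
      ((1 + rho b) * arctan ((1 - z ^ 2 - 2 * z * p) / ya) +
        (1 - rho b) * (π / 2 + arctan (((1 - z ^ 2) * p - 2 * z) / yb)) +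
        rho b * ((π / 2 + arctan (((1 - z ^ 2) ^ 2 - wx) / wy)) + 4 * aC z (19 * b / 20))) := by
  unfold w9 at h
  obtain ⟨c1, h⟩ := bif_ff h
  have hy1 : 1073741824 ≤ y := ble_false c1
  obtain ⟨c2, h⟩ := bif_tf h
  rw [Bool.and_eq_true, Bool.and_eq_true] at c2
  obtain ⟨⟨psA, psB⟩, psW⟩ := c2
  have g1 : b ^ 2 ≤ 1 := H.b2.le
  have m8 := mem_s2N hb hb2 hb2.sq (hp2.inv ps2) g1 ps1 H.p1
  have m9 := Mem.lnLo 12 hy hy1
  have m10 : ((Nat.div (lnLo 12 y) 4 : ℕ) : ℝ) ≤ Real.log L / 4 * 1073741824 := by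
    have := nat_div_le (lnLo 12 y) 4
    rw [Nat.cast_ofNat] at this
    linarith
  have q1 := qS_sound hCt hps hYA psA
  have q2 := hS_sound (qS_sound hpc hSt hYB psB)
  have q3 := hS_sound (qS_sound hCt2 hWx hWy psW)
  have hSk := hSt.mul hk
  have q4 : (qLo (N.lo (N.mul St k)) Ct.hi : ℝ) ≤ aC z (19 * b / 20) * 1073741824 := by
    unfold aC
    exact qLo_le H.Ct0 hSk.1 hCt.2
  have r0 := H.rho0
  have q5 := br_sound (mem_one.add hR) (mem_one.sub hR r0.2) hR q1 q2 q3 q4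
  exact fin2_sound hcd h hS (hp.mul hb) m8 m10 q5

theorem test_sound (h : test P A B C = true) (hcd : 0 < P.cd) (hp : Mem p A) (hb : Mem b B)
    (hz : Mem z C) (H : Hyp P p b z) : Concl P p b z := by
  intro r i hr hi hc
  have hk : Mem (19 * b / 20) (N.dv (N.sm 19 B) 20) := by
    have := (hb.sm 19).dv (n := 20) (by norm_num)
    exact_mod_cast this
  have hbk : Mem (b - 19 * b / 20) (N.dv B 20) := by
    have := hb.dv (n := 20) (by norm_num)
    rw [Nat.cast_ofNat] at this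
    rwa [show b - 19 * b / 20 = b / 20 by ring]
  unfold test w0 at h
  generalize N.dv (N.sm 19 B) 20 = D at h hk
  unfold w1 at h
  obtain ⟨c1, h⟩ := bif_tf h
  rw [Bool.and_eq_true, Bool.and_eq_true] at c1
  obtain ⟨⟨ps1, ps2⟩, ps3⟩ := c1
  have hp2 := hp.sq
  have hb2 := hb.sq
  have hk2 := hk.sq
  have hz2 := hz.sq
  have g1 : b ^ 2 ≤ 1 := H.b2.le
  have g2 : (19 * b / 20) ^ 2 ≤ 1 := H.k2.le
  have hS : Mem (Sq p b) (N.mul (N.mul (N.sq B) (N.add one (N.sq A)))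
      (N.inv (N.sub one (N.sq B)))) :=
    (hb2.mul (mem_one.add hp2)).mul ((mem_one.sub hb2 g1).inv ps1)
  generalize N.mul (N.mul (N.sq B) (N.add one (N.sq A))) (N.inv (N.sub one (N.sq B))) = S2 at h hS
  unfold w2 at h
  rcases bif_tt h with c | h
  · -- range of S²
    exfalso
    rw [Bool.or_eq_true, Nat.ble_eq, Nat.ble_eq] at c
    rcases c with c | c
    · have c' : (S2.hi : ℝ) + 1 ≤ P.slo := by exact_mod_cast c
      linarith [H.s0, hS.2]
    · have c' : (P.shi : ℝ) + 1 ≤ S2.lo := by exact_mod_cast c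
      linarith [H.s1, hS.1]
  have hR : Mem (rho b) (N.dv (N.sm 19 (N.mul (N.sub one (N.sq B))
      (N.inv (N.sub one (N.sq D))))) 20) := by
    have := (((mem_one.sub hb2 g1).mul ((mem_one.sub hk2 g2).inv ps2)).sm 19).dv (n := 20)
      (by norm_num)
    unfold rho
    exact_mod_cast this
  have hSt : Mem (2 * z) (N.add C C) := by rw [two_mul]; exact hz.add hz
  have hCt : Mem (1 - z ^ 2) (N.sub one (N.sq C)) := mem_one.sub hz2 H.z2
  have hn : Mem ((1 + z ^ 2) ^ 2) (N.sq (N.add one (N.sq C))) := (mem_one.add hz2).sq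
  have hkb : Mem (19 * b / 20 * b) (N.mul D B) := hk.mul hb
  generalize N.dv (N.sm 19 (N.mul (N.sub one (N.sq B)) (N.inv (N.sub one (N.sq D))))) 20 = RN
    at h hR
  generalize N.add C C = StN at h hSt
  generalize N.sub one (N.sq C) = CtN at h hCt
  generalize N.sq (N.add one (N.sq C)) = n2 at h hn
  generalize N.mul D B = kbN at h hkb
  unfold w3 at h
  have hpc : Mem ((1 - z ^ 2) * p) (N.mul CtN A) := hCt.mul hp
  have hps : Mem (2 * z * p) (N.mul StN A) := hSt.mul hp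
  have hSt2 := hSt.sq
  have hCt2 := hCt.sq
  have hcs : Mem ((1 - z ^ 2) * (2 * z)) (N.mul CtN StN) := hCt.mul hSt
  generalize N.mul CtN A = pc at h hpc
  generalize N.mul StN A = ps at h hps
  generalize N.sq StN = St2 at h hSt2
  generalize N.sq CtN = Ct2 at h hCt2
  generalize N.mul CtN StN = cs at h hcs
  unfold w4 at h
  have gk : 19 * b / 20 * b ≤ 1 := by linarith [H.kb0]
  have hE : Mem (rE2 p b z (19 * b / 20)) (N.add (N.mul (N.sq (N.add one kbN))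
      (N.sq (N.add StN pc))) (N.mul (N.sq (N.add D B)) (N.sq (N.ad CtN ps)))) :=
    ((mem_one.add hkb).sq.mul (hSt.add hpc).sq).add ((hk.add hb).sq.mul (hCt.ad hps).sq_abs)
  have hD : Mem (rd2 p b z (19 * b / 20)) (N.add (N.mul (N.sq (N.sub one kbN))
      (N.sq (N.ad StN pc))) (N.mul (N.sq (N.dv B 20)) (N.sq (N.add CtN ps)))) :=
    ((mem_one.sub hkb gk).sq.mul (hSt.ad hpc).sq_abs).add
      (hbk.sq.mul (hCt.add hps).sq)
  generalize N.add (N.mul (N.sq (N.add one kbN)) (N.sq (N.add StN pc)))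
      (N.mul (N.sq (N.add D B)) (N.sq (N.ad CtN ps))) = EN at h hE
  generalize N.add (N.mul (N.sq (N.sub one kbN)) (N.sq (N.ad StN pc)))
      (N.mul (N.sq (N.dv B 20)) (N.sq (N.add CtN ps))) = DN at h hD
  have hM : Mem (rM z (19 * b / 20)) (N.mul n2 (N.sub one (N.sq D))) :=
    hn.mul (mem_one.sub hk2 g2)
  have hSk : Mem ((2 * z) ^ 2 * (19 * b / 20) ^ 2) (N.mul St2 (N.sq D)) := hSt2.mul hk2
  have hcsk : Mem ((1 - z ^ 2) * (2 * z) * (19 * b / 20)) (N.mul cs D) := hcs.mul hk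
  generalize N.mul n2 (N.sub one (N.sq D)) = MN at h hM
  generalize N.mul St2 (N.sq D) = Sk at h hSk
  generalize N.mul cs D = csk at h hcsk
  unfold w5 at h
  have hWx := (hM.mul hr).add hSk
  have hWy : Mem (rY z (19 * b / 20) i) (N.add (N.mul MN P.i) (N.add csk csk)) := by
    unfold rY
    rw [two_mul]
    exact (hM.mul hi).add (hcsk.add hcsk)
  have hN : Mem (rNy z (19 * b / 20)) (N.add Ct2 Sk) := hCt2.add hSk
  generalize N.add (N.mul MN P.r) Sk = WxN at h hWx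
  generalize N.add (N.mul MN P.i) (N.add csk csk) = WyN at h hWy
  generalize N.add Ct2 Sk = NN at h hN
  unfold w6 at h
  have hW : Mem (rX z (19 * b / 20) r ^ 2 + rY z (19 * b / 20) i ^ 2)
      (N.add (N.sq (N.ad WxN Ct2)) (N.sq WyN)) := (hWx.ad hCt2).sq_abs.add hWy.sq
  have hl : Mem ((rNy z (19 * b / 20) ^ 2 * rG p b) ^ 2)
      (N.sq (N.mul (N.sq NN) (N.mul (N.add one (N.sq A)) (N.sub one (N.sq B))))) :=
    (hN.sq.mul ((mem_one.add hp2).mul (mem_one.sub hb2 g1))).sq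
  generalize N.add (N.sq (N.ad WxN Ct2)) (N.sq WyN) = WN at h hW
  generalize N.sq (N.mul (N.sq NN) (N.mul (N.add one (N.sq A)) (N.sub one (N.sq B)))) = lhs
    at h hl
  unfold w7 at h
  have hrr := (hE.mul hD).mul hW
  generalize N.mul (N.mul EN DN) WN = rhs at h hrr
  unfold w8 at h
  rcases bif_tt h with c | h
  · exfalso
    rw [Bool.or_eq_true, Nat.ble_eq, Nat.ble_eq] at c
    rcases c with c | c
    · have c' : (lhs.hi : ℝ) + 1 ≤ rhs.lo := by exact_mod_cast c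
      have a1 := hl.2
      have a2 := hrr.1
      rw [hc] at a2
      linarith
    · have c' : (rhs.hi : ℝ) + 1 ≤ lhs.lo := by exact_mod_cast c
      have a1 := hl.1
      have a2 := hrr.2
      rw [hc] at a2
      linarith
  obtain ⟨-, h⟩ := bif_ff h
  obtain ⟨c2, h⟩ := bif_tf h
  rw [Bool.and_eq_true] at c2
  obtain ⟨psk, pskb⟩ := c2
  have hEW := hE.sq.mul hW
  have hYA := (hSt.add hpc).mul ((mem_one.add hkb).mul ((hk.add hb).inv psk))
  have hYB := (hCt.add hps).mul (hbk.mul ((mem_one.sub hkb gk).inv pskb))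
  have hy : ((mx (Nat.div (Nat.mul EN.lo 1073741824) DN.hi) (Nat.div (Nat.mul
        (N.lo (N.mul (N.sq EN) WN)) 1073741824) lhs.hi) : ℕ) : ℝ) ≤
      rE2 p b z (19 * b / 20) / rd2 p b z (19 * b / 20) * 1073741824 := by
    have hd0 := H.d2pos
    rcases mx_cases (Nat.div (Nat.mul EN.lo 1073741824) DN.hi)
      (Nat.div (Nat.mul (N.lo (N.mul (N.sq EN) WN)) 1073741824) lhs.hi) with e | e
    · rw [e]
      exact div_ge1 hE hD hd0
    · rw [e]
      have hG : 0 < rG p b := by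
        unfold rG
        have := H.b2
        have h : 0 < 1 - b ^ 2 := by linarith
        positivity
      have hNy : 0 < rNy z (19 * b / 20) := by
        unfold rNy
        have := H.Ct0
        positivity
      have hl0 : 0 < (rNy z (19 * b / 20) ^ 2 * rG p b) ^ 2 := by positivity
      refine (div_ge1 hEW hl hl0).trans (le_of_eq ?_)
      rw [← hc] at hl0 ⊢
      have hE0 : rE2 p b z (19 * b / 20) ≠ 0 := by
        intro h0
        rw [h0] at hl0
        norm_num at hl0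
      have hW0 : rX z (19 * b / 20) r ^ 2 + rY z (19 * b / 20) i ^ 2 ≠ 0 := by
        intro h0
        rw [h0] at hl0
        norm_num at hl0
      field_simp
  have fin := w9_sound H hcd h hp hb hp2 hb2 hS hR hSt hCt hCt2 hpc hps hk hWx hWy hYA hYB ps1 ps3 hy
  refine fin.trans (le_of_eq ?_)
  have e1 : (1 - z ^ 2 - 2 * z * p) /
      ((2 * z + (1 - z ^ 2) * p) * ((1 + 19 * b / 20 * b) * (19 * b / 20 + b)⁻¹)) =
      ((1 - z ^ 2) - 2 * z * p) * (19 * b / 20 + b) / ((2 * z + (1 - z ^ 2) * p) *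
        (1 + 19 * b / 20 * b)) := by
    have h1 : 19 * b / 20 + b ≠ 0 := by have := H.b0; positivity
    rw [← mul_assoc, ← div_eq_mul_inv, div_div_eq_mul_div]
  have e2 : ((1 - z ^ 2) * p - 2 * z) / (((1 - z ^ 2) + 2 * z * p) *
      ((b - 19 * b / 20) * (1 - 19 * b / 20 * b)⁻¹)) =
      ((1 - z ^ 2) * p - 2 * z) * (1 - 19 * b / 20 * b) /
        (((1 - z ^ 2) + 2 * z * p) * (b - 19 * b / 20)) := by
    rw [← mul_assoc, ← div_eq_mul_inv, div_div_eq_mul_div]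
  have e3 : ((1 - z ^ 2) ^ 2 - (rM z (19 * b / 20) * r + (2 * z) ^ 2 * (19 * b / 20) ^ 2)) /
      rY z (19 * b / 20) i = -(rX z (19 * b / 20) r / rY z (19 * b / 20) i) := by
    rw [← neg_div]; congr 1; unfold rX; ring
  rw [e1, e2, e3, arctan_neg, aA, aB, aW]
  ring

end

end Pool.Agent.S3.P2
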