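import Pool.Agent.S3.NIW
import Pool.Agent.S3.W2.Dic
import Pool.Agent.S3.W2.P2S

/-!
# From the certificates of the two phases to the rates of a slide
-/

set_option autoImplicit false

namespace Pool.Agent.S3.T2

open Complex Set
open Pool.Agent.S3.NI

/-! ### The tangent at rational multiples of `π` -/

theorem le_tan_of {a P : ℝ} (hP : 0 < P) (ha0 : 0 < a) (ha1 : a < 1 / 2)
    (h : Real.pi * (1 / 2 - a) ≤ 1 / P * (105 + 55 * (1 / P) ^ 2) /
      (105 + 90 * (1 / P) ^ 2 + 9 * (1 / P) ^ 4)) : P ≤ Real.tan (Real.pi * a) := by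
  have hpi := Real.pi_pos
  have h1 := NI.le_arctan (u := 1 / P) (by positivity)
  have h2 := arctan_inv' hP
  have h3 : Real.arctan P ≤ Real.pi * a := by rw [h2]; linarith
  rw [← Real.tan_arctan P]
  rcases h3.eq_or_lt with h4 | h4
  · rw [h4]
  · exact (Real.tan_lt_tan_of_lt_of_lt_pi_div_two (Real.neg_pi_div_two_lt_arctan P)
      (by nlinarith) h4).le

theorem tan_le_of {a P : ℝ} (hP : 0 < P) (ha0 : 0 < a) (ha1 : a < 1 / 2)
    (h : 1 / P * (15 + 4 * (1 / P) ^ 2) / (15 + 9 * (1 / P) ^ 2) ≤ Real.pi * (1 / 2 - a)) :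
    Real.tan (Real.pi * a) ≤ P := by
  have hpi := Real.pi_pos
  have h1 := NI.arctan_le (u := 1 / P) (by positivity)
  have h2 := arctan_inv' hP
  have h3 : Real.pi * a ≤ Real.arctan P := by rw [h2]; linarith
  rw [← Real.tan_arctan P]
  rcases h3.eq_or_lt with h4 | h4
  · rw [h4]
  · exact (Real.tan_lt_tan_of_lt_of_lt_pi_div_two (by nlinarith)
      (Real.arctan_lt_pi_div_two P) h4).le

/-- `[al, ah]` as an interval of `tan (π a)`. -/
structure TA (al ah : ℝ) (A : N) : Prop where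
  al0 : 1 / 4 ≤ al
  ah1 : ah ≤ 2 / 5
  lo : (A.lo : ℝ) / 1073741824 ≤ Real.tan (Real.pi * al)
  hi : Real.tan (Real.pi * ah) ≤ (A.hi : ℝ) / 1073741824

theorem tan_mono_pi {a a' : ℝ} (h0 : 0 ≤ a) (h : a ≤ a') (h1 : a' < 1 / 2) :
    Real.tan (Real.pi * a) ≤ Real.tan (Real.pi * a') := by
  have hpi := Real.pi_pos
  rcases h.eq_or_lt with h4 | h4
  · rw [h4]
  · exact (Real.tan_lt_tan_of_nonneg_of_lt_pi_div_two (by positivity) (by nlinarith)
      (by nlinarith)).le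

theorem TA.mem {al ah : ℝ} {A : N} (H : TA al ah A) {a : ℝ} (h0 : al ≤ a) (h1 : a ≤ ah) :
    Mem (Real.tan (Real.pi * a)) A := by
  have k1 := H.al0
  have k2 := H.ah1
  have m1 := tan_mono_pi (by linarith) h0 (by linarith)
  have m2 := tan_mono_pi (by linarith) h1 (by linarith)
  have e1 := H.lo
  have e2 := H.hi
  rw [div_le_iff₀ (by norm_num)] at e1
  rw [le_div_iff₀ (by norm_num)] at e2
  constructor
  · nlinarith
  · nlinarith

/-! ### The ranges of the variables -/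

/-- the range of `b` -/
def okB (slo shi : ℕ) (A B : N) : Bool :=
  Nat.ble (Nat.mul (Nat.mul B.lo B.lo) (Nat.add (Nat.add 1152921504606846976 (Nat.mul A.hi A.hi))
    (Nat.mul slo 1073741824))) (Nat.mul slo 1237940039285380274899124224) &&
  Nat.ble (Nat.mul shi 1237940039285380274899124224) (Nat.mul (Nat.mul B.hi B.hi)
    (Nat.add (Nat.add 1152921504606846976 (Nat.mul A.lo A.lo)) (Nat.mul shi 1073741824)))

/-- the range of `k` -/
def okK (slo shi klo khi : ℕ) (D : N) : Bool :=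
  Nat.ble (Nat.mul (Nat.mul D.lo D.lo) (Nat.add 1152921504606846976 (Nat.mul klo slo)))
    (Nat.mul (Nat.mul klo slo) 1152921504606846976) &&
  Nat.ble (Nat.mul (Nat.mul khi shi) 1152921504606846976) (Nat.mul (Nat.mul D.hi D.hi)
    (Nat.add 1152921504606846976 (Nat.mul khi shi)))

/-- the range of `z` -/
def okZ (C : N) : Bool := Nat.ble C.lo 8375186 && Nat.ble 1073741824 C.hi

theorem sq_le_of {x c : ℝ} (hx : 0 ≤ x) (hc : 0 ≤ c) (h : c ^ 2 ≤ x ^ 2) : c ≤ x :=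
  (pow_le_pow_iff_left₀ hc hx two_ne_zero).1 h

theorem okB_sound {slo shi : ℕ} {A B : N} {p b s : ℝ} (h : okB slo shi A B = true)
    (hp : Mem p A) (p0 : 0 ≤ p) (b0 : 0 < b) (b1 : b < 1) (s0 : (slo : ℝ) / 1073741824 ≤ s)
    (s1 : s ≤ (shi : ℝ) / 1073741824) (hs : b ^ 2 * (1 + p ^ 2) = s * (1 - b ^ 2)) : Mem b B := by
  unfold okB at h
  rw [Bool.and_eq_true, Nat.ble_eq, Nat.ble_eq] at h
  obtain ⟨h1, h2⟩ := h
  have h1' : (((Nat.mul (Nat.mul B.lo B.lo) (Nat.add (Nat.add 1152921504606846976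
    (Nat.mul A.hi A.hi)) (Nat.mul slo 1073741824))) : ℕ) : ℝ) ≤
    ((Nat.mul slo 1237940039285380274899124224 : ℕ) : ℝ) := by exact_mod_cast h1
  have h2' : ((Nat.mul shi 1237940039285380274899124224 : ℕ) : ℝ) ≤ ((Nat.mul (Nat.mul B.hi B.hi)
    (Nat.add (Nat.add 1152921504606846976 (Nat.mul A.lo A.lo)) (Nat.mul shi 1073741824)) : ℕ) : ℝ) := by
    exact_mod_cast h2
  simp only [cast_mul', cast_add', Nat.cast_ofNat] at h1' h2'
  rw [div_le_iff₀ (by norm_num)] at s0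
  rw [le_div_iff₀ (by norm_num)] at s1
  have n0 : (0 : ℝ) ≤ slo := slo.cast_nonneg
  have n1 : (0 : ℝ) ≤ shi := shi.cast_nonneg
  have m0 : (0 : ℝ) ≤ B.lo := B.lo.cast_nonneg
  have m1 : (0 : ℝ) ≤ B.hi := B.hi.cast_nonneg
  have a0 : (0 : ℝ) ≤ A.lo := A.lo.cast_nonneg
  have hb1 : 0 ≤ 1 - b ^ 2 := by nlinarith
  constructor
  · -- `B.lo² (U² + A.hi² + slo U) ≤ slo U³`
    apply sq_le_of (by positivity) m0
    have e1 : p ^ 2 * 1152921504606846976 ≤ (A.hi : ℝ) * A.hi := by nlinarith [hp.2, hp.1]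
    have e2 : (slo : ℝ) * (1 - b ^ 2) ≤ b ^ 2 * (1 + p ^ 2) * 1073741824 := by
      rw [hs]
      nlinarith [mul_le_mul_of_nonneg_right s0 hb1]
    have e3 : (slo : ℝ) * 1237940039285380274899124224 ≤ b ^ 2 * 1152921504606846976 *
        (1152921504606846976 + (A.hi : ℝ) * A.hi + slo * 1073741824) := by
      have e4 : b ^ 2 * 1152921504606846976 * (p ^ 2 * 1152921504606846976) ≤
        b ^ 2 * 1152921504606846976 * ((A.hi : ℝ) * A.hi) :=
        mul_le_mul_of_nonneg_left e1 (by positivity)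
      nlinarith
    have hpos : 0 < 1152921504606846976 + (A.hi : ℝ) * A.hi + slo * 1073741824 := by positivity
    have e5 := h1'.trans e3
    have e6 := le_of_mul_le_mul_right e5 hpos
    calc (B.lo : ℝ) ^ 2 = B.lo * B.lo := by ring
      _ ≤ b ^ 2 * 1152921504606846976 := e6
      _ = (b * 1073741824) ^ 2 := by ring
  · apply sq_le_of m1 (by positivity)
    have e1 : (A.lo : ℝ) * A.lo ≤ p ^ 2 * 1152921504606846976 := by nlinarith [hp.2, hp.1]
    have e2 : b ^ 2 * (1 + p ^ 2) * 1073741824 ≤ (shi : ℝ) * (1 - b ^ 2) := by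
      rw [hs]
      nlinarith [mul_le_mul_of_nonneg_right s1 hb1]
    have e3 : b ^ 2 * 1152921504606846976 *
        (1152921504606846976 + (A.lo : ℝ) * A.lo + shi * 1073741824) ≤
        (shi : ℝ) * 1237940039285380274899124224 := by
      have e4 : b ^ 2 * 1152921504606846976 * ((A.lo : ℝ) * A.lo) ≤
        b ^ 2 * 1152921504606846976 * (p ^ 2 * 1152921504606846976) :=
        mul_le_mul_of_nonneg_left e1 (by positivity)
      nlinarith
    have hpos : 0 < 1152921504606846976 + (A.lo : ℝ) * A.lo + shi * 1073741824 := by positivity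
    have e5 := e3.trans h2'
    have e6 := le_of_mul_le_mul_right e5 hpos
    calc (b * 1073741824) ^ 2 = b ^ 2 * 1152921504606846976 := by ring
      _ ≤ (B.hi : ℝ) * B.hi := e6
      _ = (B.hi : ℝ) ^ 2 := by ring

theorem okK_sound {slo shi klo khi : ℕ} {D : N} {k s x : ℝ} (h : okK slo shi klo khi D = true)
    (k0 : 0 < k) (k1 : k < 1) (s0 : (slo : ℝ) / 1073741824 ≤ s)
    (s1 : s ≤ (shi : ℝ) / 1073741824) (x0 : (klo : ℝ) / 1073741824 * s ≤ x)
    (x1 : x ≤ (khi : ℝ) / 1073741824 * s) (hs : k ^ 2 = x * (1 - k ^ 2)) : Mem k D := by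
  unfold okK at h
  rw [Bool.and_eq_true, Nat.ble_eq, Nat.ble_eq] at h
  obtain ⟨h1, h2⟩ := h
  have h1' : (((Nat.mul (Nat.mul D.lo D.lo) (Nat.add 1152921504606846976 (Nat.mul klo slo))) : ℕ) : ℝ)
    ≤ ((Nat.mul (Nat.mul klo slo) 1152921504606846976 : ℕ) : ℝ) := by exact_mod_cast h1
  have h2' : ((Nat.mul (Nat.mul khi shi) 1152921504606846976 : ℕ) : ℝ) ≤
    ((Nat.mul (Nat.mul D.hi D.hi) (Nat.add 1152921504606846976 (Nat.mul khi shi)) : ℕ) : ℝ) := by
    exact_mod_cast h2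
  simp only [cast_mul', cast_add', Nat.cast_ofNat] at h1' h2'
  rw [div_le_iff₀ (by norm_num)] at s0
  rw [le_div_iff₀ (by norm_num)] at s1
  have n0 : (0 : ℝ) ≤ klo := klo.cast_nonneg
  have n1 : (0 : ℝ) ≤ khi := khi.cast_nonneg
  have n2 : (0 : ℝ) ≤ slo := slo.cast_nonneg
  have n3 : (0 : ℝ) ≤ shi := shi.cast_nonneg
  have m0 : (0 : ℝ) ≤ D.lo := D.lo.cast_nonneg
  have m1 : (0 : ℝ) ≤ D.hi := D.hi.cast_nonneg
  have hb1 : 0 ≤ 1 - k ^ 2 := by nlinarith
  have x0' : (klo : ℝ) * slo ≤ x * 1152921504606846976 := by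
    have := mul_le_mul_of_nonneg_left s0 n0
    have h3 : (klo : ℝ) * s ≤ x * 1073741824 := by
      rw [div_mul_eq_mul_div, div_le_iff₀ (by norm_num)] at x0
      exact x0
    nlinarith
  have x1' : x * 1152921504606846976 ≤ (khi : ℝ) * shi := by
    have := mul_le_mul_of_nonneg_left s1 n1
    have h3 : x * 1073741824 ≤ (khi : ℝ) * s := by
      rw [div_mul_eq_mul_div, le_div_iff₀ (by norm_num)] at x1
      exact x1
    nlinarith
  constructor
  · apply sq_le_of (by positivity) m0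
    have e3 : (klo : ℝ) * slo * 1152921504606846976 ≤ k ^ 2 * 1152921504606846976 *
        (1152921504606846976 + klo * slo) := by
      have := mul_le_mul_of_nonneg_right x0' hb1
      have e : x * 1152921504606846976 * (1 - k ^ 2) = k ^ 2 * 1152921504606846976 := by
        rw [mul_right_comm, ← hs]
      rw [e] at this
      nlinarith
    have hpos : 0 < 1152921504606846976 + (klo : ℝ) * slo := by positivity
    have e6 := le_of_mul_le_mul_right (h1'.trans e3) hpos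
    calc (D.lo : ℝ) ^ 2 = D.lo * D.lo := by ring
      _ ≤ k ^ 2 * 1152921504606846976 := e6
      _ = (k * 1073741824) ^ 2 := by ring
  · apply sq_le_of m1 (by positivity)
    have e3 : k ^ 2 * 1152921504606846976 * (1152921504606846976 + khi * shi) ≤
        (khi : ℝ) * shi * 1152921504606846976 := by
      have := mul_le_mul_of_nonneg_right x1' hb1
      have e : x * 1152921504606846976 * (1 - k ^ 2) = k ^ 2 * 1152921504606846976 := by
        rw [mul_right_comm, ← hs]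
      rw [e] at this
      nlinarith
    have hpos : 0 < 1152921504606846976 + (khi : ℝ) * shi := by positivity
    have e6 := le_of_mul_le_mul_right (e3.trans h2') hpos
    calc (k * 1073741824) ^ 2 = k ^ 2 * 1152921504606846976 := by ring
      _ ≤ (D.hi : ℝ) * D.hi := e6
      _ = (D.hi : ℝ) ^ 2 := by ring

theorem okZ_sound {C : N} {t : ℝ} (h : okZ C = true) (h0 : 1 / 200 ≤ t) (h1 : t < 1 / 2) :
    Mem (Real.tan (Real.pi * t / 2)) C := by
  have hpi := Real.pi_gt_three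
  have hpi2 := Real.pi_gt_d6
  unfold okZ at h
  rw [Bool.and_eq_true, Nat.ble_eq, Nat.ble_eq] at h
  obtain ⟨c1, c2⟩ := h
  have c1' : (C.lo : ℝ) ≤ 8375186 := by exact_mod_cast c1
  have c2' : (1073741824 : ℝ) ≤ C.hi := by exact_mod_cast c2
  constructor
  · have h3 : Real.pi * t / 2 ≤ Real.tan (Real.pi * t / 2) :=
      Real.le_tan (by positivity) (by nlinarith)
    nlinarith
  · have h3 : Real.tan (Real.pi * t / 2) ≤ 1 := by
      rw [← Real.tan_pi_div_four]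
      apply (Real.tan_lt_tan_of_nonneg_of_lt_pi_div_two (by positivity) (by nlinarith)
        (by nlinarith)).le
    nlinarith

/-! ### The two phases -/

/-- `tan² θ` in terms of `p`, `b`. -/
theorem Sq_bl {θ a : ℝ} (ha : 0 < Real.cos (Real.pi * a)) :
    P1.Sq (Real.tan (Real.pi * a)) (Real.tanh (Real.pi * bl θ a)) = Real.tan θ ^ 2 := by
  obtain ⟨d0, d1, d2⟩ := ch_of (x := Real.pi * bl θ a) rfl
  have h1 := sinh_pi_bl θ a
  have h2 : Real.cos (Real.pi * a) ^ 2 * (1 + Real.tan (Real.pi * a) ^ 2) = 1 := by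
    rw [Real.tan_eq_sin_div_cos]
    field_simp
    rw [add_comm, Real.sin_sq_add_cos_sq]
  have h3 : (1 - Real.tanh (Real.pi * bl θ a) ^ 2)⁻¹ = Real.cosh (Real.pi * bl θ a) ^ 2 :=
    inv_eq_of_mul_eq_one_left d2
  rw [P1.Sq, h3]
  calc _ = (Real.tanh (Real.pi * bl θ a) * Real.cosh (Real.pi * bl θ a)) ^ 2 *
        (1 + Real.tan (Real.pi * a) ^ 2) := by ring
    _ = (Real.tan θ * Real.cos (Real.pi * a)) ^ 2 * (1 + Real.tan (Real.pi * a) ^ 2) := by
        rw [← d1, h1]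
    _ = Real.tan θ ^ 2 * (Real.cos (Real.pi * a) ^ 2 * (1 + Real.tan (Real.pi * a) ^ 2)) := by ring
    _ = _ := by rw [h2, mul_one]

theorem S2l_le {θ a : ℝ} (h0 : 0 < a) (h1 : a < 1 / 2) (hb : 0 ≤ bl θ a) :
    S2l θ a ≤ s2R (Real.tan (Real.pi * a)) (Real.tanh (Real.pi * bl θ a)) :=
  S2_le h0 h1 hb

/-- A certificate of phase 2. -/
def cert2 (P : P2.Par) (w0 w1 w2 n : ℕ) (A B C : N) : Bool :=
  Nat.ble 1 P.cd && okB P.slo P.shi A B && okZ C && bbw3 (P2.test P) w0 w1 w2 n A B C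

theorem phase2 {P : P2.Par} {w0 w1 w2 n : ℕ} {A B C : N} (hc : cert2 P w0 w1 w2 n A B C = true)
    {al ah : ℝ} (hA : TA al ah A) {θ a t : ℝ} {w : ℂ} (hθ0 : 0 < θ) (hθ1 : θ < Real.pi / 2)
    (a0 : al ≤ a) (a1 : a ≤ ah) (hs0 : (P.slo : ℝ) / 1073741824 ≤ Real.tan θ ^ 2)
    (hs1 : Real.tan θ ^ 2 ≤ (P.shi : ℝ) / 1073741824) (ht : t ∈ Ico (1 / 200 : ℝ) (1 / 2))
    (v0 : 0 ≤ w.re) (v1 : w.re < 1 / 2) (wi : w.im ≤ 0) (hr : Mem (cc w).re P.r)
    (hi : Mem (cc w).im P.i)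
    (hg : gPd ((t : ℂ) + (hgt (19 / 20) (bl θ a) : ℂ) * I) (vl θ a) w =
      ‖cos (Real.pi * ((t : ℂ) + (hgt (19 / 20) (bl θ a) : ℂ) * I))‖ ^ 4) :
    (P.cn : ℝ) / P.cd * S2l θ a + ((P.dp : ℝ) - P.dn) / 1073741824 +
      ((P.ep : ℝ) - P.en) / 1073741824 * Real.tan θ ^ 2 ≤
      Ml ((t : ℂ) + (hgt (19 / 20) (bl θ a) : ℂ) * I) (vl θ a) (Tl θ a) -
        rp (19 / 20) (bl θ a) * Tl θ a / 2 *
          (eY ((t : ℂ) + (hgt (19 / 20) (bl θ a) : ℂ) * I) (vl θ a) w).im := by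
  have hpi := Real.pi_pos
  have k1 := hA.al0
  have k2 := hA.ah1
  have ha0 : 0 < a := by linarith
  have ha1 : a < 1 / 2 := by linarith
  have hbl : 0 < bl θ a := bl_pos_of hθ0 hθ1 (by rw [abs_of_pos ha0]; exact ha1)
  have hca := cos_pos_of (a := a) (by linarith) ha1
  unfold cert2 at hc
  rw [Bool.and_eq_true, Bool.and_eq_true, Bool.and_eq_true, Nat.ble_eq] at hc
  obtain ⟨⟨⟨c1, c2⟩, c3⟩, c4⟩ := hc
  have hhp : 0 < hgt (19 / 20) (bl θ a) := hgt_pos (by norm_num) (by norm_num) hbl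
  have hth : Real.tanh (Real.pi * hgt (19 / 20) (bl θ a)) =
      19 * Real.tanh (Real.pi * bl θ a) / 20 := by
    rw [tanh_hgt (by norm_num) (by norm_num)]; ring
  have tb0 : 0 < Real.tanh (Real.pi * bl θ a) := tanh_pos_of (by positivity)
  have tb1 := Real.tanh_lt_one (Real.pi * bl θ a)
  have hlt : hgt (19 / 20) (bl θ a) < bl θ a := by
    by_contra hcc
    push Not at hcc
    have := tanh_mono (mul_le_mul_of_nonneg_left hcc hpi.le)
    rw [hth] at this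
    linarith
  have hPt : Pt a (bl θ a) t (hgt (19 / 20) (bl θ a)) (Real.tan (Real.pi * a))
      (Real.tanh (Real.pi * bl θ a)) (Real.tan (Real.pi * t / 2))
      (19 * Real.tanh (Real.pi * bl θ a) / 20) :=
    ⟨ha0, ha1, by linarith [ht.1], ht.2, hhp, hlt, rfl, rfl, rfl, hth.symm⟩
  have hp := hA.mem a0 a1
  have hSq := Sq_bl (θ := θ) hca
  have hp1 : 1 ≤ Real.tan (Real.pi * a) := by
    have := tan_mono_pi (a := 1 / 4) (a' := a) (by norm_num) (by linarith) ha1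
    rwa [show Real.pi * (1 / 4) = Real.pi / 4 by ring, Real.tan_pi_div_four] at this
  have hb2 : 0 < 1 - Real.tanh (Real.pi * bl θ a) ^ 2 := by nlinarith
  have hb := okB_sound c2 hp (by linarith) tb0 tb1 hs0 hs1 (by
    rw [← hSq, P1.Sq]
    field_simp)
  have hz := okZ_sound c3 ht.1 ht.2
  have key := bbw3_sound (P := fun p b z => P2.Hyp P p b z → P2.Concl P p b z)
    (fun A B C h a b c ha hb hc H => P2.test_sound h (by omega) ha hb hc H) w0 w1 w2 n A B C c4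
    _ _ _ hp hb hz ⟨hp1, tb0, tb1, hPt.z0, hPt.z1, by
      rw [hSq]; rw [div_le_iff₀ (by norm_num)] at hs0; exact hs0, by
      rw [hSq]; rw [le_div_iff₀ (by norm_num)] at hs1; exact hs1⟩
  have hcr := hPt.crit v0 v1 wi hg
  have fin := key _ _ hr hi hcr
  have e1 := hPt.Ml2_eq v0 v1 wi (Tl θ a) (rp (19 / 20) (bl θ a))
  have e2 : rp (19 / 20) (bl θ a) = P2.rho (Real.tanh (Real.pi * bl θ a)) := by
    rw [rp, P2.rho]
    have : (19 / 20 * Real.tanh (Real.pi * bl θ a)) = 19 * Real.tanh (Real.pi * bl θ a) / 20 := by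
      ring
    rw [this, div_eq_mul_inv]
    ring
  have e3 := S2l_le ha0 ha1 hbl.le
  have e4 : (0 : ℝ) ≤ (P.cn : ℝ) / P.cd := by positivity
  rw [hSq] at fin
  unfold vl
  rw [e1, e2]
  refine le_trans ?_ fin
  have := mul_le_mul_of_nonneg_left e3 e4
  linarith

/-- A certificate of phase 1. -/
def cert1 (P : P1.Par) (cn cd d0 d1 w0 w1 w2 w3 n : ℕ) (A B C D : N) : Bool :=
  Nat.ble 1 cd && okB P.slo P.shi A B && okZ C && okK P.slo P.shi P.klo P.khi D &&
    bbw (P1.test (P1.fin cn cd d0 d1 0) P) w0 w1 w2 w3 n A B C D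

theorem phase1 {P : P1.Par} {cn cd d0 d1 w0 w1 w2 w3 n : ℕ} {A B C D : N}
    (hc : cert1 P cn cd d0 d1 w0 w1 w2 w3 n A B C D = true)
    {al ah : ℝ} (hA : TA al ah A) {θ a h t : ℝ} {w : ℂ} (hθ0 : 0 < θ) (hθ1 : θ < Real.pi / 2)
    (a0 : al ≤ a) (a1 : a ≤ ah) (hs0 : (P.slo : ℝ) / 1073741824 ≤ Real.tan θ ^ 2)
    (hs1 : Real.tan θ ^ 2 ≤ (P.shi : ℝ) / 1073741824) (h0 : 0 < h)
    (hk0 : (P.klo : ℝ) / 1073741824 * Real.tan θ ^ 2 ≤ Real.sinh (Real.pi * h) ^ 2)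
    (hk1 : Real.sinh (Real.pi * h) ^ 2 ≤ (P.khi : ℝ) / 1073741824 * Real.tan θ ^ 2)
    (hk : Real.tanh (Real.pi * h) ≤ 19 / 20 * Real.tanh (Real.pi * bl θ a))
    (ht : t ∈ Ico (1 / 200 : ℝ) (1 / 2)) (hr : Mem (cc w).re P.r) (hi : Mem (cc w).im P.i)
    (hg : gPd ((t : ℂ) + (h : ℂ) * I) (vl θ a) w =
      ‖cos (Real.pi * ((t : ℂ) + (h : ℂ) * I))‖ ^ 4) :
    (cn : ℝ) / cd * S2l θ a + d0 / 1073741824 - d1 / 1073741824 * Real.tan θ ^ 2 ≤
      Ml ((t : ℂ) + (h : ℂ) * I) (vl θ a) (Tl θ a) := by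
  have hpi := Real.pi_pos
  have k1 := hA.al0
  have k2 := hA.ah1
  have ha0 : 0 < a := by linarith
  have ha1 : a < 1 / 2 := by linarith
  have hbl : 0 < bl θ a := bl_pos_of hθ0 hθ1 (by rw [abs_of_pos ha0]; exact ha1)
  have hca := cos_pos_of (a := a) (by linarith) ha1
  unfold cert1 at hc
  rw [Bool.and_eq_true, Bool.and_eq_true, Bool.and_eq_true, Bool.and_eq_true, Nat.ble_eq] at hc
  obtain ⟨⟨⟨⟨c1, c2⟩, c3⟩, c5⟩, c4⟩ := hc
  have tb0 : 0 < Real.tanh (Real.pi * bl θ a) := tanh_pos_of (by positivity)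
  have tb1 := Real.tanh_lt_one (Real.pi * bl θ a)
  obtain ⟨g1, g2, g3, g4, g5, g6, g7, g8⟩ := P1.dic (β := bl θ a) (w := w) (by linarith) ha1
    (by linarith [ht.1]) ht.2 h0 (by linarith)
  have hp := hA.mem a0 a1
  have hSq := Sq_bl (θ := θ) hca
  have hb2 : 0 < 1 - Real.tanh (Real.pi * bl θ a) ^ 2 := by nlinarith
  have hb := okB_sound c2 hp (by linarith) tb0 tb1 hs0 hs1 (by
    rw [← hSq, P1.Sq]
    field_simp)
  have hz := okZ_sound c3 ht.1 ht.2
  obtain ⟨q0, q1, q2⟩ := ch_of (x := Real.pi * h) rfl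
  have tk1 := Real.tanh_lt_one (Real.pi * h)
  have hk2 : 0 < 1 - Real.tanh (Real.pi * h) ^ 2 := by nlinarith
  have hx : Real.tanh (Real.pi * h) ^ 2 =
      Real.sinh (Real.pi * h) ^ 2 * (1 - Real.tanh (Real.pi * h) ^ 2) := by
    rw [q1, mul_pow, mul_assoc, q2, mul_one]
  have hkD := okK_sound c5 g2 tk1 hs0 hs1 hk0 hk1 hx
  have hHq : P1.Hq (Real.tanh (Real.pi * h)) = Real.sinh (Real.pi * h) ^ 2 := by
    rw [P1.Hq, ← div_eq_mul_inv, div_eq_iff hk2.ne']
    exact hx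
  have key := bbw_sound (P := fun p b z k => P1.Hyp P p b z k →
      P1.Concl (P1.fin cn cd d0 d1 0) P p b z k)
    (fun A B C D h a b c d ha hb hc hd H => P1.test_sound h ha hb hc hd H) w0 w1 w2 w3 n
    A B C D c4 _ _ _ _ hp hb hz hkD ⟨g1, g2, by linarith, tb1, g4, g5, by
      rw [hSq]; rw [div_le_iff₀ (by norm_num)] at hs0; exact hs0, by
      rw [hSq]; rw [le_div_iff₀ (by norm_num)] at hs1; exact hs1, by
      rw [hSq, hHq]
      rw [div_mul_eq_mul_div, div_le_iff₀ (by norm_num)] at hk0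
      exact hk0, by
      rw [hSq, hHq]
      rw [div_mul_eq_mul_div, le_div_iff₀ (by norm_num)] at hk1
      exact hk1⟩
  obtain ⟨S2, TN, s2, q, an, f1, f2, f3, f4, f5, f6⟩ := key _ _ _ hr hi g6 (g8 hg)
  have fin := P1.fin_sound (by omega) f1 f2 f3 f4 f5 f6
  have e3 := S2l_le ha0 ha1 hbl.le
  have e4 : (0 : ℝ) ≤ (cn : ℝ) / cd := by positivity
  rw [hSq, Nat.cast_zero, zero_div, mul_zero, sub_zero] at fin
  unfold vl
  rw [Ml, g7]
  have := mul_le_mul_of_nonneg_left e3 e4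
  have e5 : Tl θ a = Real.tan (Real.pi * a) * Real.tanh (Real.pi * bl θ a) := rfl
  rw [e5]
  linarith

end Pool.Agent.S3.T2
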