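import Pool.Agent.S3.W2.LeftV

/-!
# The flats beyond the base point of a slide
-/

set_option autoImplicit false

namespace Pool.Agent.S3.T2

open Complex Set
open Pool.Agent.H25.RK (gdv gdv_re_lt gdv_hasDerivAt)

/-- The rate of a share along the line. -/
noncomputable def rl (b : ℝ) (vc Q : ℂ) (θ a : ℝ) : ℝ :=
  b * S2l θ a - (b * (Real.pi / 2 - Real.pi * vc.re) - Q.im) * Tl θ a

theorem ell_hasDerivAt {vc Q : ℂ} {b θ a : ℝ} (hQ : Q.re = b * (Real.pi * vc.im))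
    (ha : Real.cos (Real.pi * a) ≠ 0) :
    HasDerivAt (fun a => ell vc Q (-2 * Real.pi * b) (vl θ a)) (-(2 * rl b vc Q θ a)) a := by
  have hv := vl_hasDerivAt θ ha
  have h1 : HasDerivAt (fun a => 2 * Q * (vl θ a - vc) +
      I * ((-2 * Real.pi * b : ℝ) : ℂ) / 2 * (vl θ a - vc) ^ 2)
      ((2 * Q + I * ((-2 * Real.pi * b : ℝ) : ℂ) * (vl θ a - vc)) * (1 - (Tl θ a : ℂ) * I)) a := by
    have h2 := (hv.sub_const vc).const_mul (2 * Q)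
    have h3 := (((hv.sub_const vc).pow 2).const_mul (I * ((-2 * Real.pi * b : ℝ) : ℂ) / 2))
    refine (h2.add h3).congr_deriv ?_
    push_cast
    ring
  have h4 := (Complex.reCLM.hasFDerivAt.comp_hasDerivAt a h1).neg
  refine h4.congr_deriv ?_
  show -((2 * Q + I * ((-2 * Real.pi * b : ℝ) : ℂ) * (vl θ a - vc)) * (1 - (Tl θ a : ℂ) * I)).re = _
  rw [rate_line]
  have e1 : (2 * Q + I * ((-2 * Real.pi * b : ℝ) : ℂ) * (vl θ a - vc)).re =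
      2 * (Q.re + Real.pi * b * (bl θ a - vc.im)) := by
    rw [show (2 : ℂ) * Q + I * ((-2 * Real.pi * b : ℝ) : ℂ) * (vl θ a - vc) =
      ((2 : ℝ) : ℂ) * Q + ((-2 * Real.pi * b : ℝ) : ℂ) * (I * (vl θ a - vc)) by push_cast; ring,
      add_re, re_ofReal_mul, re_ofReal_mul, mul_re, I_re, I_im, sub_re, sub_im, vl_im]
    ring
  have e2 : (2 * Q + I * ((-2 * Real.pi * b : ℝ) : ℂ) * (vl θ a - vc)).im =
      2 * (Q.im - Real.pi * b * (a - vc.re)) := by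
    rw [show (2 : ℂ) * Q + I * ((-2 * Real.pi * b : ℝ) : ℂ) * (vl θ a - vc) =
      ((2 : ℝ) : ℂ) * Q + ((-2 * Real.pi * b : ℝ) : ℂ) * (I * (vl θ a - vc)) by push_cast; ring,
      add_im, im_ofReal_mul, im_ofReal_mul, mul_im, I_re, I_im, sub_re, sub_im, vl_re]
    ring
  rw [e1, e2, hQ, rl, S2l]
  ring

section

variable {Φ : ℂ → ℂ → ℂ} {θ θ' xc xc' b b' v1 v1' μ μ' : ℝ} {v w : ℂ}

/-- The bound on the line. -/
theorem LM_vl {a : ℝ} (h0 : 0 ≤ a) (h1 : a ≤ v1) :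
    LM Φ θ θ' b b' xc xc' v1 v1' μ μ' (vl θ a) w =
      L0 Φ θ θ' b b' xc xc' (vl θ a) (pl θ' v1' w) - μ' * ((pl θ' v1' w).im - w.im) := by
  have e : pl θ v1 (vl θ a) = vl θ a :=
    pl_of_line (by rw [vl_re, abs_of_nonneg h0]; exact h1) (by rw [vl_im, vl_re])
  rw [LM, e, sub_self, mul_zero, sub_zero]

/-- The bound beyond the line. -/
theorem LM_beyond (hv1 : 0 < v1) (h : v1 ≤ v.re) :
    LM Φ θ θ' b b' xc xc' v1 v1' μ μ' v w =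
      LM Φ θ θ' b b' xc xc' v1 v1' μ μ' (vl θ v1) w - μ * (bl θ v1 - v.im) := by
  have e : pl θ v1 v = vl θ v1 := by
    unfold pl vl
    rw [min_eq_left h, max_eq_right (by linarith)]
  have e' : pl θ v1 (vl θ v1) = vl θ v1 :=
    pl_of_line (by rw [vl_re, abs_of_pos hv1]) (by rw [vl_im, vl_re])
  rw [LM, LM, e, e', sub_self, mul_zero, vl_im]
  ring

theorem concave_pos {E K μ β η : ℝ} (hK : 0 ≤ K) (hβ : 0 < β) (h0 : 0 ≤ η) (h1 : η ≤ β)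
    (hE : 0 < E) (hE2 : μ * β < E + K * β ^ 2 / 2) :
    μ * (β - η) < E + K * (β ^ 2 - η ^ 2) / 2 := by
  have e : β * (E + K * (β ^ 2 - η ^ 2) / 2 - μ * (β - η)) =
      (β - η) * (E + K * β ^ 2 / 2 - μ * β) + η * E + K * (η * (β - η)) * β / 2 := by ring
  have p1 : 0 ≤ (β - η) * (E + K * β ^ 2 / 2 - μ * β) := mul_nonneg (by linarith) (by linarith)
  have p2 : 0 ≤ η * E := mul_nonneg h0 hE.le
  have p3 : 0 ≤ K * (η * (β - η)) * β / 2 := by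
    have : 0 ≤ η * (β - η) := mul_nonneg h0 (by linarith)
    positivity
  have p4 : 0 < (β - η) * (E + K * β ^ 2 / 2 - μ * β) + η * E := by
    rcases h0.lt_or_eq with h | h
    · have := mul_pos h hE; linarith
    · rw [← h, zero_mul, add_zero, sub_zero]
      exact mul_pos hβ (by linarith)
  by_contra hc
  push Not at hc
  have := mul_nonneg hβ.le (by linarith : 0 ≤ μ * (β - η) - (E + K * (β ^ 2 - η ^ 2) / 2))
  linarith

/-- **The flats beyond the base point.** -/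
theorem OO.slideH (H : OO Φ θ θ' xc xc' b b' (2 / 5) v1') (ht : Real.tan θ ^ 2 ≤ 1)
    (ht' : Real.tan θ' ^ 2 ≤ 923 / 1000) (hw : w ∈ G0 θ' v1') (hw0 : 0 ≤ w.re)
    {a0 am x0 Da Db D2 B K h0 E : ℝ} (hx : Real.tan θ ^ 2 ≤ 923 / 1000 ∨ 1 / 100 ≤ h0) (ha0 : 29 / 100 ≤ a0) (ham : a0 ≤ am) (hx0 : am ≤ x0)
    (hx1 : x0 ≤ 2 / 5) (hwa : (cmp v1' w).re ≤ a0) (h00 : 0 < h0)
    (hC : Real.tanh (Real.pi * h0) ≤ 19 / 20 * Real.tanh (Real.pi * bl θ x0))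
    (hbase : ∀ t ∈ Icc (0 : ℝ) (1 / 2),
      EE (.op (vl θ a0)) (.op ((starRingEnd ℂ) (cmp v1' w))) ((t : ℂ) + (h0 : ℂ) * I) <
        LM Φ θ θ' b b' xc xc' (2 / 5) v1' μ μ' (vl θ a0) w - B)
    (hP1 : ∀ a ∈ Ioc a0 (2 / 5),
      Real.tanh (Real.pi * h0) ≤ 19 / 20 * Real.tanh (Real.pi * bl θ a) →
      ∀ t ∈ Ico (1 / 200 : ℝ) (1 / 2),
      gPd ((t : ℂ) + (h0 : ℂ) * I) (vl θ a) ((starRingEnd ℂ) (cmp v1' w)) =
        ‖cos (Real.pi * ((t : ℂ) + (h0 : ℂ) * I))‖ ^ 4 →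
      rl b (gdv (UU xc θ)) (qq (UU xc θ) (UU xc' (-θ'))) θ a + (if a ≤ am then Da else Db) <
        Ml ((t : ℂ) + (h0 : ℂ) * I) (vl θ a) (Tl θ a))
    (hP2 : ∀ a ∈ Ioc x0 (2 / 5), hgt (19 / 20) (bl θ a) ≤ h0 → ∀ t ∈ Ico (1 / 200 : ℝ) (1 / 2),
      gPd ((t : ℂ) + (hgt (19 / 20) (bl θ a) : ℂ) * I) (vl θ a) ((starRingEnd ℂ) (cmp v1' w)) =
        ‖cos (Real.pi * ((t : ℂ) + (hgt (19 / 20) (bl θ a) : ℂ) * I))‖ ^ 4 →
      rl b (gdv (UU xc θ)) (qq (UU xc θ) (UU xc' (-θ'))) θ a + D2 <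
        Ml ((t : ℂ) + (hgt (19 / 20) (bl θ a) : ℂ) * I) (vl θ a) (Tl θ a) -
        rp (19 / 20) (bl θ a) * Tl θ a / 2 *
          (eY ((t : ℂ) + (hgt (19 / 20) (bl θ a) : ℂ) * I) (vl θ a)
            ((starRingEnd ℂ) (cmp v1' w))).im)
    (h3a : ∀ ρ : ℝ, 7 / 10 ≤ ρ → ρ ≤ 19 / 20 → ∀ η ∈ Ioc (0 : ℝ) (bl θ (2 / 5)), hgt ρ η ≤ h0 →
      ∀ t ∈ Ico (1 / 200 : ℝ) (1 / 2),
      gPd ((t : ℂ) + (hgt ρ η : ℂ) * I) (vv η) ((starRingEnd ℂ) (cmp v1' w)) =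
        ‖cos (Real.pi * ((t : ℂ) + (hgt ρ η : ℂ) * I))‖ ^ 4 →
      K * η < (he ((t : ℂ) + (hgt ρ η : ℂ) * I + vv η) - he ((t : ℂ) + (hgt ρ η : ℂ) * I - vv η)).im -
        rp ρ η * (eY ((t : ℂ) + (hgt ρ η : ℂ) * I) (vv η) ((starRingEnd ℂ) (cmp v1' w))).im)
    (h3b : ∀ h1 : ℝ, 0 < h1 → h1 ≤ h0 → ∀ η ∈ Ioc (0 : ℝ) (bl θ (2 / 5)),
      Real.tanh (Real.pi * h1) ≤ 7 / 10 * Real.tanh (Real.pi * η) →
      ∀ t ∈ Ico (1 / 200 : ℝ) (1 / 2),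
      gPd ((t : ℂ) + (h1 : ℂ) * I) (vv η) ((starRingEnd ℂ) (cmp v1' w)) =
        ‖cos (Real.pi * ((t : ℂ) + (h1 : ℂ) * I))‖ ^ 4 →
      K * η < (he ((t : ℂ) + (h1 : ℂ) * I + vv η) - he ((t : ℂ) + (h1 : ℂ) * I - vv η)).im)
    (hB : 0 ≤ B) (h1 : 0 ≤ B + 2 * Da * (am - a0)) (hD : D2 ≤ Db)
    (h2 : 0 ≤ B + 2 * Da * (am - a0) + 2 * Db * (2 / 5 - am))
    (h3 : E = B + 2 * Da * (am - a0) + 2 * Db * (x0 - am) + 2 * D2 * (2 / 5 - x0)) (hE : 0 < E)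
    (hK : 0 ≤ K) (hμ : μ * bl θ (2 / 5) < E + K * bl θ (2 / 5) ^ 2 / 2)
    (hEnd : ∀ v : ℂ, v ∈ G0 θ (2 / 5) → 0 ≤ v.re → Real.pi * (v.im + w.im) <
      LM Φ θ θ' b b' xc xc' (2 / 5) v1' μ μ' v w) :
    ∀ v : ℂ, v ∈ G0 θ (2 / 5) → a0 ≤ v.re → ∃ h : ℝ, |h| ≤ 1 ∧
      (∀ Y ∈ Set.uIcc 0 h, EE (.op (cmp (2 / 5) v)) (.op ((starRingEnd ℂ) (cmp v1' w)))
        ((Y : ℂ) * I) < LM Φ θ θ' b b' xc xc' (2 / 5) v1' μ μ' v w) ∧
      ∀ t ∈ Icc (0 : ℝ) (1 / 2),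
        EE (.op (cmp (2 / 5) v)) (.op ((starRingEnd ℂ) (cmp v1' w))) ((t : ℂ) + h * I) <
          LM Φ θ θ' b b' xc xc' (2 / 5) v1' μ μ' v w := by
  intro v hv hva
  have hpi := Real.pi_pos
  have hv0 : 0 ≤ v.re := by linarith
  obtain ⟨W, hW⟩ : ∃ W, W = (starRingEnd ℂ) (cmp v1' w) := ⟨_, rfl⟩
  have uw := cmp_und H.hv1' hw hw0 H.hθ'
  have rW : Rg W := by rw [hW]; exact rg_conj (und_rg uw H.hθ'.pos.le H.hθ'.lt ht')
  have rw0 : 0 ≤ W.re := by rw [hW, conj_re]; exact uw.re0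
  have rw1 : W.re ≤ 2 / 5 := by rw [hW, conj_re]; exact uw.re1
  have rwi : W.im ≤ 0 := by rw [hW, conj_im]; linarith [uw.im0]
  rw [← hW] at hbase hP1 hP2 h3a h3b ⊢
  obtain ⟨Q, hQ⟩ : ∃ Q, Q = qq (UU xc θ) (UU xc' (-θ')) := ⟨_, rfl⟩
  obtain ⟨vc, hvc⟩ : ∃ z, z = gdv (UU xc θ) := ⟨_, rfl⟩
  rw [← hQ, ← hvc] at hP1 hP2
  have hQr : Q.re = b * (Real.pi * vc.im) := by
    have e := H.hs.hQ
    rw [← hQ] at e
    rw [e, gd_eq (by rw [UU_im]; exact H.hθ.abs), ← hvc, im_ofReal_mul]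
  -- the bound along the line
  obtain ⟨l, hl⟩ : ∃ l : ℝ → ℝ, l = fun a => L0 Φ θ θ' b b' xc xc' (vl θ a) (pl θ' v1' w) -
    μ' * ((pl θ' v1' w).im - w.im) := ⟨_, rfl⟩
  have hl1 : ∀ a, 0 ≤ a → a ≤ 2 / 5 → LM Φ θ θ' b b' xc xc' (2 / 5) v1' μ μ' (vl θ a) w = l a := by
    intro a g1 g2
    rw [hl]
    exact LM_vl g1 g2
  have hl2 : ∀ a ∈ Icc a0 (2 / 5), HasDerivAt l (-(2 * rl b vc Q θ a)) a := by
    intro a ha
    have hc := (cos_pos_of (a := a) (by linarith [ha.1]) (by linarith [ha.2])).ne'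
    have d := ell_hasDerivAt (θ := θ) hQr hc
    rw [hl]
    unfold L0
    rw [← hvc, ← hQ]
    exact (((d.const_add _).add_const _).sub_const _)
  have key := line_all (θ := θ) (ρ := 19 / 20) (h0 := h0) (a0 := a0) (am := am) (x0 := x0)
    (Da := Da) (Db := Db) (D2 := D2) (B := B) (w := W) (l := l) (r := fun a => rl b vc Q θ a)
    H.hθ.pos H.hθ.lt ht hx ha0 ham hx0 hx1 rW rw0 rw1 rwi (by norm_num) (by norm_num) h00 hC hl2
    (fun t ht1 => by rw [← hl1 a0 (by linarith) (by linarith)]; exact hbase t ht1)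
    hP1 hP2 hB h1 hD h2 (by rw [← h3]; exact hE.le)
  rw [← h3] at key
  obtain ⟨k1, ht0, k2, k3, k4, k6, k5⟩ := key
  have hβ : 0 < bl θ (2 / 5) :=
    bl_pos_of H.hθ.pos H.hθ.lt (by rw [abs_of_pos (by norm_num)]; norm_num)
  have evv : vv (bl θ (2 / 5)) = vl θ (2 / 5) := by unfold vv vl; norm_num
  have key2 := vert_all (θ := θ) (K := K) (L := l (2 / 5) - E) (h1 := ht0) (w := W) H.hθ.pos
    H.hθ.lt ht k6 rW rw0 rw1 rwi k2 k4 (by rw [evv]; exact k5)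
    (fun ρ r1 r2 η hη hh => h3a ρ r1 r2 η hη (hh.trans k3)) (h3b ht0 k2 k3)
  have hh1 : h0 ≤ 1 := by
    have g : h0 < bl θ x0 := by
      by_contra hc
      push Not at hc
      have g1 := tanh_mono (mul_le_mul_of_nonneg_left hc hpi.le)
      have g2 : 0 < Real.tanh (Real.pi * bl θ x0) := tanh_pos_of (mul_pos hpi
        (bl_pos_of H.hθ.pos H.hθ.lt (by rw [abs_of_nonneg (by linarith)]; linarith)))
      linarith
    have g3 : Real.pi * bl θ x0 ≤ 1 := by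
      have g4 : Real.sinh (Real.pi * bl θ x0) ≤ 1 := by
        rw [sinh_pi_bl]
        have g5 : 0 ≤ Real.tan θ := Real.tan_nonneg_of_nonneg_of_le_pi_div_two H.hθ.pos.le H.hθ.lt.le
        have g6 : Real.tan θ ≤ 1 := by nlinarith
        have g7 := Real.cos_le_one (Real.pi * x0)
        have g8 : 0 < Real.cos (Real.pi * x0) := cos_pos_of (by linarith) (by linarith)
        nlinarith
      have g5 := Real.self_le_sinh_iff.2 (show 0 ≤ Real.pi * bl θ x0 from mul_nonneg hpi.le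
        (bl_pos_of H.hθ.pos H.hθ.lt (by rw [abs_of_nonneg (by linarith)]; linarith)).le)
      linarith
    nlinarith [Real.pi_gt_three]
  -- the left vertical
  have left : ∀ x : ℂ, x ∈ G0 θ (2 / 5) → a0 ≤ x.re → ∀ h : ℝ, 0 ≤ h →
      (∀ t ∈ Icc (0 : ℝ) (1 / 2), EE (.op (cmp (2 / 5) x)) (.op W) ((t : ℂ) + (h : ℂ) * I) <
        LM Φ θ θ' b b' xc xc' (2 / 5) v1' μ μ' x w) →
      ∀ Y ∈ Set.uIcc 0 h, EE (.op (cmp (2 / 5) x)) (.op W) ((Y : ℂ) * I) <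
        LM Φ θ θ' b b' xc xc' (2 / 5) v1' μ μ' x w := by
    intro x hx hxa h hh0 hf Y hY
    rw [uIcc_of_le hh0] at hY
    have ux := cmp_und H.hv1 hx (by linarith) H.hθ
    have hxr : a0 ≤ (cmp (2 / 5) x).re := by
      unfold cmp
      split_ifs with hc
      · exact hxa
      · rw [ofReal_re]; linarith
    have hs := (und_rg uw H.hθ'.pos.le H.hθ'.lt ht').s1
    have k := left_dir (v := cmp (2 / 5) x) (w := cmp v1' w) (by linarith) ux.re1 ux.im0 uw.re0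
      (hwa.trans hxr) uw.im0 hs hY.1 hY.2
    rw [← hW] at k
    refine k.trans_lt (max_lt ?_ (hf 0 ⟨le_rfl, by norm_num⟩))
    rw [cmp_im hx (by linarith), cmp_im hw hw0]
    exact hEnd x hx (by linarith)
  -- the vertical
  have vert : ∀ η : ℝ, 0 ≤ η → η ≤ bl θ (2 / 5) → 2 / 5 ≤ v.re → v.im = η → cmp (2 / 5) v = vv η →
      ∃ h : ℝ, |h| ≤ 1 ∧
      (∀ Y ∈ Set.uIcc 0 h, EE (.op (cmp (2 / 5) v)) (.op W) ((Y : ℂ) * I) <
        LM Φ θ θ' b b' xc xc' (2 / 5) v1' μ μ' v w) ∧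
      ∀ t ∈ Icc (0 : ℝ) (1 / 2), EE (.op (cmp (2 / 5) v)) (.op W) ((t : ℂ) + h * I) <
          LM Φ θ θ' b b' xc xc' (2 / 5) v1' μ μ' v w := by
    intro η e0 e1 e2 e3 e4
    obtain ⟨h, f1, f2, f3⟩ := key2 η ⟨e0, e1⟩
    have hf : ∀ t ∈ Icc (0 : ℝ) (1 / 2), EE (.op (cmp (2 / 5) v)) (.op W) ((t : ℂ) + (h : ℂ) * I) <
        LM Φ θ θ' b b' xc xc' (2 / 5) v1' μ μ' v w := by
      intro t ht1
      rw [e4, LM_beyond (by norm_num) e2, hl1 _ (by norm_num) le_rfl, e3]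
      have g1 := f3 t ht1
      have g2 := concave_pos hK hβ e0 e1 hE hμ
      linarith
    exact ⟨h, by rw [abs_of_nonneg f1]; linarith, left v hv hva h f1 hf, hf⟩
  have vabs : |v.re| = v.re := abs_of_nonneg hv0
  rcases hv with ⟨g1, g2⟩ | ⟨g1, g2, g3⟩ | ⟨g1, g2, g3⟩
  · -- on the line
    rw [vabs] at g1
    have ev : v = vl θ v.re := by
      apply Complex.ext
      · rw [vl_re]
      · rw [vl_im, g2]
    have ec : cmp (2 / 5) v = v := if_pos g1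
    obtain ⟨h, f1, f2, f3⟩ := k1 v.re ⟨hva, g1⟩
    have hf : ∀ t ∈ Icc (0 : ℝ) (1 / 2), EE (.op (cmp (2 / 5) v)) (.op W) ((t : ℂ) + (h : ℂ) * I) <
        LM Φ θ θ' b b' xc xc' (2 / 5) v1' μ μ' v w := by
      intro t ht1
      have := f3 t ht1
      rw [← hl1 _ hv0 g1, ← ev] at this
      rw [ec]
      exact this
    have hv' : v ∈ G0 θ (2 / 5) := Or.inl ⟨by rw [vabs]; exact g1, g2⟩
    exact ⟨h, by rw [abs_of_pos f1]; linarith, left v hv' hva h f1.le hf, hf⟩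
  · rw [vabs] at g1
    refine vert v.im g2 g3 g1.ge rfl ?_
    have ec : cmp (2 / 5) v = v := if_pos g1.le
    rw [ec]
    apply Complex.ext
    · rw [vv_re, g1]
    · rw [vv_im]
  · rw [vabs] at g1
    refine vert 0 le_rfl hβ.le g1 g3 ?_
    unfold cmp
    split_ifs with hc
    · apply Complex.ext
      · rw [vv_re]; linarith
      · rw [vv_im, g3]
    · apply Complex.ext
      · rw [vv_re, ofReal_re]
      · rw [vv_im, ofReal_im]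

end

end Pool.Agent.S3.T2
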