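import Pool.Agent.S3.W.Real
import Pool.Agent.S3.W2.Pair2

/-!
# Open-open edges: points of the contour and the polygon
-/

set_option autoImplicit false

namespace Pool.Agent.S3.T2

open Complex
open Pool.Agent.H25.RK (gdv gdv_re_lt gdv_hasDerivAt)

section

variable {θ θ' v1 : ℝ} {v w : ℂ} {Φ : ℂ → ℂ → ℂ}

/-- The abscissa of the vertical part. -/
structure V1 (v1 : ℝ) : Prop where
  pos : 0 < v1
  le : v1 ≤ 2 / 5

theorem cmp_und (hv1 : V1 v1) (h : v ∈ G0 θ v1) (h0 : 0 ≤ v.re) (hθ : Ht θ) :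
    Und θ (cmp v1 v) := by
  have v0 := hv1.pos
  have v3 := hv1.le
  unfold cmp
  split_ifs with hc
  · rcases h with ⟨a, b⟩ | ⟨a, b, c⟩ | ⟨a, b, c⟩
    · have hv : |v.re| < 1 / 2 := by linarith
      exact ⟨h0, by linarith, by rw [b]; exact bl_nonneg hθ.pos.le hθ.lt hv.le, b.le⟩
    · rw [abs_of_nonneg h0] at a
      exact ⟨h0, by linarith, b, by rw [a]; exact c⟩
    · rw [abs_of_nonneg h0] at a
      have hv : |v.re| < 1 / 2 := by rw [abs_of_nonneg h0]; linarith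
      exact ⟨h0, by linarith, c.ge, by rw [c]; exact bl_nonneg hθ.pos.le hθ.lt hv.le⟩
  · refine ⟨by rw [ofReal_re]; exact v0.le, by rw [ofReal_re]; exact v3, by simp, ?_⟩
    rw [ofReal_im, ofReal_re]
    exact bl_nonneg hθ.pos.le hθ.lt (by rw [abs_of_pos v0]; linarith)

theorem se_cmp (hv1 : V1 v1) (h : v ∈ G0 θ v1) (h0 : 0 ≤ v.re) {y : ℂ} (y0 : 0 ≤ y.re)
    (y1 : y.re ≤ 1 / 2) : se y (.op v) ≤ se y (.op (cmp v1 v)) := by
  have v0 := hv1.pos
  have v3 := hv1.le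
  unfold cmp
  split_ifs with hc
  · exact le_rfl
  · push Not at hc
    have e : v = ((v.re : ℝ) : ℂ) := by
      have := cmp_im h h0
      unfold cmp at this
      rw [if_neg (not_le.2 hc), ofReal_im] at this
      apply Complex.ext
      · rw [ofReal_re]
      · rw [ofReal_im, this]
    have h1 : v.re ≤ 1 / 2 := by
      rcases h with ⟨a, b⟩ | ⟨a, b, c⟩ | ⟨a, b, c⟩
      · rw [abs_of_nonneg h0] at a; linarith
      · rw [abs_of_nonneg h0] at a; linarith
      · rwa [abs_of_nonneg h0] at b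
    rw [e]
    exact se_real_anti v0.le hc.le h1 y0 y1

theorem up_cmp (hv1 : V1 v1) (h0 : 0 ≤ v.re) : up θ (cmp v1 v) = pl θ v1 v := by
  have v0 := hv1.pos
  unfold cmp up pl
  split_ifs with hc
  · rw [min_eq_right hc, max_eq_right (by linarith)]
  · push Not at hc
    rw [min_eq_left hc.le, max_eq_right (by linarith), ofReal_re]

/-- The polygon with one flat of height `H`, with a bound on the left vertical. -/
theorem Pr.polyh' (h : Pr θ θ' v w) {H L : ℝ}
    (hl : ∀ Y ∈ Set.uIcc 0 H, EE (.op v) (.op ((starRingEnd ℂ) w)) ((Y : ℂ) * I) < L)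
    (hf : ∀ t ∈ Set.Icc (0 : ℝ) (1 / 2),
      EE (.op v) (.op ((starRingEnd ℂ) w)) ((t : ℂ) + H * I) < L) :
    PolOn 1 (fun i => if i = 0 then 0 else 1 / 2) (fun _ => H)
      (fun y => EE (.op v) (.op ((starRingEnd ℂ) w)) y < L ∧ 0 ≤ y.re ∧ y.re ≤ 1 / 2) := by
  apply pol_one
  · intro t ht
    exact ⟨hf t ht, by rw [line_re]; exact ht.1, by rw [line_re]; exact ht.2⟩
  · intro Y hY
    refine ⟨?_, ?_, ?_⟩
    · rw [ofReal_zero, zero_add]
      exact hl Y hY
    · rw [line_re]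
    · rw [line_re]; norm_num
  · intro Y hY
    have k := EE_right (v := v) (w := (starRingEnd ℂ) w) h.hv.re0
      (by linarith [h.hv.re1]) (by rw [conj_re]; exact h.hw.re0)
      (by rw [conj_re]; linarith [h.hw.re1]) hY
    refine ⟨k.trans_lt (hf (1 / 2) ⟨by norm_num, le_rfl⟩), ?_, ?_⟩
    · rw [line_re]; norm_num
    · rw [line_re]

/-- The polygon with one flat of height `H`. -/
theorem Pr.polyh (h : Pr θ θ' v w) {H L : ℝ} (hS : Side (yv v w) H)
    (hB : Real.pi * (v.im + w.im) < L)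
    (hf : ∀ t ∈ Set.Icc (0 : ℝ) (1 / 2),
      EE (.op v) (.op ((starRingEnd ℂ) w)) ((t : ℂ) + H * I) < L) :
    PolOn 1 (fun i => if i = 0 then 0 else 1 / 2) (fun _ => H)
      (fun y => EE (.op v) (.op ((starRingEnd ℂ) w)) y < L ∧ 0 ≤ y.re ∧ y.re ≤ 1 / 2) := by
  refine h.polyh' (fun Y hY => ?_) hf
  have k := (h.left hS hY).trans_lt (max_lt hB (hf 0 ⟨le_rfl, by norm_num⟩))
  rwa [ofReal_zero, zero_add] at k

end

end Pool.Agent.S3.T2
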