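import Pool.Agent.S3.W.Far
import Pool.Agent.S3.W2.Real2

/-!
# Open-open edges: the estimate away from the critical point
-/

set_option autoImplicit false

namespace Pool.Agent.S3.T2

open Complex
open Pool.Agent.H25.RK (gdv gdv_re_lt gdv_hasDerivAt)

/-- The data of an open-open edge. -/
structure OO (Φ : ℂ → ℂ → ℂ) (θ θ' xc xc' b b' v1 v1' : ℝ) : Prop where
  hΦ : IsPhi Φ
  h0 : Φ 0 0 = c00
  ho : OppHyp θ θ' xc xc'
  hs : Split θ θ' xc xc' b b'
  hc : 0 < xc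
  hc' : 0 < xc'
  hθ : Ht θ
  hθ' : Ht θ'
  hv1 : V1 v1
  hv1' : V1 v1'
  hr : (gdv (UU xc θ)).re < v1
  hr' : (gdv (UU xc' θ')).re < v1'
  nl : NL (gdv (UU xc θ)) (gdv (UU xc' θ'))
  nl' : NL (gdv (UU xc' θ')) (gdv (UU xc θ))

/-- The flats: for every pair of points of the contours, except for the critical pair. The left
vertical is controlled by `Side` (and `EndAll`), or directly. -/
def FlatH (Φ : ℂ → ℂ → ℂ) (θ θ' xc xc' b b' v1 v1' μ μ' : ℝ) : Prop := ∀ v w : ℂ,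
  v ∈ G0 θ v1 → 0 ≤ v.re → w ∈ G0 θ' v1' → 0 ≤ w.re →
    (v ≠ gdv (UU xc θ) ∨ w ≠ gdv (UU xc' θ')) →
    ∃ H : ℝ, |H| ≤ 1 ∧ (Side (yv (cmp v1 v) (cmp v1' w)) H ∨
      ∀ Y ∈ Set.uIcc 0 H, EE (.op (cmp v1 v)) (.op ((starRingEnd ℂ) (cmp v1' w))) ((Y : ℂ) * I) <
        LM Φ θ θ' b b' xc xc' v1 v1' μ μ' v w) ∧ ∀ t ∈ Set.Icc (0 : ℝ) (1 / 2),
      EE (.op (cmp v1 v)) (.op ((starRingEnd ℂ) (cmp v1' w))) ((t : ℂ) + H * I) <
        LM Φ θ θ' b b' xc xc' v1 v1' μ μ' v w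

section

variable {Φ : ℂ → ℂ → ℂ} {θ θ' xc xc' b b' v1 v1' μ μ' : ℝ} {v w : ℂ}

theorem OO.pr (H : OO Φ θ θ' xc xc' b b' v1 v1') (hv : v ∈ G0 θ v1) (hv0 : 0 ≤ v.re)
    (hw : w ∈ G0 θ' v1') (hw0 : 0 ≤ w.re) : Pr θ θ' (cmp v1 v) (cmp v1' w) :=
  ⟨cmp_und H.hv1 hv hv0 H.hθ, cmp_und H.hv1' hw hw0 H.hθ', H.hθ, H.hθ', H.ho.S⟩

theorem pl_eq_crit {x : ℝ} (hv1 : V1 v1) (hr : (gdv (UU x θ)).re < v1)
    (hv : v ∈ G0 θ v1) (hv0 : 0 ≤ v.re) (he : pl θ v1 v = gdv (UU x θ)) :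
    v = gdv (UU x θ) := by
  have h1 := up_cmp (θ := θ) hv1 hv0
  rw [he] at h1
  have h2 := congrArg Complex.re h1
  rw [up_re] at h2
  have h3 : v.re < v1 := by
    by_contra hc
    push Not at hc
    unfold cmp at h2
    split_ifs at h2 with h4
    · linarith
    · rw [ofReal_re] at h2
      linarith
  have h4 : cmp v1 v = v := by
    unfold cmp
    rw [if_pos h3.le]
  rw [h4] at h1
  have h5 : v.im = bl θ v.re := by
    rcases hv with ⟨a, b⟩ | ⟨a, b, c⟩ | ⟨a, b, c⟩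
    · exact b
    · rw [abs_of_nonneg hv0] at a; linarith
    · rw [abs_of_nonneg hv0] at a; linarith
  rw [← h1, up_self h5]

/-- The estimate in first quadrant coordinates. -/
theorem OO.far_q (H : OO Φ θ θ' xc xc' b b' v1 v1')
    (hF : FlatH Φ θ θ' xc xc' b b' v1 v1' μ μ')
    (hE : EndAll Φ θ θ' xc xc' b b' v1 v1' μ μ') (hv : v ∈ G0 θ v1) (hv0 : 0 ≤ v.re)
    (hw : w ∈ G0 θ' v1') (hw0 : 0 ≤ w.re)
    (hne : v ≠ gdv (UU xc θ) ∨ w ≠ gdv (UU xc' θ')) :
    EdgeOK (.op v) (.op (mir w)) (LM Φ θ θ' b b' xc xc' v1 v1' μ μ' v w) := by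
  obtain ⟨e1, e2⟩ := hE v w hv hv0 hw hw0
  obtain ⟨h, hh, hS, hf⟩ := hF v w hv hv0 hw hw0 hne
  have hp := H.pr hv hv0 hw hw0
  refine ⟨?_, ?_, 1, _, _, pgn_one' hh, ?_⟩
  · have : B0 (.op v) + B0 (.op (mir w)) = Real.pi * (v.im + w.im) := by
      rw [B0_mir, B0, B0]; ring
    rw [this]
    exact e1
  · intro y hy
    have : EE (.op v) (.op (mir w)) y = EE (.op v) (.op w) y := by
      rw [EE, EE, se_mir_real]
    rw [this]
    exact e2 y hy
  · have hB : Real.pi * ((cmp v1 v).im + (cmp v1' w).im) <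
        LM Φ θ θ' b b' xc xc' v1 v1' μ μ' v w := by
      rw [cmp_im hv hv0, cmp_im hw hw0]
      exact e1
    have k : PolOn 1 (fun i => if i = 0 then 0 else 1 / 2) (fun _ => h)
        (fun y => EE (.op (cmp v1 v)) (.op ((starRingEnd ℂ) (cmp v1' w))) y <
          LM Φ θ θ' b b' xc xc' v1 v1' μ μ' v w ∧ 0 ≤ y.re ∧ y.re ≤ 1 / 2) := by
      rcases hS with hS | hS
      · exact hp.polyh hS hB hf
      · exact hp.polyh' hS hf
    have mono : ∀ y, (EE (.op (cmp v1 v)) (.op ((starRingEnd ℂ) (cmp v1' w))) y <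
        LM Φ θ θ' b b' xc xc' v1 v1' μ μ' v w ∧ 0 ≤ y.re ∧ y.re ≤ 1 / 2) →
        EE (.op v) (.op (mir w)) y < LM Φ θ θ' b b' xc xc' v1 v1' μ μ' v w := by
      rintro y ⟨h1, h2, h3⟩
      refine lt_of_le_of_lt ?_ h1
      rw [← EE_conj_mir]
      have k1 := se_cmp H.hv1 hv hv0 h2 h3
      have k2 := se_cmp H.hv1' hw hw0 (y := (starRingEnd ℂ) y) (by rwa [conj_re])
        (by rwa [conj_re])
      have k3 := se_conj ((starRingEnd ℂ) y) w
      have k4 := se_conj ((starRingEnd ℂ) y) (cmp v1' w)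
      rw [conj_conj] at k3 k4
      unfold EE
      rw [k3, k4]
      linarith
    obtain ⟨g1, g2, g3, g4⟩ := k
    exact ⟨fun i hi x hx => mono _ (g1 i hi x hx), fun Y hY => mono _ (g2 Y hY),
      fun i hi Y hY => mono _ (g3 i hi Y hY), fun Y hY => mono _ (g4 Y hY)⟩

/-- A monotone flat. -/
theorem flatH_of {L : ℝ} (hΦ : IsPhi Φ) (h0 : Φ 0 0 = c00) (hp : Pr θ θ' v w)
    (n1 : NL v w) (n2 : NL w v) (hF : FlatOK v w)
    (hL : (Φ v ((starRingEnd ℂ) w)).re < L) : ∃ H : ℝ, |H| ≤ 1 ∧ Side (yv v w) H ∧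
      ∀ t ∈ Set.Icc (0 : ℝ) (1 / 2),
        EE (.op v) (.op ((starRingEnd ℂ) w)) ((t : ℂ) + H * I) < L := by
  refine ⟨(yv v w).im, hp.yv_im, side_self _, fun t ht => (hF t ht).trans_lt ?_⟩
  rw [hp.bridge hΦ h0 n1 n2]
  exact hL

/-! ### The mirror images -/

theorem EdgeOK_mir (hv1 : V1 v1) (hv1' : V1 v1') (hv : v ∈ G0 θ v1) (hw : w ∈ G0 θ' v1')
    (hθ : Ht θ) (hθ' : Ht θ') {L : ℝ} (h : EdgeOK (.op (ab v)) (.op (mir (ab (mir w)))) L) : EdgeOK (.op v) (.op w) L := by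
  have i1 := G0_im hv (by linarith [hv1.le]) hθ.pos.le hθ.lt
  have i2 := G0_im hw (by linarith [hv1'.le]) hθ'.pos.le hθ'.lt
  have hwr : (mir w).re = -w.re := mir_re w
  unfold ab at h
  split_ifs at h with h1 h2 h2
  · rwa [mir_mir] at h
  · -- `w.re > 0`
    rw [mir_mir] at h
    rw [hwr] at h2
    push Not at h2
    have k := EdgeOK.mir_right (v := v) (w := mir w) h1 i1 (by rw [hwr]; linarith)
      (by rwa [mir_im]) h
    rwa [mir_mir] at k
  · push Not at h1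
    rw [mir_mir] at h
    rw [hwr] at h2
    have k := EdgeOK.mir_left (v := mir v) (w := w) (by rw [mir_re]; linarith) (by rwa [mir_im])
      (by linarith) i2 h
    rwa [mir_mir] at k
  · push Not at h1
    rw [mir_mir] at h
    have k := EdgeOK.mir_both h
    rwa [mir_mir, mir_mir] at k

/-! ### The critical pair -/

theorem line_und {x : ℝ} (hv1 : V1 v1) (hθ : Ht θ) (hx : 0 ≤ x)
    (hr : (gdv (UU x θ)).re ≤ v1) :
    Und θ (gdv (UU x θ)) := by
  have h1 : |(UU x θ).im| < Real.pi / 2 := by rw [UU_im]; exact hθ.abs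
  have h2 := gdv_re_lt h1
  have h0 : 0 ≤ (gdv (UU x θ)).re := by
    rcases hx.eq_or_lt with h | h
    · have h3 := gdv_refl (x := x) hθ.abs
      rw [← h, neg_zero] at h3
      have := congrArg Complex.re h3
      rw [neg_re, conj_re] at this
      rw [← h]
      linarith
    · have := gd_re_pos h hθ.abs
      rw [gd_eq h1, re_ofReal_mul] at this
      exact (pos_of_mul_pos_of_nonneg Real.pi_pos.le this).le
  exact ⟨h0, hr.trans hv1.le, by rw [line_im_bl hθ.abs]; exact bl_nonneg hθ.pos.le hθ.lt h2.le,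
    (line_im_bl hθ.abs).le⟩

theorem und_G0 (h : Und θ v) (h1 : v.re ≤ v1) (hl : v.im = bl θ v.re) : v ∈ G0 θ v1 :=
  Or.inl ⟨by rw [abs_of_nonneg h.re0]; exact h1, hl⟩

theorem OO.yv_c (H : OO Φ θ θ' xc xc' b b' v1 v1') :
    yv (gdv (UU xc θ)) (gdv (UU xc' θ')) = yy (UU xc θ) (UU xc' (-θ')) := by
  rw [yv, uof_gdv (by rw [UU_im]; exact H.hθ.abs), uof_gdv (by rw [UU_im]; exact H.hθ'.abs),
    UU_conj]

theorem OO.prc (H : OO Φ θ θ' xc xc' b b' v1 v1') : Pr θ θ' (gdv (UU xc θ)) (gdv (UU xc' θ')) :=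
  ⟨line_und H.hv1 H.hθ H.hc.le H.hr.le, line_und H.hv1' H.hθ' H.hc'.le H.hr'.le, H.hθ, H.hθ',
    H.ho.S⟩

theorem OO.Lc (H : OO Φ θ θ' xc xc' b b' v1 v1') :
    L0 Φ θ θ' b b' xc xc' (gdv (UU xc θ)) (gdv (UU xc' θ')) =
      EE (.op (gdv (UU xc θ))) (.op ((starRingEnd ℂ) (gdv (UU xc' θ'))))
        (yy (UU xc θ) (UU xc' (-θ'))) := by
  rw [L0, ell_self, ell_self, add_zero, add_zero, ← H.prc.bridge H.hΦ H.h0 H.nl H.nl', H.yv_c]

/-- The estimate at the critical pair. -/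
theorem OO.near_q (H : OO Φ θ θ' xc xc' b b' v1 v1') (hF : FlatC θ θ' xc xc')
    (hE : EndAll Φ θ θ' xc xc' b b' v1 v1' μ μ') :
    EdgeC (.op (gdv (UU xc θ))) (.op (mir (gdv (UU xc' θ')))) (yy (UU xc θ) (UU xc' (-θ')))
      (L0 Φ θ θ' b b' xc xc' (gdv (UU xc θ)) (gdv (UU xc' θ'))) := by
  have hp := H.prc
  have l1 := line_im_bl (x := xc) H.hθ.abs
  have l2 := line_im_bl (x := xc') H.hθ'.abs
  have g1 := und_G0 hp.hv H.hr.le l1
  have g2 := und_G0 hp.hw H.hr'.le l2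
  obtain ⟨e1, e2⟩ := hE _ _ g1 hp.hv.re0 g2 hp.hw.re0
  have q1 := pl_of_line (θ := θ) (v1 := v1) (v := gdv (UU xc θ))
    (by rw [abs_of_nonneg hp.hv.re0]; exact H.hr.le) l1
  have q2 := pl_of_line (θ := θ') (v1 := v1') (v := gdv (UU xc' θ'))
    (by rw [abs_of_nonneg hp.hw.re0]; exact H.hr'.le) l2
  rw [LM, q1, q2, sub_self, sub_self, mul_zero, mul_zero, sub_zero, sub_zero] at e1 e2
  have hy := hp.yv_re
  have hyi := hp.yv_im
  rw [H.yv_c] at hy hyi
  have hLc := H.Lc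
  refine ⟨?_, ?_, ?_, 1, _, _, pgn_one' hyi, ?_, 0, one_pos, ?_, ?_, rfl⟩
  · have : B0 (.op (gdv (UU xc θ))) + B0 (.op (mir (gdv (UU xc' θ')))) =
        Real.pi * ((gdv (UU xc θ)).im + (gdv (UU xc' θ')).im) := by
      rw [B0_mir, B0, B0]; ring
    rw [this]
    exact e1
  · intro y hy
    have : EE (.op (gdv (UU xc θ))) (.op (mir (gdv (UU xc' θ')))) y =
        EE (.op (gdv (UU xc θ))) (.op (gdv (UU xc' θ'))) y := by
      rw [EE, EE, se_mir_real]
    rw [this]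
    exact e2 y hy
  · rw [hLc, ← EE_conj_mir]
  · have hf : ∀ t ∈ Set.Icc (0 : ℝ) (1 / 2), t ≠ (yy (UU xc θ) (UU xc' (-θ'))).re →
        EE (.op (gdv (UU xc θ))) (.op ((starRingEnd ℂ) (gdv (UU xc' θ'))))
          ((t : ℂ) + (yy (UU xc θ) (UU xc' (-θ'))).im * I) <
        L0 Φ θ θ' b b' xc xc' (gdv (UU xc θ)) (gdv (UU xc' θ')) := fun t ht hne => by
      rw [hLc]
      exact hF t ht hne
    apply pol_one
    · intro t ht
      rw [← EE_conj_mir]
      by_cases hne : t = (yy (UU xc θ) (UU xc' (-θ'))).re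
      · right
        rw [hne, re_add_im]
      · exact Or.inl (hf t ht hne)
    · intro Y hY
      left
      rw [← EE_conj_mir]
      have hY' : Y ∈ Set.uIcc 0 (yv (gdv (UU xc θ)) (gdv (UU xc' θ'))).im := by
        rwa [H.yv_c]
      have k := hp.left (side_self _) hY'
      rw [H.yv_c] at k
      exact k.trans_lt (max_lt e1 (hf 0 ⟨le_rfl, by norm_num⟩ hy.1.ne))
    · intro Y hY
      left
      rw [← EE_conj_mir]
      have k := EE_right (v := gdv (UU xc θ)) (w := (starRingEnd ℂ) (gdv (UU xc' θ'))) hp.hv.re0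
        (by linarith [hp.hv.re1]) (by rw [conj_re]; exact hp.hw.re0)
        (by rw [conj_re]; linarith [hp.hw.re1]) hY
      exact k.trans_lt (hf (1 / 2) ⟨by norm_num, le_rfl⟩ hy.2.ne')
  · simpa using hy.1
  · simpa using hy.2

theorem pl_mir (hv1 : V1 v1) (v : ℂ) : pl θ v1 (mir v) = mir (pl θ v1 v) := by
  have v0 := hv1.pos
  have e : max (-v1) (min v1 (-v.re)) = -max (-v1) (min v1 v.re) := by
    rcases le_total v.re (-v1) with h | h
    · rw [min_eq_left (by linarith), min_eq_right (by linarith), max_eq_right (by linarith),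
        max_eq_left h, neg_neg]
    · rcases le_total v.re v1 with h' | h'
      · rw [min_eq_right (by linarith), min_eq_right h', max_eq_right (by linarith),
          max_eq_right h]
      · rw [min_eq_right (by linarith), min_eq_left h', max_eq_left (by linarith),
          max_eq_right (by linarith)]
  apply Complex.ext
  · rw [pl_re, mir_re, mir_re, pl_re, e]
  · rw [pl_im, mir_re, mir_im, pl_im, e, bl_neg']

/-- On the contour: on the line, or the abscissa of `pl v` is `± v1`, with `re v = re (pl v)` or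
`im v = 0`. -/
theorem pl_cases (hv1 : V1 v1) (hv : v ∈ G0 θ v1) (h0 : 0 ≤ v.re) :
    (pl θ v1 v = v ∧ v.im = bl θ v.re) ∨
      ((pl θ v1 v).re = v1 ∧ (v.re = v1 ∨ v.im = 0)) := by
  have v0 := hv1.pos
  rcases hv with ⟨x, y⟩ | ⟨x, y, z⟩ | ⟨x, y, z⟩
  · exact Or.inl ⟨pl_of_line x y, y⟩
  · rw [abs_of_nonneg h0] at x
    right
    rw [pl_re, x, min_self, max_eq_right (by linarith)]
    exact ⟨rfl, Or.inl rfl⟩
  · rw [abs_of_nonneg h0] at x
    right
    rw [pl_re, min_eq_left x, max_eq_right (by linarith)]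
    exact ⟨rfl, Or.inr z⟩

/-- The share on the big side. -/
theorem lwf_pos {vc Q : ℂ} {a : ℝ} (hv1 : V1 v1) (hv : v ∈ G0 θ v1) (h0 : 0 ≤ v.re) :
    lwf θ v1 vc Q b a v = ell vc Q (-2 * Real.pi * b) (pl θ v1 v) -
      mu b a v1 * ((pl θ v1 v).im - v.im) := by
  unfold lwf mu
  rcases pl_cases hv1 hv h0 with ⟨h1, h2⟩ | ⟨h1, h2⟩
  · rw [h1, sub_self, sub_self, mul_zero, mul_zero, add_zero, sub_zero]
  · rw [wr_reW, wr_reW, h1]
    rcases h2 with h2 | h2
    · rw [h2]; ring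
    · rw [h2]; ring

/-- The share on the mirror side. -/
theorem lwf_neg {vc Q : ℂ} {a : ℝ} (hv1 : V1 v1) (ha : a ≠ 0)
    (hQ : Q.re = b * (Real.pi * vc.im)) (hv : v ∈ G0 θ v1) (h0 : v.re ≤ 0) :
    lwf θ v1 vc Q b a v = lwf θ v1 vc Q b a (mir v) +
      4 * Real.pi * b * (pl θ v1 (mir v)).re * v.im := by
  have hm : 2 * Q.re + (-2 * Real.pi * b) * vc.im = 0 := by rw [hQ]; ring
  have hell : ell vc Q (-2 * Real.pi * b) (pl θ v1 v) =
      ell vc Q (-2 * Real.pi * b) (pl θ v1 (mir v)) +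
        4 * Real.pi * b * (pl θ v1 (mir v)).re * (pl θ v1 (mir v)).im := by
    have := ell_mir hm (pl θ v1 (mir v))
    rw [← pl_mir hv1, mir_mir] at this
    rw [this]; ring
  have e1 : (pl θ v1 v).re = -(pl θ v1 (mir v)).re := by
    rw [pl_mir hv1, mir_re, neg_neg]
  have e2 : (pl θ v1 v).im = (pl θ v1 (mir v)).im := by
    rw [pl_mir hv1, mir_im]
  have h1 := pl_cases hv1 (mir_mem hv) (by rw [mir_re]; linarith)
  unfold lwf
  rw [hell, wr_reW, wr_reW, wr_reW, wr_reW, e1, e2, mir_im, mir_re]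
  rcases h1 with ⟨h2, h3⟩ | ⟨h2, h3⟩
  · rw [h2, mir_im, mir_re]
    ring
  · rw [mir_re, mir_im] at h3
    rw [h2]
    rcases h3 with h3 | h3
    · have : v.re = -v1 := by linarith
      rw [this]
      field_simp
      ring
    · rw [h3]
      field_simp
      ring

/-- The share is at least the share of the representative. -/
theorem lwf_ge {vc Q : ℂ} {a : ℝ} (hv1 : V1 v1) (hθ : Ht θ) (hb : 0 < b) (ha : 0 < a)
    (hQ : Q.re = b * (Real.pi * vc.im)) (hv : v ∈ G0 θ v1) :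
    ell vc Q (-2 * Real.pi * b) (pl θ v1 (ab v)) - mu b a v1 * ((pl θ v1 (ab v)).im - v.im) ≤
        lwf θ v1 vc Q b a v ∧
      (v.re < 0 → v.im = bl θ v.re → |v.re| ≤ v1 →
        ell vc Q (-2 * Real.pi * b) (pl θ v1 (ab v)) - mu b a v1 * ((pl θ v1 (ab v)).im - v.im) <
        lwf θ v1 vc Q b a v) := by
  have hpi := Real.pi_pos
  have v3 := hv1.le
  have him := G0_im hv (by linarith) hθ.pos.le hθ.lt
  rcases le_or_gt 0 v.re with h0 | h0
  · have e : ab v = v := by unfold ab; rw [if_pos h0]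
    rw [e, lwf_pos hv1 hv h0]
    exact ⟨le_rfl, fun h => absurd h (not_lt.2 h0)⟩
  · have e : ab v = mir v := by unfold ab; rw [if_neg (not_le.2 h0)]
    have k := lwf_pos (vc := vc) (Q := Q) (b := b) (a := a) hv1 (mir_mem hv)
      (by rw [mir_re]; linarith)
    rw [mir_im] at k
    rw [e, lwf_neg hv1 ha.ne' hQ hv h0.le, k]
    have hp : 0 ≤ (pl θ v1 (mir v)).re := by
      rw [pl_re, mir_re]
      exact le_max_of_le_right (le_min hv1.pos.le (by linarith))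
    refine ⟨by have : 0 ≤ 4 * Real.pi * b * (pl θ v1 (mir v)).re * v.im := by positivity
               linarith, fun _ h2 h3 => ?_⟩
    have h4 : pl θ v1 (mir v) = mir v := by
      apply pl_of_line
      · rw [mir_re, abs_neg]; exact h3
      · rw [mir_im, mir_re, bl_neg', h2]
    have h5 : 0 < v.im := by
      rw [h2]
      unfold bl
      apply div_pos _ Real.pi_pos
      rw [Real.arsinh_pos_iff]
      exact mul_pos (Real.tan_pos_of_pos_of_lt_pi_div_two hθ.pos hθ.lt)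
        (cos_pi_pos (by linarith))
    have h6 : 0 < (pl θ v1 (mir v)).re := by
      rw [h4, mir_re]; linarith
    have : 0 < 4 * Real.pi * b * (pl θ v1 (mir v)).re * v.im := by positivity
    linarith

end

end Pool.Agent.S3.T2
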