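import Pool.Agent.S3.FlatP
import Pool.Agent.S3.FlatT
import Pool.Agent.S3.W2.Far2

/-!
# Flats from the regions

`FlatM` at a pair gives the strict flat inequality (`Pr.flat_ltM`), `FlatOK` (`Pr.flatOK_M`) and,
at the critical pair, `FlatC` (`OO.flatC_M`). The regions are `Ck.flat_a1`, ... (second vertex with
at least three half twists) and `Ck.flat_b1`, ... (two vertices with two half twists).
-/

set_option autoImplicit false

namespace Pool.Agent.S3.T2

open Complex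
open Pool.Agent.H25.RK (gdv)

variable {θ θ' : ℝ} {v w : ℂ}

/-- The criterion at a pair. -/
def FM (v w : ℂ) : Prop :=
  FlatM (1 / cos (Real.pi * v) ^ 2) (1 / cos (Real.pi * (starRingEnd ℂ) w) ^ 2)

theorem cos_ne_of {v : ℂ} (h : |v.re| < 1 / 2) : cos (Real.pi * v) ≠ 0 := by
  have hpi := Real.pi_pos
  have h1 := abs_lt.mp h
  have hc : 0 < Real.cos (Real.pi * v.re) :=
    Real.cos_pos_of_mem_Ioo ⟨by nlinarith, by nlinarith⟩
  have e : (Real.pi : ℂ) * v = ((Real.pi * v.re : ℝ) : ℂ) + ((Real.pi * v.im : ℝ) : ℂ) * I := by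
    conv_lhs => rw [← re_add_im v]
    push_cast
    ring
  rw [e, cos_add_mul_I]
  intro h0
  have := congrArg Complex.re h0
  simp only [sub_re, mul_re, ← ofReal_cos, ← ofReal_sin, ← ofReal_cosh, ← ofReal_sinh, ofReal_re,
    ofReal_im, I_re, I_im, mul_zero, mul_one, sub_zero, zero_re, mul_im, add_zero, sub_self,
    zero_mul] at this
  have h2 := Real.cosh_pos (Real.pi * v.im)
  have : 0 < Real.cos (Real.pi * v.re) * Real.cosh (Real.pi * v.im) := by positivity
  linarith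

/-- The strict flat inequality for a pair. -/
theorem Pr.flat_ltM (h : Pr θ θ' v w) (hF : FM v w) {t : ℝ}
    (ht : 0 ≤ t) (ht' : t ≤ 1 / 2) (hne : t ≠ (yv v w).re) :
    EE (.op v) (.op ((starRingEnd ℂ) w)) ((t : ℂ) + (yv v w).im * I) <
      EE (.op v) (.op ((starRingEnd ℂ) w)) (yv v w) := by
  obtain ⟨s1, s2⟩ := h.yv_re
  have e := h.yv_eq
  rw [← re_add_im (yv v w)] at e
  have := EE_flatM_lt s1 s2 ht ht' hne (cos_ne_of h.hv.abs) (cos_ne_of (conj_abs h.hw.abs)) e hF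
  rw [re_add_im] at this
  exact this

/-- Increasing up to the critical point, decreasing from there on. -/
theorem Pr.flat_monoM (h : Pr θ θ' v w) (hF : FM v w) :
    (∀ a b : ℝ, 0 ≤ a → a < b → b ≤ (yv v w).re →
      EE (.op v) (.op ((starRingEnd ℂ) w)) ((a : ℂ) + (yv v w).im * I) <
        EE (.op v) (.op ((starRingEnd ℂ) w)) ((b : ℂ) + (yv v w).im * I)) ∧
    (∀ a b : ℝ, (yv v w).re ≤ a → a < b → b ≤ 1 / 2 →
      EE (.op v) (.op ((starRingEnd ℂ) w)) ((b : ℂ) + (yv v w).im * I) <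
        EE (.op v) (.op ((starRingEnd ℂ) w)) ((a : ℂ) + (yv v w).im * I)) := by
  obtain ⟨s1, s2⟩ := h.yv_re
  have e := h.yv_eq
  rw [← re_add_im (yv v w)] at e
  exact EE_flatM_strict s1 s2 (cos_ne_of h.hv.abs) (cos_ne_of (conj_abs h.hw.abs)) e hF

theorem Pr.flatOK_M (h : Pr θ θ' v w) (hF : FM v w) : FlatOK v w := by
  intro t ht
  by_cases hne : t = (yv v w).re
  · rw [hne, re_add_im]
  · exact (h.flat_ltM hF ht.1 ht.2 hne).le

theorem OO.flatC_M {Φ : ℂ → ℂ → ℂ} {xc xc' b b' v1 v1' : ℝ} (H : OO Φ θ θ' xc xc' b b' v1 v1')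
    (hF : FM (gdv (UU xc θ)) (gdv (UU xc' θ'))) : FlatC θ θ' xc xc' := by
  intro t ht hne
  have := H.prc.flat_ltM hF (t := t) ht.1 ht.2 (by rw [H.yv_c]; exact hne)
  rw [H.yv_c] at this
  exact this

/-! ### Symmetry -/

theorem flatUV_conj {U V : ℂ} (h : FlatUV U V) :
    FlatUV ((starRingEnd ℂ) U) ((starRingEnd ℂ) V) := by
  obtain ⟨h1, h2, h3, h4⟩ := h
  have e1 : (starRingEnd ℂ) U + (starRingEnd ℂ) V - 1 = (starRingEnd ℂ) (U + V - 1) := by
    rw [map_sub, map_add, map_one]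
  have e2 : (starRingEnd ℂ) U + (starRingEnd ℂ) V = (starRingEnd ℂ) (U + V) := by
    rw [map_add]
  have e3 : (starRingEnd ℂ) U + (starRingEnd ℂ) ((starRingEnd ℂ) V) =
      (starRingEnd ℂ) (U + (starRingEnd ℂ) V) := by
    rw [map_add]
  refine ⟨by rw [e1, conj_re]; exact h1, by rw [conj_re]; exact h2, by rw [conj_re]; exact h3, ?_⟩
  rw [e1, e2, e3, ← map_sub, norm_conj, norm_conj, norm_conj, norm_conj, norm_conj, norm_conj,
    conj_re, conj_re, conj_re, conj_re]
  exact h4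

theorem flatM_conj {U V : ℂ} (h : FlatM U V) :
    FlatM ((starRingEnd ℂ) U) ((starRingEnd ℂ) V) := by
  rcases h with h | h | h
  · exact Or.inl (flatUV_conj h)
  · refine Or.inr (Or.inr ?_)
    rw [conj_conj, conj_conj]
    exact h
  · exact Or.inr (Or.inl h)

theorem flatM_swap {U V : ℂ} (h : FlatM U V) : FlatM V U := by
  rcases h with h | ⟨h1, h2, h3⟩ | ⟨h1, h2, h3⟩
  · exact Or.inl (FlatUV.symm h)
  · exact Or.inr (Or.inl ⟨h2, h1, (show FN V U from (show FN U V from h3).symm)⟩)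
  · exact Or.inr (Or.inr ⟨h2, h1, (show FN _ _ from (show FN _ _ from h3).symm)⟩)

/-- The criterion is symmetric. -/
theorem FM.symm (h : FM v w) : FM w v := by
  unfold FM at h ⊢
  have h1 := flatM_conj (flatM_swap h)
  have e : ∀ z : ℂ, (starRingEnd ℂ) (1 / cos (Real.pi * (starRingEnd ℂ) z) ^ 2) =
      1 / cos (Real.pi * z) ^ 2 := by
    intro z
    rw [map_div₀, map_one, map_pow, ← cos_conj, map_mul, conj_ofReal, conj_conj]
  have e' : (starRingEnd ℂ) (1 / cos (Real.pi * v) ^ 2) =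
      1 / cos (Real.pi * (starRingEnd ℂ) v) ^ 2 := by
    rw [map_div₀, map_one, map_pow, ← cos_conj, map_mul, conj_ofReal]
  rw [e, e'] at h1
  exact h1

end Pool.Agent.S3.T2
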