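import Pool.Agent.S3.W2.PhiV

/-!
# The value at the critical point with the quadratic margin of a vertex on its line

The bases of the slides: `v` on its line, the other point anywhere on its contour.
-/

set_option autoImplicit false

namespace Pool.Agent.S3.T2

open Complex
open Pool.Agent.H25.RK (gdv gdv_re_lt gdv_hasDerivAt)

section

variable {Φ : ℂ → ℂ → ℂ} {θ θ' xc xc' b b' v1 v1' μ μ' : ℝ} {v w : ℂ} {a a' : ℕ}

/-- The first point on its line. -/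
theorem OO.Phi_ltB1 (H : OO Φ θ θ' xc xc' b b' v1 v1') (hR : GRl Φ θ θ' xc' b' v1 v1' μ')
    (hv0 : 0 ≤ v.re) (hv1 : v.re ≤ v1) (hvl : v.im = bl θ v.re)
    (hw : w ∈ G0 θ' v1') (hw0 : 0 ≤ w.re)
    (hne : v ≠ gdv (UU xc θ) ∨ w ≠ gdv (UU xc' θ')) :
    (Φ v ((starRingEnd ℂ) (cmp v1' w))).re + 49 / 50 * BP b (gdv (UU xc θ)) v <
      LM Φ θ θ' b b' xc xc' v1 v1' μ μ' v w := by
  have hv : v ∈ G0 θ v1 := Or.inl ⟨by rwa [abs_of_nonneg hv0], hvl⟩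
  have ec : cmp v1 v = v := if_pos hv1
  have eu : up θ v = v := by
    apply Complex.ext
    · rw [up_re]
    · rw [up_im, hvl]
  have hp := H.pr hv hv0 hw hw0
  obtain ⟨c1, c2, c3, c4⟩ := H.crit0
  have hD := hp.D_BP H.hΦ H.ho H.hs.b0 H.hs.b0' H.hc H.hc' (H.up_ne hv hv0 hw hw0 hne)
  have hpl := up_cmp (θ := θ) H.hv1 hv0
  rw [ec, eu] at hpl
  rw [ec] at hp hD
  rw [eu] at hD
  have n2 : 0 ≤ BP b' (gdv (UU xc' θ')) (up θ' (cmp v1' w)) := BP_nonneg H.hθ'.pos.le H.hθ'.lt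
    H.hs.b0'.le (by rw [up_re]; exact hp.hw.re0) (by rw [up_re]; linarith [hp.hw.re1]) c3 c4
    (by rw [up_im, up_re]) (line_im_bl H.hθ'.abs)
  have g2 : (Φ v ((starRingEnd ℂ) (cmp v1' w))).re ≤
      (Φ v ((starRingEnd ℂ) (up θ' (cmp v1' w)))).re -
        μ' * ((up θ' (cmp v1' w)).im - (cmp v1' w).im) +
        49 / 50 * BP b' (gdv (UU xc' θ')) (up θ' (cmp v1' w)) := by
    rcases cmp_cases hw hw0 with h | h
    · exact hR _ _ hp hv1 hvl h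
    · rw [up_self h] at n2 ⊢
      rw [sub_self, mul_zero, sub_zero]
      linarith
  rw [cmp_im hw hw0] at g2
  rw [up_cmp H.hv1' hw0] at g2 hD
  rw [LM, ← hpl, sub_self, mul_zero, sub_zero]
  linarith

/-- The second point on its line. -/
theorem OO.Phi_ltB2 (H : OO Φ θ θ' xc xc' b b' v1 v1') (hL : GLl Φ θ θ' xc b v1 v1' μ)
    (hv : v ∈ G0 θ v1) (hv0 : 0 ≤ v.re)
    (hw0 : 0 ≤ w.re) (hw1 : w.re ≤ v1') (hwl : w.im = bl θ' w.re)
    (hne : v ≠ gdv (UU xc θ) ∨ w ≠ gdv (UU xc' θ')) :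
    (Φ (cmp v1 v) ((starRingEnd ℂ) w)).re + 49 / 50 * BP b' (gdv (UU xc' θ')) w <
      LM Φ θ θ' b b' xc xc' v1 v1' μ μ' v w := by
  have hw : w ∈ G0 θ' v1' := Or.inl ⟨by rwa [abs_of_nonneg hw0], hwl⟩
  have ec : cmp v1' w = w := if_pos hw1
  have eu : up θ' w = w := by
    apply Complex.ext
    · rw [up_re]
    · rw [up_im, hwl]
  have hp := H.pr hv hv0 hw hw0
  obtain ⟨c1, c2, c3, c4⟩ := H.crit0
  have hD := hp.D_BP H.hΦ H.ho H.hs.b0 H.hs.b0' H.hc H.hc' (H.up_ne hv hv0 hw hw0 hne)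
  have hpl := up_cmp (θ := θ') H.hv1' hw0
  rw [ec, eu] at hpl
  rw [ec] at hp hD
  rw [eu] at hD
  have n1 : 0 ≤ BP b (gdv (UU xc θ)) (up θ (cmp v1 v)) := BP_nonneg H.hθ.pos.le H.hθ.lt
    H.hs.b0.le (by rw [up_re]; exact hp.hv.re0) (by rw [up_re]; linarith [hp.hv.re1]) c1 c2
    (by rw [up_im, up_re]) (line_im_bl H.hθ.abs)
  have g1 : (Φ (cmp v1 v) ((starRingEnd ℂ) w)).re ≤
      (Φ (up θ (cmp v1 v)) ((starRingEnd ℂ) w)).re -
        μ * ((up θ (cmp v1 v)).im - (cmp v1 v).im) +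
        49 / 50 * BP b (gdv (UU xc θ)) (up θ (cmp v1 v)) := by
    rcases cmp_cases hv hv0 with h | h
    · exact hL _ _ hp h hw1 hwl
    · rw [up_self h] at n1 ⊢
      rw [sub_self, mul_zero, sub_zero]
      linarith
  rw [cmp_im hv hv0] at g1
  rw [up_cmp H.hv1 hv0] at g1 hD
  rw [LM, ← hpl, sub_self, mul_zero, sub_zero]
  linarith

/-- **Both points on their lines**: the margin of both. -/
theorem OO.Phi_ltBB (H : OO Φ θ θ' xc xc' b b' v1 v1')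
    (hv0 : 0 ≤ v.re) (hv1 : v.re ≤ v1) (hvl : v.im = bl θ v.re)
    (hw0 : 0 ≤ w.re) (hw1 : w.re ≤ v1') (hwl : w.im = bl θ' w.re)
    (hne : v ≠ gdv (UU xc θ) ∨ w ≠ gdv (UU xc' θ')) :
    (Φ v ((starRingEnd ℂ) w)).re + 49 / 50 * BP b (gdv (UU xc θ)) v +
        49 / 50 * BP b' (gdv (UU xc' θ')) w <
      LM Φ θ θ' b b' xc xc' v1 v1' μ μ' v w := by
  have hv : v ∈ G0 θ v1 := Or.inl ⟨by rwa [abs_of_nonneg hv0], hvl⟩
  have hw : w ∈ G0 θ' v1' := Or.inl ⟨by rwa [abs_of_nonneg hw0], hwl⟩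
  have ec : cmp v1 v = v := if_pos hv1
  have eu : up θ v = v := by
    apply Complex.ext
    · rw [up_re]
    · rw [up_im, hvl]
  have ec' : cmp v1' w = w := if_pos hw1
  have eu' : up θ' w = w := by
    apply Complex.ext
    · rw [up_re]
    · rw [up_im, hwl]
  have hp := H.pr hv hv0 hw hw0
  have hD := hp.D_BP H.hΦ H.ho H.hs.b0 H.hs.b0' H.hc H.hc' (H.up_ne hv hv0 hw hw0 hne)
  have hpl := up_cmp (θ := θ) H.hv1 hv0
  have hpl' := up_cmp (θ := θ') H.hv1' hw0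
  rw [ec, eu] at hpl
  rw [ec', eu'] at hpl'
  rw [ec, eu, ec', eu'] at hD
  rw [LM, ← hpl, ← hpl', sub_self, mul_zero, sub_zero, sub_self, mul_zero, sub_zero]
  linarith

/-- **The base of a slide of the first point**, a vertex with two half twists. -/
theorem OO.base1 (H : OO Φ θ θ' xc xc' b b' v1 v1') (ha' : 2 ≤ a') (ht : 1 / 3 ≤ Real.tan θ)
    (h' : VOK a' θ' (gdv (UU xc' θ')).re b' v1')
    (hv0 : 0 ≤ v.re) (hv1 : v.re ≤ v1) (hvl : v.im = bl θ v.re)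
    (hw : w ∈ G0 θ' v1') (hw0 : 0 ≤ w.re)
    (hne : v ≠ gdv (UU xc θ) ∨ w ≠ gdv (UU xc' θ')) :
    (Φ v ((starRingEnd ℂ) (cmp v1' w))).re + 49 / 50 * BP b (gdv (UU xc θ)) v <
      LM Φ θ θ' b b' xc xc' v1 v1' μ (mu b' (a' : ℝ) v1') v w := by
  obtain ⟨c1, c2, c3, c4⟩ := H.crit0
  refine H.Phi_ltB1 ?_ hv0 hv1 hvl hw hw0 hne
  by_cases e' : a' = 2
  · subst e'
    exact (GLa.l (h'.two H.hΦ.swap H.hθ' H.hs.b0'.le c3)).r H.hΦ
  · exact (h'.three_l H.hΦ.swap H.hs.b0'.le c3 c4 (by omega) ht).r H.hΦ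

/-- **The base of a slide of the second point**, a vertex with two half twists. -/
theorem OO.base2 (H : OO Φ θ θ' xc xc' b b' v1 v1') (ha : 2 ≤ a) (ht' : 1 / 3 ≤ Real.tan θ')
    (h : VOK a θ (gdv (UU xc θ)).re b v1) (hv : v ∈ G0 θ v1) (hv0 : 0 ≤ v.re)
    (hw0 : 0 ≤ w.re) (hw1 : w.re ≤ v1') (hwl : w.im = bl θ' w.re)
    (hne : v ≠ gdv (UU xc θ) ∨ w ≠ gdv (UU xc' θ')) :
    (Φ (cmp v1 v) ((starRingEnd ℂ) w)).re + 49 / 50 * BP b' (gdv (UU xc' θ')) w <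
      LM Φ θ θ' b b' xc xc' v1 v1' (mu b (a : ℝ) v1) μ' v w := by
  obtain ⟨c1, c2, c3, c4⟩ := H.crit0
  refine H.Phi_ltB2 ?_ hv hv0 hw0 hw1 hwl hne
  by_cases e : a = 2
  · subst e
    exact GLa.l (h.two H.hΦ H.hθ H.hs.b0.le c1)
  · exact h.three_l H.hΦ H.hs.b0.le c1 c2 (by omega) ht'

end

end Pool.Agent.S3.T2
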