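import Pool.Agent.S3.W2.Pair2
import Pool.Agent.S3.W.Gain

/-!
# No loss
-/

set_option autoImplicit false

namespace Pool.Agent.S3.T2

open Complex

/-- The bulge. -/
noncomputable def Bf (q X : ℝ) : ℝ := 4 * X * (1 + X) / (q + X) - (1 + 2 * X)

theorem Bf_le {q X q0 β : ℝ} (h0 : 0 < q0) (hq : q0 ≤ q) (hX : 0 ≤ X) (hβ : 0 ≤ β)
    (h : 4 * X * (1 + X) ≤ (1 + β + 2 * X) * (q0 + X)) : Bf q X ≤ β := by
  have hw : 0 < q + X := by linarith
  have h1 : 4 * X * (1 + X) / (q + X) ≤ 1 + β + 2 * X := by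
    rw [div_le_iff₀ hw]
    have := mul_le_mul_of_nonneg_left (by linarith : q0 + X ≤ q + X)
      (by linarith : 0 ≤ 1 + β + 2 * X)
    linarith
  unfold Bf
  linarith

theorem Bf_le' {q X κ : ℝ} (hq : 0 < q) (hX : 0 ≤ X) (hκ : 0 ≤ κ) (h : X ≤ κ * q) :
    (1 + κ) * Bf q X ≤ 4 * κ * (1 + X) - (1 + κ) * (1 + 2 * X) := by
  have hw : 0 < q + X := by linarith
  have h1 : (1 + κ) * (4 * X * (1 + X) / (q + X)) ≤ 4 * κ * (1 + X) := by
    rw [mul_div_assoc', div_le_iff₀ hw]
    have : (1 + κ) * X ≤ κ * (q + X) := by linarith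
    have := mul_le_mul_of_nonneg_left this (by linarith : 0 ≤ 4 * (1 + X))
    linarith
  unfold Bf
  linarith

theorem sq_lt_of {B β c : ℝ} (h0 : 0 < B) (h1 : B ≤ β) (h2 : β ^ 2 < c) : B ^ 2 < c :=
  (pow_le_pow_left₀ h0.le h1 2).trans_lt h2

/-- The critical pairs. -/
theorem nl_num_c {q X : ℝ} (hq : 38 / 100 ≤ q) (hX : 0 ≤ X) (hz : X ≤ q) :
    Bf q X ≤ 0 ∨ Bf q X ^ 2 < 8 * X * (1 + X) * (1 / (1 + 1)) := by
  rcases le_or_gt (Bf q X) 0 with h | h
  · exact Or.inl h
  right
  have hX1 : 14 / 100 < X := by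
    by_contra hc
    push Not at hc
    have := Bf_le (q0 := 38 / 100) (β := 0) (by norm_num) hq hX le_rfl (by nlinarith)
    linarith
  rcases le_total X (25 / 100) with c1 | c1
  · have := Bf_le (q0 := 38 / 100) (β := 1 / 2) (by norm_num) hq hX (by norm_num) (by nlinarith)
    exact sq_lt_of h this (by nlinarith)
  · have h1 := Bf_le' (q := q) (κ := 1) (by linarith) hX zero_le_one (by linarith)
    exact sq_lt_of h (β := 1) (by linarith) (by nlinarith)

/-- `re v ≤ 19 / 50`, both squared tangents at most `3 / 4`. -/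
theorem nl_num_a {q X : ℝ} (hq : 135 / 1000 ≤ q) (hX : 0 ≤ X) (hz : X ≤ 3 / 4 * q) :
    Bf q X ≤ 0 ∨ Bf q X ^ 2 < 8 * X * (1 + X) * (1 / (1 + 3 / 4)) := by
  rcases le_or_gt (Bf q X) 0 with h | h
  · exact Or.inl h
  right
  have hX1 : 47 / 1000 < X := by
    by_contra hc
    push Not at hc
    have := Bf_le (q0 := 135 / 1000) (β := 0) (by norm_num) hq hX le_rfl (by nlinarith)
    linarith
  rcases le_total X (75 / 1000) with c1 | c1
  · have := Bf_le (q0 := 135 / 1000) (β := 39 / 100) (by norm_num) hq hX (by norm_num)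
      (by nlinarith)
    exact sq_lt_of h this (by nlinarith)
  rcases le_total X (90 / 1000) with c2 | c2
  · have := Bf_le (q0 := 135 / 1000) (β := 57 / 100) (by norm_num) hq hX (by norm_num)
      (by nlinarith)
    exact sq_lt_of h this (by nlinarith)
  rcases le_total X (98 / 1000) with c3 | c3
  · have := Bf_le (q0 := 135 / 1000) (β := 655 / 1000) (by norm_num) hq hX (by norm_num)
      (by nlinarith)
    exact sq_lt_of h this (by nlinarith)
  · have h1 := Bf_le' (q := q) (κ := 3 / 4) (by linarith) hX (by norm_num) hz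
    exact sq_lt_of h (β := 687 / 1000) (by linarith) (by nlinarith)

/-- `re v ≤ 19 / 50`, squared tangents at most `1` and `151 / 1000`. -/
theorem nl_num_b {q X : ℝ} (hq : 135 / 1000 ≤ q) (hX : 0 ≤ X) (hz : X ≤ q) :
    Bf q X ≤ 0 ∨ Bf q X ^ 2 < 8 * X * (1 + X) * (1 / (1 + 151 / 1000)) := by
  rcases le_or_gt (Bf q X) 0 with h | h
  · exact Or.inl h
  right
  have hX1 : 47 / 1000 < X := by
    by_contra hc
    push Not at hc
    have := Bf_le (q0 := 135 / 1000) (β := 0) (by norm_num) hq hX le_rfl (by nlinarith)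
    linarith
  rcases le_total X (90 / 1000) with c1 | c1
  · have := Bf_le (q0 := 135 / 1000) (β := 57 / 100) (by norm_num) hq hX (by norm_num)
      (by nlinarith)
    exact sq_lt_of h this (by nlinarith)
  rcases le_total X (110 / 1000) with c2 | c2
  · have := Bf_le (q0 := 135 / 1000) (β := 775 / 1000) (by norm_num) hq hX (by norm_num)
      (by nlinarith)
    exact sq_lt_of h this (by nlinarith)
  rcases le_total X (125 / 1000) with c3 | c3
  · have := Bf_le (q0 := 135 / 1000) (β := 915 / 1000) (by norm_num) hq hX (by norm_num)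
      (by nlinarith)
    exact sq_lt_of h this (by nlinarith)
  rcases le_total X (130 / 1000) with c4 | c4
  · have := Bf_le (q0 := 135 / 1000) (β := 96 / 100) (by norm_num) hq hX (by norm_num)
      (by nlinarith)
    exact sq_lt_of h this (by nlinarith)
  · have h1 := Bf_le' (q := q) (κ := 1) (by linarith) hX zero_le_one (by linarith)
    exact sq_lt_of h (β := 1) (by linarith) (by nlinarith)

/-- `re v ≤ 13 / 40`, squared tangent at most `53 / 147`: always. -/
theorem nl_num_t {q X : ℝ} (hq : 27 / 100 ≤ q) (hX : 0 ≤ X) (hz : X ≤ 53 / 147 * q) :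
    Bf q X ≤ 0 := by
  rcases le_total X (9 / 100) with c | c
  · exact Bf_le (q0 := 27 / 100) (β := 0) (by norm_num) hq hX le_rfl (by nlinarith)
  · have h1 := Bf_le' (q := q) (κ := 53 / 147) (by linarith) hX (by norm_num) hz
    linarith

/-- `re v ≤ 2 / 5`, squared tangents at most `63 / 100` and `3 / 4`. -/
theorem nl_num_d {q X : ℝ} (hq : 954 / 10000 ≤ q) (hX : 0 ≤ X) (hz : X ≤ 63 / 100 * q) :
    Bf q X ≤ 0 ∨ Bf q X ^ 2 < 8 * X * (1 + X) * (1 / (1 + 3 / 4)) := by
  rcases le_or_gt (Bf q X) 0 with h | h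
  · exact Or.inl h
  right
  have hX1 : 33 / 1000 < X := by
    by_contra hc
    push Not at hc
    have := Bf_le (q0 := 954 / 10000) (β := 0) (by norm_num) hq hX le_rfl (by nlinarith)
    linarith
  rcases le_total X (48 / 1000) with c1 | c1
  · have := Bf_le (q0 := 954 / 10000) (β := 315 / 1000) (by norm_num) hq hX (by norm_num)
      (by nlinarith)
    exact sq_lt_of h this (by nlinarith)
  rcases le_total X (56 / 1000) with c2 | c2
  · have := Bf_le (q0 := 954 / 10000) (β := 455 / 1000) (by norm_num) hq hX (by norm_num)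
      (by nlinarith)
    exact sq_lt_of h this (by nlinarith)
  rcases le_total X (59 / 1000) with c3 | c3
  · have := Bf_le (q0 := 954 / 10000) (β := 505 / 1000) (by norm_num) hq hX (by norm_num)
      (by nlinarith)
    exact sq_lt_of h this (by nlinarith)
  · have h1 := Bf_le' (q := q) (κ := 63 / 100) (by linarith) hX (by norm_num) hz
    exact sq_lt_of h (β := 5195 / 10000) (by linarith) (by nlinarith)

/-- `re v ≤ 37 / 100`, squared tangents at most `81 / 100`. -/
theorem nl_num_e1 {q X : ℝ} (hq : 157 / 1000 ≤ q) (hX : 0 ≤ X) (hz : X ≤ 81 / 100 * q) :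
    Bf q X ≤ 0 ∨ Bf q X ^ 2 < 8 * X * (1 + X) * (1 / (1 + 81 / 100)) := by
  rcases le_or_gt (Bf q X) 0 with h | h
  · exact Or.inl h
  right
  have hX1 : 56 / 1000 < X := by
    by_contra hc
    push Not at hc
    have := Bf_le (q0 := 157 / 1000) (β := 0) (by norm_num) hq hX le_rfl (by nlinarith)
    linarith
  rcases le_total X (9 / 100) with c0 | c0
  · have := Bf_le (q0 := 157 / 1000) (β := 41 / 100) (by norm_num) hq hX (by norm_num)
      (by nlinarith)
    exact sq_lt_of h this (by nlinarith)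
  rcases le_total X (11 / 100) with c1 | c1
  · have := Bf_le (q0 := 157 / 1000) (β := 612 / 1000) (by norm_num) hq hX (by norm_num)
      (by nlinarith)
    exact sq_lt_of h this (by nlinarith)
  rcases le_total X (12 / 100) with c2 | c2
  · have := Bf_le (q0 := 157 / 1000) (β := 704 / 1000) (by norm_num) hq hX (by norm_num)
      (by nlinarith)
    exact sq_lt_of h this (by nlinarith)
  · have h1 := Bf_le' (q := q) (κ := 81 / 100) (by linarith) hX (by norm_num) hz
    exact sq_lt_of h (β := 765 / 1000) (by linarith) (by nlinarith)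

/-- `re v ≤ 37 / 100`, squared tangents at most `9 / 10`, `53 / 147`. -/
theorem nl_num_e2 {q X : ℝ} (hq : 157 / 1000 ≤ q) (hX : 0 ≤ X) (hz : X ≤ 9 / 10 * q) :
    Bf q X ≤ 0 ∨ Bf q X ^ 2 < 8 * X * (1 + X) * (1 / (1 + 53 / 147)) := by
  rcases le_or_gt (Bf q X) 0 with h | h
  · exact Or.inl h
  right
  have hX1 : 56 / 1000 < X := by
    by_contra hc
    push Not at hc
    have := Bf_le (q0 := 157 / 1000) (β := 0) (by norm_num) hq hX le_rfl (by nlinarith)
    linarith
  rcases le_total X (10 / 100) with c0 | c0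
  · have := Bf_le (q0 := 157 / 1000) (β := 515 / 1000) (by norm_num) hq hX (by norm_num)
      (by nlinarith)
    exact sq_lt_of h this (by nlinarith)
  rcases le_total X (12 / 100) with c1 | c1
  · have := Bf_le (q0 := 157 / 1000) (β := 704 / 1000) (by norm_num) hq hX (by norm_num)
      (by nlinarith)
    exact sq_lt_of h this (by nlinarith)
  rcases le_total X (14 / 100) with c2 | c2
  · have := Bf_le (q0 := 157 / 1000) (β := 873 / 1000) (by norm_num) hq hX (by norm_num)
      (by nlinarith)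
    exact sq_lt_of h this (by nlinarith)
  · have h1 := Bf_le' (q := q) (κ := 9 / 10) (by linarith) hX (by norm_num) hz
    exact sq_lt_of h (β := 881 / 1000) (by linarith) (by nlinarith)

/-- `re v ≤ 37 / 100`, squared tangents at most `1`, `151 / 1000`. -/
theorem nl_num_e3 {q X : ℝ} (hq : 157 / 1000 ≤ q) (hX : 0 ≤ X) (hz : X ≤ q) :
    Bf q X ≤ 0 ∨ Bf q X ^ 2 < 8 * X * (1 + X) * (1 / (1 + 151 / 1000)) := by
  rcases le_or_gt (Bf q X) 0 with h | h
  · exact Or.inl h
  right
  have hX1 : 56 / 1000 < X := by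
    by_contra hc
    push Not at hc
    have := Bf_le (q0 := 157 / 1000) (β := 0) (by norm_num) hq hX le_rfl (by nlinarith)
    linarith
  rcases le_total X (10 / 100) with c0 | c0
  · have := Bf_le (q0 := 157 / 1000) (β := 515 / 1000) (by norm_num) hq hX (by norm_num)
      (by nlinarith)
    exact sq_lt_of h this (by nlinarith)
  rcases le_total X (12 / 100) with c1 | c1
  · have := Bf_le (q0 := 157 / 1000) (β := 704 / 1000) (by norm_num) hq hX (by norm_num)
      (by nlinarith)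
    exact sq_lt_of h this (by nlinarith)
  rcases le_total X (13 / 100) with c2 | c2
  · have := Bf_le (q0 := 157 / 1000) (β := 79 / 100) (by norm_num) hq hX (by norm_num)
      (by nlinarith)
    exact sq_lt_of h this (by nlinarith)
  · have h1 := Bf_le' (q := q) (κ := 1) (by linarith) hX (by norm_num) (by linarith)
    exact sq_lt_of h (β := 1) (by linarith) (by nlinarith)

/-- `re v ≤ 7 / 20`, squared tangents at most `1`, `9 / 10`. -/
theorem nl_num_f {q X : ℝ} (hq : 206 / 1000 ≤ q) (hX : 0 ≤ X) (hz : X ≤ q) :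
    Bf q X ≤ 0 ∨ Bf q X ^ 2 < 8 * X * (1 + X) * (1 / (1 + 9 / 10)) := by
  rcases le_or_gt (Bf q X) 0 with h | h
  · exact Or.inl h
  right
  have hX1 : 75 / 1000 < X := by
    by_contra hc
    push Not at hc
    have := Bf_le (q0 := 206 / 1000) (β := 0) (by norm_num) hq hX le_rfl (by nlinarith)
    linarith
  rcases le_total X (12 / 100) with c0 | c0
  · have := Bf_le (q0 := 206 / 1000) (β := 412 / 1000) (by norm_num) hq hX (by norm_num)
      (by nlinarith)
    exact sq_lt_of h this (by nlinarith)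
  rcases le_total X (15 / 100) with c1 | c1
  · have := Bf_le (q0 := 206 / 1000) (β := 641 / 1000) (by norm_num) hq hX (by norm_num)
      (by nlinarith)
    exact sq_lt_of h this (by nlinarith)
  rcases le_total X (18 / 100) with c2 | c2
  · have := Bf_le (q0 := 206 / 1000) (β := 844 / 1000) (by norm_num) hq hX (by norm_num)
      (by nlinarith)
    exact sq_lt_of h this (by nlinarith)
  rcases le_total X (19 / 100) with c3 | c3
  · have := Bf_le (q0 := 206 / 1000) (β := 907 / 1000) (by norm_num) hq hX (by norm_num)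
      (by nlinarith)
    exact sq_lt_of h this (by nlinarith)
  rcases le_total X (20 / 100) with c4 | c4
  · have := Bf_le (q0 := 206 / 1000) (β := 968 / 1000) (by norm_num) hq hX (by norm_num)
      (by nlinarith)
    exact sq_lt_of h this (by nlinarith)
  · have h1 := Bf_le' (q := q) (κ := 1) (by linarith) hX (by norm_num) (by linarith)
    exact sq_lt_of h (β := 1) (by linarith) (by nlinarith)

section

variable {θ θ' : ℝ} {v w : ℂ}

theorem Und.bl_tan (h : Und θ v) (hθ : Ht θ) {κ : ℝ} (hκ : Real.tan θ ^ 2 ≤ κ) :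
    Real.sinh (Real.pi * v.im) ^ 2 ≤ κ * Real.cos (Real.pi * v.re) ^ 2 := by
  have h1 : Real.sinh (Real.pi * v.im) ≤ Real.tan θ * Real.cos (Real.pi * v.re) := by
    rw [← sinh_pi_bl]
    exact Real.sinh_le_sinh.2 (mul_le_mul_of_nonneg_left h.im1 Real.pi_pos.le)
  have h0 : 0 ≤ Real.sinh (Real.pi * v.im) :=
    Real.sinh_nonneg_iff.2 (mul_nonneg Real.pi_pos.le h.im0)
  have h2 := pow_le_pow_left₀ h0 h1 2
  rw [mul_pow] at h2
  exact h2.trans (mul_le_mul_of_nonneg_right hκ (sq_nonneg _))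

theorem cos_sq_anti {a b : ℝ} (h0 : 0 ≤ a) (hab : a ≤ b) (hb : b < 1 / 2) :
    Real.cos (Real.pi * b) ^ 2 ≤ Real.cos (Real.pi * a) ^ 2 := by
  have hpi := Real.pi_pos
  apply pow_le_pow_left₀ (cos_pi_pos (by rw [abs_of_nonneg (h0.trans hab)]; exact hb)).le
  apply Real.cos_le_cos_of_nonneg_of_le_pi
  · exact mul_nonneg hpi.le h0
  · nlinarith
  · exact mul_le_mul_of_nonneg_left hab hpi.le

theorem cos_sq_25 : 954 / 10000 ≤ Real.cos (Real.pi * (2 / 5)) ^ 2 := by
  have e : Real.cos (2 * (Real.pi * (2 / 5))) = -((1 + √5) / 4) := by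
    have h1 : 2 * (Real.pi * (2 / 5)) = Real.pi - Real.pi / 5 := by ring
    rw [h1, Real.cos_pi_sub, Real.cos_pi_div_five]
  have h2 : √5 ≤ 22361 / 10000 := by
    rw [Real.sqrt_le_left (by norm_num)]; norm_num
  rw [Real.cos_sq, e]
  linarith

theorem Und.cos_sq (h : Und θ v) : 954 / 10000 ≤ Real.cos (Real.pi * v.re) ^ 2 :=
  cos_sq_25.trans (cos_sq_anti h.re0 h.re1 (by norm_num))

theorem cos_sq_1950 : 135 / 1000 ≤ Real.cos (Real.pi * (19 / 50)) ^ 2 := by
  have hp1 := Real.pi_gt_d4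
  have hp2 := Real.pi_lt_d4
  obtain ⟨d, hd⟩ : ∃ d, d = Real.pi / 100 := ⟨_, rfl⟩
  have hd1 : 0 < d := by rw [hd]; positivity
  have hd2 : d ≤ 31417 / 1000000 := by rw [hd]; linarith
  have e : Real.cos (2 * (Real.pi * (19 / 50))) = -(√2 / 2 * (Real.cos d + Real.sin d)) := by
    have h1 : 2 * (Real.pi * (19 / 50)) = (Real.pi / 4 + d) + Real.pi / 2 := by rw [hd]; ring
    rw [h1, Real.cos_add_pi_div_two, Real.sin_add, Real.cos_pi_div_four, Real.sin_pi_div_four]
    ring
  have hs : Real.sin d ≤ d := Real.sin_le hd1.le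
  have hc : Real.cos d ≤ 1 := Real.cos_le_one d
  have h2 : √2 / 2 ≤ 70711 / 100000 := by
    have : √2 ≤ 141422 / 100000 := by
      rw [Real.sqrt_le_left (by norm_num)]; norm_num
    linarith
  have h3 : 0 ≤ √2 / 2 := by positivity
  have h4 : √2 / 2 * (Real.cos d + Real.sin d) ≤ 70711 / 100000 * (1 + 31417 / 1000000) := by
    have h5 : 0 ≤ Real.cos d + Real.sin d := by
      have := Real.cos_nonneg_of_mem_Icc (x := d) ⟨by linarith, by linarith⟩
      have := Real.sin_nonneg_of_nonneg_of_le_pi hd1.le (by linarith)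
      linarith
    exact mul_le_mul h2 (by linarith) h5 (by norm_num)
  rw [Real.cos_sq, e]
  norm_num at h4 ⊢
  linarith

theorem cos_sq_37 : 157 / 1000 ≤ Real.cos (Real.pi * (37 / 100)) ^ 2 := by
  have hp1 := Real.pi_gt_d4
  have hp2 := Real.pi_lt_d4
  obtain ⟨d, hd⟩ : ∃ d, d = Real.pi / 100 := ⟨_, rfl⟩
  have hd1 : 314 / 10000 ≤ d := by rw [hd]; linarith
  have hd2 : d ≤ 315 / 10000 := by rw [hd]; linarith
  have e : Real.cos (2 * (Real.pi * (37 / 100))) = -(√2 / 2 * (Real.cos d - Real.sin d)) := by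
    have h1 : 2 * (Real.pi * (37 / 100)) = (Real.pi / 4 - d) + Real.pi / 2 := by rw [hd]; ring
    rw [h1, Real.cos_add_pi_div_two, Real.sin_sub, Real.cos_pi_div_four, Real.sin_pi_div_four]
    ring
  have hs : d - d ^ 3 / 6 ≤ Real.sin d := (Real.sin_gt_sub_cube (by linarith)).le
  have hc : Real.cos d ≤ 1 := Real.cos_le_one d
  have h2 : √2 / 2 ≤ 70711 / 100000 := by
    have : √2 ≤ 141422 / 100000 := by
      rw [Real.sqrt_le_left (by norm_num)]; norm_num
    linarith
  have h3 : 0 ≤ √2 / 2 := by positivity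
  have h4 : Real.cos d - Real.sin d ≤ 9687 / 10000 := by
    have g3 : d ^ 3 ≤ (315 / 10000) ^ 3 := pow_le_pow_left₀ (by linarith) hd2 3
    norm_num at g3
    linarith
  have h5 : √2 / 2 * (Real.cos d - Real.sin d) ≤ 70711 / 100000 * (9687 / 10000) := by
    rcases le_total 0 (Real.cos d - Real.sin d) with h6 | h6
    · exact mul_le_mul h2 h4 h6 (by norm_num)
    · have := mul_nonpos_of_nonneg_of_nonpos h3 h6
      norm_num
      linarith
  rw [Real.cos_sq, e]
  norm_num at h5 ⊢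
  linarith

theorem cos_sq_35 : 206 / 1000 ≤ Real.cos (Real.pi * (7 / 20)) ^ 2 := by
  have e : Real.cos (2 * (Real.pi * (7 / 20))) = -Real.sin (Real.pi / 5) := by
    have h1 : 2 * (Real.pi * (7 / 20)) = Real.pi / 5 + Real.pi / 2 := by ring
    rw [h1, Real.cos_add_pi_div_two]
  have h1 := Real.sin_sq_add_cos_sq (Real.pi / 5)
  rw [Real.cos_pi_div_five] at h1
  have h5 : (223405 / 100000 : ℝ) ≤ √5 := Real.le_sqrt_of_sq_le (by norm_num)
  have h6 := Real.sq_sqrt (show (0 : ℝ) ≤ 5 by norm_num)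
  have h2 : Real.sin (Real.pi / 5) ≤ 588 / 1000 := by
    by_contra hc
    push Not at hc
    nlinarith
  rw [Real.cos_sq, e]
  linarith

theorem cos_sq_27 : 38 / 100 ≤ Real.cos (Real.pi * (2 / 7)) ^ 2 := by
  have hp2 := Real.pi_lt_d4
  have e : Real.cos (2 * (Real.pi * (2 / 7))) = -Real.sin (Real.pi / 14) := by
    have h1 : 2 * (Real.pi * (2 / 7)) = Real.pi / 14 + Real.pi / 2 := by ring
    rw [h1, Real.cos_add_pi_div_two]
  have hs : Real.sin (Real.pi / 14) ≤ Real.pi / 14 := Real.sin_le (by positivity)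
  rw [Real.cos_sq, e]
  linarith

/-- No loss: `re v ≤ 19 / 50`, both squared tangents at most `3 / 4`. -/
theorem Pr.nl_a (h : Pr θ θ' v w) (hre : v.re ≤ 19 / 50) (h1 : Real.tan θ ^ 2 ≤ 3 / 4)
    (h2 : Real.tan θ' ^ 2 ≤ 3 / 4) : NL v w := by
  apply h.nl_of (κ := 3 / 4) (by norm_num) (by norm_num) h2
  exact nl_num_a (cos_sq_1950.trans (cos_sq_anti h.hv.re0 hre (by norm_num))) (sq_nonneg _)
    (h.hv.bl_tan h.hθ h1)

/-- No loss: squared tangents at most `63 / 100` and `3 / 4`. -/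
theorem Pr.nl_d (h : Pr θ θ' v w) (h1 : Real.tan θ ^ 2 ≤ 63 / 100)
    (h2 : Real.tan θ' ^ 2 ≤ 3 / 4) : NL v w := by
  apply h.nl_of (κ := 3 / 4) (by norm_num) (by norm_num) h2
  exact nl_num_d h.hv.cos_sq (sq_nonneg _) (h.hv.bl_tan h.hθ h1)

/-- No loss: `re v ≤ 19 / 50`, the squared tangent of the other vertex at most `151 / 1000`. -/
theorem Pr.nl_b (h : Pr θ θ' v w) (hre : v.re ≤ 19 / 50)
    (h2 : Real.tan θ' ^ 2 ≤ 151 / 1000) : NL v w := by
  apply h.nl_of (κ := 151 / 1000) (by norm_num) (by norm_num) h2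
  exact nl_num_b (cos_sq_1950.trans (cos_sq_anti h.hv.re0 hre (by norm_num))) (sq_nonneg _)
    (h.hv.bl_sinh h.hθ)

/-- No loss: a vertex with at least three half twists. -/
theorem Pr.nl_t (h : Pr θ θ' v w) (hre : v.re ≤ 13 / 40) (h1 : Real.tan θ ^ 2 ≤ 53 / 147) :
    NL v w := by
  apply h.nl_of (κ := 1) (by norm_num) (by norm_num) h.hθ'.tan
  left
  have hq : 27 / 100 ≤ Real.cos (Real.pi * v.re) ^ 2 :=
    (by linarith [cos_sq_v1.1] : 27 / 100 ≤ Real.cos (Real.pi * (13 / 40)) ^ 2).trans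
      (cos_sq_anti h.hv.re0 hre (by norm_num))
  exact nl_num_t hq (sq_nonneg _) (h.hv.bl_tan h.hθ h1)

/-- No loss: `re v ≤ 2 / 7`. -/
theorem Pr.nl_c (h : Pr θ θ' v w) (hre : v.re ≤ 2 / 7) : NL v w := by
  apply h.nl_of (κ := 1) (by norm_num) (by norm_num) h.hθ'.tan
  exact nl_num_c (cos_sq_27.trans (cos_sq_anti h.hv.re0 hre (by norm_num))) (sq_nonneg _)
    (h.hv.bl_sinh h.hθ)

/-- No loss: `re v ≤ 37 / 100`, both squared tangents at most `81 / 100`. -/
theorem Pr.nl_e1 (h : Pr θ θ' v w) (hre : v.re ≤ 37 / 100) (h1 : Real.tan θ ^ 2 ≤ 81 / 100)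
    (h2 : Real.tan θ' ^ 2 ≤ 81 / 100) : NL v w := by
  apply h.nl_of (κ := 81 / 100) (by norm_num) (by norm_num) h2
  exact nl_num_e1 (cos_sq_37.trans (cos_sq_anti h.hv.re0 hre (by norm_num))) (sq_nonneg _)
    (h.hv.bl_tan h.hθ h1)

/-- No loss: `re v ≤ 37 / 100`, squared tangents at most `9 / 10`, `53 / 147`. -/
theorem Pr.nl_e2 (h : Pr θ θ' v w) (hre : v.re ≤ 37 / 100) (h1 : Real.tan θ ^ 2 ≤ 9 / 10)
    (h2 : Real.tan θ' ^ 2 ≤ 53 / 147) : NL v w := by
  apply h.nl_of (κ := 53 / 147) (by norm_num) (by norm_num) h2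
  exact nl_num_e2 (cos_sq_37.trans (cos_sq_anti h.hv.re0 hre (by norm_num))) (sq_nonneg _)
    (h.hv.bl_tan h.hθ h1)

/-- No loss: `re v ≤ 37 / 100`, the squared tangent of the other vertex at most `151 / 1000`. -/
theorem Pr.nl_e3 (h : Pr θ θ' v w) (hre : v.re ≤ 37 / 100)
    (h2 : Real.tan θ' ^ 2 ≤ 151 / 1000) : NL v w := by
  apply h.nl_of (κ := 151 / 1000) (by norm_num) (by norm_num) h2
  exact nl_num_e3 (cos_sq_37.trans (cos_sq_anti h.hv.re0 hre (by norm_num))) (sq_nonneg _)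
    (h.hv.bl_sinh h.hθ)

/-- No loss: `re v ≤ 7 / 20`, the squared tangent of the other vertex at most `9 / 10`. -/
theorem Pr.nl_f (h : Pr θ θ' v w) (hre : v.re ≤ 7 / 20)
    (h2 : Real.tan θ' ^ 2 ≤ 9 / 10) : NL v w := by
  apply h.nl_of (κ := 9 / 10) (by norm_num) (by norm_num) h2
  exact nl_num_f (cos_sq_35.trans (cos_sq_anti h.hv.re0 hre (by norm_num))) (sq_nonneg _)
    (h.hv.bl_sinh h.hθ)

end

end Pool.Agent.S3.T2
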