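import Pool.Agent.S3.FeL

/-!
# Sliding a flat

A maximum principle on rectangles: the maximum over a horizontal line of the growth function of an
edge decreases along a path of (height, vertex) if it does so to first order at the critical points
of the line.
-/

namespace Pool.Agent.S3

open Complex Set

/-- The rectangle principle. -/
theorem rect {F : ℝ → ℝ → ℝ} {t0 t1 a0 a1 : ℝ}
    (hc : ContinuousOn (fun p : ℝ × ℝ => F p.1 p.2) (Icc t0 t1 ×ˢ Icc a0 a1))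
    (h0 : ∀ t ∈ Icc t0 t1, F t a0 < 0)
    (hd : ∀ a ∈ Ioc a0 a1, ∀ t ∈ Icc t0 t1, (∀ s ∈ Icc t0 t1, F s a ≤ F t a) → F t a = 0 →
      ∃ d : ℝ, d < 0 ∧ HasDerivAt (F t) d a) :
    ∀ a ∈ Icc a0 a1, ∀ t ∈ Icc t0 t1, F t a < 0 := by
  by_contra hcon
  push Not at hcon
  obtain ⟨a2, ha2, t2, ht2, hF2⟩ := hcon
  set K : Set (ℝ × ℝ) := (Icc t0 t1 ×ˢ Icc a0 a1) ∩ (fun p : ℝ × ℝ => F p.1 p.2) ⁻¹' (Ici 0) with hK
  have hcomp : IsCompact (Icc t0 t1 ×ˢ Icc a0 a1 : Set (ℝ × ℝ)) := isCompact_Icc.prod isCompact_Icc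
  have hKc : IsCompact K := by
    have : IsClosed K := hc.preimage_isClosed_of_isClosed hcomp.isClosed isClosed_Ici
    exact hcomp.of_isClosed_subset this inter_subset_left
  have hKn : K.Nonempty := ⟨(t2, a2), ⟨⟨ht2, ha2⟩, hF2⟩⟩
  obtain ⟨p, hp, hpm⟩ := hKc.exists_isMinOn hKn (continuous_snd.continuousOn)
  obtain ⟨⟨hpt, hpa⟩, hpF⟩ := hp
  have hmin : ∀ a ∈ Icc a0 a1, a < p.2 → ∀ t ∈ Icc t0 t1, F t a < 0 := by
    intro a haa hlt t htt
    by_contra hge
    push Not at hge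
    have h9 : p.2 ≤ a := isMinOn_iff.1 hpm (t, a) ⟨⟨htt, haa⟩, hge⟩
    exact absurd hlt (not_lt.2 h9)
  have hpa0 : a0 < p.2 := by
    rcases lt_or_eq_of_le hpa.1 with h | h
    · exact h
    · exfalso
      have := h0 p.1 hpt
      rw [h] at this
      exact absurd this (not_lt.2 hpF)
  -- at the first time all values are `≤ 0`
  have hle : ∀ s ∈ Icc t0 t1, F s p.2 ≤ 0 := by
    intro s hs
    have hcs : ContinuousWithinAt (fun a => F s a) (Icc a0 a1) p.2 := by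
      have h1 : ContinuousOn (fun a : ℝ => F s a) (Icc a0 a1) := by
        have h2 : ContinuousOn (fun a : ℝ => ((s, a) : ℝ × ℝ)) (Icc a0 a1) := by fun_prop
        exact hc.comp h2 (fun a haa => ⟨hs, haa⟩)
      exact h1 p.2 hpa
    have hcs' : ContinuousWithinAt (fun a => F s a) (Ico a0 p.2) p.2 :=
      hcs.mono (fun x hx => ⟨hx.1, hx.2.le.trans hpa.2⟩)
    have : (nhdsWithin p.2 (Ico a0 p.2)).NeBot := by
      rw [← mem_closure_iff_nhdsWithin_neBot, closure_Ico hpa0.ne]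
      exact right_mem_Icc.2 hpa0.le
    refine le_of_tendsto hcs' ?_
    filter_upwards [self_mem_nhdsWithin] with x hx
    exact (hmin x ⟨hx.1, hx.2.le.trans hpa.2⟩ hx.2 s hs).le
  have hFp : F p.1 p.2 = 0 := le_antisymm (hle p.1 hpt) hpF
  obtain ⟨d, hd0, hder⟩ := hd p.2 ⟨hpa0, hpa.2⟩ p.1 hpt (fun s hs => by rw [hFp]; exact hle s hs) hFp
  -- the derivative is `≥ 0`
  have h1 : HasDerivWithinAt (F p.1) d (Iio p.2) p.2 := hder.hasDerivWithinAt
  rw [hasDerivWithinAt_iff_tendsto_slope' (by simp)] at h1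
  have h2 : 0 ≤ d := by
    refine ge_of_tendsto h1 ?_
    have h3 : ∀ᶠ x in nhdsWithin p.2 (Iio p.2), x ∈ Ioo a0 p.2 := Ioo_mem_nhdsLT hpa0
    filter_upwards [h3] with x hx
    rw [slope_def_field, hFp, sub_zero]
    have h4 := hmin x ⟨hx.1.le, hx.2.le.trans hpa.2⟩ hx.2 p.1 hpt
    have h5 : x - p.2 < 0 := by linarith [hx.2]
    exact (div_pos_of_neg_of_neg h4 h5).le
  linarith

/-- The derivative of `Rf` along a curve. -/
theorem Rf_curve {z : ℝ → ℂ} {z' : ℂ} {s : ℝ} (hz : HasDerivAt z z' s) (hf : fdom (z s)) :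
    HasDerivAt (fun s => Rf (z s)) (he (z s) * z').re s := by
  have h1 : HasDerivAt (fun s => fe (z s)) (z' • he (z s)) s :=
    HasDerivAt.scomp (g₁ := fe) (h := z) s (fe_hasDerivAt hf) hz
  have h2 := Complex.reCLM.hasFDerivAt.comp_hasDerivAt s h1
  have h3 : ∀ᶠ x in nhds s, fdom (z x) := hz.continuousAt.eventually (fdom_open.mem_nhds hf)
  have h4 : (fun x => Rf (z x)) =ᶠ[nhds s] (fun x => Complex.reCLM (fe (z x))) := by
    filter_upwards [h3] with x hx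
    rw [Rf_eq_re_fe hx]
    rfl
  refine (HasDerivAt.congr_of_eventuallyEq (h2.congr_deriv ?_) h4)
  show (z' * he (z s)).re = _
  rw [mul_comm]

/-- The derivative of the growth function of an edge with respect to the height variable. -/
noncomputable def eY (y v w : ℂ) : ℂ :=
  4 * he (y + 1 / 2) - he (y - v) - he (y + v) - he (y - w) - he (y + w)

/-- The derivative of `EE` along a path of `(y, v)`. -/
theorem EE_curve {y v : ℝ → ℂ} {y' v' w : ℂ} {s : ℝ} (hy : HasDerivAt y y' s)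
    (hv : HasDerivAt v v' s) (h1 : fdom (y s + 1 / 2)) (h2 : fdom (y s - v s))
    (h3 : fdom (y s + v s)) (h4 : fdom (y s - w)) (h5 : fdom (y s + w)) :
    HasDerivAt (fun s => EE (.op (v s)) (.op w) (y s))
      (eY (y s) (v s) w * y' + (he (y s - v s) - he (y s + v s)) * v').re s := by
  have d1 := Rf_curve (hy.add_const (1 / 2)) h1
  have d2 := Rf_curve (hy.sub hv) h2
  have d3 := Rf_curve (hy.add hv) h3
  have d4 := Rf_curve (hy.sub_const w) h4
  have d5 := Rf_curve (hy.add_const w) h5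
  have := (((d1.const_mul 2).sub d2).sub d3).add (((d1.const_mul 2).sub d4).sub d5)
  refine this.congr_deriv ?_
  simp only [eY, mul_re, add_re, sub_re, add_im, sub_im, mul_im, re_ofNat, im_ofNat, Pi.sub_apply,
    Pi.add_apply]
  ring

/-- The product of the four denominators. -/
noncomputable def gPd (y v w : ℂ) : ℝ :=
  ‖sin (Real.pi * (y - v))‖ * ‖sin (Real.pi * (y + v))‖ *
    (‖sin (Real.pi * (y - w))‖ * ‖sin (Real.pi * (y + w))‖)

theorem re_eY {y v w : ℂ} (h1 : fdom (y + 1 / 2)) (h2 : fdom (y - v))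
    (h3 : fdom (y + v)) (h4 : fdom (y - w)) (h5 : fdom (y + w)) :
    (eY y v w).re = Real.log (‖cos (Real.pi * y)‖ ^ 4) - Real.log (gPd y v w) := by
  have s1 := Pot_sin_ne h1
  have s2 := Pot_sin_ne h2
  have s3 := Pot_sin_ne h3
  have s4 := Pot_sin_ne h4
  have s5 := Pot_sin_ne h5
  have e1 : sin (Real.pi * (y + 1 / 2)) = cos (Real.pi * y) := by
    rw [show (Real.pi : ℂ) * (y + 1 / 2) = Real.pi * y + Real.pi / 2 by ring, sin_add_pi_div_two]
  have k : ∀ z : ℂ, sin (Real.pi * z) ≠ 0 → Real.log ‖2 * sin (Real.pi * z)‖ =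
      Real.log 2 + Real.log ‖sin (Real.pi * z)‖ := by
    intro z hz
    rw [norm_mul, Real.log_mul (by simp) (by simpa using hz)]
    simp
  have e2 : (eY y v w).re = 4 * (he (y + 1 / 2)).re - (he (y - v)).re - (he (y + v)).re
      - (he (y - w)).re - (he (y + w)).re := by
    simp [eY]
  rw [e2, re_he h1, re_he h2, re_he h3, re_he h4, re_he h5, k _ s1, k _ s2, k _ s3, k _ s4, k _ s5, gPd,
    Real.log_mul (by simp [s2, s3]) (by simp [s4, s5]), Real.log_mul (by simpa using s2) (by simpa using s3),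
    Real.log_mul (by simpa using s4) (by simpa using s5), Real.log_pow, e1]
  push_cast
  ring

theorem gPd_pos {y v w : ℂ} (h2 : fdom (y - v))
    (h3 : fdom (y + v)) (h4 : fdom (y - w)) (h5 : fdom (y + w)) : 0 < gPd y v w := by
  have s2 := Pot_sin_ne h2
  have s3 := Pot_sin_ne h3
  have s4 := Pot_sin_ne h4
  have s5 := Pot_sin_ne h5
  unfold gPd
  positivity

theorem EE_continuous_line (v w : ℂ) (h : ℝ) :
    Continuous (fun s : ℝ => EE (.op v) (.op w) ((s : ℂ) + (h : ℂ) * I)) := by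
  have r : ∀ {g : ℝ → ℂ}, Continuous g → Continuous (fun p => Rf (g p)) := fun hg =>
    Rf_continuous.comp hg
  have cy : Continuous (fun s : ℝ => (s : ℂ) + (h : ℂ) * I) := by fun_prop
  have := ((((r (cy.add (continuous_const (y := (1 / 2 : ℂ))))).const_mul 2).sub
    (r (cy.sub (continuous_const (y := v))))).sub (r (cy.add (continuous_const (y := v))))).add
    ((((r (cy.add (continuous_const (y := (1 / 2 : ℂ))))).const_mul 2).sub
    (r (cy.sub (continuous_const (y := w))))).sub (r (cy.add (continuous_const (y := w)))))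
  exact this

theorem EE_continuous_path {w : ℂ} {A : Set ℝ} {v : ℝ → ℂ} {h : ℝ → ℝ} {t0 t1 : ℝ}
    (hv : ContinuousOn v A) (hh : ContinuousOn h A) :
    ContinuousOn (fun p : ℝ × ℝ => EE (.op (v p.2)) (.op w) ((p.1 : ℂ) + (h p.2 : ℂ) * I))
      (Icc t0 t1 ×ˢ A) := by
  have c1 : ContinuousOn (fun p : ℝ × ℝ => v p.2) (Icc t0 t1 ×ˢ A) :=
    hv.comp continuousOn_snd (fun p hp => hp.2)
  have c2 : ContinuousOn (fun p : ℝ × ℝ => ((h p.2 : ℝ) : ℂ)) (Icc t0 t1 ×ˢ A) :=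
    continuous_ofReal.comp_continuousOn (hh.comp continuousOn_snd (fun p hp => hp.2))
  have c3 : ContinuousOn (fun p : ℝ × ℝ => ((p.1 : ℝ) : ℂ)) (Icc t0 t1 ×ˢ A) :=
    continuous_ofReal.comp_continuousOn continuousOn_fst
  have cy := c3.add (c2.mul_const I)
  have r : ∀ {g : ℝ × ℝ → ℂ}, ContinuousOn g (Icc t0 t1 ×ˢ A) →
      ContinuousOn (fun p => Rf (g p)) (Icc t0 t1 ×ˢ A) := fun hg =>
    Rf_continuous.comp_continuousOn hg
  have := ((((r (cy.add (continuousOn_const (c := (1 / 2 : ℂ))))).const_mul 2).sub (r (cy.sub c1))).sub (r (cy.add c1))).add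
    ((((r (cy.add (continuousOn_const (c := (1 / 2 : ℂ))))).const_mul 2).sub (r (cy.sub (continuousOn_const (c := w))))).sub (r (cy.add (continuousOn_const (c := w)))))
  exact this

/-- **Sliding.** -/
theorem slide {v : ℝ → ℂ} {v' : ℝ → ℂ} {h h' l l' : ℝ → ℝ} {w : ℂ} {a0 a1 tL : ℝ} (htL : 0 < tL)
    (htL' : tL < 1 / 2)
    (hvc : ContinuousOn v (Icc a0 a1)) (hhc : ContinuousOn h (Icc a0 a1))
    (hlc : ContinuousOn l (Icc a0 a1))
    (hv : ∀ a ∈ Ioc a0 a1, HasDerivAt v (v' a) a) (hh : ∀ a ∈ Ioc a0 a1, HasDerivAt h (h' a) a)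
    (hl : ∀ a ∈ Ioc a0 a1, HasDerivAt l (l' a) a)
    (h0 : ∀ a ∈ Ioc a0 a1, h a ≠ 0)
    (hf : ∀ a ∈ Ioc a0 a1, ∀ t ∈ Ioc (0 : ℝ) (1 / 2), fdom ((t : ℂ) + (h a : ℂ) * I - v a) ∧
      fdom ((t : ℂ) + (h a : ℂ) * I + v a) ∧ fdom ((t : ℂ) + (h a : ℂ) * I - w) ∧
      fdom ((t : ℂ) + (h a : ℂ) * I + w))
    (hbase : ∀ t ∈ Icc (0 : ℝ) (1 / 2),
      EE (.op (v a0)) (.op w) ((t : ℂ) + (h a0 : ℂ) * I) < l a0)
    (hlow : ∀ a ∈ Ioc a0 a1, ∀ t ∈ Ioo (0 : ℝ) tL, gPd ((t : ℂ) + (h a : ℂ) * I) (v a) w <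
      ‖cos (Real.pi * ((t : ℂ) + (h a : ℂ) * I))‖ ^ 4)
    (hend : ∀ a ∈ Ioc a0 a1, ‖cos (Real.pi * (((1 / 2 : ℝ) : ℂ) + (h a : ℂ) * I))‖ ^ 4 <
      gPd (((1 / 2 : ℝ) : ℂ) + (h a : ℂ) * I) (v a) w)
    (hcrit : ∀ a ∈ Ioc a0 a1, ∀ t ∈ Ico tL (1 / 2), gPd ((t : ℂ) + (h a : ℂ) * I) (v a) w =
      ‖cos (Real.pi * ((t : ℂ) + (h a : ℂ) * I))‖ ^ 4 →
      (∀ s ∈ Icc (0 : ℝ) (1 / 2), EE (.op (v a)) (.op w) ((s : ℂ) + (h a : ℂ) * I) ≤
        EE (.op (v a)) (.op w) ((t : ℂ) + (h a : ℂ) * I)) →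
      (eY ((t : ℂ) + (h a : ℂ) * I) (v a) w * ((h' a : ℂ) * I) +
        (he ((t : ℂ) + (h a : ℂ) * I - v a) - he ((t : ℂ) + (h a : ℂ) * I + v a)) * v' a).re < l' a) :
    ∀ a ∈ Icc a0 a1, ∀ t ∈ Icc (0 : ℝ) (1 / 2),
      EE (.op (v a)) (.op w) ((t : ℂ) + (h a : ℂ) * I) < l a := by
  have key := rect (F := fun t a => EE (.op (v a)) (.op w) ((t : ℂ) + (h a : ℂ) * I) - l a)
    (t0 := 0) (t1 := 1 / 2) (a0 := a0) (a1 := a1) ?_ ?_ ?_
  · intro a ha t ht
    have := key a ha t ht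
    linarith
  · have h1 := EE_continuous_path (w := w) (t0 := 0) (t1 := 1 / 2) hvc hhc
    have h2 : ContinuousOn (fun p : ℝ × ℝ => l p.2) (Icc (0 : ℝ) (1 / 2) ×ˢ Icc a0 a1) :=
      hlc.comp continuousOn_snd (fun p hp => hp.2)
    exact h1.sub h2
  · intro t ht
    have := hbase t ht
    linarith
  · intro a ha t ht hmax _
    have hmax' : ∀ s ∈ Icc (0 : ℝ) (1 / 2), EE (.op (v a)) (.op w) ((s : ℂ) + (h a : ℂ) * I) ≤
        EE (.op (v a)) (.op w) ((t : ℂ) + (h a : ℂ) * I) := by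
      intro s hs
      have := hmax s hs
      linarith
    -- derivative in `t`
    have hyd : ∀ s : ℝ, HasDerivAt (fun s : ℝ => (s : ℂ) + (h a : ℂ) * I) 1 s := by
      intro s
      exact (HasDerivAt.ofReal_comp (hasDerivAt_id s)).add_const _
    have hy1 : ∀ s : ℝ, fdom ((s : ℂ) + (h a : ℂ) * I + 1 / 2) := by
      intro s
      left
      have e : ((s : ℂ) + (h a : ℂ) * I + 1 / 2).im = h a := by simp
      rw [e]
      exact h0 a ha
    have hder : ∀ s ∈ Ioc (0 : ℝ) (1 / 2), HasDerivAt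
        (fun s : ℝ => EE (.op (v a)) (.op w) ((s : ℂ) + (h a : ℂ) * I))
        (eY ((s : ℂ) + (h a : ℂ) * I) (v a) w).re s := by
      intro s hs
      obtain ⟨f1, f2, f3, f4⟩ := hf a ha s hs
      have := EE_curve (y := fun s : ℝ => (s : ℂ) + (h a : ℂ) * I) (v := fun _ => v a) (w := w)
        (hyd s) (hasDerivAt_const s (v a)) (hy1 s) f1 f2 f3 f4
      refine this.congr_deriv ?_
      rw [mul_one, mul_zero, add_zero]
    have hsgn : ∀ s ∈ Ioc (0 : ℝ) (1 / 2), (eY ((s : ℂ) + (h a : ℂ) * I) (v a) w).re =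
        Real.log (‖cos (Real.pi * ((s : ℂ) + (h a : ℂ) * I))‖ ^ 4)
          - Real.log (gPd ((s : ℂ) + (h a : ℂ) * I) (v a) w) := by
      intro s hs
      obtain ⟨f1, f2, f3, f4⟩ := hf a ha s hs
      exact re_eY (hy1 s) f1 f2 f3 f4
    have hcp : ∀ s : ℝ, 0 < ‖cos (Real.pi * ((s : ℂ) + (h a : ℂ) * I))‖ ^ 4 := by
      intro s
      have s1 := Pot_sin_ne (hy1 s)
      have e1 : sin (Real.pi * ((s : ℂ) + (h a : ℂ) * I + 1 / 2)) =
          cos (Real.pi * ((s : ℂ) + (h a : ℂ) * I)) := by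
        rw [show (Real.pi : ℂ) * ((s : ℂ) + (h a : ℂ) * I + 1 / 2) =
          Real.pi * ((s : ℂ) + (h a : ℂ) * I) + Real.pi / 2 by ring, sin_add_pi_div_two]
      rw [e1] at s1
      positivity
    have hgp : ∀ s ∈ Ioc (0 : ℝ) (1 / 2), 0 < gPd ((s : ℂ) + (h a : ℂ) * I) (v a) w := by
      intro s hs
      obtain ⟨f1, f2, f3, f4⟩ := hf a ha s hs
      exact gPd_pos f1 f2 f3 f4
    -- `t ≥ tL`
    have ht1 : tL ≤ t := by
      by_contra hlt
      push Not at hlt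
      have hmono : StrictMonoOn (fun s : ℝ => EE (.op (v a)) (.op w) ((s : ℂ) + (h a : ℂ) * I))
          (Icc 0 tL) := by
        apply strictMonoOn_of_deriv_pos (convex_Icc 0 tL)
        · exact (EE_continuous_line (v a) w (h a)).continuousOn
        · intro s hs
          rw [interior_Icc] at hs
          have hs' : s ∈ Ioc (0 : ℝ) (1 / 2) := ⟨hs.1, (hs.2.trans htL').le⟩
          rw [(hder s hs').deriv, hsgn s hs', sub_pos]
          exact Real.log_lt_log (hgp s hs') (hlow a ha s hs)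
      have h3 := hmono ⟨ht.1, hlt.le⟩ ⟨htL.le, le_refl _⟩ hlt
      exact absurd (hmax' tL ⟨htL.le, htL'.le⟩) (not_le.2 h3)
    -- `t < 1 / 2`
    have ht0 : 0 < t := lt_of_lt_of_le htL ht1
    have ht2 : t < 1 / 2 := by
      rcases lt_or_eq_of_le ht.2 with h3 | h3
      · exact h3
      · exfalso
        have hs' : (1 / 2 : ℝ) ∈ Ioc (0 : ℝ) (1 / 2) := ⟨by norm_num, le_refl _⟩
        have hd := hder (1 / 2) hs'
        have hneg : (eY (((1 / 2 : ℝ) : ℂ) + (h a : ℂ) * I) (v a) w).re < 0 := by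
          rw [hsgn (1 / 2) hs', sub_neg]
          exact Real.log_lt_log (hcp _) (hend a ha)
        have h4 : HasDerivWithinAt
            (fun s : ℝ => EE (.op (v a)) (.op w) ((s : ℂ) + (h a : ℂ) * I)) _ (Iio (1 / 2)) (1 / 2) :=
          hd.hasDerivWithinAt
        rw [hasDerivWithinAt_iff_tendsto_slope' (by simp)] at h4
        have h5 : 0 ≤ (eY (((1 / 2 : ℝ) : ℂ) + (h a : ℂ) * I) (v a) w).re := by
          refine ge_of_tendsto h4 ?_
          have h6 : ∀ᶠ x in nhdsWithin (1 / 2 : ℝ) (Iio (1 / 2)), x ∈ Ioo (0 : ℝ) (1 / 2) :=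
            Ioo_mem_nhdsLT (by norm_num)
          filter_upwards [h6] with x hx
          rw [slope_def_field]
          have h7 := hmax' x ⟨hx.1.le, hx.2.le⟩
          rw [h3] at h7
          have h8 : x - 1 / 2 < 0 := by linarith [hx.2]
          exact div_nonneg_of_nonpos (by linarith) h8.le
        linarith
    have hts : t ∈ Ioc (0 : ℝ) (1 / 2) := ⟨ht0, ht2.le⟩
    -- critical point
    have hcr : (eY ((t : ℂ) + (h a : ℂ) * I) (v a) w).re = 0 := by
      have hloc : IsLocalMax (fun s : ℝ => EE (.op (v a)) (.op w) ((s : ℂ) + (h a : ℂ) * I)) t := by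
        have : Ioo (0 : ℝ) (1 / 2) ∈ nhds t := Ioo_mem_nhds ht0 ht2
        filter_upwards [this] with s hs
        exact hmax' s ⟨hs.1.le, hs.2.le⟩
      exact hloc.hasDerivAt_eq_zero (hder t hts)
    have hg : gPd ((t : ℂ) + (h a : ℂ) * I) (v a) w =
        ‖cos (Real.pi * ((t : ℂ) + (h a : ℂ) * I))‖ ^ 4 := by
      rw [hsgn t hts, sub_eq_zero] at hcr
      exact (Real.log_injOn_pos (hcp t) (hgp t hts) hcr).symm
    have hfin := hcrit a ha t ⟨ht1, ht2⟩ hg hmax'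
    obtain ⟨f1, f2, f3, f4⟩ := hf a ha t hts
    have hyy : HasDerivAt (fun a : ℝ => (t : ℂ) + (h a : ℂ) * I) ((h' a : ℂ) * I) a := by
      have := ((hh a ha).ofReal_comp.mul_const I).const_add (t : ℂ)
      exact this
    have hE := EE_curve (y := fun a : ℝ => (t : ℂ) + (h a : ℂ) * I) (v := v) (w := w) hyy (hv a ha)
      (hy1 t) f1 f2 f3 f4
    exact ⟨_, by linarith, hE.sub (hl a ha)⟩

end Pool.Agent.S3
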