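import Pool.Agent.S3.W2.BPart
import Pool.Agent.S3.W2.NL
import Pool.Agent.S3.W2.Slide

/-!
# Sliding a flat along the line of a vertex

The derivatives along the `u`-line of a vertex, the behaviour of the critical equation near the two
ends of a flat, and the two kinds of slides along a line: with a constant height, and with a height
`h` such that `tanh (π h) = ρ tanh (π β)`.
-/

set_option autoImplicit false

namespace Pool.Agent.S3

open Complex Set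

/-- The point of the line. -/
noncomputable def vl (θ a : ℝ) : ℂ := (a : ℂ) + ((bl θ a : ℝ) : ℂ) * I

/-- The slope of the line. -/
noncomputable def Tl (θ a : ℝ) : ℝ := Real.tan (Real.pi * a) * Real.tanh (Real.pi * bl θ a)

/-- The unit of the share rates. -/
noncomputable def S2l (θ a : ℝ) : ℝ := Real.pi * bl θ a + (Real.pi / 2 - Real.pi * a) * Tl θ a

/-- The rate of the growth function of an edge along a line. -/
noncomputable def Ml (y v : ℂ) (T : ℝ) : ℝ :=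
  ((he (y + v) - he (y - v)).re + T * (he (y + v) - he (y - v)).im) / 2

theorem vl_re (θ a : ℝ) : (vl θ a).re = a := line_re _ _

theorem vl_im (θ a : ℝ) : (vl θ a).im = bl θ a := line_im _ _

theorem cosh_pi_bl (θ a : ℝ) : Real.cosh (Real.pi * bl θ a) =
    Real.sqrt (1 + (Real.tan θ * Real.cos (Real.pi * a)) ^ 2) := by
  rw [bl, mul_div_cancel₀ _ Real.pi_ne_zero, Real.cosh_arsinh]

theorem bl_hasDerivAt (θ : ℝ) {a : ℝ} (ha : Real.cos (Real.pi * a) ≠ 0) :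
    HasDerivAt (bl θ) (-Tl θ a) a := by
  have hpi := Real.pi_ne_zero
  have h1 : HasDerivAt (fun a : ℝ => Real.pi * a) Real.pi a := by
    simpa using (hasDerivAt_id a).const_mul Real.pi
  have h2 : HasDerivAt (fun a : ℝ => Real.tan θ * Real.cos (Real.pi * a))
      (Real.tan θ * (-Real.sin (Real.pi * a) * Real.pi)) a := h1.cos.const_mul (Real.tan θ)
  have h3 := (h2.arsinh).div_const Real.pi
  refine h3.congr_deriv ?_
  have hc : 0 < Real.sqrt (1 + (Real.tan θ * Real.cos (Real.pi * a)) ^ 2) := by positivity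
  rw [Tl, Real.tanh_eq_sinh_div_cosh, sinh_pi_bl, cosh_pi_bl, Real.tan_eq_sin_div_cos (Real.pi * a),
    smul_eq_mul]
  field_simp

theorem vl_hasDerivAt (θ : ℝ) {a : ℝ} (ha : Real.cos (Real.pi * a) ≠ 0) :
    HasDerivAt (vl θ) (1 - (Tl θ a : ℂ) * I) a := by
  have h1 : HasDerivAt (fun a : ℝ => (a : ℂ)) 1 a := (hasDerivAt_id a).ofReal_comp
  have h2 := ((bl_hasDerivAt θ ha).ofReal_comp).mul_const I
  refine (h1.add h2).congr_deriv ?_
  push_cast
  ring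

theorem bl_cont (θ : ℝ) : Continuous (bl θ) := by
  unfold bl
  exact (Real.continuous_arsinh.comp (by fun_prop)).div_const _

theorem vl_continuous (θ : ℝ) : Continuous (vl θ) := by
  have := bl_cont θ
  unfold vl
  fun_prop

theorem cos_pos_of {a : ℝ} (h0 : -(1 / 2) < a) (h1 : a < 1 / 2) : 0 < Real.cos (Real.pi * a) := by
  have := Real.pi_pos
  exact Real.cos_pos_of_mem_Ioo ⟨by nlinarith only [h0, this], by nlinarith only [h1, this]⟩

/-! ### The critical equation -/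

/-- `cos (π z) ^ 2`. -/
noncomputable def cc (z : ℂ) : ℂ := cos (Real.pi * z) ^ 2

theorem sin_mul_sin (y v : ℂ) : sin (Real.pi * (y - v)) * sin (Real.pi * (y + v)) = cc v - cc y := by
  unfold cc
  rw [mul_sub, mul_add, sin_sub, sin_add]
  have h1 := sin_sq_add_cos_sq (Real.pi * y)
  have h2 := sin_sq_add_cos_sq (Real.pi * v)
  linear_combination (-cos (Real.pi * v) ^ 2 + cos (Real.pi * v) ^ 2) * h1 +
    (cos (Real.pi * v) ^ 2) * h1 - (cos (Real.pi * y) ^ 2) * h2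

theorem gPd_eq (y v w : ℂ) : gPd y v w = ‖cc v - cc y‖ * ‖cc w - cc y‖ := by
  unfold gPd
  rw [← norm_mul, ← norm_mul, sin_mul_sin, sin_mul_sin]

theorem cos_four (y : ℂ) : ‖cos (Real.pi * y)‖ ^ 4 = ‖cc y‖ * ‖cc y‖ := by
  rw [cc, norm_pow]
  ring

theorem cc_re (a h : ℝ) : (cc ((a : ℂ) + (h : ℂ) * I)).re =
    Real.cos (Real.pi * a) ^ 2 + Real.sinh (Real.pi * h) ^ 2 * (2 * Real.cos (Real.pi * a) ^ 2 - 1) := by
  have e : cos ((Real.pi : ℂ) * ((a : ℂ) + (h : ℂ) * I)) =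
      ((Real.cos (Real.pi * a) * Real.cosh (Real.pi * h) : ℝ) : ℂ) -
        ((Real.sin (Real.pi * a) * Real.sinh (Real.pi * h) : ℝ) : ℂ) * I := by
    rw [show (Real.pi : ℂ) * ((a : ℂ) + (h : ℂ) * I) =
      ((Real.pi * a : ℝ) : ℂ) + ((Real.pi * h : ℝ) : ℂ) * I by push_cast; ring, cos_add_mul_I]
    push_cast
    ring
  have h1 := Real.sin_sq_add_cos_sq (Real.pi * a)
  have h2 := Real.cosh_sq (Real.pi * h)
  rw [cc, e, sq, mul_re, sub_re, ofReal_re, sub_im, ofReal_im, re_ofReal_mul, im_ofReal_mul, I_re, I_im]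
  have h3 : Real.sin (Real.pi * a) ^ 2 = 1 - Real.cos (Real.pi * a) ^ 2 := by linarith
  ring_nf
  rw [h2, h3]
  ring

theorem cc_im (a h : ℝ) : (cc ((a : ℂ) + (h : ℂ) * I)).im =
    -(2 * (Real.sin (Real.pi * a) * Real.cos (Real.pi * a)) *
      (Real.sinh (Real.pi * h) * Real.cosh (Real.pi * h))) := by
  have e : cos ((Real.pi : ℂ) * ((a : ℂ) + (h : ℂ) * I)) =
      ((Real.cos (Real.pi * a) * Real.cosh (Real.pi * h) : ℝ) : ℂ) -
        ((Real.sin (Real.pi * a) * Real.sinh (Real.pi * h) : ℝ) : ℂ) * I := by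
    rw [show (Real.pi : ℂ) * ((a : ℂ) + (h : ℂ) * I) =
      ((Real.pi * a : ℝ) : ℂ) + ((Real.pi * h : ℝ) : ℂ) * I by push_cast; ring, cos_add_mul_I]
    push_cast
    ring
  rw [cc, e, sq, mul_im, sub_re, ofReal_re, sub_im, ofReal_im, re_ofReal_mul, im_ofReal_mul, I_re, I_im]
  ring

theorem cc_norm (a h : ℝ) : ‖cc ((a : ℂ) + (h : ℂ) * I)‖ =
    Real.cos (Real.pi * a) ^ 2 + Real.sinh (Real.pi * h) ^ 2 := by
  have e : cos ((Real.pi : ℂ) * ((a : ℂ) + (h : ℂ) * I)) =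
      ((Real.cos (Real.pi * a) * Real.cosh (Real.pi * h) : ℝ) : ℂ) -
        ((Real.sin (Real.pi * a) * Real.sinh (Real.pi * h) : ℝ) : ℂ) * I := by
    rw [show (Real.pi : ℂ) * ((a : ℂ) + (h : ℂ) * I) =
      ((Real.pi * a : ℝ) : ℂ) + ((Real.pi * h : ℝ) : ℂ) * I by push_cast; ring, cos_add_mul_I]
    push_cast
    ring
  have h1 := Real.sin_sq_add_cos_sq (Real.pi * a)
  have h2 := Real.cosh_sq (Real.pi * h)
  rw [cc, norm_pow, ← normSq_eq_norm_sq, e, normSq_apply, sub_re, ofReal_re, sub_im, ofReal_im,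
    re_ofReal_mul, im_ofReal_mul, I_re, I_im]
  have h3 : Real.sin (Real.pi * a) ^ 2 = 1 - Real.cos (Real.pi * a) ^ 2 := by linarith
  ring_nf
  rw [h2, h3]
  ring

/-- The region of the points `x` of an edge. -/
structure Rg (x : ℂ) : Prop where
  c0 : 954 / 10000 ≤ Real.cos (Real.pi * x.re) ^ 2
  s1 : Real.sinh (Real.pi * x.im) ^ 2 ≤ 923 / 1000 * Real.cos (Real.pi * x.re) ^ 2

theorem re_im_eta (x : ℂ) : ((x.re : ℝ) : ℂ) + ((x.im : ℝ) : ℂ) * I = x := by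
  apply Complex.ext
  · rw [line_re]
  · rw [line_im]

theorem low_alg {C X : ℝ} (h0 : 954 / 10000 ≤ C) (h1 : C ≤ 1) (hX : 0 ≤ X) (hX1 : X ≤ 923 / 1000 * C) :
    0 < 1908 / 1000 * C + 19995 / 10000 * (X * (2 * C - 1)) - (C + X) ^ 2 := by
  have hC : 0 < C := by linarith
  obtain ⟨s, hs⟩ : ∃ s, s = X / C := ⟨_, rfl⟩
  have hXs : X = s * C := by rw [hs]; field_simp
  have s0 : 0 ≤ s := by rw [hs]; positivity
  have s1 : s ≤ 923 / 1000 := by rw [hs, div_le_iff₀ hC]; exact hX1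
  have g1 : 0 < 1908 / 1000 + 19995 / 10000 * (s * (2 * (954 / 10000) - 1)) -
      (954 / 10000) * (1 + s) ^ 2 := by nlinarith only [s0, s1]
  have g2 : 0 < 1908 / 1000 + 19995 / 10000 * (s * (2 * 1 - 1)) - 1 * (1 + s) ^ 2 := by nlinarith only [s0, s1]
  have e : 1908 / 1000 * C + 19995 / 10000 * (X * (2 * C - 1)) - (C + X) ^ 2 =
      C * ((1 - C) / (1 - 954 / 10000) * (1908 / 1000 + 19995 / 10000 * (s * (2 * (954 / 10000) - 1)) -
        (954 / 10000) * (1 + s) ^ 2) + (C - 954 / 10000) / (1 - 954 / 10000) *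
        (1908 / 1000 + 19995 / 10000 * (s * (2 * 1 - 1)) - 1 * (1 + s) ^ 2)) := by
    rw [hXs]; ring
  rw [e]
  apply mul_pos hC
  rcases h1.lt_or_eq with h2 | h2
  · have a1 : 0 < (1 - C) / (1 - 954 / 10000) := by apply div_pos <;> linarith
    have a2 : 0 ≤ (C - 954 / 10000) / (1 - 954 / 10000) := by
      apply div_nonneg <;> linarith
    have := mul_pos a1 g1
    have := mul_nonneg a2 g2.le
    linarith
  · rw [h2]
    linarith

/-- Near the left end. -/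
theorem low_lt {x : ℂ} (hx : Rg x) {t h : ℝ} (t0 : 0 ≤ t) (t1 : t ≤ 1 / 200)
    (hh : |Real.sinh (Real.pi * h) * Real.cosh (Real.pi * h)| ≤ 3 / 4) :
    ‖cc x - cc ((t : ℂ) + (h : ℂ) * I)‖ < ‖cc ((t : ℂ) + (h : ℂ) * I)‖ := by
  have hpi := Real.pi_pos
  have hpi1 := Real.pi_lt_d2
  obtain ⟨y, hy⟩ : ∃ y, y = (t : ℂ) + (h : ℂ) * I := ⟨_, rfl⟩
  have yr := cc_re t h
  have yi := cc_im t h
  have xr := cc_re x.re x.im
  have xi := cc_im x.re x.im
  have xn := cc_norm x.re x.im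
  rw [re_im_eta] at xr xi xn
  rw [← hy] at yr yi ⊢
  -- the data of `y`
  have st0 : 0 ≤ Real.sin (Real.pi * t) := Real.sin_nonneg_of_nonneg_of_le_pi (by positivity) (by nlinarith only [t1, hpi])
  have st1 : Real.sin (Real.pi * t) ≤ 158 / 10000 := by
    have h1 := Real.sin_le (show 0 ≤ Real.pi * t by positivity)
    nlinarith only [t1, hpi, hpi1, h1]
  have ct0 : 0 ≤ Real.cos (Real.pi * t) := Real.cos_nonneg_of_mem_Icc ⟨by nlinarith only [t0, hpi], by nlinarith only [t1, hpi]⟩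
  have ct1 := Real.cos_le_one (Real.pi * t)
  have ct2 : Real.cos (Real.pi * t) ^ 2 = 1 - Real.sin (Real.pi * t) ^ 2 := by
    linarith [Real.sin_sq_add_cos_sq (Real.pi * t)]
  have Ry : 99975 / 100000 ≤ (cc y).re := by
    rw [yr, ct2]
    have h3 : 0 ≤ Real.sinh (Real.pi * h) ^ 2 := sq_nonneg _
    have h4 : Real.sin (Real.pi * t) ^ 2 ≤ (158 / 10000) ^ 2 := pow_le_pow_left₀ st0 st1 2
    nlinarith only [h4]
  have Iy : |(cc y).im| ≤ 237 / 10000 := by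
    rw [yi, abs_neg, abs_mul, abs_of_nonneg (by positivity : (0 : ℝ) ≤ 2 *
      (Real.sin (Real.pi * t) * Real.cos (Real.pi * t)))]
    have h3 : Real.sin (Real.pi * t) * Real.cos (Real.pi * t) ≤ 158 / 10000 * 1 :=
      mul_le_mul st1 ct1 ct0 (by norm_num)
    calc 2 * (Real.sin (Real.pi * t) * Real.cos (Real.pi * t)) *
          |Real.sinh (Real.pi * h) * Real.cosh (Real.pi * h)| ≤ 2 * (158 / 10000 * 1) * (3 / 4) := by
          apply mul_le_mul _ hh (abs_nonneg _) (by norm_num)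
          linarith
      _ ≤ 237 / 10000 := by norm_num
  -- the data of `x`
  obtain ⟨C, hC⟩ : ∃ C, C = Real.cos (Real.pi * x.re) ^ 2 := ⟨_, rfl⟩
  obtain ⟨X, hX⟩ : ∃ X, X = Real.sinh (Real.pi * x.im) ^ 2 := ⟨_, rfl⟩
  have c0 := hx.c0
  have s1 := hx.s1
  rw [← hC] at c0 s1 xr xn
  rw [← hX] at s1 xr xn
  have X0 : 0 ≤ X := by rw [hX]; positivity
  have C1 : C ≤ 1 := by rw [hC]; exact (sq_le_one_iff_abs_le_one _).2 (Real.abs_cos_le_one _)
  have Ix : |(cc x).im| ≤ 1922 / 1000 * C := by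
    refine abs_le_of_sq_le_sq ?_ (by linarith)
    rw [xi]
    have e : (-(2 * (Real.sin (Real.pi * x.re) * Real.cos (Real.pi * x.re)) *
      (Real.sinh (Real.pi * x.im) * Real.cosh (Real.pi * x.im)))) ^ 2 =
        4 * (1 - C) * C * (X * (1 + X)) := by
      have e1 : Real.sin (Real.pi * x.re) ^ 2 = 1 - C := by
        rw [hC]; linarith [Real.sin_sq_add_cos_sq (Real.pi * x.re)]
      have e2 : Real.cosh (Real.pi * x.im) ^ 2 = 1 + X := by
        rw [hX, Real.cosh_sq]; ring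
      calc _ = 4 * Real.sin (Real.pi * x.re) ^ 2 * Real.cos (Real.pi * x.re) ^ 2 *
            (Real.sinh (Real.pi * x.im) ^ 2 * Real.cosh (Real.pi * x.im) ^ 2) := by ring
        _ = _ := by rw [e1, e2, ← hC, ← hX]
    rw [e]
    have k1 : X * (1 + X) ≤ 923 / 1000 * C * (1 + C) := by nlinarith only [hX, s1]
    have k2 : 0 ≤ 4 * (1 - C) * C := by apply mul_nonneg <;> linarith only [C1, s1, X0]
    have k3 := mul_le_mul_of_nonneg_left k1 k2
    have k4 : (1 - C) * (1 + C) ≤ 1 := by linarith only [sq_nonneg C]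
    have k5 : 4 * (1 - C) * C * (923 / 1000 * C * (1 + C)) ≤ 3692 / 1000 * C ^ 2 := by
      have : 4 * (1 - C) * C * (923 / 1000 * C * (1 + C)) = 3692 / 1000 * C ^ 2 * ((1 - C) * (1 + C)) := by
        ring
      rw [this]
      nlinarith only []
    linarith only [k3, k4, k5]
  have key := low_alg c0 C1 X0 s1
  -- the comparison
  have e1 : ‖cc x - cc y‖ ^ 2 = ‖cc x‖ ^ 2 - 2 * ((cc x).re * (cc y).re + (cc x).im * (cc y).im) +
      ‖cc y‖ ^ 2 := by
    rw [← normSq_eq_norm_sq, ← normSq_eq_norm_sq, ← normSq_eq_norm_sq, normSq_apply, normSq_apply,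
      normSq_apply, sub_re, sub_im]
    ring
  have e2 : -((1922 / 1000 * C) * (237 / 10000)) ≤ (cc x).im * (cc y).im := by
    have := abs_le.1 ((abs_mul (cc x).im (cc y).im).le.trans
      (mul_le_mul Ix Iy (abs_nonneg _) (by linarith)))
    exact this.1
  have e3 : 99975 / 100000 * (cc x).re ≤ (cc x).re * (cc y).re := by
    have : 0 ≤ (cc x).re := by rw [xr]; nlinarith only [s1, X0]
    nlinarith only [Ry, this]
  have e4 : ‖cc x - cc y‖ ^ 2 < ‖cc y‖ ^ 2 := by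
    rw [e1, xn]
    rw [xr] at e3 ⊢
    linarith only [s1, X0, key, e2, e3]
  exact lt_of_pow_lt_pow_left₀ 2 (norm_nonneg _) e4

/-- At the right end. -/
theorem end_lt {x : ℂ} (hx : Rg x) (h : ℝ) :
    ‖cc (((1 / 2 : ℝ) : ℂ) + (h : ℂ) * I)‖ < ‖cc x - cc (((1 / 2 : ℝ) : ℂ) + (h : ℂ) * I)‖ := by
  obtain ⟨y, hy⟩ : ∃ y, y = ((1 / 2 : ℝ) : ℂ) + (h : ℂ) * I := ⟨_, rfl⟩
  have yr := cc_re (1 / 2) h
  have yi := cc_im (1 / 2) h
  have yn := cc_norm (1 / 2) h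
  have xr := cc_re x.re x.im
  rw [re_im_eta] at xr
  rw [← hy] at yr yi yn ⊢
  have e : Real.cos (Real.pi * (1 / 2)) = 0 := by
    rw [show Real.pi * (1 / 2) = Real.pi / 2 by ring, Real.cos_pi_div_two]
  rw [e] at yr yi yn
  have xr0 : 0 < (cc x).re := by
    have c0 := hx.c0
    have s1 := hx.s1
    rw [xr]
    have h1 : Real.cos (Real.pi * x.re) ^ 2 ≤ 1 :=
      (sq_le_one_iff_abs_le_one _).2 (Real.abs_cos_le_one _)
    have h2 : 0 ≤ Real.sinh (Real.pi * x.im) ^ 2 := sq_nonneg _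
    nlinarith only [c0, s1]
  have h1 : ‖cc y‖ = -(cc y).re := by rw [yn, yr]; ring
  have h2 : (cc x - cc y).re ≤ ‖cc x - cc y‖ := re_le_norm _
  rw [sub_re] at h2
  rw [h1]
  linarith

/-- The region of the first point, together with the height. -/
structure Rv (v : ℂ) (h : ℝ) : Prop where
  c0 : 954 / 10000 ≤ Real.cos (Real.pi * v.re) ^ 2
  r0 : 0 ≤ v.re
  r1 : v.re ≤ 2 / 5
  i0 : 0 ≤ v.im
  s1 : Real.sinh (Real.pi * v.im) ^ 2 ≤ Real.cos (Real.pi * v.re) ^ 2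
  s2 : Real.sinh (Real.pi * v.im) ^ 2 ≤ 923 / 1000 * Real.cos (Real.pi * v.re) ^ 2 ∨ 1 / 100 ≤ h

/-- Near the left end, the first point. -/
theorem low_lt_v {x : ℂ} {t h : ℝ} (hx : Rv x h) (h0 : 0 < h) (t0 : 0 ≤ t) (t1 : t ≤ 1 / 200) :
    ‖cc x - cc ((t : ℂ) + (h : ℂ) * I)‖ < ‖cc ((t : ℂ) + (h : ℂ) * I)‖ := by
  have hpi := Real.pi_pos
  have hpi1 := Real.pi_lt_d2
  have hpi2 := Real.pi_gt_d2
  obtain ⟨y, hy⟩ : ∃ y, y = (t : ℂ) + (h : ℂ) * I := ⟨_, rfl⟩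
  have yr := cc_re t h
  have yi := cc_im t h
  have xr := cc_re x.re x.im
  have xi := cc_im x.re x.im
  have xn := cc_norm x.re x.im
  rw [re_im_eta] at xr xi xn
  rw [← hy] at yr yi ⊢
  -- the data of `y`
  have st0 : 0 ≤ Real.sin (Real.pi * t) := Real.sin_nonneg_of_nonneg_of_le_pi (by positivity) (by nlinarith only [t1, hpi2])
  have st1 : Real.sin (Real.pi * t) ≤ 158 / 10000 := by
    have h1 := Real.sin_le (show 0 ≤ Real.pi * t by positivity)
    nlinarith only [t1, hpi1, hpi2, h1]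
  have ct0 : 0 ≤ Real.cos (Real.pi * t) := Real.cos_nonneg_of_mem_Icc ⟨by nlinarith only [t0, hpi], by nlinarith only [t1, hpi]⟩
  have ct2 : Real.cos (Real.pi * t) ^ 2 = 1 - Real.sin (Real.pi * t) ^ 2 := by
    linarith [Real.sin_sq_add_cos_sq (Real.pi * t)]
  have st2 : Real.sin (Real.pi * t) ^ 2 ≤ (158 / 10000) ^ 2 := pow_le_pow_left₀ st0 st1 2
  have σ0 : 0 ≤ Real.sinh (Real.pi * h) ^ 2 := sq_nonneg _
  have yi0 : (cc y).im ≤ 0 := by
    rw [yi]
    have h3 : 0 ≤ Real.sinh (Real.pi * h) := Real.sinh_nonneg_iff.2 (by positivity)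
    have h4 := Real.cosh_pos (Real.pi * h)
    have : 0 ≤ 2 * (Real.sin (Real.pi * t) * Real.cos (Real.pi * t)) *
      (Real.sinh (Real.pi * h) * Real.cosh (Real.pi * h)) := by positivity
    linarith
  have xi0 : (cc x).im ≤ 0 := by
    rw [xi]
    have h3 : 0 ≤ Real.sinh (Real.pi * x.im) := Real.sinh_nonneg_iff.2 (mul_nonneg hpi.le hx.i0)
    have h4 := Real.cosh_pos (Real.pi * x.im)
    have h5 : 0 ≤ Real.sin (Real.pi * x.re) := Real.sin_nonneg_of_nonneg_of_le_pi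
      (mul_nonneg hpi.le hx.r0) (by nlinarith only [hx.r1, hpi])
    have h6 : 0 ≤ Real.cos (Real.pi * x.re) :=
      (cos_pos_of (by linarith [hx.r0]) (by linarith [hx.r1])).le
    have : 0 ≤ 2 * (Real.sin (Real.pi * x.re) * Real.cos (Real.pi * x.re)) *
      (Real.sinh (Real.pi * x.im) * Real.cosh (Real.pi * x.im)) := by positivity
    linarith
  obtain ⟨C, hC⟩ : ∃ C, C = Real.cos (Real.pi * x.re) ^ 2 := ⟨_, rfl⟩
  obtain ⟨X, hX⟩ : ∃ X, X = Real.sinh (Real.pi * x.im) ^ 2 := ⟨_, rfl⟩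
  have c0 := hx.c0
  have s1 := hx.s1
  have s2 := hx.s2
  rw [← hC] at c0 s1 s2 xr xn
  rw [← hX] at s1 s2 xr xn
  have X0 : 0 ≤ X := by rw [hX]; positivity
  have C1 : C ≤ 1 := by rw [hC]; exact (sq_le_one_iff_abs_le_one _).2 (Real.abs_cos_le_one _)
  have xr0 : 0 < C + X * (2 * C - 1) := by nlinarith only [c0, s1, X0]
  have e1 : ‖cc x - cc y‖ ^ 2 = ‖cc x‖ ^ 2 - 2 * ((cc x).re * (cc y).re + (cc x).im * (cc y).im) +
      ‖cc y‖ ^ 2 := by
    rw [← normSq_eq_norm_sq, ← normSq_eq_norm_sq, ← normSq_eq_norm_sq, normSq_apply, normSq_apply,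
      normSq_apply, sub_re, sub_im]
    ring
  have e2 : 0 ≤ (cc x).im * (cc y).im := mul_nonneg_of_nonpos_of_nonpos xi0 yi0
  have key : (C + X) ^ 2 < 2 * ((C + X * (2 * C - 1)) * (cc y).re) := by
    rcases s2 with s2 | s2
    · have h3 := low_alg c0 C1 X0 s2
      have Ry : 99975 / 100000 ≤ (cc y).re := by
        rw [yr, ct2]
        nlinarith only [st2]
      have h4 := mul_le_mul_of_nonneg_left Ry xr0.le
      linarith only [X0, s2, h3, h4]
    · have Ry : 1 < (cc y).re := by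
        have g1 : (314 / 10000 : ℝ) ≤ Real.pi * h := by nlinarith only [hpi2, s2]
        have g2 := Real.self_le_sinh_iff.2 (show 0 ≤ Real.pi * h by positivity)
        have g3 : (314 / 10000 : ℝ) ^ 2 ≤ Real.sinh (Real.pi * h) ^ 2 :=
          pow_le_pow_left₀ (by norm_num) (g1.trans g2) 2
        rw [yr, ct2]
        nlinarith only [st2, g3]
      have h4 : 0 ≤ (C - X) * (2 - (C - X)) := mul_nonneg (by linarith) (by linarith)
      have h5 : (C + X * (2 * C - 1)) * 1 < (C + X * (2 * C - 1)) * (cc y).re :=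
        mul_lt_mul_of_pos_left Ry xr0
      linarith only [h4, h5]
  have e4 : ‖cc x - cc y‖ ^ 2 < ‖cc y‖ ^ 2 := by
    rw [e1, xn, xr]
    linarith
  exact lt_of_pow_lt_pow_left₀ 2 (norm_nonneg _) e4

/-- At the right end, the first point. -/
theorem end_lt_v {x : ℂ} {h : ℝ} (hx : Rv x h) :
    ‖cc (((1 / 2 : ℝ) : ℂ) + (h : ℂ) * I)‖ < ‖cc x - cc (((1 / 2 : ℝ) : ℂ) + (h : ℂ) * I)‖ := by
  obtain ⟨y, hy⟩ : ∃ y, y = ((1 / 2 : ℝ) : ℂ) + (h : ℂ) * I := ⟨_, rfl⟩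
  have yr := cc_re (1 / 2) h
  have yn := cc_norm (1 / 2) h
  have xr := cc_re x.re x.im
  rw [re_im_eta] at xr
  rw [← hy] at yr yn ⊢
  have e : Real.cos (Real.pi * (1 / 2)) = 0 := by
    rw [show Real.pi * (1 / 2) = Real.pi / 2 by ring, Real.cos_pi_div_two]
  rw [e] at yr yn
  have xr0 : 0 < (cc x).re := by
    have c0 := hx.c0
    have s1 := hx.s1
    rw [xr]
    have h1 : Real.cos (Real.pi * x.re) ^ 2 ≤ 1 :=
      (sq_le_one_iff_abs_le_one _).2 (Real.abs_cos_le_one _)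
    have h2 : 0 ≤ Real.sinh (Real.pi * x.im) ^ 2 := sq_nonneg _
    nlinarith only [c0, s1]
  have h1 : ‖cc y‖ = -(cc y).re := by rw [yn, yr]; ring
  have h2 : (cc x - cc y).re ≤ ‖cc x - cc y‖ := re_le_norm _
  rw [sub_re] at h2
  rw [h1]
  linarith

/-- The two conditions of a slide near the ends. -/
theorem low_gP {v w : ℂ} {t h : ℝ} (hv : Rv v h) (hw : Rg w) (h0 : 0 < h) (t0 : 0 ≤ t)
    (t1 : t ≤ 1 / 200) (hh : |Real.sinh (Real.pi * h) * Real.cosh (Real.pi * h)| ≤ 3 / 4) :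
    gPd ((t : ℂ) + (h : ℂ) * I) v w < ‖cos (Real.pi * ((t : ℂ) + (h : ℂ) * I))‖ ^ 4 := by
  have h1 := low_lt_v hv h0 t0 t1
  have h2 := low_lt hw t0 t1 hh
  rw [gPd_eq, cos_four]
  exact mul_lt_mul'' h1 h2 (norm_nonneg _) (norm_nonneg _)

theorem end_gP {v w : ℂ} {h : ℝ} (hv : Rv v h) (hw : Rg w) :
    ‖cos (Real.pi * (((1 / 2 : ℝ) : ℂ) + (h : ℂ) * I))‖ ^ 4 <
      gPd (((1 / 2 : ℝ) : ℂ) + (h : ℂ) * I) v w := by
  have h1 := end_lt_v hv
  have h2 := end_lt hw h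
  rw [gPd_eq, cos_four]
  exact mul_lt_mul'' h1 h2 (norm_nonneg _) (norm_nonneg _)

/-! ### The heights `tanh (π h) = ρ tanh (π x)` -/

theorem artanh_hasDerivAt {x : ℝ} (h0 : -1 < x) (h1 : x < 1) :
    HasDerivAt Real.artanh (1 / (1 - x ^ 2)) x := by
  have a1 : HasDerivAt (fun x : ℝ => Real.log (1 + x)) (1 / (1 + x)) x := by
    have := ((hasDerivAt_id x).const_add 1).log (by simp; linarith)
    simpa using this
  have a2 : HasDerivAt (fun x : ℝ => Real.log (1 - x)) (-1 / (1 - x)) x := by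
    have := ((hasDerivAt_id x).const_sub 1).log (by simp; linarith)
    simpa using this
  have a3 := (a1.sub a2).const_mul (1 / 2 : ℝ)
  have e1 : 0 < 1 + x := by linarith
  have e2 : 0 < 1 - x := by linarith
  have h2 : Real.artanh =ᶠ[nhds x] fun x => 1 / 2 * (Real.log (1 + x) - Real.log (1 - x)) := by
    filter_upwards [Ioo_mem_nhds h0 h1] with y hy
    rw [Real.artanh_eq_half_log ⟨hy.1.le, hy.2.le⟩, Real.log_div (by linarith [hy.1])
      (by linarith [hy.2])]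
  refine (a3.congr_deriv ?_).congr_of_eventuallyEq h2
  have e3 : 1 - x ^ 2 = (1 + x) * (1 - x) := by ring
  rw [e3]
  field_simp
  ring

theorem tanh_pos_of {x : ℝ} (h : 0 < x) : 0 < Real.tanh x := by
  rw [Real.tanh_eq_sinh_div_cosh]
  exact div_pos (Real.sinh_pos_iff.2 h) (Real.cosh_pos x)

theorem tanh_nonneg_of {x : ℝ} (h : 0 ≤ x) : 0 ≤ Real.tanh x := by
  rw [Real.tanh_eq_sinh_div_cosh]
  exact div_nonneg (Real.sinh_nonneg_iff.2 h) (Real.cosh_pos x).le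

theorem tanh_mono {x y : ℝ} (h : x ≤ y) : Real.tanh x ≤ Real.tanh y := by
  have m : Monotone Real.tanh := monotone_of_deriv_nonneg
    (fun x => (hasDerivAt_tanh' x).differentiableAt) (fun x => by
      rw [(hasDerivAt_tanh' x).deriv]
      have := Real.tanh_sq_lt_one x
      linarith)
  exact m h

/-- The height. -/
noncomputable def hgt (ρ x : ℝ) : ℝ := Real.artanh (ρ * Real.tanh (Real.pi * x)) / Real.pi

/-- Its derivative. -/
noncomputable def rp (ρ x : ℝ) : ℝ := ρ * (1 - Real.tanh (Real.pi * x) ^ 2) /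
  (1 - (ρ * Real.tanh (Real.pi * x)) ^ 2)

theorem rho_tanh {ρ : ℝ} (h0 : 0 ≤ ρ) (h1 : ρ ≤ 1) (x : ℝ) :
    ρ * Real.tanh (Real.pi * x) ∈ Ioo (-1) 1 := by
  have a := Real.abs_tanh_lt_one (Real.pi * x)
  have b : |ρ * Real.tanh (Real.pi * x)| < 1 := by
    rw [abs_mul, abs_of_nonneg h0]
    nlinarith only [abs_nonneg (Real.tanh (Real.pi * x)), h1, a]
  exact abs_lt.1 b

theorem tanh_hgt {ρ : ℝ} (h0 : 0 ≤ ρ) (h1 : ρ ≤ 1) (x : ℝ) :
    Real.tanh (Real.pi * hgt ρ x) = ρ * Real.tanh (Real.pi * x) := by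
  rw [hgt, mul_div_cancel₀ _ Real.pi_ne_zero]
  exact Real.tanh_artanh (rho_tanh h0 h1 x)

theorem hgt_hasDerivAt {ρ : ℝ} (h0 : 0 ≤ ρ) (h1 : ρ ≤ 1) (x : ℝ) :
    HasDerivAt (hgt ρ) (rp ρ x) x := by
  have hpi := Real.pi_ne_zero
  have m := rho_tanh h0 h1 x
  have a1 : HasDerivAt (fun x : ℝ => Real.pi * x) Real.pi x := by
    simpa using (hasDerivAt_id x).const_mul Real.pi
  have a2 : HasDerivAt (fun x : ℝ => ρ * Real.tanh (Real.pi * x))
      (ρ * ((1 - Real.tanh (Real.pi * x) ^ 2) * Real.pi)) x :=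
    (HasDerivAt.comp x (hasDerivAt_tanh' (Real.pi * x)) a1).const_mul ρ
  have a3 := ((HasDerivAt.comp x (artanh_hasDerivAt m.1 m.2) a2)).div_const Real.pi
  refine a3.congr_deriv ?_
  rw [rp]
  have : 1 - (ρ * Real.tanh (Real.pi * x)) ^ 2 ≠ 0 := by
    have := m.1
    have := m.2
    nlinarith
  field_simp

theorem hgt_le {ρ x : ℝ} (h0 : 0 ≤ ρ) (h1 : ρ ≤ 1) (hx : 0 ≤ x) : hgt ρ x ≤ x := by
  have hpi := Real.pi_pos
  rw [hgt, div_le_iff₀ hpi]
  have m := rho_tanh h0 h1 x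
  have t0 : 0 ≤ Real.tanh (Real.pi * x) := tanh_nonneg_of (by positivity)
  have h2 := Real.artanh_le_artanh (x := ρ * Real.tanh (Real.pi * x))
    (y := Real.tanh (Real.pi * x)) m.1 (Real.tanh_lt_one _) (by nlinarith only [h1, t0])
  rw [Real.artanh_tanh] at h2
  linarith

theorem hgt_pos {ρ x : ℝ} (h0 : 0 < ρ) (h1 : ρ ≤ 1) (hx : 0 < x) : 0 < hgt ρ x := by
  have hpi := Real.pi_pos
  apply div_pos _ hpi
  have m := rho_tanh h0.le h1 x
  exact Real.artanh_pos ⟨mul_pos h0 (tanh_pos_of (by positivity)), m.2⟩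

theorem tanh_le_self {x : ℝ} (h : 0 ≤ x) : Real.tanh x ≤ x := by
  have m : MonotoneOn (fun x : ℝ => x - Real.tanh x) (Ici 0) := by
    apply monotoneOn_of_deriv_nonneg (convex_Ici 0)
    · exact (continuous_id.sub (continuous_iff_continuousAt.2 fun x =>
        (hasDerivAt_tanh' x).continuousAt)).continuousOn
    · intro x _
      exact ((hasDerivAt_id x).sub (hasDerivAt_tanh' x)).differentiableAt.differentiableWithinAt
    · intro x _
      have e : deriv (fun x : ℝ => x - Real.tanh x) x = 1 - (1 - Real.tanh x ^ 2) :=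
        ((hasDerivAt_id x).sub (hasDerivAt_tanh' x)).deriv
      rw [e]
      have := sq_nonneg (Real.tanh x)
      linarith
  have := m (mem_Ici.2 le_rfl) (mem_Ici.2 h) h
  simp only [Real.tanh_zero, sub_zero] at this
  linarith

theorem hgt_ge {ρ x : ℝ} (h0 : 7 / 10 ≤ ρ) (h1 : ρ ≤ 1) (hx : 0 ≤ x)
    (hs : 88 / 1000 ≤ Real.sinh (Real.pi * x) ^ 2) : 1 / 100 ≤ hgt ρ x := by
  have hpi := Real.pi_pos
  have hpi1 := Real.pi_lt_d2
  have e := tanh_hgt (ρ := ρ) (by linarith) h1 x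
  have t0 : 0 ≤ Real.tanh (Real.pi * x) := tanh_nonneg_of (by positivity)
  have t1 : (28 / 100 : ℝ) ^ 2 ≤ Real.tanh (Real.pi * x) ^ 2 := by
    rw [Real.tanh_eq_sinh_div_cosh, div_pow (Real.sinh _), Real.cosh_sq, le_div_iff₀ (by positivity)]
    linarith only [hs]
  have t2 : 28 / 100 ≤ Real.tanh (Real.pi * x) :=
    (pow_le_pow_iff_left₀ (by norm_num) t0 two_ne_zero).1 t1
  have t3 : 196 / 1000 ≤ Real.tanh (Real.pi * hgt ρ x) := by
    rw [e]; nlinarith only [h0, t2]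
  by_contra hc
  push Not at hc
  have t4 := tanh_mono (mul_le_mul_of_nonneg_left hc.le hpi.le)
  have t5 := tanh_le_self (x := Real.pi * (1 / 100)) (by positivity)
  linarith only [hpi1, t3, t4, t5]

theorem hgt_continuous {ρ : ℝ} (h0 : 0 ≤ ρ) (h1 : ρ ≤ 1) : Continuous (hgt ρ) :=
  continuous_iff_continuousAt.2 fun x => (hgt_hasDerivAt h0 h1 x).continuousAt

/-! ### Slides -/

/-- Sliding in the region of an edge. -/
theorem slide2 {v : ℝ → ℂ} {v' : ℝ → ℂ} {h h' l l' : ℝ → ℝ} {w : ℂ} {a0 a1 : ℝ}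
    (hvc : ContinuousOn v (Icc a0 a1)) (hhc : ContinuousOn h (Icc a0 a1))
    (hlc : ContinuousOn l (Icc a0 a1))
    (hv : ∀ a ∈ Ioc a0 a1, HasDerivAt v (v' a) a) (hh : ∀ a ∈ Ioc a0 a1, HasDerivAt h (h' a) a)
    (hl : ∀ a ∈ Ioc a0 a1, HasDerivAt l (l' a) a)
    (hw : Rg w) (w0 : 0 ≤ w.re) (w1 : w.re ≤ 2 / 5)
    (hR : ∀ a ∈ Ioc a0 a1, Rv (v a) (h a))
    (hy : ∀ a ∈ Ioc a0 a1, 0 < h a ∧ h a ≠ (v a).im ∧ h a ≠ w.im ∧
      |Real.sinh (Real.pi * h a) * Real.cosh (Real.pi * h a)| ≤ 3 / 4)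
    (hbase : ∀ t ∈ Icc (0 : ℝ) (1 / 2),
      EE (.op (v a0)) (.op w) ((t : ℂ) + (h a0 : ℂ) * I) < l a0)
    (hcrit : ∀ a ∈ Ioc a0 a1, ∀ t ∈ Ico (1 / 200 : ℝ) (1 / 2),
      gPd ((t : ℂ) + (h a : ℂ) * I) (v a) w = ‖cos (Real.pi * ((t : ℂ) + (h a : ℂ) * I))‖ ^ 4 →
      -l' a < h' a * (eY ((t : ℂ) + (h a : ℂ) * I) (v a) w).im +
        ((he ((t : ℂ) + (h a : ℂ) * I + v a) - he ((t : ℂ) + (h a : ℂ) * I - v a)) * v' a).re) :
    ∀ a ∈ Icc a0 a1, ∀ t ∈ Icc (0 : ℝ) (1 / 2),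
      EE (.op (v a)) (.op w) ((t : ℂ) + (h a : ℂ) * I) < l a := by
  refine slide (tL := 1 / 200) (by norm_num) (by norm_num) hvc hhc hlc hv hh hl
    (fun a ha => (hy a ha).1.ne') ?_ hbase ?_ ?_ ?_
  · intro a ha t ht
    have r2 := (hR a ha).r0
    have r3 := (hR a ha).r1
    obtain ⟨y1, y2, y3, y4⟩ := hy a ha
    refine ⟨Or.inl ?_, Or.inr ?_, Or.inl ?_, Or.inr ?_⟩
    · rw [sub_im, line_im]
      exact sub_ne_zero.2 y2
    · rw [add_re, line_re]
      exact ⟨by linarith [ht.1], by linarith [ht.2]⟩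
    · rw [sub_im, line_im]
      exact sub_ne_zero.2 y3
    · rw [add_re, line_re]
      exact ⟨by linarith [ht.1], by linarith [ht.2]⟩
  · intro a ha t ht
    exact low_gP (hR a ha) hw (hy a ha).1 ht.1.le ht.2.le (hy a ha).2.2.2
  · intro a ha
    exact end_gP (hR a ha) hw
  · intro a ha t ht hg _
    have := hcrit a ha t ht hg
    rw [add_re]
    have e1 : (eY ((t : ℂ) + (h a : ℂ) * I) (v a) w * ((h' a : ℂ) * I)).re =
        -(h' a * (eY ((t : ℂ) + (h a : ℂ) * I) (v a) w).im) := by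
      rw [mul_re, re_ofReal_mul, im_ofReal_mul, I_re, I_im]
      ring
    have e2 : ((he ((t : ℂ) + (h a : ℂ) * I - v a) - he ((t : ℂ) + (h a : ℂ) * I + v a)) * v' a).re =
        -((he ((t : ℂ) + (h a : ℂ) * I + v a) - he ((t : ℂ) + (h a : ℂ) * I - v a)) * v' a).re := by
      rw [← neg_re, ← neg_mul, neg_sub]
    rw [e1, e2]
    linarith

theorem vl_rg {θ a : ℝ} (ha0 : 0 ≤ a) (ha1 : a ≤ 2 / 5) (ht : Real.tan θ ^ 2 ≤ 923 / 1000) :
    Rg (vl θ a) := by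
  have hpi := Real.pi_pos
  constructor
  · rw [vl_re]
    refine T2.cos_sq_25.trans (pow_le_pow_left₀ ?_ ?_ 2)
    · exact Real.cos_nonneg_of_mem_Icc ⟨by linarith only [hpi], by linarith only [hpi]⟩
    · exact Real.cos_le_cos_of_nonneg_of_le_pi (by positivity) (by linarith only [hpi])
        (mul_le_mul_of_nonneg_left ha1 hpi.le)
  · rw [vl_re, vl_im, sinh_pi_bl, mul_pow]
    exact mul_le_mul_of_nonneg_right ht (sq_nonneg _)

theorem vl_rv {θ a h : ℝ} (hθ0 : 0 ≤ θ) (hθ1 : θ < Real.pi / 2) (ha0 : 0 ≤ a) (ha1 : a ≤ 2 / 5)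
    (ht : Real.tan θ ^ 2 ≤ 1) (hx : Real.tan θ ^ 2 ≤ 923 / 1000 ∨ 1 / 100 ≤ h) :
    Rv (vl θ a) h := by
  have hpi := Real.pi_pos
  refine ⟨?_, ?_, ?_, ?_, ?_, ?_⟩
  · rw [vl_re]
    refine T2.cos_sq_25.trans (pow_le_pow_left₀ ?_ ?_ 2)
    · exact Real.cos_nonneg_of_mem_Icc ⟨by linarith only [hpi], by linarith only [hpi]⟩
    · exact Real.cos_le_cos_of_nonneg_of_le_pi (by positivity) (by linarith only [hpi])
        (mul_le_mul_of_nonneg_left ha1 hpi.le)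
  · rw [vl_re]; exact ha0
  · rw [vl_re]; exact ha1
  · rw [vl_im]
    exact bl_nonneg hθ0 hθ1 (by rw [abs_of_nonneg ha0]; linarith)
  · rw [vl_re, vl_im, sinh_pi_bl, mul_pow]
    have := mul_le_mul_of_nonneg_right ht (sq_nonneg (Real.cos (Real.pi * a)))
    linarith
  · rcases hx with hx | hx
    · left
      rw [vl_re, vl_im, sinh_pi_bl, mul_pow]
      exact mul_le_mul_of_nonneg_right hx (sq_nonneg _)
    · exact Or.inr hx

theorem und_rg {θ : ℝ} {v : ℂ} (h : T2.Und θ v) (h0 : 0 ≤ θ) (h1 : θ < Real.pi / 2)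
    (ht : Real.tan θ ^ 2 ≤ 923 / 1000) : Rg v := by
  have hpi := Real.pi_pos
  have k := (vl_rg h.re0 h.re1 ht).c0
  rw [vl_re] at k
  refine ⟨k, ?_⟩
  have h2 : Real.sinh (Real.pi * v.im) ≤ Real.tan θ * Real.cos (Real.pi * v.re) := by
    rw [← sinh_pi_bl]
    exact Real.sinh_le_sinh.2 (mul_le_mul_of_nonneg_left h.im1 hpi.le)
  have h3 : 0 ≤ Real.sinh (Real.pi * v.im) :=
    Real.sinh_nonneg_iff.2 (mul_nonneg hpi.le h.im0)
  have h4 := pow_le_pow_left₀ h3 h2 2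
  rw [mul_pow] at h4
  exact h4.trans (mul_le_mul_of_nonneg_right ht (sq_nonneg _))

theorem rg_conj {v : ℂ} (h : Rg v) : Rg ((starRingEnd ℂ) v) := by
  refine ⟨?_, ?_⟩
  · rw [conj_re]; exact h.c0
  · rw [conj_re, conj_im, mul_neg, Real.sinh_neg, neg_sq]
    exact h.s1

/-- `sinh cosh ≤ 7/10` below the line, from the abscissa `29/100` on. -/
theorem sc_le {x : ℝ} (h0 : 0 ≤ x) (h1 : Real.sinh x ^ 2 ≤ 2 / 5) :
    |Real.sinh x * Real.cosh x| ≤ 3 / 4 := by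
  have s0 : 0 ≤ Real.sinh x := Real.sinh_nonneg_iff.2 h0
  have c0 := Real.cosh_pos x
  rw [abs_of_nonneg (by positivity)]
  have e : (Real.sinh x * Real.cosh x) ^ 2 ≤ (3 / 4) ^ 2 := by
    rw [mul_pow, Real.cosh_sq]
    nlinarith only [h1]
  exact (pow_le_pow_iff_left₀ (by positivity) (by norm_num) two_ne_zero).1 e

theorem cos29 : Real.cos (Real.pi * (29 / 100)) ^ 2 ≤ 377 / 1000 := by
  have e1 := Real.cos_sq (Real.pi * (29 / 100))
  have e2 : 2 * (Real.pi * (29 / 100)) = Real.pi * (2 / 25) + Real.pi / 2 := by ring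
  rw [e2, Real.cos_add_pi_div_two] at e1
  have p3 := Real.pi_lt_d4
  have p4 := Real.pi_gt_d4
  have h := Real.sin_gt_sub_cube (x := Real.pi * (2 / 25)) (by positivity)
  obtain ⟨x, hx⟩ : ∃ x, x = Real.pi * (2 / 25) := ⟨_, rfl⟩
  rw [← hx] at h e1
  have x1 : x ≤ 252 / 1000 := by linarith only [p3, hx]
  have x2 : 251 / 1000 ≤ x := by linarith only [p4, hx]
  have x3 : x ^ 3 ≤ (252 / 1000 : ℝ) ^ 3 := pow_le_pow_left₀ (by linarith) x1 3
  rw [e1]
  norm_num at x3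
  linarith

theorem bl_pos_of {θ a : ℝ} (h0 : 0 < θ) (h1 : θ < Real.pi / 2) (ha : |a| < 1 / 2) : 0 < bl θ a := by
  have hpi := Real.pi_pos
  apply div_pos _ hpi
  rw [Real.arsinh_pos_iff]
  exact mul_pos (Real.tan_pos_of_pos_of_lt_pi_div_two h0 h1)
    (cos_pos_of (by linarith [(abs_lt.1 ha).1]) (abs_lt.1 ha).2)

/-- the rate of a step along the line -/
theorem rate_line (D : ℂ) (T : ℝ) : (D * (1 - (T : ℂ) * I)).re = D.re + T * D.im := by
  rw [mul_re, sub_re, sub_im, one_re, one_im, re_ofReal_mul, im_ofReal_mul, I_re, I_im]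
  ring

/-- **Phase 1**: constant height. -/
theorem line1 {θ h a0 a1 : ℝ} {w : ℂ} {l l' : ℝ → ℝ} (hθ0 : 0 ≤ θ) (hθ1 : θ < Real.pi / 2)
    (ht : Real.tan θ ^ 2 ≤ 1) (hx : Real.tan θ ^ 2 ≤ 923 / 1000 ∨ 1 / 100 ≤ h) (ha0 : 0 ≤ a0) (ha1 : a1 ≤ 2 / 5)
    (hw : Rg w) (w0 : 0 ≤ w.re) (w1 : w.re ≤ 2 / 5) (hwh : w.im < h) (h0 : 0 < h)
    (h7 : Real.sinh (Real.pi * h) ^ 2 ≤ 2 / 5) (hb : h < bl θ a1)
    (hlc : ContinuousOn l (Icc a0 a1)) (hl : ∀ a ∈ Ioc a0 a1, HasDerivAt l (l' a) a)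
    (hbase : ∀ t ∈ Icc (0 : ℝ) (1 / 2),
      EE (.op (vl θ a0)) (.op w) ((t : ℂ) + (h : ℂ) * I) < l a0)
    (hcrit : ∀ a ∈ Ioc a0 a1, ∀ t ∈ Ico (1 / 200 : ℝ) (1 / 2),
      gPd ((t : ℂ) + (h : ℂ) * I) (vl θ a) w = ‖cos (Real.pi * ((t : ℂ) + (h : ℂ) * I))‖ ^ 4 →
      -l' a < 2 * Ml ((t : ℂ) + (h : ℂ) * I) (vl θ a) (Tl θ a)) :
    ∀ a ∈ Icc a0 a1, ∀ t ∈ Icc (0 : ℝ) (1 / 2),
      EE (.op (vl θ a)) (.op w) ((t : ℂ) + (h : ℂ) * I) < l a := by
  have hpi := Real.pi_pos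
  refine slide2 (v := vl θ) (v' := fun a => 1 - (Tl θ a : ℂ) * I) (h := fun _ => h)
    (h' := fun _ => 0) (l' := l') (vl_continuous θ).continuousOn continuousOn_const hlc ?_
    (fun a _ => hasDerivAt_const a h) hl hw w0 w1 ?_ ?_ hbase ?_
  · intro a ha
    exact vl_hasDerivAt θ (cos_pos_of (by linarith [ha.1]) (by linarith [ha.2])).ne'
  · intro a ha
    exact vl_rv hθ0 hθ1 (by linarith [ha.1]) (by linarith [ha.2]) ht hx
  · intro a ha
    refine ⟨h0, ?_, hwh.ne', sc_le (by positivity) h7⟩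
    rw [vl_im]
    exact (hb.trans_le (bl_antitone hθ0 hθ1 (by linarith [ha.1]) ha.2 (by linarith))).ne
  · intro a ha t ht' hg
    have := hcrit a ha t ht' hg
    rw [zero_mul, zero_add, rate_line]
    unfold Ml at this
    linarith

/-- **Phase 2**: the height follows the line. -/
theorem line2 {θ ρ a0 a1 : ℝ} {w : ℂ} {l l' : ℝ → ℝ} (hθ0 : 0 < θ) (hθ1 : θ < Real.pi / 2)
    (ht : Real.tan θ ^ 2 ≤ 1) (r7 : 7 / 10 ≤ ρ) (ha0 : 29 / 100 ≤ a0) (ha1 : a1 ≤ 2 / 5)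
    (hw : Rg w) (w0 : 0 ≤ w.re) (w1 : w.re ≤ 2 / 5) (wi : w.im ≤ 0) (r0 : 0 < ρ) (r1 : ρ < 1)
    (hlc : ContinuousOn l (Icc a0 a1)) (hl : ∀ a ∈ Ioc a0 a1, HasDerivAt l (l' a) a)
    (hbase : ∀ t ∈ Icc (0 : ℝ) (1 / 2),
      EE (.op (vl θ a0)) (.op w) ((t : ℂ) + (hgt ρ (bl θ a0) : ℂ) * I) < l a0)
    (hcrit : ∀ a ∈ Ioc a0 a1, ∀ t ∈ Ico (1 / 200 : ℝ) (1 / 2),
      gPd ((t : ℂ) + (hgt ρ (bl θ a) : ℂ) * I) (vl θ a) w =
        ‖cos (Real.pi * ((t : ℂ) + (hgt ρ (bl θ a) : ℂ) * I))‖ ^ 4 →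
      -l' a < 2 * Ml ((t : ℂ) + (hgt ρ (bl θ a) : ℂ) * I) (vl θ a) (Tl θ a) -
        rp ρ (bl θ a) * Tl θ a * (eY ((t : ℂ) + (hgt ρ (bl θ a) : ℂ) * I) (vl θ a) w).im) :
    ∀ a ∈ Icc a0 a1, ∀ t ∈ Icc (0 : ℝ) (1 / 2),
      EE (.op (vl θ a)) (.op w) ((t : ℂ) + (hgt ρ (bl θ a) : ℂ) * I) < l a := by
  have hpi := Real.pi_pos
  have hb : ∀ a ∈ Icc a0 a1, 0 < bl θ a := fun a ha =>
    bl_pos_of hθ0 hθ1 (by rw [abs_of_nonneg (by linarith [ha.1])]; linarith [ha.2])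
  refine slide2 (v := vl θ) (v' := fun a => 1 - (Tl θ a : ℂ) * I) (h := fun a => hgt ρ (bl θ a))
    (h' := fun a => rp ρ (bl θ a) * (-Tl θ a)) (l' := l') (vl_continuous θ).continuousOn
    ((hgt_continuous r0.le r1.le).comp (bl_cont θ)).continuousOn hlc ?_ ?_ hl hw w0 w1 ?_ ?_ hbase ?_
  · intro a ha
    exact vl_hasDerivAt θ (cos_pos_of (by linarith [ha.1]) (by linarith [ha.2])).ne'
  · intro a ha
    exact (hgt_hasDerivAt r0.le r1.le _).comp a
      (bl_hasDerivAt θ (cos_pos_of (by linarith [ha.1]) (by linarith [ha.2])).ne')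
  · intro a ha
    refine vl_rv hθ0.le hθ1 (by linarith [ha.1]) (by linarith [ha.2]) ht ?_
    by_cases hc : Real.tan θ ^ 2 ≤ 923 / 1000
    · exact Or.inl hc
    · right
      push Not at hc
      refine hgt_ge r7 r1.le (hb a ⟨ha.1.le, ha.2⟩).le ?_
      rw [sinh_pi_bl, mul_pow]
      have c2 := (vl_rg (θ := 0) (a := a) (by linarith [ha.1]) (by linarith [ha.2])
        (by rw [Real.tan_zero]; norm_num)).c0
      rw [vl_re] at c2
      nlinarith only [hc, c2]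
  · intro a ha
    have b0 := hb a ⟨ha.1.le, ha.2⟩
    have p0 := hgt_pos (ρ := ρ) r0 r1.le b0
    have p1 := hgt_le (ρ := ρ) r0.le r1.le b0.le
    have p2 : hgt ρ (bl θ a) < bl θ a := by
      rcases p1.lt_or_eq with h | h
      · exact h
      · exfalso
        have e := tanh_hgt (ρ := ρ) r0.le r1.le (bl θ a)
        rw [h] at e
        have tp : 0 < Real.tanh (Real.pi * bl θ a) := tanh_pos_of (by positivity)
        nlinarith only [r1, e, tp]
    refine ⟨p0, ?_, by linarith, sc_le (by positivity) ?_⟩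
    · rw [vl_im]; exact p2.ne
    · have s1 : Real.sinh (Real.pi * hgt ρ (bl θ a)) ≤ Real.sinh (Real.pi * bl θ (29 / 100)) := by
        apply Real.sinh_le_sinh.2
        apply mul_le_mul_of_nonneg_left _ hpi.le
        exact p1.trans (bl_antitone hθ0.le hθ1 (by norm_num) (by linarith [ha.1]) (by linarith [ha.2]))
      have s0 : 0 ≤ Real.sinh (Real.pi * hgt ρ (bl θ a)) :=
        Real.sinh_nonneg_iff.2 (by positivity)
      have s2 := pow_le_pow_left₀ s0 s1 2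
      rw [sinh_pi_bl, mul_pow] at s2
      have c29 := cos29
      have := mul_le_mul ht c29 (sq_nonneg _) (by norm_num)
      linarith
  · intro a ha t ht' hg
    have := hcrit a ha t ht' hg
    rw [rate_line]
    unfold Ml at this
    linarith

/-- **The slide along the line.** -/
theorem line_all {θ ρ h0 a0 am x0 Da Db D2 B : ℝ} {w : ℂ} {l r : ℝ → ℝ}
    (hθ0 : 0 < θ) (hθ1 : θ < Real.pi / 2) (ht : Real.tan θ ^ 2 ≤ 1)
    (hx : Real.tan θ ^ 2 ≤ 923 / 1000 ∨ 1 / 100 ≤ h0)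
    (ha0 : 29 / 100 ≤ a0) (ham : a0 ≤ am) (hx0 : am ≤ x0) (hx1 : x0 ≤ 2 / 5)
    (hw : Rg w) (w0 : 0 ≤ w.re) (w1 : w.re ≤ 2 / 5) (wi : w.im ≤ 0) (r7 : 7 / 10 ≤ ρ) (r1 : ρ < 1)
    (h00 : 0 < h0) (hC : Real.tanh (Real.pi * h0) ≤ ρ * Real.tanh (Real.pi * bl θ x0))
    (hl : ∀ a ∈ Icc a0 (2 / 5), HasDerivAt l (-(2 * r a)) a)
    (hbase : ∀ t ∈ Icc (0 : ℝ) (1 / 2),
      EE (.op (vl θ a0)) (.op w) ((t : ℂ) + (h0 : ℂ) * I) < l a0 - B)
    (hP1 : ∀ a ∈ Ioc a0 (2 / 5), Real.tanh (Real.pi * h0) ≤ ρ * Real.tanh (Real.pi * bl θ a) →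
      ∀ t ∈ Ico (1 / 200 : ℝ) (1 / 2),
      gPd ((t : ℂ) + (h0 : ℂ) * I) (vl θ a) w = ‖cos (Real.pi * ((t : ℂ) + (h0 : ℂ) * I))‖ ^ 4 →
      r a + (if a ≤ am then Da else Db) < Ml ((t : ℂ) + (h0 : ℂ) * I) (vl θ a) (Tl θ a))
    (hP2 : ∀ a ∈ Ioc x0 (2 / 5), hgt ρ (bl θ a) ≤ h0 → ∀ t ∈ Ico (1 / 200 : ℝ) (1 / 2),
      gPd ((t : ℂ) + (hgt ρ (bl θ a) : ℂ) * I) (vl θ a) w =
        ‖cos (Real.pi * ((t : ℂ) + (hgt ρ (bl θ a) : ℂ) * I))‖ ^ 4 →
      r a + D2 < Ml ((t : ℂ) + (hgt ρ (bl θ a) : ℂ) * I) (vl θ a) (Tl θ a) -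
        rp ρ (bl θ a) * Tl θ a / 2 * (eY ((t : ℂ) + (hgt ρ (bl θ a) : ℂ) * I) (vl θ a) w).im)
    (hB : 0 ≤ B) (h1 : 0 ≤ B + 2 * Da * (am - a0)) (hD : D2 ≤ Db)
    (h2 : 0 ≤ B + 2 * Da * (am - a0) + 2 * Db * (2 / 5 - am))
    (h3 : 0 ≤ B + 2 * Da * (am - a0) + 2 * Db * (x0 - am) + 2 * D2 * (2 / 5 - x0)) :
    (∀ a ∈ Icc a0 (2 / 5), ∃ H : ℝ, 0 < H ∧ H ≤ h0 ∧ ∀ t ∈ Icc (0 : ℝ) (1 / 2),
      EE (.op (vl θ a)) (.op w) ((t : ℂ) + (H : ℂ) * I) < l a) ∧
    ∃ H : ℝ, 0 < H ∧ H ≤ h0 ∧ Real.tanh (Real.pi * H) ≤ ρ * Real.tanh (Real.pi * bl θ (2 / 5)) ∧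
      (Real.tan θ ^ 2 ≤ 923 / 1000 ∨ 1 / 100 ≤ H) ∧ ∀ t ∈ Icc (0 : ℝ) (1 / 2),
      EE (.op (vl θ (2 / 5))) (.op w) ((t : ℂ) + (H : ℂ) * I) <
        l (2 / 5) - (B + 2 * Da * (am - a0) + 2 * Db * (x0 - am) + 2 * D2 * (2 / 5 - x0)) := by
  have hpi := Real.pi_pos
  have r0 : 0 < ρ := by linarith
  have hbp : ∀ a, a0 ≤ a → a ≤ 2 / 5 → 0 < bl θ a := fun a ha ha' =>
    bl_pos_of hθ0 hθ1 (by rw [abs_of_nonneg (by linarith)]; linarith)
  have hba : ∀ a b, a0 ≤ a → a ≤ b → b ≤ 2 / 5 → bl θ b ≤ bl θ a := fun a b h1 h2 h3 =>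
    bl_antitone hθ0.le hθ1 (by linarith) h2 (by linarith)
  -- below the line
  have hbelow : ∀ a, a0 ≤ a → a ≤ 2 / 5 →
      Real.tanh (Real.pi * h0) ≤ ρ * Real.tanh (Real.pi * bl θ a) → h0 < bl θ a := by
    intro a h4 h5 h6
    by_contra hc
    push Not at hc
    have h7 := tanh_mono (mul_le_mul_of_nonneg_left hc hpi.le)
    have h8 : 0 < Real.tanh (Real.pi * bl θ a) := tanh_pos_of (mul_pos hpi (hbp a h4 h5))
    nlinarith only [r1, h6, h7, h8]
  have hCa : ∀ a b, a0 ≤ a → a ≤ b → b ≤ 2 / 5 →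
      Real.tanh (Real.pi * h0) ≤ ρ * Real.tanh (Real.pi * bl θ b) →
      Real.tanh (Real.pi * h0) ≤ ρ * Real.tanh (Real.pi * bl θ a) := by
    intro a b h4 h5 h6 h7
    refine h7.trans (mul_le_mul_of_nonneg_left ?_ r0.le)
    exact tanh_mono (mul_le_mul_of_nonneg_left (hba a b h4 h5 h6) hpi.le)
  have h36 : ∀ {h : ℝ}, 0 ≤ h → h ≤ bl θ a0 → Real.sinh (Real.pi * h) ^ 2 ≤ 2 / 5 := by
    intro h g0 g1
    have s1 : Real.sinh (Real.pi * h) ≤ Real.sinh (Real.pi * bl θ (29 / 100)) := by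
      apply Real.sinh_le_sinh.2
      apply mul_le_mul_of_nonneg_left _ hpi.le
      exact g1.trans (bl_antitone hθ0.le hθ1 (by norm_num) ha0 (by linarith))
    have s0 : 0 ≤ Real.sinh (Real.pi * h) := Real.sinh_nonneg_iff.2 (by positivity)
    have s2 := pow_le_pow_left₀ s0 s1 2
    rw [sinh_pi_bl, mul_pow] at s2
    have := mul_le_mul ht cos29 (sq_nonneg _) (by norm_num)
    linarith
  have g0 : h0 < bl θ a0 := hbelow a0 le_rfl (by linarith) (hCa a0 x0 le_rfl (by linarith) hx1 hC)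
  have h37 := h36 h00.le g0.le
  have hlc : ∀ {x y : ℝ}, a0 ≤ x → y ≤ 2 / 5 → ContinuousOn l (Icc x y) := fun hx hy a ha =>
    (hl a ⟨hx.trans ha.1, ha.2.trans hy⟩).continuousAt.continuousWithinAt
  -- phase 1 on a piece
  have p1 : ∀ {x y D C : ℝ}, a0 ≤ x → x ≤ y → y ≤ 2 / 5 →
      Real.tanh (Real.pi * h0) ≤ ρ * Real.tanh (Real.pi * bl θ y) →
      (∀ a ∈ Ioc x y, D = if a ≤ am then Da else Db) →
      (∀ t ∈ Icc (0 : ℝ) (1 / 2), EE (.op (vl θ x)) (.op w) ((t : ℂ) + (h0 : ℂ) * I) < l x - C) →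
      ∀ a ∈ Icc x y, ∀ t ∈ Icc (0 : ℝ) (1 / 2),
        EE (.op (vl θ a)) (.op w) ((t : ℂ) + (h0 : ℂ) * I) < l a - C - 2 * D * (a - x) := by
    intro x y D C hxx hxy hy hCy hDD hb
    refine line1 (l := fun a => l a - C - 2 * D * (a - x)) (l' := fun a => -(2 * r a) - 2 * D)
      hθ0.le hθ1 ht hx (by linarith) hy hw w0 w1 (by linarith) h00 h37
      (hbelow y (hxx.trans hxy) hy hCy) ?_ ?_ ?_ ?_
    · exact ((hlc hxx hy).sub continuousOn_const).sub (by fun_prop)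
    · intro a ha
      have d1 := hl a ⟨by linarith [ha.1], by linarith [ha.2]⟩
      have d2 : HasDerivAt (fun a : ℝ => 2 * D * (a - x)) (2 * D) a := by
        have := ((hasDerivAt_id a).sub_const x).const_mul (2 * D)
        simpa using this
      exact (d1.sub_const C).sub d2
    · intro t ht'
      simp only [sub_self, mul_zero, sub_zero]
      exact hb t ht'
    · intro a ha t ht' hg
      have h5 := hP1 a ⟨by linarith [ha.1], by linarith [ha.2]⟩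
        (hCa a y (by linarith [ha.1]) ha.2 hy hCy) t ht' hg
      rw [← hDD a ha] at h5
      linarith
  -- phase 2 on a piece
  have p2 : ∀ {x C : ℝ}, x0 ≤ x → x ≤ 2 / 5 → Real.tanh (Real.pi * h0) =
      ρ * Real.tanh (Real.pi * bl θ x) →
      (∀ t ∈ Icc (0 : ℝ) (1 / 2), EE (.op (vl θ x)) (.op w) ((t : ℂ) + (h0 : ℂ) * I) < l x - C) →
      (∀ a ∈ Icc x (2 / 5), hgt ρ (bl θ a) ≤ h0) ∧
      ∀ a ∈ Icc x (2 / 5), ∀ t ∈ Icc (0 : ℝ) (1 / 2),
        EE (.op (vl θ a)) (.op w) ((t : ℂ) + (hgt ρ (bl θ a) : ℂ) * I) <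
          l a - C - 2 * D2 * (a - x) := by
    intro x C hxx hx' he hb
    have hx00 : a0 ≤ x := by linarith
    have e1 : hgt ρ (bl θ x) = h0 := by
      rw [hgt, ← he, Real.artanh_tanh, mul_div_cancel_left₀ _ hpi.ne']
    have hle : ∀ a ∈ Icc x (2 / 5), hgt ρ (bl θ a) ≤ h0 := by
      intro a ha
      rw [← e1, hgt, hgt]
      apply div_le_div_of_nonneg_right _ hpi.le
      apply Real.artanh_le_artanh (rho_tanh r0.le r1.le _).1 (rho_tanh r0.le r1.le _).2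
      apply mul_le_mul_of_nonneg_left _ r0.le
      exact tanh_mono (mul_le_mul_of_nonneg_left (hba x a hx00 ha.1 ha.2) hpi.le)
    refine ⟨hle, ?_⟩
    refine line2 (l := fun a => l a - C - 2 * D2 * (a - x)) (l' := fun a => -(2 * r a) - 2 * D2)
      hθ0 hθ1 ht r7 (by linarith) le_rfl hw w0 w1 wi r0 r1 ?_ ?_ ?_ ?_
    · exact ((hlc hx00 le_rfl).sub continuousOn_const).sub (by fun_prop)
    · intro a ha
      have d1 := hl a ⟨by linarith [ha.1], by linarith [ha.2]⟩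
      have d2 : HasDerivAt (fun a : ℝ => 2 * D2 * (a - x)) (2 * D2) a := by
        have := ((hasDerivAt_id a).sub_const x).const_mul (2 * D2)
        simpa using this
      exact (d1.sub_const C).sub d2
    · intro t ht'
      simp only [sub_self, mul_zero, sub_zero]
      rw [e1]
      exact hb t ht'
    · intro a ha t ht' hg
      have h5 := hP2 a ⟨by linarith [ha.1], ha.2⟩ (hle a ⟨ha.1.le, ha.2⟩) t ht' hg
      linarith
  -- the pieces
  have q1 := p1 (x := a0) (y := am) (D := Da) (C := B) le_rfl ham (by linarith)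
    (hCa am x0 ham hx0 hx1 hC) (fun a ha => by rw [if_pos ha.2]) hbase
  have q2 : ∀ y, am ≤ y → y ≤ 2 / 5 → Real.tanh (Real.pi * h0) ≤ ρ * Real.tanh (Real.pi * bl θ y) →
      ∀ a ∈ Icc am y, ∀ t ∈ Icc (0 : ℝ) (1 / 2),
        EE (.op (vl θ a)) (.op w) ((t : ℂ) + (h0 : ℂ) * I) <
          l a - (B + 2 * Da * (am - a0)) - 2 * Db * (a - am) := by
    intro y hy hy' hCy
    refine p1 (x := am) (y := y) (D := Db) (C := B + 2 * Da * (am - a0)) ham hy hy' hCy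
      (fun a ha => by rw [if_neg (not_le.2 ha.1)]) (fun t ht' => ?_)
    have := q1 am ⟨ham, le_rfl⟩ t ht'
    linarith
  have lin : ∀ {u v x y z : ℝ}, 0 ≤ u → 0 ≤ u + 2 * v * (y - x) → x ≤ z → z ≤ y →
      0 ≤ u + 2 * v * (z - x) := by
    intro u v x y z e1 e2 e3 e4
    rcases le_total 0 v with e5 | e5
    · have := mul_nonneg e5 (sub_nonneg.2 e3)
      linarith
    · have := mul_le_mul_of_nonpos_left (sub_le_sub_right e4 x) e5
      linarith
  by_cases hend : Real.tanh (Real.pi * h0) ≤ ρ * Real.tanh (Real.pi * bl θ (2 / 5))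
  · -- no phase 2
    have q := q2 (2 / 5) (by linarith) le_rfl hend
    constructor
    · intro a ha
      refine ⟨h0, h00, le_rfl, fun t ht' => ?_⟩
      rcases le_total a am with h5 | h5
      · have h6 := q1 a ⟨ha.1, h5⟩ t ht'
        have h7 := lin (u := B) (v := Da) (x := a0) (y := am) (z := a) hB h1 ha.1 h5
        linarith
      · have h6 := q a ⟨h5, ha.2⟩ t ht'
        have h7 := lin (u := B + 2 * Da * (am - a0)) (v := Db) (x := am) (y := 2 / 5) (z := a)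
          h1 h2 h5 ha.2
        linarith
    · refine ⟨h0, h00, le_rfl, hend, hx, fun t ht' => ?_⟩
      have h6 := q (2 / 5) ⟨by linarith, le_rfl⟩ t ht'
      have h7 := mul_le_mul_of_nonneg_right hD (sub_nonneg.2 hx1)
      linarith
  · -- the change of phase
    push Not at hend
    have hx' := hx
    clear hx
    obtain ⟨x, hx, hxe⟩ : ∃ x ∈ Icc x0 (2 / 5), ρ * Real.tanh (Real.pi * bl θ x) =
        Real.tanh (Real.pi * h0) := by
      have hcont : ContinuousOn (fun a => ρ * Real.tanh (Real.pi * bl θ a)) (Icc x0 (2 / 5)) := by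
        have ct : Continuous Real.tanh :=
          continuous_iff_continuousAt.2 fun x => (hasDerivAt_tanh' x).continuousAt
        exact (continuous_const.mul (ct.comp (continuous_const.mul (bl_cont θ)))).continuousOn
      exact intermediate_value_Icc' hx1 hcont ⟨hend.le, hC⟩
    have q := q2 x (by linarith [hx.1]) hx.2 hxe.ge
    obtain ⟨q3, q4⟩ := p2 (x := x) (C := B + 2 * Da * (am - a0) + 2 * Db * (x - am)) hx.1 hx.2
      hxe.symm (fun t ht' => by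
        have := q x ⟨by linarith [hx.1], le_rfl⟩ t ht'
        linarith)
    have ex : 0 ≤ B + 2 * Da * (am - a0) + 2 * Db * (x - am) :=
      lin (u := B + 2 * Da * (am - a0)) (v := Db) (x := am) (y := 2 / 5) (z := x)
        h1 h2 (by linarith [hx.1]) hx.2
    have et : B + 2 * Da * (am - a0) + 2 * Db * (x0 - am) + 2 * D2 * (2 / 5 - x0) ≤
        B + 2 * Da * (am - a0) + 2 * Db * (x - am) + 2 * D2 * (2 / 5 - x) := by
      have h7 := mul_le_mul_of_nonneg_right hD (sub_nonneg.2 hx.1)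
      linarith
    constructor
    · intro a ha
      rcases le_total a x with h5 | h5
      · refine ⟨h0, h00, le_rfl, fun t ht' => ?_⟩
        rcases le_total a am with h5' | h5'
        · have h6 := q1 a ⟨ha.1, h5'⟩ t ht'
          have h7 := lin (u := B) (v := Da) (x := a0) (y := am) (z := a) hB h1 ha.1 h5'
          linarith
        · have h6 := q a ⟨h5', h5⟩ t ht'
          have h7 := lin (u := B + 2 * Da * (am - a0)) (v := Db) (x := am) (y := 2 / 5) (z := a)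
            h1 h2 h5' ha.2
          linarith
      · refine ⟨hgt ρ (bl θ a), hgt_pos r0 r1.le (hbp a ha.1 ha.2), q3 a ⟨h5, ha.2⟩, fun t ht' => ?_⟩
        have h6 := q4 a ⟨h5, ha.2⟩ t ht'
        have h7 := lin (u := B + 2 * Da * (am - a0) + 2 * Db * (x - am)) (v := D2) (x := x)
          (y := 2 / 5) (z := a) ex (h3.trans et) h5 ha.2
        linarith
    · refine ⟨hgt ρ (bl θ (2 / 5)), hgt_pos r0 r1.le (hbp _ (by linarith) le_rfl),
        q3 _ ⟨hx.2, le_rfl⟩, (tanh_hgt r0.le r1.le _).le, ?_, fun t ht' => ?_⟩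
      · by_cases hc : Real.tan θ ^ 2 ≤ 923 / 1000
        · exact Or.inl hc
        · right
          push Not at hc
          refine hgt_ge r7 r1.le (hbp _ (by linarith) le_rfl).le ?_
          rw [sinh_pi_bl, mul_pow]
          have c2 := T2.cos_sq_25
          nlinarith only [hc, c2]
      have h6 := q4 (2 / 5) ⟨hx.2, le_rfl⟩ t ht'
      linarith

/-! ### The vertical -/

/-- The point of the vertical. -/
noncomputable def vv (η : ℝ) : ℂ := (((2 / 5 : ℝ)) : ℂ) + (η : ℂ) * I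

theorem vv_re (η : ℝ) : (vv η).re = 2 / 5 := line_re _ _

theorem vv_im (η : ℝ) : (vv η).im = η := line_im _ _

theorem vv_rv {η h : ℝ} (h0 : 0 ≤ η)
    (h1 : Real.sinh (Real.pi * η) ^ 2 ≤ Real.cos (Real.pi * (2 / 5)) ^ 2)
    (h2 : Real.sinh (Real.pi * η) ^ 2 ≤ 923 / 1000 * Real.cos (Real.pi * (2 / 5)) ^ 2 ∨
      1 / 100 ≤ h) : Rv (vv η) h := by
  refine ⟨?_, ?_, ?_, ?_, ?_, ?_⟩
  · rw [vv_re]; exact T2.cos_sq_25
  · rw [vv_re]; norm_num
  · rw [vv_re]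
  · rw [vv_im]; exact h0
  · rw [vv_re, vv_im]; exact h1
  · rw [vv_re, vv_im]; exact h2

theorem sinh_le_of {θ η : ℝ} (h0 : 0 ≤ η) (h1 : η ≤ bl θ (2 / 5)) :
    Real.sinh (Real.pi * η) ^ 2 ≤ Real.tan θ ^ 2 * Real.cos (Real.pi * (2 / 5)) ^ 2 := by
  have hpi := Real.pi_pos
  have h2 : Real.sinh (Real.pi * η) ≤ Real.tan θ * Real.cos (Real.pi * (2 / 5)) := by
    rw [← sinh_pi_bl]
    exact Real.sinh_le_sinh.2 (mul_le_mul_of_nonneg_left h1 hpi.le)
  have h3 : 0 ≤ Real.sinh (Real.pi * η) := Real.sinh_nonneg_iff.2 (mul_nonneg hpi.le h0)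
  have h4 := pow_le_pow_left₀ h3 h2 2
  rwa [mul_pow] at h4

/-- Down the vertical: any height function. -/
theorem vert_gen {θ η1 η0 K L : ℝ} {w : ℂ} {h h' : ℝ → ℝ} (ht : Real.tan θ ^ 2 ≤ 1)
    (g1 : 0 ≤ η1)
    (hx : ∀ η ∈ Ico η1 η0, Real.sinh (Real.pi * η) ^ 2 ≤
      923 / 1000 * Real.cos (Real.pi * (2 / 5)) ^ 2 ∨ 1 / 100 ≤ h η)
    (hw : Rg w) (w0 : 0 ≤ w.re) (w1 : w.re ≤ 2 / 5) (wi : w.im ≤ 0)
    (hd : ∀ η, HasDerivAt h (h' η) η)
    (hh : ∀ η ∈ Ico η1 η0, 0 < h η ∧ h η < η) (hb : η0 ≤ bl θ (2 / 5)) (hθ0 : 0 ≤ θ)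
    (hθ1 : θ < Real.pi / 2)
    (hbase : ∀ t ∈ Icc (0 : ℝ) (1 / 2),
      EE (.op (vv η0)) (.op w) ((t : ℂ) + (h η0 : ℂ) * I) < L)
    (hcrit : ∀ η ∈ Ico η1 η0, ∀ t ∈ Ico (1 / 200 : ℝ) (1 / 2),
      gPd ((t : ℂ) + (h η : ℂ) * I) (vv η) w = ‖cos (Real.pi * ((t : ℂ) + (h η : ℂ) * I))‖ ^ 4 →
      K * η < (he ((t : ℂ) + (h η : ℂ) * I + vv η) - he ((t : ℂ) + (h η : ℂ) * I - vv η)).im -
        h' η * (eY ((t : ℂ) + (h η : ℂ) * I) (vv η) w).im) :
    ∀ η ∈ Icc η1 η0, ∀ t ∈ Icc (0 : ℝ) (1 / 2),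
      EE (.op (vv η)) (.op w) ((t : ℂ) + (h η : ℂ) * I) < L - K * (η0 ^ 2 - η ^ 2) / 2 := by
  have hpi := Real.pi_pos
  have key := slide2 (v := fun a => vv (-a)) (v' := fun _ => -I) (h := fun a => h (-a))
    (h' := fun a => -h' (-a)) (l := fun a => L - K * (η0 ^ 2 - a ^ 2) / 2) (l' := fun a => K * a)
    (w := w) (a0 := -η0) (a1 := -η1) ?_ ?_ ?_ ?_ ?_ ?_ hw w0 w1 ?_ ?_ ?_ ?_
  · intro η hη t ht'
    have := key (-η) ⟨by linarith [hη.2], by linarith [hη.1]⟩ t ht'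
    simp only [neg_neg, neg_sq] at this
    exact this
  · unfold vv; fun_prop
  · have hc : Continuous h := continuous_iff_continuousAt.2 fun x => (hd x).continuousAt
    exact (hc.comp continuous_neg).continuousOn
  · fun_prop
  · intro a _
    have h2 : HasDerivAt (fun a : ℝ => ((-a : ℝ) : ℂ)) (-1) a := by
      have := (hasDerivAt_neg a).ofReal_comp
      simpa using this
    have h3 := (h2.mul_const I).const_add ((2 / 5 : ℝ) : ℂ)
    exact h3.congr_deriv (by ring)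
  · intro a _
    have := (hd (-a)).comp a (hasDerivAt_neg a)
    exact this.congr_deriv (by ring)
  · intro a _
    have h1 : HasDerivAt (fun a : ℝ => a ^ 2) (2 * a) a := by
      simpa using hasDerivAt_pow 2 a
    have h2 := (((h1.const_sub (η0 ^ 2)).const_mul K).div_const 2).const_sub L
    exact h2.congr_deriv (by ring)
  · intro a ha
    have k1 : -a ∈ Ico η1 η0 := ⟨by linarith [ha.2], by linarith [ha.1]⟩
    refine vv_rv (by linarith [k1.1]) ?_ (hx (-a) k1)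
    refine (sinh_le_of (θ := θ) (by linarith [k1.1]) (by linarith [k1.2])).trans ?_
    have := mul_le_mul_of_nonneg_right ht (sq_nonneg (Real.cos (Real.pi * (2 / 5))))
    linarith
  · intro a ha
    obtain ⟨k1, k2⟩ := hh (-a) ⟨by linarith [ha.2], by linarith [ha.1]⟩
    refine ⟨k1, ?_, by linarith, sc_le (by positivity) ?_⟩
    · rw [vv_im]; exact k2.ne
    · have s1 : Real.sinh (Real.pi * h (-a)) ≤ Real.sinh (Real.pi * bl θ (29 / 100)) := by
        apply Real.sinh_le_sinh.2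
        apply mul_le_mul_of_nonneg_left _ hpi.le
        have := bl_antitone (a := 29 / 100) (a' := 2 / 5) hθ0 hθ1 (by norm_num) (by norm_num)
          (by norm_num)
        linarith [ha.1]
      have s0 : 0 ≤ Real.sinh (Real.pi * h (-a)) := Real.sinh_nonneg_iff.2 (by positivity)
      have s2 := pow_le_pow_left₀ s0 s1 2
      rw [sinh_pi_bl, mul_pow] at s2
      have := mul_le_mul ht cos29 (sq_nonneg _) (by norm_num)
      linarith
  · intro t ht'
    simp only [neg_neg, neg_sq, sub_self, mul_zero, zero_div, sub_zero]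
    exact hbase t ht'
  · intro a ha t ht' hg
    have h5 := hcrit (-a) ⟨by linarith [ha.2], by linarith [ha.1]⟩ t ht' hg
    have e : ((he ((t : ℂ) + (h (-a) : ℂ) * I + vv (-a)) -
        he ((t : ℂ) + (h (-a) : ℂ) * I - vv (-a))) * -I).re =
        (he ((t : ℂ) + (h (-a) : ℂ) * I + vv (-a)) -
          he ((t : ℂ) + (h (-a) : ℂ) * I - vv (-a))).im := by
      rw [mul_neg, neg_re, mul_re, I_re, I_im]
      ring
    rw [e]
    linarith

theorem EE_cont2 (w : ℂ) : Continuous (fun p : ℂ × ℂ => EE (.op p.1) (.op w) p.2) := by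
  have r : ∀ {g : ℂ × ℂ → ℂ}, Continuous g → Continuous (fun p => Rf (g p)) := fun hg =>
    Rf_continuous.comp hg
  have c1 : Continuous (fun p : ℂ × ℂ => p.1) := continuous_fst
  have c2 : Continuous (fun p : ℂ × ℂ => p.2) := continuous_snd
  have k := ((((r (c2.add (continuous_const (y := (1 / 2 : ℂ))))).const_mul 2).sub
    (r (c2.sub c1))).sub (r (c2.add c1))).add
    ((((r (c2.add (continuous_const (y := (1 / 2 : ℂ))))).const_mul 2).sub
    (r (c2.sub (continuous_const (y := w))))).sub (r (c2.add (continuous_const (y := w)))))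
  exact k

/-- **The slide down the vertical.** -/
theorem vert_all {θ K L h1 : ℝ} {w : ℂ} (hθ0 : 0 < θ) (hθ1 : θ < Real.pi / 2)
    (ht : Real.tan θ ^ 2 ≤ 1) (hx1 : Real.tan θ ^ 2 ≤ 923 / 1000 ∨ 1 / 100 ≤ h1) (hw : Rg w) (w0 : 0 ≤ w.re) (w1 : w.re ≤ 2 / 5)
    (wi : w.im ≤ 0) (h10 : 0 < h1)
    (h11 : Real.tanh (Real.pi * h1) ≤ 19 / 20 * Real.tanh (Real.pi * bl θ (2 / 5)))
    (hbase : ∀ t ∈ Icc (0 : ℝ) (1 / 2),
      EE (.op (vv (bl θ (2 / 5)))) (.op w) ((t : ℂ) + (h1 : ℂ) * I) < L)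
    (h3a : ∀ ρ : ℝ, 7 / 10 ≤ ρ → ρ ≤ 19 / 20 → ∀ η ∈ Ioc (0 : ℝ) (bl θ (2 / 5)), hgt ρ η ≤ h1 →
      ∀ t ∈ Ico (1 / 200 : ℝ) (1 / 2),
      gPd ((t : ℂ) + (hgt ρ η : ℂ) * I) (vv η) w =
        ‖cos (Real.pi * ((t : ℂ) + (hgt ρ η : ℂ) * I))‖ ^ 4 →
      K * η < (he ((t : ℂ) + (hgt ρ η : ℂ) * I + vv η) - he ((t : ℂ) + (hgt ρ η : ℂ) * I - vv η)).im -
        rp ρ η * (eY ((t : ℂ) + (hgt ρ η : ℂ) * I) (vv η) w).im)
    (h3b : ∀ η ∈ Ioc (0 : ℝ) (bl θ (2 / 5)),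
      Real.tanh (Real.pi * h1) ≤ 7 / 10 * Real.tanh (Real.pi * η) →
      ∀ t ∈ Ico (1 / 200 : ℝ) (1 / 2),
      gPd ((t : ℂ) + (h1 : ℂ) * I) (vv η) w = ‖cos (Real.pi * ((t : ℂ) + (h1 : ℂ) * I))‖ ^ 4 →
      K * η < (he ((t : ℂ) + (h1 : ℂ) * I + vv η) - he ((t : ℂ) + (h1 : ℂ) * I - vv η)).im) :
    ∀ η ∈ Icc (0 : ℝ) (bl θ (2 / 5)), ∃ H : ℝ, 0 ≤ H ∧ H ≤ h1 ∧ ∀ t ∈ Icc (0 : ℝ) (1 / 2),
      EE (.op (vv η)) (.op w) ((t : ℂ) + (H : ℂ) * I) ≤ L - K * (bl θ (2 / 5) ^ 2 - η ^ 2) / 2 := by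
  have hpi := Real.pi_pos
  obtain ⟨β, hβ⟩ : ∃ β, β = bl θ (2 / 5) := ⟨_, rfl⟩
  rw [← hβ] at h11 hbase h3a h3b ⊢
  have hβ0 : 0 < β := by
    rw [hβ]; exact bl_pos_of hθ0 hθ1 (by rw [abs_of_pos (by norm_num)]; norm_num)
  have tβ : 0 < Real.tanh (Real.pi * β) := tanh_pos_of (by positivity)
  have th1 : 0 < Real.tanh (Real.pi * h1) := tanh_pos_of (by positivity)
  -- following from a point on
  have follow : ∀ {ρ η0 L' : ℝ}, 7 / 10 ≤ ρ → ρ ≤ 19 / 20 → 0 < η0 → η0 ≤ β →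
      Real.tanh (Real.pi * h1) = ρ * Real.tanh (Real.pi * η0) →
      (∀ t ∈ Icc (0 : ℝ) (1 / 2), EE (.op (vv η0)) (.op w) ((t : ℂ) + (h1 : ℂ) * I) < L') →
      ∀ η ∈ Ioc (0 : ℝ) η0, 0 < hgt ρ η ∧ hgt ρ η ≤ h1 ∧ ∀ t ∈ Icc (0 : ℝ) (1 / 2),
        EE (.op (vv η)) (.op w) ((t : ℂ) + (hgt ρ η : ℂ) * I) < L' - K * (η0 ^ 2 - η ^ 2) / 2 := by
    intro ρ η0 L' r1 r2 hη0 hη0' he' hb η hη
    have r0 : 0 < ρ := by linarith
    have e1 : hgt ρ η0 = h1 := by
      rw [hgt, ← he', Real.artanh_tanh, mul_div_cancel_left₀ _ hpi.ne']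
    have hle : ∀ x, 0 < x → x ≤ η0 → hgt ρ x ≤ h1 := by
      intro x hx hx'
      rw [← e1, hgt, hgt]
      apply div_le_div_of_nonneg_right _ hpi.le
      apply Real.artanh_le_artanh (rho_tanh r0.le (by linarith) _).1
        (rho_tanh r0.le (by linarith) _).2
      apply mul_le_mul_of_nonneg_left _ r0.le
      exact tanh_mono (mul_le_mul_of_nonneg_left hx' hpi.le)
    refine ⟨hgt_pos r0 (by linarith) hη.1, hle η hη.1 hη.2, ?_⟩
    have := vert_gen (θ := θ) (η1 := η) (η0 := η0) (K := K) (L := L') (w := w) (h := hgt ρ)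
      (h' := rp ρ) ht hη.1.le ?_ hw w0 w1 wi
      (fun x => hgt_hasDerivAt r0.le (by linarith) x) ?_ (by rw [← hβ]; exact hη0') hθ0.le hθ1 ?_ ?_
    · exact this η ⟨le_rfl, hη.2⟩
    · intro x hx
      by_cases hc : Real.sinh (Real.pi * x) ^ 2 ≤ 923 / 1000 * Real.cos (Real.pi * (2 / 5)) ^ 2
      · exact Or.inl hc
      · right
        push Not at hc
        refine hgt_ge r1 (by linarith) (hη.1.le.trans hx.1) ?_
        have c2 := T2.cos_sq_25
        linarith only [hc, c2]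
    · intro x hx
      have x0 : 0 < x := lt_of_lt_of_le hη.1 hx.1
      refine ⟨hgt_pos r0 (by linarith) x0, ?_⟩
      rcases (hgt_le (ρ := ρ) (x := x) r0.le (by linarith) x0.le).lt_or_eq with h | h
      · exact h
      · exfalso
        have e := tanh_hgt (ρ := ρ) r0.le (by linarith) x
        rw [h] at e
        have tp : 0 < Real.tanh (Real.pi * x) := tanh_pos_of (by positivity)
        nlinarith only [r2, e, tp]
    · rw [e1]; exact hb
    · intro x hx t ht' hg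
      exact h3a ρ r1 r2 x ⟨lt_of_lt_of_le hη.1 hx.1, hx.2.le.trans hη0'⟩
        (hle x (lt_of_lt_of_le hη.1 hx.1) hx.2.le) t ht' hg
  -- all positive heights
  have pos : ∀ η ∈ Ioc (0 : ℝ) β, ∃ H : ℝ, 0 < H ∧ H ≤ h1 ∧ H ≤ η ∧ ∀ t ∈ Icc (0 : ℝ) (1 / 2),
      EE (.op (vv η)) (.op w) ((t : ℂ) + (H : ℂ) * I) < L - K * (β ^ 2 - η ^ 2) / 2 := by
    intro η hη
    rcases le_total (7 / 10 * Real.tanh (Real.pi * β)) (Real.tanh (Real.pi * h1)) with hc | hc
    · obtain ⟨f1, f2, f3⟩ := follow (ρ := Real.tanh (Real.pi * h1) / Real.tanh (Real.pi * β))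
        (η0 := β) (L' := L) (by rw [le_div_iff₀ tβ]; exact hc) (by rw [div_le_iff₀ tβ]; exact h11)
        hβ0 le_rfl (by field_simp) hbase η hη
      refine ⟨_, f1, f2, hgt_le (by positivity) ?_ hη.1.le, f3⟩
      rw [div_le_one tβ]; linarith
    · -- frozen, then following
      have frozen : ∀ η2, 0 ≤ η2 → Real.tanh (Real.pi * h1) ≤ 7 / 10 * Real.tanh (Real.pi * η2) →
          ∀ x ∈ Icc η2 β, ∀ t ∈ Icc (0 : ℝ) (1 / 2),
            EE (.op (vv x)) (.op w) ((t : ℂ) + (h1 : ℂ) * I) < L - K * (β ^ 2 - x ^ 2) / 2 := by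
        intro η2 k0 k1
        have k2 : 0 < η2 := by
          rcases k0.lt_or_eq with h | h
          · exact h
          · rw [← h, mul_zero, Real.tanh_zero, mul_zero] at k1
            linarith
        have mon : ∀ x, η2 ≤ x → Real.tanh (Real.pi * h1) ≤ 7 / 10 * Real.tanh (Real.pi * x) :=
          fun x hx => k1.trans (mul_le_mul_of_nonneg_left
            (tanh_mono (mul_le_mul_of_nonneg_left hx hpi.le)) (by norm_num))
        refine vert_gen (θ := θ) (η1 := η2) (η0 := β) (K := K) (L := L) (w := w)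
          (h := fun _ => h1) (h' := fun _ => 0) ht k0 ?_ hw w0 w1 wi
          (fun x => hasDerivAt_const x h1) ?_ hβ.le hθ0.le hθ1 hbase ?_
        · intro x hx
          rcases hx1 with hx1 | hx1
          · left
            refine (sinh_le_of (θ := θ) (k0.trans hx.1) (by rw [← hβ]; exact hx.2.le)).trans ?_
            exact mul_le_mul_of_nonneg_right hx1 (sq_nonneg _)
          · exact Or.inr hx1
        · intro x hx
          refine ⟨h10, ?_⟩
          by_contra hcc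
          push Not at hcc
          have m1 := tanh_mono (mul_le_mul_of_nonneg_left hcc hpi.le)
          have m2 := mon x hx.1
          have m3 : 0 < Real.tanh (Real.pi * x) :=
            tanh_pos_of (mul_pos hpi (lt_of_lt_of_le k2 hx.1))
          linarith
        · intro x hx t ht' hg
          have := h3b x ⟨lt_of_lt_of_le k2 hx.1, hx.2.le⟩ (mon x hx.1) t ht' hg
          rw [zero_mul, sub_zero]
          exact this
      obtain ⟨η2, hη2⟩ : ∃ x, x = Real.artanh (Real.tanh (Real.pi * h1) / (7 / 10)) / Real.pi :=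
        ⟨_, rfl⟩
      have t1 : Real.tanh (Real.pi * h1) / (7 / 10) ≤ Real.tanh (Real.pi * β) := by
        rw [div_le_iff₀ (by norm_num)]; linarith
      have t2 : Real.tanh (Real.pi * η2) = Real.tanh (Real.pi * h1) / (7 / 10) := by
        rw [hη2, mul_div_cancel₀ _ hpi.ne']
        refine Real.tanh_artanh ⟨?_, t1.trans_lt (Real.tanh_lt_one _)⟩
        have : 0 < Real.tanh (Real.pi * h1) / (7 / 10) := by positivity
        linarith
      have e2 : Real.tanh (Real.pi * h1) = 7 / 10 * Real.tanh (Real.pi * η2) := by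
        rw [t2]; ring
      have p2 : 0 < η2 := by
        rw [hη2]
        apply div_pos _ hpi
        exact Real.artanh_pos ⟨by positivity, t1.trans_lt (Real.tanh_lt_one _)⟩
      have p3 : η2 ≤ β := by
        by_contra hcc
        push Not at hcc
        have h5 := Real.artanh_le_artanh (x := Real.tanh (Real.pi * η2))
          (y := Real.tanh (Real.pi * β)) (by linarith [tanh_pos_of (mul_pos hpi p2)])
          (Real.tanh_lt_one _) (by rw [t2]; exact t1)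
        rw [Real.artanh_tanh, Real.artanh_tanh] at h5
        nlinarith only [hpi, hcc, h5]
      rcases le_total η2 η with h5 | h5
      · refine ⟨h1, h10, le_rfl, ?_, frozen η2 p2.le e2.le η ⟨h5, hη.2⟩⟩
        by_contra hcc
        push Not at hcc
        have m1 := tanh_mono (mul_le_mul_of_nonneg_left hcc.le hpi.le)
        have m2 := tanh_mono (mul_le_mul_of_nonneg_left h5 hpi.le)
        have m3 := tanh_pos_of (mul_pos hpi hη.1)
        linarith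
      · obtain ⟨f1, f2, f3⟩ := follow (ρ := 7 / 10) (η0 := η2)
          (L' := L - K * (β ^ 2 - η2 ^ 2) / 2) le_rfl (by norm_num) p2 p3 e2
          (frozen η2 p2.le e2.le η2 ⟨le_rfl, p3⟩) η ⟨hη.1, h5⟩
        refine ⟨_, f1, f2, hgt_le (by norm_num) (by norm_num) hη.1.le, fun t ht' => ?_⟩
        have := f3 t ht'
        linarith
  intro η hη
  rcases hη.1.lt_or_eq with h0 | h0
  · obtain ⟨H, a1, a2, a3, a4⟩ := pos η ⟨h0, hη.2⟩
    exact ⟨H, a1.le, a2, fun t ht' => (a4 t ht').le⟩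
  · -- the limit
    refine ⟨0, le_rfl, h10.le, fun t ht' => ?_⟩
    rw [← h0]
    choose! H b1 b2 b3 b4 using pos
    have hH : Filter.Tendsto H (nhdsWithin 0 (Ioi 0)) (nhds 0) := by
      refine tendsto_of_tendsto_of_tendsto_of_le_of_le' (g := fun _ => (0 : ℝ)) (h := fun x => x)
        tendsto_const_nhds ((continuous_id.tendsto (0 : ℝ)).mono_left nhdsWithin_le_nhds) ?_ ?_
      · filter_upwards [Ioc_mem_nhdsGT hβ0] with x hx
        exact (b1 x hx).le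
      · filter_upwards [Ioc_mem_nhdsGT hβ0] with x hx
        exact b3 x hx
    have hx : Filter.Tendsto (fun x : ℝ => x) (nhdsWithin 0 (Ioi 0)) (nhds 0) :=
      (continuous_id.tendsto (0 : ℝ)).mono_left nhdsWithin_le_nhds
    obtain ⟨F, hF⟩ : ∃ F : ℂ × ℂ → ℝ, F = fun p => EE (.op p.1) (.op w) p.2 := ⟨_, rfl⟩
    have hFc : Continuous F := by rw [hF]; exact EE_cont2 w
    obtain ⟨G, hG⟩ : ∃ G : ℝ × ℝ → ℂ × ℂ, G = fun p => (vv p.1, (t : ℂ) + ((p.2 : ℝ) : ℂ) * I) :=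
      ⟨_, rfl⟩
    have hGc : Continuous G := by
      rw [hG]
      have c1 : Continuous vv := by unfold vv; fun_prop
      have c2 : Continuous (fun p : ℝ × ℝ => vv p.1) := c1.comp continuous_fst
      have c3 : Continuous (fun p : ℝ × ℝ => ((p.2 : ℝ) : ℂ)) :=
        continuous_ofReal.comp continuous_snd
      exact c2.prodMk (continuous_const.add (c3.mul continuous_const))
    have l1 : Filter.Tendsto (fun x : ℝ => F (G (x, H x))) (nhdsWithin 0 (Ioi 0))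
        (nhds (F (G (0, 0)))) :=
      ((hFc.comp hGc).tendsto (0, 0)).comp (hx.prodMk_nhds hH)
    have l2 : Filter.Tendsto (fun x : ℝ => L - K * (β ^ 2 - x ^ 2) / 2) (nhdsWithin 0 (Ioi 0))
        (nhds (L - K * (β ^ 2 - 0 ^ 2) / 2)) := by
      have : Continuous (fun x : ℝ => L - K * (β ^ 2 - x ^ 2) / 2) := by fun_prop
      exact (this.tendsto 0).mono_left nhdsWithin_le_nhds
    have l3 : F (G (0, 0)) ≤ L - K * (β ^ 2 - 0 ^ 2) / 2 := by
      refine le_of_tendsto_of_tendsto l1 l2 ?_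
      filter_upwards [Ioc_mem_nhdsGT hβ0] with x hx
      rw [hF, hG]
      exact (b4 x hx t ht').le
    rw [hF, hG] at l3
    exact l3

end Pool.Agent.S3
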