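import Pool.Agent.S3.Ck.Fk1
import Pool.Agent.S3.Ck.Fk10
import Pool.Agent.S3.Ck.Fk11
import Pool.Agent.S3.Ck.Fk12
import Pool.Agent.S3.Ck.Fk2
import Pool.Agent.S3.Ck.Fk3
import Pool.Agent.S3.Ck.Fk4
import Pool.Agent.S3.Ck.Fk5
import Pool.Agent.S3.Ck.Fk6
import Pool.Agent.S3.Ck.Fk7
import Pool.Agent.S3.Ck.Fk8
import Pool.Agent.S3.Ck.Fk9
import Pool.Agent.S3.W2.Flats
import Pool.Agent.S3.W2.PhiB
import Pool.Agent.S3.W2.Scheme

/-!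
# The base of the slides and the flats before it, second vertex with at least three half twists
-/

set_option autoImplicit false

namespace Pool.Agent.S3.T2

open Complex
open Pool.Agent.H25.RK (gdv)

/-! ### The regions -/

/-- The region of the flats: `x = re v`, `y = re w`. -/
def R23 (x y : ℝ) : Prop :=
  (y ≤ 4 / 25 ∧ x ≤ 333 / 1000) ∨ ((4 / 25 ≤ y ∧ y ≤ 1 / 5) ∧ x ≤ 338 / 1000) ∨
  ((1 / 5 ≤ y ∧ y ≤ 6 / 25) ∧ x ≤ 346 / 1000) ∨ ((6 / 25 ≤ y ∧ y ≤ 7 / 25) ∧ x ≤ 357 / 1000) ∨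
  ((7 / 25 ≤ y ∧ y ≤ 29 / 100) ∧ x ≤ 372 / 1000) ∨
  ((29 / 100 ≤ y ∧ y ≤ 59 / 200) ∧ 39 / 400 ≤ x ∧ x ≤ 375 / 1000) ∨
  ((59 / 200 ≤ y ∧ y ≤ 3 / 10) ∧ 3 / 20 ≤ x ∧ x ≤ 375 / 1000) ∨
  ((3 / 10 ≤ y ∧ y ≤ 61 / 200) ∧ 9 / 50 ≤ x ∧ x ≤ 375 / 1000) ∨
  ((61 / 200 ≤ y ∧ y ≤ 31 / 100) ∧ 1 / 5 ≤ x ∧ x ≤ 375 / 1000) ∨
  ((31 / 100 ≤ y ∧ y ≤ 63 / 200) ∧ 11 / 50 ≤ x ∧ x ≤ 375 / 1000) ∨
  ((63 / 200 ≤ y ∧ y ≤ 8 / 25) ∧ 47 / 200 ≤ x ∧ x ≤ 375 / 1000) ∨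
  ((8 / 25 ≤ y ∧ y ≤ 13 / 40) ∧ 1 / 4 ≤ x ∧ x ≤ 375 / 1000)

/-- The last abscissa of the flats. -/
noncomputable def A23 (y : ℝ) : ℝ :=
  if y ≤ 4 / 25 then 333 / 1000 else if y ≤ 1 / 5 then 338 / 1000 else
  if y ≤ 6 / 25 then 346 / 1000 else if y ≤ 7 / 25 then 351 / 1000 else
  if y ≤ 29 / 100 then 372 / 1000 else 375 / 1000

/-- The first abscissa of the flats. -/
noncomputable def V23 (y : ℝ) : ℝ :=
  if y ≤ 29 / 100 then 0 else if y ≤ 59 / 200 then 39 / 400 else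
  if y ≤ 3 / 10 then 3 / 20 else if y ≤ 61 / 200 then 9 / 50 else
  if y ≤ 31 / 100 then 1 / 5 else if y ≤ 63 / 200 then 11 / 50 else
  if y ≤ 8 / 25 then 47 / 200 else 1 / 4

theorem R23_of {x y : ℝ} (hy : y ≤ 13 / 40) (h0 : V23 y ≤ x) (h1 : x ≤ A23 y) : R23 x y := by
  unfold V23 at h0
  unfold A23 at h1
  unfold R23
  rcases le_or_gt y (4 / 25) with c1 | c1
  · rw [if_pos c1] at h1
    exact Or.inl ⟨c1, h1⟩
  rw [if_neg (not_le.2 c1)] at h1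
  rcases le_or_gt y (1 / 5) with c2 | c2
  · rw [if_pos c2] at h1
    exact Or.inr (Or.inl ⟨⟨c1.le, c2⟩, h1⟩)
  rw [if_neg (not_le.2 c2)] at h1
  rcases le_or_gt y (6 / 25) with c3 | c3
  · rw [if_pos c3] at h1
    exact Or.inr (Or.inr (Or.inl ⟨⟨c2.le, c3⟩, h1⟩))
  rw [if_neg (not_le.2 c3)] at h1
  rcases le_or_gt y (7 / 25) with c4 | c4
  · rw [if_pos c4] at h1
    exact Or.inr (Or.inr (Or.inr (Or.inl ⟨⟨c3.le, c4⟩, by linarith⟩)))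
  rw [if_neg (not_le.2 c4)] at h1
  rcases le_or_gt y (29 / 100) with c5 | c5
  · rw [if_pos c5] at h1
    exact Or.inr (Or.inr (Or.inr (Or.inr (Or.inl ⟨⟨c4.le, c5⟩, h1⟩))))
  rw [if_neg (not_le.2 c5)] at h1
  rw [if_neg (not_le.2 c5)] at h0
  rcases le_or_gt y (59 / 200) with c6 | c6
  · rw [if_pos c6] at h0
    exact Or.inr (Or.inr (Or.inr (Or.inr (Or.inr (Or.inl ⟨⟨c5.le, c6⟩, h0, h1⟩)))))
  rw [if_neg (not_le.2 c6)] at h0
  rcases le_or_gt y (3 / 10) with c7 | c7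
  · rw [if_pos c7] at h0
    exact Or.inr (Or.inr (Or.inr (Or.inr (Or.inr (Or.inr (Or.inl ⟨⟨c6.le, c7⟩, h0, h1⟩))))))
  rw [if_neg (not_le.2 c7)] at h0
  rcases le_or_gt y (61 / 200) with c8 | c8
  · rw [if_pos c8] at h0
    exact Or.inr (Or.inr (Or.inr (Or.inr (Or.inr (Or.inr (Or.inr (Or.inl
      ⟨⟨c7.le, c8⟩, h0, h1⟩)))))))
  rw [if_neg (not_le.2 c8)] at h0
  rcases le_or_gt y (31 / 100) with c9 | c9
  · rw [if_pos c9] at h0
    exact Or.inr (Or.inr (Or.inr (Or.inr (Or.inr (Or.inr (Or.inr (Or.inr (Or.inl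
      ⟨⟨c8.le, c9⟩, h0, h1⟩))))))))
  rw [if_neg (not_le.2 c9)] at h0
  rcases le_or_gt y (63 / 200) with c10 | c10
  · rw [if_pos c10] at h0
    exact Or.inr (Or.inr (Or.inr (Or.inr (Or.inr (Or.inr (Or.inr (Or.inr (Or.inr (Or.inl
      ⟨⟨c9.le, c10⟩, h0, h1⟩)))))))))
  rw [if_neg (not_le.2 c10)] at h0
  rcases le_or_gt y (8 / 25) with c11 | c11
  · rw [if_pos c11] at h0
    exact Or.inr (Or.inr (Or.inr (Or.inr (Or.inr (Or.inr (Or.inr (Or.inr (Or.inr (Or.inr (Or.inl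
      ⟨⟨c10.le, c11⟩, h0, h1⟩))))))))))
  · rw [if_neg (not_le.2 c11)] at h0
    exact Or.inr (Or.inr (Or.inr (Or.inr (Or.inr (Or.inr (Or.inr (Or.inr (Or.inr (Or.inr (Or.inr
      ⟨⟨c11.le, hy⟩, h0, h1⟩))))))))))

theorem R23.le {x y : ℝ} (h : R23 x y) : x ≤ 375 / 1000 := by
  rcases h with h | h | h | h | h | h | h | h | h | h | h | h
  · linarith [h.2]
  · linarith [h.2]
  · linarith [h.2]
  · linarith [h.2]
  · linarith [h.2]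
  · exact h.2.2
  · exact h.2.2
  · exact h.2.2
  · exact h.2.2
  · exact h.2.2
  · exact h.2.2
  · exact h.2.2

section

variable {θ θ' : ℝ} {v w : ℂ}

/-- The criterion in the region. -/
theorem FM23 (hp : Pr θ θ' v w) (j : Ck.J3 (Real.tan θ ^ 2) (Real.tan θ' ^ 2))
    (t1 : Real.tan θ ^ 2 < 1) (t2 : Real.tan θ' ^ 2 ≤ 1 / 4) (h : R23 v.re w.re) : FM v w := by
  rcases h with h | h | h | h | h | h | h | h | h | h | h | h
  · exact Ck.flat_k1 hp j t1 t2 h.2 h.1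
  · exact Ck.flat_k2 hp j t1 t2 (by linarith [h.2]) h.1.1 h.1.2
  · exact Ck.flat_k3 hp j t1 t2 (by linarith [h.2]) h.1.1 h.1.2
  · exact Ck.flat_k4 hp j t1 t2 h.2 h.1.1 h.1.2
  · exact Ck.flat_k5 hp j t1 t2 (by linarith [h.2]) h.1.1 h.1.2
  · exact Ck.flat_k6 hp j t1 t2 h.2.1 (by linarith [h.2.2]) h.1.1 h.1.2
  · exact Ck.flat_k7 hp j t1 t2 h.2.1 (by linarith [h.2.2]) h.1.1 h.1.2
  · exact Ck.flat_k8 hp j t1 t2 h.2.1 (by linarith [h.2.2]) h.1.1 h.1.2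
  · exact Ck.flat_k9 hp j t1 t2 h.2.1 (by linarith [h.2.2]) h.1.1 h.1.2
  · exact Ck.flat_k10 hp j t1 t2 h.2.1 (by linarith [h.2.2]) h.1.1 h.1.2
  · exact Ck.flat_k11 hp j t1 t2 h.2.1 (by linarith [h.2.2]) h.1.1 h.1.2
  · exact Ck.flat_k12 hp j t1 t2 h.2.1 (by linarith [h.2.2]) h.1.1 h.1.2

end

/-! ### No loss -/

/-- `re v ≤ 19 / 50`, squared tangents at most `47 / 50`, `1 / 4`. -/
theorem nl_num_k {q X : ℝ} (hq : 135 / 1000 ≤ q) (hX : 0 ≤ X) (hz : X ≤ 47 / 50 * q) :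
    Bf q X ≤ 0 ∨ Bf q X ^ 2 < 8 * X * (1 + X) * (1 / (1 + 1 / 4)) := by
  rcases le_or_gt (Bf q X) 0 with h | h
  · exact Or.inl h
  right
  have hX1 : 47 / 1000 < X := by
    by_contra hc
    push Not at hc
    have := Bf_le (q0 := 135 / 1000) (β := 0) (by norm_num) hq hX le_rfl (by nlinarith)
    linarith
  rcases le_total X (85 / 1000) with c0 | c0
  · have := Bf_le (q0 := 135 / 1000) (β := 51 / 100) (by norm_num) hq hX (by norm_num)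
      (by nlinarith)
    exact sq_lt_of h this (by nlinarith)
  rcases le_total X (107 / 1000) with c1 | c1
  · have := Bf_le (q0 := 135 / 1000) (β := 75 / 100) (by norm_num) hq hX (by norm_num)
      (by nlinarith)
    exact sq_lt_of h this (by nlinarith)
  rcases le_total X (118 / 1000) with c2 | c2
  · have := Bf_le (q0 := 135 / 1000) (β := 855 / 1000) (by norm_num) hq hX (by norm_num)
      (by nlinarith)
    exact sq_lt_of h this (by nlinarith)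
  rcases le_total X (124 / 1000) with c3 | c3
  · have := Bf_le (q0 := 135 / 1000) (β := 908 / 1000) (by norm_num) hq hX (by norm_num)
      (by nlinarith)
    exact sq_lt_of h this (by nlinarith)
  · have h1 := Bf_le' (q := q) (κ := 47 / 50) (by linarith) hX (by norm_num) hz
    exact sq_lt_of h (β := 931 / 1000) (by linarith) (by nlinarith)

section

variable {θ θ' : ℝ} {v w : ℂ}

theorem Pr.nl_k (h : Pr θ θ' v w) (hre : v.re ≤ 19 / 50) (h1 : Real.tan θ ^ 2 ≤ 47 / 50)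
    (h2 : Real.tan θ' ^ 2 ≤ 1 / 4) : NL v w := by
  apply h.nl_of (κ := 1 / 4) (by norm_num) (by norm_num) h2
  exact nl_num_k (cos_sq_1950.trans (cos_sq_anti h.hv.re0 hre (by norm_num))) (sq_nonneg _)
    (h.hv.bl_tan h.hθ h1)

/-- No loss, second vertex with at least three half twists and squared tangent at most `1 / 4`. -/
theorem Pr.nl_23 (h : Pr θ θ' v w) (j : Ck.J3 (Real.tan θ ^ 2) (Real.tan θ' ^ 2))
    (t1 : Real.tan θ ^ 2 < 1) (t2 : Real.tan θ' ^ 2 ≤ 1 / 4) (hre : v.re ≤ 19 / 50) : NL v w := by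
  rcases j.ck t1 t2 with ⟨a, b⟩ | ⟨a, b⟩ | ⟨a, b⟩
  · exact h.nl_b hre (by linarith)
  · exact h.nl_k hre a (by linarith)
  · exact h.nl_k hre (by linarith) b

end

/-! ### The data of an edge -/

/-- An edge between a vertex with two half twists and one with at least three. -/
structure D23 (Φ : ℂ → ℂ → ℂ) (θ θ' xc xc' b b' : ℝ) (a' : ℕ) : Prop where
  H : OO Φ θ θ' xc xc' b b' (2 / 5) (13 / 40)
  j : Ck.J3 (Real.tan θ ^ 2) (Real.tan θ' ^ 2)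
  t1 : Real.tan θ ^ 2 < 1
  t2 : Real.tan θ' ^ 2 ≤ 1 / 4
  ok : VOK 2 θ (gdv (UU xc θ)).re b (2 / 5)
  ok' : VOK a' θ' (gdv (UU xc' θ')).re b' (13 / 40)
  ha : 3 ≤ a'

section

variable {Φ : ℂ → ℂ → ℂ} {θ θ' xc xc' b b' μ : ℝ} {a' : ℕ} {v w : ℂ}

theorem VOK.re_le {b c θ v1 : ℝ} (h : VOK 2 θ c b v1) : c ≤ 31 / 100 := by
  rcases h with ⟨-, -, h1, h2, h3⟩ | ⟨h, -⟩ | ⟨h, -⟩
  · rcases h3 with h3 | ⟨h3, h4, h5⟩
    · linarith
    · exact h3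
  · omega
  · omega

theorem cmp_re_le {v1 : ℝ} (w : ℂ) : (cmp v1 w).re ≤ v1 := by
  unfold cmp
  split_ifs with h
  · exact h
  · rw [ofReal_re]

/-- **The base of a slide**: for every point of the contour of the second vertex. -/
theorem D23.base (D : D23 Φ θ θ' xc xc' b b' a') (hw : w ∈ G0 θ' (13 / 40)) (hw0 : 0 ≤ w.re)
    {a0 : ℝ} (ha0 : 8 / 25 ≤ a0) (hR : R23 a0 (cmp (13 / 40) w).re) {t : ℝ}
    (ht : t ∈ Set.Icc (0 : ℝ) (1 / 2)) :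
    EE (.op (vl θ a0)) (.op ((starRingEnd ℂ) (cmp (13 / 40) w)))
        ((t : ℂ) + ((yv (vl θ a0) (cmp (13 / 40) w)).im : ℂ) * I) <
      LM Φ θ θ' b b' xc xc' (2 / 5) (13 / 40) μ (mu b' (a' : ℝ) (13 / 40)) (vl θ a0) w -
        49 / 50 * BP b (gdv (UU xc θ)) (vl θ a0) := by
  have H := D.H
  have hx := hR.le
  have hv0 : 0 ≤ (vl θ a0).re := by rw [vl_re]; linarith
  have hv1 : (vl θ a0).re ≤ 2 / 5 := by rw [vl_re]; linarith
  have hvl : (vl θ a0).im = bl θ (vl θ a0).re := by rw [vl_im, vl_re]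
  have hv : vl θ a0 ∈ G0 θ (2 / 5) := Or.inl ⟨by rwa [abs_of_nonneg hv0], hvl⟩
  have hp := H.pr hv hv0 hw hw0
  rw [show cmp (2 / 5) (vl θ a0) = vl θ a0 from if_pos hv1] at hp
  have hF := FM23 hp D.j D.t1 D.t2 (by rw [vl_re]; exact hR)
  have n1 := hp.nl_23 D.j D.t1 D.t2 (by rw [vl_re]; linarith)
  have n2 := hp.symm.nl_t (cmp_re_le w) (by linarith [D.t2])
  have hth := Real.le_tan H.hθ.pos.le H.hθ.lt
  have h3 := D.ok.tan H.hθ.lt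
  have k := H.base1 (μ := μ) (by have := D.ha; omega) h3 D.ok' hv0 hv1 hvl hw hw0 (Or.inl (by
    intro he
    have := congrArg Complex.re he
    rw [vl_re] at this
    have := D.ok.re_le
    linarith))
  have f := hp.flatOK_M hF t ht
  rw [hp.bridge H.hΦ H.h0 n1 n2] at f
  linarith

/-- **The flats before the base.** -/
theorem D23.left (D : D23 Φ θ θ' xc xc' b b' a') (hv : v ∈ G0 θ (2 / 5)) (hv0 : 0 ≤ v.re)
    (hw : w ∈ G0 θ' (13 / 40)) (hw0 : 0 ≤ w.re)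
    (hne : v ≠ gdv (UU xc θ) ∨ w ≠ gdv (UU xc' θ')) (hR : R23 v.re (cmp (13 / 40) w).re) :
    ∃ H : ℝ, |H| ≤ 1 ∧ (Side (yv (cmp (2 / 5) v) (cmp (13 / 40) w)) H ∨
      ∀ Y ∈ Set.uIcc 0 H, EE (.op (cmp (2 / 5) v)) (.op ((starRingEnd ℂ) (cmp (13 / 40) w)))
          ((Y : ℂ) * I) <
        LM Φ θ θ' b b' xc xc' (2 / 5) (13 / 40) (mu b (2 : ℝ) (2 / 5))
          (mu b' (a' : ℝ) (13 / 40)) v w) ∧ ∀ t ∈ Set.Icc (0 : ℝ) (1 / 2),
      EE (.op (cmp (2 / 5) v)) (.op ((starRingEnd ℂ) (cmp (13 / 40) w))) ((t : ℂ) + H * I) <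
        LM Φ θ θ' b b' xc xc' (2 / 5) (13 / 40) (mu b (2 : ℝ) (2 / 5))
          (mu b' (a' : ℝ) (13 / 40)) v w := by
  have H := D.H
  have hx := hR.le
  have hp := H.pr hv hv0 hw hw0
  have ec : cmp (2 / 5) v = v := if_pos (by linarith)
  have hF := FM23 hp D.j D.t1 D.t2 (by rw [ec]; exact hR)
  have n1 := hp.nl_23 D.j D.t1 D.t2 (by rw [ec]; linarith)
  have n2 := hp.symm.nl_t (cmp_re_le w) (by linarith [D.t2])
  have hL := H.Phi_ltV (le_refl 2) (by have := D.ha; omega) (Or.inl rfl) D.ok D.ok' hv hv0 hw hw0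
    hne
  push_cast at hL
  obtain ⟨H1, k1, k2, k3⟩ := flatH_of H.hΦ H.h0 hp n1 n2 (hp.flatOK_M hF) hL
  exact ⟨H1, k1, Or.inl k2, k3⟩

end

end Pool.Agent.S3.T2
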