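import Pool.Agent.S3.LL5

/-!
# Exchange of the two vertices of an edge
-/

set_option autoImplicit false

namespace Pool.Agent.S3.T2

open Complex
open Pool.Agent.H25.RK (gdv)

/-- Exchange of the two slots. -/
theorem EE_sw (v w y : ℂ) : EE (.op v) (.op ((starRingEnd ℂ) w)) ((starRingEnd ℂ) y) =
    EE (.op w) (.op ((starRingEnd ℂ) v)) y := by
  have := EE_conj y ((starRingEnd ℂ) v) w
  rw [conj_conj] at this
  rw [this, EE_comm]

theorem Side.conj {y : ℂ} {H : ℝ} (h : Side y H) : Side ((starRingEnd ℂ) y) (-H) := by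
  rcases h with ⟨h1, h2⟩ | ⟨h1, h2⟩ | h1
  · exact Or.inr (Or.inl ⟨by rw [conj_im]; linarith, by linarith⟩)
  · exact Or.inl ⟨by rw [conj_im]; linarith, by linarith⟩
  · exact Or.inr (Or.inr (by rw [h1, neg_zero]))

theorem conj_vert (Y : ℝ) : (starRingEnd ℂ) (((-Y : ℝ) : ℂ) * I) = (Y : ℂ) * I := by
  rw [map_mul, conj_ofReal, conj_I]
  push_cast
  ring

theorem conj_hor (t H : ℝ) : (starRingEnd ℂ) ((t : ℂ) + (H : ℂ) * I) =
    (t : ℂ) + ((-H : ℝ) : ℂ) * I := by
  rw [map_add, map_mul, conj_ofReal, conj_ofReal, conj_I]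
  push_cast
  ring

variable {Φ : ℂ → ℂ → ℂ} {θ θ' xc xc' b b' v1 v1' μ μ' : ℝ}

/-- **Exchange of the two vertices in the field `flat`.** -/
theorem FlatH.swap (H : OO Φ θ θ' xc xc' b b' v1 v1')
    (hF : FlatH Φ θ θ' xc xc' b b' v1 v1' μ μ') :
    FlatH (fun v w => Φ w v) θ' θ xc' xc b' b v1' v1 μ' μ := by
  intro w v hw hw0 hv hv0 hne
  obtain ⟨H1, h1, h2, h3⟩ := hF v w hv hv0 hw hw0 hne.symm
  have hp := H.pr hv hv0 hw hw0
  refine ⟨-H1, by rwa [abs_neg], ?_, ?_⟩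
  · rcases h2 with h2 | h2
    · left
      rw [yv_swap hp]
      exact h2.conj
    · right
      intro Y hY
      rw [H.LM_swap, ← conj_vert Y, EE_sw]
      apply h2
      rw [Set.mem_uIcc] at hY ⊢
      rcases hY with hY | hY
      · exact Or.inr ⟨by linarith [hY.2], by linarith [hY.1]⟩
      · exact Or.inl ⟨by linarith [hY.2], by linarith [hY.1]⟩
  · intro t ht
    rw [H.LM_swap, ← conj_hor, EE_sw]
    exact h3 t ht

end Pool.Agent.S3.T2
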