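import Pool.Agent.S3.NIF

/-!
# Angles and the function `S2`
-/

set_option autoImplicit false

namespace Pool.Agent.S3.T2

open Real

/-- `α ∈ (-π/2, 3π/2)` is an argument of `R + i I`. -/
structure Ang (α R I : ℝ) : Prop where
  lo : -(π / 2) < α
  hi : α < 3 * π / 2
  ex : ∃ ρ : ℝ, 0 < ρ ∧ cos α * ρ = R ∧ sin α * ρ = I

theorem Ang.mk' {X Y V W : ℝ} (hY : 0 < Y) (hV : 0 < V) :
    Ang (π / 2 - arctan (X / Y) + arctan (W / V)) (X * V - Y * W) (X * W + Y * V) := by
  have a1 := neg_pi_div_two_lt_arctan (X / Y)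
  have a2 := arctan_lt_pi_div_two (X / Y)
  have b1 := neg_pi_div_two_lt_arctan (W / V)
  have b2 := arctan_lt_pi_div_two (W / V)
  refine ⟨by linarith, by linarith, Y * V * √(1 + (X / Y) ^ 2) * √(1 + (W / V) ^ 2), by positivity,
    ?_, ?_⟩
  · have e : π / 2 - arctan (X / Y) + arctan (W / V) =
        π / 2 - (arctan (X / Y) - arctan (W / V)) := by ring
    rw [e, cos_pi_div_two_sub, sin_sub, sin_arctan, cos_arctan, sin_arctan, cos_arctan]
    have s1 : √(1 + (X / Y) ^ 2) ≠ 0 := by positivity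
    have s2 : √(1 + (W / V) ^ 2) ≠ 0 := by positivity
    field_simp
  · have e : π / 2 - arctan (X / Y) + arctan (W / V) =
        π / 2 - (arctan (X / Y) - arctan (W / V)) := by ring
    rw [e, sin_pi_div_two_sub, cos_sub, sin_arctan, cos_arctan, sin_arctan, cos_arctan]
    have s1 : √(1 + (X / Y) ^ 2) ≠ 0 := by positivity
    have s2 : √(1 + (W / V) ^ 2) ≠ 0 := by positivity
    field_simp
    ring

section

variable {α R I : ℝ}

/-- negative real part -/
theorem Ang.of_neg (h : Ang α R I) (hR : R < 0) : α = π - arctan (I / (-R)) := by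
  obtain ⟨h1, h2, ρ, hρ, hc, hs⟩ := h
  have hcos : cos α < 0 := by
    by_contra hn
    push Not at hn
    have := mul_nonneg hn hρ.le
    linarith
  have h3 : π / 2 < α := by
    by_contra hn
    push Not at hn
    have := cos_nonneg_of_mem_Icc ⟨h1.le, hn⟩
    linarith
  have e : tan (α - π) = I / R := by
    rw [tan_sub_pi, tan_eq_sin_div_cos, ← hc, ← hs, mul_div_mul_right _ _ hρ.ne']
  have e2 := arctan_tan (x := α - π) (by linarith) (by linarith)
  rw [e] at e2
  have e3 : I / -R = -(I / R) := by rw [div_neg]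
  rw [e3, arctan_neg, e2]
  ring

theorem Ang.of_neg_lt (h : Ang α R I) (hR : R < 0) : π / 2 < α := by
  rw [h.of_neg hR]
  have := arctan_lt_pi_div_two (I / -R)
  linarith

/-- positive imaginary part -/
theorem Ang.of_im (h : Ang α R I) (hI : 0 < I) : α = π / 2 - arctan (R / I) := by
  obtain ⟨h1, h2, ρ, hρ, hc, hs⟩ := h
  have hsin : 0 < sin α := by
    by_contra hn
    push Not at hn
    have := mul_nonneg (neg_nonneg.2 hn) hρ.le
    linarith
  have h3 : 0 < α := by
    by_contra hn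
    push Not at hn
    have := sin_nonpos_of_nonpos_of_neg_pi_le hn (by linarith [pi_pos])
    linarith
  have h4 : α < π := by
    by_contra hn
    push Not at hn
    have := sin_nonneg_of_nonneg_of_le_pi (x := α - π) (by linarith) (by linarith [pi_pos])
    rw [sin_sub_pi] at this
    linarith
  have e : tan (π / 2 - α) = R / I := by
    rw [tan_eq_sin_div_cos, sin_pi_div_two_sub, cos_pi_div_two_sub, ← hc, ← hs,
      mul_div_mul_right _ _ hρ.ne']
  have e2 := arctan_tan (x := π / 2 - α) (by linarith) (by linarith)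
  rw [e] at e2
  rw [e2]
  ring

/-- positive real part -/
theorem Ang.of_pos (h : Ang α R I) (hR : 0 < R) : α = arctan (I / R) := by
  obtain ⟨h1, h2, ρ, hρ, hc, hs⟩ := h
  have hcos : 0 < cos α := by
    by_contra hn
    push Not at hn
    have := mul_nonneg (neg_nonneg.2 hn) hρ.le
    linarith
  have h3 : α < π / 2 := by
    by_contra hn
    push Not at hn
    have := cos_nonpos_of_pi_div_two_le_of_le hn (by linarith)
    linarith
  have e : tan α = I / R := by
    rw [tan_eq_sin_div_cos, ← hc, ← hs, mul_div_mul_right _ _ hρ.ne']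
  have e2 := arctan_tan (x := α) (by linarith) (by linarith)
  rw [e] at e2
  exact e2.symm

end

/-! ### The function `S2` -/

theorem hd_tanh (u : ℝ) : HasDerivAt tanh (1 - tanh u ^ 2) u := by
  have h1 := (hasDerivAt_sinh u).div (hasDerivAt_cosh u) (cosh_pos u).ne'
  have e : (fun x => sinh x / cosh x) = tanh := by
    funext x
    rw [tanh_eq_sinh_div_cosh]
  have e' : (sinh / cosh : ℝ → ℝ) = tanh := by
    funext x
    rw [Pi.div_apply, tanh_eq_sinh_div_cosh]
  rw [e'] at h1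
  refine h1.congr_deriv ?_
  rw [tanh_eq_sinh_div_cosh]
  have := (cosh_pos u).ne'
  field_simp

theorem tanh_sq_lt (u : ℝ) : tanh u ^ 2 < 1 := by
  rw [tanh_eq_sinh_div_cosh, div_pow, div_lt_one (by have := cosh_pos u; positivity)]
  have := cosh_sq u
  linarith

/-- the upper bound of `artanh b / b`, minus one, plus ... -/
noncomputable def s2R (p b : ℝ) : ℝ :=
  b * (2 + b ^ 2 * (1 / 3) + (b ^ 2) ^ 2 * (1 / 5) + b ^ 2 * (b ^ 2) ^ 2 * (1 / 7 * (1 - b ^ 2)⁻¹) +
    ((p ^ 2)⁻¹) ^ 2 * (1 / 5) - (p ^ 2)⁻¹ * (1 / 3))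

theorem le_tanh_ser {u : ℝ} (hu : 0 ≤ u) : u ≤ tanh u * (1 + tanh u ^ 2 / 3 + tanh u ^ 4 / 5 +
    tanh u ^ 6 / (7 * (1 - tanh u ^ 2))) := by
  have h := NI.le_of_der (f := fun u : ℝ => tanh u * (1 + tanh u ^ 2 / 3 + tanh u ^ 4 / 5 +
      tanh u ^ 6 / (7 * (1 - tanh u ^ 2))) - u)
    (f' := fun u => 2 * tanh u ^ 8 / (7 * (1 - tanh u ^ 2))) (a := 0) (x := u) ?_ ?_ hu
  · simp only [tanh_zero] at h
    norm_num at h
    linarith
  · intro x _
    have hb := tanh_sq_lt x
    have hd : 7 * (1 - tanh x ^ 2) ≠ 0 := by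
      have : 0 < 1 - tanh x ^ 2 := by linarith
      positivity
    have d0 := hd_tanh x
    have d2 := (d0.pow 2).div_const 3
    have d4 := (d0.pow 4).div_const 5
    have d6 := (d0.pow 6).div (((d0.pow 2).const_sub 1).const_mul 7) hd
    have d := (d0.mul (((d2.const_add 1).add d4).add d6)).sub (hasDerivAt_id' x)
    refine d.congr_deriv ?_
    simp only [Pi.pow_apply, Pi.add_apply, Pi.div_apply]
    have h7 : (1 - tanh x ^ 2) ≠ 0 := by linarith
    field_simp
    push_cast
    ring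
  · intro x _
    have hb := tanh_sq_lt x
    have : 0 < 1 - tanh x ^ 2 := by linarith
    have h8 : 0 ≤ tanh x ^ 8 := by positivity
    positivity

theorem arctan_le_ser {x : ℝ} (hx : 0 ≤ x) : arctan x ≤ x - x ^ 3 / 3 + x ^ 5 / 5 := by
  have h := NI.le_of_der (f := fun x : ℝ => x - x ^ 3 / 3 + x ^ 5 / 5 - arctan x)
    (f' := fun x => x ^ 6 / (1 + x ^ 2)) (a := 0) (x := x) ?_ ?_ hx
  · simp only [arctan_zero] at h
    norm_num at h
    linarith
  · intro x _
    have d := (((hasDerivAt_id' x).sub ((hasDerivAt_pow 3 x).div_const 3)).add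
      ((hasDerivAt_pow 5 x).div_const 5)).sub (hasDerivAt_arctan x)
    refine d.congr_deriv ?_
    have : 1 + x ^ 2 ≠ 0 := by positivity
    field_simp
    push_cast
    ring
  · intro x _
    positivity

/-- The bound of `S2` on the line. -/
theorem S2_le {a β : ℝ} (h0 : 0 < a) (h1 : a < 1 / 2) (hβ : 0 ≤ β) :
    π * β + (π / 2 - π * a) * (tan (π * a) * tanh (π * β)) ≤ s2R (tan (π * a)) (tanh (π * β)) := by
  have hpi := pi_pos
  have e1 := le_tanh_ser (u := π * β) (by positivity)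
  have hb0 : 0 ≤ tanh (π * β) := by
    rw [tanh_eq_sinh_div_cosh]
    exact div_nonneg (sinh_nonneg_iff.2 (by positivity)) (cosh_pos _).le
  have hp : 0 < tan (π * a) := tan_pos_of_pos_of_lt_pi_div_two (by positivity) (by nlinarith)
  have e2 : π / 2 - π * a = arctan (1 / tan (π * a)) := by
    have h3 : tan (π / 2 - π * a) = 1 / tan (π * a) := by
      rw [tan_pi_div_two_sub, one_div]
    rw [← h3, arctan_tan (by nlinarith) (by nlinarith)]
  have e3 := arctan_le_ser (x := 1 / tan (π * a)) (by positivity)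
  rw [← e2] at e3
  set p := tan (π * a)
  set b := tanh (π * β)
  have e4 : (π / 2 - π * a) * (p * b) ≤ (1 / p - (1 / p) ^ 3 / 3 + (1 / p) ^ 5 / 5) * (p * b) :=
    mul_le_mul_of_nonneg_right e3 (by positivity)
  have hb2 : b ^ 2 < 1 := tanh_sq_lt _
  have hb3 : (1 - b ^ 2) ≠ 0 := by linarith
  have e5 : (1 / p - (1 / p) ^ 3 / 3 + (1 / p) ^ 5 / 5) * (p * b) =
      b * (1 + ((p ^ 2)⁻¹) ^ 2 * (1 / 5) - (p ^ 2)⁻¹ * (1 / 3)) := by
    field_simp
    ring
  have e6 : b * (1 + b ^ 2 / 3 + b ^ 4 / 5 + b ^ 6 / (7 * (1 - b ^ 2))) =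
      b * (1 + b ^ 2 * (1 / 3) + (b ^ 2) ^ 2 * (1 / 5) +
        b ^ 2 * (b ^ 2) ^ 2 * (1 / 7 * (1 - b ^ 2)⁻¹)) := by
    field_simp
  rw [e5] at e4
  rw [e6] at e1
  unfold s2R
  linarith

end Pool.Agent.S3.T2
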