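import Pool.Agent.S3.W2.Scheme
import Pool.Agent.S3.W2.Ang

/-!
# The rates of a slide in terms of `tan (π a)`, `tanh (π β)`, `tan (π t / 2)`, `tanh (π h)`
-/

set_option autoImplicit false

namespace Pool.Agent.S3.T2

open Complex Set

/-- `tan (π a)`, `tanh (π β)`, `tan (π t / 2)`, `tanh (π h)`, with the signs of the case at hand. -/
structure Pt (a β t h p b z k : ℝ) : Prop where
  a0 : 0 < a
  a1 : a < 1 / 2
  t0 : 0 < t
  t1 : t < 1 / 2
  h0 : 0 < h
  h1 : h < β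
  hp : p = Real.tan (Real.pi * a)
  hb : b = Real.tanh (Real.pi * β)
  hz : z = Real.tan (Real.pi * t / 2)
  hk : k = Real.tanh (Real.pi * h)

theorem half_cos {x : ℝ} (h0 : -Real.pi < x) (h1 : x < Real.pi) : Real.cos x =
    (1 - Real.tan (x / 2) ^ 2) / (1 + Real.tan (x / 2) ^ 2) := by
  have hc : Real.cos (x / 2) ≠ 0 := (Real.cos_pos_of_mem_Ioo ⟨by linarith, by linarith⟩).ne'
  have e : Real.cos x = 2 * Real.cos (x / 2) ^ 2 - 1 := by rw [← Real.cos_two_mul]; ring_nf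
  have e1 := Real.sin_sq_add_cos_sq (x / 2)
  rw [e, Real.tan_eq_sin_div_cos]
  have h2 : 1 + (Real.sin (x / 2) / Real.cos (x / 2)) ^ 2 = 1 / Real.cos (x / 2) ^ 2 := by
    field_simp
    linarith
  rw [h2]
  field_simp
  linarith

theorem half_sin {x : ℝ} (h0 : -Real.pi < x) (h1 : x < Real.pi) : Real.sin x =
    2 * Real.tan (x / 2) / (1 + Real.tan (x / 2) ^ 2) := by
  have hc : Real.cos (x / 2) ≠ 0 := (Real.cos_pos_of_mem_Ioo ⟨by linarith, by linarith⟩).ne'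
  have e : Real.sin x = 2 * Real.sin (x / 2) * Real.cos (x / 2) := by
    rw [← Real.sin_two_mul]; ring_nf
  have e1 := Real.sin_sq_add_cos_sq (x / 2)
  rw [e, Real.tan_eq_sin_div_cos]
  have h2 : 1 + (Real.sin (x / 2) / Real.cos (x / 2)) ^ 2 = 1 / Real.cos (x / 2) ^ 2 := by
    field_simp
    linarith
  rw [h2]
  field_simp

/-! ### the real expressions -/

def rE2 (p b z k : ℝ) : ℝ := (1 + k * b) ^ 2 * (2 * z + (1 - z ^ 2) * p) ^ 2 +
  (k + b) ^ 2 * ((1 - z ^ 2) - 2 * z * p) ^ 2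
def rd2 (p b z k : ℝ) : ℝ := (1 - k * b) ^ 2 * (2 * z - (1 - z ^ 2) * p) ^ 2 +
  (b - k) ^ 2 * ((1 - z ^ 2) + 2 * z * p) ^ 2
def rM (z k : ℝ) : ℝ := (1 + z ^ 2) ^ 2 * (1 - k ^ 2)
def rX (z k r : ℝ) : ℝ := rM z k * r + (2 * z) ^ 2 * k ^ 2 - (1 - z ^ 2) ^ 2
def rY (z k i : ℝ) : ℝ := rM z k * i + 2 * ((1 - z ^ 2) * (2 * z) * k)
def rG (p b : ℝ) : ℝ := (1 + p ^ 2) * (1 - b ^ 2)
def rNy (z k : ℝ) : ℝ := (1 - z ^ 2) ^ 2 + (2 * z) ^ 2 * k ^ 2

/-- The argument of `sin π (y + v)`. -/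
noncomputable def aA (p b z k : ℝ) : ℝ :=
  Real.arctan (((1 - z ^ 2) - 2 * z * p) * (k + b) / ((2 * z + (1 - z ^ 2) * p) * (1 + k * b)))
/-- minus the argument of `sin π (y - v)`. -/
noncomputable def aB (p b z k : ℝ) : ℝ :=
  Real.pi / 2 + Real.arctan (((1 - z ^ 2) * p - 2 * z) * (1 - k * b) /
    (((1 - z ^ 2) + 2 * z * p) * (b - k)))
/-- minus the argument of `cos π y`. -/
noncomputable def aC (z k : ℝ) : ℝ := Real.arctan (2 * z * k / (1 - z ^ 2))
/-- the argument of `cos² π w - cos² π y`. -/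
noncomputable def aW (z k r i : ℝ) : ℝ := Real.pi / 2 - Real.arctan (rX z k r / rY z k i)

/-- argument of a number with negative imaginary part -/
theorem arg_of_im_neg' {z : ℂ} (h : z.im < 0) :
    z.arg = -(Real.pi / 2) - Real.arctan (z.re / z.im) := by
  have hz : z ≠ 0 := by
    rintro rfl
    simp at h
  have h1 := Complex.neg_pi_lt_arg z
  have h2 : z.arg < 0 := Complex.arg_neg_iff.2 h
  have h3 : Real.tan (z.arg + Real.pi / 2) = -(z.re / z.im) := by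
    rw [Real.tan_eq_sin_div_cos, Real.sin_add_pi_div_two, Real.cos_add_pi_div_two]
    have hn := norm_pos_iff.2 hz
    have e1 := Complex.norm_mul_cos_arg z
    have e2 := Complex.norm_mul_sin_arg z
    rw [← e1, ← e2, mul_div_mul_left _ _ hn.ne']
    rw [div_neg]
  have h4 := Real.arctan_tan (x := z.arg + Real.pi / 2) (by linarith) (by linarith)
  rw [h3, Real.arctan_neg] at h4
  linarith

section

variable {a β t h p b z k : ℝ}

theorem Pt.p0 (P : Pt a β t h p b z k) : 0 < p := by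
  have hpi := Real.pi_pos
  have := P.a0
  have := P.a1
  rw [P.hp]
  exact Real.tan_pos_of_pos_of_lt_pi_div_two (by positivity) (by nlinarith)

theorem Pt.k0 (P : Pt a β t h p b z k) : 0 < k := by
  rw [P.hk]; exact tanh_pos_of (mul_pos Real.pi_pos P.h0)

theorem Pt.kb (P : Pt a β t h p b z k) : k < b := by
  rw [P.hk, P.hb]
  have h1 := mul_lt_mul_of_pos_left P.h1 Real.pi_pos
  exact lt_of_le_of_ne (tanh_mono h1.le) (fun h => h1.ne (Real.tanh_injective h))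

theorem Pt.b1 (P : Pt a β t h p b z k) : b < 1 := by
  rw [P.hb]; exact Real.tanh_lt_one _

theorem Pt.z0 (P : Pt a β t h p b z k) : 0 < z := by
  have hpi := Real.pi_pos
  have := P.t0
  have := P.t1
  rw [P.hz]
  exact Real.tan_pos_of_pos_of_lt_pi_div_two (by positivity) (by nlinarith)

theorem Pt.z1 (P : Pt a β t h p b z k) : z < 1 := by
  have hpi := Real.pi_pos
  have := P.t0
  have h1 := P.t1
  rw [P.hz, ← Real.tan_pi_div_four]
  apply Real.tan_lt_tan_of_nonneg_of_lt_pi_div_two (by positivity) (by linarith)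
  nlinarith

/-- the functions of `a` -/
theorem Pt.ca (P : Pt a β t h p b z k) : 0 < Real.cos (Real.pi * a) ∧
    Real.sin (Real.pi * a) = p * Real.cos (Real.pi * a) ∧
    Real.cos (Real.pi * a) ^ 2 * (1 + p ^ 2) = 1 := by
  have hc := cos_pos_of (a := a) (by linarith [P.a0]) P.a1
  have e : Real.sin (Real.pi * a) = p * Real.cos (Real.pi * a) := by
    rw [P.hp, Real.tan_mul_cos hc.ne']
  refine ⟨hc, e, ?_⟩
  have := Real.sin_sq_add_cos_sq (Real.pi * a)
  rw [e] at this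
  linarith

theorem ch_of {x u : ℝ} (hu : u = Real.tanh x) : 0 < Real.cosh x ∧ Real.sinh x = u * Real.cosh x ∧
    Real.cosh x ^ 2 * (1 - u ^ 2) = 1 := by
  have hc := Real.cosh_pos x
  have e : Real.sinh x = u * Real.cosh x := by
    rw [hu, Real.tanh_eq_sinh_div_cosh]; field_simp
  refine ⟨hc, e, ?_⟩
  have := Real.cosh_sq x
  rw [e] at this
  linarith

theorem Pt.ct (P : Pt a β t h p b z k) : Real.cos (Real.pi * t) * (1 + z ^ 2) = 1 - z ^ 2 ∧
    Real.sin (Real.pi * t) * (1 + z ^ 2) = 2 * z := by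
  have hpi := Real.pi_pos
  have h0 := P.t0
  have h1 := P.t1
  have g0 : -Real.pi < Real.pi * t := by nlinarith
  have g1 : Real.pi * t < Real.pi := by nlinarith
  have hn : 1 + Real.tan (Real.pi * t / 2) ^ 2 ≠ 0 := by positivity
  rw [half_cos g0 g1, half_sin g0 g1, P.hz]
  constructor
  · rw [div_mul_cancel₀ _ hn]
  · rw [div_mul_cancel₀ _ hn]

/-- The values at `y + v`, `y - v`. -/
theorem Pt.vals (P : Pt a β t h p b z k) :
    Real.sin (Real.pi * (t + a)) * (1 + z ^ 2) =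
      Real.cos (Real.pi * a) * (2 * z + (1 - z ^ 2) * p) ∧
    Real.cos (Real.pi * (t + a)) * (1 + z ^ 2) =
      Real.cos (Real.pi * a) * ((1 - z ^ 2) - 2 * z * p) ∧
    Real.sin (Real.pi * (t - a)) * (1 + z ^ 2) =
      Real.cos (Real.pi * a) * (2 * z - (1 - z ^ 2) * p) ∧
    Real.cos (Real.pi * (t - a)) * (1 + z ^ 2) =
      Real.cos (Real.pi * a) * ((1 - z ^ 2) + 2 * z * p) ∧
    Real.sinh (Real.pi * (h + β)) = Real.cosh (Real.pi * h) * Real.cosh (Real.pi * β) * (k + b) ∧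
    Real.cosh (Real.pi * (h + β)) =
      Real.cosh (Real.pi * h) * Real.cosh (Real.pi * β) * (1 + k * b) ∧
    Real.sinh (Real.pi * (h - β)) = Real.cosh (Real.pi * h) * Real.cosh (Real.pi * β) * (k - b) ∧
    Real.cosh (Real.pi * (h - β)) =
      Real.cosh (Real.pi * h) * Real.cosh (Real.pi * β) * (1 - k * b) := by
  obtain ⟨-, e1, -⟩ := P.ca
  obtain ⟨e2, e3⟩ := P.ct
  obtain ⟨-, e4, -⟩ := ch_of P.hk
  obtain ⟨-, e5, -⟩ := ch_of P.hb
  refine ⟨?_, ?_, ?_, ?_, ?_, ?_, ?_, ?_⟩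
  · rw [mul_add Real.pi, Real.sin_add, e1]
    linear_combination Real.cos (Real.pi * a) * e3 + p * Real.cos (Real.pi * a) * e2
  · rw [mul_add Real.pi, Real.cos_add, e1]
    linear_combination Real.cos (Real.pi * a) * e2 - p * Real.cos (Real.pi * a) * e3
  · rw [mul_sub, Real.sin_sub, e1]
    linear_combination Real.cos (Real.pi * a) * e3 - p * Real.cos (Real.pi * a) * e2
  · rw [mul_sub, Real.cos_sub, e1]
    linear_combination Real.cos (Real.pi * a) * e2 + p * Real.cos (Real.pi * a) * e3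
  · rw [mul_add, Real.sinh_add, e4, e5]; ring
  · rw [mul_add, Real.cosh_add, e4, e5]; ring
  · rw [mul_sub, Real.sinh_sub, e4, e5]; ring
  · rw [mul_sub, Real.cosh_sub, e4, e5]; ring

theorem Pt.pos (P : Pt a β t h p b z k) : 0 < 2 * z + (1 - z ^ 2) * p ∧
    0 < (1 - z ^ 2) + 2 * z * p ∧ 0 < 1 - z ^ 2 ∧ 0 < 1 + k * b ∧ 0 < 1 - k * b := by
  have := P.p0
  have := P.k0
  have := P.kb
  have := P.b1
  have := P.z0
  have := P.z1
  have h1 : 0 < 1 - z ^ 2 := by nlinarith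
  refine ⟨by positivity, by positivity, h1, by nlinarith, by nlinarith⟩

/-- `‖2 sin π (y ± v)‖²`. -/
theorem Pt.nsq (P : Pt a β t h p b z k) :
    ‖2 * sin (Real.pi * (((t + a : ℝ) : ℂ) + ((h + β : ℝ) : ℂ) * I))‖ ^ 2 =
      (2 * Real.cos (Real.pi * a) * Real.cosh (Real.pi * h) * Real.cosh (Real.pi * β) /
        (1 + z ^ 2)) ^ 2 * rE2 p b z k ∧
    ‖2 * sin (Real.pi * (((t - a : ℝ) : ℂ) + ((h - β : ℝ) : ℂ) * I))‖ ^ 2 =
      (2 * Real.cos (Real.pi * a) * Real.cosh (Real.pi * h) * Real.cosh (Real.pi * β) /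
        (1 + z ^ 2)) ^ 2 * rd2 p b z k := by
  have hn : (1 + z ^ 2) ≠ 0 := by positivity
  obtain ⟨s1, s2, s3, s4, s5, s6, s7, s8⟩ := P.vals
  rw [← eq_div_iff hn] at s1 s2 s3 s4
  rw [← normSq_eq_norm_sq, ← normSq_eq_norm_sq, normSq_apply, normSq_apply, sin_pi_re, sin_pi_im,
    sin_pi_re, sin_pi_im]
  simp only [line_re, line_im]
  rw [s1, s2, s3, s4, s5, s6, s7, s8]
  unfold rE2 rd2
  constructor
  · field_simp
  · field_simp
    ring

theorem Pt.imA (P : Pt a β t h p b z k) :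
    (he (((t : ℂ) + (h : ℂ) * I) + ((a : ℂ) + (β : ℂ) * I))).im = aA p b z k := by
  have hn : (1 + z ^ 2) ≠ 0 := by positivity
  obtain ⟨s1, s2, s3, s4, s5, s6, s7, s8⟩ := P.vals
  rw [← eq_div_iff hn] at s1 s2 s3 s4
  obtain ⟨q1, q2, q3, q4, q5⟩ := P.pos
  obtain ⟨c0, -, -⟩ := P.ca
  have d0 := Real.cosh_pos (Real.pi * h)
  have d1 := Real.cosh_pos (Real.pi * β)
  have e : ((t : ℂ) + (h : ℂ) * I) + ((a : ℂ) + (β : ℂ) * I) =
      (((t + a : ℝ) : ℂ) + ((h + β : ℝ) : ℂ) * I) := by push_cast; ring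
  have hre : 0 < (2 * sin (Real.pi * (((t + a : ℝ) : ℂ) + ((h + β : ℝ) : ℂ) * I))).re := by
    rw [sin_pi_re, line_re, line_im, s1, s6]
    positivity
  have a0 := P.a0
  have a1 := P.a1
  have t0 := P.t0
  have t1 := P.t1
  have h0 := P.h0
  have h1 := P.h1
  rw [e, he_eq_log (Or.inl (by rw [line_im]; linarith)) (by rw [line_re]; linarith)
    (by rw [line_re]; linarith), log_im, arg_eq_arctan hre, sin_pi_re, sin_pi_im, line_re, line_im,
    s1, s2, s5, s6, aA]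
  congr 1
  field_simp

theorem Pt.imB (P : Pt a β t h p b z k) :
    (he (((t : ℂ) + (h : ℂ) * I) - ((a : ℂ) + (β : ℂ) * I))).im = -aB p b z k := by
  have hn : (1 + z ^ 2) ≠ 0 := by positivity
  obtain ⟨s1, s2, s3, s4, s5, s6, s7, s8⟩ := P.vals
  rw [← eq_div_iff hn] at s1 s2 s3 s4
  obtain ⟨q1, q2, q3, q4, q5⟩ := P.pos
  obtain ⟨c0, -, -⟩ := P.ca
  have d0 := Real.cosh_pos (Real.pi * h)
  have d1 := Real.cosh_pos (Real.pi * β)
  have e : ((t : ℂ) + (h : ℂ) * I) - ((a : ℂ) + (β : ℂ) * I) =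
      (((t - a : ℝ) : ℂ) + ((h - β : ℝ) : ℂ) * I) := by push_cast; ring
  have kb := P.kb
  have him : (2 * sin (Real.pi * (((t - a : ℝ) : ℂ) + ((h - β : ℝ) : ℂ) * I))).im < 0 := by
    rw [sin_pi_im, line_re, line_im, s4, s7]
    have h1 : 0 < Real.cos (Real.pi * a) * ((1 - z ^ 2) + 2 * z * p) / (1 + z ^ 2) := by positivity
    have h2 : 0 < Real.cosh (Real.pi * h) * Real.cosh (Real.pi * β) := by positivity
    have h3 : Real.cosh (Real.pi * h) * Real.cosh (Real.pi * β) * (k - b) < 0 :=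
      mul_neg_of_pos_of_neg h2 (by linarith)
    have := mul_neg_of_pos_of_neg h1 h3
    linarith
  have a0 := P.a0
  have a1 := P.a1
  have t0 := P.t0
  have t1 := P.t1
  have h0 := P.h0
  have h1 := P.h1
  rw [e, he_eq_log (Or.inl (by rw [line_im]; linarith)) (by rw [line_re]; linarith)
    (by rw [line_re]; linarith), log_im, arg_of_im_neg' him, sin_pi_re, sin_pi_im, line_re, line_im,
    s3, s4, s7, s8, aB]
  have e2 : 2 * (Real.cos (Real.pi * a) * (2 * z - (1 - z ^ 2) * p) / (1 + z ^ 2) *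
      (Real.cosh (Real.pi * h) * Real.cosh (Real.pi * β) * (1 - k * b))) /
      (2 * (Real.cos (Real.pi * a) * ((1 - z ^ 2) + 2 * z * p) / (1 + z ^ 2) *
      (Real.cosh (Real.pi * h) * Real.cosh (Real.pi * β) * (k - b)))) =
      ((1 - z ^ 2) * p - 2 * z) * (1 - k * b) / (((1 - z ^ 2) + 2 * z * p) * (b - k)) := by
    have hbk : b - k ≠ 0 := by linarith
    have hkb : k - b ≠ 0 := by linarith
    field_simp
    ring
  rw [e2]
  ring

theorem Pt.imC (P : Pt a β t h p b z k) :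
    (he ((t : ℂ) + (h : ℂ) * I + 1 / 2)).im = -aC z k := by
  have hn : (1 + z ^ 2) ≠ 0 := by positivity
  obtain ⟨s1, s2⟩ := P.ct
  rw [← eq_div_iff hn] at s1 s2
  obtain ⟨q1, q2, q3, q4, q5⟩ := P.pos
  obtain ⟨d0, d1, -⟩ := ch_of P.hk
  have e : ((t : ℂ) + (h : ℂ) * I + 1 / 2) = (((t + 1 / 2 : ℝ) : ℂ) + (h : ℂ) * I) := by
    push_cast; ring
  have g1 : Real.sin (Real.pi * (t + 1 / 2)) = (1 - z ^ 2) / (1 + z ^ 2) := by
    rw [← s1, mul_add, mul_one_div, Real.sin_add_pi_div_two]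
  have g2 : Real.cos (Real.pi * (t + 1 / 2)) = -(2 * z / (1 + z ^ 2)) := by
    rw [← s2, mul_add, mul_one_div, Real.cos_add_pi_div_two]
  have hre : 0 < (2 * sin (Real.pi * (((t + 1 / 2 : ℝ) : ℂ) + (h : ℂ) * I))).re := by
    rw [sin_pi_re, line_re, line_im, g1]
    positivity
  have t0 := P.t0
  have t1 := P.t1
  have h0 := P.h0
  rw [e, he_eq_log (Or.inl (by rw [line_im]; linarith)) (by rw [line_re]; linarith)
    (by rw [line_re]; linarith), log_im, arg_eq_arctan hre, sin_pi_re, sin_pi_im, line_re, line_im,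
    g1, g2, d1, aC, ← Real.arctan_neg]
  congr 1
  field_simp

/-- `cos² π y` -/
theorem Pt.ccy (P : Pt a β t h p b z k) :
    rM z k * (cc ((t : ℂ) + (h : ℂ) * I)).re = (1 - z ^ 2) ^ 2 - (2 * z) ^ 2 * k ^ 2 ∧
    rM z k * (cc ((t : ℂ) + (h : ℂ) * I)).im = -(2 * ((1 - z ^ 2) * (2 * z) * k)) ∧
    rM z k * ‖cc ((t : ℂ) + (h : ℂ) * I)‖ = rNy z k ∧ 0 < rM z k := by
  have hn : (1 + z ^ 2) ≠ 0 := by positivity
  obtain ⟨s1, s2⟩ := P.ct
  rw [← eq_div_iff hn] at s1 s2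
  obtain ⟨d0, d1, d2⟩ := ch_of P.hk
  have k0 := P.k0
  have kb := P.kb
  have b1 := P.b1
  have hk : (1 - k ^ 2) ≠ 0 := by nlinarith
  have d3 : Real.cosh (Real.pi * h) ^ 2 = 1 / (1 - k ^ 2) := by
    rw [eq_div_iff hk, d2]
  have d4 : Real.sinh (Real.pi * h) ^ 2 = k ^ 2 / (1 - k ^ 2) := by
    rw [d1, mul_pow, d3]; ring
  have d5 : Real.sinh (Real.pi * h) * Real.cosh (Real.pi * h) = k / (1 - k ^ 2) := by
    rw [d1, mul_assoc, ← sq, d3]; ring
  rw [cc_re, cc_im, cc_norm, d4, d5, s1, s2, rM, rNy]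
  refine ⟨?_, ?_, ?_, ?_⟩
  · field_simp
    ring
  · field_simp
  · field_simp
    ring
  · have : 0 < 1 - k ^ 2 := by nlinarith
    positivity

theorem arg_of_im_pos' {z : ℂ} (h : 0 < z.im) : 0 < z.arg ∧ z.arg < Real.pi := by
  constructor
  · rcases lt_or_eq_of_le (Complex.arg_nonneg_iff.2 h.le) with h1 | h1
    · exact h1
    · have := (Complex.arg_eq_zero_iff.1 h1.symm).2
      linarith
  · refine lt_of_le_of_ne (Complex.arg_le_pi z) fun h1 => ?_
    have := (Complex.arg_eq_pi_iff.1 h1).2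
    linarith

theorem Pt.imW (P : Pt a β t h p b z k) {w : ℂ} (w0 : 0 ≤ w.re) (w1 : w.re < 1 / 2)
    (wi : w.im ≤ 0) :
    (he ((t : ℂ) + (h : ℂ) * I - w)).im + (he ((t : ℂ) + (h : ℂ) * I + w)).im =
      aW z k (cc w).re (cc w).im ∧ 0 < rY z k (cc w).im ∧
    (rM z k * ‖cc w - cc ((t : ℂ) + (h : ℂ) * I)‖) ^ 2 =
      rX z k (cc w).re ^ 2 + rY z k (cc w).im ^ 2 := by
  obtain ⟨c1, c2, c3, c4⟩ := P.ccy
  have t0 := P.t0
  have t1 := P.t1
  have h0 := P.h0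
  have hpi := Real.pi_pos
  have z0 := P.z0
  have z1 := P.z1
  have k0 := P.k0
  have wim : 0 ≤ (cc w).im := by
    rw [← re_im_eta w, cc_im]
    have s1 : 0 ≤ Real.sin (Real.pi * w.re) :=
      Real.sin_nonneg_of_nonneg_of_le_pi (by positivity) (by nlinarith)
    have s2 := (cos_pos_of (a := w.re) (by linarith) w1).le
    have s3 : Real.sinh (Real.pi * w.im) ≤ 0 := Real.sinh_nonpos_iff.2 (by nlinarith)
    have s4 := Real.cosh_pos (Real.pi * w.im)
    have s5 : Real.sinh (Real.pi * w.im) * Real.cosh (Real.pi * w.im) ≤ 0 :=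
      mul_nonpos_of_nonpos_of_nonneg s3 s4.le
    have s6 := mul_nonneg s1 s2
    nlinarith
  have hY : 0 < rY z k (cc w).im := by
    unfold rY
    have q3 : 0 < 1 - z ^ 2 := by nlinarith
    positivity
  have eX : rM z k * (cc w - cc ((t : ℂ) + (h : ℂ) * I)).re = rX z k (cc w).re := by
    rw [sub_re, mul_sub, c1, rX]; ring
  have eY : rM z k * (cc w - cc ((t : ℂ) + (h : ℂ) * I)).im = rY z k (cc w).im := by
    rw [sub_im, mul_sub, c2, rY]; ring
  refine ⟨?_, hY, ?_⟩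
  · set y : ℂ := (t : ℂ) + (h : ℂ) * I with hy
    have yre : y.re = t := line_re _ _
    have yim : y.im = h := line_im _ _
    have f1 : fdom (y - w) := Or.inl (by rw [sub_im, yim]; linarith)
    have f2 : fdom (y + w) := Or.inr (by rw [add_re, yre]; exact ⟨by linarith, by linarith⟩)
    have g1 : 0 < (2 * sin (Real.pi * (y - w))).im := by
      rw [sin_pi_im, sub_re, sub_im, yre, yim]
      have := cos_pos_of (a := t - w.re) (by linarith) (by linarith)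
      have := Real.sinh_pos_iff.2 (mul_pos hpi (by linarith : 0 < h - w.im))
      positivity
    have g2 : 0 < (2 * sin (Real.pi * (y + w))).re := by
      rw [sin_pi_re, add_re, add_im, yre, yim]
      have := Real.sin_pos_of_pos_of_lt_pi (x := Real.pi * (t + w.re)) (by positivity)
        (by nlinarith)
      have := Real.cosh_pos (Real.pi * (h + w.im))
      positivity
    rw [he_eq_log f1 (by rw [sub_re, yre]; linarith) (by rw [sub_re, yre]; linarith),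
      he_eq_log f2 (by rw [add_re, yre]; linarith) (by rw [add_re, yre]; linarith), log_im, log_im]
    set u := 2 * sin (Real.pi * (y - w)) with hu
    set u' := 2 * sin (Real.pi * (y + w)) with hu'
    have huv : u * u' = 4 * (cc w - cc y) := by
      rw [hu, hu', ← sin_mul_sin]; ring
    have a1 := arg_of_im_pos' g1
    have a2 := abs_lt.1 (abs_arg_lt_pi_div_two_iff.2 (Or.inl g2))
    have n1 : 0 < ‖u‖ := norm_pos_iff.2 (fun h => by rw [h] at g1; simp at g1)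
    have n2 : 0 < ‖u'‖ := norm_pos_iff.2 (fun h => by rw [h] at g2; simp at g2)
    have hA : Ang (u.arg + u'.arg) (rX z k (cc w).re) (rY z k (cc w).im) := by
      refine ⟨by linarith, by linarith, ‖u‖ * ‖u'‖ * (rM z k / 4), by positivity, ?_, ?_⟩
      · have e1 := congrArg Complex.re huv
        rw [show (4 : ℂ) = ((4 : ℝ) : ℂ) by norm_num, re_ofReal_mul, mul_re,
          ← Complex.norm_mul_cos_arg u, ← Complex.norm_mul_cos_arg u',
          ← Complex.norm_mul_sin_arg u, ← Complex.norm_mul_sin_arg u'] at e1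
        rw [← eX, Real.cos_add]
        linear_combination (rM z k / 4) * e1
      · have e1 := congrArg Complex.im huv
        rw [show (4 : ℂ) = ((4 : ℝ) : ℂ) by norm_num, im_ofReal_mul, mul_im,
          ← Complex.norm_mul_cos_arg u, ← Complex.norm_mul_cos_arg u',
          ← Complex.norm_mul_sin_arg u, ← Complex.norm_mul_sin_arg u'] at e1
        rw [← eY, Real.sin_add]
        linear_combination (rM z k / 4) * e1
    rw [hA.of_im hY, aW]
  · rw [mul_pow, ← normSq_eq_norm_sq, normSq_apply, ← eX, ← eY]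
    ring

theorem Pt.fd (P : Pt a β t h p b z k) :
    fdom ((t : ℂ) + (h : ℂ) * I - ((a : ℂ) + (β : ℂ) * I)) ∧
    fdom ((t : ℂ) + (h : ℂ) * I + ((a : ℂ) + (β : ℂ) * I)) := by
  have h0 := P.h0
  have h1 := P.h1
  constructor
  · left
    rw [sub_im, line_im, line_im]
    linarith
  · left
    rw [add_im, line_im, line_im]
    linarith

theorem Pt.pos2 (P : Pt a β t h p b z k) : 0 < rE2 p b z k ∧ 0 < rd2 p b z k ∧ 0 < rG p b := by
  obtain ⟨q1, q2, q3, q4, q5⟩ := P.pos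
  have kb := P.kb
  have b1 := P.b1
  have k0 := P.k0
  refine ⟨?_, ?_, ?_⟩
  · unfold rE2; positivity
  · unfold rd2
    have : 0 < b - k := by linarith
    positivity
  · unfold rG
    have : 0 < 1 - b ^ 2 := by nlinarith
    positivity

/-- **The critical equation.** -/
theorem Pt.crit (P : Pt a β t h p b z k) {w : ℂ} (w0 : 0 ≤ w.re) (w1 : w.re < 1 / 2)
    (wi : w.im ≤ 0) (hg : gPd ((t : ℂ) + (h : ℂ) * I) ((a : ℂ) + (β : ℂ) * I) w =
      ‖cos (Real.pi * ((t : ℂ) + (h : ℂ) * I))‖ ^ 4) :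
    rE2 p b z k * rd2 p b z k * (rX z k (cc w).re ^ 2 + rY z k (cc w).im ^ 2) =
      (rNy z k ^ 2 * rG p b) ^ 2 := by
  obtain ⟨n1, n2⟩ := P.nsq
  obtain ⟨-, -, m1⟩ := P.imW w0 w1 wi
  obtain ⟨-, -, m2, m3⟩ := P.ccy
  obtain ⟨c0, -, c1⟩ := P.ca
  obtain ⟨d0, -, d1⟩ := ch_of P.hb
  obtain ⟨e0, -, e1⟩ := ch_of P.hk
  have e : ((t : ℂ) + (h : ℂ) * I) + ((a : ℂ) + (β : ℂ) * I) =
      (((t + a : ℝ) : ℂ) + ((h + β : ℝ) : ℂ) * I) := by push_cast; ring
  have e' : ((t : ℂ) + (h : ℂ) * I) - ((a : ℂ) + (β : ℂ) * I) =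
      (((t - a : ℝ) : ℂ) + ((h - β : ℝ) : ℂ) * I) := by push_cast; ring
  rw [← m1, ← m2]
  rw [cos_four, gPd, ← norm_mul (sin (Real.pi * ((t : ℂ) + (h : ℂ) * I - w))), sin_mul_sin, e, e'] at hg
  rw [norm_mul, Complex.norm_ofNat] at n1 n2
  set s1 := ‖sin (Real.pi * (((t + a : ℝ) : ℂ) + ((h + β : ℝ) : ℂ) * I))‖
  set s2 := ‖sin (Real.pi * (((t - a : ℝ) : ℂ) + ((h - β : ℝ) : ℂ) * I))‖
  set q := ‖cc w - cc ((t : ℂ) + (h : ℂ) * I)‖
  set y := ‖cc ((t : ℂ) + (h : ℂ) * I)‖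
  have hK : (2 * Real.cos (Real.pi * a) * Real.cosh (Real.pi * h) * Real.cosh (Real.pi * β) /
        (1 + z ^ 2)) ^ 2 * (rG p b * rM z k) = 4 := by
    have hn : (1 + z ^ 2) ≠ 0 := by positivity
    unfold rG rM
    field_simp
    have : Real.cos (Real.pi * a) ^ 2 * Real.cosh (Real.pi * h) ^ 2 * Real.cosh (Real.pi * β) ^ 2 *
      (1 + p ^ 2) * (1 - b ^ 2) * (1 - k ^ 2) = 1 := by
      calc _ = (Real.cos (Real.pi * a) ^ 2 * (1 + p ^ 2)) * (Real.cosh (Real.pi * β) ^ 2 *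
          (1 - b ^ 2)) * (Real.cosh (Real.pi * h) ^ 2 * (1 - k ^ 2)) := by ring
        _ = 1 := by rw [c1, d1, e1]; norm_num
    linear_combination 4 * this
  set K := (2 * Real.cos (Real.pi * a) * Real.cosh (Real.pi * h) * Real.cosh (Real.pi * β) /
        (1 + z ^ 2)) ^ 2
  -- `K (G M) = 4`, `4 s1² = K E2`, `4 s2² = K d2`, `s2 s1 q = y²`
  have hK2 : K ≠ 0 := by
    intro h0
    rw [h0, zero_mul] at hK
    norm_num at hK
  have t1 : K * rE2 p b z k = 4 * s1 ^ 2 := by rw [← n1]; ring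
  have t2 : K * rd2 p b z k = 4 * s2 ^ 2 := by rw [← n2]; ring
  have t3 : s2 ^ 2 * s1 ^ 2 * q ^ 2 = y ^ 4 := by
    calc _ = (s2 * s1 * q) ^ 2 := by ring
      _ = (y * y) ^ 2 := by rw [hg]
      _ = y ^ 4 := by ring
  have t4 : K ^ 2 * (rE2 p b z k * rd2 p b z k * (rM z k * q) ^ 2) =
      K ^ 2 * ((rM z k * y) ^ 2 * rG p b) ^ 2 := by
    calc _ = (K * rE2 p b z k) * (K * rd2 p b z k) * (rM z k * q) ^ 2 := by ring
      _ = 16 * rM z k ^ 2 * (s2 ^ 2 * s1 ^ 2 * q ^ 2) := by rw [t1, t2]; ring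
      _ = (K * (rG p b * rM z k)) ^ 2 * (rM z k ^ 2 * y ^ 4) := by rw [t3, hK]; ring
      _ = _ := by ring
  exact mul_left_cancel₀ (pow_ne_zero 2 hK2) t4

theorem Pt.logE (P : Pt a β t h p b z k) :
    (he (((t : ℂ) + (h : ℂ) * I) + ((a : ℂ) + (β : ℂ) * I)) -
      he (((t : ℂ) + (h : ℂ) * I) - ((a : ℂ) + (β : ℂ) * I))).re =
      Real.log (rE2 p b z k / rd2 p b z k) / 2 := by
  obtain ⟨f1, f2⟩ := P.fd
  obtain ⟨n1, n2⟩ := P.nsq
  obtain ⟨p1, p2, -⟩ := P.pos2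
  have e : ((t : ℂ) + (h : ℂ) * I) + ((a : ℂ) + (β : ℂ) * I) =
      (((t + a : ℝ) : ℂ) + ((h + β : ℝ) : ℂ) * I) := by push_cast; ring
  have e' : ((t : ℂ) + (h : ℂ) * I) - ((a : ℂ) + (β : ℂ) * I) =
      (((t - a : ℝ) : ℂ) + ((h - β : ℝ) : ℂ) * I) := by push_cast; ring
  rw [sub_re, re_he f1, re_he f2, e, e']
  have c0 := P.ca.1
  have d0 := Real.cosh_pos (Real.pi * β)
  have e0 := Real.cosh_pos (Real.pi * h)
  have hK : 0 < (2 * Real.cos (Real.pi * a) * Real.cosh (Real.pi * h) * Real.cosh (Real.pi * β) /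
        (1 + z ^ 2)) ^ 2 := by positivity
  set K := (2 * Real.cos (Real.pi * a) * Real.cosh (Real.pi * h) * Real.cosh (Real.pi * β) /
        (1 + z ^ 2)) ^ 2
  have l1 := congrArg Real.log n1
  have l2 := congrArg Real.log n2
  rw [Real.log_pow, Real.log_mul hK.ne' p1.ne'] at l1
  rw [Real.log_pow, Real.log_mul hK.ne' p2.ne'] at l2
  rw [Real.log_div p1.ne' p2.ne']
  push_cast at l1 l2 ⊢
  linarith

/-- **The rate of phase 1.** -/
theorem Pt.Ml_eq (P : Pt a β t h p b z k) (T : ℝ) :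
    Ml ((t : ℂ) + (h : ℂ) * I) ((a : ℂ) + (β : ℂ) * I) T =
      Real.log (rE2 p b z k / rd2 p b z k) / 4 + T / 2 * (aA p b z k + aB p b z k) := by
  rw [Ml, P.logE, sub_im, P.imA, P.imB]
  ring

/-- **The rate of phase 2.** -/
theorem Pt.Ml2_eq (P : Pt a β t h p b z k) {w : ℂ} (w0 : 0 ≤ w.re) (w1 : w.re < 1 / 2)
    (wi : w.im ≤ 0) (T ρ : ℝ) :
    Ml ((t : ℂ) + (h : ℂ) * I) ((a : ℂ) + (β : ℂ) * I) T - ρ * T / 2 *
      (eY ((t : ℂ) + (h : ℂ) * I) ((a : ℂ) + (β : ℂ) * I) w).im =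
      Real.log (rE2 p b z k / rd2 p b z k) / 4 + T / 2 * ((1 + ρ) * aA p b z k +
        (1 - ρ) * aB p b z k + ρ * (aW z k (cc w).re (cc w).im + 4 * aC z k)) := by
  obtain ⟨m1, -, -⟩ := P.imW w0 w1 wi
  have e : (eY ((t : ℂ) + (h : ℂ) * I) ((a : ℂ) + (β : ℂ) * I) w).im =
      -4 * aC z k + aB p b z k - aA p b z k - aW z k (cc w).re (cc w).im := by
    rw [← m1, eY, sub_im, sub_im, sub_im, sub_im, P.imA, P.imB,
      show (4 : ℂ) = ((4 : ℝ) : ℂ) by norm_num, im_ofReal_mul, P.imC]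
    ring
  rw [P.Ml_eq, e]
  ring

end

end Pool.Agent.S3.T2
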