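import Pool.Agent.S3.W.Main
import Pool.Agent.S3.W2.Far2

/-!
# Open-open edges: the estimates
-/

set_option autoImplicit false

namespace Pool.Agent.S3.T2

open Complex
open Pool.Agent.H25.RK (gdv gdv_re_lt gdv_hasDerivAt)

section

variable {Φ : ℂ → ℂ → ℂ} {θ θ' xc xc' b b' a a' v1 v1' : ℝ} {v w : ℂ}

theorem OO.hQ (H : OO Φ θ θ' xc xc' b b' v1 v1') :
    (qq (UU xc θ) (UU xc' (-θ'))).re = b * (Real.pi * (gdv (UU xc θ)).im) := by
  rw [H.hs.hQ, gd_eq (by rw [UU_im]; exact H.hθ.abs), im_ofReal_mul]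

theorem OO.hQ' (H : OO Φ θ θ' xc xc' b b' v1 v1') :
    (qq (UU xc' θ') (UU xc (-θ))).re = b' * (Real.pi * (gdv (UU xc' θ')).im) := by
  rw [H.hs.hQ', gd_eq (by rw [UU_im]; exact H.hθ'.abs), im_ofReal_mul]

theorem OO.LM_le (H : OO Φ θ θ' xc xc' b b' v1 v1') (ha : 0 < a) (ha' : 0 < a')
    (hv : v ∈ G0 θ v1) (hw : w ∈ G0 θ' v1') :
    LM Φ θ θ' b b' xc xc' v1 v1' (mu b a v1) (mu b' a' v1') (ab v) (ab (mir w)) ≤
      LL1 θ θ' b b' xc xc' a a' v1 v1' v w := by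
  have k1 := (lwf_ge (vc := gdv (UU xc θ)) (Q := qq (UU xc θ) (UU xc' (-θ'))) H.hv1 H.hθ H.hs.b0
    ha H.hQ hv).1
  have k2 := (lwf_ge (vc := gdv (UU xc' θ')) (Q := qq (UU xc' θ') (UU xc (-θ))) H.hv1' H.hθ'
    H.hs.b0' ha' H.hQ' (mir_mem hw)).1
  have k3 := H.Lc
  rw [L0, ell_self, ell_self, add_zero, add_zero] at k3
  rw [LM, L0, LL1, k3, EE_conj_mir, ab_im, ab_im]
  linarith

theorem ab_crit {x : ℝ} (hv1 : V1 v1) (hθ : Ht θ) (hx : 0 ≤ x) (hr : (gdv (UU x θ)).re ≤ v1)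
    (h : ab v = gdv (UU x θ)) (hne : v ≠ gdv (UU x θ)) :
    v.re < 0 ∧ v.im = bl θ v.re ∧ |v.re| ≤ v1 := by
  have hu := line_und hv1 hθ hx hr
  unfold ab at h
  split_ifs at h with h0
  · exact absurd h hne
  · push Not at h0
    have e1 : v.re = -(gdv (UU x θ)).re := by
      have := congrArg Complex.re h
      rw [mir_re] at this; linarith
    have e2 : v.im = (gdv (UU x θ)).im := by
      have := congrArg Complex.im h
      rwa [mir_im] at this
    refine ⟨h0, ?_, ?_⟩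
    · rw [e2, e1, bl_neg']
      exact line_im_bl hθ.abs
    · rw [e1, abs_neg, abs_of_nonneg hu.re0]
      exact hr

/-- **The estimate of an open-open edge away from the critical point.** -/
theorem OO.far (H : OO Φ θ θ' xc xc' b b' v1 v1') (hF : FlatH Φ θ θ' xc xc' b b' v1 v1' (mu b a v1) (mu b' a' v1'))
    (hC : FlatC θ θ' xc xc')
    (hE : EndAll Φ θ θ' xc xc' b b' v1 v1' (mu b a v1) (mu b' a' v1'))
    (ha : 0 < a) (ha' : 0 < a') (hv : v ∈ G0 θ v1)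
    (hw : w ∈ G0 θ' v1') (hne : v ≠ gdv (UU xc θ) ∨ w ≠ mir (gdv (UU xc' θ'))) :
    EdgeOK (.op v) (.op w) (LL1 θ θ' b b' xc xc' a a' v1 v1' v w) := by
  have hL := H.LM_le ha ha' hv hw
  apply EdgeOK_mir H.hv1 H.hv1' hv hw H.hθ H.hθ'
  by_cases hc : ab v = gdv (UU xc θ) ∧ ab (mir w) = gdv (UU xc' θ')
  · obtain ⟨h1, h2⟩ := hc
    have hn := H.near_q hC hE
    rw [h1, h2]
    apply hn.ok
    -- strict inequality of the bounds
    have hp := H.prc
    have q1 := pl_of_line (θ := θ) (v1 := v1) (v := gdv (UU xc θ))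
      (by rw [abs_of_nonneg hp.hv.re0]; exact H.hr.le) (line_im_bl (x := xc) H.hθ.abs)
    have q2 := pl_of_line (θ := θ') (v1 := v1') (v := gdv (UU xc' θ'))
      (by rw [abs_of_nonneg hp.hw.re0]; exact H.hr'.le) (line_im_bl (x := xc') H.hθ'.abs)
    have k1 := lwf_ge (vc := gdv (UU xc θ)) (Q := qq (UU xc θ) (UU xc' (-θ'))) H.hv1 H.hθ H.hs.b0
      ha H.hQ hv
    have k2 := lwf_ge (vc := gdv (UU xc' θ')) (Q := qq (UU xc' θ') (UU xc (-θ))) H.hv1' H.hθ'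
      H.hs.b0' ha' H.hQ' (mir_mem hw)
    have i1 : (gdv (UU xc θ)).im = v.im := by rw [← h1, ab_im]
    have i2 : (gdv (UU xc' θ')).im = (mir w).im := by rw [← h2, ab_im]
    rw [h1, q1, ell_self, i1, sub_self, mul_zero, sub_zero] at k1
    rw [h2, q2, ell_self, i2, sub_self, mul_zero, sub_zero] at k2
    rw [H.Lc, LL1, EE_conj_mir]
    rcases hne with h3 | h3
    · obtain ⟨g1, g2, g3⟩ := ab_crit H.hv1 H.hθ H.hc.le H.hr.le h1 h3
      have := k1.2 g1 g2 g3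
      linarith [k2.1]
    · have h4 : mir w ≠ gdv (UU xc' θ') := by
        intro h
        apply h3
        rw [← h, mir_mir]
      obtain ⟨g1, g2, g3⟩ := ab_crit H.hv1' H.hθ' H.hc'.le H.hr'.le h2 h4
      have := k2.2 g1 g2 g3
      linarith [k1.1]
  · have hne' : ab v ≠ gdv (UU xc θ) ∨ ab (mir w) ≠ gdv (UU xc' θ') := by
      rwa [← not_and_or]
    exact (H.far_q hF hE (ab_mem hv) (ab_re v) (ab_mem (mir_mem hw)) (ab_re _) hne').mono hL

/-- **The estimate of an open-open edge at the critical point.** -/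
theorem OO.near (H : OO Φ θ θ' xc xc' b b' v1 v1') (hC : FlatC θ θ' xc xc')
    (hE : EndAll Φ θ θ' xc xc' b b' v1 v1' (mu b a v1) (mu b' a' v1')) :
    EdgeC (.op (gdv (UU xc θ))) (.op (mir (gdv (UU xc' θ')))) (yy (UU xc θ) (UU xc' (-θ')))
      (EE (.op (gdv (UU xc θ))) (.op (mir (gdv (UU xc' θ')))) (yy (UU xc θ) (UU xc' (-θ')))) := by
  have h := H.near_q hC hE
  rwa [H.Lc, EE_conj_mir] at h

end

end Pool.Agent.S3.T2
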