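import Pool.Agent.S3.W.Vert
import Pool.Agent.S3.W2.Pair2

/-!
# The verticals of the contour: `Re Φ` increases with the height
-/

set_option autoImplicit false

namespace Pool.Agent.S3.T2

open Complex
open Pool.Agent.H25.RK (gdv gdv_re_lt gdv_hasDerivAt)

section

variable {θ θ' : ℝ} {v w : ℂ} {Φ : ℂ → ℂ → ℂ}

theorem Und.up (h : Und θ v) (hθ : Ht θ) : Und θ (S3.up θ v) :=
  ⟨by rw [up_re]; exact h.re0, by rw [up_re]; exact h.re1,
    by rw [up_im]; exact bl_nonneg hθ.pos.le hθ.lt h.abs.le, by rw [up_im, up_re]⟩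

/-- `Re Φ` increases with the height of `v`. -/
theorem Pr.vert_left (hΦ : IsPhi Φ) (h : Pr θ θ' v w) :
    (Φ v ((starRingEnd ℂ) w)).re ≤ (Φ (up θ v) ((starRingEnd ℂ) w)).re := by
  have hpi := Real.pi_pos
  have hR : |Real.pi * v.re| < Real.pi / 2 := by
    have := pi_re_lt h.hv.abs
    rwa [pi_mul_re] at this
  obtain ⟨W, hW⟩ : ∃ W, W = (starRingEnd ℂ) (uof w) := ⟨_, rfl⟩
  obtain ⟨w1, w2, w3, w4, w5⟩ := h.hw.u h.hθ'
  have hm : MonotoneOn (fun s : ℝ => (Φ (gd (igd (UU (Real.pi * v.re) s)) / (Real.pi : ℂ))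
      (gd W / (Real.pi : ℂ))).re) (Set.Icc (Real.pi * v.im) (Real.pi * bl θ v.re)) := by
    -- data on the segment
    have hd : ∀ s ∈ Set.Icc (Real.pi * v.im) (Real.pi * bl θ v.re),
        0 ≤ (igd (UU (Real.pi * v.re) s)).re ∧ 0 ≤ (igd (UU (Real.pi * v.re) s)).im ∧
        Reg (igd (UU (Real.pi * v.re) s)) W := by
      intro s hs
      obtain ⟨b, hb⟩ : ∃ b, s = Real.pi * b := ⟨s / Real.pi, by field_simp⟩
      have hb1 : v.im ≤ b := by
        have := hs.1
        rw [hb] at this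
        exact le_of_mul_le_mul_left this hpi
      have hb2 : b ≤ bl θ v.re := by
        have := hs.2
        rw [hb] at this
        exact le_of_mul_le_mul_left this hpi
      have hz : Pr θ θ' ((v.re : ℂ) + (b : ℂ) * I) w :=
        ⟨⟨by rw [line_re]; exact h.hv.re0, by rw [line_re]; exact h.hv.re1,
          by rw [line_im]; exact h.hv.im0.trans hb1, by rw [line_re, line_im]; exact hb2⟩,
          h.hw, h.hθ, h.hθ', h.S⟩
      have hq := hz.qo
      rw [uof_line, ← hb, ← hW] at hq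
      exact ⟨hq.ur, hq.ui, hq.reg⟩
    have hder : ∀ s ∈ Set.Icc (Real.pi * v.im) (Real.pi * bl θ v.re),
        HasDerivAt (fun s : ℝ => (Φ (gd (igd (UU (Real.pi * v.re) s)) / (Real.pi : ℂ))
          (gd W / (Real.pi : ℂ))).re) (2 / Real.pi * (qq (igd (UU (Real.pi * v.re) s)) W).im) s := by
      intro s hs
      obtain ⟨_, _, hr⟩ := hd s hs
      have h1 := hΦ.deriv (fun s => igd (UU (Real.pi * v.re) s)) (fun _ => W) _ 0 s hr
        (hasDerivAt_igd_line hR s) (hasDerivAt_const _ _)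
      have h2 := hasDerivAt_re h1
      refine h2.congr_deriv ?_
      have hc := cosh_ne hr.left
      have hpi' : (Real.pi : ℂ) ≠ 0 := by exact_mod_cast Real.pi_ne_zero
      have e : (-2 * qq (igd (UU (Real.pi * v.re) s)) W * (I * cosh (igd (UU (Real.pi * v.re) s))) /
          ((Real.pi : ℂ) * cosh (igd (UU (Real.pi * v.re) s))) -
          2 * qq W (igd (UU (Real.pi * v.re) s)) * 0 / ((Real.pi : ℂ) * cosh W)) =
          ((2 / Real.pi : ℝ) : ℂ) * (-I * qq (igd (UU (Real.pi * v.re) s)) W) := by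
        push_cast
        field_simp
        ring
      rw [e, re_ofReal_mul]
      congr 1
      rw [mul_re, neg_re, neg_im, I_re, I_im]
      ring
    apply monotoneOn_of_deriv_nonneg (convex_Icc _ _)
    · intro s hs
      exact (hder s hs).continuousAt.continuousWithinAt
    · intro s hs
      rw [interior_Icc] at hs
      exact (hder s (Set.Ioo_subset_Icc_self hs)).differentiableAt.differentiableWithinAt
    · intro s hs
      rw [interior_Icc] at hs
      have hs' := Set.Ioo_subset_Icc_self hs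
      rw [(hder s hs').deriv]
      obtain ⟨g1, g2, g3⟩ := hd s hs'
      have := qq_im_nonneg g3 g1 (by rw [hW, conj_re]; exact w1) g2
        (by rw [hW, conj_im]; linarith)
      positivity
  have hle : Real.pi * v.im ≤ Real.pi * bl θ v.re := mul_le_mul_of_nonneg_left h.hv.im1 hpi.le
  have k := hm ⟨le_rfl, hle⟩ ⟨hle, le_rfl⟩ hle
  simp only at k
  rw [← uof_line, ← uof_line, re_add_im, hW, ← h.hw.conj_u] at k
  have hcw : |((starRingEnd ℂ) w).re| < 1 / 2 := conj_abs h.hw.abs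
  rw [Phi_eq_gd Φ h.hv.abs hcw, Phi_eq_gd Φ (v := S3.up θ v) (by rw [up_re]; exact h.hv.abs) hcw]
  exact k

theorem Phi_conj (hΦ : IsPhi Φ) (h : Pr θ θ' v w) :
    (Φ ((starRingEnd ℂ) v) w).re = (Φ v ((starRingEnd ℂ) w)).re := by
  have hcw : |((starRingEnd ℂ) w).re| < 1 / 2 := conj_abs h.hw.abs
  have hcv : |((starRingEnd ℂ) v).re| < 1 / 2 := conj_abs h.hv.abs
  have := hΦ.conj _ _ h.qo.reg
  rw [conj_conj] at this
  rw [Phi_eq_gd Φ h.hv.abs hcw, Phi_eq_gd Φ hcv h.hw.abs, h.hw.conj_u, h.hv.conj_u]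
  exact this

/-- `Re Φ` increases with the heights. -/
theorem Pr.vert (hΦ : IsPhi Φ) (h : Pr θ θ' v w) :
    (Φ v ((starRingEnd ℂ) w)).re ≤ (Φ (up θ v) ((starRingEnd ℂ) (up θ' w))).re := by
  refine (h.vert_left hΦ).trans ?_
  have h1 : Pr θ θ' (up θ v) w := ⟨h.hv.up h.hθ, h.hw, h.hθ, h.hθ', h.S⟩
  have h2 : Pr θ θ' (up θ v) (up θ' w) := ⟨h.hv.up h.hθ, h.hw.up h.hθ', h.hθ, h.hθ', h.S⟩
  have k := h1.symm.vert_left hΦ.swap
  rwa [Phi_conj hΦ h1, Phi_conj hΦ h2] at k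

/-! ### The bound -/

variable {b b' xc xc' : ℝ}

/-- Points of the lines. -/
theorem Und.up_line (h : Und θ v) (hθ : Ht θ) :
    S3.up θ v = gdv (UU (uof (S3.up θ v)).re θ) :=
  line_exists (h.up hθ).abs hθ.abs (by rw [up_im, up_re])

theorem Pr.D_lt (hΦ : IsPhi Φ) (ho : OppHyp θ θ' xc xc') (hs : Split θ θ' xc xc' b b')
    (hc : 0 < xc) (hc' : 0 < xc') (h : Pr θ θ' v w)
    (hne : up θ v ≠ gdv (UU xc θ) ∨ up θ' w ≠ gdv (UU xc' θ')) :
    (Φ (up θ v) ((starRingEnd ℂ) (up θ' w))).re < L0 Φ θ θ' b b' xc xc' (up θ v) (up θ' w) := by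
  have e1 := h.hv.up_line h.hθ
  have e2 := h.hw.up_line h.hθ'
  have k := L0_line (Φ := Φ) (b := b) (b' := b') ho (uof (up θ v)).re (uof (up θ' w)).re
  rw [← e1, ← e2] at k
  rw [k]
  have hd : Dfun Φ θ θ' b b' xc xc' (uof (up θ v)).re (uof (up θ' w)).re < 0 := by
    apply Dfun_main_lt hΦ ho hs hc hc'
    intro he
    rw [Prod.mk.injEq] at he
    rw [he.1] at e1
    rw [he.2] at e2
    rcases hne with h1 | h1
    · exact h1 e1
    · exact h1 e2
  linarith

/-- Below the lines the growth rate at the critical point is less than the bound over the point. -/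
theorem Pr.lt_L0 (hΦ : IsPhi Φ) (ho : OppHyp θ θ' xc xc') (hs : Split θ θ' xc xc' b b')
    (hc : 0 < xc) (hc' : 0 < xc') (h : Pr θ θ' v w)
    (hne : up θ v ≠ gdv (UU xc θ) ∨ up θ' w ≠ gdv (UU xc' θ')) :
    (Φ v ((starRingEnd ℂ) w)).re < L0 Φ θ θ' b b' xc xc' (up θ v) (up θ' w) :=
  (h.vert hΦ).trans_lt (h.D_lt hΦ ho hs hc hc' hne)

end

end Pool.Agent.S3.T2
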