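import Pool.Agent.S3.W2.Cfg2
import Pool.Agent.S3.W2.NL

/-!
# The estimates of the edges of a chain, inner vertices with two half twists included
-/

set_option autoImplicit false

namespace Pool.Agent.S3.T2

open Complex
open Pool.Agent.H63.VC7 (inc)
open Pool.Agent.S3.E
open Pool.Agent.H25.RK (gdv gdv_re_lt gdv_hasDerivAt ul)

variable {m : ℕ} {a : Fin (m + 1) → ℕ} {σ : Fin (m + 1) → ℤ} {z : Fin (m + 1) → ℂ}

theorem Ht.of {θ : ℝ} (h : S3.Ht θ) : Ht θ := ⟨h.pos, h.lt, by linarith [h.tan]⟩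

theorem V1.of {v1 : ℝ} (h : S3.V1 v1) : V1 v1 := ⟨h.pos, by linarith [h.le]⟩

theorem Und.of {θ : ℝ} {v : ℂ} (h : S3.Und θ v) : Und θ v :=
  ⟨h.re0, by linarith [h.re1], h.im0, h.im1⟩

theorem Pr.of {θ θ' : ℝ} {v w : ℂ} (h : S3.Pr θ θ' v w) : Pr θ θ' v w :=
  ⟨Und.of h.hv, Und.of h.hw, Ht.of h.hθ, Ht.of h.hθ', h.S⟩

/-- The edges between vertices with at least three half twists. -/
theorem OOD.of {Φ : ℂ → ℂ → ℂ} (hΦ : IsPhi Φ) (h0 : Φ 0 0 = c00)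
    (h : Zr (fun i => (a i : ℝ)) chL chR 1 z) {n p : Fin (m + 1)}
    (hnp : chL n = some p ∨ chR n = some p) {v1 v1' : ℝ} (hv : S3.V1 v1) (hv' : S3.V1 v1')
    (h1 : v1 ≤ 13 / 40) (h1' : v1' ≤ 13 / 40) (D : S3.OOD Φ (z n) (z p) (a n) (a p) v1 v1') :
    OOD Φ (z n) (z p) (a n) (a p) v1 v1' where
  hθ := Ht.of D.hθ
  hθ' := Ht.of D.hθ'
  hr := D.hr
  hr' := D.hr'
  nl := by
    have K := D.oo hΦ h0 h hnp hv hv'
    have := (Pr.of K.prc).nl_t (K.hr.le.trans h1) (by linarith [D.hθ.tan])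
    rwa [gdv_eq_div h, gdv_eq_div h] at this
  nl' := by
    have K := D.oo hΦ h0 h hnp hv hv'
    have := (Pr.of K.prc).symm.nl_t (K.hr'.le.trans h1') (by linarith [D.hθ'.tan])
    rwa [gdv_eq_div h, gdv_eq_div h] at this
  flat := by
    intro v w hv1 hv0 hw1 hw0 hne
    have K := D.oo hΦ h0 h hnp hv hv'
    have hp := K.pr hv1 hv0 hw1 hw0
    obtain ⟨H, f1, f2, f3⟩ := flatH_of hΦ h0 (Pr.of hp) ((Pr.of hp).nl_t ((cmp_re _).trans h1)
      (by linarith [D.hθ.tan])) ((Pr.of hp).symm.nl_t ((cmp_re _).trans h1')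
      (by linarith [D.hθ'.tan])) (D.flat _ _ hp.hv hp.hw (cmp_re _) (cmp_re _))
      (K.Phi_lt D.gL D.gR hv1 hv0 hw1 hw0 hne)
    exact ⟨H, f1, Or.inl f2, f3⟩
  flatc := D.flatc
  ends := D.ends

/-- The data at every open-open edge. -/
def OODall (a : Fin (m + 1) → ℕ) (σ : Fin (m + 1) → ℤ) (z : Fin (m + 1) → ℂ) (Φ : ℂ → ℂ → ℂ)
    (v1 : Fin (m + 1) → ℝ) : Prop := ∀ n p : Fin (m + 1), (chL n = some p ∨ chR n = some p) →
  ¬ clo a n → ¬ clo a p → σ n = -1 → σ p = 1 →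
    OOD Φ (z n) (z p) (a n) (a p) (v1 n) (v1 p)

/-- The estimates at an edge with a closed end. -/
structure ClEdge (a : Fin (m + 1) → ℕ) (σ : Fin (m + 1) → ℤ) (z : Fin (m + 1) → ℂ)
    (v1 : Fin (m + 1) → ℝ) (j : Fin m) : Prop where
  far : ∀ v w : ℂ,
    (j.castSucc ∈ (cfgOf a σ z).Op → v ∈ G0 ((cfgOf a σ z).θ j.castSucc) (v1 j.castSucc)) →
    (j.succ ∈ (cfgOf a σ z).Op → w ∈ G0 ((cfgOf a σ z).θ j.succ) (v1 j.succ)) →
    ((j.castSucc ∈ (cfgOf a σ z).Op ∧ v ≠ (cfgOf a σ z).vc j.castSucc) ∨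
      (j.succ ∈ (cfgOf a σ z).Op ∧ w ≠ (cfgOf a σ z).vc j.succ)) →
    EdgeOK ((cfgOf a σ z).sv j.castSucc v) ((cfgOf a σ z).sv j.succ w)
      ((cfgOf a σ z).Lw v1 (lamC a z) j v w)
  near : EdgeC ((cfgOf a σ z).slc j.castSucc) ((cfgOf a σ z).slc j.succ) ((cfgOf a σ z).yc j)
    ((cfgOf a σ z).Fc j)

/-- The estimates of the edges from the data. -/
theorem edg_of {Φ : ℂ → ℂ → ℂ} (hΦ : IsPhi Φ) (h0 : Φ 0 0 = c00)
    (h : Zr (fun i => (a i : ℝ)) chL chR 1 z) (ha : ∀ i, 2 ≤ a i)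
    (hσ : ∀ i, σ i = 1 ∨ σ i = -1) (hs : ∀ j : Fin m, σ j.succ = -σ j.castSucc)
    (h2 : ∀ j : Fin m, ¬ (clo a j.castSucc ∧ clo a j.succ))
    {v1 : Fin (m + 1) → ℝ} (hv1 : ∀ i, V1 (v1 i))
    (hvx : ∀ i, ¬ clo a i → (z i).re / Real.pi < v1 i)
    (hD : OODall a σ z Φ v1)
    (hC : ∀ j : Fin m, (clo a j.castSucc ∨ clo a j.succ) → ClEdge a σ z v1 j) :
    (cfgOf a σ z).Edg v1 (lamC a z) where
  v0 := fun i _ => (hv1 i).pos
  vh := fun i _ => by linarith [(hv1 i).le]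
  vx := fun i hi => by
    have h1 := hvx i (mem_Op.1 hi)
    have h3 := abs_th_lt (h.pos i).1 (h.pos i).2.1 (h.pos i).2.2
    have h4 : 0 < (z i).re / Real.pi := div_pos (h.pos i).1 Real.pi_pos
    rcases hσ i with s | s
    · rw [vcC_pos h3 s, mir_re, abs_neg, gdv_re_eq h, abs_of_pos h4]; exact h1
    · rw [vcC_neg s, gdv_re_eq h, abs_of_pos h4]; exact h1
  lam1 := fun i _ => lamC_sum h ha i
  far := by
    intro j v w hv hw hne
    by_cases hc : clo a j.castSucc ∨ clo a j.succ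
    · exact (hC j hc).far v w hv hw hne
    · rw [not_or] at hc
      obtain ⟨c1, c2⟩ := hc
      have hne' : v ≠ (cfgOf a σ z).vc j.castSucc ∨ w ≠ (cfgOf a σ z).vc j.succ := by
        rcases hne with h | h
        · exact Or.inl h.2
        · exact Or.inr h.2
      refine far_oo hΦ h0 h ha hv1 (edC h ha hσ hs h2 j) c1 c2 ?_ (hv (mem_Op.2 c1))
        (hw (mem_Op.2 c2)) hne'
      rcases hσ j.castSucc with s | s
      · right
        have s2 : σ j.succ = -1 := by rw [hs, s]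
        exact ⟨s, s2, hD _ _ (Or.inl (chL_succ j)) c2 c1 s2 s⟩
      · left
        have s2 : σ j.succ = 1 := by rw [hs, s]; rfl
        exact ⟨s, s2, hD _ _ (Or.inr (chR_castSucc j)) c1 c2 s s2⟩
  near := by
    intro j
    by_cases hc : clo a j.castSucc ∨ clo a j.succ
    · exact (hC j hc).near
    · rw [not_or] at hc
      obtain ⟨c1, c2⟩ := hc
      refine near_oo hΦ h0 h hv1 c1 c2 ?_
      rcases hσ j.castSucc with s | s
      · right
        have s2 : σ j.succ = -1 := by rw [hs, s]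
        exact ⟨s, s2, hD _ _ (Or.inl (chL_succ j)) c2 c1 s2 s⟩
      · left
        have s2 : σ j.succ = 1 := by rw [hs, s]; rfl
        exact ⟨s, s2, hD _ _ (Or.inr (chR_castSucc j)) c1 c2 s s2⟩

end Pool.Agent.S3.T2
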