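import Pool.Agent.S3.W2.Gain13

/-!
# The value at the critical point is less than the bound: all types of vertices
-/

set_option autoImplicit false

namespace Pool.Agent.S3.T2

open Complex
open Pool.Agent.H25.RK (gdv gdv_re_lt gdv_hasDerivAt)

/-- The condition at a vertex with `a` half twists, height `θ`, abscissa `c = re v_c`, weight `b` and
last abscissa `v1` of the contour. -/
def VOK (a : ℕ) (θ c b v1 : ℝ) : Prop :=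
  (a = 2 ∧ v1 = 2 / 5 ∧ 1 / 3 ≤ θ ∧ b ≤ 2 ∧
    (c ≤ 3 / 10 ∨ (c ≤ 31 / 100 ∧ 535 / 1000 ≤ Real.tan θ ∧ b ≤ 8 / 5))) ∨
  (a = 3 ∧ v1 = 13 / 40 ∧ 147 * Real.tan θ ^ 2 ≤ 53 ∧ b ≤ 3 ∧
    (mu b 3 (13 / 40) ≤ 14 / 25 * Real.tan θ ∨ (c ≤ 3 / 10 ∧ 1 / 5 ≤ Real.tan θ))) ∨
  (4 ≤ a ∧ v1 = 13 / 40)

section

variable {Φ : ℂ → ℂ → ℂ} {θ θ' xc xc' b b' v1 v1' : ℝ} {v w : ℂ} {a a' : ℕ}

theorem mu_two (b : ℝ) : mu b ((2 : ℕ) : ℝ) (2 / 5) = Real.pi * b / 5 := by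
  unfold mu
  push_cast
  ring

theorem mu_three (b : ℝ) : mu b ((3 : ℕ) : ℝ) (13 / 40) = Real.pi * b / 60 := by
  unfold mu
  push_cast
  ring

theorem mu_four {a : ℕ} (ha : 4 ≤ a) (hb : 0 ≤ b) : mu b (a : ℝ) (13 / 40) ≤ 0 := by
  unfold mu
  have h1 : (4 : ℝ) ≤ a := by exact_mod_cast ha
  have h2 : 0 ≤ b / a := div_nonneg hb (by linarith)
  have h3 : 2 * Real.pi * (1 - a * (13 / 40)) ≤ 0 := by
    have := Real.pi_pos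
    have h4 : (1 - (a : ℝ) * (13 / 40)) ≤ 0 := by linarith
    have := mul_nonneg (by positivity : (0 : ℝ) ≤ 2 * Real.pi) (neg_nonneg.2 h4)
    linarith
  exact mul_nonpos_of_nonneg_of_nonpos h2 h3

/-- A vertex with two half twists: the other point is arbitrary. -/
theorem VOK.two (hΦ : IsPhi Φ) (hθ : Ht θ) (hb : 0 ≤ b) (hc0 : 0 ≤ (gdv (UU xc θ)).re)
    (h : VOK 2 θ (gdv (UU xc θ)).re b v1) : GLa Φ θ θ' xc b v1 v1' (mu b ((2 : ℕ) : ℝ) v1) := by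
  rcases h with ⟨-, rfl, h1, h2, h3⟩ | ⟨h, -⟩ | ⟨h, -⟩
  · rcases h3 with h3 | ⟨h3, h4, h5⟩
    · exact gla_25 hΦ h1 hθ.lt hb h2 hc0 h3 (mu_two b).le
    · exact gla_25' hΦ h4 hb h5 hc0 h3 (mu_two b).le
  · omega
  · omega

/-- A vertex with at least three half twists: the other point on its line. -/
theorem VOK.three_l (hΦ : IsPhi Φ) (hb : 0 ≤ b) (hc0 : 0 ≤ (gdv (UU xc θ)).re)
    (hc1 : (gdv (UU xc θ)).re ≤ 1 / 2) (ha : 3 ≤ a) (h : VOK a θ (gdv (UU xc θ)).re b v1)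
    (ht' : 1 / 3 ≤ Real.tan θ') : GLl Φ θ θ' xc b v1 v1' (mu b (a : ℝ) v1) := by
  rcases h with ⟨h, -⟩ | ⟨rfl, rfl, h1, h2, h3⟩ | ⟨h, rfl⟩
  · omega
  · have hpi := Real.pi_lt_d4
    rcases h3 with h3 | ⟨h3, h4⟩
    · refine gll_13 hΦ h1 hb hc0 hc1 (by exact_mod_cast h3) ?_ ht'
      rw [mu_three]
      nlinarith
    · exact gll_13e hΦ h1 h4 hb h2 hc0 h3 (mu_three b).le ht'
  · exact (GLa.nonpos hΦ hb hc0 hc1 (mu_four h hb)).l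

/-- A vertex with at least three half twists: the other point arbitrary, `v1' ≤ 1/3`. -/
theorem VOK.three_a (hΦ : IsPhi Φ) (hb : 0 ≤ b) (hc0 : 0 ≤ (gdv (UU xc θ)).re)
    (hc1 : (gdv (UU xc θ)).re ≤ 1 / 2) (ha : 3 ≤ a) (h : VOK a θ (gdv (UU xc θ)).re b v1)
    (hg : a = 3 → mu b 3 (13 / 40) ≤ 14 / 25 * Real.tan θ) (hv1' : v1' ≤ 1 / 3) :
    GLa Φ θ θ' xc b v1 v1' (mu b (a : ℝ) v1) := by
  rcases h with ⟨h, -⟩ | ⟨rfl, rfl, h1, h2, h3⟩ | ⟨h, rfl⟩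
  · omega
  · exact gla_13 hΦ h1 hb hc0 hc1 (by exact_mod_cast hg rfl) hv1'
  · exact GLa.nonpos hΦ hb hc0 hc1 (mu_four h hb)

theorem VOK.tan (h : VOK 2 θ b v1 v1') (hθ : θ < Real.pi / 2) : 1 / 3 ≤ Real.tan θ := by
  rcases h with ⟨-, -, h1, -⟩ | ⟨h, -⟩ | ⟨h, -⟩
  · exact h1.trans (Real.le_tan (by linarith) hθ)
  · omega
  · omega

/-- **The value at the critical point is less than the bound**, at an edge with a two. -/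
theorem OO.Phi_ltV (H : OO Φ θ θ' xc xc' b b' v1 v1') (ha : 2 ≤ a) (ha' : 2 ≤ a')
    (h2 : a = 2 ∨ a' = 2) (h : VOK a θ (gdv (UU xc θ)).re b v1)
    (h' : VOK a' θ' (gdv (UU xc' θ')).re b' v1') (hv : v ∈ G0 θ v1) (hv0 : 0 ≤ v.re)
    (hw : w ∈ G0 θ' v1') (hw0 : 0 ≤ w.re)
    (hne : v ≠ gdv (UU xc θ) ∨ w ≠ gdv (UU xc' θ')) :
    (Φ (cmp v1 v) ((starRingEnd ℂ) (cmp v1' w))).re <
      LM Φ θ θ' b b' xc xc' v1 v1' (mu b (a : ℝ) v1) (mu b' (a' : ℝ) v1') v w := by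
  obtain ⟨c1, c2, c3, c4⟩ := H.crit0
  have hb := H.hs.b0.le
  have hb' := H.hs.b0'.le
  by_cases e : a = 2
  · subst e
    have g1 : GLa Φ θ θ' xc b v1 v1' (mu b ((2 : ℕ) : ℝ) v1) := h.two H.hΦ H.hθ hb c1
    refine H.Phi_lt12 g1 ?_ hv hv0 hw hw0 hne
    by_cases e' : a' = 2
    · subst e'
      exact (GLa.l (h'.two H.hΦ.swap H.hθ' hb' c3)).r H.hΦ
    · exact (h'.three_l H.hΦ.swap hb' c3 c4 (by omega) (h.tan H.hθ.lt)).r H.hΦ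
  · have e' : a' = 2 := by tauto
    subst e'
    have g1 : GRa Φ θ θ' xc' b' v1 v1' (mu b' ((2 : ℕ) : ℝ) v1') :=
      GLa.r H.hΦ (h'.two H.hΦ.swap H.hθ' hb' c3)
    exact H.Phi_lt21 (h.three_l H.hΦ hb c1 c2 (by omega) (h'.tan H.hθ'.lt)) g1 hv hv0 hw hw0 hne

/-- The same at an edge between vertices with at least three half twists. -/
theorem OO.Phi_ltV3 (H : OO Φ θ θ' xc xc' b b' (13 / 40) (13 / 40)) (ha : 3 ≤ a) (ha' : 3 ≤ a')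
    (h : VOK a θ (gdv (UU xc θ)).re b (13 / 40))
    (h' : VOK a' θ' (gdv (UU xc' θ')).re b' (13 / 40))
    (hg : a = 3 → mu b 3 (13 / 40) ≤ 14 / 25 * Real.tan θ)
    (hg' : a' = 3 → mu b' 3 (13 / 40) ≤ 14 / 25 * Real.tan θ')
    (hv : v ∈ G0 θ (13 / 40)) (hv0 : 0 ≤ v.re)
    (hw : w ∈ G0 θ' (13 / 40)) (hw0 : 0 ≤ w.re)
    (hne : v ≠ gdv (UU xc θ) ∨ w ≠ gdv (UU xc' θ')) :
    (Φ (cmp (13 / 40) v) ((starRingEnd ℂ) (cmp (13 / 40) w))).re <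
      LM Φ θ θ' b b' xc xc' (13 / 40) (13 / 40) (mu b (a : ℝ) (13 / 40))
        (mu b' (a' : ℝ) (13 / 40)) v w := by
  obtain ⟨c1, c2, c3, c4⟩ := H.crit0
  exact H.Phi_lt12 (h.three_a H.hΦ H.hs.b0.le c1 c2 ha hg (by norm_num))
    (GLa.l (h'.three_a H.hΦ.swap H.hs.b0'.le c3 c4 ha' hg' (by norm_num)) |>.r H.hΦ)
    hv hv0 hw hw0 hne

end

end Pool.Agent.S3.T2
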