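import Pool.Agent.S3.W2.NL

/-!
# No loss in the joint range of an inner vertex with two half twists and its neighbour

`Pr.nl_J`: `re v ≤ 37 / 100`, `t = tan² θ`, `k = tan² θ'` and `k ≤ 9/40` or (`t ≤ 9/10`, `k ≤ 2/5`)
or (`t ≤ 4/5`, `k ≤ 17/25`) or `t ≤ 73/100` (the conclusion of `Zr.joint2`).
-/

set_option autoImplicit false

namespace Pool.Agent.S3.T2

open Complex

theorem nl_num_j1 {q X : ℝ} (hq : 157 / 1000 ≤ q) (hX : 0 ≤ X) (hz : X ≤ q) :
    Bf q X ≤ 0 ∨ Bf q X ^ 2 < 8 * X * (1 + X) * (1 / (1 + 9 / 40)) := by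
  rcases le_or_gt (Bf q X) 0 with h | h
  · exact Or.inl h
  right
  have hX1 : 56 / 1000 < X := by
    by_contra hc
    push Not at hc
    have := Bf_le (q0 := 157 / 1000) (β := 0) (by norm_num) hq hX le_rfl (by nlinarith)
    linarith
  rcases le_total X (11 / 100) with c0 | c0
  · have := Bf_le (q0 := 157 / 1000) (β := 612 / 1000) (by norm_num) hq hX (by norm_num)
      (by nlinarith)
    exact sq_lt_of h this (by nlinarith)
  rcases le_total X (135 / 1000) with c1 | c1
  · have := Bf_le (q0 := 157 / 1000) (β := 83 / 100) (by norm_num) hq hX (by norm_num)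
      (by nlinarith)
    exact sq_lt_of h this (by nlinarith)
  · have h1 := Bf_le' (q := q) (κ := 1) (by linarith) hX zero_le_one (by linarith)
    exact sq_lt_of h (β := 1) (by linarith) (by nlinarith)

theorem nl_num_j2 {q X : ℝ} (hq : 157 / 1000 ≤ q) (hX : 0 ≤ X) (hz : X ≤ 9 / 10 * q) :
    Bf q X ≤ 0 ∨ Bf q X ^ 2 < 8 * X * (1 + X) * (1 / (1 + 2 / 5)) := by
  rcases le_or_gt (Bf q X) 0 with h | h
  · exact Or.inl h
  right
  have hX1 : 56 / 1000 < X := by
    by_contra hc
    push Not at hc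
    have := Bf_le (q0 := 157 / 1000) (β := 0) (by norm_num) hq hX le_rfl (by nlinarith)
    linarith
  rcases le_total X (10 / 100) with c0 | c0
  · have := Bf_le (q0 := 157 / 1000) (β := 515 / 1000) (by norm_num) hq hX (by norm_num)
      (by nlinarith)
    exact sq_lt_of h this (by nlinarith)
  rcases le_total X (124 / 1000) with c1 | c1
  · have := Bf_le (q0 := 157 / 1000) (β := 738 / 1000) (by norm_num) hq hX (by norm_num)
      (by nlinarith)
    exact sq_lt_of h this (by nlinarith)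
  · have h1 := Bf_le' (q := q) (κ := 9 / 10) (by linarith) hX (by norm_num) hz
    exact sq_lt_of h (β := 882 / 1000) (by linarith) (by nlinarith)

theorem nl_num_j3 {q X : ℝ} (hq : 157 / 1000 ≤ q) (hX : 0 ≤ X) (hz : X ≤ 4 / 5 * q) :
    Bf q X ≤ 0 ∨ Bf q X ^ 2 < 8 * X * (1 + X) * (1 / (1 + 17 / 25)) := by
  rcases le_or_gt (Bf q X) 0 with h | h
  · exact Or.inl h
  right
  have hX1 : 56 / 1000 < X := by
    by_contra hc
    push Not at hc
    have := Bf_le (q0 := 157 / 1000) (β := 0) (by norm_num) hq hX le_rfl (by nlinarith)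
    linarith
  rcases le_total X (9 / 100) with c0 | c0
  · have := Bf_le (q0 := 157 / 1000) (β := 41 / 100) (by norm_num) hq hX (by norm_num)
      (by nlinarith)
    exact sq_lt_of h this (by nlinarith)
  rcases le_total X (110 / 1000) with c1 | c1
  · have := Bf_le (q0 := 157 / 1000) (β := 612 / 1000) (by norm_num) hq hX (by norm_num)
      (by nlinarith)
    exact sq_lt_of h this (by nlinarith)
  · have h1 := Bf_le' (q := q) (κ := 4 / 5) (by linarith) hX (by norm_num) hz
    exact sq_lt_of h (β := 755 / 1000) (by linarith) (by nlinarith)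

theorem nl_num_j4 {q X : ℝ} (hq : 157 / 1000 ≤ q) (hX : 0 ≤ X) (hz : X ≤ 73 / 100 * q) :
    Bf q X ≤ 0 ∨ Bf q X ^ 2 < 8 * X * (1 + X) * (1 / (1 + 1)) := by
  rcases le_or_gt (Bf q X) 0 with h | h
  · exact Or.inl h
  right
  have hX1 : 56 / 1000 < X := by
    by_contra hc
    push Not at hc
    have := Bf_le (q0 := 157 / 1000) (β := 0) (by norm_num) hq hX le_rfl (by nlinarith)
    linarith
  rcases le_total X (9 / 100) with c0 | c0
  · have := Bf_le (q0 := 157 / 1000) (β := 41 / 100) (by norm_num) hq hX (by norm_num)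
      (by nlinarith)
    exact sq_lt_of h this (by nlinarith)
  rcases le_total X (100 / 1000) with c1 | c1
  · have := Bf_le (q0 := 157 / 1000) (β := 515 / 1000) (by norm_num) hq hX (by norm_num)
      (by nlinarith)
    exact sq_lt_of h this (by nlinarith)
  · have h1 := Bf_le' (q := q) (κ := 73 / 100) (by linarith) hX (by norm_num) hz
    exact sq_lt_of h (β := 657 / 1000) (by linarith) (by nlinarith)

section

variable {θ θ' : ℝ} {v w : ℂ}

/-- No loss in the joint range, `re v ≤ 37 / 100`; `v` belongs to the inner vertex with two half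
twists. -/
theorem Pr.nl_J (h : Pr θ θ' v w) (hre : v.re ≤ 37 / 100)
    (hJ : Real.tan θ' ^ 2 ≤ 9 / 40 ∨
      (Real.tan θ ^ 2 ≤ 9 / 10 ∧ Real.tan θ' ^ 2 ≤ 2 / 5) ∨
      (Real.tan θ ^ 2 ≤ 4 / 5 ∧ Real.tan θ' ^ 2 ≤ 17 / 25) ∨
      Real.tan θ ^ 2 ≤ 73 / 100) : NL v w := by
  have hq : 157 / 1000 ≤ Real.cos (Real.pi * v.re) ^ 2 :=
    cos_sq_37.trans (cos_sq_anti h.hv.re0 hre (by norm_num))
  rcases hJ with h2 | ⟨h1, h2⟩ | ⟨h1, h2⟩ | h1
  · apply h.nl_of (κ := 9 / 40) (by norm_num) (by norm_num) h2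
    exact nl_num_j1 hq (sq_nonneg _) (h.hv.bl_sinh h.hθ)
  · apply h.nl_of (κ := 2 / 5) (by norm_num) (by norm_num) h2
    exact nl_num_j2 hq (sq_nonneg _) (h.hv.bl_tan h.hθ h1)
  · apply h.nl_of (κ := 17 / 25) (by norm_num) (by norm_num) h2
    exact nl_num_j3 hq (sq_nonneg _) (h.hv.bl_tan h.hθ h1)
  · apply h.nl_of (κ := 1) (by norm_num) (by norm_num) h.hθ'.tan
    exact nl_num_j4 hq (sq_nonneg _) (h.hv.bl_tan h.hθ h1)

end

end Pool.Agent.S3.T2
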