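import Pool.Agent.S3.Ck.Fb1
import Pool.Agent.S3.Ck.Fb10
import Pool.Agent.S3.Ck.Fb12
import Pool.Agent.S3.Ck.Fb2
import Pool.Agent.S3.Ck.Fb3
import Pool.Agent.S3.Ck.Fb4
import Pool.Agent.S3.Ck.Fb5
import Pool.Agent.S3.Ck.Fb6
import Pool.Agent.S3.Ck.Fb7
import Pool.Agent.S3.Ck.Fb8
import Pool.Agent.S3.Ck.Fx1
import Pool.Agent.S3.Ck.Fx2
import Pool.Agent.S3.Ck.Fx3
import Pool.Agent.S3.Ck.Fx4
import Pool.Agent.S3.Ck.Fx5
import Pool.Agent.S3.W2.Flats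
import Pool.Agent.S3.W2.NLJ
import Pool.Agent.S3.W2.PhiB
import Pool.Agent.S3.W2.Scheme

/-!
# The base of the slides and the flats before it, two vertices with two half twists
-/

set_option autoImplicit false

namespace Pool.Agent.S3.T2

open Complex
open Pool.Agent.H25.RK (gdv)

/-! ### The regions -/

/-- The region of the flats: `x = re v`, `y = re w`, `y ≤ x`. -/
def R22 (x y : ℝ) : Prop := y ≤ x ∧
  ((y ≤ 3 / 25 ∧ x ≤ 29 / 100) ∨ ((3 / 25 ≤ y ∧ y ≤ 1 / 5) ∧ x ≤ 59 / 200) ∨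
  ((1 / 5 ≤ y ∧ y ≤ 6 / 25) ∧ x ≤ 31 / 100) ∨ ((6 / 25 ≤ y ∧ y ≤ 7 / 25) ∧ x ≤ 643 / 2000) ∨
  ((7 / 25 ≤ y ∧ y ≤ 8 / 25) ∧ x ≤ 67 / 200) ∨ ((3 / 10 ≤ y ∧ y ≤ 8 / 25) ∧ x ≤ 69 / 200) ∨
  ((8 / 25 ≤ y ∧ y ≤ 71 / 200) ∧ x ≤ 71 / 200) ∨
  ((69 / 200 ≤ y ∧ y ≤ 71 / 200) ∧ x ≤ 73 / 200) ∨
  ((71 / 200 ≤ y ∧ y ≤ 73 / 200) ∧ x ≤ 3 / 8) ∨ ((73 / 200 ≤ y ∧ y ≤ 3 / 8) ∧ x ≤ 77 / 200) ∨
  ((3 / 8 ≤ y ∧ y ≤ 77 / 200) ∧ x ≤ 39 / 100) ∨
  ((19 / 50 ≤ y ∧ y ≤ 77 / 200) ∧ x ≤ 199 / 500) ∨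
  ((77 / 200 ≤ y ∧ y ≤ 39 / 100) ∧ x ≤ 2 / 5) ∨ (39 / 100 ≤ y ∧ x ≤ 2 / 5))

/-- The last abscissa of the flats. -/
noncomputable def A22 (y : ℝ) : ℝ :=
  if y ≤ 3 / 25 then 29 / 100 else if y ≤ 1 / 5 then 59 / 200 else
  if y ≤ 6 / 25 then 31 / 100 else if y ≤ 7 / 25 then 643 / 2000 else
  if y ≤ 3 / 10 then 67 / 200 else if y ≤ 8 / 25 then 69 / 200 else
  if y ≤ 69 / 200 then 71 / 200 else if y ≤ 71 / 200 then 73 / 200 else
  if y ≤ 73 / 200 then 3 / 8 else if y ≤ 3 / 8 then 77 / 200 else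
  if y ≤ 19 / 50 then 39 / 100 else if y ≤ 77 / 200 then 199 / 500 else 2 / 5

theorem R22_of {x y : ℝ} (h0 : y ≤ x) (h1 : x ≤ A22 y) : R22 x y := by
  refine ⟨h0, ?_⟩
  unfold A22 at h1
  rcases le_or_gt y (3 / 25) with c1 | c1
  · rw [if_pos c1] at h1
    exact Or.inl ⟨c1, h1⟩
  rw [if_neg (not_le.2 c1)] at h1
  right
  rcases le_or_gt y (1 / 5) with c2 | c2
  · rw [if_pos c2] at h1
    exact Or.inl ⟨⟨c1.le, c2⟩, h1⟩
  rw [if_neg (not_le.2 c2)] at h1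
  right
  rcases le_or_gt y (6 / 25) with c3 | c3
  · rw [if_pos c3] at h1
    exact Or.inl ⟨⟨c2.le, c3⟩, h1⟩
  rw [if_neg (not_le.2 c3)] at h1
  right
  rcases le_or_gt y (7 / 25) with c4 | c4
  · rw [if_pos c4] at h1
    exact Or.inl ⟨⟨c3.le, c4⟩, h1⟩
  rw [if_neg (not_le.2 c4)] at h1
  right
  rcases le_or_gt y (3 / 10) with c5 | c5
  · rw [if_pos c5] at h1
    exact Or.inl ⟨⟨c4.le, by linarith⟩, h1⟩
  rw [if_neg (not_le.2 c5)] at h1
  right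
  rcases le_or_gt y (8 / 25) with c6 | c6
  · rw [if_pos c6] at h1
    exact Or.inl ⟨⟨c5.le, c6⟩, h1⟩
  rw [if_neg (not_le.2 c6)] at h1
  right
  rcases le_or_gt y (69 / 200) with c7 | c7
  · rw [if_pos c7] at h1
    exact Or.inl ⟨⟨c6.le, by linarith⟩, h1⟩
  rw [if_neg (not_le.2 c7)] at h1
  right
  rcases le_or_gt y (71 / 200) with c8 | c8
  · rw [if_pos c8] at h1
    exact Or.inl ⟨⟨c7.le, c8⟩, h1⟩
  rw [if_neg (not_le.2 c8)] at h1
  right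
  rcases le_or_gt y (73 / 200) with c9 | c9
  · rw [if_pos c9] at h1
    exact Or.inl ⟨⟨c8.le, c9⟩, h1⟩
  rw [if_neg (not_le.2 c9)] at h1
  right
  rcases le_or_gt y (3 / 8) with c10 | c10
  · rw [if_pos c10] at h1
    exact Or.inl ⟨⟨c9.le, c10⟩, h1⟩
  rw [if_neg (not_le.2 c10)] at h1
  right
  rcases le_or_gt y (19 / 50) with c11 | c11
  · rw [if_pos c11] at h1
    exact Or.inl ⟨⟨c10.le, by linarith⟩, h1⟩
  rw [if_neg (not_le.2 c11)] at h1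
  right
  rcases le_or_gt y (77 / 200) with c12 | c12
  · rw [if_pos c12] at h1
    exact Or.inl ⟨⟨c11.le, c12⟩, h1⟩
  rw [if_neg (not_le.2 c12)] at h1
  right
  rcases le_or_gt y (39 / 100) with c13 | c13
  · exact Or.inl ⟨⟨c12.le, c13⟩, h1⟩
  · exact Or.inr ⟨c13.le, h1⟩

/-- The alternatives for the abscissae. -/
theorem R22.far {x y : ℝ} (h : R22 x y) : x ≤ 37 / 100 ∨ 71 / 200 ≤ y := by
  obtain ⟨-, h⟩ := h
  rcases h with h | h | h | h | h | h | h | h | h | h | h | h | h | h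
  · exact Or.inl (by linarith [h.2])
  · exact Or.inl (by linarith [h.2])
  · exact Or.inl (by linarith [h.2])
  · exact Or.inl (by linarith [h.2])
  · exact Or.inl (by linarith [h.2])
  · exact Or.inl (by linarith [h.2])
  · exact Or.inl (by linarith [h.2])
  · exact Or.inl (by linarith [h.2])
  · exact Or.inr (by linarith [h.1.1])
  · exact Or.inr (by linarith [h.1.1])
  · exact Or.inr (by linarith [h.1.1])
  · exact Or.inr (by linarith [h.1.1])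
  · exact Or.inr (by linarith [h.1.1])
  · exact Or.inr (by linarith [h.1])

section

variable {θ θ' : ℝ} {v w : ℂ}

/-- The criterion in the region. -/
theorem FM22 (hp : Pr θ θ' v w) (j : Ck.J3 (Real.tan θ ^ 2) (Real.tan θ' ^ 2))
    (j' : Ck.J3 (Real.tan θ' ^ 2) (Real.tan θ ^ 2)) (t1 : Real.tan θ ^ 2 < 1)
    (t2 : Real.tan θ' ^ 2 < 1) (h : R22 v.re w.re) : FM v w := by
  obtain ⟨h0, h⟩ := h
  have v1 := hp.hv.re1
  have w1 := hp.hw.re1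
  rcases h with h | h | h | h | h | h | h | h | h | h | h | h | h | h
  · exact Ck.flat_b1 hp j j' t1 t2 h.2 h.1
  · exact Ck.flat_b2 hp j j' t1 t2 (by linarith [h.1.1]) h.2 h.1.1 h.1.2
  · exact Ck.flat_b3 hp j j' t1 t2 (by linarith [h.1.1]) h.2 h.1.1 h.1.2
  · exact Ck.flat_b4 hp j j' t1 t2 (by linarith [h.1.1]) h.2 h.1.1 h.1.2
  · exact Ck.flat_b5 hp j j' t1 t2 (by linarith [h.1.1]) h.2 h.1.1 h.1.2
  · exact Ck.flat_x5 hp j j' t1 t2 (by linarith [h.1.1]) h.2 h.1.1 h.1.2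
  · rcases le_total w.re (67 / 200) with c | c
    · exact Ck.flat_b6 hp j j' t1 t2 (by linarith [h.1.1]) h.2 h.1.1 c
    · exact Ck.flat_b7 hp j j' t1 t2 (by linarith) h.2 c h.1.2
  · exact Ck.flat_x1 hp j j' t1 t2 (by linarith [h.1.1]) h.2 h.1.1 h.1.2
  · exact Ck.flat_b8 hp j j' t1 t2 (by linarith [h.1.1]) h.2 h.1.1 h.1.2
  · exact Ck.flat_x2 hp j j' t1 t2 (by linarith [h.1.1]) h.2 h.1.1 h.1.2
  · exact Ck.flat_b10 hp j j' t1 t2 (by linarith [h.1.1]) h.2 h.1.1 h.1.2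
  · exact Ck.flat_x3 hp j j' t1 t2 (by linarith [h.1.1]) h.2 h.1.1 h.1.2
  · exact Ck.flat_x4 hp j j' t1 t2 (by linarith [h.1.1]) h.2 h.1.1 h.1.2
  · exact Ck.flat_b12 hp j j' t1 t2 (by linarith [h.1]) h.2 h.1 w1

end

/-! ### No loss -/

theorem Gf_ge {q X k q1 : ℝ} (hq : 0 < q) (hX : 0 ≤ X) (hk0 : 0 ≤ k) (hk : k ≤ 1)
    (hz : X ≤ k * q) (h1 : q ≤ q1) : (1 - k) / ((1 + k) ^ 2 * q1) ≤ Gf q X := by
  have hq1 : 0 < q1 := by linarith
  have s1 : (1 - k) / ((1 + k) ^ 2 * q1) ≤ (1 - k) / ((1 + k) ^ 2 * q) := by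
    apply div_le_div_of_nonneg_left (by linarith) (by positivity)
    exact mul_le_mul_of_nonneg_left h1 (by positivity)
  refine s1.trans ?_
  rw [Gf, div_le_div_iff₀ (by positivity) (by positivity)]
  have a1 : (q + X) ^ 2 ≤ ((1 + k) * q) ^ 2 := pow_le_pow_left₀ (by linarith) (by linarith) 2
  have a2 : (1 - k) * q ≤ q - X + 2 * q * X := by
    have : 0 ≤ 2 * q * X := by positivity
    linarith
  calc (1 - k) * (q + X) ^ 2 ≤ (1 - k) * ((1 + k) * q) ^ 2 :=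
        mul_le_mul_of_nonneg_left a1 (by linarith)
    _ = (1 - k) * q * ((1 + k) ^ 2 * q) := by ring
    _ ≤ _ := mul_le_mul_of_nonneg_right a2 (by positivity)

/-- Reduction to a threshold `X`. -/
theorem Bf_pos {q X : ℝ} (hq : 954 / 10000 ≤ q) (hX : 0 ≤ X) (h : 0 < Bf q X) :
    33 / 1000 < X := by
  by_contra hc
  push Not at hc
  have := Bf_le (q0 := 954 / 10000) (β := 0) (by norm_num) hq hX le_rfl (by nlinarith)
  linarith

theorem nl_num_m1 {q X g : ℝ} (hq : 954 / 10000 ≤ q) (hX : 0 ≤ X) (hz : X ≤ q)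
    (hg : 2869 / 1000 ≤ g) : Bf q X ≤ 0 ∨ Bf q X ^ 2 < 8 * X * (1 + X) * g := by
  rcases le_or_gt (Bf q X) 0 with h | h
  · exact Or.inl h
  right
  have hX1 := Bf_pos hq hX h
  have hg' : 8 * X * (1 + X) * (2869 / 1000) ≤ 8 * X * (1 + X) * g :=
    mul_le_mul_of_nonneg_left hg (by positivity)
  refine lt_of_lt_of_le ?_ hg'
  rcases le_total X (80 / 1000) with c0 | c0
  · have := Bf_le (q0 := 954 / 10000) (β := 82 / 100) (by norm_num) hq hX (by norm_num)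
      (by nlinarith)
    exact sq_lt_of h this (by nlinarith)
  · have h1 := Bf_le' (q := q) (κ := 1) (by linarith) hX (by norm_num) (by linarith)
    exact sq_lt_of h (β := 1) (by linarith) (by nlinarith)

theorem nl_num_m2 {q X g : ℝ} (hq : 954 / 10000 ≤ q) (hX : 0 ≤ X) (hz : X ≤ 17 / 20 * q)
    (hg : 1581 / 1000 ≤ g) : Bf q X ≤ 0 ∨ Bf q X ^ 2 < 8 * X * (1 + X) * g := by
  rcases le_or_gt (Bf q X) 0 with h | h
  · exact Or.inl h
  right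
  have hX1 := Bf_pos hq hX h
  have hg' : 8 * X * (1 + X) * (1581 / 1000) ≤ 8 * X * (1 + X) * g :=
    mul_le_mul_of_nonneg_left hg (by positivity)
  refine lt_of_lt_of_le ?_ hg'
  rcases le_total X (67 / 1000) with c0 | c0
  · have := Bf_le (q0 := 954 / 10000) (β := 63 / 100) (by norm_num) hq hX (by norm_num)
      (by nlinarith)
    exact sq_lt_of h this (by nlinarith)
  · have h1 := Bf_le' (q := q) (κ := 17 / 20) (by linarith) hX (by norm_num) hz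
    exact sq_lt_of h (β := 838 / 1000) (by linarith) (by nlinarith)

theorem nl_num_m3 {q X g : ℝ} (hq : 954 / 10000 ≤ q) (hX : 0 ≤ X) (hz : X ≤ 143 / 200 * q)
    (hg : 807 / 1000 ≤ g) : Bf q X ≤ 0 ∨ Bf q X ^ 2 < 8 * X * (1 + X) * g := by
  rcases le_or_gt (Bf q X) 0 with h | h
  · exact Or.inl h
  right
  have hX1 := Bf_pos hq hX h
  have hg' : 8 * X * (1 + X) * (807 / 1000) ≤ 8 * X * (1 + X) * g :=
    mul_le_mul_of_nonneg_left hg (by positivity)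
  refine lt_of_lt_of_le ?_ hg'
  rcases le_total X (55 / 1000) with c0 | c0
  · have := Bf_le (q0 := 954 / 10000) (β := 434 / 1000) (by norm_num) hq hX (by norm_num)
      (by nlinarith)
    exact sq_lt_of h this (by nlinarith)
  rcases le_total X (65 / 1000) with c1 | c1
  · have := Bf_le (q0 := 954 / 10000) (β := 597 / 1000) (by norm_num) hq hX (by norm_num)
      (by nlinarith)
    exact sq_lt_of h this (by nlinarith)
  · have h1 := Bf_le' (q := q) (κ := 143 / 200) (by linarith) hX (by norm_num) hz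
    exact sq_lt_of h (β := 659 / 1000) (by linarith) (by nlinarith)

theorem nl_num_m4 {q X g : ℝ} (hq : 954 / 10000 ≤ q) (hX : 0 ≤ X) (hz : X ≤ 127 / 200 * q)
    (hg : 664 / 1000 ≤ g) : Bf q X ≤ 0 ∨ Bf q X ^ 2 < 8 * X * (1 + X) * g := by
  rcases le_or_gt (Bf q X) 0 with h | h
  · exact Or.inl h
  right
  have hX1 := Bf_pos hq hX h
  have hg' : 8 * X * (1 + X) * (664 / 1000) ≤ 8 * X * (1 + X) * g :=
    mul_le_mul_of_nonneg_left hg (by positivity)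
  refine lt_of_lt_of_le ?_ hg'
  rcases le_total X (52 / 1000) with c0 | c0
  · have := Bf_le (q0 := 954 / 10000) (β := 381 / 1000) (by norm_num) hq hX (by norm_num)
      (by nlinarith)
    exact sq_lt_of h this (by nlinarith)
  rcases le_total X (605 / 10000) with c1 | c1
  · have := Bf_le (q0 := 954 / 10000) (β := 526 / 1000) (by norm_num) hq hX (by norm_num)
      (by nlinarith)
    exact sq_lt_of h this (by nlinarith)
  · have h1 := Bf_le' (q := q) (κ := 127 / 200) (by linarith) hX (by norm_num) hz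
    exact sq_lt_of h (β := 554 / 1000) (by linarith) (by nlinarith)

theorem nl_num_m5 {q X g : ℝ} (hq : 954 / 10000 ≤ q) (hX : 0 ≤ X) (hz : X ≤ 11 / 20 * q)
    (hg : 5605 / 10000 ≤ g) : Bf q X ≤ 0 ∨ Bf q X ^ 2 < 8 * X * (1 + X) * g := by
  rcases le_or_gt (Bf q X) 0 with h | h
  · exact Or.inl h
  right
  have hX1 := Bf_pos hq hX h
  have hg' : 8 * X * (1 + X) * (5605 / 10000) ≤ 8 * X * (1 + X) * g :=
    mul_le_mul_of_nonneg_left hg (by positivity)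
  refine lt_of_lt_of_le ?_ hg'
  rcases le_total X (50 / 1000) with c0 | c0
  · have := Bf_le (q0 := 954 / 10000) (β := 345 / 1000) (by norm_num) hq hX (by norm_num)
      (by nlinarith)
    exact sq_lt_of h this (by nlinarith)
  · have h1 := Bf_le' (q := q) (κ := 11 / 20) (by linarith) hX (by norm_num) hz
    exact sq_lt_of h (β := 42 / 100) (by linarith) (by nlinarith)

theorem nl_num_m6 {q X g : ℝ} (hq : 954 / 10000 ≤ q) (hX : 0 ≤ X) (hz : X ≤ 9 / 20 * q)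
    (hg : 3685 / 10000 ≤ g) : Bf q X ≤ 0 ∨ Bf q X ^ 2 < 8 * X * (1 + X) * g := by
  rcases le_or_gt (Bf q X) 0 with h | h
  · exact Or.inl h
  right
  have hX1 := Bf_pos hq hX h
  have hg' : 8 * X * (1 + X) * (3685 / 10000) ≤ 8 * X * (1 + X) * g :=
    mul_le_mul_of_nonneg_left hg (by positivity)
  refine lt_of_lt_of_le ?_ hg'
  have h1 := Bf_le' (q := q) (κ := 9 / 20) (by linarith) hX (by norm_num) hz
  exact sq_lt_of h (β := 242 / 1000) (by linarith) (by nlinarith)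

theorem nl_num_m0 {q X g : ℝ} (hq : 0 < q) (hX : 0 ≤ X) (hz : X ≤ 1 / 3 * q) :
    Bf q X ≤ 0 ∨ Bf q X ^ 2 < 8 * X * (1 + X) * g := by
  left
  have h1 := Bf_le' (q := q) (κ := 1 / 3) hq hX (by norm_num) hz
  linarith

section

variable {θ θ' : ℝ} {v w : ℂ}

/-- No loss from a lower bound of the real part of the second term. -/
theorem Pr.nl_of_g (h : Pr θ θ' v w) {g : ℝ} (hg : 0 < g)
    (hw : g ≤ (1 / cos (Real.pi * (starRingEnd ℂ) w) ^ 2).re)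
    (hB : Bf (Real.cos (Real.pi * v.re) ^ 2) (Real.sinh (Real.pi * v.im) ^ 2) ≤ 0 ∨
      Bf (Real.cos (Real.pi * v.re) ^ 2) (Real.sinh (Real.pi * v.im) ^ 2) ^ 2 <
        8 * Real.sinh (Real.pi * v.im) ^ 2 * (1 + Real.sinh (Real.pi * v.im) ^ 2) * g) :
    NL v w := by
  have hpi := Real.pi_pos
  unfold NL
  rw [sub_re, sub_im]
  by_contra hc
  push Not at hc
  obtain ⟨h1, h2⟩ := hc
  have hy := h.yv_re
  have e := congrArg Complex.re h.yv_eq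
  have ev : v = ((v.re : ℝ) : ℂ) + ((v.im : ℝ) : ℂ) * I := (re_add_im v).symm
  have ey : yv v w = (((yv v w).re : ℝ) : ℂ) + (((yv v w).im : ℝ) : ℂ) * I := (re_add_im _).symm
  have e1 : (1 / cos (Real.pi * yv v w) ^ 2).re = Gf (Real.cos (Real.pi * (yv v w).re) ^ 2)
      (Real.sinh (Real.pi * (yv v w).im) ^ 2) := by
    conv_lhs => rw [ey]
    exact inv_cos_sq_re _ _
  have e2 : (1 / cos (Real.pi * v) ^ 2).re = Gf (Real.cos (Real.pi * v.re) ^ 2)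
      (Real.sinh (Real.pi * v.im) ^ 2) := by
    conv_lhs => rw [ev]
    exact inv_cos_sq_re _ _
  rw [add_re, e1, e2] at e
  have hcv : 0 < Real.cos (Real.pi * v.re) ^ 2 := pow_pos (cos_pi_pos h.hv.abs) 2
  have c1 : Real.cos (Real.pi * v.re) ^ 2 ≤ Real.cos (Real.pi * (yv v w).re) ^ 2 := by
    apply pow_le_pow_left₀ (cos_pi_pos h.hv.abs).le
    apply Real.cos_le_cos_of_nonneg_of_le_pi
    · exact mul_nonneg hpi.le hy.1.le
    · nlinarith [h.hv.re1]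
    · exact mul_le_mul_of_nonneg_left (by linarith) hpi.le
  have c2 : Real.sinh (Real.pi * v.im) ^ 2 ≤ Real.sinh (Real.pi * (yv v w).im) ^ 2 := by
    apply pow_le_pow_left₀ (Real.sinh_nonneg_iff.2 (mul_nonneg hpi.le h.hv.im0))
    exact Real.sinh_le_sinh.2 (mul_le_mul_of_nonneg_left (by linarith) hpi.le)
  have k := Gf_lt (g := g) hcv (sq_nonneg (Real.sinh (Real.pi * v.im)))
    (h.hv.bl_sinh h.hθ) c1 (Real.cos_sq_le_one _) c2 hg hB
  linarith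

theorem cos_sq_71 : Real.cos (Real.pi * (71 / 200)) ^ 2 ≤ 1936 / 10000 := by
  have h1 := Ck.cl_71_200
  rw [Real.cos_sq]
  norm_num [Ck.R] at h1
  linarith

/-- **No loss if the other abscissa is at least `71 / 200`.** -/
theorem Pr.nl_far (h : Pr θ θ' v w) (hw : 71 / 200 ≤ w.re)
    (j : Ck.J3 (Real.tan θ ^ 2) (Real.tan θ' ^ 2)) (j' : Ck.J3 (Real.tan θ' ^ 2) (Real.tan θ ^ 2))
    (t1 : Real.tan θ ^ 2 < 1) (t2 : Real.tan θ' ^ 2 < 1) : NL v w := by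
  have hpi := Real.pi_pos
  have hq := h.hv.cos_sq
  have hq' := h.hw.cos_sq
  have X0 := sq_nonneg (Real.sinh (Real.pi * v.im))
  have hw1 := h.hw.re1
  have q1 : Real.cos (Real.pi * w.re) ^ 2 ≤ 1936 / 10000 := by
    refine le_trans ?_ cos_sq_71
    exact cos_sq_anti (by norm_num) hw (by linarith)
  have ge : ∀ k : ℝ, 0 ≤ k → k ≤ 1 → Real.tan θ' ^ 2 ≤ k →
      (1 - k) / ((1 + k) ^ 2 * (1936 / 10000)) ≤
        (1 / cos (Real.pi * (starRingEnd ℂ) w) ^ 2).re := by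
    intro k k0 k1 hk
    have ew : (starRingEnd ℂ) w = (w.re : ℂ) + ((-w.im : ℝ) : ℂ) * I := by
      conv_lhs => rw [← re_add_im w]
      exact conj_line _ _
    rw [ew, inv_cos_sq_re, mul_neg, Real.sinh_neg, neg_sq]
    exact Gf_ge (by linarith) (sq_nonneg _) k0 k1 (h.hw.bl_tan h.hθ' hk) q1
  have main : ∀ k g : ℝ, 0 ≤ k → k ≤ 1 → Real.tan θ' ^ 2 ≤ k → 0 < g →
      g ≤ (1 - k) / ((1 + k) ^ 2 * (1936 / 10000)) →
      (Bf (Real.cos (Real.pi * v.re) ^ 2) (Real.sinh (Real.pi * v.im) ^ 2) ≤ 0 ∨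
      Bf (Real.cos (Real.pi * v.re) ^ 2) (Real.sinh (Real.pi * v.im) ^ 2) ^ 2 <
        8 * Real.sinh (Real.pi * v.im) ^ 2 * (1 + Real.sinh (Real.pi * v.im) ^ 2) * g) →
      NL v w := by
    intro k g k0 k1 hk hg hg2 hB
    exact h.nl_of_g hg (hg2.trans (ge k k0 k1 hk)) hB
  rcases le_or_gt (Real.tan θ ^ 2) (1 / 3) with c | c
  · obtain ⟨g, hg⟩ : ∃ g, g = (1 - Real.tan θ' ^ 2) / ((1 + Real.tan θ' ^ 2) ^ 2 *
      (1936 / 10000)) := ⟨_, rfl⟩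
    have g0 : 0 < g := by
      rw [hg]
      apply div_pos (by linarith)
      have : 0 ≤ Real.tan θ' ^ 2 := sq_nonneg _
      positivity
    exact main (Real.tan θ' ^ 2) g (sq_nonneg _) t2.le le_rfl g0 hg.le
      (nl_num_m0 (by linarith) X0 (h.hv.bl_tan h.hθ c))
  rcases j.j2 with h1 | h1
  · exact main (1 / 5) (2869 / 1000) (by norm_num) (by norm_num) h1 (by norm_num) (by norm_num)
      (nl_num_m1 hq X0 (h.hv.bl_sinh h.hθ) le_rfl)
  rcases j.j6 with h2 | h2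
  · exact main (2 / 5) (1581 / 1000) (by norm_num) (by norm_num) h2 (by norm_num) (by norm_num)
      (nl_num_m2 hq X0 (h.hv.bl_tan h.hθ (by linarith)) le_rfl)
  rcases j.j10 with h3 | h3
  · exact main (3 / 5) (807 / 1000) (by norm_num) (by norm_num) h3 (by norm_num) (by norm_num)
      (nl_num_m3 hq X0 (h.hv.bl_tan h.hθ (by linarith)) le_rfl)
  rcases j'.j9 with h4 | h4
  swap
  · exact main (13 / 20) (664 / 1000) (by norm_num) (by norm_num) (by linarith) (by norm_num)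
      (by norm_num) (nl_num_m4 hq X0 (h.hv.bl_tan h.hθ (by linarith)) le_rfl)
  rcases j'.j7 with h5 | h5
  swap
  · exact main (69 / 100) (5605 / 10000) (by norm_num) (by norm_num) (by linarith) (by norm_num)
      (by norm_num) (nl_num_m5 hq X0 (h.hv.bl_tan h.hθ (by linarith)) le_rfl)
  rcases j'.j4 with h6 | h6
  · linarith
  · exact main (31 / 40) (3685 / 10000) (by norm_num) (by norm_num) (by linarith) (by norm_num)
      (by norm_num) (nl_num_m6 hq X0 (h.hv.bl_tan h.hθ (by linarith)) le_rfl)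

/-- No loss up to `37 / 100`. -/
theorem Pr.nl_near (h : Pr θ θ' v w) (hv : v.re ≤ 37 / 100)
    (j : Ck.J3 (Real.tan θ ^ 2) (Real.tan θ' ^ 2)) : NL v w := by
  refine h.nl_J hv ?_
  rcases j.j2 with h1 | h1
  · exact Or.inl (by linarith)
  rcases j.j6 with h2 | h2
  · exact Or.inr (Or.inl ⟨by linarith, h2⟩)
  · exact Or.inr (Or.inr (Or.inr (by linarith)))

/-- No loss in the region. -/
theorem Pr.nl_22 (h : Pr θ θ' v w) (hR : R22 v.re w.re)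
    (j : Ck.J3 (Real.tan θ ^ 2) (Real.tan θ' ^ 2)) (j' : Ck.J3 (Real.tan θ' ^ 2) (Real.tan θ ^ 2))
    (t1 : Real.tan θ ^ 2 < 1) (t2 : Real.tan θ' ^ 2 < 1) : NL v w ∧ NL w v := by
  rcases hR.far with c | c
  · exact ⟨h.nl_near c j, h.symm.nl_near (hR.1.trans c) j'⟩
  · exact ⟨h.nl_far c j j' t1 t2, h.symm.nl_far (c.trans hR.1) j' j t2 t1⟩

end

/-! ### The data of an edge -/

/-- An edge between two vertices with two half twists. -/
structure D22 (Φ : ℂ → ℂ → ℂ) (θ θ' xc xc' b b' : ℝ) : Prop where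
  H : OO Φ θ θ' xc xc' b b' (2 / 5) (2 / 5)
  j : Ck.J3 (Real.tan θ ^ 2) (Real.tan θ' ^ 2)
  j' : Ck.J3 (Real.tan θ' ^ 2) (Real.tan θ ^ 2)
  t1 : Real.tan θ ^ 2 < 1
  t2 : Real.tan θ' ^ 2 < 1
  ok : VOK 2 θ (gdv (UU xc θ)).re b (2 / 5)
  ok' : VOK 2 θ' (gdv (UU xc' θ')).re b' (2 / 5)

section

variable {Φ : ℂ → ℂ → ℂ} {θ θ' xc xc' b b' μ μ' : ℝ} {v w : ℂ}

/-- **The base of a slide**: the other vertex on its line. -/
theorem D22.base (D : D22 Φ θ θ' xc xc' b b') (hw0 : 0 ≤ w.re) (hw1 : w.re ≤ 2 / 5)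
    (hwl : w.im = bl θ' w.re) {a0 : ℝ} (ha1 : a0 ≤ 2 / 5) (hR : R22 a0 w.re)
    (hne : vl θ a0 ≠ gdv (UU xc θ) ∨ w ≠ gdv (UU xc' θ')) {t : ℝ}
    (ht : t ∈ Set.Icc (0 : ℝ) (1 / 2)) :
    EE (.op (vl θ a0)) (.op ((starRingEnd ℂ) w))
        ((t : ℂ) + ((yv (vl θ a0) w).im : ℂ) * I) <
      LM Φ θ θ' b b' xc xc' (2 / 5) (2 / 5) μ μ' (vl θ a0) w -
        (49 / 50 * BP b (gdv (UU xc θ)) (vl θ a0) + 49 / 50 * BP b' (gdv (UU xc' θ')) w) := by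
  have H := D.H
  have hv0 : 0 ≤ (vl θ a0).re := by rw [vl_re]; exact hw0.trans hR.1
  have hv1 : (vl θ a0).re ≤ 2 / 5 := by rw [vl_re]; exact ha1
  have hvl : (vl θ a0).im = bl θ (vl θ a0).re := by rw [vl_im, vl_re]
  have hv : vl θ a0 ∈ G0 θ (2 / 5) := Or.inl ⟨by rwa [abs_of_nonneg hv0], hvl⟩
  have hw : w ∈ G0 θ' (2 / 5) := Or.inl ⟨by rwa [abs_of_nonneg hw0], hwl⟩
  have hp := H.pr hv hv0 hw hw0
  rw [show cmp (2 / 5) (vl θ a0) = vl θ a0 from if_pos hv1,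
    show cmp (2 / 5) w = w from if_pos hw1] at hp
  have hR' : R22 (vl θ a0).re w.re := by rw [vl_re]; exact hR
  obtain ⟨n1, n2⟩ := hp.nl_22 hR' D.j D.j' D.t1 D.t2
  have k := H.Phi_ltBB (μ := μ) (μ' := μ') hv0 hv1 hvl hw0 hw1 hwl hne
  have f := hp.flatOK_M (FM22 hp D.j D.j' D.t1 D.t2 hR') t ht
  rw [hp.bridge H.hΦ H.h0 n1 n2] at f
  linarith

/-- **The flats before the base.** -/
theorem D22.left (D : D22 Φ θ θ' xc xc' b b') (hv : v ∈ G0 θ (2 / 5)) (hv0 : 0 ≤ v.re)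
    (hw : w ∈ G0 θ' (2 / 5)) (hw0 : 0 ≤ w.re)
    (hne : v ≠ gdv (UU xc θ) ∨ w ≠ gdv (UU xc' θ'))
    (hR : R22 (cmp (2 / 5) v).re (cmp (2 / 5) w).re) :
    ∃ H : ℝ, |H| ≤ 1 ∧ (Side (yv (cmp (2 / 5) v) (cmp (2 / 5) w)) H ∨
      ∀ Y ∈ Set.uIcc 0 H, EE (.op (cmp (2 / 5) v)) (.op ((starRingEnd ℂ) (cmp (2 / 5) w)))
          ((Y : ℂ) * I) <
        LM Φ θ θ' b b' xc xc' (2 / 5) (2 / 5) (mu b (2 : ℝ) (2 / 5))
          (mu b' (2 : ℝ) (2 / 5)) v w) ∧ ∀ t ∈ Set.Icc (0 : ℝ) (1 / 2),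
      EE (.op (cmp (2 / 5) v)) (.op ((starRingEnd ℂ) (cmp (2 / 5) w))) ((t : ℂ) + H * I) <
        LM Φ θ θ' b b' xc xc' (2 / 5) (2 / 5) (mu b (2 : ℝ) (2 / 5))
          (mu b' (2 : ℝ) (2 / 5)) v w := by
  have H := D.H
  have hp := H.pr hv hv0 hw hw0
  obtain ⟨n1, n2⟩ := hp.nl_22 hR D.j D.j' D.t1 D.t2
  have hL := H.Phi_ltV (le_refl 2) (le_refl 2) (Or.inl rfl) D.ok D.ok' hv hv0 hw hw0 hne
  push_cast at hL
  obtain ⟨H1, k1, k2, k3⟩ := flatH_of H.hΦ H.h0 hp n1 n2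
    (hp.flatOK_M (FM22 hp D.j D.j' D.t1 D.t2 hR)) hL
  exact ⟨H1, k1, Or.inl k2, k3⟩

end

end Pool.Agent.S3.T2
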