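import Pool.Agent.S3.NI
import Pool.Agent.S3.W2.Base23
import Pool.Agent.S3.W2.SlideH
/-!
# The slides of a vertex with two half twists next to one with at least three: the data
-/

set_option autoImplicit false

namespace Pool.Agent.S3.T2

open Complex Set
open Pool.Agent.S3.NI
open Pool.Agent.H25.RK (gdv gdv_re_lt gdv_hasDerivAt)

/-- The loss at the end of a slide, base at `a0`. -/
def E3L (θ xc b a0 c : ℝ) : Prop :=
  mu b (2 : ℝ) (2 / 5) * bl θ (2 / 5) - 49 / 50 * BP b (gdv (UU xc θ)) (vl θ a0) ≤ c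

/-- The data of the first vertex, in the slot towards the second. -/
structure E23 (θ θ' xc xc' b : ℝ) : Prop where
  s3 : 3 / 10 ≤ Real.tan θ ^ 2
  e1 : ∀ a ∈ Icc (333 / 1000 : ℝ) (2 / 5),
    rl b (gdv (UU xc θ)) (qq (UU xc θ) (UU xc' (-θ'))) θ a ≤ 4 / 3 * S2l θ a
  e333 : E3L θ xc b (333 / 1000) (62 / 1000)
  e338 : E3L θ xc b (169 / 500) (60 / 1000)
  e346 : E3L θ xc b (173 / 500) (55 / 1000)
  e351 : E3L θ xc b (351 / 1000) (52 / 1000)
  e372 : E3L θ xc b (93 / 250) (36 / 1000)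
  e375 : E3L θ xc b (3 / 8) (34 / 1000)
  ty : Real.tan θ' ^ 2 ≤ 103 / 1000 ∨
    (1 / 16 ≤ Real.tan θ' ^ 2 ∧ E3L θ xc b (333 / 1000) (55 / 1000))

theorem line_of_cmp {θ v1 : ℝ} {w : ℂ} (hw : w ∈ G0 θ v1) (h0 : 0 ≤ w.re)
    (h : (cmp v1 w).re < v1) : cmp v1 w = w ∧ w.im = bl θ w.re := by
  unfold cmp at h ⊢
  split_ifs with hc
  · rw [if_pos hc] at h
    refine ⟨rfl, ?_⟩
    rcases hw with ⟨a, b⟩ | ⟨a, b, c⟩ | ⟨a, b, c⟩
    · exact b
    · rw [abs_of_nonneg h0] at a; linarith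
    · rw [abs_of_nonneg h0] at a; linarith
  · rw [if_neg hc, ofReal_re] at h
    exact absurd h (lt_irrefl _)

/-- A lower bound of the height of the base. -/
theorem h0_ge {θ h k : ℝ} (hs : 3 / 10 ≤ Real.tan θ ^ 2) (ht : 0 < Real.tan θ)
    (hk : 13 / 100 ≤ k) (h1 : k * Real.tan θ ≤ Real.sinh (Real.pi * h)) : 1 / 100 ≤ h := by
  have hpi := Real.pi_pos
  have hpi2 := Real.pi_lt_d2
  by_contra hc
  push Not at hc
  have y0 : 0 < Real.sinh (Real.pi * h) := lt_of_lt_of_le (by positivity) h1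
  have x0 : 0 < Real.pi * h := Real.sinh_pos_iff.1 y0
  have hh : 0 < h := by
    by_contra hcc
    push Not at hcc
    nlinarith
  have x1 : Real.pi * h ≤ 315 / 10000 := by nlinarith
  have e1 := tanh_le_self x0.le
  have e2 := tanh_nonneg_of x0.le
  have e3 : Real.tanh (Real.pi * h) ^ 2 * (1 + Real.sinh (Real.pi * h) ^ 2) =
      Real.sinh (Real.pi * h) ^ 2 := by
    have := Real.cosh_sq (Real.pi * h)
    rw [show 1 + Real.sinh (Real.pi * h) ^ 2 = Real.cosh (Real.pi * h) ^ 2 by linarith,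
      Real.tanh_eq_sinh_div_cosh]
    have := Real.cosh_pos (Real.pi * h)
    field_simp
  have e4 : Real.tanh (Real.pi * h) ^ 2 ≤ 1 / 1000 := by nlinarith
  have e5 : Real.sinh (Real.pi * h) ^ 2 ≤ 2 / 1000 := by nlinarith [sq_nonneg (Real.sinh (Real.pi * h))]
  have e6 : (13 / 100 * Real.tan θ) ^ 2 ≤ Real.sinh (Real.pi * h) ^ 2 := by
    apply pow_le_pow_left₀ (by positivity)
    exact (mul_le_mul_of_nonneg_right hk ht.le).trans h1
  nlinarith

/-- The height of a point below its line. -/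
theorem und_X {θ : ℝ} {w : ℂ} (uw : Und θ w) :
    Real.sinh (Real.pi * w.im) ≤ Real.tan θ * Real.cos (Real.pi * w.re) := by
  have hpi := Real.pi_pos
  rw [← sinh_pi_bl θ w.re]
  exact Real.sinh_le_sinh.2 (mul_le_mul_of_nonneg_left uw.im1 hpi.le)

theorem und_X2 {θ T : ℝ} {w : ℂ} (uw : Und θ w) (hT : Real.tan θ ^ 2 ≤ T) :
    Real.sinh (Real.pi * w.im) ^ 2 ≤ T * Real.cos (Real.pi * w.re) ^ 2 := by
  have hpi := Real.pi_pos
  have h0 : 0 ≤ Real.sinh (Real.pi * w.im) := Real.sinh_nonneg_iff.2 (by have := uw.im0; positivity)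
  have := pow_le_pow_left₀ h0 (und_X uw) 2
  refine this.trans ?_
  rw [mul_pow]
  exact mul_le_mul_of_nonneg_right hT (sq_nonneg _)

theorem und_S {θ S : ℝ} {w : ℂ} (uw : Und θ w) (hS : Real.tan θ ≤ S) :
    Real.sinh (Real.pi * -((starRingEnd ℂ) w).im) ≤ S * Real.cos (Real.pi * ((starRingEnd ℂ) w).re) := by
  have hpi := Real.pi_pos
  rw [conj_im, conj_re, neg_neg]
  refine (und_X uw).trans (mul_le_mul_of_nonneg_right hS ?_)
  have h0 := uw.re0
  have h1 := uw.re1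
  exact Real.cos_nonneg_of_neg_pi_div_two_le_of_le (by nlinarith) (by nlinarith)

theorem tan_le_half {θ : ℝ} (h : Real.tan θ ^ 2 ≤ 1 / 4) : Real.tan θ ≤ 1 / 2 := by
  by_contra hc
  push Not at hc
  nlinarith

section

variable {Φ : ℂ → ℂ → ℂ} {θ θ' xc xc' b b' : ℝ} {a' : ℕ} {w : ℂ}

theorem R23_375 {y : ℝ} (h1 : 29 / 100 ≤ y) (h2 : y ≤ 13 / 40) : R23 (3 / 8) y := by
  have : V23 y ≤ 3 / 8 := by
    unfold V23
    split_ifs <;> norm_num
  rcases h1.eq_or_lt with h | h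
  · right; right; right; right; right; left
    exact ⟨⟨h1, by linarith⟩, by norm_num, by norm_num⟩
  · refine R23_of h2 this ?_
    unfold A23
    rw [if_neg (by linarith), if_neg (by linarith), if_neg (by linarith), if_neg (by linarith),
      if_neg (by linarith)]
    norm_num

end

end Pool.Agent.S3.T2
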