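import Pool.Agent.S3.W2.Far2
import Pool.Agent.S3.W2.Vert2

/-!
# The margin of the edge function from the quadratic terms

On the product of the two lines, in the first quadrant, the edge function is at most
`- 2 π b |da| |dβ| - 2 π b' |da'| |dβ'|` (`49/50` of it, strictly, away from the critical pair).
With `re v_c ≤ 2/7` and `tan θ ≤ 1` this alone pays for the vertical part of a vertex with two half
twists (`v1 = 2/5`).
-/

set_option autoImplicit false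

namespace Pool.Agent.S3

open Complex
open Pool.Agent.H25.RK (gdv gdv_re_lt gdv_hasDerivAt)

/-- The quadratic part of the bound of a vertex. -/
noncomputable def BP (b : ℝ) (vc v : ℂ) : ℝ := 2 * Real.pi * b * ((v.re - vc.re) * (vc.im - v.im))

theorem ell_b (vc Q : ℂ) (b d : ℝ) (v : ℂ) : ell vc Q (-2 * Real.pi * b) v =
    ell vc Q (-2 * Real.pi * d) v + BP (b - d) vc v := by
  have e : ∀ c : ℝ, (I * ((-2 * Real.pi * c : ℝ) : ℂ) / 2 * (v - vc) ^ 2).re =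
      -(2 * Real.pi * c) * ((v.re - vc.re) * (vc.im - v.im)) := by
    intro c
    have e1 : I * ((-2 * Real.pi * c : ℝ) : ℂ) / 2 * (v - vc) ^ 2 =
        ((-(Real.pi * c) : ℝ) : ℂ) * (I * (v - vc) ^ 2) := by
      push_cast; ring
    rw [e1, re_ofReal_mul, mul_re, I_re, I_im, sq, mul_im, sub_re, sub_im]
    ring
  unfold ell BP
  rw [add_re, add_re, e, e]
  ring

variable {Φ : ℂ → ℂ → ℂ} {θ θ' xc xc' b b' : ℝ} {v w : ℂ}

theorem L0_b (b b' d d' : ℝ) (v w : ℂ) : L0 Φ θ θ' b b' xc xc' v w =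
    L0 Φ θ θ' d d' xc xc' v w + BP (b - d) (gdv (UU xc θ)) v + BP (b' - d') (gdv (UU xc' θ')) w := by
  unfold L0
  rw [ell_b _ _ b d, ell_b _ _ b' d']
  ring

theorem bl_antitone {θ a a' : ℝ} (h0 : 0 ≤ θ) (h1 : θ < Real.pi / 2) (ha : 0 ≤ a) (haa : a ≤ a')
    (ha' : a' ≤ 1 / 2) : bl θ a' ≤ bl θ a := by
  have hpi := Real.pi_pos
  unfold bl
  apply div_le_div_of_nonneg_right _ hpi.le
  apply Real.arsinh_le_arsinh.2
  apply mul_le_mul_of_nonneg_left _ (Real.tan_nonneg_of_nonneg_of_le_pi_div_two h0 h1.le)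
  apply Real.cos_le_cos_of_nonneg_of_le_pi (by positivity) (by nlinarith)
  exact mul_le_mul_of_nonneg_left haa hpi.le

theorem BP_nonneg {θ : ℝ} (h0 : 0 ≤ θ) (h1 : θ < Real.pi / 2) (hb : 0 ≤ b) {vc v : ℂ}
    (hv0 : 0 ≤ v.re) (hv1 : v.re ≤ 1 / 2) (hc0 : 0 ≤ vc.re) (hc1 : vc.re ≤ 1 / 2)
    (hv : v.im = bl θ v.re) (hc : vc.im = bl θ vc.re) : 0 ≤ BP b vc v := by
  unfold BP
  apply mul_nonneg (by positivity)
  rcases le_total vc.re v.re with h | h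
  · apply mul_nonneg (by linarith)
    rw [hv, hc]
    linarith [bl_antitone h0 h1 hc0 h hv1]
  · apply mul_nonneg_of_nonpos_of_nonpos (by linarith)
    rw [hv, hc]
    linarith [bl_antitone h0 h1 hv0 h hc1]

/-- The value on the lines with the margin. -/
theorem line_BP (hΦ : IsPhi Φ) (ho : OppHyp θ θ' xc xc') (hb : 0 < b) (hb' : 0 < b')
    (hc : 0 ≤ xc) (hc' : 0 ≤ xc') {x x' : ℝ} (hx : 0 ≤ x) (hx' : 0 ≤ x')
    (hne : (x, x') ≠ (xc, xc')) :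
    (Φ (gdv (UU x θ)) ((starRingEnd ℂ) (gdv (UU x' θ')))).re +
      49 / 50 * (BP b (gdv (UU xc θ)) (gdv (UU x θ)) + BP b' (gdv (UU xc' θ')) (gdv (UU x' θ'))) <
      L0 Φ θ θ' b b' xc xc' (gdv (UU x θ)) (gdv (UU x' θ')) := by
  have k := L0_line (Φ := Φ) (b := b / 50) (b' := b' / 50) ho x x'
  have hd := Dfun_neg (b := b / 50) (b' := b' / 50) hΦ ho (by positivity) (by positivity) hc hc'
    hx hx' hne
  have e := L0_b (Φ := Φ) (θ := θ) (θ' := θ') (xc := xc) (xc' := xc') b b' (b / 50) (b' / 50)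
    (gdv (UU x θ)) (gdv (UU x' θ'))
  have e1 : ∀ (c : ℝ) (z y : ℂ), BP (c - c / 50) z y = 49 / 50 * BP c z y := by
    intro c z y
    unfold BP
    ring
  rw [e1, e1] at e
  rw [e, k]
  linarith

namespace T2

theorem Pr.D_BP (hΦ : IsPhi Φ) (ho : OppHyp θ θ' xc xc') (hb : 0 < b) (hb' : 0 < b')
    (hc : 0 < xc) (hc' : 0 < xc') (h : Pr θ θ' v w)
    (hne : up θ v ≠ gdv (UU xc θ) ∨ up θ' w ≠ gdv (UU xc' θ')) :
    (Φ (up θ v) ((starRingEnd ℂ) (up θ' w))).re + 49 / 50 * (BP b (gdv (UU xc θ)) (up θ v) +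
      BP b' (gdv (UU xc' θ')) (up θ' w)) < L0 Φ θ θ' b b' xc xc' (up θ v) (up θ' w) := by
  have e1 := h.hv.up_line h.hθ
  have e2 := h.hw.up_line h.hθ'
  have x0 := ((h.hv.up h.hθ).u h.hθ).1
  have x0' := ((h.hw.up h.hθ').u h.hθ').1
  have k := line_BP (Φ := Φ) (b := b) (b' := b') hΦ ho hb hb' hc.le hc'.le x0 x0' (by
    intro he
    rw [Prod.mk.injEq] at he
    rw [he.1] at e1
    rw [he.2] at e2
    rcases hne with h1 | h1
    · exact h1 e1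
    · exact h1 e2)
  rwa [← e1, ← e2] at k

/-- The vertical of the first vertex: any position of the other point. -/
def GLa (Φ : ℂ → ℂ → ℂ) (θ θ' xc b v1 v1' μ : ℝ) : Prop := ∀ v w : ℂ, Pr θ θ' v w → v.re = v1 →
  w.re ≤ v1' → (Φ v ((starRingEnd ℂ) w)).re ≤ (Φ (up θ v) ((starRingEnd ℂ) w)).re -
    μ * ((up θ v).im - v.im) + 49 / 50 * BP b (gdv (UU xc θ)) (up θ v)

/-- The vertical of the first vertex: the other point on its line. -/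
def GLl (Φ : ℂ → ℂ → ℂ) (θ θ' xc b v1 v1' μ : ℝ) : Prop := ∀ v w : ℂ, Pr θ θ' v w → v.re = v1 →
  w.re ≤ v1' → w.im = bl θ' w.re → (Φ v ((starRingEnd ℂ) w)).re ≤
    (Φ (up θ v) ((starRingEnd ℂ) w)).re - μ * ((up θ v).im - v.im) +
      49 / 50 * BP b (gdv (UU xc θ)) (up θ v)

/-- The vertical of the second vertex: any position of the other point. -/
def GRa (Φ : ℂ → ℂ → ℂ) (θ θ' xc' b' v1 v1' μ' : ℝ) : Prop := ∀ v w : ℂ, Pr θ θ' v w →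
  v.re ≤ v1 → w.re = v1' → (Φ v ((starRingEnd ℂ) w)).re ≤
    (Φ v ((starRingEnd ℂ) (up θ' w))).re - μ' * ((up θ' w).im - w.im) +
      49 / 50 * BP b' (gdv (UU xc' θ')) (up θ' w)

/-- The vertical of the second vertex: the other point on its line. -/
def GRl (Φ : ℂ → ℂ → ℂ) (θ θ' xc' b' v1 v1' μ' : ℝ) : Prop := ∀ v w : ℂ, Pr θ θ' v w →
  v.re ≤ v1 → v.im = bl θ v.re → w.re = v1' → (Φ v ((starRingEnd ℂ) w)).re ≤
    (Φ v ((starRingEnd ℂ) (up θ' w))).re - μ' * ((up θ' w).im - w.im) +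
      49 / 50 * BP b' (gdv (UU xc' θ')) (up θ' w)

variable {v1 v1' μ μ' : ℝ}

theorem GLa.l (h : GLa Φ θ θ' xc b v1 v1' μ) : GLl Φ θ θ' xc b v1 v1' μ :=
  fun v w hp h1 h2 _ => h v w hp h1 h2

theorem GRa.l (h : GRa Φ θ θ' xc' b' v1 v1' μ') : GRl Φ θ θ' xc' b' v1 v1' μ' :=
  fun v w hp h1 _ h2 => h v w hp h1 h2

/-- The conditions for the second vertex from those of the first one. -/
theorem GLa.r (hΦ : IsPhi Φ) (h : GLa (fun a b => Φ b a) θ' θ xc' b' v1' v1 μ') :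
    GRa Φ θ θ' xc' b' v1 v1' μ' := by
  intro v w hp h1 h2
  have k := h w v hp.symm h2 h1
  have h5 : Pr θ θ' v (up θ' w) := ⟨hp.hv, hp.hw.up hp.hθ', hp.hθ, hp.hθ', hp.S⟩
  simp only at k
  rwa [Phi_conj hΦ hp, Phi_conj hΦ h5] at k

theorem GLl.r (hΦ : IsPhi Φ) (h : GLl (fun a b => Φ b a) θ' θ xc' b' v1' v1 μ') :
    GRl Φ θ θ' xc' b' v1 v1' μ' := by
  intro v w hp h1 h3 h2
  have k := h w v hp.symm h2 h1 h3
  have h5 : Pr θ θ' v (up θ' w) := ⟨hp.hv, hp.hw.up hp.hθ', hp.hθ, hp.hθ', hp.S⟩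
  simp only at k
  rwa [Phi_conj hΦ hp, Phi_conj hΦ h5] at k

/-- No gain is needed for a nonpositive slope. -/
theorem GLa.nonpos (hΦ : IsPhi Φ) (hb : 0 ≤ b) (hc0 : 0 ≤ (gdv (UU xc θ)).re)
    (hc1 : (gdv (UU xc θ)).re ≤ 1 / 2) (hμ : μ ≤ 0) : GLa Φ θ θ' xc b v1 v1' μ := by
  intro v w h _ _
  have h1 := h.vert_left hΦ
  have h2 : 0 ≤ (up θ v).im - v.im := by
    rw [up_im]; linarith [h.hv.im1]
  have h3 := mul_nonneg (neg_nonneg.2 hμ) h2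
  have h4 : 0 ≤ BP b (gdv (UU xc θ)) (up θ v) := BP_nonneg h.hθ.pos.le h.hθ.lt hb
    (by rw [up_re]; exact h.hv.re0) (by rw [up_re]; linarith [h.hv.re1]) hc0 hc1
    (by rw [up_im, up_re]) (line_im_bl h.hθ.abs)
  linarith

/-- The gain of stage 1. -/
theorem GLa.of_gain (hb : 0 ≤ b) (hc0 : 0 ≤ (gdv (UU xc θ)).re)
    (hc1 : (gdv (UU xc θ)).re ≤ 1 / 2)
    (h : ∀ v w : ℂ, Pr θ θ' v w → v.re = v1 → w.re ≤ v1' → (Φ v ((starRingEnd ℂ) w)).re ≤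
      (Φ (up θ v) ((starRingEnd ℂ) w)).re - μ * ((up θ v).im - v.im)) :
    GLa Φ θ θ' xc b v1 v1' μ := by
  intro v w hp h1 h2
  have h4 : 0 ≤ BP b (gdv (UU xc θ)) (up θ v) := BP_nonneg hp.hθ.pos.le hp.hθ.lt hb
    (by rw [up_re]; exact hp.hv.re0) (by rw [up_re]; linarith [hp.hv.re1]) hc0 hc1
    (by rw [up_im, up_re]) (line_im_bl hp.hθ.abs)
  linarith [h v w hp h1 h2]

theorem GLl.of_gain (hb : 0 ≤ b) (hc0 : 0 ≤ (gdv (UU xc θ)).re)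
    (hc1 : (gdv (UU xc θ)).re ≤ 1 / 2)
    (h : ∀ v w : ℂ, Pr θ θ' v w → v.re = v1 → w.re ≤ v1' → w.im = bl θ' w.re →
      (Φ v ((starRingEnd ℂ) w)).re ≤
      (Φ (up θ v) ((starRingEnd ℂ) w)).re - μ * ((up θ v).im - v.im)) :
    GLl Φ θ θ' xc b v1 v1' μ := by
  intro v w hp h1 h2 h3
  have h4 : 0 ≤ BP b (gdv (UU xc θ)) (up θ v) := BP_nonneg hp.hθ.pos.le hp.hθ.lt hb
    (by rw [up_re]; exact hp.hv.re0) (by rw [up_re]; linarith [hp.hv.re1]) hc0 hc1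
    (by rw [up_im, up_re]) (line_im_bl hp.hθ.abs)
  linarith [h v w hp h1 h2 h3]

/-! ### The value at the critical point is less than the bound -/

theorem OO.crit0 (H : OO Φ θ θ' xc xc' b b' v1 v1') : 0 ≤ (gdv (UU xc θ)).re ∧
    (gdv (UU xc θ)).re ≤ 1 / 2 ∧ 0 ≤ (gdv (UU xc' θ')).re ∧ (gdv (UU xc' θ')).re ≤ 1 / 2 := by
  have h := H.prc
  exact ⟨h.hv.re0, by linarith [h.hv.re1], h.hw.re0, by linarith [h.hw.re1]⟩

theorem OO.up_ne (H : OO Φ θ θ' xc xc' b b' v1 v1') (hv : v ∈ G0 θ v1) (hv0 : 0 ≤ v.re)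
    (hw : w ∈ G0 θ' v1') (hw0 : 0 ≤ w.re) (hne : v ≠ gdv (UU xc θ) ∨ w ≠ gdv (UU xc' θ')) :
    up θ (cmp v1 v) ≠ gdv (UU xc θ) ∨ up θ' (cmp v1' w) ≠ gdv (UU xc' θ') := by
  rw [up_cmp H.hv1 hv0, up_cmp H.hv1' hw0]
  rcases hne with h | h
  · exact Or.inl fun he => h (pl_eq_crit (v1 := v1) (x := xc) H.hv1 H.hr hv hv0 he)
  · exact Or.inr fun he => h (pl_eq_crit (v1 := v1') (x := xc') H.hv1' H.hr' hw hw0 he)

/-- The first point is raised first. -/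
theorem OO.Phi_lt12 (H : OO Φ θ θ' xc xc' b b' v1 v1') (hL : GLa Φ θ θ' xc b v1 v1' μ)
    (hR : GRl Φ θ θ' xc' b' v1 v1' μ') (hv : v ∈ G0 θ v1) (hv0 : 0 ≤ v.re)
    (hw : w ∈ G0 θ' v1') (hw0 : 0 ≤ w.re)
    (hne : v ≠ gdv (UU xc θ) ∨ w ≠ gdv (UU xc' θ')) :
    (Φ (cmp v1 v) ((starRingEnd ℂ) (cmp v1' w))).re <
      LM Φ θ θ' b b' xc xc' v1 v1' μ μ' v w := by
  have hp := H.pr hv hv0 hw hw0
  obtain ⟨c1, c2, c3, c4⟩ := H.crit0
  have hD := hp.D_BP H.hΦ H.ho H.hs.b0 H.hs.b0' H.hc H.hc' (H.up_ne hv hv0 hw hw0 hne)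
  have hp2 : Pr θ θ' (up θ (cmp v1 v)) (cmp v1' w) :=
    ⟨hp.hv.up H.hθ, hp.hw, H.hθ, H.hθ', H.ho.S⟩
  have n1 : 0 ≤ BP b (gdv (UU xc θ)) (up θ (cmp v1 v)) := BP_nonneg H.hθ.pos.le H.hθ.lt
    H.hs.b0.le (by rw [up_re]; exact hp.hv.re0) (by rw [up_re]; linarith [hp.hv.re1]) c1 c2
    (by rw [up_im, up_re]) (line_im_bl H.hθ.abs)
  have n2 : 0 ≤ BP b' (gdv (UU xc' θ')) (up θ' (cmp v1' w)) := BP_nonneg H.hθ'.pos.le H.hθ'.lt
    H.hs.b0'.le (by rw [up_re]; exact hp.hw.re0) (by rw [up_re]; linarith [hp.hw.re1]) c3 c4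
    (by rw [up_im, up_re]) (line_im_bl H.hθ'.abs)
  have g1 : (Φ (cmp v1 v) ((starRingEnd ℂ) (cmp v1' w))).re ≤
      (Φ (up θ (cmp v1 v)) ((starRingEnd ℂ) (cmp v1' w))).re -
        μ * ((up θ (cmp v1 v)).im - (cmp v1 v).im) +
        49 / 50 * BP b (gdv (UU xc θ)) (up θ (cmp v1 v)) := by
    rcases cmp_cases hv hv0 with h | h
    · exact hL _ _ hp h (cmp_re _)
    · rw [up_self h] at n1 ⊢
      rw [sub_self, mul_zero, sub_zero]
      linarith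
  have g2 : (Φ (up θ (cmp v1 v)) ((starRingEnd ℂ) (cmp v1' w))).re ≤
      (Φ (up θ (cmp v1 v)) ((starRingEnd ℂ) (up θ' (cmp v1' w)))).re -
        μ' * ((up θ' (cmp v1' w)).im - (cmp v1' w).im) +
        49 / 50 * BP b' (gdv (UU xc' θ')) (up θ' (cmp v1' w)) := by
    rcases cmp_cases hw hw0 with h | h
    · exact hR _ _ hp2 (by rw [up_re]; exact cmp_re _) (by rw [up_im, up_re]) h
    · rw [up_self h] at n2 ⊢
      rw [sub_self, mul_zero, sub_zero]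
      linarith
  rw [cmp_im hv hv0] at g1
  rw [cmp_im hw hw0] at g2
  rw [up_cmp H.hv1 hv0] at g1 g2 hD
  rw [up_cmp H.hv1' hw0] at g2 hD
  rw [LM]
  linarith

/-- The second point is raised first. -/
theorem OO.Phi_lt21 (H : OO Φ θ θ' xc xc' b b' v1 v1') (hL : GLl Φ θ θ' xc b v1 v1' μ)
    (hR : GRa Φ θ θ' xc' b' v1 v1' μ') (hv : v ∈ G0 θ v1) (hv0 : 0 ≤ v.re)
    (hw : w ∈ G0 θ' v1') (hw0 : 0 ≤ w.re)
    (hne : v ≠ gdv (UU xc θ) ∨ w ≠ gdv (UU xc' θ')) :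
    (Φ (cmp v1 v) ((starRingEnd ℂ) (cmp v1' w))).re <
      LM Φ θ θ' b b' xc xc' v1 v1' μ μ' v w := by
  have hp := H.pr hv hv0 hw hw0
  obtain ⟨c1, c2, c3, c4⟩ := H.crit0
  have hD := hp.D_BP H.hΦ H.ho H.hs.b0 H.hs.b0' H.hc H.hc' (H.up_ne hv hv0 hw hw0 hne)
  have hp2 : Pr θ θ' (cmp v1 v) (up θ' (cmp v1' w)) :=
    ⟨hp.hv, hp.hw.up H.hθ', H.hθ, H.hθ', H.ho.S⟩
  have n1 : 0 ≤ BP b (gdv (UU xc θ)) (up θ (cmp v1 v)) := BP_nonneg H.hθ.pos.le H.hθ.lt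
    H.hs.b0.le (by rw [up_re]; exact hp.hv.re0) (by rw [up_re]; linarith [hp.hv.re1]) c1 c2
    (by rw [up_im, up_re]) (line_im_bl H.hθ.abs)
  have n2 : 0 ≤ BP b' (gdv (UU xc' θ')) (up θ' (cmp v1' w)) := BP_nonneg H.hθ'.pos.le H.hθ'.lt
    H.hs.b0'.le (by rw [up_re]; exact hp.hw.re0) (by rw [up_re]; linarith [hp.hw.re1]) c3 c4
    (by rw [up_im, up_re]) (line_im_bl H.hθ'.abs)
  have g2 : (Φ (cmp v1 v) ((starRingEnd ℂ) (cmp v1' w))).re ≤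
      (Φ (cmp v1 v) ((starRingEnd ℂ) (up θ' (cmp v1' w)))).re -
        μ' * ((up θ' (cmp v1' w)).im - (cmp v1' w).im) +
        49 / 50 * BP b' (gdv (UU xc' θ')) (up θ' (cmp v1' w)) := by
    rcases cmp_cases hw hw0 with h | h
    · exact hR _ _ hp (cmp_re _) h
    · rw [up_self h] at n2 ⊢
      rw [sub_self, mul_zero, sub_zero]
      linarith
  have g1 : (Φ (cmp v1 v) ((starRingEnd ℂ) (up θ' (cmp v1' w)))).re ≤
      (Φ (up θ (cmp v1 v)) ((starRingEnd ℂ) (up θ' (cmp v1' w)))).re -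
        μ * ((up θ (cmp v1 v)).im - (cmp v1 v).im) +
        49 / 50 * BP b (gdv (UU xc θ)) (up θ (cmp v1 v)) := by
    rcases cmp_cases hv hv0 with h | h
    · exact hL _ _ hp2 h (by rw [up_re]; exact cmp_re _) (by rw [up_im, up_re])
    · rw [up_self h] at n1 ⊢
      rw [sub_self, mul_zero, sub_zero]
      linarith
  rw [cmp_im hv hv0] at g1
  rw [cmp_im hw hw0] at g2
  rw [up_cmp H.hv1 hv0] at g1 hD
  rw [up_cmp H.hv1' hw0] at g1 g2 hD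
  rw [LM]
  linarith

end T2

end Pool.Agent.S3
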