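import Pool.Agent.S3.W.Cfg
import Pool.Agent.S3.W2.Main2

/-!
# Open-open edges of the chain
-/

set_option autoImplicit false

namespace Pool.Agent.S3.T2

open Complex
open Pool.Agent.H63.VC7 (inc)
open Pool.Agent.S3.E
open Pool.Agent.H25.RK (gdv gdv_re_lt gdv_hasDerivAt ul)

variable {m : ℕ}

section

variable {a : Fin (m + 1) → ℕ} {σ : Fin (m + 1) → ℤ} {z : Fin (m + 1) → ℂ}

/-- The share of a vertex with the sign `1`. -/
theorem lw_pos {j : Fin m} (H : EdC a σ z j) {v1 : Fin (m + 1) → ℝ} {i : Fin (m + 1)}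
    (hv1 : V1 (v1 i)) (hθ : |th (z i).re (z i).im| < Real.pi / 2)
    (hi : ¬ clo a i) (hj : i = j.castSucc ∨ i = j.succ) (s : σ i = 1) (v : ℂ) :
    (cfgOf a σ z).lw v1 (lamC a z) j i v =
      lwf (th (z i).re (z i).im) (v1 i) (gdv (UU (xx (z i).re (z i).im) (th (z i).re (z i).im)))
        (qe (z i) (z (oth j i))) (bw (z i) (z (oth j i))) (a i) (mir v) := by
  unfold Cfg.lw Cfg.lv lwf
  rw [if_pos (mem_Op.2 hi), if_pos (mem_Op.2 hi), evC H hi hj, Qv_pos s, vcC_pos hθ s, r_pos s,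
    β_eq, s]
  have e : (2 * Real.pi * ((1 : ℤ) : ℝ) * bw (z i) (z (if i = j.castSucc then j.succ else
      j.castSucc))) = -(-2 * Real.pi * bw (z i) (z (oth j i))) := by
    unfold oth
    push_cast
    ring
  rw [e, wr_mirror, wr_mirror, pl_mir hv1, ← ell_mirror]
  rfl

/-- The data of an open-open edge: `n`, `p` are the coordinates of the vertices with the signs `-1`
and `1`. -/
structure OOD (Φ : ℂ → ℂ → ℂ) (n p : ℂ) (an ap v1 v1' : ℝ) : Prop where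
  hθ : Ht (th n.re n.im)
  hθ' : Ht (th p.re p.im)
  hr : n.re / Real.pi < v1
  hr' : p.re / Real.pi < v1'
  nl : NL (n / (Real.pi : ℂ)) (p / (Real.pi : ℂ))
  nl' : NL (p / (Real.pi : ℂ)) (n / (Real.pi : ℂ))
  flat : FlatH Φ (th n.re n.im) (th p.re p.im) (xx n.re n.im) (xx p.re p.im) (bw n p) (bw p n)
    v1 v1' (mu (bw n p) an v1) (mu (bw p n) ap v1')
  flatc : FlatC (th n.re n.im) (th p.re p.im) (xx n.re n.im) (xx p.re p.im)
  ends : EndAll Φ (th n.re n.im) (th p.re p.im) (xx n.re n.im) (xx p.re p.im) (bw n p) (bw p n)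
    v1 v1' (mu (bw n p) an v1) (mu (bw p n) ap v1')

theorem gdv_eq_div (h : Zr (fun i => (a i : ℝ)) chL chR 1 z) (i : Fin (m + 1)) :
    gdv (UU (xx (z i).re (z i).im) (th (z i).re (z i).im)) = z i / (Real.pi : ℂ) := by
  have h1 := h.gd_uu i
  rw [gd_eq (by rw [UU_im]; exact abs_th_lt (h.pos i).1 (h.pos i).2.1 (h.pos i).2.2)] at h1
  have hpi : (Real.pi : ℂ) ≠ 0 := by exact_mod_cast Real.pi_ne_zero
  rw [eq_div_iff hpi, mul_comm]
  exact h1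

theorem OOD.oo {Φ : ℂ → ℂ → ℂ} (hΦ : IsPhi Φ) (h0 : Φ 0 0 = c00)
    (h : Zr (fun i => (a i : ℝ)) chL chR 1 z) {n p : Fin (m + 1)}
    (hnp : chL n = some p ∨ chR n = some p) {v1 v1' : ℝ} (hv : V1 v1) (hv' : V1 v1')
    (D : OOD Φ (z n) (z p) (a n) (a p) v1 v1') :
    OO Φ (th (z n).re (z n).im) (th (z p).re (z p).im) (xx (z n).re (z n).im)
      (xx (z p).re (z p).im) (bw (z n) (z p)) (bw (z p) (z n)) v1 v1' where
  hΦ := hΦ
  h0 := h0
  ho := h.oppHyp hnp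
  hs := h.split hnp
  hc := h.xxpos n
  hc' := h.xxpos p
  hθ := D.hθ
  hθ' := D.hθ'
  hv1 := hv
  hv1' := hv'
  hr := by rw [gdv_re_eq h]; exact D.hr
  hr' := by rw [gdv_re_eq h]; exact D.hr'
  nl := by rw [gdv_eq_div h, gdv_eq_div h]; exact D.nl
  nl' := by rw [gdv_eq_div h, gdv_eq_div h]; exact D.nl'

/-- **Open-open edges: the estimate away from the critical point.** -/
theorem far_oo {Φ : ℂ → ℂ → ℂ} (hΦ : IsPhi Φ) (h0 : Φ 0 0 = c00)
    (h : Zr (fun i => (a i : ℝ)) chL chR 1 z) (ha : ∀ i, 2 ≤ a i)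
    {v1 : Fin (m + 1) → ℝ} (hv1 : ∀ i, V1 (v1 i)) {j : Fin m} (H : EdC a σ z j)
    (c1 : ¬ clo a j.castSucc) (c2 : ¬ clo a j.succ)
    (hD : (σ j.castSucc = -1 ∧ σ j.succ = 1 ∧ OOD Φ (z j.castSucc) (z j.succ) (a j.castSucc)
        (a j.succ) (v1 j.castSucc) (v1 j.succ)) ∨
      (σ j.castSucc = 1 ∧ σ j.succ = -1 ∧ OOD Φ (z j.succ) (z j.castSucc) (a j.succ)
        (a j.castSucc) (v1 j.succ) (v1 j.castSucc))) {v w : ℂ}
    (hv : v ∈ G0 ((cfgOf a σ z).θ j.castSucc) (v1 j.castSucc))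
    (hw : w ∈ G0 ((cfgOf a σ z).θ j.succ) (v1 j.succ))
    (hne : v ≠ (cfgOf a σ z).vc j.castSucc ∨ w ≠ (cfgOf a σ z).vc j.succ) :
    EdgeOK ((cfgOf a σ z).sv j.castSucc v) ((cfgOf a σ z).sv j.succ w)
      ((cfgOf a σ z).Lw v1 (lamC a z) j v w) := by
  have e1 : (cfgOf a σ z).sv j.castSucc v = .op v := if_pos (mem_Op.2 c1)
  have e2 : (cfgOf a σ z).sv j.succ w = .op w := if_pos (mem_Op.2 c2)
  have t1 := abs_th_lt (h.pos j.castSucc).1 (h.pos j.castSucc).2.1 (h.pos j.castSucc).2.2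
  have t2 := abs_th_lt (h.pos j.succ).1 (h.pos j.succ).2.1 (h.pos j.succ).2.2
  rcases hD with ⟨s1, s2, D⟩ | ⟨s1, s2, D⟩
  · have K := D.oo hΦ h0 h (Or.inr (chR_castSucc j)) (hv1 _) (hv1 _)
    rw [vcC_neg s1, vcC_pos t2 s2] at hne
    have k := K.far D.flat D.flatc D.ends (apos ha _) (apos ha _) hv hw hne
    rw [e1, e2]
    convert k using 1
    unfold Cfg.Lw LL1
    rw [lw_neg H c1 (Or.inl rfl) s1, lw_pos H (hv1 _) t2 c2 (Or.inr rfl) s2, oth_cs, oth_su]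
    unfold Cfg.Fc
    rw [slc_op c1, slc_op c2, vcC_neg s1, vcC_pos t2 s2, yc_eq, if_pos s1]
    unfold E.uu
    rw [UU_conj]
    rfl
  · have K := D.oo hΦ h0 h (Or.inl (chL_succ j)) (hv1 _) (hv1 _)
    rw [vcC_neg s2, vcC_pos t1 s1] at hne
    have k := (K.far D.flat D.flatc D.ends (apos ha _) (apos ha _) hw hv hne.symm).symm
    rw [e1, e2]
    convert k using 1
    unfold Cfg.Lw LL1
    rw [lw_neg H c2 (Or.inr rfl) s2, lw_pos H (hv1 _) t1 c1 (Or.inl rfl) s1, oth_cs, oth_su]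
    unfold Cfg.Fc
    rw [slc_op c1, slc_op c2, vcC_neg s2, vcC_pos t1 s1, yc_eq, if_neg (by rw [s1]; decide)]
    unfold E.uu
    rw [UU_conj]
    have e : ∀ σ τ y, EE τ σ y = EE σ τ y := fun σ τ y => by rw [EE, EE, add_comm]
    rw [e]
    unfold qe
    ring

/-- **Open-open edges: the estimate at the critical point.** -/
theorem near_oo {Φ : ℂ → ℂ → ℂ} (hΦ : IsPhi Φ) (h0 : Φ 0 0 = c00)
    (h : Zr (fun i => (a i : ℝ)) chL chR 1 z)
    {v1 : Fin (m + 1) → ℝ} (hv1 : ∀ i, V1 (v1 i)) {j : Fin m}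
    (c1 : ¬ clo a j.castSucc) (c2 : ¬ clo a j.succ)
    (hD : (σ j.castSucc = -1 ∧ σ j.succ = 1 ∧ OOD Φ (z j.castSucc) (z j.succ) (a j.castSucc)
        (a j.succ) (v1 j.castSucc) (v1 j.succ)) ∨
      (σ j.castSucc = 1 ∧ σ j.succ = -1 ∧ OOD Φ (z j.succ) (z j.castSucc) (a j.succ)
        (a j.castSucc) (v1 j.succ) (v1 j.castSucc))) :
    EdgeC ((cfgOf a σ z).slc j.castSucc) ((cfgOf a σ z).slc j.succ) ((cfgOf a σ z).yc j)
      ((cfgOf a σ z).Fc j) := by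
  have t1 := abs_th_lt (h.pos j.castSucc).1 (h.pos j.castSucc).2.1 (h.pos j.castSucc).2.2
  have t2 := abs_th_lt (h.pos j.succ).1 (h.pos j.succ).2.1 (h.pos j.succ).2.2
  rcases hD with ⟨s1, s2, D⟩ | ⟨s1, s2, D⟩
  · have K := D.oo hΦ h0 h (Or.inr (chR_castSucc j)) (hv1 _) (hv1 _)
    have k := K.near D.flatc D.ends
    unfold Cfg.Fc
    rw [slc_op c1, slc_op c2, vcC_neg s1, vcC_pos t2 s2, yc_eq, if_pos s1]
    unfold E.uu
    rw [UU_conj]
    exact k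
  · have K := D.oo hΦ h0 h (Or.inl (chL_succ j)) (hv1 _) (hv1 _)
    have k := (K.near D.flatc D.ends).symm
    unfold Cfg.Fc
    rw [slc_op c1, slc_op c2, vcC_neg s2, vcC_pos t1 s1, yc_eq, if_neg (by rw [s1]; decide)]
    unfold E.uu
    rw [UU_conj]
    have e : ∀ σ τ y, EE τ σ y = EE σ τ y := fun σ τ y => by rw [EE, EE, add_comm]
    rw [e]
    exact k

end

end Pool.Agent.S3.T2
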