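import Pool.Agent.S3.W2.Gain2

/-!
# The gain on the verticals of the vertices with three half twists, opposite to a two
-/

set_option autoImplicit false

namespace Pool.Agent.S3.T2

open Complex
open Pool.Agent.H25.RK (gdv gdv_re_lt gdv_hasDerivAt)

section

variable {θ θ' v1 v1' μ μ' b xc : ℝ} {v w : ℂ} {Φ : ℂ → ℂ → ℂ}

theorem gain13_alg {p x k d : ℝ} (hp0 : 2718 / 10000 ≤ p) (hp : p ≤ 2744 / 10000) (hx0 : 0 ≤ x)
    (hx : 147 * x ≤ 53 * p) (hk : 1 / 4 ≤ k) (hk1 : k ≤ 1) (hd0 : 0 ≤ d) :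
    6 / 5 * x * ((p + x) * (p + x + (1 - p + x) * (k + d))) ≤
      x * ((1 + x) * k * (1 + d)) + p * (1 - p) * ((1 - k) * d) := by
  have g0 := gain_alg (p := p) (x := x) (k := k) (d := 0) (by linarith only [hp0]) hp hx0 hx hk le_rfl
    (by linarith only [hk])
  have hx1 : x ≤ 99 / 1000 := by linarith only [hx, hp]
  have gd : 6 / 5 * x * ((p + x) * (1 - p + x)) ≤ x * ((1 + x) * k) + p * (1 - p) * (1 - k) := by
    have h1 : (p + x) * (1 - p + x) ≤ 32 / 100 := by linarith only [hx, hp,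
                                                       mul_nonneg (sub_nonneg.2 hx0) (sub_nonneg.2 hx),
                                                       mul_nonneg (sub_nonneg.2 hp) (sub_nonneg.2 hx0),
                                                       mul_nonneg (sub_nonneg.2 hp) (sub_nonneg.2 hp)]
    have h2 : 6 / 5 * x * ((p + x) * (1 - p + x)) ≤ 6 / 5 * x * (32 / 100) :=
      mul_le_mul_of_nonneg_left h1 (by positivity)
    have h3 : 197 / 1000 ≤ p * (1 - p) := by linarith only [hp0,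
                                               mul_nonneg (sub_nonneg.2 hp0) (sub_nonneg.2 hp)]
    have h4 : 197 / 1000 * (1 - k) ≤ p * (1 - p) * (1 - k) :=
      mul_le_mul_of_nonneg_right h3 (by linarith only [hk1])
    have h5 : 0 ≤ x * x * k := by
      have : 0 ≤ k := by linarith only [hk]
      positivity
    linarith only [hk1, hx0, mul_nonneg (sub_nonneg.2 hk1) (sub_nonneg.2 h3),
      mul_nonneg (sub_nonneg.2 hk1) (sub_nonneg.2 h1),
      mul_nonneg (sub_nonneg.2 hx0) (sub_nonneg.2 h1),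
      mul_nonneg (sub_nonneg.2 hx0) (sub_nonneg.2 hx0)]
  have g1 := mul_le_mul_of_nonneg_left g0 hx0
  have g2 := mul_le_mul_of_nonneg_right gd hd0
  linarith only [g2, g1]

theorem gain13_const {p x k d : ℝ} (hp0 : 2718 / 10000 ≤ p) (hp : p ≤ 2744 / 10000) (hx0 : 0 ≤ x)
    (hx : 147 * x ≤ 53 * p) (hk : 954 / 10000 ≤ k) (hk1 : k ≤ 1 / 4) (hd0 : k / 9 ≤ d) :
    7 / 1000 * ((p + x) * (p + x + (1 - p + x) * (k + d))) ≤
      x * ((1 + x) * k * (1 + d)) + p * (1 - p) * ((1 - k) * d) := by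
  have hx1 : x ≤ 99 / 1000 := by linarith only [hx, hp]
  have d0 : 0 ≤ d := by linarith only [hd0, hk]
  have h1 : (p + x) * (p + x + (1 - p + x) * (k + d)) ≤
      3734 / 10000 * (3734 / 10000 + 83 / 100 * (k + d)) := by
    have e1 : (1 - p + x) * (k + d) ≤ 83 / 100 * (k + d) :=
      mul_le_mul_of_nonneg_right (by linarith only [hx, hp0]) (by linarith only [hd0, hk])
    have e2 : 0 ≤ (1 - p + x) * (k + d) := mul_nonneg (by linarith only [hx0, hp]) (by linarith only [hd0,
                                                                                         hk])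
    exact mul_le_mul (by linarith only [hx, hp]) (by linarith only [e1, hx, hp]) (by linarith only [e2,
                                                                                       hx0, hp0]) (by norm_num)
  have h3 : 197 / 1000 ≤ p * (1 - p) := by linarith only [hp0,
                                             mul_nonneg (sub_nonneg.2 hp0) (sub_nonneg.2 hp)]
  have h4 : 197 / 1000 * ((1 - k) * d) ≤ p * (1 - p) * ((1 - k) * d) :=
    mul_le_mul_of_nonneg_right h3 (mul_nonneg (by linarith only [hk1]) d0)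
  have h5 : 0 ≤ (1 / 4 - k) * d := mul_nonneg (by linarith only [hk1]) d0
  have h6 : 0 ≤ x * ((1 + x) * k * (1 + d)) := by
    have : 0 ≤ k := by linarith only [hk]
    positivity
  linarith only [h6, h5, h4, h1, hd0, hk]

/-- The squares for the phase of `q`. -/
theorem Pr.im_sq (h : Pr θ θ' v w) :
    Real.sinh (Real.pi * v.im) ^ 2 * ((1 + Real.sinh (Real.pi * v.im) ^ 2) *
        Real.cos (Real.pi * w.re) ^ 2 * (1 + Real.sinh (Real.pi * w.im) ^ 2)) +
      Real.cos (Real.pi * v.re) ^ 2 * (1 - Real.cos (Real.pi * v.re) ^ 2) *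
        ((1 - Real.cos (Real.pi * w.re) ^ 2) * Real.sinh (Real.pi * w.im) ^ 2) ≤
      (qq (uof v) ((starRingEnd ℂ) (uof w))).im ^ 2 *
        ((Real.cos (Real.pi * v.re) ^ 2 + Real.sinh (Real.pi * v.im) ^ 2) *
        (Real.cos (Real.pi * v.re) ^ 2 + Real.sinh (Real.pi * v.im) ^ 2 +
          (1 - Real.cos (Real.pi * v.re) ^ 2 + Real.sinh (Real.pi * v.im) ^ 2) *
            (Real.cos (Real.pi * w.re) ^ 2 + Real.sinh (Real.pi * w.im) ^ 2))) := by
  obtain ⟨q0, hc⟩ := h.im_core
  have hpi := Real.pi_pos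
  have sv : 0 ≤ Real.sin (Real.pi * v.re) := Real.sin_nonneg_of_nonneg_of_le_pi
    (mul_nonneg hpi.le h.hv.re0) (by linarith only [hpi,
                                       mul_nonneg (sub_nonneg.2 h.hv.re1) (sub_nonneg.2 hpi.le)])
  have sw : 0 ≤ Real.sin (Real.pi * w.re) := Real.sin_nonneg_of_nonneg_of_le_pi
    (mul_nonneg hpi.le h.hw.re0) (by linarith only [hpi,
                                       mul_nonneg (sub_nonneg.2 h.hw.re1) (sub_nonneg.2 hpi.le)])
  have cw : 0 ≤ Real.cos (Real.pi * w.re) := (cos_pi_pos h.hw.abs).le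
  have cv : 0 ≤ Real.cos (Real.pi * v.re) := (cos_pi_pos h.hv.abs).le
  have shv : 0 ≤ Real.sinh (Real.pi * v.im) :=
    Real.sinh_nonneg_iff.2 (mul_nonneg hpi.le h.hv.im0)
  have shw : 0 ≤ Real.sinh (Real.pi * w.im) :=
    Real.sinh_nonneg_iff.2 (mul_nonneg hpi.le h.hw.im0)
  have chs := Real.cosh_pos (Real.pi * v.im)
  have chw := Real.cosh_pos (Real.pi * w.im)
  have a2 := Real.cosh_sq (Real.pi * v.im)
  have a4 := Real.cosh_sq (Real.pi * w.im)
  have r1 := Real.sin_sq_add_cos_sq (Real.pi * v.re)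
  have r3 := Real.sin_sq_add_cos_sq (Real.pi * w.re)
  have m1 : 0 ≤ Real.sinh (Real.pi * v.im) * Real.cosh (Real.pi * v.im) *
        (Real.cos (Real.pi * w.re) * Real.cosh (Real.pi * w.im)) := by positivity
  have m1' : 0 ≤ Real.sin (Real.pi * v.re) * Real.cos (Real.pi * v.re) *
        (Real.sin (Real.pi * w.re) * Real.sinh (Real.pi * w.im)) := by positivity
  refine le_trans ?_ hc
  have := mul_nonneg m1 m1'
  rw [add_sq]
  have e1 : (Real.sinh (Real.pi * v.im) * Real.cosh (Real.pi * v.im) *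
      (Real.cos (Real.pi * w.re) * Real.cosh (Real.pi * w.im))) ^ 2 =
      Real.sinh (Real.pi * v.im) ^ 2 * ((1 + Real.sinh (Real.pi * v.im) ^ 2) *
        Real.cos (Real.pi * w.re) ^ 2 * (1 + Real.sinh (Real.pi * w.im) ^ 2)) := by
    rw [show 1 + Real.sinh (Real.pi * w.im) ^ 2 = Real.cosh (Real.pi * w.im) ^ 2 by linarith only [a4],
      show 1 + Real.sinh (Real.pi * v.im) ^ 2 = Real.cosh (Real.pi * v.im) ^ 2 by linarith only [a2]]
    ring
  have e2 : (Real.sin (Real.pi * v.re) * Real.cos (Real.pi * v.re) *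
        (Real.sin (Real.pi * w.re) * Real.sinh (Real.pi * w.im))) ^ 2 =
      Real.cos (Real.pi * v.re) ^ 2 * (1 - Real.cos (Real.pi * v.re) ^ 2) *
        ((1 - Real.cos (Real.pi * w.re) ^ 2) * Real.sinh (Real.pi * w.im) ^ 2) := by
    rw [show 1 - Real.cos (Real.pi * v.re) ^ 2 = Real.sin (Real.pi * v.re) ^ 2 by linarith only [r1],
      show 1 - Real.cos (Real.pi * w.re) ^ 2 = Real.sin (Real.pi * w.re) ^ 2 by linarith only [r3]]
    ring
  rw [e1, e2]
  linarith only [this]

theorem Und.bl_tan13 (h : Und θ v) (hθ : Ht θ) (ht : 147 * Real.tan θ ^ 2 ≤ 53) :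
    147 * Real.sinh (Real.pi * v.im) ^ 2 ≤ 53 * Real.cos (Real.pi * v.re) ^ 2 := by
  have h1 : Real.sinh (Real.pi * v.im) ≤ Real.tan θ * Real.cos (Real.pi * v.re) := by
    rw [← sinh_pi_bl]
    exact Real.sinh_le_sinh.2 (mul_le_mul_of_nonneg_left h.im1 Real.pi_pos.le)
  have h0 : 0 ≤ Real.sinh (Real.pi * v.im) :=
    Real.sinh_nonneg_iff.2 (mul_nonneg Real.pi_pos.le h.im0)
  have h2 := pow_le_pow_left₀ h0 h1 2
  rw [mul_pow] at h2
  have h3 := mul_le_mul_of_nonneg_right ht (sq_nonneg (Real.cos (Real.pi * v.re)))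
  linarith only [h3, h2]

/-- The phase of `q` on the vertical over `13/40`, `re w ≤ 1/3`. -/
theorem Pr.im_ge13 (h : Pr θ θ' v w) (ht : 147 * Real.tan θ ^ 2 ≤ 53) (hv : v.re = 13 / 40)
    (hw : w.re ≤ 1 / 3) :
    1095 / 1000 * (Real.pi * v.im) ≤ (qq (uof v) ((starRingEnd ℂ) (uof w))).im := by
  have hc := h.im_sq
  have q0 := h.im_core.1
  have hpi := Real.pi_pos
  obtain ⟨p1, p2⟩ := cos_sq_v1
  rw [← hv] at p1 p2
  have b1 := h.hv.bl_tan13 h.hθ ht
  have hk : 1 / 4 ≤ Real.cos (Real.pi * w.re) ^ 2 := by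
    have h1 : 1 / 2 ≤ Real.cos (Real.pi * w.re) := by
      rw [← Real.cos_pi_div_three]
      apply Real.cos_le_cos_of_nonneg_of_le_pi
      · exact mul_nonneg hpi.le h.hw.re0
      · linarith only [hpi]
      · linarith only [mul_nonneg (sub_nonneg.2 hw) (sub_nonneg.2 hpi.le)]
    linarith only [h1, mul_nonneg (sub_nonneg.2 h1) (sub_nonneg.2 h1)]
  obtain ⟨s, hs⟩ : ∃ s, s = Real.pi * v.im := ⟨_, rfl⟩
  have s0 : 0 ≤ s := by rw [hs]; exact mul_nonneg hpi.le h.hv.im0
  rw [← hs] at hc b1 ⊢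
  obtain ⟨q, hq⟩ : ∃ q, q = (qq (uof v) ((starRingEnd ℂ) (uof w))).im := ⟨_, rfl⟩
  rw [← hq] at q0 hc ⊢
  have key := gain13_alg (p := Real.cos (Real.pi * v.re) ^ 2) (x := Real.sinh s ^ 2)
    (k := Real.cos (Real.pi * w.re) ^ 2) (d := Real.sinh (Real.pi * w.im) ^ 2)
    p1 p2 (sq_nonneg _) b1 hk (Real.cos_sq_le_one _) (sq_nonneg _)
  have hpos : 0 < (Real.cos (Real.pi * v.re) ^ 2 + Real.sinh s ^ 2) *
        (Real.cos (Real.pi * v.re) ^ 2 + Real.sinh s ^ 2 +
          (1 - Real.cos (Real.pi * v.re) ^ 2 + Real.sinh s ^ 2) *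
            (Real.cos (Real.pi * w.re) ^ 2 + Real.sinh (Real.pi * w.im) ^ 2)) := by
    have e1 : 0 < Real.cos (Real.pi * v.re) ^ 2 := by linarith only [p1]
    have e2 : 0 ≤ 1 - Real.cos (Real.pi * v.re) ^ 2 := by linarith only [p2]
    positivity
  have m6 : 6 / 5 * Real.sinh s ^ 2 ≤ q ^ 2 := by
    apply le_of_mul_le_mul_right _ hpos
    linarith only [key, hc]
  have m7 : (1095 / 1000 * s) ^ 2 ≤ q ^ 2 := by
    have := pow_le_pow_left₀ s0 (Real.self_le_sinh_iff.2 s0) 2
    linarith only [this, m6, sq_nonneg s]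
  exact (sq_le_sq₀ (by positivity) q0).1 m7

/-- The phase of `q` on the vertical over `13/40`, `w` on its line with `re w ≥ 1/3`. -/
theorem Pr.im_const13 (h : Pr θ θ' v w) (ht : 147 * Real.tan θ ^ 2 ≤ 53) (hv : v.re = 13 / 40)
    (hw : 1 / 3 ≤ w.re) (hl : w.im = bl θ' w.re) (ht' : 1 / 3 ≤ Real.tan θ') :
    8 / 100 ≤ (qq (uof v) ((starRingEnd ℂ) (uof w))).im := by
  have hc := h.im_sq
  have q0 := h.im_core.1
  have hpi := Real.pi_pos
  obtain ⟨p1, p2⟩ := cos_sq_v1
  rw [← hv] at p1 p2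
  have b1 := h.hv.bl_tan13 h.hθ ht
  obtain ⟨r1, r2, r3, -⟩ := gain2_cos
  have hk : 954 / 10000 ≤ Real.cos (Real.pi * w.re) ^ 2 := by
    have h1 : Real.cos (Real.pi * (2 / 5)) ≤ Real.cos (Real.pi * w.re) := by
      apply Real.cos_le_cos_of_nonneg_of_le_pi
      · exact mul_nonneg hpi.le h.hw.re0
      · linarith only [hpi]
      · exact mul_le_mul_of_nonneg_left h.hw.re1 hpi.le
    have := pow_le_pow_left₀ (by linarith only [r3]) h1 2
    linarith only [this, r1]
  have hk2 : Real.cos (Real.pi * w.re) ^ 2 ≤ 1 / 4 := by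
    have h1 : Real.cos (Real.pi * w.re) ≤ 1 / 2 := by
      rw [← Real.cos_pi_div_three]
      apply Real.cos_le_cos_of_nonneg_of_le_pi
      · linarith only [hpi]
      · linarith only [hpi, mul_nonneg (sub_nonneg.2 h.hw.re1) (sub_nonneg.2 hpi.le)]
      · linarith only [mul_nonneg (sub_nonneg.2 hw) (sub_nonneg.2 hpi.le)]
    have h0 : 0 ≤ Real.cos (Real.pi * w.re) := (cos_pi_pos h.hw.abs).le
    linarith only [h1, mul_nonneg (sub_nonneg.2 h1) (sub_nonneg.2 h0)]
  have hd : Real.cos (Real.pi * w.re) ^ 2 / 9 ≤ Real.sinh (Real.pi * w.im) ^ 2 := by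
    rw [hl, sinh_pi_bl, mul_pow]
    have := pow_le_pow_left₀ (by norm_num) ht' 2
    have := mul_le_mul_of_nonneg_right this (sq_nonneg (Real.cos (Real.pi * w.re)))
    linarith only [this]
  obtain ⟨q, hq⟩ : ∃ q, q = (qq (uof v) ((starRingEnd ℂ) (uof w))).im := ⟨_, rfl⟩
  rw [← hq] at q0 hc ⊢
  have key := gain13_const (p := Real.cos (Real.pi * v.re) ^ 2)
    (x := Real.sinh (Real.pi * v.im) ^ 2)
    (k := Real.cos (Real.pi * w.re) ^ 2) (d := Real.sinh (Real.pi * w.im) ^ 2)
    p1 p2 (sq_nonneg _) b1 hk hk2 hd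
  have hpos : 0 < (Real.cos (Real.pi * v.re) ^ 2 + Real.sinh (Real.pi * v.im) ^ 2) *
        (Real.cos (Real.pi * v.re) ^ 2 + Real.sinh (Real.pi * v.im) ^ 2 +
          (1 - Real.cos (Real.pi * v.re) ^ 2 + Real.sinh (Real.pi * v.im) ^ 2) *
            (Real.cos (Real.pi * w.re) ^ 2 + Real.sinh (Real.pi * w.im) ^ 2)) := by
    have e1 : 0 < Real.cos (Real.pi * v.re) ^ 2 := by linarith only [p1]
    have e2 : 0 ≤ 1 - Real.cos (Real.pi * v.re) ^ 2 := by linarith only [p2]
    positivity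
  have m6 : 7 / 1000 ≤ q ^ 2 := by
    apply le_of_mul_le_mul_right _ hpos
    linarith only [key, hc]
  by_contra hcon
  push Not at hcon
  linarith only [hcon, m6, mul_nonneg (sub_nonneg.2 q0) (sub_nonneg.2 hcon.le)]

/-! ### The verticals over `13/40` -/

/-- The height of the line over `13/40`. -/
theorem gain13_height (hθ : Ht θ) (ht : 147 * Real.tan θ ^ 2 ≤ 53) :
    14 / 25 * Real.tan θ ≤ 1095 / 1000 * (Real.pi * bl θ (13 / 40)) :=
  gain_height ⟨hθ.pos, hθ.lt, ht⟩

/-- The gain from the linear bound. -/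
theorem Pr.gain13 (hΦ : IsPhi Φ) (h : Pr θ θ' v w) (ht : 147 * Real.tan θ ^ 2 ≤ 53)
    (hv : v.re = 13 / 40) (hw : w.re ≤ 1 / 3) :
    (Φ v ((starRingEnd ℂ) w)).re + 1095 / 1000 * (bl θ (13 / 40) - v.im) *
      (Real.pi * bl θ (13 / 40)) ≤ (Φ (up θ v) ((starRingEnd ℂ) w)).re := by
  have hpi := Real.pi_pos
  have k := h.gain_gen hΦ (G := fun s => 1095 / 2000 * s ^ 2) (g := fun s => 1095 / 1000 * s)
    (fun s => by
      have := (hasDerivAt_pow 2 s).const_mul (1095 / 2000 : ℝ)
      refine this.congr_deriv ?_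
      norm_num
      ring) (fun β h1 h2 => by
      have hz : Pr θ θ' ((v.re : ℂ) + (β : ℂ) * I) w :=
        ⟨⟨by rw [line_re]; exact h.hv.re0, by rw [line_re]; exact h.hv.re1,
          by rw [line_im]; exact h.hv.im0.trans h1, by rw [line_re, line_im]; exact h2⟩,
          h.hw, h.hθ, h.hθ', h.S⟩
      have := hz.im_ge13 ht (by rw [line_re]; exact hv) hw
      rwa [line_im] at this)
  rw [hv] at k
  have h1 := h.hv.im1
  rw [hv] at h1
  have e : 2 / Real.pi * (1095 / 2000 * (Real.pi * bl θ (13 / 40)) ^ 2 -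
      1095 / 2000 * (Real.pi * v.im) ^ 2) = 1095 / 1000 * (bl θ (13 / 40) - v.im) *
      (Real.pi * bl θ (13 / 40)) + 1095 / 1000 * (bl θ (13 / 40) - v.im) * (Real.pi * v.im) := by
    field_simp
    ring
  have h2 : 0 ≤ 1095 / 1000 * (bl θ (13 / 40) - v.im) * (Real.pi * v.im) := by
    have := h.hv.im0
    have : 0 ≤ bl θ (13 / 40) - v.im := by linarith only [h1]
    positivity
  rw [e] at k
  linarith only [h2, k]

/-- The gain from the constant bound. -/
theorem Pr.gain13c (hΦ : IsPhi Φ) (h : Pr θ θ' v w) (ht : 147 * Real.tan θ ^ 2 ≤ 53)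
    (hv : v.re = 13 / 40) (hw : 1 / 3 ≤ w.re) (hl : w.im = bl θ' w.re)
    (ht' : 1 / 3 ≤ Real.tan θ') :
    (Φ v ((starRingEnd ℂ) w)).re + 4 / 25 * (bl θ (13 / 40) - v.im) ≤
      (Φ (up θ v) ((starRingEnd ℂ) w)).re := by
  have hpi := Real.pi_pos
  have k := h.gain_gen hΦ (G := fun s => 8 / 100 * s) (g := fun _ => 8 / 100)
    (fun s => by
      have := (hasDerivAt_id s).const_mul (8 / 100 : ℝ)
      refine this.congr_deriv ?_
      norm_num) (fun β h1 h2 => by
      have hz : Pr θ θ' ((v.re : ℂ) + (β : ℂ) * I) w :=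
        ⟨⟨by rw [line_re]; exact h.hv.re0, by rw [line_re]; exact h.hv.re1,
          by rw [line_im]; exact h.hv.im0.trans h1, by rw [line_re, line_im]; exact h2⟩,
          h.hw, h.hθ, h.hθ', h.S⟩
      exact hz.im_const13 ht (by rw [line_re]; exact hv) hw hl ht')
  rw [hv] at k
  have e : 2 / Real.pi * (8 / 100 * (Real.pi * bl θ (13 / 40)) - 8 / 100 * (Real.pi * v.im)) =
      4 / 25 * (bl θ (13 / 40) - v.im) := by
    field_simp
    ring
  rw [e] at k
  linarith only [k]

/-- The vertical over `13/40` with the gain: the other point arbitrary, `v1' ≤ 1/3`. -/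
theorem gla_13 (hΦ : IsPhi Φ) (ht : 147 * Real.tan θ ^ 2 ≤ 53) (hb : 0 ≤ b)
    (hc0 : 0 ≤ (gdv (UU xc θ)).re) (hc1 : (gdv (UU xc θ)).re ≤ 1 / 2)
    (hμ : μ ≤ 14 / 25 * Real.tan θ) (hv1' : v1' ≤ 1 / 3) : GLa Φ θ θ' xc b (13 / 40) v1' μ := by
  refine GLa.of_gain hb hc0 hc1 fun v w h hv hw => ?_
  have k := h.gain13 hΦ ht hv (hw.trans hv1')
  have h1 := h.hv.im1
  rw [hv] at h1
  rw [up_im, hv]
  have h2 := gain13_height h.hθ ht
  have h3 : μ * (bl θ (13 / 40) - v.im) ≤
      1095 / 1000 * (Real.pi * bl θ (13 / 40)) * (bl θ (13 / 40) - v.im) :=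
    mul_le_mul_of_nonneg_right (by linarith only [h2, hμ]) (by linarith only [h1])
  linarith only [h3, k]

/-- The vertical over `13/40` with the gain: the other point on its line. -/
theorem gll_13 (hΦ : IsPhi Φ) (ht : 147 * Real.tan θ ^ 2 ≤ 53) (hb : 0 ≤ b)
    (hc0 : 0 ≤ (gdv (UU xc θ)).re) (hc1 : (gdv (UU xc θ)).re ≤ 1 / 2)
    (hμ : μ ≤ 14 / 25 * Real.tan θ) (hμ' : μ ≤ 4 / 25) (ht' : 1 / 3 ≤ Real.tan θ') :
    GLl Φ θ θ' xc b (13 / 40) v1' μ := by
  refine GLl.of_gain hb hc0 hc1 fun v w h hv _ hl => ?_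
  have h1 := h.hv.im1
  rw [hv] at h1
  rw [up_im, hv]
  rcases le_total w.re (1 / 3) with hw | hw
  · have k := h.gain13 hΦ ht hv hw
    have h2 := gain13_height h.hθ ht
    have h3 : μ * (bl θ (13 / 40) - v.im) ≤
        1095 / 1000 * (Real.pi * bl θ (13 / 40)) * (bl θ (13 / 40) - v.im) :=
      mul_le_mul_of_nonneg_right (by linarith only [h2, hμ]) (by linarith only [h1])
    linarith only [h3, k]
  · have k := h.gain13c hΦ ht hv hw hl ht'
    have h3 : μ * (bl θ (13 / 40) - v.im) ≤ 4 / 25 * (bl θ (13 / 40) - v.im) :=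
      mul_le_mul_of_nonneg_right hμ' (by linarith only [h1])
    linarith only [h3, k]

/-! ### An end with three half twists: the quadratic part helps -/

theorem gain13_cos : 5213 / 10000 ≤ Real.cos (Real.pi * (13 / 40)) ∧
    112 / 100 * Real.cos (Real.pi * (13 / 40)) ≤ Real.cos (Real.pi * (3 / 10)) := by
  obtain ⟨p1, p2⟩ := cos_sq_v1
  obtain ⟨r1, r2, r3, r4⟩ := gain2_cos
  have c0 : 0 ≤ Real.cos (Real.pi * (13 / 40)) := Real.cos_nonneg_of_mem_Icc
    ⟨by linarith only [Real.pi_pos], by linarith only [Real.pi_pos]⟩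
  have c5 : 5213 / 10000 ≤ Real.cos (Real.pi * (13 / 40)) := by (refine le_of_not_gt fun hng => ?_; linarith only [hng,
                                                                  p1,
                                                                  mul_nonneg (sub_nonneg.2 hng.le) (sub_nonneg.2 c0)])
  have c1 : Real.cos (Real.pi * (13 / 40)) ≤ 5239 / 10000 := by
    by_contra hc
    push Not at hc
    linarith only [hc, p2, mul_pos (sub_pos.2 hc) (sub_pos.2 hc)]
  exact ⟨c5, by linarith only [c1, r4, r3]⟩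

/-- The vertical over `13/40` of an end with three half twists. -/
theorem gll_13e (hΦ : IsPhi Φ) (ht : 147 * Real.tan θ ^ 2 ≤ 53) (ht0 : 1 / 5 ≤ Real.tan θ)
    (hb : 0 ≤ b) (hb3 : b ≤ 3)
    (hc0 : 0 ≤ (gdv (UU xc θ)).re) (hc : (gdv (UU xc θ)).re ≤ 3 / 10)
    (hμ : μ ≤ Real.pi * b / 60) (ht' : 1 / 3 ≤ Real.tan θ') :
    GLl Φ θ θ' xc b (13 / 40) v1' μ := by
  intro v w h hv _ hl
  have hpi := Real.pi_pos
  have hpi2 := Real.pi_lt_d4
  have h1 := h.hv.im1
  rw [hv] at h1
  have hθ := h.hθ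
  have m0 : 0 ≤ BP b (gdv (UU xc θ)) (up θ v) := BP_nonneg hθ.pos.le hθ.lt hb
    (by rw [up_re]; exact h.hv.re0) (by rw [up_re]; linarith only [hv]) hc0 (by linarith only [hc])
    (by rw [up_im, up_re]) (line_im_bl hθ.abs)
  rcases le_total w.re (1 / 3) with hw | hw
  · have k := h.gain13 hΦ ht hv hw
    obtain ⟨c1, c2⟩ := gain13_cos
    have q1 := sinh_pi_bl θ (13 / 40)
    have q2 := sinh_pi_bl θ (3 / 10)
    have t1 : Real.tan θ ≤ 1 := by (refine le_of_not_gt fun hng => ?_; linarith only [hng, ht,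
                                     mul_pos (sub_pos.2 hng) (sub_pos.2 hng)])
    have t0 : 0 < Real.tan θ := by linarith only [ht0]
    have p2 := cos_sq_v1.2
    obtain ⟨s, hs⟩ : ∃ s, s = Real.pi * bl θ (13 / 40) := ⟨_, rfl⟩
    obtain ⟨S, hS⟩ : ∃ S, S = Real.pi * bl θ (3 / 10) := ⟨_, rfl⟩
    rw [← hs] at q1
    rw [← hS] at q2
    have s0 : 0 ≤ s := by
      rw [← Real.sinh_nonneg_iff, q1]
      have : 0 ≤ Real.cos (Real.pi * (13 / 40)) := by linarith only [c1]
      positivity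
    have self := Real.self_le_sinh_iff.2 s0
    have sinh1 : Real.sinh s ^ 2 ≤ 1 / 10 := by
      rw [q1, mul_pow]
      have : Real.tan θ ^ 2 ≤ 53 / 147 := by linarith only [ht]
      have := mul_le_mul this p2 (sq_nonneg _) (by norm_num)
      linarith only [this]
    have shs : 10426 / 100000 ≤ Real.sinh s := by
      rw [q1]
      have := mul_le_mul ht0 c1 (by norm_num) t0.le
      linarith only [this]
    have s2 : s ≤ 32 / 100 := by
      have h2 : s ^ 2 ≤ Real.sinh s ^ 2 := pow_le_pow_left₀ s0 self 2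
      (refine le_of_not_gt fun hng => ?_; linarith only [hng, sinh1, self,
        mul_nonneg (sub_nonneg.2 self) (sub_nonneg.2 self),
        mul_nonneg (sub_nonneg.2 hng.le) (sub_nonneg.2 self),
        mul_pos (sub_pos.2 hng) (sub_pos.2 hng)])
    have s1 : 1 / 10 ≤ s := by
      have k3 := sq_ge_sinh s0 (by linarith only [sinh1])
      have h1 : (10426 / 100000 : ℝ) ^ 2 ≤ Real.sinh s ^ 2 :=
        pow_le_pow_left₀ (by norm_num) shs 2
      apply le_of_sq_le_sq _ s0
      linarith only [k3, shs, mul_nonneg (sub_nonneg.2 shs) (sub_nonneg.2 shs),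
        mul_nonneg (sq_nonneg (1 * Real.sinh s)) (sub_nonneg.2 sinh1)]
    have hSs : 112 / 100 * Real.sinh s ≤ Real.sinh S := by
      rw [q1, q2]
      have := mul_le_mul_of_nonneg_left c2 t0.le
      linarith only [this]
    have hsS : s ≤ S := by
      rw [← Real.sinh_le_sinh]
      linarith only [hSs, shs]
    have hSb : 112 / 100 * s - (112 / 100) ^ 3 / 6 * s ^ 3 ≤ S := by
      have h2 : 112 / 100 * s ≤ Real.sinh S := by linarith only [hSs, self]
      have h3 : Real.arsinh (112 / 100 * s) ≤ S := by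
        rw [← Real.arsinh_sinh S]
        exact Real.arsinh_le_arsinh.2 h2
      have h4 := gain_arsinh (x := Real.arsinh (112 / 100 * s))
        (Real.arsinh_nonneg_iff.2 (by positivity))
      rw [Real.sinh_arsinh] at h4
      have e : (112 / 100 * s) ^ 3 / 6 = (112 / 100) ^ 3 / 6 * s ^ 3 := by ring
      rw [e] at h4
      linarith only [h4, h3]
    -- the quadratic part
    have hBP : 49 / 1000 * b * (S - s) ≤ 49 / 50 * BP b (gdv (UU xc θ)) (up θ v) := by
      unfold BP
      rw [up_re, up_im, hv, line_im_bl hθ.abs]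
      have m1 : bl θ (3 / 10) ≤ bl θ (gdv (UU xc θ)).re :=
        bl_antitone hθ.pos.le hθ.lt hc0 hc (by linarith only [])
      have e1 : S - s = Real.pi * (bl θ (3 / 10) - bl θ (13 / 40)) := by rw [hS, hs]; ring
      have m3 : 0 ≤ bl θ (3 / 10) - bl θ (13 / 40) := by
        have m2 : 0 ≤ S - s := by linarith only [hsS]
        rw [e1] at m2
        exact nonneg_of_mul_nonneg_right m2 hpi
      have m4 : 1 / 40 * (bl θ (3 / 10) - bl θ (13 / 40)) ≤
          (13 / 40 - (gdv (UU xc θ)).re) * (bl θ (gdv (UU xc θ)).re - bl θ (13 / 40)) :=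
        mul_le_mul (by linarith only [hc]) (by linarith only [m1]) m3 (by linarith only [hc])
      have m5 : 0 ≤ 49 / 50 * (2 * Real.pi * b) := by positivity
      have := mul_le_mul_of_nonneg_left m4 m5
      rw [e1]
      linarith only [this]
    obtain ⟨σ, hσ⟩ : ∃ σ, σ = Real.pi * v.im := ⟨_, rfl⟩
    have σ0 : 0 ≤ σ := by rw [hσ]; exact mul_nonneg hpi.le h.hv.im0
    have σ1 : σ ≤ s := by
      rw [hσ, hs]
      exact mul_le_mul_of_nonneg_left h1 hpi.le
    have hk : 348 / 1000 * s * (s - σ) ≤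
        1095 / 1000 * (bl θ (13 / 40) - v.im) * (Real.pi * bl θ (13 / 40)) := by
      have e : 1095 / 1000 * (bl θ (13 / 40) - v.im) * (Real.pi * bl θ (13 / 40)) =
          1095 / 1000 * ((s - σ) / Real.pi) * s := by
        rw [hs, hσ]
        field_simp
      rw [e]
      have h2 : 3183 / 10000 * (s - σ) ≤ (s - σ) / Real.pi := by
        rw [le_div_iff₀ hpi]
        have : 0 ≤ s - σ := by linarith only [σ1]
        linarith only [this, mul_nonneg (sub_nonneg.2 hpi2.le) (sub_nonneg.2 this)]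
      have h3 := mul_le_mul_of_nonneg_right h2 s0
      have h4 : 0 ≤ (s - σ) * s := mul_nonneg (by linarith only [σ1]) s0
      linarith only [h4, h3]
    have hμ' : μ * ((up θ v).im - v.im) ≤ b / 60 * (s - σ) := by
      rw [up_im, hv]
      have e : b / 60 * (s - σ) = Real.pi * b / 60 * (bl θ (13 / 40) - v.im) := by
        rw [hs, hσ]; ring
      rw [e]
      exact mul_le_mul_of_nonneg_right hμ (by linarith only [h1])
    -- the criterion
    have num : s / 20 ≤ 348 / 1000 * s ^ 2 + 147 / 1000 * (S - s) := by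
      have a1 : 0 ≤ (s - 1 / 10) * (32 / 100 - s) := mul_nonneg (by linarith only [s1]) (by linarith only [s2])
      have a3 : 0 ≤ 348 / 1000 * s - 3236 / 100000 - 345 / 10000 * s ^ 2 := by linarith only [a1,
                                                                                 s1]
      have a4 := mul_nonneg s0 a3
      have a5 : 0 ≤ s ^ 3 := by positivity
      linarith only [a5, a4, hSb]
    have hcrit : 0 ≤ 348 / 1000 * s * (s - σ) - b / 60 * (s - σ) + 49 / 1000 * b * (S - s) := by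
      rcases le_or_gt (b / 60) (348 / 1000 * s) with hc | hc
      · have h1 : 0 ≤ (s - σ) * (348 / 1000 * s - b / 60) := mul_nonneg (by linarith only [σ1]) (by linarith only [hc])
        have h2 : 0 ≤ 49 / 1000 * b * (S - s) := mul_nonneg (by positivity) (by linarith only [hsS])
        linarith only [h2, h1]
      · have h1 : 0 ≤ σ * (b / 60 - 348 / 1000 * s) := mul_nonneg σ0 (by linarith only [hc])
        have h3 : 0 ≤ (3 - b) * (348 / 1000 * s ^ 2) := mul_nonneg (by linarith only [hb3]) (by positivity)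
        have h4 := mul_le_mul_of_nonneg_left num hb
        linarith only [h4, h3, h1]
    linarith only [hcrit, hμ', hk, hBP, k]
  · have k := h.gain13c hΦ ht hv hw hl ht'
    rw [up_im, hv]
    have h2 : μ ≤ 4 / 25 := by linarith only [hpi2, hμ,
                                 mul_nonneg (sub_nonneg.2 hb3) (sub_nonneg.2 hpi.le)]
    have h3 : μ * (bl θ (13 / 40) - v.im) ≤ 4 / 25 * (bl θ (13 / 40) - v.im) :=
      mul_le_mul_of_nonneg_right h2 (by linarith only [h1])
    linarith only [h3, k, m0]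

end

end Pool.Agent.S3.T2
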