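import Pool.Agent.S3.W.Gain
import Pool.Agent.S3.W2.BPart

/-!
# The gain on the verticals, inner vertices with two half twists included

On the vertical `re v = 2/5` the rate `Re Φ` drops, from the line to the height `s / π`, and the
phase of `q` is at least `s (11/5 - 53/5 s²)`. With `re v_c ≤ 3/10` and the quadratic part of the
bound this pays for the share of the weight.
-/

set_option autoImplicit false

namespace Pool.Agent.S3.T2

open Complex
open Pool.Agent.H25.RK (gdv gdv_re_lt gdv_hasDerivAt)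

section

variable {θ θ' v1 v1' μ μ' b xc : ℝ} {v w : ℂ} {Φ : ℂ → ℂ → ℂ}

/-- The phase of `q` in terms of the squares. -/
theorem Pr.im_core (h : Pr θ θ' v w) :
    0 ≤ (qq (uof v) ((starRingEnd ℂ) (uof w))).im ∧
    (Real.sinh (Real.pi * v.im) * Real.cosh (Real.pi * v.im) *
        (Real.cos (Real.pi * w.re) * Real.cosh (Real.pi * w.im)) +
      Real.sin (Real.pi * v.re) * Real.cos (Real.pi * v.re) *
        (Real.sin (Real.pi * w.re) * Real.sinh (Real.pi * w.im))) ^ 2 ≤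
    (qq (uof v) ((starRingEnd ℂ) (uof w))).im ^ 2 *
      ((Real.cos (Real.pi * v.re) ^ 2 + Real.sinh (Real.pi * v.im) ^ 2) *
        (Real.cos (Real.pi * v.re) ^ 2 + Real.sinh (Real.pi * v.im) ^ 2 +
          (1 - Real.cos (Real.pi * v.re) ^ 2 + Real.sinh (Real.pi * v.im) ^ 2) *
            (Real.cos (Real.pi * w.re) ^ 2 + Real.sinh (Real.pi * w.im) ^ 2))) := by
  have hq := h.qo
  have hpi := Real.pi_pos
  obtain ⟨w1, w2, w3, w4, w5⟩ := h.hw.u h.hθ'
  have q0 : 0 ≤ (qq (uof v) ((starRingEnd ℂ) (uof w))).im :=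
    qq_im_nonneg hq.reg hq.ur (by rw [conj_re]; exact w1) hq.ui (by rw [conj_im]; linarith only [w2])
  refine ⟨q0, ?_⟩
  have hs := im_qq_sq (uof v) ((starRingEnd ℂ) (uof w))
  obtain ⟨q, hqq⟩ : ∃ q, q = (qq (uof v) ((starRingEnd ℂ) (uof w))).im := ⟨_, rfl⟩
  obtain ⟨z, hz⟩ : ∃ z, z = sinh (uof v) / cosh ((starRingEnd ℂ) (uof w)) := ⟨_, rfl⟩
  rw [← hqq, ← hz] at hs
  rw [← hqq]
  have hPre := pi_re_lt h.hv.abs
  have hcw : cosh ((starRingEnd ℂ) (uof w)) = 1 / (starRingEnd ℂ) (cos (Real.pi * w)) := by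
    rw [← conj_cosh', uof, cosh_igd (pi_re_lt h.hw.abs), map_div₀, map_one]
  have hz' : z = sin (Real.pi * v) * (starRingEnd ℂ) (cos (Real.pi * w)) / cos (Real.pi * v) := by
    rw [hz, hcw, uof, sinh_igd, Complex.tan_eq_sin_div_cos, div_div_eq_mul_div, div_one]
    ring
  -- the numbers
  obtain ⟨s, hsd⟩ : ∃ s, s = Real.pi * v.im := ⟨_, rfl⟩
  have c1 : (cos (Real.pi * v)).re = Real.cos (Real.pi * v.re) * Real.cosh s := by
    rw [wcos_re, pi_mul_re, pi_mul_im, hsd]
  have c2 : (cos (Real.pi * v)).im = -(Real.sin (Real.pi * v.re) * Real.sinh s) := by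
    rw [wcos_im, pi_mul_re, pi_mul_im, hsd]
  have c3 : (sin (Real.pi * v)).re = Real.sin (Real.pi * v.re) * Real.cosh s := by
    rw [wsin_re, pi_mul_re, pi_mul_im, hsd]
  have c4 : (sin (Real.pi * v)).im = Real.cos (Real.pi * v.re) * Real.sinh s := by
    rw [wsin_im, pi_mul_re, pi_mul_im, hsd]
  have g1 : ((starRingEnd ℂ) (cos (Real.pi * w))).re =
      Real.cos (Real.pi * w.re) * Real.cosh (Real.pi * w.im) := by
    rw [conj_re, wcos_re, pi_mul_re, pi_mul_im]
  have g2 : ((starRingEnd ℂ) (cos (Real.pi * w))).im =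
      Real.sin (Real.pi * w.re) * Real.sinh (Real.pi * w.im) := by
    rw [conj_im, wcos_im, pi_mul_re, pi_mul_im, neg_neg]
  obtain ⟨g, hg⟩ : ∃ g, g = (starRingEnd ℂ) (cos (Real.pi * w)) := ⟨_, rfl⟩
  rw [← hg] at g1 g2 hz'
  have a1 := Real.sin_sq_add_cos_sq (Real.pi * v.re)
  have a2 := Real.cosh_sq s
  have a3 := Real.sin_sq_add_cos_sq (Real.pi * w.re)
  have a4 := Real.cosh_sq (Real.pi * w.im)
  have c0 : 0 < Real.cos (Real.pi * v.re) := cos_pi_pos h.hv.abs
  have d0 : 0 < Real.cos (Real.pi * v.re) ^ 2 + Real.sinh s ^ 2 := by positivity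
  have n1 : normSq (cos (Real.pi * v)) = Real.cos (Real.pi * v.re) ^ 2 + Real.sinh s ^ 2 := by
    rw [normSq_apply, c1, c2]
    linear_combination (Real.cos (Real.pi * v.re)) ^ 2 * a2 + Real.sinh s ^ 2 * a1
  have n2 : normSq (sin (Real.pi * v)) = 1 - Real.cos (Real.pi * v.re) ^ 2 + Real.sinh s ^ 2 := by
    rw [normSq_apply, c3, c4]
    linear_combination (Real.sin (Real.pi * v.re)) ^ 2 * a2 + (Real.sinh s ^ 2 + 1) * a1
  have n3 : normSq g = Real.cos (Real.pi * w.re) ^ 2 + Real.sinh (Real.pi * w.im) ^ 2 := by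
    rw [normSq_apply, g1, g2]
    linear_combination (Real.cos (Real.pi * w.re)) ^ 2 * a4 + Real.sinh (Real.pi * w.im) ^ 2 * a3
  have hz2 : normSq z * normSq (cos (Real.pi * v)) = normSq (sin (Real.pi * v)) * normSq g := by
    rw [hz', normSq_div, normSq_mul]
    rw [div_mul_cancel₀]
    rw [n1]; exact d0.ne'
  have hz1 : z.im * normSq (cos (Real.pi * v)) = Real.sinh s * Real.cosh s * g.re +
      Real.sin (Real.pi * v.re) * Real.cos (Real.pi * v.re) * g.im := by
    have e : z * (normSq (cos (Real.pi * v)) : ℂ) =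
        sin (Real.pi * v) * g * (starRingEnd ℂ) (cos (Real.pi * v)) := by
      rw [← mul_conj, hz']
      have : cos (Real.pi * v) ≠ 0 := cos_ne' hPre
      field_simp
    have e2 := congrArg Complex.im e
    rw [mul_comm, im_ofReal_mul] at e2
    rw [mul_comm, e2, mul_im, mul_re, mul_im, conj_re, conj_im, c1, c2, c3, c4]
    linear_combination (Real.sin (Real.pi * v.re) * Real.cos (Real.pi * v.re) * g.im) * a2 +
      (Real.sinh s * Real.cosh s * g.re) * a1
  rw [n1] at hz1 hz2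
  rw [n2, n3] at hz2
  rw [g1, g2] at hz1
  rw [← hsd, ← hz1, ← hz2, mul_pow]
  have hD2 : 0 ≤ (Real.cos (Real.pi * v.re) ^ 2 + Real.sinh s ^ 2) ^ 2 := by positivity
  have := mul_le_mul_of_nonneg_right hs hD2
  linarith only [this]

/-- The bound which is used on the verticals over `2/5`. -/
theorem gain2_alg {p x k d y : ℝ} (hp0 : 9549 / 100000 ≤ p) (hp : p ≤ 9550 / 100000)
    (hx0 : 0 ≤ x) (hx : x ≤ p) (hk : p ≤ k) (hk1 : k ≤ 1) (hd0 : 0 ≤ d) (hy0 : 0 ≤ y)
    (hy : y ≤ 11 / 5 - 51 / 5 * x) :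
    x * y ^ 2 * ((p + x) * (p + x + (1 - p + x) * (k + d))) ≤
      x * ((1 + x) * k * (1 + d)) + p * (1 - p) * ((1 - k) * d) := by
  have hx1 : x ≤ 955 / 10000 := by linarith only [hx, hp]
  have hc : y ^ 2 ≤ (11 / 5 - 51 / 5 * x) ^ 2 := pow_le_pow_left₀ hy0 hy 2
  obtain ⟨c, hcd⟩ : ∃ c, c = (11 / 5 - 51 / 5 * x) ^ 2 := ⟨_, rfl⟩
  rw [← hcd] at hc
  have hc0 : 0 ≤ c := by rw [hcd]; positivity
  have hp1 : 0 ≤ p := by linarith only [hp0]
  have hB : 0 ≤ 1 - p + x := by linarith only [hx0, hp]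
  have hE : 0 ≤ p + x := by linarith only [hx0, hp0]
  have e0 : 0 ≤ c * (p + x) := by positivity
  have hcE : c * (p + x) ≤ 1 / 2 := by
    have h1 : c * (p + x) ≤ c * (955 / 10000 + x) :=
      mul_le_mul_of_nonneg_left (by linarith only [hp]) hc0
    have h2 : c * (955 / 10000 + x) ≤ 1 / 2 := by
      rw [hcd]
      linarith only [hx, hp, sq_nonneg (100 * x - 1 * 1),
        mul_nonneg (mul_self_nonneg (x)) (sub_nonneg.2 hx),
        mul_nonneg (mul_self_nonneg (x)) (sub_nonneg.2 hp)]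
    linarith only [h2, h1]
  have hcEB : c * (p + x) * (1 - p + x) ≤ 1 / 2 := by
    have h1 : c * (p + x) * (1 - p + x) ≤ c * (p + x) * 1 :=
      mul_le_mul_of_nonneg_left (by linarith only [hx]) (by positivity)
    linarith only [h1, hcE]
  -- at `k = p`
  have gp : c * ((p + x) * (p + x + (1 - p + x) * p)) ≤ (1 + x) * p := by
    have h1 : (p + x) * (p + x + (1 - p + x) * p) ≤
        (955 / 10000 + x) * (18188 / 100000 + 10955 / 10000 * x) := by
      apply mul_le_mul (by linarith only [hp]) _ _ (by linarith only [hx0])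
      · linarith only [mul_nonneg hx0 (sub_nonneg.2 hp), hp,
          mul_nonneg (sub_nonneg.2 hp0) (sub_nonneg.2 hp0)]
      · have := mul_nonneg hB hp1
        linarith only [this, hx0, hp0]
    have h2 : (1 + x) * (9549 / 100000) ≤ (1 + x) * p :=
      mul_le_mul_of_nonneg_left hp0 (by linarith only [hx0])
    have h3 : c * ((955 / 10000 + x) * (18188 / 100000 + 10955 / 10000 * x)) ≤
        (1 + x) * (9549 / 100000) := by
      have hq : 0 ≤ x ^ 3 * (19 - 114 * x) := mul_nonneg (by positivity) (by linarith only [hx, hp])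
      have hx3 : 0 ≤ x ^ 3 := by positivity
      have hx4 : 0 ≤ x ^ 4 := by positivity
      rw [hcd]
      linarith only [sq_nonneg (x - 445 / 10000), hx3, hq, hx0]
    have h4 := mul_le_mul_of_nonneg_left h1 hc0
    linarith only [h4, h3, h2]
  -- at `k`
  have g0 : c * ((p + x) * (p + x + (1 - p + x) * k)) ≤ (1 + x) * k := by
    have h1 : 0 ≤ (k - p) * ((1 + x) - c * (p + x) * (1 - p + x)) :=
      mul_nonneg (by linarith only [hk]) (by linarith only [hcEB, hx0])
    linarith only [h1, gp]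
  -- the slope in `d`
  have gd : x * (c * (p + x) * (1 - p + x)) ≤ x * ((1 + x) * k) + p * (1 - p) * (1 - k) := by
    have h1 : x * (c * (p + x) * (1 - p + x)) ≤ x * (1 / 2) :=
      mul_le_mul_of_nonneg_left hcEB hx0
    have h2 : 863 / 10000 ≤ p * (1 - p) := by linarith only [hp0,
                                                mul_nonneg (sub_nonneg.2 hp0) (sub_nonneg.2 hp)]
    have h3 : 863 / 10000 * (1 - k) ≤ p * (1 - p) * (1 - k) :=
      mul_le_mul_of_nonneg_right (by linarith only [h2]) (by linarith only [hk1])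
    have h4 : 0 ≤ x * x * k := by
      have : 0 ≤ k := by linarith only [hk, hp0]
      positivity
    linarith only [h3, h1, hk1, mul_nonneg (sub_nonneg.2 hx0) (sub_nonneg.2 hk),
      mul_nonneg (sub_nonneg.2 hx0) (sub_nonneg.2 hx),
      mul_nonneg (sq_nonneg (1 * 11 - 1 * 51 * (1 * x))) (sub_nonneg.2 hk1),
      mul_nonneg (sq_nonneg (1 * 11 - 1 * 51 * (1 * x))) (sub_nonneg.2 hx0),
      mul_nonneg (mul_self_nonneg (x)) (sub_nonneg.2 hk),
      mul_nonneg (mul_self_nonneg (x)) (sub_nonneg.2 hx),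
      mul_nonneg (mul_self_nonneg (x)) (sub_nonneg.2 hp0)]
  have g1 := mul_le_mul_of_nonneg_left g0 hx0
  have g2 := mul_le_mul_of_nonneg_right gd hd0
  have h7 : 0 ≤ x * ((p + x) * (p + x + (1 - p + x) * (k + d))) := by
    have : 0 ≤ k + d := by linarith only [hd0, hk, hp0]
    positivity
  have h8 := mul_le_mul_of_nonneg_right hc h7
  linarith only [h8, g2, g1]

/-- `cos² (2π/5) = (3 - √5)/8`. -/
theorem gain2_cos : 9549 / 100000 ≤ Real.cos (Real.pi * (2 / 5)) ^ 2 ∧
    Real.cos (Real.pi * (2 / 5)) ^ 2 ≤ 9550 / 100000 ∧ 309 / 1000 ≤ Real.cos (Real.pi * (2 / 5)) ∧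
    1902 / 1000 * Real.cos (Real.pi * (2 / 5)) ≤ Real.cos (Real.pi * (3 / 10)) := by
  have h5 : Real.sqrt 5 ^ 2 = 5 := Real.sq_sqrt (by norm_num)
  have h50 : 0 ≤ Real.sqrt 5 := Real.sqrt_nonneg 5
  have l1 : 22360 / 10000 ≤ Real.sqrt 5 := Real.le_sqrt_of_sq_le (by norm_num)
  have l2 : Real.sqrt 5 ≤ 22361 / 10000 := by
    rw [Real.sqrt_le_left (by norm_num)]
    norm_num
  have e1 : Real.cos (Real.pi * (2 / 5)) = (Real.sqrt 5 - 1) / 4 := by
    rw [show Real.pi * (2 / 5) = 2 * (Real.pi / 5) by ring, Real.cos_two_mul, Real.cos_pi_div_five]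
    linarith only [h5]
  have e2 : Real.cos (Real.pi * (3 / 10)) ^ 2 = (5 - Real.sqrt 5) / 8 := by
    rw [Real.cos_sq, show 2 * (Real.pi * (3 / 10)) = Real.pi - Real.pi * (2 / 5) by ring,
      Real.cos_pi_sub, e1]
    ring
  have e3 : 0 ≤ Real.cos (Real.pi * (3 / 10)) := Real.cos_nonneg_of_mem_Icc
    ⟨by linarith only [Real.pi_pos], by linarith only [Real.pi_pos]⟩
  rw [e1]
  refine ⟨by (refine le_of_not_gt fun hng => ?_; linarith only [hng, l2, h5,
               mul_nonneg (sq_nonneg (1 * √5 - 1 * 1)) (sub_nonneg.2 l2),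
               mul_nonneg (sq_nonneg (√5)) (sub_nonneg.2 h5.le),
               mul_nonneg (sq_nonneg (√5)) (sub_nonneg.2 h5.ge),
               mul_nonneg (sq_nonneg (√5)) (sub_nonneg.2 hng.le)]), by linarith only [l1, h5], by linarith only [l1], ?_⟩
  apply le_of_sq_le_sq _ e3
  rw [e2]
  linarith only [l1, h5]

/-- `s² ≥ sinh² s (1 - sinh² s / 3)`. -/
theorem sq_ge_sinh {s : ℝ} (hs : 0 ≤ s) (h1 : Real.sinh s ^ 2 ≤ 1) :
    Real.sinh s ^ 2 * (1 - Real.sinh s ^ 2 / 3) ≤ s ^ 2 := by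
  have k := gain_arsinh hs
  have h0 : 0 ≤ Real.sinh s := Real.sinh_nonneg_iff.2 hs
  obtain ⟨y, hy⟩ : ∃ y, y = Real.sinh s := ⟨_, rfl⟩
  rw [← hy] at k h0 h1 ⊢
  have h2 : 0 ≤ y - y ^ 3 / 6 := by
    have : y - y ^ 3 / 6 = y * (1 - y ^ 2 / 6) := by ring
    rw [this]
    exact mul_nonneg h0 (by linarith only [h1])
  have h3 := pow_le_pow_left₀ h2 k 2
  linarith only [sq_nonneg (y ^ 3), h3]

/-- The phase of `q` on the vertical over `2/5`. -/
theorem Pr.im_ge25 (h : Pr θ θ' v w) (hv : v.re = 2 / 5) :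
    (Real.pi * v.im) * (11 / 5 - 53 / 5 * (Real.pi * v.im) ^ 2) ≤
      (qq (uof v) ((starRingEnd ℂ) (uof w))).im := by
  obtain ⟨q0, hc⟩ := h.im_core
  have hpi := Real.pi_pos
  obtain ⟨p1, p2, p3, p4⟩ := gain2_cos
  rw [← hv] at p1 p2 p3
  have c0 : 0 ≤ Real.cos (Real.pi * v.re) := by linarith only [p3]
  obtain ⟨s, hs⟩ : ∃ s, s = Real.pi * v.im := ⟨_, rfl⟩
  have s0 : 0 ≤ s := by rw [hs]; exact mul_nonneg hpi.le h.hv.im0
  have b1 := h.hv.bl_sinh h.hθ
  have b2 := h.hw.bl_sinh h.hθ'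
  rw [← hs] at hc b1 ⊢
  obtain ⟨q, hq⟩ : ∃ q, q = (qq (uof v) ((starRingEnd ℂ) (uof w))).im := ⟨_, rfl⟩
  rw [← hq] at q0 hc ⊢
  -- the signs
  have sv : 0 ≤ Real.sin (Real.pi * v.re) := Real.sin_nonneg_of_nonneg_of_le_pi
    (mul_nonneg hpi.le h.hv.re0) (by linarith only [hpi,
                                       mul_nonneg (sub_nonneg.2 hv.le) (sub_nonneg.2 hpi.le),
                                       mul_nonneg (sub_nonneg.2 hv.ge) (sub_nonneg.2 hpi.le)])
  have sw : 0 ≤ Real.sin (Real.pi * w.re) := Real.sin_nonneg_of_nonneg_of_le_pi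
    (mul_nonneg hpi.le h.hw.re0) (by linarith only [hpi,
                                       mul_nonneg (sub_nonneg.2 hpi.le) (sub_nonneg.2 h.hw.re1)])
  have cw : 0 ≤ Real.cos (Real.pi * w.re) := (cos_pi_pos h.hw.abs).le
  have ss : 0 ≤ Real.sinh s := Real.sinh_nonneg_iff.2 s0
  have shw : 0 ≤ Real.sinh (Real.pi * w.im) :=
    Real.sinh_nonneg_iff.2 (mul_nonneg hpi.le h.hw.im0)
  have chs := Real.cosh_pos s
  have chw := Real.cosh_pos (Real.pi * w.im)
  have a2 := Real.cosh_sq s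
  have a4 := Real.cosh_sq (Real.pi * w.im)
  -- `cos² π w ≥ cos² (2π/5)`
  have hk : Real.cos (Real.pi * v.re) ^ 2 ≤ Real.cos (Real.pi * w.re) ^ 2 := by
    apply pow_le_pow_left₀ c0
    apply Real.cos_le_cos_of_nonneg_of_le_pi
    · exact mul_nonneg hpi.le h.hw.re0
    · rw [hv]; linarith only [hpi]
    · rw [hv]; exact mul_le_mul_of_nonneg_left h.hw.re1 hpi.le
  obtain ⟨x, hx⟩ : ∃ x, x = Real.sinh s ^ 2 := ⟨_, rfl⟩
  have x0 : 0 ≤ x := by rw [hx]; positivity
  have hx1 : x ≤ 955 / 10000 := by rw [hx]; linarith only [b1, p2]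
  have k3 := sq_ge_sinh s0 (by rw [← hx]; linarith only [hx, b1, p2])
  rw [← hx] at k3
  have s2x : s ^ 2 ≤ x := by
    rw [hx]
    exact pow_le_pow_left₀ s0 (Real.self_le_sinh_iff.2 s0) 2
  obtain ⟨y, hy⟩ : ∃ y, y = 11 / 5 - 53 / 5 * s ^ 2 := ⟨_, rfl⟩
  have y0 : 0 ≤ y := by rw [hy]; linarith only [s2x, hx, b1, p2]
  have y1 : y ≤ 11 / 5 - 51 / 5 * x := by
    rw [hy]
    (refine le_of_not_gt fun hng => ?_; linarith only [hng, k3, hx, sq_nonneg (s),
      mul_nonneg (sub_nonneg.2 hng.le) (sub_nonneg.2 hx.le),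
      mul_nonneg (sub_nonneg.2 hng.le) (sub_nonneg.2 hx.ge),
      mul_nonneg (sq_nonneg (Real.sinh s)) (sub_nonneg.2 hx.le),
      mul_nonneg (sq_nonneg (Real.sinh s)) (sub_nonneg.2 hx.ge),
      mul_nonneg (sq_nonneg (Real.sinh s)) (sub_nonneg.2 b1),
      mul_nonneg (sq_nonneg (Real.sinh s)) (sub_nonneg.2 p2),
      mul_nonneg (sq_nonneg (s)) (sub_nonneg.2 hx.le),
      mul_nonneg (sq_nonneg (s)) (sub_nonneg.2 hx.ge)])
  have key := gain2_alg (p := Real.cos (Real.pi * v.re) ^ 2) (x := x)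
    (k := Real.cos (Real.pi * w.re) ^ 2) (d := Real.sinh (Real.pi * w.im) ^ 2) (y := y)
    (by linarith only [p1]) (by linarith only [p2]) x0 (by rw [hx]; exact b1) hk (Real.cos_sq_le_one _)
    (sq_nonneg _) y0 y1
  have r1 := Real.sin_sq_add_cos_sq (Real.pi * v.re)
  have r3 := Real.sin_sq_add_cos_sq (Real.pi * w.re)
  -- the square
  have m4 : (Real.sinh s * Real.cosh s *
      (Real.cos (Real.pi * w.re) * Real.cosh (Real.pi * w.im))) ^ 2 =
      x * ((1 + x) * Real.cos (Real.pi * w.re) ^ 2 * (1 + Real.sinh (Real.pi * w.im) ^ 2)) := by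
    rw [show 1 + Real.sinh (Real.pi * w.im) ^ 2 = Real.cosh (Real.pi * w.im) ^ 2 by linarith only [a4],
      show 1 + x = Real.cosh s ^ 2 by rw [hx]; linarith only [a2], hx]
    ring
  have m4' : (Real.sin (Real.pi * v.re) * Real.cos (Real.pi * v.re) *
        (Real.sin (Real.pi * w.re) * Real.sinh (Real.pi * w.im))) ^ 2 =
      Real.cos (Real.pi * v.re) ^ 2 * (1 - Real.cos (Real.pi * v.re) ^ 2) *
        ((1 - Real.cos (Real.pi * w.re) ^ 2) * Real.sinh (Real.pi * w.im) ^ 2) := by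
    rw [show 1 - Real.cos (Real.pi * v.re) ^ 2 = Real.sin (Real.pi * v.re) ^ 2 by linarith only [r1],
      show 1 - Real.cos (Real.pi * w.re) ^ 2 = Real.sin (Real.pi * w.re) ^ 2 by linarith only [r3]]
    ring
  have m1 : 0 ≤ Real.sinh s * Real.cosh s *
        (Real.cos (Real.pi * w.re) * Real.cosh (Real.pi * w.im)) := by positivity
  have m1' : 0 ≤ Real.sin (Real.pi * v.re) * Real.cos (Real.pi * v.re) *
        (Real.sin (Real.pi * w.re) * Real.sinh (Real.pi * w.im)) := by positivity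
  have m3 : x * ((1 + x) * Real.cos (Real.pi * w.re) ^ 2 * (1 + Real.sinh (Real.pi * w.im) ^ 2)) +
      Real.cos (Real.pi * v.re) ^ 2 * (1 - Real.cos (Real.pi * v.re) ^ 2) *
        ((1 - Real.cos (Real.pi * w.re) ^ 2) * Real.sinh (Real.pi * w.im) ^ 2) ≤
      q ^ 2 * ((Real.cos (Real.pi * v.re) ^ 2 + x) *
        (Real.cos (Real.pi * v.re) ^ 2 + x + (1 - Real.cos (Real.pi * v.re) ^ 2 + x) *
            (Real.cos (Real.pi * w.re) ^ 2 + Real.sinh (Real.pi * w.im) ^ 2))) := by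
    rw [← m4, ← m4', hx]
    refine le_trans ?_ hc
    have := mul_nonneg m1 m1'
    rw [add_sq]
    linarith only [this]
  have hpos : 0 < (Real.cos (Real.pi * v.re) ^ 2 + x) *
        (Real.cos (Real.pi * v.re) ^ 2 + x + (1 - Real.cos (Real.pi * v.re) ^ 2 + x) *
            (Real.cos (Real.pi * w.re) ^ 2 + Real.sinh (Real.pi * w.im) ^ 2)) := by
    have e1 : 0 < Real.cos (Real.pi * v.re) ^ 2 := by linarith only [p1]
    have e2 : 0 ≤ 1 - Real.cos (Real.pi * v.re) ^ 2 := by linarith only [p2]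
    positivity
  have m6 : x * y ^ 2 ≤ q ^ 2 := by
    apply le_of_mul_le_mul_right _ hpos
    linarith only [m3, key]
  have m7 : (s * y) ^ 2 ≤ q ^ 2 := by
    rw [mul_pow]
    have := mul_le_mul_of_nonneg_right s2x (sq_nonneg y)
    linarith only [this, m6]
  rw [← hy]
  exact (sq_le_sq₀ (by positivity) q0).1 m7

/-- The gain on a vertical, from a lower bound of the phase of `q`. -/
theorem Pr.gain_gen (hΦ : IsPhi Φ) (h : Pr θ θ' v w) {G g : ℝ → ℝ}
    (hG : ∀ s, HasDerivAt G (g s) s)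
    (hg : ∀ β : ℝ, v.im ≤ β → β ≤ bl θ v.re → g (Real.pi * β) ≤
      (qq (uof ((v.re : ℂ) + (β : ℂ) * I)) ((starRingEnd ℂ) (uof w))).im) :
    (Φ v ((starRingEnd ℂ) w)).re + 2 / Real.pi * (G (Real.pi * bl θ v.re) - G (Real.pi * v.im)) ≤
      (Φ (up θ v) ((starRingEnd ℂ) w)).re := by
  have hpi := Real.pi_pos
  have hR : |Real.pi * v.re| < Real.pi / 2 := by
    have := pi_re_lt h.hv.abs
    rwa [pi_mul_re] at this
  obtain ⟨W, hW⟩ : ∃ W, W = (starRingEnd ℂ) (uof w) := ⟨_, rfl⟩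
  have hm : MonotoneOn (fun s : ℝ => (Φ (gd (igd (UU (Real.pi * v.re) s)) / (Real.pi : ℂ))
      (gd W / (Real.pi : ℂ))).re - 2 / Real.pi * G s)
      (Set.Icc (Real.pi * v.im) (Real.pi * bl θ v.re)) := by
    have hd : ∀ s ∈ Set.Icc (Real.pi * v.im) (Real.pi * bl θ v.re),
        g s ≤ (qq (igd (UU (Real.pi * v.re) s)) W).im ∧
        Reg (igd (UU (Real.pi * v.re) s)) W := by
      intro s hs
      obtain ⟨b, hb⟩ : ∃ b, s = Real.pi * b := ⟨s / Real.pi, by field_simp⟩
      have hb1 : v.im ≤ b := by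
        have := hs.1
        rw [hb] at this
        exact le_of_mul_le_mul_left this hpi
      have hb2 : b ≤ bl θ v.re := by
        have := hs.2
        rw [hb] at this
        exact le_of_mul_le_mul_left this hpi
      have hz : Pr θ θ' ((v.re : ℂ) + (b : ℂ) * I) w :=
        ⟨⟨by rw [line_re]; exact h.hv.re0, by rw [line_re]; exact h.hv.re1,
          by rw [line_im]; exact h.hv.im0.trans hb1, by rw [line_re, line_im]; exact hb2⟩,
          h.hw, h.hθ, h.hθ', h.S⟩
      have hq := hz.qo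
      have hk := hg b hb1 hb2
      rw [uof_line, ← hb, ← hW] at hk
      rw [uof_line, ← hb, ← hW] at hq
      exact ⟨hk, hq.reg⟩
    have hder : ∀ s ∈ Set.Icc (Real.pi * v.im) (Real.pi * bl θ v.re),
        HasDerivAt (fun s : ℝ => (Φ (gd (igd (UU (Real.pi * v.re) s)) / (Real.pi : ℂ))
          (gd W / (Real.pi : ℂ))).re - 2 / Real.pi * G s)
          (2 / Real.pi * (qq (igd (UU (Real.pi * v.re) s)) W).im - 2 / Real.pi * g s) s := by
      intro s hs
      obtain ⟨_, hr⟩ := hd s hs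
      have h1 := hΦ.deriv (fun s => igd (UU (Real.pi * v.re) s)) (fun _ => W) _ 0 s hr
        (hasDerivAt_igd_line hR s) (hasDerivAt_const _ _)
      have h2 := hasDerivAt_re h1
      have h3 := (hG s).const_mul (2 / Real.pi)
      refine (h2.sub h3).congr_deriv ?_
      congr 1
      have hc := cosh_ne hr.left
      have hpi' : (Real.pi : ℂ) ≠ 0 := by exact_mod_cast Real.pi_ne_zero
      have e : (-2 * qq (igd (UU (Real.pi * v.re) s)) W * (I * cosh (igd (UU (Real.pi * v.re) s))) /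
          ((Real.pi : ℂ) * cosh (igd (UU (Real.pi * v.re) s))) -
          2 * qq W (igd (UU (Real.pi * v.re) s)) * 0 / ((Real.pi : ℂ) * cosh W)) =
          ((2 / Real.pi : ℝ) : ℂ) * (-I * qq (igd (UU (Real.pi * v.re) s)) W) := by
        push_cast
        field_simp
        ring
      rw [e, re_ofReal_mul]
      congr 1
      rw [mul_re, neg_re, neg_im, I_re, I_im]
      ring
    apply monotoneOn_of_deriv_nonneg (convex_Icc _ _)
    · intro s hs
      exact (hder s hs).continuousAt.continuousWithinAt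
    · intro s hs
      rw [interior_Icc] at hs
      exact (hder s (Set.Ioo_subset_Icc_self hs)).differentiableAt.differentiableWithinAt
    · intro s hs
      rw [interior_Icc] at hs
      have hs' := Set.Ioo_subset_Icc_self hs
      rw [(hder s hs').deriv, ← mul_sub]
      exact mul_nonneg (by positivity) (by linarith only [(hd s hs').1])
  have hle : Real.pi * v.im ≤ Real.pi * bl θ v.re := mul_le_mul_of_nonneg_left h.hv.im1 hpi.le
  have k := hm ⟨le_rfl, hle⟩ ⟨hle, le_rfl⟩ hle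
  simp only at k
  rw [← uof_line, ← uof_line, re_add_im, hW, ← h.hw.conj_u] at k
  have hcw : |((starRingEnd ℂ) w).re| < 1 / 2 := conj_abs h.hw.abs
  rw [Phi_eq_gd Φ h.hv.abs hcw, Phi_eq_gd Φ (v := S3.up θ v) (by rw [up_re]; exact h.hv.abs) hcw]
  have e1 : up θ v = (v.re : ℂ) + ((bl θ v.re : ℝ) : ℂ) * I := rfl
  rw [← e1] at k
  linarith only [k]

/-! ### The vertical over `2/5` -/

/-- The criterion: `a0` bounds `re v_c`, `ρ` the quotient of the cosines, `b0` the weight. -/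
theorem gla_crit (hΦ : IsPhi Φ) {a0 ρ b0 τ : ℝ} (hτ : τ ≤ Real.tan θ) (ha0 : a0 ≤ 2 / 5)
    (hρ : 1 ≤ ρ) (hρc : ρ * Real.cos (Real.pi * (2 / 5)) ≤ Real.cos (Real.pi * a0))
    (hnum : ∀ s S : ℝ, 3 / 10 * τ ≤ s → 0 ≤ s → s ≤ 31 / 100 →
      ρ * s - ρ ^ 3 / 6 * s ^ 3 ≤ S →
      b0 / 5 * s ≤ (11 / 5 - 53 / 10 * s ^ 2) * s ^ 2 / Real.pi +
        49 / 25 * b0 * (2 / 5 - a0) * (S - s))
    (hb : 0 ≤ b) (hb2 : b ≤ b0) (hc0 : 0 ≤ (gdv (UU xc θ)).re) (hc : (gdv (UU xc θ)).re ≤ a0)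
    (hμ : μ ≤ Real.pi * b / 5) : GLa Φ θ θ' xc b (2 / 5) v1' μ := by
  intro v w h hv _
  have hpi := Real.pi_pos
  have ht := h.hθ
  have k := h.gain_gen hΦ (G := fun s => 11 / 10 * s ^ 2 - 53 / 20 * s ^ 4)
    (g := fun s => s * (11 / 5 - 53 / 5 * s ^ 2)) (fun s => by
      have := ((hasDerivAt_pow 2 s).const_mul (11 / 10 : ℝ)).sub
        ((hasDerivAt_pow 4 s).const_mul (53 / 20 : ℝ))
      refine this.congr_deriv ?_
      norm_num
      ring) (fun β h1 h2 => by
      have hz : Pr θ θ' ((v.re : ℂ) + (β : ℂ) * I) w :=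
        ⟨⟨by rw [line_re]; exact h.hv.re0, by rw [line_re]; exact h.hv.re1,
          by rw [line_im]; exact h.hv.im0.trans h1, by rw [line_re, line_im]; exact h2⟩,
          h.hw, h.hθ, h.hθ', h.S⟩
      have := hz.im_ge25 (by rw [line_re]; exact hv)
      rwa [line_im] at this)
  -- the numbers
  obtain ⟨p1, p2, p3, -⟩ := gain2_cos
  have q1 := sinh_pi_bl θ (2 / 5)
  have q2 := sinh_pi_bl θ a0
  have t0 : 0 < Real.tan θ := Real.tan_pos_of_pos_of_lt_pi_div_two ht.pos ht.lt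
  have t1 : Real.tan θ ≤ 1 := by (refine le_of_not_gt fun hng => ?_; linarith only [hng, ht.tan,
                                   mul_pos (sub_pos.2 hng) (sub_pos.2 hng)])
  obtain ⟨s, hs⟩ : ∃ s, s = Real.pi * bl θ (2 / 5) := ⟨_, rfl⟩
  obtain ⟨S, hS⟩ : ∃ S, S = Real.pi * bl θ a0 := ⟨_, rfl⟩
  rw [← hs] at q1
  rw [← hS] at q2
  have c2 : 0 ≤ Real.cos (Real.pi * (2 / 5)) := by linarith only [p3]
  have s0 : 0 ≤ s := by
    rw [← Real.sinh_nonneg_iff, q1]
    positivity
  have sinh1 : Real.sinh s ^ 2 ≤ 955 / 10000 := by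
    rw [q1, mul_pow]
    have : Real.tan θ ^ 2 ≤ 1 := ht.tan
    have := mul_le_mul this p2 (sq_nonneg _) zero_le_one
    linarith only [this]
  have self := Real.self_le_sinh_iff.2 s0
  have shs : 309 / 1000 * τ ≤ Real.sinh s := by
    rw [q1]
    rcases le_or_gt τ 0 with h0 | h0
    · have : 0 ≤ Real.tan θ * Real.cos (Real.pi * (2 / 5)) := by positivity
      linarith only [h0, self, s0, q1]
    · have := mul_le_mul hτ p3 (by norm_num) t0.le
      linarith only [this]
  have s2 : s ≤ 31 / 100 := by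
    have h2 : s ^ 2 ≤ Real.sinh s ^ 2 := pow_le_pow_left₀ s0 self 2
    (refine le_of_not_gt fun hng => ?_; linarith only [hng, h2, sinh1,
      mul_pos (sub_pos.2 hng) (sub_pos.2 hng)])
  have hSs : ρ * Real.sinh s ≤ Real.sinh S := by
    rw [q1, q2]
    have := mul_le_mul_of_nonneg_left hρc t0.le
    linarith only [this]
  have hsS : s ≤ S := by
    rw [← Real.sinh_le_sinh]
    have : Real.sinh s ≤ ρ * Real.sinh s := by
      have := mul_le_mul_of_nonneg_right hρ (s0.trans self)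
      linarith only [this]
    linarith only [this, hSs]
  have hSb : ρ * s - ρ ^ 3 / 6 * s ^ 3 ≤ S := by
    -- `S ≥ arsinh (ρ s)`
    have h2 : ρ * s ≤ Real.sinh S := by
      have := mul_le_mul_of_nonneg_left self (zero_le_one.trans hρ)
      linarith only [this, hSs]
    have h3 : Real.arsinh (ρ * s) ≤ S := by
      rw [← Real.arsinh_sinh S]
      exact Real.arsinh_le_arsinh.2 h2
    have h4 := gain_arsinh (x := Real.arsinh (ρ * s))
      (Real.arsinh_nonneg_iff.2 (mul_nonneg (zero_le_one.trans hρ) s0))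
    rw [Real.sinh_arsinh] at h4
    have e : (ρ * s) ^ 3 / 6 = ρ ^ 3 / 6 * s ^ 3 := by ring
    rw [e] at h4
    linarith only [h4, h3]
  have s3 : 3 / 10 * τ ≤ s := by
    rcases le_or_gt τ 0 with h0 | h0
    · linarith only [h0, s0]
    · have k3 := sq_ge_sinh s0 (by linarith only [sinh1])
      have h1 : (309 / 1000 * τ) ^ 2 ≤ Real.sinh s ^ 2 := pow_le_pow_left₀ (by positivity) shs 2
      apply le_of_sq_le_sq _ s0
      linarith only [h1, k3, sq_nonneg (1 * s),
        mul_nonneg (sq_nonneg (Real.sinh s)) (sub_nonneg.2 sinh1)]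
  have num := hnum s S s3 s0 s2 hSb
  -- the quadratic part
  obtain ⟨σ, hσ⟩ : ∃ σ, σ = Real.pi * v.im := ⟨_, rfl⟩
  have σ0 : 0 ≤ σ := by rw [hσ]; exact mul_nonneg hpi.le h.hv.im0
  have σ1 : σ ≤ s := by
    rw [hσ, hs]
    have := h.hv.im1
    rw [hv] at this
    exact mul_le_mul_of_nonneg_left this hpi.le
  have hBP : 49 / 25 * b * (2 / 5 - a0) * (S - s) ≤ 49 / 50 * BP b (gdv (UU xc θ)) (up θ v) := by
    unfold BP
    rw [up_re, up_im, hv, line_im_bl h.hθ.abs]
    have m1 : bl θ a0 ≤ bl θ (gdv (UU xc θ)).re :=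
      bl_antitone h.hθ.pos.le h.hθ.lt hc0 hc (by linarith only [ha0])
    have e1 : S - s = Real.pi * (bl θ a0 - bl θ (2 / 5)) := by rw [hS, hs]; ring
    have m3 : 0 ≤ bl θ a0 - bl θ (2 / 5) := by
      have m2 : 0 ≤ S - s := by linarith only [hsS]
      rw [e1] at m2
      exact nonneg_of_mul_nonneg_right m2 hpi
    have m4 : (2 / 5 - a0) * (bl θ a0 - bl θ (2 / 5)) ≤
        (2 / 5 - (gdv (UU xc θ)).re) * (bl θ (gdv (UU xc θ)).re - bl θ (2 / 5)) :=
      mul_le_mul (by linarith only [hc]) (by linarith only [m1]) m3 (by linarith only [hc, ha0])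
    have m5 : 0 ≤ 49 / 50 * (2 * Real.pi * b) := by positivity
    have := mul_le_mul_of_nonneg_left m4 m5
    rw [e1]
    linarith only [this]
  have hgain : (s - σ) * (s * (11 / 5 - 53 / 10 * s ^ 2)) / Real.pi ≤
      2 / Real.pi * ((11 / 10 * s ^ 2 - 53 / 20 * s ^ 4) - (11 / 10 * σ ^ 2 - 53 / 20 * σ ^ 4)) := by
    have e : 2 / Real.pi * ((11 / 10 * s ^ 2 - 53 / 20 * s ^ 4) -
        (11 / 10 * σ ^ 2 - 53 / 20 * σ ^ 4)) -
        (s - σ) * (s * (11 / 5 - 53 / 10 * s ^ 2)) / Real.pi =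
        (s - σ) * (σ * (11 / 5 - 53 / 10 * (s ^ 2 + s * σ + σ ^ 2))) / Real.pi := by
      field_simp
      ring
    have h2 : 0 ≤ (s - σ) * (σ * (11 / 5 - 53 / 10 * (s ^ 2 + s * σ + σ ^ 2))) / Real.pi := by
      apply div_nonneg _ hpi.le
      apply mul_nonneg (by linarith only [σ1])
      apply mul_nonneg σ0
      linarith only [s2, mul_nonneg (sub_nonneg.2 σ0) (sub_nonneg.2 σ1),
        mul_nonneg (sub_nonneg.2 s0) (sub_nonneg.2 σ1),
        mul_nonneg (sub_nonneg.2 s0) (sub_nonneg.2 s2)]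
    linarith only [h2, e]
  -- the criterion
  have hcrit : 0 ≤ (s - σ) * (s * (11 / 5 - 53 / 10 * s ^ 2)) / Real.pi -
      b / 5 * (s - σ) + 49 / 25 * b * (2 / 5 - a0) * (S - s) := by
    obtain ⟨K, hK⟩ : ∃ K, K = s * (11 / 5 - 53 / 10 * s ^ 2) / Real.pi := ⟨_, rfl⟩
    have e1 : (s - σ) * (s * (11 / 5 - 53 / 10 * s ^ 2)) / Real.pi = (s - σ) * K := by
      rw [hK]; ring
    have e2 : (11 / 5 - 53 / 10 * s ^ 2) * s ^ 2 / Real.pi = s * K := by rw [hK]; ring
    rw [e1]
    rw [e2] at num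
    have K0 : 0 ≤ K := by
      rw [hK]
      apply div_nonneg _ hpi.le
      apply mul_nonneg s0
      linarith only [s2, mul_nonneg (sub_nonneg.2 s0) (sub_nonneg.2 s2)]
    have m2 : 0 ≤ S - s := by linarith only [hsS]
    have m3 : 0 ≤ 2 / 5 - a0 := by linarith only [ha0]
    have m4 : 0 ≤ 49 / 25 * (2 / 5 - a0) * (S - s) := by positivity
    rcases le_or_gt (b / 5) K with hc | hc
    · have h1 : 0 ≤ (s - σ) * (K - b / 5) := mul_nonneg (by linarith only [σ1]) (by linarith only [hc])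
      have h2 : 0 ≤ b * (49 / 25 * (2 / 5 - a0) * (S - s)) := mul_nonneg hb m4
      linarith only [h2, h1]
    · have h1 : 0 ≤ σ * (b / 5 - K) := mul_nonneg σ0 (by linarith only [hc])
      -- `b = b0` is the worst case
      have hb00 : 0 ≤ b0 := hb.trans hb2
      have h2 : 0 ≤ b0 * (s * K - b / 5 * s + b * (49 / 25 * (2 / 5 - a0) * (S - s))) := by
        have h3 : 0 ≤ (b0 - b) * (s * K) := mul_nonneg (by linarith only [hb2]) (by positivity)
        have h4 := mul_le_mul_of_nonneg_left num hb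
        linarith only [h4, h3]
      rcases hb00.eq_or_lt with hz | hz
      · have hbz : b = 0 := by linarith only [hb, hz, hb2]
        rw [hbz] at hc
        linarith only [hc, K0]
      · have h3 := nonneg_of_mul_nonneg_right h2 hz
        linarith only [h3, h1]
  rw [hv] at k
  rw [← hs, ← hσ] at k
  have hμ' : μ * ((up θ v).im - v.im) ≤ b / 5 * (s - σ) := by
    rw [up_im, hv]
    have e : b / 5 * (s - σ) = Real.pi * b / 5 * (bl θ (2 / 5) - v.im) := by rw [hs, hσ]; ring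
    rw [e]
    apply mul_le_mul_of_nonneg_right hμ
    have := h.hv.im1
    rw [hv] at this
    linarith only [this]
  linarith only [hμ', hcrit, hgain, hBP, k]

/-- The vertical over `2/5` with `re v_c ≤ 3/10`. -/
theorem gla_25 (hΦ : IsPhi Φ) (hθ : 1 / 3 ≤ θ) (hθ1 : θ < Real.pi / 2) (hb : 0 ≤ b) (hb2 : b ≤ 2)
    (hc0 : 0 ≤ (gdv (UU xc θ)).re) (hc : (gdv (UU xc θ)).re ≤ 3 / 10)
    (hμ : μ ≤ Real.pi * b / 5) : GLa Φ θ θ' xc b (2 / 5) v1' μ := by
  have hτ : 1 / 3 ≤ Real.tan θ := hθ.trans (Real.le_tan (by linarith only [hθ]) hθ1)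
  refine gla_crit hΦ (ρ := 1902 / 1000) (b0 := 2) hτ (by norm_num) (by norm_num) gain2_cos.2.2.2
    ?_ hb hb2 hc0 hc hμ
  intro s S h1 h0 h2 hS
  have hpi := Real.pi_pos
  have s1 : 1 / 10 ≤ s := by linarith only [h1]
  have h3 : 318 / 1000 * ((11 / 5 - 53 / 10 * s ^ 2) * s ^ 2) ≤
      (11 / 5 - 53 / 10 * s ^ 2) * s ^ 2 / Real.pi := by
    rw [le_div_iff₀ hpi]
    have hp2 := Real.pi_lt_d4
    have : 0 ≤ (11 / 5 - 53 / 10 * s ^ 2) * s ^ 2 := by
      apply mul_nonneg _ (sq_nonneg s)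
      linarith only [h2, mul_nonneg (sub_nonneg.2 h1) (sub_nonneg.2 h2)]
    linarith only [this, mul_nonneg (sub_nonneg.2 hp2.le) (sub_nonneg.2 this)]
  have a1 : 0 ≤ (s - 1 / 10) * (31 / 100 - s) := mul_nonneg (by linarith only [h1]) (by linarith only [h2])
  have a2 : 0 ≤ (s - 1 / 10) * (31 / 100 - s) * s := mul_nonneg a1 (by linarith only [h1])
  have a3 : 0 ≤ 6996 / 10000 * s - 4496 / 10000 * s ^ 2 - 16854 / 10000 * s ^ 3 -
      46416 / 1000000 := by linarith only [a2, a1, h1]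
  have a4 : 0 ≤ s * (6996 / 10000 * s - 4496 / 10000 * s ^ 2 - 16854 / 10000 * s ^ 3 -
      46416 / 1000000) := mul_nonneg (by linarith only [h1]) a3
  have a5 : 0 ≤ s ^ 3 := by positivity
  linarith only [a5, a4, h3, hS]

/-- The vertical over `2/5` with `re v_c ≤ 31/100`, `b ≤ 8/5`. -/
theorem gla_25' (hΦ : IsPhi Φ) (hτ : 535 / 1000 ≤ Real.tan θ) (hb : 0 ≤ b) (hb2 : b ≤ 8 / 5)
    (hc0 : 0 ≤ (gdv (UU xc θ)).re) (hc : (gdv (UU xc θ)).re ≤ 31 / 100)
    (hμ : μ ≤ Real.pi * b / 5) : GLa Φ θ θ' xc b (2 / 5) v1' μ := by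
  have hcos : 1815 / 1000 * Real.cos (Real.pi * (2 / 5)) ≤ Real.cos (Real.pi * (31 / 100)) := by
    obtain ⟨p1, p2, p3, p4⟩ := gain2_cos
    have hp1 := Real.pi_gt_d4
    have hp2 := Real.pi_lt_d4
    obtain ⟨x, hx⟩ : ∃ x, x = Real.pi / 100 := ⟨_, rfl⟩
    have e : Real.pi * (31 / 100) = Real.pi * (3 / 10) + x := by rw [hx]; ring
    have c1 := Real.one_sub_sq_div_two_le_cos (x := x)
    have c2 : Real.sin x ≤ x := Real.sin_le (by rw [hx]; positivity)
    have x1 : x ≤ 31416 / 1000000 := by rw [hx]; linarith only [hp2]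
    have x0 : 0 ≤ x := by rw [hx]; positivity
    have s1 : Real.sin (Real.pi * (3 / 10)) ≤ 8091 / 10000 := by
      have hsq := Real.sin_sq_add_cos_sq (Real.pi * (3 / 10))
      have h5 : 5876 / 10000 ≤ Real.cos (Real.pi * (3 / 10)) := by linarith only [p4, p3]
      by_contra hc
      push Not at hc
      linarith only [hsq, p4, p1, mul_pos (sub_pos.2 hc) (sub_pos.2 hc),
        mul_pos (sub_pos.2 hp2) (sub_pos.2 hc), mul_pos (sub_pos.2 hp2) (sub_pos.2 hp2),
        mul_pos (sub_pos.2 hp1) (sub_pos.2 hc), mul_pos (sub_pos.2 hp1) (sub_pos.2 hp2),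
        mul_pos (sub_pos.2 hp1) (sub_pos.2 hp1), mul_nonneg (sub_nonneg.2 p4) (sub_nonneg.2 p4),
        mul_nonneg (sub_nonneg.2 p3) (sub_nonneg.2 p4)]
    have s0 : 0 ≤ Real.sin (Real.pi * (3 / 10)) := Real.sin_nonneg_of_nonneg_of_le_pi
      (by positivity) (by linarith only [hp1])
    have s2 : 0 ≤ Real.sin x := Real.sin_nonneg_of_nonneg_of_le_pi x0 (by linarith only [hx, hp2,
                                                                            hp1])
    rw [e, Real.cos_add]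
    have m1 : Real.sin (Real.pi * (3 / 10)) * Real.sin x ≤ 8091 / 10000 * (31416 / 1000000) :=
      mul_le_mul s1 (c2.trans x1) s2 (by norm_num)
    have m2 : 1902 / 1000 * Real.cos (Real.pi * (2 / 5)) * (1 - x ^ 2 / 2) ≤
        Real.cos (Real.pi * (3 / 10)) * Real.cos x :=
      mul_le_mul p4 c1 (by (refine le_of_not_gt fun hng => ?_; linarith only [hx,
                             mul_nonneg (sub_nonneg.2 hx.le) (sub_nonneg.2 hx.le),
                             mul_nonneg (sub_nonneg.2 hx.ge) (sub_nonneg.2 hx.le),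
                             mul_pos (sub_pos.2 hp2) (sub_pos.2 hp2),
                             mul_nonneg (sub_nonneg.2 hp1.le) (sub_nonneg.2 hx.le),
                             mul_nonneg (sub_nonneg.2 hp1.le) (sub_nonneg.2 hx.ge),
                             mul_pos (sub_pos.2 hp1) (sub_pos.2 hp2),
                             mul_pos (sub_pos.2 hp1) (sub_pos.2 hp1),
                             mul_pos (sub_pos.2 hng) (sub_pos.2 hp2),
                             mul_pos (sub_pos.2 hng) (sub_pos.2 hp1)])) (by linarith only [p4, p3])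
    have m3 : x ^ 2 ≤ 1 / 1000 := by (refine le_of_not_gt fun hng => ?_; linarith only [hx,
                                       mul_nonneg (sub_nonneg.2 hx.le) (sub_nonneg.2 hx.le),
                                       mul_nonneg (sub_nonneg.2 hx.ge) (sub_nonneg.2 hx.le),
                                       mul_pos (sub_pos.2 hp2) (sub_pos.2 hp2),
                                       mul_nonneg (sub_nonneg.2 hp1.le) (sub_nonneg.2 hx.le),
                                       mul_nonneg (sub_nonneg.2 hp1.le) (sub_nonneg.2 hx.ge),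
                                       mul_pos (sub_pos.2 hp1) (sub_pos.2 hp2),
                                       mul_pos (sub_pos.2 hp1) (sub_pos.2 hp1),
                                       mul_pos (sub_pos.2 hng) (sub_pos.2 hp2),
                                       mul_pos (sub_pos.2 hng) (sub_pos.2 hp1)])
    have m4 : 1902 / 1000 * Real.cos (Real.pi * (2 / 5)) * (1 - 1 / 2000) ≤
        1902 / 1000 * Real.cos (Real.pi * (2 / 5)) * (1 - x ^ 2 / 2) :=
      mul_le_mul_of_nonneg_left (by linarith only [m3]) (by linarith only [p3])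
    linarith only [m4, m2, m1, hp2, hp1, p3]
  refine gla_crit hΦ (ρ := 1815 / 1000) (b0 := 8 / 5) hτ (by norm_num) (by norm_num) hcos
    ?_ hb hb2 hc0 hc hμ
  intro s S h1 h0 h2 hS
  have hpi := Real.pi_pos
  have s1 : 16 / 100 ≤ s := by linarith only [h1]
  have h3 : 318 / 1000 * ((11 / 5 - 53 / 10 * s ^ 2) * s ^ 2) ≤
      (11 / 5 - 53 / 10 * s ^ 2) * s ^ 2 / Real.pi := by
    rw [le_div_iff₀ hpi]
    have hp2 := Real.pi_lt_d4
    have : 0 ≤ (11 / 5 - 53 / 10 * s ^ 2) * s ^ 2 := by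
      apply mul_nonneg _ (sq_nonneg s)
      linarith only [h2, mul_nonneg (sub_nonneg.2 h1) (sub_nonneg.2 h2)]
    linarith only [this, mul_nonneg (sub_nonneg.2 hp2.le) (sub_nonneg.2 this)]
  have a1 : 0 ≤ (s - 16 / 100) * (31 / 100 - s) := mul_nonneg (by linarith only [h1]) (by linarith only [h2])
  have a2 : 0 ≤ (s - 16 / 100) * (31 / 100 - s) * s := mul_nonneg a1 (by linarith only [h1])
  have a3 : 0 ≤ 6996 / 10000 * s - 28126 / 100000 * s ^ 2 - 16854 / 10000 * s ^ 3 -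
      89975 / 1000000 := by linarith only [a2, a1, h1]
  have a4 : 0 ≤ s * (6996 / 10000 * s - 28126 / 100000 * s ^ 2 - 16854 / 10000 * s ^ 3 -
      89975 / 1000000) := mul_nonneg (by linarith only [h1]) a3
  have a5 : 0 ≤ s ^ 3 := by positivity
  linarith only [a5, a4, h3, hS, h1]

end

end Pool.Agent.S3.T2
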