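import Pool.Agent.S3.W2.Scheme

/-!
# The left vertical of a flat, when the abscissa of the first vertex is the larger one
-/

set_option autoImplicit false

namespace Pool.Agent.S3

open Complex Set

theorem pat_alg {x y : ℝ} (h0 : 0 ≤ x) (h1 : x ≤ y) (h2 : y ≤ 1 / 2) :
    x * (1 + x) * (1 + (y - x)) ^ 2 ≤ y * (1 + y) := by
  have hx : x ≤ 1 / 2 := h1.trans h2
  obtain ⟨d, hd⟩ : ∃ d, d = y - x := ⟨_, rfl⟩
  have d0 : 0 ≤ d := by linarith
  have hy : y = x + d := by linarith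
  rw [← hd, hy]
  have e : (x + d) * (1 + (x + d)) - x * (1 + x) * (1 + d) ^ 2 =
      d * ((1 - 2 * x ^ 2) + d * (1 - x - x ^ 2)) := by ring
  have e1 : 0 ≤ 1 - 2 * x ^ 2 := by nlinarith
  have e2 : 0 ≤ 1 - x - x ^ 2 := by nlinarith
  have := mul_nonneg d0 (add_nonneg e1 (mul_nonneg d0 e2))
  linarith

/-- The sign pattern. -/
theorem left_pat {a b a' b' : ℝ} (ha : 1 / 4 ≤ a) (ha1 : a ≤ 2 / 5) (ha' : 0 ≤ a') (haa : a' ≤ a)
    (hb : 0 ≤ b) (hb' : 0 ≤ b')
    (hs : Real.cos (Real.pi * a') ^ 2 ≤ 1 / 2 → Real.sinh (Real.pi * b') ^ 2 ≤ 1 / 2) :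
    pp a' b' ≤ pp a b ∨ pp a b - pp a' b' ≤ pp a b * kr a' b' - pp a' b' * kr a b := by
  have hpi := Real.pi_pos
  have ca0 : 0 < Real.cos (Real.pi * a) := cos_pos_of (by linarith) (by linarith)
  have ca1 : 0 < Real.cos (Real.pi * a') := cos_pos_of (by linarith) (by linarith)
  have sa0 : 0 ≤ Real.sin (Real.pi * a) :=
    Real.sin_nonneg_of_nonneg_of_le_pi (by positivity) (by nlinarith)
  have sa1 : 0 ≤ Real.sin (Real.pi * a') :=
    Real.sin_nonneg_of_nonneg_of_le_pi (by positivity) (by nlinarith)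
  have xb0 : 0 ≤ Real.sinh (Real.pi * b) := Real.sinh_nonneg_iff.2 (by positivity)
  have xb1 : 0 ≤ Real.sinh (Real.pi * b') := Real.sinh_nonneg_iff.2 (by positivity)
  have kb0 := Real.cosh_pos (Real.pi * b)
  have kb1 := Real.cosh_pos (Real.pi * b')
  have p0 : 0 ≤ pp a b := by unfold pp; positivity
  have p1 : 0 ≤ pp a' b' := by unfold pp; positivity
  obtain ⟨C, hC⟩ : ∃ C, C = Real.cos (Real.pi * a) ^ 2 := ⟨_, rfl⟩
  obtain ⟨X, hX⟩ : ∃ X, X = Real.sinh (Real.pi * b) ^ 2 := ⟨_, rfl⟩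
  obtain ⟨C', hC'⟩ : ∃ C, C = Real.cos (Real.pi * a') ^ 2 := ⟨_, rfl⟩
  obtain ⟨X', hX'⟩ : ∃ X, X = Real.sinh (Real.pi * b') ^ 2 := ⟨_, rfl⟩
  have X0 : 0 ≤ X := by rw [hX]; positivity
  have X0' : 0 ≤ X' := by rw [hX']; positivity
  have C0 : 0 < C := by rw [hC]; positivity
  have CC : C ≤ C' := by
    rw [hC, hC']
    exact pow_le_pow_left₀ ca0.le (Real.cos_le_cos_of_nonneg_of_le_pi (by positivity) (by nlinarith)
      (mul_le_mul_of_nonneg_left haa hpi.le)) 2
  have C2 : C ≤ 1 / 2 := by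
    have h1 : Real.cos (Real.pi * a) ≤ Real.cos (Real.pi / 4) :=
      Real.cos_le_cos_of_nonneg_of_le_pi (by positivity) (by nlinarith) (by nlinarith)
    have h2 := pow_le_pow_left₀ ca0.le h1 2
    rw [Real.cos_pi_div_four, div_pow, Real.sq_sqrt (by norm_num)] at h2
    rw [hC]
    norm_num at h2
    linarith
  have k0 : kr a b = C + X * (2 * C - 1) := by
    unfold kr
    rw [Real.cosh_sq, hC, hX]
    have : Real.sin (Real.pi * a) ^ 2 = 1 - Real.cos (Real.pi * a) ^ 2 := by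
      linarith [Real.sin_sq_add_cos_sq (Real.pi * a)]
    rw [this]; ring
  have k1 : kr a' b' = C' + X' * (2 * C' - 1) := by
    unfold kr
    rw [Real.cosh_sq, hC', hX']
    have : Real.sin (Real.pi * a') ^ 2 = 1 - Real.cos (Real.pi * a') ^ 2 := by
      linarith [Real.sin_sq_add_cos_sq (Real.pi * a')]
    rw [this]; ring
  have q0 : pp a b ^ 2 = C * (1 - C) * (X * (1 + X)) := by
    have e1 : Real.sin (Real.pi * a) ^ 2 = 1 - C := by
      rw [hC]; linarith [Real.sin_sq_add_cos_sq (Real.pi * a)]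
    have e2 : Real.cosh (Real.pi * b) ^ 2 = 1 + X := by rw [hX, Real.cosh_sq]; ring
    calc pp a b ^ 2 = Real.sin (Real.pi * a) ^ 2 * Real.cos (Real.pi * a) ^ 2 *
          (Real.sinh (Real.pi * b) ^ 2 * Real.cosh (Real.pi * b) ^ 2) := by unfold pp; ring
      _ = _ := by rw [e1, e2, ← hC, ← hX]; ring
  have q1 : pp a' b' ^ 2 = C' * (1 - C') * (X' * (1 + X')) := by
    have e1 : Real.sin (Real.pi * a') ^ 2 = 1 - C' := by
      rw [hC']; linarith [Real.sin_sq_add_cos_sq (Real.pi * a')]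
    have e2 : Real.cosh (Real.pi * b') ^ 2 = 1 + X' := by rw [hX', Real.cosh_sq]; ring
    calc pp a' b' ^ 2 = Real.sin (Real.pi * a') ^ 2 * Real.cos (Real.pi * a') ^ 2 *
          (Real.sinh (Real.pi * b') ^ 2 * Real.cosh (Real.pi * b') ^ 2) := by unfold pp; ring
      _ = _ := by rw [e1, e2, ← hC', ← hX']; ring
  rcases le_total (pp a' b') (pp a b) with h | h
  · exact Or.inl h
  right
  have kle : kr a b ≤ C := by rw [k0]; nlinarith
  rcases le_total (kr a b) (kr a' b') with h2 | h2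
  · have h3 : pp a b * (1 - kr a' b') ≤ pp a b * (1 - kr a b) :=
      mul_le_mul_of_nonneg_left (by linarith) p0
    have h4 : pp a b * (1 - kr a b) ≤ pp a' b' * (1 - kr a b) :=
      mul_le_mul_of_nonneg_right h (by linarith)
    linarith
  · -- `C' < 1/2`
    have C3 : C' ≤ 1 / 2 := by
      by_contra hc
      push Not at hc
      rw [k1] at h2
      nlinarith
    rw [k0, k1] at h2
    have XX : X ≤ X' := by
      by_contra hc
      push Not at hc
      nlinarith
    have Xh : X' ≤ 1 / 2 := by rw [hX']; rw [hC'] at C3; exact hs C3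
    have hk : 1 - kr a' b' ≤ (1 - kr a b) * (1 + (X' - X)) := by
      have e1 : kr a b - kr a' b' ≤ (1 - 2 * C') * (X' - X) := by
        rw [k0, k1]; nlinarith
      have e2 : (1 - 2 * C') * (X' - X) ≤ (1 - kr a b) * (X' - X) :=
        mul_le_mul_of_nonneg_right (by linarith) (by linarith)
      linarith
    have hk0 : 0 ≤ 1 - kr a' b' := by
      rw [k1]; rw [k0] at kle; linarith
    have hk1 : 0 ≤ 1 - kr a b := by linarith
    have key : (pp a b * (1 - kr a' b')) ^ 2 ≤ (pp a' b' * (1 - kr a b)) ^ 2 := by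
      rw [mul_pow, mul_pow, q0, q1]
      have s1 : (1 - kr a' b') ^ 2 ≤ (1 - kr a b) ^ 2 * (1 + (X' - X)) ^ 2 := by
        rw [← mul_pow]; exact pow_le_pow_left₀ hk0 hk 2
      have s2 : C * (1 - C) ≤ C' * (1 - C') := by nlinarith
      have s3 := pat_alg X0 XX Xh
      have s4 : 0 ≤ C * (1 - C) * (X * (1 + X)) := by
        apply mul_nonneg <;> apply mul_nonneg <;> linarith
      calc C * (1 - C) * (X * (1 + X)) * (1 - kr a' b') ^ 2 ≤
            C * (1 - C) * (X * (1 + X)) * ((1 - kr a b) ^ 2 * (1 + (X' - X)) ^ 2) :=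
            mul_le_mul_of_nonneg_left s1 s4
        _ = C * (1 - C) * (X * (1 + X) * (1 + (X' - X)) ^ 2) * (1 - kr a b) ^ 2 := by ring
        _ ≤ C' * (1 - C') * (X' * (1 + X')) * (1 - kr a b) ^ 2 := by
            apply mul_le_mul_of_nonneg_right _ (sq_nonneg _)
            apply mul_le_mul s2 s3
            · apply mul_nonneg
              · apply mul_nonneg <;> linarith
              · positivity
            · apply mul_nonneg <;> linarith
    have := (pow_le_pow_iff_left₀ (mul_nonneg p0 hk0) (mul_nonneg p1 hk1) two_ne_zero).1 key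
    linarith

/-- The left vertical. -/
theorem left_dir {v w : ℂ} (hv0 : 1 / 4 ≤ v.re) (hv1 : v.re ≤ 2 / 5) (hvi : 0 ≤ v.im)
    (hw0 : 0 ≤ w.re) (hwv : w.re ≤ v.re) (hwi : 0 ≤ w.im)
    (hs : Real.sinh (Real.pi * w.im) ^ 2 ≤ 923 / 1000 * Real.cos (Real.pi * w.re) ^ 2)
    {H Y : ℝ} (h0 : 0 ≤ Y) (h1 : Y ≤ H) :
    EE (.op v) (.op ((starRingEnd ℂ) w)) ((Y : ℂ) * I) ≤
      max (Real.pi * (v.im + w.im))
        (EE (.op v) (.op ((starRingEnd ℂ) w)) (((0 : ℝ) : ℂ) + (H : ℂ) * I)) := by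
  have eE : ∀ (Y : ℝ), EE (.op v) (.op ((starRingEnd ℂ) w)) (((0 : ℝ) : ℂ) + Y * I) =
      gE v.re v.im w.re w.im Y := by
    intro Y
    have ew : (starRingEnd ℂ) w = (w.re : ℂ) + ((-w.im : ℝ) : ℂ) * I := by
      conv_lhs => rw [← re_add_im w]
      exact conj_line _ _
    rw [gE, re_add_im, ew]
  have e0 : ((Y : ℝ) : ℂ) * I = ((0 : ℝ) : ℂ) + (Y : ℂ) * I := by
    rw [ofReal_zero, zero_add]
  rw [e0, eE, eE, ← EE_zero (a := v.re) (a' := w.re) hvi hwi]
  rcases hw0.lt_or_eq with hp | hp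
  · exact gE_le (by linarith) (by linarith) hp (by linarith) hvi hwi h0 h1
      (left_pat hv0 hv1 hw0 hwv hvi hwi (fun h => by linarith))
  · -- `w.re = 0`: limit
    rw [← hp]
    have cE : ∀ y : ℝ, Continuous fun t : ℝ => gE v.re v.im t w.im y := by
      intro y
      have c1 : Continuous fun t : ℝ => (((0 : ℝ) : ℂ) + (y : ℂ) * I,
          ((t : ℝ) : ℂ) + ((-w.im : ℝ) : ℂ) * I) := by fun_prop
      have r := Rf_continuous
      unfold gE EE se
      fun_prop
    have hev : ∀ᶠ t in nhdsWithin (0 : ℝ) (Ioi 0), gE v.re v.im t w.im Y ≤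
        max (gE v.re v.im t w.im 0) (gE v.re v.im t w.im H) := by
      filter_upwards [Ioo_mem_nhdsGT (show (0 : ℝ) < 1 / 4 by norm_num)] with t ht
      refine gE_le (by linarith) (by linarith) ht.1 (by linarith [ht.2]) hvi hwi h0 h1
        (left_pat hv0 hv1 ht.1.le (by linarith [ht.2]) hvi hwi (fun h => ?_))
      exfalso
      have hpi := Real.pi_pos
      have h3 : Real.cos (Real.pi / 4) < Real.cos (Real.pi * t) :=
        Real.cos_lt_cos_of_nonneg_of_le_pi_div_two (by nlinarith [ht.1]) (by nlinarith)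
          (by nlinarith [ht.2])
      have h4 := pow_lt_pow_left₀ h3 (Real.cos_nonneg_of_mem_Icc ⟨by linarith, by linarith⟩)
        two_ne_zero
      rw [Real.cos_pi_div_four, div_pow, Real.sq_sqrt (by norm_num)] at h4
      norm_num at h4
      linarith
    have l1 : Filter.Tendsto (fun t => gE v.re v.im t w.im Y) (nhdsWithin (0 : ℝ) (Ioi 0))
        (nhds (gE v.re v.im 0 w.im Y)) := ((cE Y).tendsto 0).mono_left nhdsWithin_le_nhds
    have l2 : Filter.Tendsto (fun t => max (gE v.re v.im t w.im 0) (gE v.re v.im t w.im H))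
        (nhdsWithin (0 : ℝ) (Ioi 0)) (nhds (max (gE v.re v.im 0 w.im 0) (gE v.re v.im 0 w.im H))) :=
      (((cE 0).max (cE H)).tendsto 0).mono_left nhdsWithin_le_nhds
    exact le_of_tendsto_of_tendsto l1 l2 hev

end Pool.Agent.S3
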