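import Pool.Agent.S3.W2.Ang

/-!
# The interval test of phase 1

Variables `p = tan πa`, `b = tanh πβ`, `z = tan (πt/2)`, `k = tanh πh`.
-/

set_option autoImplicit false

namespace Pool.Agent.S3.P1

open Real Pool.Agent.S3.NI Pool.Agent.S3.T2

/-- Parameters: the rectangle of `c_w`, the range of `S²`, of `sinh² πh / S²`. -/
structure Par where
  r : N
  i : N
  slo : ℕ
  shi : ℕ
  klo : ℕ
  khi : ℕ

/-- The type of the last comparison: `S²`, `T`, `S2`, lower bounds of the logarithm and the angle. -/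
abbrev Fn := N → N → N → ℕ → ℕ × ℕ → Bool

def u3 : N := ⟨357913941, 357913942⟩
def u5 : N := ⟨214748364, 214748365⟩
def u7 : N := ⟨153391689, 153391690⟩

/-- lower bound of the angle: positive part, negative part -/
def al2 (Rp Rn Ip In : N) : ℕ × ℕ :=
  bif Nat.ble (Nat.succ Rp.hi) Rn.lo then
    (bif Nat.ble Ip.hi In.lo then (3373259426, 0)
      else (Nat.sub 3373259426 (qUp (Nat.sub Ip.hi In.lo) (Nat.sub Rn.lo Rp.hi)), 0))
  else bif Nat.ble (Nat.succ In.hi) Ip.lo then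
    (Nat.sub 1686629713 (qUp (Nat.sub Rp.hi Rn.lo) (Nat.sub Ip.lo In.hi)), 0)
  else bif Nat.ble (Nat.succ Rn.hi) Rp.lo then
    (0, qUp (Nat.sub In.hi Ip.lo) (Nat.sub Rp.lo Rn.hi))
  else (0, 1686629714)

def s2N (b b2 b4 ip2 : N) : N :=
  N.mul b (N.sub (N.add (N.add (N.add (N.add two (N.mul b2 u3)) (N.mul b4 u5)) (N.mul (N.mul b2
  b4) (N.mul u7 (N.inv (N.sub one b2))))) (N.mul (N.sq ip2) u5)) (N.mul ip2 u3))

/-- The last comparison: `cn / cd * S2 + d0 - d1 S² - g T ≤ L + T α / 2`. -/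
def fin (cn cd d0 d1 g : ℕ) (S2 T s2 : N) (q : ℕ) (α : ℕ × ℕ) : Bool :=
  Nat.ble (Nat.add (Nat.mul cn s2.hi) (Nat.mul cd (Nat.add d0
      (Nat.succ (Nat.div (Nat.mul T.hi (Nat.succ (Nat.div α.2 2))) 1073741824)))))
    (Nat.mul cd (Nat.add (Nat.add q (Nat.div (Nat.mul T.lo (Nat.add (Nat.div α.1 2) g))
      1073741824)) (Nat.div (Nat.mul d1 S2.lo) 1073741824)))

def fRp (o b2k St2 p2 : N) : N :=
  N.add (N.mul o St2) (N.mul b2k (N.mul St2 p2))

def fRn (o b2k Ct2 p2 : N) : N :=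
  N.add (N.mul o (N.mul Ct2 p2)) (N.mul b2k Ct2)

def fIp (b k2 cs p2 : N) : N :=
  N.mul (N.mul (N.add b b) (N.sub one k2)) (N.mul cs (N.add one p2))

def fIn (k b2 p n2 : N) : N :=
  N.mul (N.mul (N.add k k) (N.sub one b2)) (N.mul p n2)

def t8 (F : Fn) (p b k p2 b2 k2 S2 n2 kb2 St2 Ct2 cs : N) (y : ℕ) : Bool :=
  bif Nat.ble y 1073741823 then false else F S2 (N.mul p b) (s2N b b2 (N.sq b2) (N.inv p2))
  (Nat.div (lnLo 12 y) 4) (al2 (fRp (N.sub one kb2) (N.sub b2 k2) St2 p2) (fRn (N.sub one kb2)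
  (N.sub b2 k2) Ct2 p2) (fIp b k2 cs p2) (fIn k b2 p n2))

def t7 (F : Fn) (P : Par) (p b k p2 b2 k2 S2 n2 kb2 St2 Ct2 cs E2 d2 W2 lhs rhs : N) : Bool :=
  bif Nat.ble (Nat.succ lhs.hi) rhs.lo || Nat.ble (Nat.succ rhs.hi) lhs.lo then true else bif
  Nat.ble lhs.hi 0 || Nat.ble d2.hi 0 then false else t8 F p b k p2 b2 k2 S2 n2 kb2 St2 Ct2 cs
  (mx (Nat.div (Nat.mul E2.lo 1073741824) d2.hi) (Nat.div (Nat.mul (N.lo (N.mul (N.sq E2) W2))
  1073741824) lhs.hi))

def t6 (F : Fn) (P : Par) (p b k p2 b2 k2 S2 n2 kb2 St2 Ct2 cs E2 d2 W2 G Ny : N) : Bool :=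
  t7 F P p b k p2 b2 k2 S2 n2 kb2 St2 Ct2 cs E2 d2 W2 (N.sq (N.mul (N.sq Ny) G)) (N.mul (N.mul
  E2 d2) W2)

def fW (P : Par) (M Sk Ct2 Y : N) : N :=
  N.add (N.sq (N.ad (N.add (N.mul M P.r) Sk) Ct2)) (N.sq (N.add (N.mul M P.i) Y))

def t5 (F : Fn) (P : Par) (p b k p2 b2 k2 S2 n2 kb2 St2 Ct2 cs E2 d2 M Sk csk : N) : Bool :=
  t6 F P p b k p2 b2 k2 S2 n2 kb2 St2 Ct2 cs E2 d2 (fW P M Sk Ct2 (N.add csk csk)) (N.mul (N.add
  one p2) (N.sub one b2)) (N.add Ct2 Sk)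

def t4 (F : Fn) (P : Par) (p b k p2 b2 k2 S2 St Ct n2 kb pc ps St2 Ct2 cs : N) : Bool :=
  t5 F P p b k p2 b2 k2 S2 n2 (N.sq kb) St2 Ct2 cs (N.add (N.mul (N.sq (N.add one kb)) (N.sq
  (N.add St pc))) (N.mul (N.sq (N.add k b)) (N.sq (N.ad Ct ps)))) (N.add (N.mul (N.sq (N.sub one
  kb)) (N.sq (N.ad St pc))) (N.mul (N.sq (N.sub b k)) (N.sq (N.add Ct ps)))) (N.mul n2 (N.sub
  one k2)) (N.mul St2 k2) (N.mul cs k)

def t3 (F : Fn) (P : Par) (p b k p2 b2 k2 S2 St Ct n2 kb : N) : Bool :=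
  t4 F P p b k p2 b2 k2 S2 St Ct n2 kb (N.mul Ct p) (N.mul St p) (N.sq St) (N.sq Ct) (N.mul Ct
  St)

def t2 (F : Fn) (P : Par) (p b z k p2 b2 k2 z2 S2 H2 : N) : Bool :=
  bif Nat.ble (Nat.succ S2.hi) P.slo || Nat.ble (Nat.succ P.shi) S2.lo then true else bif
  Nat.ble (Nat.succ H2.hi) (Nat.div (Nat.mul P.klo S2.lo) 1073741824) || Nat.ble (Nat.succ
  (Nat.succ (Nat.div (Nat.mul P.khi S2.hi) 1073741824))) H2.lo then true else bif Nat.ble
  (Nat.succ (Nat.mul 19 b.hi)) (Nat.mul 20 k.lo) then true else t3 F P p b k p2 b2 k2 S2 (N.add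
  z z) (N.sub one z2) (N.sq (N.add one z2)) (N.mul k b)

def t1 (F : Fn) (P : Par) (p b z k p2 b2 k2 z2 : N) : Bool :=
  bif N.ps (N.sub one b2) && N.ps (N.sub one k2) && N.ps p2 then t2 F P p b z k p2 b2 k2 z2
  (N.mul (N.mul b2 (N.add one p2)) (N.inv (N.sub one b2))) (N.mul k2 (N.inv (N.sub one k2)))
  else false

/-- The test. -/
def test (F : Fn) (P : Par) (p b z k : N) : Bool :=
  t1 F P p b z k (N.sq p) (N.sq b) (N.sq k) (N.sq z)

/-! ### Soundness -/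

theorem mem_u3 : Mem (1 / 3) u3 := by constructor <;> norm_num [u3]
theorem mem_u5 : Mem (1 / 5) u5 := by constructor <;> norm_num [u5]
theorem mem_u7 : Mem (1 / 7) u7 := by constructor <;> norm_num [u7]

theorem ble_false {a b : ℕ} (h : Nat.ble a b = false) : b < a := by
  by_contra hc
  have : Nat.ble a b = true := by rw [Nat.ble_eq]; omega
  rw [h] at this
  exact absurd this (by decide)

theorem al2_sound {rp rn ip im α : ℝ} {Rp Rn Ip In : N} (h1 : Mem rp Rp) (h2 : Mem rn Rn)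
    (h3 : Mem ip Ip) (h4 : Mem im In) (h : Ang α (rp - rn) (ip - im)) :
    ((al2 Rp Rn Ip In).1 : ℝ) - ((al2 Rp Rn Ip In).2 : ℝ) ≤ α * 1073741824 := by
  have p1 := pi_lo
  have p2 := pi_hi
  unfold al2
  rcases e1 : Nat.ble (Nat.succ Rp.hi) Rn.lo with _ | _
  · rw [cond_false]
    rcases e2 : Nat.ble (Nat.succ In.hi) Ip.lo with _ | _
    · rw [cond_false]
      rcases e3 : Nat.ble (Nat.succ Rn.hi) Rp.lo with _ | _
      · rw [cond_false]
        simp only [Nat.cast_zero, zero_sub, Nat.cast_ofNat]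
        nlinarith [h.lo]
      · rw [cond_true]
        rw [Nat.ble_eq] at e3
        have hR : 0 < rp - rn := by
          have : (Rn.hi : ℝ) + 1 ≤ Rp.lo := by exact_mod_cast e3
          nlinarith [h1.1, h2.2]
        have hb : 0 < Nat.sub Rp.lo Rn.hi := by
          have : Nat.sub Rp.lo Rn.hi = Rp.lo - Rn.hi := rfl
          rw [this]
          omega
        have k := le_qUp (x := im - ip) (y := rp - rn) hb
          (le_nsub (a := In.hi) (b := Ip.lo) (u := (im - ip) * 1073741824)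
            (by linarith [h3.1, h4.2]))
          (nsub_le (a := Rp.lo) (b := Rn.hi) (u := (rp - rn) * 1073741824)
            (by linarith [h1.1, h2.2]) (by positivity))
        have e : (im - ip) / (rp - rn) = -((ip - im) / (rp - rn)) := by
          rw [← neg_div]; congr 1; ring
        rw [e, arctan_neg] at k
        rw [h.of_pos hR]
        simp only [Nat.cast_zero, zero_sub]
        linarith
    · rw [cond_true]
      rw [Nat.ble_eq] at e2
      have hI : 0 < ip - im := by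
        have : (In.hi : ℝ) + 1 ≤ Ip.lo := by exact_mod_cast e2
        nlinarith [h3.1, h4.2]
      have hb : 0 < Nat.sub Ip.lo In.hi := by
        have : Nat.sub Ip.lo In.hi = Ip.lo - In.hi := rfl
        rw [this]
        omega
      have k := le_qUp (x := rp - rn) (y := ip - im) hb
        (le_nsub (a := Rp.hi) (b := Rn.lo) (u := (rp - rn) * 1073741824)
          (by linarith [h1.2, h2.1]))
        (nsub_le (a := Ip.lo) (b := In.hi) (u := (ip - im) * 1073741824)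
          (by linarith [h3.1, h4.2]) (by positivity))
      rw [Nat.cast_zero, sub_zero]
      have hα : 0 < α := by
        rw [h.of_im hI]
        linarith [arctan_lt_pi_div_two ((rp - rn) / (ip - im))]
      refine nsub_le ?_ (by positivity)
      rw [Nat.cast_ofNat, h.of_im hI]
      linarith
  · rw [cond_true]
    rw [Nat.ble_eq] at e1
    have hR : rp - rn < 0 := by
      have : (Rp.hi : ℝ) + 1 ≤ Rn.lo := by exact_mod_cast e1
      nlinarith [h1.2, h2.1]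
    have hα := h.of_neg_lt hR
    rcases e2 : Nat.ble Ip.hi In.lo with _ | _
    · rw [cond_false]
      have hb : 0 < Nat.sub Rn.lo Rp.hi := by
        have : Nat.sub Rn.lo Rp.hi = Rn.lo - Rp.hi := rfl
        rw [this]
        omega
      have k := le_qUp (x := ip - im) (y := -(rp - rn)) hb
        (le_nsub (a := Ip.hi) (b := In.lo) (u := (ip - im) * 1073741824)
          (by linarith [h3.2, h4.1]))
        (nsub_le (a := Rn.lo) (b := Rp.hi) (u := -(rp - rn) * 1073741824)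
          (by linarith [h1.2, h2.1]) (by nlinarith))
      rw [Nat.cast_zero, sub_zero]
      refine nsub_le ?_ (by nlinarith [pi_pos])
      rw [Nat.cast_ofNat, h.of_neg hR]
      linarith
    · rw [cond_true]
      rw [Nat.ble_eq] at e2
      have hI : ip - im ≤ 0 := by
        have : (Ip.hi : ℝ) ≤ In.lo := by exact_mod_cast e2
        nlinarith [h3.2, h4.1]
      rw [h.of_neg hR]
      have : arctan ((ip - im) / -(rp - rn)) ≤ 0 := by
        rw [← arctan_zero]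
        apply arctan_strictMono.monotone
        exact div_nonpos_of_nonpos_of_nonneg hI (by linarith)
      simp only [Nat.cast_zero, sub_zero, Nat.cast_ofNat]
      nlinarith

theorem mem_s2N {p b : ℝ} {B B2 B4 IP : N} (h1 : Mem b B) (h2 : Mem (b ^ 2) B2)
    (h4 : Mem ((b ^ 2) ^ 2) B4) (hp : Mem (p ^ 2)⁻¹ IP) (hb : b ^ 2 ≤ 1)
    (hps : N.ps (N.sub one B2) = true) (p1 : 1 ≤ p) : Mem (s2R p b) (s2N B B2 B4 IP) := by
  have k1 := (mem_one.sub h2 hb).inv hps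
  have hm : (p ^ 2)⁻¹ * (1 / 3) ≤ 2 + b ^ 2 * (1 / 3) + (b ^ 2) ^ 2 * (1 / 5) +
      b ^ 2 * (b ^ 2) ^ 2 * (1 / 7 * (1 - b ^ 2)⁻¹) + ((p ^ 2)⁻¹) ^ 2 * (1 / 5) := by
    have e1 : (p ^ 2)⁻¹ ≤ 1 := inv_le_one_of_one_le₀ (by nlinarith)
    have e2 : 0 ≤ (p ^ 2)⁻¹ := by positivity
    have e3 : 0 ≤ (1 - b ^ 2)⁻¹ := inv_nonneg.2 (by linarith)
    have e4 : 0 ≤ b ^ 2 * (b ^ 2) ^ 2 * (1 / 7 * (1 - b ^ 2)⁻¹) := by positivity
    have e5 : 0 ≤ ((p ^ 2)⁻¹) ^ 2 * (1 / 5) := by positivity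
    nlinarith [sq_nonneg b, sq_nonneg (b ^ 2)]
  exact h1.mul ((((((mem_two.add (h2.mul mem_u3)).add (h4.mul mem_u5)).add
    ((h2.mul h4).mul (mem_u7.mul k1))).add (hp.sq.mul mem_u5))).sub (hp.mul mem_u3) hm)

theorem fin_sound {cn cd d0 d1 g : ℕ} {s T s2 L α : ℝ} {S2 TN s2I : N} {q : ℕ} {an : ℕ × ℕ}
    (hcd : 0 < cd) (h : fin cn cd d0 d1 g S2 TN s2I q an = true) (h1 : Mem s S2) (h2 : Mem T TN)
    (h3 : Mem s2 s2I) (hq : (q : ℝ) ≤ L * 1073741824)
    (hα : (an.1 : ℝ) - an.2 ≤ α * 1073741824) :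
    (cn : ℝ) / cd * s2 + d0 / 1073741824 - d1 / 1073741824 * s - T * (g / 1073741824) ≤
      L + T * (α / 2) := by
  unfold fin at h
  rw [Nat.ble_eq] at h
  have hR : ((Nat.add (Nat.mul cn s2I.hi) (Nat.mul cd (Nat.add d0
      (Nat.succ (Nat.div (Nat.mul TN.hi (Nat.succ (Nat.div an.2 2))) 1073741824)))) : ℕ) : ℝ) ≤
    ((Nat.mul cd (Nat.add (Nat.add q (Nat.div (Nat.mul TN.lo (Nat.add (Nat.div an.1 2) g))
      1073741824)) (Nat.div (Nat.mul d1 S2.lo) 1073741824)) : ℕ) : ℝ) := by exact_mod_cast h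
  simp only [cast_mul', cast_add'] at hR
  have a1 := le_succ_div (Nat.mul TN.hi (Nat.succ (Nat.div an.2 2))) (d := 1073741824) (by norm_num)
  have a2 := nat_div_le (Nat.mul TN.lo (Nat.add (Nat.div an.1 2) g)) 1073741824
  have a3 := nat_div_le (Nat.mul d1 S2.lo) 1073741824
  have a4 := nat_div_le an.1 2
  have a5 := le_succ_div an.2 (d := 2) (by norm_num)
  rw [cast_mul', Nat.cast_ofNat] at a1 a3
  rw [cast_mul', cast_add', Nat.cast_ofNat] at a2
  rw [Nat.cast_ofNat] at a4 a5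
  have T0 := h2.nonneg
  have hTlo : (0 : ℝ) ≤ TN.lo := TN.lo.cast_nonneg
  have hThi : (0 : ℝ) ≤ TN.hi := TN.hi.cast_nonneg
  have n1 : (0 : ℝ) ≤ an.1 := an.1.cast_nonneg
  have n2 : (0 : ℝ) ≤ an.2 := an.2.cast_nonneg
  have ng : (0 : ℝ) ≤ g := g.cast_nonneg
  have ncd : (0 : ℝ) < cd := by exact_mod_cast hcd
  have ncn : (0 : ℝ) ≤ cn := cn.cast_nonneg
  have nd : (0 : ℝ) ≤ ((Nat.div an.1 2 : ℕ) : ℝ) := Nat.cast_nonneg _
  -- lower part
  have b1 : (TN.lo : ℝ) * (((Nat.div an.1 2 : ℕ) : ℝ) + g) ≤ T * 1073741824 * (an.1 / 2 + g) :=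
    mul_le_mul h2.1 (by linarith) (by positivity) (by positivity)
  have b2 : T * 1073741824 * (an.2 / 2) ≤
      (TN.hi : ℝ) * ((Nat.succ (Nat.div an.2 2) : ℕ) : ℝ) :=
    mul_le_mul h2.2 a5 (by positivity) hThi
  have b3 : (d1 : ℝ) * S2.lo ≤ d1 * (s * 1073741824) :=
    mul_le_mul_of_nonneg_left h1.1 d1.cast_nonneg
  have c1 := mul_le_mul_of_nonneg_left h3.2 ncn
  have c2 : T * (an.1 - an.2) ≤ T * (α * 1073741824) := mul_le_mul_of_nonneg_left hα T0
  have e1 : (TN.lo : ℝ) * (((Nat.div an.1 2 : ℕ) : ℝ) + g) / 1073741824 ≤ T * (an.1 / 2 + g) := by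
    rw [div_le_iff₀ (by norm_num)]
    linarith
  have e2 : T * (an.2 / 2) ≤ (TN.hi : ℝ) * ((Nat.succ (Nat.div an.2 2) : ℕ) : ℝ) / 1073741824 := by
    rw [le_div_iff₀ (by norm_num)]
    linarith
  have e3 : (d1 : ℝ) * S2.lo / 1073741824 ≤ d1 * s := by
    rw [div_le_iff₀ (by norm_num)]
    linarith
  have key : cn * (s2 * 1073741824) + cd * (d0 + T * (an.2 / 2)) ≤
      cd * (L * 1073741824 + T * (an.1 / 2 + g) + d1 * s) := by
    refine le_trans ?_ (hR.trans ?_)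
    · exact add_le_add c1 (mul_le_mul_of_nonneg_left (by linarith) ncd.le)
    · exact mul_le_mul_of_nonneg_left (by linarith) ncd.le
  have key2 : cn / cd * (s2 * 1073741824) + (d0 + T * (an.2 / 2)) ≤
      L * 1073741824 + T * (an.1 / 2 + g) + d1 * s := by
    have h5 : cd * ((cn : ℝ) / cd * (s2 * 1073741824) + (d0 + T * (an.2 / 2))) ≤
        cd * (L * 1073741824 + T * (an.1 / 2 + g) + d1 * s) := by
      refine le_trans (le_of_eq ?_) key
      field_simp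
    exact le_of_mul_le_mul_left h5 ncd
  have e : ((cn : ℝ) / cd * s2 + d0 / 1073741824 - d1 / 1073741824 * s -
      T * (g / 1073741824)) * 1073741824 = cn / cd * (s2 * 1073741824) + d0 - d1 * s - T * g := by
    field_simp
  have e' : (L + T * (α / 2)) * 1073741824 = L * 1073741824 + T * (α * 1073741824) / 2 := by ring
  have hfin : ((cn : ℝ) / cd * s2 + d0 / 1073741824 - d1 / 1073741824 * s -
      T * (g / 1073741824)) * 1073741824 ≤ (L + T * (α / 2)) * 1073741824 := by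
    rw [e, e']
    linarith
  exact le_of_mul_le_mul_right hfin (by norm_num)

end Pool.Agent.S3.P1
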