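import Pool.Agent.S3.LowA
import Pool.Agent.S3.NI

/-!
# Phase 3 of the slide: arctangent in kernel arithmetic

`R x = arctan x / x`, rational bounds, and natural numbers as lower and upper bounds, in
units of `2 ^ (-30)`.
-/

set_option autoImplicit false

namespace Pool.Agent.S3.P3

open Pool.Agent.S3.NI Real

/-! ### Rational bounds of the arctangent -/

theorem arctan_ub {x : ℝ} (hx : 0 ≤ x) : arctan x ≤ x * (15 + 4 * x ^ 2) / (15 + 9 * x ^ 2) := by
  have h := LowA_pos (b := x) (f := fun x => x * (15 + 4 * x ^ 2) / (15 + 9 * x ^ 2) - arctan x)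
    (f' := fun x => 36 * x ^ 6 / ((15 + 9 * x ^ 2) ^ 2 * (1 + x ^ 2)))
    (fun x _ _ => by
      have hd : (15 + 9 * x ^ 2 : ℝ) ≠ 0 := by positivity
      have hd2 : (1 + x ^ 2 : ℝ) ≠ 0 := by positivity
      have h1 : HasDerivAt (fun x : ℝ => x * (15 + 4 * x ^ 2)) (15 + 12 * x ^ 2) x := by
        have := (hasDerivAt_id' x).mul (((hasDerivAt_pow 2 x).const_mul 4).const_add 15)
        refine this.congr_deriv ?_
        norm_num
        ring
      have h2 : HasDerivAt (fun x : ℝ => 15 + 9 * x ^ 2) (18 * x) x := by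
        have := ((hasDerivAt_pow 2 x).const_mul 9).const_add 15
        refine this.congr_deriv ?_
        norm_num
        ring
      refine ((h1.div h2 hd).sub (hasDerivAt_arctan x)).congr_deriv ?_
      field_simp
      ring)
    (by simp) (fun x hx _ => by positivity) hx le_rfl
  linarith

theorem arctan_lb {x : ℝ} (hx : 0 ≤ x) :
    x * (105 + 55 * x ^ 2) / (105 + 90 * x ^ 2 + 9 * x ^ 4) ≤ arctan x := by
  have h := LowA_pos (b := x)
    (f := fun x => arctan x - x * (105 + 55 * x ^ 2) / (105 + 90 * x ^ 2 + 9 * x ^ 4))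
    (f' := fun x => 576 * x ^ 8 / ((105 + 90 * x ^ 2 + 9 * x ^ 4) ^ 2 * (1 + x ^ 2)))
    (fun x _ _ => by
      have hd : (105 + 90 * x ^ 2 + 9 * x ^ 4 : ℝ) ≠ 0 := by positivity
      have hd2 : (1 + x ^ 2 : ℝ) ≠ 0 := by positivity
      have h1 : HasDerivAt (fun x : ℝ => x * (105 + 55 * x ^ 2)) (105 + 165 * x ^ 2) x := by
        have := (hasDerivAt_id' x).mul (((hasDerivAt_pow 2 x).const_mul 55).const_add 105)
        refine this.congr_deriv ?_
        norm_num
        ring
      have h2 : HasDerivAt (fun x : ℝ => 105 + 90 * x ^ 2 + 9 * x ^ 4)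
          (180 * x + 36 * x ^ 3) x := by
        have := (((hasDerivAt_pow 2 x).const_mul 90).const_add 105).add
          ((hasDerivAt_pow 4 x).const_mul 9)
        refine this.congr_deriv ?_
        norm_num
        ring
      refine ((hasDerivAt_arctan x).sub (h1.div h2 hd)).congr_deriv ?_
      field_simp
      ring)
    (by simp) (fun x hx _ => by positivity) hx le_rfl
  linarith

theorem arctan_lb2 {x : ℝ} (hx : 0 < x) : π / 2 - 1 / x ≤ arctan x := by
  have h1 := arctan_inv_of_pos hx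
  have h2 : arctan x⁻¹ ≤ x⁻¹ := by
    have h3 : (0 : ℝ) < x⁻¹ := inv_pos.2 hx
    have := arctan_ub h3.le
    refine this.trans ?_
    rw [div_le_iff₀ (by positivity)]
    nlinarith [pow_pos h3 3]
  rw [one_div]
  linarith

/-- `arctan x / x`. -/
noncomputable def R (x : ℝ) : ℝ := if x = 0 then 1 else arctan x / x

theorem arctan_eq (x : ℝ) : arctan x = x * R x := by
  unfold R
  split_ifs with h
  · rw [h]; simp
  · field_simp

theorem R_neg (x : ℝ) : R (-x) = R x := by
  unfold R
  by_cases h : x = 0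
  · simp [h]
  · have h' : -x ≠ 0 := neg_ne_zero.2 h
    rw [if_neg h, if_neg h', arctan_neg, neg_div_neg_eq]

theorem R_abs (x : ℝ) : R |x| = R x := by
  rcases abs_choice x with h | h <;> rw [h]
  exact R_neg x

theorem R_ub (x : ℝ) : R x ≤ (15 + 4 * x ^ 2) / (15 + 9 * x ^ 2) := by
  rw [← R_abs, ← sq_abs x]
  have h0 := abs_nonneg x
  generalize |x| = y at *
  unfold R
  split_ifs with h
  · rw [h]; norm_num
  · have hy : 0 < y := lt_of_le_of_ne h0 (Ne.symm h)
    rw [div_le_iff₀ hy]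
    have := arctan_ub h0
    rw [div_mul_eq_mul_div, mul_comm (15 + 4 * y ^ 2) y]
    exact this

theorem R_lb (x : ℝ) : (105 + 55 * x ^ 2) / (105 + 90 * x ^ 2 + 9 * x ^ 4) ≤ R x := by
  have e4 : x ^ 4 = (x ^ 2) ^ 2 := by ring
  rw [e4, ← R_abs, ← sq_abs x]
  have h0 := abs_nonneg x
  generalize |x| = y at *
  have e5 : (y ^ 2) ^ 2 = y ^ 4 := by ring
  rw [e5]
  unfold R
  split_ifs with h
  · rw [h]; norm_num
  · have hy : 0 < y := lt_of_le_of_ne h0 (Ne.symm h)
    rw [le_div_iff₀ hy]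
    have := arctan_lb h0
    rw [div_mul_eq_mul_div, mul_comm (105 + 55 * y ^ 2) y]
    exact this

theorem R_nonneg (x : ℝ) : 0 ≤ R x := le_trans (by positivity) (R_lb x)

/-- the arctangent is concave: `arctan (g k) / k` decreases. -/
theorem arctan_chord {g k k2 : ℝ} (hg : 0 ≤ g) (hk : 0 < k) (hk2 : k ≤ k2) :
    k / k2 * arctan (g * k2) ≤ arctan (g * k) := by
  have hk20 : 0 < k2 := hk.trans_le hk2
  have key : ∀ a b : ℝ, 0 < a → a ≤ b → arctan b / b ≤ arctan a / a := by
    intro a b ha hab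
    have hb : 0 < b := ha.trans_le hab
    have hm : AntitoneOn (fun x : ℝ => arctan x / x) (Set.Ici a) := by
      apply antitoneOn_of_deriv_nonpos (convex_Ici a)
      · intro x hx
        have hx0 : x ≠ 0 := (ha.trans_le hx).ne'
        exact (continuous_arctan.continuousAt.div continuousAt_id hx0).continuousWithinAt
      · intro x hx
        rw [interior_Ici] at hx
        have hx0 : x ≠ 0 := (ha.trans hx).ne'
        exact ((differentiable_arctan x).div differentiableAt_id hx0).differentiableWithinAt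
      · intro x hx
        rw [interior_Ici] at hx
        have hx0 : 0 < x := ha.trans hx
        have h1 := ((hasDerivAt_arctan x).div (hasDerivAt_id' x) hx0.ne').deriv
        have h1' : deriv (fun x : ℝ => arctan x / x) x =
            (1 / (1 + x ^ 2) * x - arctan x * 1) / x ^ 2 := h1
        rw [h1']
        apply div_nonpos_of_nonpos_of_nonneg _ (by positivity)
        have h2 := arctan_lb hx0.le
        have h3 : 1 / (1 + x ^ 2) * x ≤ x * (105 + 55 * x ^ 2) / (105 + 90 * x ^ 2 + 9 * x ^ 4) := by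
          rw [one_div, inv_mul_eq_div, div_le_div_iff₀ (by positivity) (by positivity)]
          have : 0 ≤ x * (70 * x ^ 2 + 46 * x ^ 4) := by positivity
          nlinarith [this]
        linarith
    exact hm (Set.mem_Ici.2 le_rfl) (Set.mem_Ici.2 hab) hab
  rcases eq_or_lt_of_le hg with h0 | h0
  · rw [← h0]; simp
  · have h1 := key (g * k) (g * k2) (by positivity) (mul_le_mul_of_nonneg_left hk2 hg)
    rw [div_le_div_iff₀ (by positivity) (by positivity)] at h1
    rw [div_mul_eq_mul_div, div_le_iff₀ hk20]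
    nlinarith [h1]

/-! ### Bounds by natural numbers -/

/-- The unit. -/
def U : ℝ := 1073741824

theorem U_pos : (0 : ℝ) < U := by norm_num [U]

/-- lower bound. -/
def Lb (x : ℝ) (n : ℕ) : Prop := (n : ℝ) ≤ x * U
/-- upper bound. -/
def Ub (x : ℝ) (n : ℕ) : Prop := x * U ≤ (n : ℝ)

theorem mem_iff {x : ℝ} {A : N} : Mem x A ↔ Lb x A.lo ∧ Ub x A.hi := Iff.rfl

/-- product from below. -/
def ml (a b : ℕ) : ℕ := Nat.div (Nat.mul a b) 1073741824
/-- product from above. -/
def mh (a b : ℕ) : ℕ := Nat.succ (Nat.div (Nat.mul a b) 1073741824)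
/-- quotient from below. -/
def dl (a b : ℕ) : ℕ := Nat.div (Nat.mul a 1073741824) b
/-- quotient from above. -/
def dh (a b : ℕ) : ℕ := Nat.succ (Nat.div (Nat.mul a 1073741824) b)

section
variable {x y z : ℝ} {a b : ℕ}

theorem Lb.nonneg (h : Lb x a) : 0 ≤ x := by
  have h2 : (0 : ℝ) ≤ a := a.cast_nonneg
  have := U_pos
  unfold Lb at h
  by_contra hc
  push Not at hc
  nlinarith

theorem Lb.pos (h : Lb x a) (ha : Nat.ble 1 a = true) : 0 < x := by
  rw [Nat.ble_eq] at ha
  have h2 : (1 : ℝ) ≤ a := by exact_mod_cast ha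
  have := U_pos
  unfold Lb at h
  by_contra hc
  push Not at hc
  nlinarith

theorem Lb.mono (h : Lb x a) (hxy : x ≤ y) : Lb y a :=
  h.trans (mul_le_mul_of_nonneg_right hxy U_pos.le)

theorem Ub.mono (h : Ub x a) (hxy : y ≤ x) : Ub y a :=
  (mul_le_mul_of_nonneg_right hxy U_pos.le).trans h

theorem lb_zero (hx : 0 ≤ x) : Lb x 0 := by
  have := U_pos
  unfold Lb
  push_cast
  positivity

theorem Lb.add (h : Lb x a) (h' : Lb y b) : Lb (x + y) (Nat.add a b) := by
  unfold Lb at *
  have e : ((Nat.add a b : ℕ) : ℝ) = a + b := Nat.cast_add a b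
  rw [e]; linarith

theorem Ub.add (h : Ub x a) (h' : Ub y b) : Ub (x + y) (Nat.add a b) := by
  unfold Ub at *
  have e : ((Nat.add a b : ℕ) : ℝ) = a + b := Nat.cast_add a b
  rw [e]; linarith

theorem Ub.succ (h : Ub x a) : Ub x (Nat.succ a) := by
  unfold Ub at *
  have e : ((Nat.succ a : ℕ) : ℝ) = a + 1 := Nat.cast_succ a
  rw [e]; linarith

/-- truncated difference from below -/
theorem Lb.sub (h : Lb x a) (h' : Ub y b) (hz : 0 ≤ z) (hxy : x - y ≤ z) : Lb z (Nat.sub a b) := by
  have hU := U_pos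
  unfold Lb Ub at *
  refine nsub_le ?_ (by positivity)
  have : (x - y) * U ≤ z * U := mul_le_mul_of_nonneg_right hxy hU.le
  linarith

/-- truncated difference from above -/
theorem Ub.sub (h : Ub x a) (h' : Lb y b) (hxy : z ≤ x - y) : Ub z (Nat.sub a b) := by
  have hU := U_pos
  unfold Lb Ub at *
  refine le_nsub ?_
  have : z * U ≤ (x - y) * U := mul_le_mul_of_nonneg_right hxy hU.le
  linarith

theorem Lb.mul (h : Lb x a) (h' : Lb y b) : Lb (x * y) (ml a b) := by
  have hU := U_pos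
  have a0 : (0 : ℝ) ≤ a := a.cast_nonneg
  have b0 : (0 : ℝ) ≤ b := b.cast_nonneg
  unfold Lb ml at *
  refine (nat_div_le _ _).trans ?_
  have e : ((Nat.mul a b : ℕ) : ℝ) = a * b := Nat.cast_mul a b
  have e2 : ((1073741824 : ℕ) : ℝ) = U := by norm_num [U]
  rw [e, e2, div_le_iff₀ hU]
  nlinarith [mul_le_mul h h' b0 (a0.trans h)]

theorem Ub.mul (hx : 0 ≤ x) (hy : 0 ≤ y) (h : Ub x a) (h' : Ub y b) : Ub (x * y) (mh a b) := by
  have hU := U_pos
  unfold Ub mh at *
  refine le_trans ?_ (le_succ_div _ (by norm_num))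
  have e : ((Nat.mul a b : ℕ) : ℝ) = a * b := Nat.cast_mul a b
  have e2 : ((1073741824 : ℕ) : ℝ) = U := by norm_num [U]
  have x0 : 0 ≤ x * U := mul_nonneg hx hU.le
  have y0 : 0 ≤ y * U := mul_nonneg hy hU.le
  rw [e, e2, le_div_iff₀ hU]
  nlinarith [mul_le_mul h h' y0 (x0.trans h)]

theorem Lb.div (hy : 0 < y) (h : Lb x a) (h' : Ub y b) : Lb (x / y) (dl a b) := by
  have hU := U_pos
  have hx := h.nonneg
  have b0 : (0 : ℝ) < b := (mul_pos hy hU).trans_le h'
  unfold Lb Ub dl at *
  refine (nat_div_le _ _).trans ?_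
  have e : ((Nat.mul a 1073741824 : ℕ) : ℝ) = a * U := by
    have := Nat.cast_mul (α := ℝ) a 1073741824
    refine this.trans ?_
    norm_num [U]
  rw [e, div_le_iff₀ b0, div_mul_eq_mul_div, div_mul_eq_mul_div, le_div_iff₀ hy]
  have h1 : a * (y * U) ≤ x * U * (y * U) := mul_le_mul_of_nonneg_right h (by positivity)
  have h2 : x * U * (y * U) ≤ x * U * b := mul_le_mul_of_nonneg_left h' (by positivity)
  linarith

theorem Ub.div (hx : 0 ≤ x) (hb : Nat.ble 1 b = true) (h : Ub x a) (h' : Lb y b) :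
    Ub (x / y) (dh a b) := by
  have hU := U_pos
  have hy := h'.pos hb
  have hb1 : 0 < b := by rw [Nat.ble_eq] at hb; omega
  have b0 : (0 : ℝ) < b := by exact_mod_cast hb1
  unfold Lb Ub dh at *
  refine le_trans ?_ (le_succ_div _ hb1)
  have e : ((Nat.mul a 1073741824 : ℕ) : ℝ) = a * U := by
    have := Nat.cast_mul (α := ℝ) a 1073741824
    refine this.trans ?_
    norm_num [U]
  rw [e, le_div_iff₀ b0, div_mul_eq_mul_div, div_mul_eq_mul_div, div_le_iff₀ hy]
  have h1 : x * U * b ≤ x * U * (y * U) := mul_le_mul_of_nonneg_left h' (by positivity)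
  have h2 : x * U * (y * U) ≤ a * (y * U) := mul_le_mul_of_nonneg_right h (by positivity)
  linarith

theorem lb_sm (n : ℕ) (h : Lb x a) : Lb (n * x) (Nat.mul n a) := by
  have hn : (0 : ℝ) ≤ n := n.cast_nonneg
  unfold Lb at *
  have e : ((Nat.mul n a : ℕ) : ℝ) = n * a := Nat.cast_mul n a
  rw [e]
  nlinarith [mul_le_mul_of_nonneg_left h hn]

theorem ub_sm (n : ℕ) (h : Ub x a) : Ub (n * x) (Nat.mul n a) := by
  have hn : (0 : ℝ) ≤ n := n.cast_nonneg
  unfold Ub at *
  have e : ((Nat.mul n a : ℕ) : ℝ) = n * a := Nat.cast_mul n a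
  rw [e]
  nlinarith [mul_le_mul_of_nonneg_left h hn]

theorem lb_one : Lb 1 1073741824 := by unfold Lb U; norm_num
theorem ub_one : Ub 1 1073741824 := by unfold Ub U; norm_num

theorem Ub.le_of (h : Ub x a) (h' : Lb y b) (hab : Nat.ble a b = true) : x ≤ y := by
  rw [Nat.ble_eq] at hab
  have : (a : ℝ) ≤ b := by exact_mod_cast hab
  have hU := U_pos
  unfold Lb Ub at *
  exact le_of_mul_le_mul_right (h.trans (this.trans h')) hU

end

/-- lower bound of `R x` for `x ^ 2 ≤ y`. -/
def rL (y : ℕ) : ℕ := Nat.div (Nat.mul (Nat.add 112742891520 (Nat.mul 55 y)) 1152921504606846976)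
  (Nat.add 121056757983718932480 (Nat.mul y (Nat.add 96636764160 (Nat.mul 9 y))))

/-- upper bound of `R x` for `y ≤ x ^ 2`. -/
def rU (y : ℕ) : ℕ := Nat.succ (Nat.div (Nat.mul (Nat.add 16106127360 (Nat.mul 4 y)) 1073741824)
  (Nat.add 16106127360 (Nat.mul 9 y)))

theorem rL_sound {x : ℝ} {y : ℕ} (hy : Ub (x ^ 2) y) : Lb (R x) (rL y) := by
  have hU := U_pos
  obtain ⟨v, hv⟩ : ∃ v : ℝ, (y : ℝ) = v * U := ⟨y / U, by field_simp⟩
  have hxv : x ^ 2 ≤ v := by
    have : x ^ 2 * U ≤ v * U := by rw [← hv]; exact hy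
    exact le_of_mul_le_mul_right this hU
  have hv0 : 0 ≤ v := le_trans (by positivity) hxv
  unfold Lb rL
  refine (nat_div_le _ _).trans ?_
  have e1 : ((Nat.mul (Nat.add 112742891520 (Nat.mul 55 y)) 1152921504606846976 : ℕ) : ℝ) =
      (105 + 55 * v) * U * U ^ 2 := by
    have : ((Nat.mul (Nat.add 112742891520 (Nat.mul 55 y)) 1152921504606846976 : ℕ) : ℝ) =
      (112742891520 + 55 * (y : ℝ)) * 1152921504606846976 := by
      show (((112742891520 + 55 * y) * 1152921504606846976 : ℕ) : ℝ) = _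
      push_cast
      ring
    rw [this, hv]
    norm_num [U]
    ring
  have e2 : ((Nat.add 121056757983718932480 (Nat.mul y (Nat.add 96636764160 (Nat.mul 9 y))) : ℕ) : ℝ) =
      (105 + 90 * v + 9 * v ^ 2) * U ^ 2 := by
    have : ((Nat.add 121056757983718932480 (Nat.mul y (Nat.add 96636764160 (Nat.mul 9 y))) : ℕ) : ℝ) =
      121056757983718932480 + (y : ℝ) * (96636764160 + 9 * y) := by
      show ((121056757983718932480 + y * (96636764160 + 9 * y) : ℕ) : ℝ) = _
      push_cast
      ring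
    rw [this, hv]
    norm_num [U]
    ring
  rw [e1, e2]
  have e3 : (105 + 55 * v) * U * U ^ 2 / ((105 + 90 * v + 9 * v ^ 2) * U ^ 2) =
      (105 + 55 * v) / (105 + 90 * v + 9 * v ^ 2) * U := by
    have : (105 + 90 * v + 9 * v ^ 2) ≠ 0 := by positivity
    field_simp
  rw [e3]
  refine mul_le_mul_of_nonneg_right (le_trans ?_ (R_lb x)) hU.le
  have e4 : x ^ 4 = (x ^ 2) ^ 2 := by ring
  rw [e4]
  have hs : 0 ≤ x ^ 2 := by positivity
  generalize x ^ 2 = s at *
  rw [div_le_div_iff₀ (by positivity) (by positivity)]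
  have : 0 ≤ (v - s) * (3675 + 945 * (v + s) + 495 * v * s) := by
    apply mul_nonneg (by linarith)
    positivity
  nlinarith [this]

theorem rU_sound {x : ℝ} {y : ℕ} (hy : Lb (x ^ 2) y) : Ub (R x) (rU y) := by
  have hU := U_pos
  obtain ⟨v, hv⟩ : ∃ v : ℝ, (y : ℝ) = v * U := ⟨y / U, by field_simp⟩
  have hxv : v ≤ x ^ 2 := by
    have : v * U ≤ x ^ 2 * U := by rw [← hv]; exact hy
    exact le_of_mul_le_mul_right this hU
  have hv0 : 0 ≤ v := by
    have y0 : (0 : ℝ) ≤ y := y.cast_nonneg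
    rw [hv] at y0
    exact le_of_mul_le_mul_right (by rw [zero_mul]; exact y0) hU
  unfold Ub rU
  refine le_trans ?_ (le_succ_div _ ?_)
  · have e1 : ((Nat.mul (Nat.add 16106127360 (Nat.mul 4 y)) 1073741824 : ℕ) : ℝ) =
        (15 + 4 * v) * U * U := by
      have : ((Nat.mul (Nat.add 16106127360 (Nat.mul 4 y)) 1073741824 : ℕ) : ℝ) =
        (16106127360 + 4 * (y : ℝ)) * 1073741824 := by
        show (((16106127360 + 4 * y) * 1073741824 : ℕ) : ℝ) = _
        push_cast
        ring
      rw [this, hv]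
      norm_num [U]
      ring
    have e2 : ((Nat.add 16106127360 (Nat.mul 9 y) : ℕ) : ℝ) = (15 + 9 * v) * U := by
      have : ((Nat.add 16106127360 (Nat.mul 9 y) : ℕ) : ℝ) = 16106127360 + 9 * (y : ℝ) := by
        show ((16106127360 + 9 * y : ℕ) : ℝ) = _
        push_cast
        ring
      rw [this, hv]
      norm_num [U]
      ring
    rw [e1, e2]
    have e3 : (15 + 4 * v) * U * U / ((15 + 9 * v) * U) = (15 + 4 * v) / (15 + 9 * v) * U := by
      have : (15 + 9 * v) ≠ 0 := by positivity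
      field_simp
    rw [e3]
    refine mul_le_mul_of_nonneg_right ((R_ub x).trans ?_) hU.le
    have hs : 0 ≤ x ^ 2 := by positivity
    generalize x ^ 2 = s at *
    rw [div_le_div_iff₀ (by positivity) (by positivity)]
    nlinarith
  · show 0 < 16106127360 + 9 * y
    omega

theorem pH_lb : Lb (π / 2) 1686629713 := by
  unfold Lb U
  have := Real.pi_gt_d20
  push_cast
  linarith

/-- lower bound of `arctan x` for `a ≤ x`. -/
def aL (a : ℕ) : ℕ := bif Nat.ble a 2147483648 then ml a (rL (mh a a)) else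
  Nat.sub 1686629713 (dh 1073741824 a)

theorem aL_sound {x : ℝ} {a : ℕ} (ha : Lb x a) : Lb (arctan x) (aL a) := by
  have hU := U_pos
  have hx := ha.nonneg
  -- work at `v = a / U`
  obtain ⟨v, hv⟩ : ∃ v : ℝ, (a : ℝ) = v * U := ⟨a / U, by field_simp⟩
  have hv0 : 0 ≤ v := by
    have y0 : (0 : ℝ) ≤ a := a.cast_nonneg
    rw [hv] at y0
    exact le_of_mul_le_mul_right (by rw [zero_mul]; exact y0) hU
  have hvx : v ≤ x := by
    have : v * U ≤ x * U := by rw [← hv]; exact ha
    exact le_of_mul_le_mul_right this hU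
  have hmono : arctan v ≤ arctan x := arctan_strictMono.monotone hvx
  have h1 : Lb v a := by unfold Lb; rw [hv]
  have h3 : Ub v a := by unfold Ub; rw [hv]
  refine Lb.mono ?_ hmono
  unfold aL
  generalize h : Nat.ble a 2147483648 = bo
  rcases bo with _ | _
  · rw [cond_false]
    have ha2 : ¬ a ≤ 2147483648 := fun hc => by
      rw [← Nat.ble_eq, h] at hc
      exact Bool.noConfusion hc
    have ha1 : Nat.ble 1 a = true := by
      rw [Nat.ble_eq]
      have h5 : (1 : ℕ) ≤ 2147483648 := by norm_num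
      exact h5.trans (le_of_not_ge ha2)
    have hvp : 0 < v := h1.pos ha1
    have h2 : Ub (1 / v) (dh 1073741824 a) := Ub.div zero_le_one ha1 ub_one h1
    refine Lb.sub pH_lb h2 ?_ (arctan_lb2 hvp)
    rw [← arctan_zero]
    exact arctan_strictMono.monotone hv0
  · rw [cond_true]
    have h2 : Ub (v ^ 2) (mh a a) := by
      rw [sq]; exact Ub.mul hv0 hv0 h3 h3
    have h4 := Lb.mul h1 (rL_sound h2)
    rw [arctan_eq]
    exact h4

end Pool.Agent.S3.P3
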