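import Pool.Agent.S3.W2.P3A

/-!
# Phase 3 of the slide: the test of a box

The data of a box: `k = tanh π η`, `ρ` with `tanh π h = ρ k`, `s = sin π t`, `c = cos π t`.
-/

set_option autoImplicit false

namespace Pool.Agent.S3.P3

open Pool.Agent.S3.NI

/-! ### The real quantities -/

/-- `cos (π / 10)`. -/
noncomputable def cA : ℝ := Real.cos (Real.pi / 10)
/-- `sin (π / 10)`. -/
noncomputable def sB : ℝ := Real.sin (Real.pi / 10)

/-- `‖cos π y‖ ^ 2`. -/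
noncomputable def vN (c κ : ℝ) : ℝ := c ^ 2 + κ ^ 2 / (1 - κ ^ 2)
/-- `- im (cos π y) ^ 2`. -/
noncomputable def vY (s c κ : ℝ) : ℝ := 2 * (s * c * κ) / (1 - κ ^ 2)
/-- `‖sin π (y + v)‖ ^ 2`. -/
noncomputable def vE (k ρ s c : ℝ) : ℝ :=
  (cA * c + sB * s) ^ 2 + (k + k * ρ) ^ 2 / ((1 - k ^ 2) * (1 - (k * ρ) ^ 2))
/-- `‖sin π (y - v)‖ ^ 2`. -/
noncomputable def vF (k ρ s c : ℝ) : ℝ :=
  (sB * s - cA * c) ^ 2 + (k * (1 - ρ)) ^ 2 / ((1 - k ^ 2) * (1 - (k * ρ) ^ 2))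

/-- `- arg sin π (y + v)`. -/
noncomputable def aP (k ρ s c : ℝ) : ℝ :=
  Real.arctan ((cA * s - sB * c) / (cA * c + sB * s) * ((1 + ρ) / (1 + ρ * k ^ 2)) * k)
/-- `- arg sin π (y - v)`. -/
noncomputable def aN (k ρ s c : ℝ) : ℝ :=
  Real.pi / 2 - Real.arctan ((sB * s - cA * c) / ((sB * c + cA * s) *
    ((1 - ρ) / (1 - ρ * k ^ 2)) * k))

/-- The gain. -/
noncomputable def vG (k ρ s c h' W : ℝ) : ℝ :=
  -((1 + h') * aP k ρ s c) + (1 - h') * aN k ρ s c + 4 * h' * Real.arctan (ρ * s / c * k) + h' * W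

/-! ### Functions on numbers -/

/-- square root by Newton steps. -/
def nsq : ℕ → ℕ → ℕ → ℕ
  | 0, _, x => x
  | Nat.succ f, n, x => nsq f n (Nat.div (Nat.add x (Nat.div n x)) 2)

/-- an approximation of the square root in units. -/
def rt (a : ℕ) : ℕ := nsq 5 (Nat.mul a 1073741824)
  (Nat.pow 2 (Nat.succ (Nat.div (Nat.log2 (Nat.mul a 1073741824)) 2)))

def sL (z : ℕ) : ℕ := Nat.div (Nat.mul z 2305843009213693952)
  (Nat.add 1152921504606846976 (Nat.mul z z))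
def sH (z : ℕ) : ℕ := Nat.succ (sL z)
def cL (z : ℕ) : ℕ := Nat.div (Nat.mul (Nat.sub 1152921504606846976 (Nat.mul z z)) 1073741824)
  (Nat.add 1152921504606846976 (Nat.mul z z))
def cH (z : ℕ) : ℕ := Nat.succ (cL z)

/-- parameters of a case: upper bounds of `K / π`, `c₁`, `r₂`, `λ`, `μ`, lower bound of `c₂` and of
`μ`, `i₀`. -/
structure Prm where
  kk : ℕ
  c1 : ℕ
  c2 : ℕ
  r2 : ℕ
  la : ℕ
  mu : ℕ
  mul : ℕ
  i0 : ℕ

/-- `sin W ≤ snU W` -/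
def snU (w : ℕ) : ℕ := Nat.add (Nat.sub w (Nat.div (ml (ml w w) w) 6))
  (Nat.succ (Nat.div (mh (mh (mh w w) (mh w w)) w) 120))
/-- `csL W ≤ cos W` -/
def csL (w : ℕ) : ℕ := Nat.sub 1073741824 (Nat.succ (Nat.div (mh w w) 2))

def blt (a b : ℕ) : Bool := Nat.ble (Nat.succ a) b

/-- `X = A - b` -/
def finA3 (P : Prm) (Al bh Yl ms mc : ℕ) : Bool :=
  blt ms Yl || (blt (Nat.add P.r2 bh) (Nat.add Al mc) ||
    blt (Nat.add (Nat.add P.c1 bh) (mh P.la (Nat.sub ms Yl))) (Nat.add Al mc))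

def finA2 (P : Prm) (Al bh Yl Ml Mh w : ℕ) : Bool :=
  Nat.ble w 1503238553 && finA3 P Al bh Yl (mh Mh (snU w)) (ml Ml (csL w))

def finA (P : Prm) (kh hl Al bh Yl Ml Mh Dh : ℕ) : Bool :=
  Nat.ble 1 hl && finA2 P Al bh Yl Ml Mh (dh (mh Dh kh) hl)

def finB2 (P : Prm) (Al Ah bl bh Yl Mh p0 : ℕ) : Bool :=
  Nat.ble (Nat.mul Mh Mh) (Nat.add (Nat.mul p0 p0) (Nat.mul Yl Yl)) && ((Nat.ble (mh P.mu p0) Yl &&
    blt (Nat.add Ah p0) (Nat.add P.c2 bl)) || blt (Nat.add (Nat.add P.r2 bh) p0) Al)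

def finB (P : Prm) (Al Ah bl bh Yl Mh : ℕ) : Bool :=
  blt Mh Yl ||
  (blt (Nat.add Ah (mh Mh (Nat.succ (Nat.add 1073741824 (Nat.div (mh P.mu P.mu) 2)))))
    (Nat.add (Nat.add P.c2 bl) (ml P.mul Yl)) ||
    finB2 P Al Ah bl bh Yl Mh (Nat.add (rt (Nat.sub (mh Mh Mh) (ml Yl Yl))) 4))

/-- last stage: `SL`, `SH` are the square roots. -/
def st4 (P : Prm) (kh hl Al Ah bl bh Yl Yk Nl Nh Pl Ph SL SH Dh : ℕ) : Bool :=
  Nat.ble 1 SL && (Nat.ble (Nat.mul SL SL) (Nat.mul Pl 1073741824) &&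
    (Nat.ble (Nat.mul Ph 1073741824) (Nat.mul SH SH) &&
    (Nat.ble Dh (ml hl (dl (Nat.add Yk (dl P.i0 kh)) (dh (mh Nh Nh) SL))) ||
    (finA P kh hl Al bh (Nat.add Yl P.i0) (dl (ml Nl Nl) SH) (dh (mh Nh Nh) SL) Dh ||
      finB P Al Ah bl bh (Nat.add Yl P.i0) (dh (mh Nh Nh) SL)))))

def st3 (P : Prm) (kh hl Al Ah bl bh Yl Yk Nl Nh Pl Ph Dp Dm : ℕ) : Bool :=
  Nat.ble Dp Dm ||
  st4 P kh hl Al Ah bl bh Yl Yk Nl Nh Pl Ph (Nat.sub (rt Pl) 4) (Nat.add (rt Ph) 4) (Nat.sub Dp Dm)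

/-- The loss and the negative terms, divided by `k`. -/
def Dp (P : Prm) (hh kkh t1 : ℕ) : ℕ :=
  Nat.add (mh P.kk (Nat.succ (Nat.add 1073741824 (Nat.div (Nat.mul 37 kkh) 100))))
    (mh (Nat.add 1073741824 hh) t1)
/-- the positive terms. -/
def Dm (hl hh kh t2 n3 t5 : ℕ) : ℕ :=
  Nat.add (Nat.add (Nat.mul 4 (ml hl (dl t2 kh))) (ml (Nat.sub 1073741824 hh) (dl n3 kh)))
    (ml (Nat.add 1073741824 hl) (dl t5 kh))

/-- upper bound of `arctan α / k`. -/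
def t1v (tah Tph al : ℕ) : ℕ := mh (mh tah Tph) (rU (ml al al))

/-- lower bound of `aN`. -/
def n3v (kh Psl Psh Qcl Qch cwl cwh Tml Tmh : ℕ) : ℕ :=
  bif Nat.ble Psh Qcl then Nat.add 1686629713 (aL (dl (Nat.sub Qcl Psh) (mh (mh cwh Tmh) kh)))
  else aL (dl (ml (ml Tml cwl) kh) (Nat.sub Psh Qcl))

/-- `u = cos π (t - 1/10)`, `w = P - Q = sin π (t - 2/5)`, `del ≤ (1-k²)(1-κ²) ≤ deh`. -/
def st2 (P : Prm) (kl kh rl rh hl hh sl sh cl ch κl κh ul uh Psl Psh Qcl Qch bl bh del deh kkl kkh :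
    ℕ) : Bool :=
  Nat.ble 1 del && (Nat.ble 1 (Nat.sub 1073741824 (mh κh κh)) && (Nat.ble 1 ul &&
    (Nat.ble 1 (Nat.sub 1073741824 (mh rh kkh)) &&
  st3 P kh hl (ml (ml cl cl) (Nat.add 1073741824 (Nat.mul 2 bl)))
    (mh (mh ch ch) (Nat.add 1073741824 (Nat.mul 2 bh))) bl bh
    (dl (Nat.mul 2 (ml (ml sl cl) κl)) (Nat.sub 1073741824 (ml κl κl)))
    (dl (Nat.mul 2 (ml (ml sl cl) rl)) (Nat.sub 1073741824 (ml κl κl)))
    (Nat.add (ml cl cl) bl) (Nat.add (mh ch ch) bh)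
    (ml (Nat.add (ml ul ul) (dl (ml (Nat.add kl κl) (Nat.add kl κl)) deh))
      (Nat.add (ml (Nat.add (Nat.sub Psl Qch) (Nat.sub Qcl Psh))
        (Nat.add (Nat.sub Psl Qch) (Nat.sub Qcl Psh)))
        (dl (ml (ml kl (Nat.sub 1073741824 rh)) (ml kl (Nat.sub 1073741824 rh))) deh)))
    (mh (Nat.add (mh uh uh) (dh (mh (Nat.add kh κh) (Nat.add kh κh)) del))
      (Nat.add (mh (mx (Nat.sub Psh Qcl) (Nat.sub Qch Psl)) (mx (Nat.sub Psh Qcl) (Nat.sub Qch Psl)))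
        (dh (mh (mh kh (Nat.sub 1073741824 rl)) (mh kh (Nat.sub 1073741824 rl))) del)))
    (Dp P hh kkh (t1v (dh (Nat.sub (mh 1021189160 sh) (ml 331804471 cl)) ul)
        (dh (Nat.add 1073741824 rh) (Nat.add 1073741824 (ml rl kkl)))
        (ml (ml (dl (Nat.sub (ml 1021189158 sl) (mh 331804473 ch)) uh)
          (dl (Nat.add 1073741824 rl) (Nat.add 1073741824 (mh rh kkh)))) kl)))
    (Dm hl hh kh (aL (ml (dl (ml rl sl) ch) kh))
      (n3v kh Psl Psh Qcl Qch (Nat.add (ml 331804471 cl) (ml 1021189158 sl))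
        (Nat.add (mh 331804473 ch) (mh 1021189160 sh))
        (dl (Nat.sub 1073741824 rh) (Nat.sub 1073741824 (ml rl kkl)))
        (dh (Nat.sub 1073741824 rl) (Nat.sub 1073741824 (mh rh kkh))))
      (aL (ml (ml (dl (Nat.sub (ml 331804471 cl) (mh 1021189160 sh)) uh)
        (dl (Nat.add 1073741824 rl) (Nat.add 1073741824 (mh rh kkh)))) kh))))))

def st1 (P : Prm) (kl kh rl rh hl hh sl sh cl ch κl κh kkl kkh : ℕ) : Bool :=
  st2 P kl kh rl rh hl hh sl sh cl ch κl κh (Nat.add (ml 1021189158 cl) (ml 331804471 sl))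
    (Nat.add (mh 1021189160 ch) (mh 331804473 sh))
    (ml 331804471 sl) (mh 331804473 sh) (ml 1021189158 cl) (mh 1021189160 ch)
    (dl (ml κl κl) (Nat.sub 1073741824 (ml κl κl))) (dh (mh κh κh) (Nat.sub 1073741824 (mh κh κh)))
    (ml (Nat.sub 1073741824 kkh) (Nat.sub 1073741824 (mh κh κh)))
    (mh (Nat.sub 1073741824 kkl) (Nat.sub 1073741824 (ml κl κl))) kkl kkh

/-- The test of a box; `hl ≤ h' ≤ hh`. -/
def tst (P : Prm) (kl kh rl rh zl zh hl hh : ℕ) : Bool :=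
  Nat.ble zh 1073741824 &&
    st1 P kl kh rl rh hl hh (sL zl) (sH zh) (cL zh) (cH zl) (ml kl rl) (mh kh rh) (ml kl kl)
      (mh kh kh)

/-- lower bound of `h' = ρ (1 - k²) / (1 - ρ² k²)`. -/
def hL (kh rl : ℕ) : ℕ := dl (ml rl (Nat.sub 1073741824 (mh kh kh)))
  (Nat.sub 1073741824 (ml (ml kh rl) (ml kh rl)))
/-- upper bound. -/
def hH (kl rh : ℕ) : ℕ := dh (mh rh (Nat.sub 1073741824 (ml kl kl)))
  (Nat.sub 1073741824 (mh (mh kl rh) (mh kl rh)))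

/-- validity of `hL`, `hH`. -/
def hck (kl kh rh : ℕ) : Bool :=
  Nat.ble (mh kh kh) 1073741824 && (Nat.ble rh 1073741823 &&
    Nat.ble 1 (Nat.sub 1073741824 (mh (mh kl rh) (mh kl rh))))

/-- the test; `m` is `true` in the frozen case. -/
def ts (m : Bool) (P : Prm) (kl kh rl rh zl zh : ℕ) : Bool :=
  bif m then tst P kl kh rl rh zl zh 0 0 else
    (hck kl kh rh && tst P kl kh rl rh zl zh (hL kh rl) (hH kl rh))

/-- Branch and bound. -/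
def bb (m : Bool) (P : Prm) : ℕ → ℕ → ℕ → ℕ → ℕ → ℕ → ℕ → Bool
  | 0, _, _, _, _, _, _ => false
  | Nat.succ f, kl, kh, rl, rh, zl, zh =>
    ts m P kl kh rl rh zl zh ||
    (bif Nat.ble (Nat.mul 2 (Nat.sub zh zl)) (mx (Nat.sub kh kl) (Nat.sub rh rl)) then
      (bif Nat.ble (Nat.sub rh rl) (Nat.sub kh kl) then
        bb m P f kl (Nat.div (Nat.add kl kh) 2) rl rh zl zh &&
          bb m P f (Nat.div (Nat.add kl kh) 2) kh rl rh zl zh
      else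
        bb m P f kl kh rl (Nat.div (Nat.add rl rh) 2) zl zh &&
          bb m P f kl kh (Nat.div (Nat.add rl rh) 2) rh zl zh)
    else
      bb m P f kl kh rl rh zl (Nat.div (Nat.add zl zh) 2) &&
        bb m P f kl kh rl rh (Nat.div (Nat.add zl zh) 2) zh)

end Pool.Agent.S3.P3
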