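import Pool.Agent.S3.LX7
import Pool.Agent.S3.W2.P3B

/-!
# Phase 3 of the slide: soundness of the test
-/

set_option autoImplicit false

namespace Pool.Agent.S3.P3

open Pool.Agent.S3.NI

theorem Ub.sub0 {x y : ℝ} {a b : ℕ} (h : Ub x a) (h' : Lb y b) :
    Ub (max (x - y) 0) (Nat.sub a b) := by
  have hU := U_pos
  rcases le_total (x - y) 0 with h1 | h1
  · rw [max_eq_right h1]
    unfold Ub
    rw [zero_mul]
    exact Nat.cast_nonneg _
  · rw [max_eq_left h1]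
    exact Ub.sub h h' le_rfl

theorem lb_div_nat {x : ℝ} {a : ℕ} (n : ℕ) (hn : 0 < n) (h : Lb x a) : Lb (x / n) (Nat.div a n) := by
  have hn' : (0 : ℝ) < n := by exact_mod_cast hn
  unfold Lb at *
  refine (nat_div_le _ _).trans ?_
  rw [div_mul_eq_mul_div]
  exact div_le_div_of_nonneg_right h hn'.le

theorem ub_div_nat {x : ℝ} {a : ℕ} (n : ℕ) (hn : 0 < n) (h : Ub x a) :
    Ub (x / n) (Nat.succ (Nat.div a n)) := by
  have hn' : (0 : ℝ) < n := by exact_mod_cast hn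
  unfold Ub at *
  refine le_trans ?_ (le_succ_div _ hn)
  rw [div_mul_eq_mul_div]
  exact div_le_div_of_nonneg_right h hn'.le

theorem blt_iff {a b : ℕ} : blt a b = true ↔ a < b := by
  unfold blt
  rw [Nat.ble_eq]
  exact Nat.succ_le_iff

theorem Ub.lt_of {x y : ℝ} {a b : ℕ} (h : Ub x a) (h' : Lb y b) (hab : blt a b = true) : x < y := by
  rw [blt_iff] at hab
  have : (a : ℝ) < b := by exact_mod_cast hab
  have hU := U_pos
  unfold Lb Ub at *
  exact lt_of_mul_lt_mul_right (lt_of_le_of_lt h (lt_of_lt_of_le this h')) hU.le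

/-- The real parameters of a case. -/
structure PR (P : Prm) (kk c1 c2 r2 la mu i0 : ℝ) : Prop where
  kk0 : 0 ≤ kk
  hkk : Ub kk P.kk
  hc1 : Ub c1 P.c1
  hc2 : Lb c2 P.c2
  hr2 : Ub r2 P.r2
  la0 : 0 ≤ la
  hla : Ub la P.la
  mu0 : 0 ≤ mu
  mu1 : mu ≤ 9 / 10
  hmu : Ub mu P.mu
  hmul : Lb mu P.mul
  i00 : 0 ≤ i0
  hi0 : Lb i0 P.i0

/-- The point `cos² π w = r + i I` and its polar coordinates around `cos² π y = X - Y I`. -/
structure Pt (c1 c2 r2 la mu X Y M W r i : ℝ) : Prop where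
  M0 : 0 < M
  Y0 : 0 ≤ Y
  W0 : 0 ≤ W
  Wp : W ≤ Real.pi
  i0 : 0 ≤ i
  hr : r - X = M * Real.cos W
  hi : i + Y = M * Real.sin W
  hr2 : r ≤ r2
  hc1 : r ≤ c1 + la * i
  hc2 : c2 ≤ r + mu * i

section
variable {P : Prm} {kk c1 c2 r2 la mu i0 X Y M W r i A b : ℝ} {Al Ah bl bh Yl Ml Mh : ℕ}

theorem finA3_sound (hP : PR P kk c1 c2 r2 la mu i0) (hp : Pt c1 c2 r2 la mu X Y M W r i)
    (hX : X = A - b) {ms mc : ℕ} (hA : Lb A Al) (hb : Ub b bh) (hY : Lb Y Yl)
    (hms : Ub (M * Real.sin W) ms) (hmc : Lb (M * Real.cos W) mc)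
    (h : finA3 P Al bh Yl ms mc = true) : False := by
  unfold finA3 at h
  rw [Bool.or_eq_true, Bool.or_eq_true] at h
  have hi := hp.hi
  have hr := hp.hr
  rcases h with h | h | h
  · have := hms.lt_of hY h
    linarith [hp.i0]
  · have := (hP.hr2.add hb).lt_of (hA.add hmc) h
    linarith [hp.hr2]
  · have h1 : Ub i (Nat.sub ms Yl) := Ub.sub hms hY (by linarith)
    have h2 := Ub.mul hP.la0 hp.i0 hP.hla h1
    have := ((hP.hc1.add hb).add h2).lt_of (hA.add hmc) h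
    linarith [hp.hc1]

theorem snU_sound {w : ℕ} (hw : Nat.ble w 1503238553 = true) {W : ℝ} (h0 : 0 ≤ W) (hW : Ub W w) :
    Ub (Real.sin W) (snU w) := by
  have hU := U_pos
  obtain ⟨v, hv⟩ : ∃ v : ℝ, (w : ℝ) = v * U := ⟨w / U, by field_simp⟩
  have hWv : W ≤ v := by
    have : W * U ≤ v * U := by rw [← hv]; exact hW
    exact le_of_mul_le_mul_right this hU
  have hv0 : 0 ≤ v := h0.trans hWv
  have h1 : Lb v w := by unfold Lb; rw [hv]
  have h2 : Ub v w := by unfold Ub; rw [hv]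
  have hv1 : v ≤ 7 / 5 := by
    rw [Nat.ble_eq] at hw
    have : (w : ℝ) ≤ 1503238553 := by exact_mod_cast hw
    rw [hv] at this
    unfold U at this
    linarith
  have hpi := Real.pi_gt_d4
  have h3 : Real.sin W ≤ Real.sin v :=
    Real.sin_le_sin_of_le_of_le_pi_div_two (by linarith) (by linarith) hWv
  have h4 := lx_s5 hv0
  have a1 : Lb (v ^ 3 / 6) (Nat.div (ml (ml w w) w) 6) := by
    have := lb_div_nat 6 (by norm_num) ((h1.mul h1).mul h1)
    have e : v * v * v / ((6 : ℕ) : ℝ) = v ^ 3 / 6 := by push_cast; ring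
    rwa [e] at this
  have a2 : Ub (v ^ 5 / 120) (Nat.succ (Nat.div (mh (mh (mh w w) (mh w w)) w) 120)) := by
    have := ub_div_nat 120 (by norm_num) (Ub.mul (by positivity) hv0
      (Ub.mul (by positivity) (by positivity) (Ub.mul hv0 hv0 h2 h2) (Ub.mul hv0 hv0 h2 h2)) h2)
    have e : v * v * (v * v) * v / ((120 : ℕ) : ℝ) = v ^ 5 / 120 := by push_cast; ring
    rwa [e] at this
  have a3 : Ub (v - v ^ 3 / 6) (Nat.sub w (Nat.div (ml (ml w w) w) 6)) := Ub.sub h2 a1 le_rfl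
  exact (a3.add a2).mono (by linarith)

theorem csL_sound {w : ℕ} (hw : Nat.ble w 1503238553 = true) {W : ℝ} (h0 : 0 ≤ W) (hW : Ub W w) :
    Lb (Real.cos W) (csL w) := by
  have hU := U_pos
  obtain ⟨v, hv⟩ : ∃ v : ℝ, (w : ℝ) = v * U := ⟨w / U, by field_simp⟩
  have hWv : W ≤ v := by
    have : W * U ≤ v * U := by rw [← hv]; exact hW
    exact le_of_mul_le_mul_right this hU
  have hv0 : 0 ≤ v := h0.trans hWv
  have h2 : Ub v w := by unfold Ub; rw [hv]
  have hv1 : v ≤ 7 / 5 := by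
    rw [Nat.ble_eq] at hw
    have : (w : ℝ) ≤ 1503238553 := by exact_mod_cast hw
    rw [hv] at this
    unfold U at this
    linarith
  have hpi := Real.pi_gt_d4
  have h3 : Real.cos v ≤ Real.cos W :=
    Real.cos_le_cos_of_nonneg_of_le_pi h0 (by linarith) hWv
  have h4 := Real.one_sub_sq_div_two_le_cos (x := v)
  have h5 : 0 ≤ Real.cos v := Real.cos_nonneg_of_mem_Icc ⟨by linarith, by linarith⟩
  have a1 : Ub (v ^ 2 / 2) (Nat.succ (Nat.div (mh w w) 2)) := by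
    have := ub_div_nat 2 (by norm_num) (Ub.mul hv0 hv0 h2 h2)
    have e : v * v / ((2 : ℕ) : ℝ) = v ^ 2 / 2 := by push_cast; ring
    rwa [e] at this
  exact Lb.sub lb_one a1 (h5.trans h3) (by linarith)

theorem finA_sound (hP : PR P kk c1 c2 r2 la mu i0) (hp : Pt c1 c2 r2 la mu X Y M W r i)
    (hX : X = A - b) {k h' D : ℝ} {kh hl Dh : ℕ} (hk : 0 < k) (hkh : Ub k kh) (hhl : Lb h' hl)
    (hA : Lb A Al) (hb : Ub b bh) (hY : Lb Y Yl) (hMl : Lb M Ml) (hMh : Ub M Mh)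
    (hD : Ub D Dh) (hD0 : 0 ≤ D) (hWD : h' * W ≤ D * k)
    (h : finA P kh hl Al bh Yl Ml Mh Dh = true) : False := by
  unfold finA at h
  rw [Bool.and_eq_true] at h
  obtain ⟨h1, h2⟩ := h
  have hh := hhl.pos h1
  have hw : Ub (D * k / h') (dh (mh Dh kh) hl) :=
    Ub.div (by positivity) h1 (Ub.mul hD0 hk.le hD hkh) hhl
  have hw' : Ub W (dh (mh Dh kh) hl) := by
    refine hw.mono ?_
    rw [le_div_iff₀ hh]
    linarith
  unfold finA2 at h2
  rw [Bool.and_eq_true] at h2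
  obtain ⟨h3, h4⟩ := h2
  have hs := snU_sound h3 hp.W0 hw'
  have hc := csL_sound h3 hp.W0 hw'
  have hs0 : 0 ≤ Real.sin W := Real.sin_nonneg_of_nonneg_of_le_pi hp.W0 hp.Wp
  exact finA3_sound hP hp hX hA hb hY (Ub.mul hp.M0.le hs0 hMh hs) (hMl.mul hc) h4

theorem finB_sound (hP : PR P kk c1 c2 r2 la mu i0) (hp : Pt c1 c2 r2 la mu X Y M W r i)
    (hX : X = A - b) (hA0 : 0 ≤ A) (hAl : Lb A Al) (hA : Ub A Ah) (hb : Lb b bl) (hb' : Ub b bh)
    (hY : Lb Y Yl) (hMh : Ub M Mh)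
    (h : finB P Al Ah bl bh Yl Mh = true) : False := by
  have hU := U_pos
  unfold finB at h
  rw [Bool.or_eq_true, Bool.or_eq_true] at h
  have hi := hp.hi
  have hr := hp.hr
  have hM := hp.M0
  have mu0 := hP.mu0
  have hcs := Real.sin_sq_add_cos_sq W
  rcases h with h | h | h
  · have a1 : M < Y := hMh.lt_of hY h
    have a2 := Real.sin_le_one W
    have a3 := mul_le_mul_of_nonneg_left a2 hM.le
    linarith [hp.i0]
  · have a1 : Ub (1 + mu ^ 2 / 2)
        (Nat.succ (Nat.add 1073741824 (Nat.div (mh P.mu P.mu) 2))) := by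
      have := ub_div_nat 2 (by norm_num) (Ub.mul mu0 mu0 hP.hmu hP.hmu)
      have e : mu * mu / ((2 : ℕ) : ℝ) = mu ^ 2 / 2 := by push_cast; ring
      rw [e] at this
      have k := ub_one.add this
      have e2 : Nat.add 1073741824 (Nat.succ (Nat.div (mh P.mu P.mu) 2)) =
          Nat.succ (Nat.add 1073741824 (Nat.div (mh P.mu P.mu) 2)) := rfl
      rwa [e2] at k
    have a2 := hA.add (Ub.mul hM.le (by positivity) hMh a1)
    have a3 := (hP.hc2.add hb).add (hP.hmul.mul hY)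
    have a4 := a2.lt_of a3 h
    have a5 : Real.cos W + mu * Real.sin W ≤ 1 + mu ^ 2 / 2 := by
      nlinarith [sq_nonneg (mu * Real.cos W - Real.sin W), sq_nonneg (Real.cos W - 1),
        sq_nonneg (Real.sin W - mu), sq_nonneg (mu ^ 2)]
    have a6 : M * (Real.cos W + mu * Real.sin W) ≤ M * (1 + mu ^ 2 / 2) :=
      mul_le_mul_of_nonneg_left a5 hM.le
    have a7 := hp.hc2
    nlinarith
  · unfold finB2 at h
    set p0 := Nat.add (rt (Nat.sub (mh Mh Mh) (ml Yl Yl))) 4 with hp0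
    have hp4 : Nat.ble 1 p0 = true := by
      rw [Nat.ble_eq, hp0]
      exact le_trans (by norm_num) (Nat.le_add_left 4 _)
    clear_value p0
    rw [Bool.and_eq_true, Bool.or_eq_true, Bool.and_eq_true] at h
    obtain ⟨h1, h⟩ := h
    obtain ⟨p, hv⟩ : ∃ v : ℝ, (p0 : ℝ) = v * U := ⟨p0 / U, by field_simp⟩
    obtain ⟨yl, hyl⟩ : ∃ v : ℝ, (Yl : ℝ) = v * U := ⟨Yl / U, by field_simp⟩
    have l1 : Lb p p0 := by unfold Lb; rw [hv]
    have l2 : Ub p p0 := by unfold Ub; rw [hv]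
    have l3 : Lb yl Yl := by unfold Lb; rw [hyl]
    have p00 := l1.nonneg
    have pp := l1.pos hp4
    have yl0 := l3.nonneg
    have yly : yl ≤ Y := by
      have : yl * U ≤ Y * U := by rw [← hyl]; exact hY
      exact le_of_mul_le_mul_right this hU
    have b1 : M ^ 2 ≤ p ^ 2 + yl ^ 2 := by
      rw [Nat.ble_eq] at h1
      have c1' : ((Mh * Mh : ℕ) : ℝ) ≤ ((p0 * p0 + Yl * Yl : ℕ) : ℝ) := by exact_mod_cast h1
      push_cast at c1'
      rw [hv, hyl] at c1'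
      have c2' : (M * U) * (M * U) ≤ (Mh : ℝ) * Mh :=
        mul_le_mul hMh hMh (by positivity) (Nat.cast_nonneg _)
      have c3 : M ^ 2 * U ^ 2 ≤ (p ^ 2 + yl ^ 2) * U ^ 2 := by nlinarith
      exact le_of_mul_le_mul_right c3 (by positivity)
    have i0 := hp.i0
    -- `q = r - X`, `n = i + Y`
    have e1 : (r - X) ^ 2 + (i + Y) ^ 2 = M ^ 2 := by
      rw [hr, hi]
      nlinarith
    rcases h with ⟨h2, h3⟩ | h
    · have b2 : mu * p ≤ yl := (Ub.mul mu0 p00 hP.hmu l2).le_of l3 h2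
      have b3 : A + p < c2 + b := (hA.add l2).lt_of (hP.hc2.add hb) h3
      have a7 := hp.hc2
      have q1 : p - mu * i < r - X := by rw [hX]; linarith
      rcases le_total 0 (p - mu * i) with h4 | h4
      · have : (p - mu * i) ^ 2 < (r - X) ^ 2 := by nlinarith
        nlinarith [mul_nonneg i0 yl0, mul_nonneg mu0 i0, mul_le_mul_of_nonneg_right b2 i0,
          mul_nonneg i0 (sub_nonneg.2 yly), mul_self_nonneg (mu * i)]
      · have mu1 := hP.mu1
        have h5 : p < i := by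
          rcases eq_or_lt_of_le i0 with hi0 | hi0
          · rw [← hi0, mul_zero, sub_zero] at h4; linarith
          · nlinarith
        have h6 : i ^ 2 + yl ^ 2 ≤ (i + Y) ^ 2 := by nlinarith [mul_nonneg i0 yl0]
        have h7 : p ^ 2 < i ^ 2 := by nlinarith
        nlinarith [sq_nonneg (r - X)]
    · have b3 : r2 + b + p < A := ((hP.hr2.add hb').add l2).lt_of hAl h
      have a7 := hp.hr2
      have q1 : p < X - r := by rw [hX]; linarith
      have q2 : p ^ 2 < (r - X) ^ 2 := by nlinarith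
      have h6 : yl ^ 2 ≤ (i + Y) ^ 2 := by nlinarith [mul_nonneg i0 yl0]
      nlinarith

theorem Lb.sqrt {x : ℝ} {a n : ℕ} (h : Lb x a) (hn : Nat.ble (Nat.mul n n) (Nat.mul a 1073741824) = true) :
    Lb (Real.sqrt x) n := by
  have hU := U_pos
  have hx := h.nonneg
  obtain ⟨v, hv⟩ : ∃ v : ℝ, (n : ℝ) = v * U := ⟨n / U, by field_simp⟩
  unfold Lb at *
  rw [hv]
  apply mul_le_mul_of_nonneg_right _ hU.le
  apply Real.le_sqrt_of_sq_le
  rw [Nat.ble_eq] at hn
  have e : ((n * n : ℕ) : ℝ) ≤ ((a * 1073741824 : ℕ) : ℝ) := by exact_mod_cast hn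
  push_cast at e
  rw [hv] at e
  have e2 : (1073741824 : ℝ) = U := rfl
  rw [e2] at e
  have e3 : (a : ℝ) * U ≤ x * U * U := mul_le_mul_of_nonneg_right h hU.le
  have e4 : v ^ 2 * U ^ 2 ≤ x * U ^ 2 := by nlinarith
  exact le_of_mul_le_mul_right e4 (by positivity)

theorem Ub.sqrt {x : ℝ} {a n : ℕ} (h : Ub x a) (hn : Nat.ble (Nat.mul a 1073741824) (Nat.mul n n) = true) :
    Ub (Real.sqrt x) n := by
  have hU := U_pos
  obtain ⟨v, hv⟩ : ∃ v : ℝ, (n : ℝ) = v * U := ⟨n / U, by field_simp⟩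
  have hv0 : 0 ≤ v := by
    have y0 : (0 : ℝ) ≤ n := n.cast_nonneg
    rw [hv] at y0
    exact le_of_mul_le_mul_right (by rw [zero_mul]; exact y0) hU
  unfold Ub at *
  rw [hv]
  apply mul_le_mul_of_nonneg_right _ hU.le
  apply Real.sqrt_le_iff.2
  refine ⟨hv0, ?_⟩
  rw [Nat.ble_eq] at hn
  have e : ((a * 1073741824 : ℕ) : ℝ) ≤ ((n * n : ℕ) : ℝ) := by exact_mod_cast hn
  push_cast at e
  rw [hv] at e
  have e2 : (1073741824 : ℝ) = U := rfl
  rw [e2] at e
  have e3 : x * U * U ≤ (a : ℝ) * U := mul_le_mul_of_nonneg_right h hU.le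
  have e4 : x * U ^ 2 ≤ v ^ 2 * U ^ 2 := by nlinarith
  exact le_of_mul_le_mul_right e4 (by positivity)

/-- the last stages. -/
theorem st3_sound (hP : PR P kk c1 c2 r2 la mu i0) (hp : Pt c1 c2 r2 la mu X (Y + i0) M W r i)
    (hX : X = A - b) {k h' N Pr D1 D2 : ℝ} {kh hl Nl Nh Pl Ph Dp Dm Yk : ℕ} (hk : 0 < k)
    (hkh : Ub k kh) (hh0 : 0 ≤ h') (hhl : Lb h' hl) (hA0 : 0 ≤ A) (hYk : Lb (Y / k) Yk)
    (hA : Lb A Al) (hA' : Ub A Ah) (hb : Lb b bl) (hb' : Ub b bh) (hY : Lb Y Yl)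
    (hN : Lb N Nl) (hN' : Ub N Nh) (hPl : Lb Pr Pl) (hPh : Ub Pr Ph) (hM : M ^ 2 * Pr = N ^ 4)
    (hD1 : Ub D1 Dp) (hD2 : Lb D2 Dm)
    (h : st3 P kh hl Al Ah bl bh Yl Yk Nl Nh Pl Ph Dp Dm = true) (hW : h' * W < (D1 - D2) * k) :
    False := by
  unfold st3 at h
  set SL := Nat.sub (rt Pl) 4 with hSL
  set SH := Nat.add (rt Ph) 4 with hSH
  clear_value SL SH
  rw [Bool.or_eq_true] at h
  rcases h with h | h
  · have h1 := hD1.le_of hD2 h
    have h2 : 0 ≤ h' * W := mul_nonneg hh0 hp.W0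
    nlinarith
  · unfold st4 at h
    rw [Bool.and_eq_true, Bool.and_eq_true, Bool.and_eq_true, Bool.or_eq_true, Bool.or_eq_true] at h
    obtain ⟨h1, h2, h3, h4⟩ := h
    have s1 := hPl.sqrt h2
    have s2 := hPh.sqrt h3
    have sp := s1.pos h1
    have Prp : 0 < Pr := Real.sqrt_pos.1 sp
    have N0 := hN.nonneg
    have M0 := hp.M0
    have eM : M = N * N / Real.sqrt Pr := by
      rw [eq_div_iff sp.ne']
      have e1 : (M * Real.sqrt Pr) ^ 2 = (N * N) ^ 2 := by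
        rw [mul_pow, Real.sq_sqrt Prp.le, hM]; ring
      exact (sq_eq_sq₀ (by positivity) (by positivity)).1 e1
    have m1 : Lb M (dl (ml Nl Nl) SH) := by
      rw [eM]; exact Lb.div sp (hN.mul hN) s2
    have m2 : Ub M (dh (mh Nh Nh) SL) := by
      rw [eM]; exact Ub.div (by positivity) h1 (Ub.mul N0 N0 hN' hN') s1
    rcases h4 with h4 | h4 | h4
    · have hYk' := hYk.add (Lb.div hk hP.hi0 hkh)
      have m3 := (Ub.sub hD1 hD2 (le_refl (D1 - D2))).le_of (hhl.mul (Lb.div M0 hYk' m2)) h4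
      have hi := hp.hi
      have h5 := Real.sin_le hp.W0
      have h6 : Y + i0 ≤ M * W := by
        have := mul_le_mul_of_nonneg_left h5 M0.le
        linarith [hp.i0]
      have h7 : (Y / k + i0 / k) / M * k = (Y + i0) / M := by field_simp
      have h8 : (Y + i0) / M ≤ W := by rw [div_le_iff₀ M0]; linarith
      have h9 : h' * ((Y / k + i0 / k) / M) * k ≤ h' * W := by
        have e : h' * ((Y / k + i0 / k) / M) * k = h' * ((Y / k + i0 / k) / M * k) := by ring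
        rw [e, h7]
        exact mul_le_mul_of_nonneg_left h8 hh0
      have h10 := mul_le_mul_of_nonneg_right m3 hk.le
      linarith
    · have hD0 : 0 ≤ D1 - D2 := by
        have h2 : 0 ≤ h' * W := mul_nonneg hh0 hp.W0
        by_contra hc
        push Not at hc
        nlinarith
      exact finA_sound hP hp hX hk hkh hhl hA hb' (hY.add hP.hi0) m1 m2 (Ub.sub hD1 hD2 le_rfl) hD0
        hW.le h4
    · exact finB_sound hP hp hX hA0 hA hA' hb hb' (hY.add hP.hi0) m2 h4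

end

end Pool.Agent.S3.P3
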