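import Pool.Agent.S3.W2.P3C

/-!
# Phase 3 of the slide: soundness of the test, the first stages
-/

set_option autoImplicit false

namespace Pool.Agent.S3.P3

open Pool.Agent.S3.NI

theorem sqrt5_bd : (22360679774 / 10000000000 : ℝ) ≤ Real.sqrt 5 ∧
    Real.sqrt 5 ≤ 22360679775 / 10000000000 := by
  constructor
  · apply Real.le_sqrt_of_sq_le; norm_num
  · apply Real.sqrt_le_iff.2; norm_num

theorem cA_sq : cA ^ 2 = (5 + Real.sqrt 5) / 8 := by
  have h := Real.cos_sq (Real.pi / 10)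
  have e : 2 * (Real.pi / 10) = Real.pi / 5 := by ring
  rw [e, Real.cos_pi_div_five] at h
  unfold cA
  rw [h]; ring

theorem sB_sq : sB ^ 2 = (3 - Real.sqrt 5) / 8 := by
  have h := Real.sin_sq_add_cos_sq (Real.pi / 10)
  have h2 := cA_sq
  unfold cA at h2
  unfold sB
  linarith

theorem cA_pos : 0 < cA := by
  unfold cA
  apply Real.cos_pos_of_mem_Ioo
  constructor <;> linarith [Real.pi_pos]

theorem sB_pos : 0 < sB := by
  unfold sB
  apply Real.sin_pos_of_pos_of_lt_pi <;> linarith [Real.pi_pos]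

theorem cA_lb : Lb cA 1021189158 := by
  have h := cA_sq
  have h5 := sqrt5_bd.1
  unfold Lb U
  push_cast
  have : (1021189158 / 1073741824 : ℝ) ≤ cA := by
    apply le_of_sq_le_sq _ cA_pos.le
    rw [h]; norm_num; linarith
  linarith

theorem cA_ub : Ub cA 1021189160 := by
  have h := cA_sq
  have h5 := sqrt5_bd.2
  unfold Ub U
  push_cast
  have : cA ≤ (1021189160 / 1073741824 : ℝ) := by
    apply le_of_sq_le_sq _ (by norm_num)
    rw [h]; norm_num; linarith
  linarith

theorem sB_lb : Lb sB 331804471 := by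
  have h := sB_sq
  have h5 := sqrt5_bd.2
  unfold Lb U
  push_cast
  have : (331804471 / 1073741824 : ℝ) ≤ sB := by
    apply le_of_sq_le_sq _ sB_pos.le
    rw [h]; norm_num; linarith
  linarith

theorem sB_ub : Ub sB 331804473 := by
  have h := sB_sq
  have h5 := sqrt5_bd.1
  unfold Ub U
  push_cast
  have : sB ≤ (331804473 / 1073741824 : ℝ) := by
    apply le_of_sq_le_sq _ (by norm_num)
    rw [h]; norm_num; linarith
  linarith

/-- the loss minus the gain. -/
def Goal (kk k ρ s c h' W : ℝ) : Prop := kk * (1 + 37 / 100 * k ^ 2) * k ≤ vG k ρ s c h' W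

section
variable {k ρ s c h' : ℝ} {kl kh rl rh sl sh cl ch : ℕ}

theorem t1_sound (hk : 0 < k) (hρ : 0 ≤ ρ) (hs : 0 < s) (hc : 0 < c)
    (hkl : Lb k kl) (hkh : Ub k kh) (hrl : Lb ρ rl) (hrh : Ub ρ rh) (hsl : Lb s sl) (hsh : Ub s sh)
    (hcl : Lb c cl) (hch : Ub c ch) {kkl kkh ul uh : ℕ} (hkkl : Lb (k ^ 2) kkl)
    (hkkh : Ub (k ^ 2) kkh) (hul : Lb (cA * c + sB * s) ul) (huh : Ub (cA * c + sB * s) uh)
    (hu1 : Nat.ble 1 ul = true) :
    ∃ t t5 : ℝ, 0 ≤ t ∧ 0 ≤ t5 ∧ aP k ρ s c ≤ (t - t5) * k ∧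
      Lb t5 (dl (aL (ml (ml (dl (Nat.sub (ml 331804471 cl) (mh 1021189160 sh)) uh)
        (dl (Nat.add 1073741824 rl) (Nat.add 1073741824 (mh rh kkh)))) kh)) kh) ∧
      Ub t (t1v (dh (Nat.sub (mh 1021189160 sh) (ml 331804471 cl)) ul)
        (dh (Nat.add 1073741824 rh) (Nat.add 1073741824 (ml rl kkl)))
        (ml (ml (dl (Nat.sub (ml 1021189158 sl) (mh 331804473 ch)) uh)
          (dl (Nat.add 1073741824 rl) (Nat.add 1073741824 (mh rh kkh)))) kl)) := by
  have cA0 := cA_pos
  have sB0 := sB_pos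
  have u0 : 0 < cA * c + sB * s := by positivity
  have z0 : 0 ≤ max (cA * s - sB * c) 0 := le_max_right _ _
  have k2 : 0 ≤ k ^ 2 := by positivity
  have d0 : 0 < 1 + ρ * k ^ 2 := by positivity
  set T := (1 + ρ) / (1 + ρ * k ^ 2) with hT
  have T0 : 0 ≤ T := by rw [hT]; positivity
  set g := max (cA * s - sB * c) 0 / (cA * c + sB * s) with hg
  have g0 : 0 ≤ g := by rw [hg]; positivity
  have T1 : Ub T (dh (Nat.add 1073741824 rh) (Nat.add 1073741824 (ml rl kkl))) := by
    rw [hT]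
    refine Ub.div (by positivity) ?_ (ub_one.add hrh) (lb_one.add (hrl.mul hkkl))
    rw [Nat.ble_eq]
    exact le_trans (by norm_num) (Nat.le_add_right 1073741824 _)
  have T2 : Lb T (dl (Nat.add 1073741824 rl) (Nat.add 1073741824 (mh rh kkh))) := by
    rw [hT]
    exact Lb.div d0 (lb_one.add hrl) (ub_one.add (Ub.mul hρ k2 hrh hkkh))
  have g1 : Ub g (dh (Nat.sub (mh 1021189160 sh) (ml 331804471 cl)) ul) := by
    rw [hg]
    exact Ub.div z0 hu1 (Ub.sub0 (Ub.mul cA0.le hs.le cA_ub hsh) (sB_lb.mul hcl)) hul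
  have g2 : Lb g (dl (Nat.sub (ml 1021189158 sl) (mh 331804473 ch)) uh) := by
    rw [hg]
    exact Lb.div u0 (Lb.sub (cA_lb.mul hsl) (Ub.mul sB0.le hc.le sB_ub hch) z0 (le_max_left _ _)) huh
  -- the negative part
  have z0' : 0 ≤ max (sB * c - cA * s) 0 := le_max_right _ _
  set g' := max (sB * c - cA * s) 0 / (cA * c + sB * s) with hg'
  have g'0 : 0 ≤ g' := by rw [hg']; positivity
  have g'2 : Lb g' (dl (Nat.sub (ml 331804471 cl) (mh 1021189160 sh)) uh) := by
    rw [hg']
    exact Lb.div u0 (Lb.sub (sB_lb.mul hcl) (Ub.mul cA0.le hs.le cA_ub hsh) z0' (le_max_left _ _)) huh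
  have hU := U_pos
  obtain ⟨K, hK⟩ : ∃ v : ℝ, (kh : ℝ) = v * U := ⟨kh / U, by field_simp⟩
  have l1 : Lb K kh := by unfold Lb; rw [hK]
  have l2 : Ub K kh := by unfold Ub; rw [hK]
  have kK : k ≤ K := by
    have : k * U ≤ K * U := by rw [← hK]; exact hkh
    exact le_of_mul_le_mul_right this hU
  have K0 : 0 < K := hk.trans_le kK
  have l3 := Lb.div K0 (aL_sound ((g'2.mul T2).mul l1)) l2
  have at0 : 0 ≤ Real.arctan (g' * T * K) := by
    rw [← Real.arctan_zero]
    exact Real.arctan_strictMono.monotone (by positivity)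
  have l4 : Real.arctan (g' * T * K) / K * k ≤ Real.arctan (g' * T * k) := by
    have := arctan_chord (g := g' * T) (by positivity) hk kK
    calc Real.arctan (g' * T * K) / K * k = k / K * Real.arctan (g' * T * K) := by ring
      _ ≤ _ := this
  refine ⟨g * T * R (g * T * k), Real.arctan (g' * T * K) / K,
    by have := R_nonneg (g * T * k); positivity, by positivity, ?_, l3, ?_⟩
  · have e : g * T * R (g * T * k) * k = Real.arctan (g * T * k) := by
      rw [arctan_eq]; ring
    rw [sub_mul, e]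
    unfold aP
    rw [← hT]
    rcases le_total (cA * s - sB * c) 0 with hn | hn
    · have e1 : g = 0 := by rw [hg, max_eq_right hn, zero_div]
      have e2 : g' = -((cA * s - sB * c) / (cA * c + sB * s)) := by
        rw [hg', max_eq_left (by linarith)]; ring
      have e3 : (cA * s - sB * c) / (cA * c + sB * s) * T * k = -(g' * T * k) := by rw [e2]; ring
      rw [e1, e3, Real.arctan_neg]
      simp only [zero_mul, Real.arctan_zero, zero_sub]
      linarith
    · have e1 : g' = 0 := by rw [hg', max_eq_right (by linarith), zero_div]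
      have e2 : (cA * s - sB * c) / (cA * c + sB * s) = g := by rw [hg, max_eq_left hn]
      rw [e2, e1]
      simp
  · unfold t1v
    have a1 : Lb (g * T * k) (ml (ml (dl (Nat.sub (ml 1021189158 sl) (mh 331804473 ch)) uh)
          (dl (Nat.add 1073741824 rl) (Nat.add 1073741824 (mh rh kkh)))) kl) := (g2.mul T2).mul hkl
    have a2 := a1.mul a1
    rw [← sq] at a2
    exact Ub.mul (by positivity) (R_nonneg _) (Ub.mul g0 T0 g1 T1) (rU_sound a2)

theorem t2_sound (hk : 0 < k) (hc : 0 < c) (hkh : Ub k kh) (hrl : Lb ρ rl)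
    (hsl : Lb s sl) (hch : Ub c ch) :
    Lb (Real.arctan (ρ * s / c * k) / k) (dl (aL (ml (dl (ml rl sl) ch) kh)) kh) := by
  have hU := U_pos
  obtain ⟨K, hK⟩ : ∃ v : ℝ, (kh : ℝ) = v * U := ⟨kh / U, by field_simp⟩
  have k1 : Lb K kh := by unfold Lb; rw [hK]
  have k2 : Ub K kh := by unfold Ub; rw [hK]
  have kK : k ≤ K := by
    have : k * U ≤ K * U := by rw [← hK]; exact hkh
    exact le_of_mul_le_mul_right this hU
  have K0 : 0 < K := hk.trans_le kK
  have g1 : Lb (ρ * s / c) (dl (ml rl sl) ch) := Lb.div hc (hrl.mul hsl) hch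
  have g0 := g1.nonneg
  have a1 := Lb.div K0 (aL_sound (g1.mul k1)) k2
  refine a1.mono ?_
  rw [le_div_iff₀ hk]
  have := arctan_chord g0 hk kK
  calc Real.arctan (ρ * s / c * K) / K * k = k / K * Real.arctan (ρ * s / c * K) := by ring
    _ ≤ _ := this

theorem n3_sound (hk : 0 < k) (hρ1 : ρ < 1) (hs : 0 < s) (hc : 0 < c) (hkh : Ub k kh)
    {Psl Psh Qcl Qch cwl cwh Tml Tmh : ℕ} (hPl : Lb (sB * s) Psl) (hPh : Ub (sB * s) Psh)
    (hQl : Lb (cA * c) Qcl) (hQh : Ub (cA * c) Qch) (hcl : Lb (sB * c + cA * s) cwl)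
    (hch : Ub (sB * c + cA * s) cwh) (hTl : Lb ((1 - ρ) / (1 - ρ * k ^ 2)) Tml)
    (hTh : Ub ((1 - ρ) / (1 - ρ * k ^ 2)) Tmh) (hd : 0 < 1 - ρ * k ^ 2) :
    Lb (aN k ρ s c / k) (dl (n3v kh Psl Psh Qcl Qch cwl cwh Tml Tmh) kh) := by
  have hU := U_pos
  have cA0 := cA_pos
  have sB0 := sB_pos
  have hpi := Real.pi_pos
  obtain ⟨K, hK⟩ : ∃ v : ℝ, (kh : ℝ) = v * U := ⟨kh / U, by field_simp⟩
  have k1 : Lb K kh := by unfold Lb; rw [hK]
  have k2 : Ub K kh := by unfold Ub; rw [hK]
  have kK : k ≤ K := by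
    have : k * U ≤ K * U := by rw [← hK]; exact hkh
    exact le_of_mul_le_mul_right this hU
  have K0 : 0 < K := hk.trans_le kK
  set T := (1 - ρ) / (1 - ρ * k ^ 2) with hT
  have T0 : 0 < T := by rw [hT]; exact div_pos (by linarith) hd
  set w := sB * s - cA * c with hw
  set C := sB * c + cA * s with hC
  have C0 : 0 < C := by rw [hC]; positivity
  have eN : aN k ρ s c = Real.pi / 2 - Real.arctan (w / (C * T * k)) := rfl
  unfold n3v
  generalize hbo : Nat.ble Psh Qcl = bo
  rcases bo with _ | _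
  · rw [cond_false]
    have hlt : Qcl < Psh := by
      by_contra hc'
      have : Nat.ble Psh Qcl = true := by rw [Nat.ble_eq]; exact not_lt.1 hc'
      rw [hbo] at this
      exact Bool.noConfusion this
    obtain ⟨w', hw'⟩ : ∃ v : ℝ, ((Nat.sub Psh Qcl : ℕ) : ℝ) = v * U := ⟨(Nat.sub Psh Qcl : ℕ) / U, by field_simp⟩
    have w'0 : 0 < w' := by
      have h1 : 0 < Nat.sub Psh Qcl := Nat.sub_pos_of_lt hlt
      have h2 : (0 : ℝ) < ((Nat.sub Psh Qcl : ℕ) : ℝ) := by exact_mod_cast h1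
      rw [hw'] at h2
      by_contra hc'
      push Not at hc'
      nlinarith
    have ww' : w ≤ w' := by
      have h1 : Ub w (Nat.sub Psh Qcl) := Ub.sub hPh hQl le_rfl
      unfold Ub at h1
      rw [hw'] at h1
      exact le_of_mul_le_mul_right h1 hU
    have w1 : Ub w' (Nat.sub Psh Qcl) := by unfold Ub; rw [hw']
    have g1 : Lb (T * C * K / w') (dl (ml (ml Tml cwl) kh) (Nat.sub Psh Qcl)) :=
      Lb.div w'0 ((hTl.mul hcl).mul k1) w1
    have a1 := Lb.div K0 (aL_sound g1) k2
    refine a1.mono ?_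
    rw [le_div_iff₀ hk]
    have e1 : T * C * K / w' = T * C / w' * K := by ring
    have ch1 := arctan_chord (g := T * C / w') (by positivity) hk kK
    have e2 : Real.arctan (T * C * K / w') / K * k = k / K * Real.arctan (T * C / w' * K) := by
      rw [e1]; ring
    rw [e2]
    refine ch1.trans ?_
    rw [eN]
    rcases le_or_gt w 0 with h0 | h0
    · have h1 : Real.arctan (w / (C * T * k)) ≤ 0 := by
        rw [← Real.arctan_zero]
        apply Real.arctan_strictMono.monotone
        exact div_nonpos_of_nonpos_of_nonneg h0 (by positivity)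
      linarith [Real.arctan_lt_pi_div_two (T * C / w' * k)]
    · have h1 : 0 < w / (C * T * k) := by positivity
      have h2 := Real.arctan_inv_of_pos h1
      rw [← h2]
      apply Real.arctan_strictMono.monotone
      rw [inv_div]
      have : T * C / w' * k = C * T * k / w' := by ring
      rw [this]
      exact div_le_div_of_nonneg_left (by positivity) h0 ww'
  · rw [cond_true]
    rw [Nat.ble_eq] at hbo
    have hw0 : w ≤ 0 := by
      have h1 : (Psh : ℝ) ≤ Qcl := by exact_mod_cast hbo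
      have h2 : sB * s * U ≤ cA * c * U := le_trans hPh (h1.trans hQl)
      have := le_of_mul_le_mul_right h2 hU
      rw [hw]; linarith
    have g0 : Lb (-w) (Nat.sub Qcl Psh) := Lb.sub hQl hPh (by linarith) (by rw [hw]; linarith)
    have g1 : Lb (-w / (C * T * k)) (dl (Nat.sub Qcl Psh) (mh (mh cwh Tmh) kh)) :=
      Lb.div (by positivity) g0 (Ub.mul (by positivity) hk.le (Ub.mul C0.le T0.le hch hTh) hkh)
    have g2 := pH_lb.add (aL_sound g1)
    have e3 : Real.pi / 2 + Real.arctan (-w / (C * T * k)) = aN k ρ s c := by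
      rw [eN, neg_div, Real.arctan_neg]; ring
    rw [e3] at g2
    exact Lb.div hk g2 hkh

end

end Pool.Agent.S3.P3
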