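import Pool.Agent.S3.W2.P3D

/-!
# Phase 3 of the slide: soundness of the test and of the branch and bound
-/

set_option autoImplicit false

namespace Pool.Agent.S3.P3

open Pool.Agent.S3.NI

/-- The data of a point. -/
structure Dat (c1 c2 r2 la mu i0 k ρ s c h' M W r i : ℝ) : Prop where
  k0 : 0 < k
  k1 : k < 1
  ρ0 : 0 ≤ ρ
  ρ1 : ρ < 1
  s0 : 0 < s
  c0 : 0 < c
  h0 : 0 ≤ h'
  h1 : h' ≤ 1
  pt : Pt c1 c2 r2 la mu (c ^ 2 * (1 + 2 * ((k * ρ) ^ 2 / (1 - (k * ρ) ^ 2))) -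
    (k * ρ) ^ 2 / (1 - (k * ρ) ^ 2)) (vY s c (k * ρ) + i0) M W r i
  hM : M ^ 2 * (vE k ρ s c * vF k ρ s c) = vN c (k * ρ) ^ 4

section
variable {P : Prm} {kk c1 c2 r2 la mu i0 k ρ s c h' M W r i : ℝ}
  {kl kh rl rh hl hh sl sh cl ch : ℕ}

theorem st1_sound (hP : PR P kk c1 c2 r2 la mu i0) (hd : Dat c1 c2 r2 la mu i0 k ρ s c h' M W r i)
    (hkl : Lb k kl) (hkh : Ub k kh) (hrl : Lb ρ rl) (hrh : Ub ρ rh) (hhl : Lb h' hl)
    (hhh : Ub h' hh) (hsl : Lb s sl) (hsh : Ub s sh) (hcl : Lb c cl) (hch : Ub c ch)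
    (h : st1 P kl kh rl rh hl hh sl sh cl ch (ml kl rl) (mh kh rh) (ml kl kl) (mh kh kh) = true) :
    Goal kk k ρ s c h' W := by
  have hU := U_pos
  have cA0 := cA_pos
  have sB0 := sB_pos
  obtain ⟨k0, k1, ρ0, ρ1, s0, c0, h0, h1, hp, hM⟩ := hd
  set κ := k * ρ with hκ
  have κ0 : 0 ≤ κ := by rw [hκ]; positivity
  have κ1 : κ < 1 := by
    rw [hκ]
    nlinarith
  have κl : Lb κ (ml kl rl) := hkl.mul hrl
  have κh : Ub κ (mh kh rh) := Ub.mul k0.le ρ0 hkh hrh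
  generalize ml kl rl = kl' at *
  generalize mh kh rh = kh' at *
  have kkl : Lb (k ^ 2) (ml kl kl) := by rw [sq]; exact hkl.mul hkl
  have kkh : Ub (k ^ 2) (mh kh kh) := by rw [sq]; exact Ub.mul k0.le k0.le hkh hkh
  generalize ml kl kl = kkl' at *
  generalize mh kh kh = kkh' at *
  have k20 : 0 < 1 - k ^ 2 := by nlinarith
  have κ20 : 0 < 1 - κ ^ 2 := by nlinarith
  have ρk0 : 0 < 1 - ρ * k ^ 2 := by nlinarith [sq_nonneg k]
  unfold st1 st2 at h
  rw [Bool.and_eq_true, Bool.and_eq_true, Bool.and_eq_true, Bool.and_eq_true] at h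
  obtain ⟨hdel, he1, hul1, hr1, h⟩ := h
  -- basic quantities
  have q1 : Lb (κ ^ 2) (ml kl' kl') := by rw [sq]; exact κl.mul κl
  have q2 : Ub (κ ^ 2) (mh kh' kh') := by rw [sq]; exact Ub.mul κ0 κ0 κh κh
  have e1 : Lb (1 - κ ^ 2) (Nat.sub 1073741824 (mh kh' kh')) := Lb.sub lb_one q2 κ20.le le_rfl
  have e2 : Ub (1 - κ ^ 2) (Nat.sub 1073741824 (ml kl' kl')) := Ub.sub ub_one q1 le_rfl
  have b1 : Lb (κ ^ 2 / (1 - κ ^ 2)) (dl (ml kl' kl') (Nat.sub 1073741824 (ml kl' kl'))) :=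
    Lb.div κ20 q1 e2
  have b2 : Ub (κ ^ 2 / (1 - κ ^ 2)) (dh (mh kh' kh') (Nat.sub 1073741824 (mh kh' kh'))) :=
    Ub.div (by positivity) he1 q2 e1
  have b0 : 0 ≤ κ ^ 2 / (1 - κ ^ 2) := by positivity
  have de1 : Lb ((1 - k ^ 2) * (1 - κ ^ 2))
      (ml (Nat.sub 1073741824 kkh') (Nat.sub 1073741824 (mh kh' kh'))) :=
    (Lb.sub lb_one kkh k20.le le_rfl).mul e1
  have de2 : Ub ((1 - k ^ 2) * (1 - κ ^ 2))
      (mh (Nat.sub 1073741824 kkl') (Nat.sub 1073741824 (ml kl' kl'))) :=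
    Ub.mul k20.le κ20.le (Ub.sub ub_one kkl le_rfl) e2
  have u1 : Lb (cA * c + sB * s) (Nat.add (ml 1021189158 cl) (ml 331804471 sl)) :=
    (cA_lb.mul hcl).add (sB_lb.mul hsl)
  have u2 : Ub (cA * c + sB * s) (Nat.add (mh 1021189160 ch) (mh 331804473 sh)) :=
    (Ub.mul cA0.le c0.le cA_ub hch).add (Ub.mul sB0.le s0.le sB_ub hsh)
  have u0 : 0 < cA * c + sB * s := by positivity
  have P1 : Lb (sB * s) (ml 331804471 sl) := sB_lb.mul hsl
  have P2 : Ub (sB * s) (mh 331804473 sh) := Ub.mul sB0.le s0.le sB_ub hsh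
  have Q1 : Lb (cA * c) (ml 1021189158 cl) := cA_lb.mul hcl
  have Q2 : Ub (cA * c) (mh 1021189160 ch) := Ub.mul cA0.le c0.le cA_ub hch
  have C1 : Lb (sB * c + cA * s) (Nat.add (ml 331804471 cl) (ml 1021189158 sl)) :=
    (sB_lb.mul hcl).add (cA_lb.mul hsl)
  have C2 : Ub (sB * c + cA * s) (Nat.add (mh 331804473 ch) (mh 1021189160 sh)) :=
    (Ub.mul sB0.le c0.le sB_ub hch).add (Ub.mul cA0.le s0.le cA_ub hsh)
  have T1 : Lb ((1 - ρ) / (1 - ρ * k ^ 2)) (dl (Nat.sub 1073741824 rh)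
      (Nat.sub 1073741824 (ml rl kkl'))) :=
    Lb.div ρk0 (Lb.sub lb_one hrh (by linarith) le_rfl) (Ub.sub ub_one (hrl.mul kkl) le_rfl)
  have T2 : Ub ((1 - ρ) / (1 - ρ * k ^ 2)) (dh (Nat.sub 1073741824 rl)
      (Nat.sub 1073741824 (mh rh kkh'))) :=
    Ub.div (by linarith) hr1 (Ub.sub ub_one hrl le_rfl)
      (Lb.sub lb_one (Ub.mul ρ0 (by positivity) hrh kkh) ρk0.le le_rfl)
  obtain ⟨t, t5, t0, t50, t1, t6, t2⟩ := t1_sound k0 ρ0 s0 c0 hkl hkh hrl hrh hsl hsh hcl hch kkl kkh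
    u1 u2 hul1
  have t3 := t2_sound k0 c0 hkh hrl hsl hch
  have t4 := n3_sound k0 ρ1 s0 c0 hkh P1 P2 Q1 Q2 C1 C2 T1 T2 ρk0
  have hc2 : Lb (c ^ 2) (ml cl cl) := by rw [sq]; exact hcl.mul hcl
  have hc2' : Ub (c ^ 2) (mh ch ch) := by rw [sq]; exact Ub.mul c0.le c0.le hch hch
  have tb1 := lb_sm 2 b1
  have tb2 := ub_sm 2 b2
  have two : ((2 : ℕ) : ℝ) = 2 := by norm_num
  rw [two] at tb1 tb2
  have A1 := hc2.mul (lb_one.add tb1)
  have A2 := Ub.mul (by positivity) (by positivity) hc2' (ub_one.add tb2)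
  have Y1 : Lb (vY s c κ) (dl (Nat.mul 2 (ml (ml sl cl) kl')) (Nat.sub 1073741824 (ml kl' kl'))) := by
    unfold vY
    have := lb_sm 2 ((hsl.mul hcl).mul κl)
    rw [two] at this
    exact Lb.div κ20 this e2
  have Yk1 : Lb (vY s c κ / k) (dl (Nat.mul 2 (ml (ml sl cl) rl)) (Nat.sub 1073741824 (ml kl' kl'))) := by
    have e : vY s c κ / k = 2 * (s * c * ρ) / (1 - κ ^ 2) := by
      unfold vY
      rw [hκ]
      field_simp
    rw [e]
    have := lb_sm 2 ((hsl.mul hcl).mul hrl)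
    rw [two] at this
    exact Lb.div κ20 this e2
  have N1 : Lb (vN c κ) (Nat.add (ml cl cl) _) := hc2.add b1
  have N2 : Ub (vN c κ) (Nat.add (mh ch ch) _) := hc2'.add b2
  -- `E`
  have E1 : Lb (vE k ρ s c) (Nat.add (ml (Nat.add (ml 1021189158 cl) (ml 331804471 sl))
        (Nat.add (ml 1021189158 cl) (ml 331804471 sl)))
      (dl (ml (Nat.add kl kl') (Nat.add kl kl')) (mh (Nat.sub 1073741824 kkl')
        (Nat.sub 1073741824 (ml kl' kl'))))) := by
    unfold vE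
    rw [← hκ, sq (cA * c + sB * s), sq (k + κ)]
    exact (u1.mul u1).add (Lb.div (by positivity) ((hkl.add κl).mul (hkl.add κl)) de2)
  have E2 : Ub (vE k ρ s c) (Nat.add (mh (Nat.add (mh 1021189160 ch) (mh 331804473 sh))
        (Nat.add (mh 1021189160 ch) (mh 331804473 sh)))
      (dh (mh (Nat.add kh kh') (Nat.add kh kh')) (ml (Nat.sub 1073741824 kkh')
        (Nat.sub 1073741824 (mh kh' kh'))))) := by
    unfold vE
    rw [← hκ, sq (cA * c + sB * s), sq (k + κ)]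
    exact (Ub.mul u0.le u0.le u2 u2).add (Ub.div (by positivity) hdel
      (Ub.mul (by positivity) (by positivity) (hkh.add κh) (hkh.add κh)) de1)
  -- `F`
  have w1 : Lb |sB * s - cA * c| (Nat.add (Nat.sub (ml 331804471 sl) (mh 1021189160 ch))
      (Nat.sub (ml 1021189158 cl) (mh 331804473 sh))) := by
    have m1 : Mem (sB * s) ⟨ml 331804471 sl, mh 331804473 sh⟩ := ⟨P1, P2⟩
    have m2 : Mem (cA * c) ⟨ml 1021189158 cl, mh 1021189160 ch⟩ := ⟨Q1, Q2⟩
    exact (m1.ad m2).1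
  have w2 : Ub |sB * s - cA * c| (mx (Nat.sub (mh 331804473 sh) (ml 1021189158 cl))
      (Nat.sub (mh 1021189160 ch) (ml 331804471 sl))) := by
    have m1 : Mem (sB * s) ⟨ml 331804471 sl, mh 331804473 sh⟩ := ⟨P1, P2⟩
    have m2 : Mem (cA * c) ⟨ml 1021189158 cl, mh 1021189160 ch⟩ := ⟨Q1, Q2⟩
    exact (m1.ad m2).2
  have km1 : Lb (k * (1 - ρ)) (ml kl (Nat.sub 1073741824 rh)) :=
    hkl.mul (Lb.sub lb_one hrh (by linarith) le_rfl)
  have km2 : Ub (k * (1 - ρ)) (mh kh (Nat.sub 1073741824 rl)) :=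
    Ub.mul k0.le (by linarith) hkh (Ub.sub ub_one hrl le_rfl)
  have km0 : 0 ≤ k * (1 - ρ) := mul_nonneg k0.le (by linarith)
  have F1 : Lb (vF k ρ s c) (Nat.add (ml (Nat.add (Nat.sub (ml 331804471 sl) (mh 1021189160 ch))
      (Nat.sub (ml 1021189158 cl) (mh 331804473 sh))) (Nat.add (Nat.sub (ml 331804471 sl)
        (mh 1021189160 ch)) (Nat.sub (ml 1021189158 cl) (mh 331804473 sh))))
      (dl (ml (ml kl (Nat.sub 1073741824 rh)) (ml kl (Nat.sub 1073741824 rh)))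
        (mh (Nat.sub 1073741824 kkl') (Nat.sub 1073741824 (ml kl' kl'))))) := by
    unfold vF
    rw [← hκ, ← sq_abs (sB * s - cA * c), sq |sB * s - cA * c|, sq (k * (1 - ρ))]
    exact (w1.mul w1).add (Lb.div (by positivity) (km1.mul km1) de2)
  have F2 : Ub (vF k ρ s c) (Nat.add (mh (mx (Nat.sub (mh 331804473 sh) (ml 1021189158 cl))
      (Nat.sub (mh 1021189160 ch) (ml 331804471 sl))) (mx (Nat.sub (mh 331804473 sh)
        (ml 1021189158 cl)) (Nat.sub (mh 1021189160 ch) (ml 331804471 sl))))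
      (dh (mh (mh kh (Nat.sub 1073741824 rl)) (mh kh (Nat.sub 1073741824 rl)))
        (ml (Nat.sub 1073741824 kkh') (Nat.sub 1073741824 (mh kh' kh'))))) := by
    unfold vF
    rw [← hκ, ← sq_abs (sB * s - cA * c), sq |sB * s - cA * c|, sq (k * (1 - ρ))]
    exact (Ub.mul (abs_nonneg _) (abs_nonneg _) w2 w2).add (Ub.div (by positivity) hdel
      (Ub.mul km0 km0 km2 km2) de1)
  have F0 : 0 ≤ vF k ρ s c := F1.nonneg
  have E0 : 0 ≤ vE k ρ s c := E1.nonneg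
  have Pr1 := E1.mul F1
  have Pr2 := Ub.mul E0 F0 E2 F2
  -- loss and gain
  have D1 : Ub (kk * (1 + 37 / 100 * k ^ 2) + (1 + h') * t) (Dp P hh kkh' (t1v
        (dh (Nat.sub (mh 1021189160 sh) (ml 331804471 cl)) (Nat.add (ml 1021189158 cl)
          (ml 331804471 sl)))
        (dh (Nat.add 1073741824 rh) (Nat.add 1073741824 (ml rl kkl')))
        (ml (ml (dl (Nat.sub (ml 1021189158 sl) (mh 331804473 ch)) (Nat.add (mh 1021189160 ch)
          (mh 331804473 sh)))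
          (dl (Nat.add 1073741824 rl) (Nat.add 1073741824 (mh rh kkh')))) kl))) := by
    unfold Dp
    have x1 : Ub (1 + 37 / 100 * k ^ 2)
        (Nat.succ (Nat.add 1073741824 (Nat.div (Nat.mul 37 kkh') 100))) := by
      have x2 := ub_div_nat 100 (by norm_num) (ub_sm 37 kkh)
      have e : ((37 : ℕ) : ℝ) * k ^ 2 / ((100 : ℕ) : ℝ) = 37 / 100 * k ^ 2 := by push_cast; ring
      rw [e] at x2
      have x3 := ub_one.add x2
      have e2 : Nat.add 1073741824 (Nat.succ (Nat.div (Nat.mul 37 kkh') 100)) =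
          Nat.succ (Nat.add 1073741824 (Nat.div (Nat.mul 37 kkh') 100)) := rfl
      rwa [e2] at x3
    exact (Ub.mul hP.kk0 (by positivity) hP.hkk x1).add
      (Ub.mul (by positivity) t0 (ub_one.add hhh) t2)
  have D2 := ((lb_sm 4 (hhl.mul t3)).add ((Lb.sub lb_one hhh (by linarith : (0:ℝ) ≤ 1 - h')
    le_rfl).mul t4)).add ((lb_one.add hhl).mul t6)
  by_contra hG
  unfold Goal at hG
  push Not at hG
  refine st3_sound hP hp rfl k0 hkh h0 hhl (by positivity) Yk1 A1 A2 b1 b2 Y1 N1 N2 Pr1 Pr2 hM D1 D2 h ?_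
  have four : ((4 : ℕ) : ℝ) = 4 := by norm_num
  rw [four]
  unfold vG at hG
  have y1 : (1 + h') * aP k ρ s c ≤ (1 + h') * ((t - t5) * k) :=
    mul_le_mul_of_nonneg_left t1 (by positivity)
  have y2 : 4 * (h' * (Real.arctan (ρ * s / c * k) / k)) * k = 4 * h' * Real.arctan (ρ * s / c * k) := by
    field_simp
  have y3 : (1 - h') * (aN k ρ s c / k) * k = (1 - h') * aN k ρ s c := by
    field_simp
  have e5 : (kk * (1 + 37 / 100 * k ^ 2) + (1 + h') * t -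
      (4 * (h' * (Real.arctan (ρ * s / c * k) / k)) + (1 - h') * (aN k ρ s c / k) +
        (1 + h') * t5)) * k =
      kk * (1 + 37 / 100 * k ^ 2) * k + (1 + h') * ((t - t5) * k) -
      (4 * (h' * (Real.arctan (ρ * s / c * k) / k)) * k + (1 - h') * (aN k ρ s c / k) * k) := by ring
  rw [e5, y2, y3]
  linarith

end

/-! ### The variable `z = tan (π t / 2)` -/

theorem sL_cast (z : ℕ) (v : ℝ) (hv : (z : ℝ) = v * U) :
    ((sL z : ℕ) : ℝ) ≤ 2 * v / (1 + v ^ 2) * U ∧ 2 * v / (1 + v ^ 2) * U ≤ ((sH z : ℕ) : ℝ) := by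
  have hU := U_pos
  have e1 : ((Nat.mul z 2305843009213693952 : ℕ) : ℝ) = 2 * v * U * U ^ 2 := by
    have : ((Nat.mul z 2305843009213693952 : ℕ) : ℝ) = (z : ℝ) * 2305843009213693952 := by
      show ((z * 2305843009213693952 : ℕ) : ℝ) = _
      push_cast
      ring
    rw [this, hv]
    norm_num [U]
    ring
  have e2 : ((Nat.add 1152921504606846976 (Nat.mul z z) : ℕ) : ℝ) = (1 + v ^ 2) * U ^ 2 := by
    have : ((Nat.add 1152921504606846976 (Nat.mul z z) : ℕ) : ℝ) =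
        1152921504606846976 + (z : ℝ) * z := by
      show ((1152921504606846976 + z * z : ℕ) : ℝ) = _
      push_cast
      ring
    rw [this, hv]
    norm_num [U]
    ring
  have e3 : 2 * v * U * U ^ 2 / ((1 + v ^ 2) * U ^ 2) = 2 * v / (1 + v ^ 2) * U := by
    have : (1 + v ^ 2) ≠ 0 := by positivity
    field_simp
  have hp : 0 < Nat.add 1152921504606846976 (Nat.mul z z) := by
    show 0 < 1152921504606846976 + z * z
    positivity
  constructor
  · unfold sL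
    refine (nat_div_le _ _).trans ?_
    rw [e1, e2, e3]
  · unfold sH sL
    refine le_trans ?_ (le_succ_div _ hp)
    rw [e1, e2, e3]

theorem cL_cast (z : ℕ) (v : ℝ) (hv : (z : ℝ) = v * U) (hv0 : 0 ≤ v) (hv1 : v ≤ 1) :
    ((cL z : ℕ) : ℝ) ≤ (1 - v ^ 2) / (1 + v ^ 2) * U ∧
      (1 - v ^ 2) / (1 + v ^ 2) * U ≤ ((cH z : ℕ) : ℝ) := by
  have hU := U_pos
  have hz : z * z ≤ 1152921504606846976 := by
    have h1 : (z : ℝ) ≤ 1073741824 := by
      rw [hv]; unfold U; nlinarith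
    have h2 : z ≤ 1073741824 := by exact_mod_cast h1
    calc z * z ≤ 1073741824 * 1073741824 := Nat.mul_le_mul h2 h2
      _ = _ := by norm_num
  have e1 : ((Nat.mul (Nat.sub 1152921504606846976 (Nat.mul z z)) 1073741824 : ℕ) : ℝ) =
      (1 - v ^ 2) * U * U ^ 2 := by
    have : ((Nat.mul (Nat.sub 1152921504606846976 (Nat.mul z z)) 1073741824 : ℕ) : ℝ) =
        (1152921504606846976 - (z : ℝ) * z) * 1073741824 := by
      show (((1152921504606846976 - z * z) * 1073741824 : ℕ) : ℝ) = _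
      rw [Nat.cast_mul, Nat.cast_sub hz]
      push_cast
      ring
    rw [this, hv]
    norm_num [U]
    ring
  have e2 : ((Nat.add 1152921504606846976 (Nat.mul z z) : ℕ) : ℝ) = (1 + v ^ 2) * U ^ 2 := by
    have : ((Nat.add 1152921504606846976 (Nat.mul z z) : ℕ) : ℝ) =
        1152921504606846976 + (z : ℝ) * z := by
      show ((1152921504606846976 + z * z : ℕ) : ℝ) = _
      push_cast
      ring
    rw [this, hv]
    norm_num [U]
    ring
  have e3 : (1 - v ^ 2) * U * U ^ 2 / ((1 + v ^ 2) * U ^ 2) = (1 - v ^ 2) / (1 + v ^ 2) * U := by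
    have : (1 + v ^ 2) ≠ 0 := by positivity
    field_simp
  have hp : 0 < Nat.add 1152921504606846976 (Nat.mul z z) := by
    show 0 < 1152921504606846976 + z * z
    positivity
  constructor
  · unfold cL
    refine (nat_div_le _ _).trans ?_
    rw [e1, e2, e3]
  · unfold cH cL
    refine le_trans ?_ (le_succ_div _ hp)
    rw [e1, e2, e3]

theorem s_mono {a b : ℝ} (h0 : 0 ≤ a) (h : a ≤ b) (h1 : b ≤ 1) :
    2 * a / (1 + a ^ 2) ≤ 2 * b / (1 + b ^ 2) := by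
  rw [div_le_div_iff₀ (by positivity) (by positivity)]
  have : 0 ≤ (b - a) * (1 - a * b) := mul_nonneg (by linarith) (by nlinarith)
  nlinarith

theorem c_mono {a b : ℝ} (h0 : 0 ≤ a) (h : a ≤ b) :
    (1 - b ^ 2) / (1 + b ^ 2) ≤ (1 - a ^ 2) / (1 + a ^ 2) := by
  rw [div_le_div_iff₀ (by positivity) (by positivity)]
  nlinarith

section
variable {P : Prm} {kk c1 c2 r2 la mu i0 k ρ s c h' M W r i z : ℝ}
  {kl kh rl rh hl hh zl zh : ℕ}

theorem tst_sound (hP : PR P kk c1 c2 r2 la mu i0) (hd : Dat c1 c2 r2 la mu i0 k ρ s c h' M W r i)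
    (hz0 : 0 < z) (hz1 : z < 1) (hs : s = 2 * z / (1 + z ^ 2)) (hc : c = (1 - z ^ 2) / (1 + z ^ 2))
    (hkl : Lb k kl) (hkh : Ub k kh) (hrl : Lb ρ rl) (hrh : Ub ρ rh) (hhl : Lb h' hl)
    (hhh : Ub h' hh) (hzl : Lb z zl) (hzh : Ub z zh)
    (h : tst P kl kh rl rh zl zh hl hh = true) : Goal kk k ρ s c h' W := by
  have hU := U_pos
  unfold tst at h
  rw [Bool.and_eq_true] at h
  obtain ⟨h1, h2⟩ := h
  obtain ⟨a, ha⟩ : ∃ v : ℝ, (zl : ℝ) = v * U := ⟨zl / U, by field_simp⟩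
  obtain ⟨b, hb⟩ : ∃ v : ℝ, (zh : ℝ) = v * U := ⟨zh / U, by field_simp⟩
  have ha0 : 0 ≤ a := by
    have y0 : (0 : ℝ) ≤ zl := zl.cast_nonneg
    rw [ha] at y0
    exact le_of_mul_le_mul_right (by rw [zero_mul]; exact y0) hU
  have haz : a ≤ z := by
    have : a * U ≤ z * U := by rw [← ha]; exact hzl
    exact le_of_mul_le_mul_right this hU
  have hzb : z ≤ b := by
    have : z * U ≤ b * U := by rw [← hb]; exact hzh
    exact le_of_mul_le_mul_right this hU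
  have hb1 : b ≤ 1 := by
    rw [Nat.ble_eq] at h1
    have : (zh : ℝ) ≤ 1073741824 := by exact_mod_cast h1
    rw [hb] at this
    have e : (1073741824 : ℝ) = 1 * U := by rw [one_mul]; rfl
    rw [e] at this
    exact le_of_mul_le_mul_right this hU
  have s1 : Lb s (sL zl) := by
    rw [hs]
    exact (sL_cast zl a ha).1.trans (mul_le_mul_of_nonneg_right (s_mono ha0 haz hz1.le) hU.le)
  have s2 : Ub s (sH zh) := by
    rw [hs]
    exact (mul_le_mul_of_nonneg_right (s_mono hz0.le hzb hb1) hU.le).trans (sL_cast zh b hb).2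
  have c1' : Lb c (cL zh) := by
    rw [hc]
    exact (cL_cast zh b hb (hz0.le.trans hzb) hb1).1.trans
      (mul_le_mul_of_nonneg_right (c_mono hz0.le hzb) hU.le)
  have c2' : Ub c (cH zl) := by
    rw [hc]
    exact (mul_le_mul_of_nonneg_right (c_mono ha0 haz) hU.le).trans
      (cL_cast zl a ha ha0 (haz.trans hz1.le)).2
  exact st1_sound hP hd hkl hkh hrl hrh hhl hhh s1 s2 c1' c2' h2

/-- `h' = ρ (1 - k²) / (1 - ρ² k²)`. -/
noncomputable def hv (k ρ : ℝ) : ℝ := ρ * (1 - k ^ 2) / (1 - (k * ρ) ^ 2)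

theorem hv_bd (hk0 : 0 < k) (hk1 : k < 1) (hr0 : 0 ≤ ρ) (hr1 : ρ < 1) : 0 ≤ hv k ρ ∧ hv k ρ ≤ 1 := by
  have h1 : 0 < 1 - (k * ρ) ^ 2 := by
    have : k * ρ < 1 := by nlinarith
    have : 0 ≤ k * ρ := by positivity
    nlinarith
  have h2 : 0 ≤ 1 - k ^ 2 := by nlinarith
  unfold hv
  refine ⟨by positivity, ?_⟩
  rw [div_le_one h1]
  have : 0 ≤ (1 - ρ) * (1 - ρ * k ^ 2) + 0 := by
    have : ρ * k ^ 2 ≤ 1 := by nlinarith [sq_nonneg k]
    nlinarith
  nlinarith [mul_nonneg (mul_nonneg hr0 (sub_nonneg.2 hr1.le)) (sq_nonneg k), sq_nonneg k]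

theorem hL_sound (hk0 : 0 < k) (hk1 : k < 1) (hr0 : 0 ≤ ρ) (hr1 : ρ < 1) (hkh : Ub k kh)
    (hrl : Lb ρ rl) (hc : Nat.ble (mh kh kh) 1073741824 = true) : Lb (hv k ρ) (hL kh rl) := by
  have hU := U_pos
  obtain ⟨K, hK⟩ : ∃ v : ℝ, (kh : ℝ) = v * U := ⟨kh / U, by field_simp⟩
  obtain ⟨Q, hQ⟩ : ∃ v : ℝ, (rl : ℝ) = v * U := ⟨rl / U, by field_simp⟩
  have k1 : Lb K kh := by unfold Lb; rw [hK]
  have k2 : Ub K kh := by unfold Ub; rw [hK]
  have q1 : Lb Q rl := by unfold Lb; rw [hQ]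
  have kK : k ≤ K := by
    have : k * U ≤ K * U := by rw [← hK]; exact hkh
    exact le_of_mul_le_mul_right this hU
  have Qr : Q ≤ ρ := by
    have : Q * U ≤ ρ * U := by rw [← hQ]; exact hrl
    exact le_of_mul_le_mul_right this hU
  have K0 : 0 < K := hk0.trans_le kK
  have Q0 := q1.nonneg
  have KK : K ^ 2 ≤ 1 := by
    have := (Ub.mul K0.le K0.le k2 k2).le_of lb_one hc
    nlinarith
  have h1 : 0 < 1 - (K * Q) ^ 2 := by
    have h2 : K ≤ 1 := by nlinarith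
    have h3 : K * Q < 1 := by nlinarith
    have h4 : 0 ≤ K * Q := by positivity
    nlinarith
  have h1' : 0 < 1 - (k * ρ) ^ 2 := by
    have : k * ρ < 1 := by nlinarith
    have : 0 ≤ k * ρ := by positivity
    nlinarith
  have a1 : Lb (Q * (1 - K ^ 2) / (1 - (K * Q) ^ 2)) (hL kh rl) := by
    unfold hL
    have m := k1.mul q1
    have m2 := m.mul m
    rw [← sq] at m2
    have kk := Ub.mul K0.le K0.le k2 k2
    rw [← sq] at kk
    exact Lb.div h1 (q1.mul (Lb.sub lb_one kk (by linarith) le_rfl)) (Ub.sub ub_one m2 le_rfl)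
  refine a1.mono ?_
  -- monotone in `k` and in `ρ`
  have s1 : Q * (1 - K ^ 2) / (1 - (K * Q) ^ 2) ≤ Q * (1 - k ^ 2) / (1 - (k * Q) ^ 2) := by
    have h2 : 0 < 1 - (k * Q) ^ 2 := by
      have h3 : k * Q < 1 := by nlinarith
      have h4 : 0 ≤ k * Q := by positivity
      nlinarith
    rw [div_le_div_iff₀ h1 h2]
    have h5 : 0 ≤ Q * ((K ^ 2 - k ^ 2) * (1 - Q ^ 2)) := by
      apply mul_nonneg Q0
      apply mul_nonneg
      · nlinarith
      · nlinarith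
    nlinarith
  refine s1.trans ?_
  have h2 : 0 < 1 - (k * Q) ^ 2 := by
    have h3 : k * Q < 1 := by nlinarith
    have h4 : 0 ≤ k * Q := by positivity
    nlinarith
  unfold hv
  have k20 : 0 ≤ 1 - k ^ 2 := by nlinarith
  have h6 : Q / (1 - (k * Q) ^ 2) ≤ ρ / (1 - (k * ρ) ^ 2) := by
    rw [div_le_div_iff₀ h2 h1']
    have h7 : 0 ≤ (ρ - Q) * (1 + k ^ 2 * (Q * ρ)) := mul_nonneg (by linarith) (by positivity)
    nlinarith
  calc Q * (1 - k ^ 2) / (1 - (k * Q) ^ 2) = Q / (1 - (k * Q) ^ 2) * (1 - k ^ 2) := by ring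
    _ ≤ ρ / (1 - (k * ρ) ^ 2) * (1 - k ^ 2) := mul_le_mul_of_nonneg_right h6 k20
    _ = _ := by ring

theorem hH_sound (hk0 : 0 < k) (hk1 : k < 1) (hr0 : 0 ≤ ρ) (hkl : Lb k kl)
    (hrh : Ub ρ rh) (hrh1 : Nat.ble rh 1073741823 = true)
    (hc : Nat.ble 1 (Nat.sub 1073741824 (mh (mh kl rh) (mh kl rh))) = true) :
    Ub (hv k ρ) (hH kl rh) := by
  have hU := U_pos
  obtain ⟨K, hK⟩ : ∃ v : ℝ, (kl : ℝ) = v * U := ⟨kl / U, by field_simp⟩
  obtain ⟨Q, hQ⟩ : ∃ v : ℝ, (rh : ℝ) = v * U := ⟨rh / U, by field_simp⟩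
  have k1 : Lb K kl := by unfold Lb; rw [hK]
  have k2 : Ub K kl := by unfold Ub; rw [hK]
  have q2 : Ub Q rh := by unfold Ub; rw [hQ]
  have kK : K ≤ k := by
    have : K * U ≤ k * U := by rw [← hK]; exact hkl
    exact le_of_mul_le_mul_right this hU
  have Qr : ρ ≤ Q := by
    have : ρ * U ≤ Q * U := by rw [← hQ]; exact hrh
    exact le_of_mul_le_mul_right this hU
  have Q1 : Q < 1 := by
    rw [Nat.ble_eq] at hrh1
    have : (rh : ℝ) ≤ 1073741823 := by exact_mod_cast hrh1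
    rw [hQ] at this
    unfold U at this
    linarith
  have K0 := k1.nonneg
  have Q0 : 0 ≤ Q := hr0.trans Qr
  have h1 : 0 < 1 - (K * Q) ^ 2 := by
    have h3 : K * Q < 1 := by nlinarith
    have h4 : 0 ≤ K * Q := by positivity
    nlinarith
  have h1' : 0 < 1 - (k * ρ) ^ 2 := by
    have : k * ρ < 1 := by nlinarith
    have : 0 ≤ k * ρ := by positivity
    nlinarith
  have K20 : 0 ≤ 1 - K ^ 2 := by nlinarith
  have a1 : Ub (Q * (1 - K ^ 2) / (1 - (K * Q) ^ 2)) (hH kl rh) := by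
    unfold hH
    have m := Ub.mul K0 Q0 k2 q2
    have m2 := Ub.mul (by positivity) (by positivity) m m
    rw [← sq] at m2
    have kk := k1.mul k1
    rw [← sq] at kk
    exact Ub.div (by positivity) hc (Ub.mul Q0 K20 q2 (Ub.sub ub_one kk le_rfl))
      (Lb.sub lb_one m2 h1.le le_rfl)
  refine a1.mono ?_
  have h2 : 0 < 1 - (k * Q) ^ 2 := by
    have h3 : k * Q < 1 := by nlinarith
    have h4 : 0 ≤ k * Q := by positivity
    nlinarith
  have s1 : Q * (1 - k ^ 2) / (1 - (k * Q) ^ 2) ≤ Q * (1 - K ^ 2) / (1 - (K * Q) ^ 2) := by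
    rw [div_le_div_iff₀ h2 h1]
    have h5 : 0 ≤ Q * ((k ^ 2 - K ^ 2) * (1 - Q ^ 2)) := by
      apply mul_nonneg Q0
      apply mul_nonneg
      · nlinarith
      · nlinarith
    nlinarith
  refine le_trans ?_ s1
  unfold hv
  have k20 : 0 ≤ 1 - k ^ 2 := by nlinarith
  have h6 : ρ / (1 - (k * ρ) ^ 2) ≤ Q / (1 - (k * Q) ^ 2) := by
    rw [div_le_div_iff₀ h1' h2]
    have h7 : 0 ≤ (Q - ρ) * (1 + k ^ 2 * (Q * ρ)) := mul_nonneg (by linarith) (by positivity)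
    nlinarith
  calc ρ * (1 - k ^ 2) / (1 - (k * ρ) ^ 2) = ρ / (1 - (k * ρ) ^ 2) * (1 - k ^ 2) := by ring
    _ ≤ Q / (1 - (k * Q) ^ 2) * (1 - k ^ 2) := mul_le_mul_of_nonneg_right h6 k20
    _ = _ := by ring

end

/-! ### Branch and bound -/

/-- `h'` in the two cases. -/
noncomputable def hm (m : Bool) (k ρ : ℝ) : ℝ := bif m then 0 else hv k ρ

section
variable {P : Prm} {kk c1 c2 r2 la mu i0 k ρ s c M W r i z : ℝ}

theorem ts_sound {m : Bool} {kl kh rl rh zl zh : ℕ} (hP : PR P kk c1 c2 r2 la mu i0)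
    (hd : Dat c1 c2 r2 la mu i0 k ρ s c (hm m k ρ) M W r i)
    (hz0 : 0 < z) (hz1 : z < 1) (hs : s = 2 * z / (1 + z ^ 2)) (hc : c = (1 - z ^ 2) / (1 + z ^ 2))
    (hkl : Lb k kl) (hkh : Ub k kh) (hrl : Lb ρ rl) (hrh : Ub ρ rh) (hzl : Lb z zl)
    (hzh : Ub z zh) (h : ts m P kl kh rl rh zl zh = true) : Goal kk k ρ s c (hm m k ρ) W := by
  unfold ts at h
  rcases m with _ | _
  · rw [cond_false, Bool.and_eq_true] at h
    obtain ⟨h1, h2⟩ := h
    unfold hck at h1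
    rw [Bool.and_eq_true, Bool.and_eq_true] at h1
    obtain ⟨h3, h4, h5⟩ := h1
    exact tst_sound hP hd hz0 hz1 hs hc hkl hkh hrl hrh
      (hL_sound hd.k0 hd.k1 hd.ρ0 hd.ρ1 hkh hrl h3) (hH_sound hd.k0 hd.k1 hd.ρ0 hkl hrh h4 h5)
      hzl hzh h2
  · rw [cond_true] at h
    have e : hm true k ρ = 0 := rfl
    rw [e] at hd ⊢
    refine tst_sound hP hd hz0 hz1 hs hc hkl hkh hrl hrh (lb_zero le_rfl) ?_ hzl hzh h
    unfold Ub
    rw [zero_mul]
    exact Nat.cast_nonneg _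

theorem split {x : ℝ} (n : ℕ) : Ub x n ∨ Lb x n := le_total _ _

theorem bb_sound {m : Bool} (hP : PR P kk c1 c2 r2 la mu i0)
    (hd : Dat c1 c2 r2 la mu i0 k ρ s c (hm m k ρ) M W r i)
    (hz0 : 0 < z) (hz1 : z < 1) (hs : s = 2 * z / (1 + z ^ 2)) (hc : c = (1 - z ^ 2) / (1 + z ^ 2)) :
    ∀ (f kl kh rl rh zl zh : ℕ), bb m P f kl kh rl rh zl zh = true →
      Lb k kl → Ub k kh → Lb ρ rl → Ub ρ rh → Lb z zl → Ub z zh →
      Goal kk k ρ s c (hm m k ρ) W := by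
  intro f
  induction f with
  | zero =>
    intro kl kh rl rh zl zh h
    exact absurd h (by unfold bb; exact Bool.false_ne_true)
  | succ f ih =>
    intro kl kh rl rh zl zh h hkl hkh hrl hrh hzl hzh
    unfold bb at h
    rw [Bool.or_eq_true] at h
    rcases h with h | h
    · exact ts_sound hP hd hz0 hz1 hs hc hkl hkh hrl hrh hzl hzh h
    · generalize Nat.ble (Nat.mul 2 (Nat.sub zh zl)) (mx (Nat.sub kh kl) (Nat.sub rh rl)) = b1 at h
      rcases b1 with _ | _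
      · rw [cond_false, Bool.and_eq_true] at h
        rcases split (x := z) (Nat.div (Nat.add zl zh) 2) with h1 | h1
        · exact ih _ _ _ _ _ _ h.1 hkl hkh hrl hrh hzl h1
        · exact ih _ _ _ _ _ _ h.2 hkl hkh hrl hrh h1 hzh
      · rw [cond_true] at h
        generalize Nat.ble (Nat.sub rh rl) (Nat.sub kh kl) = b2 at h
        rcases b2 with _ | _
        · rw [cond_false, Bool.and_eq_true] at h
          rcases split (x := ρ) (Nat.div (Nat.add rl rh) 2) with h1 | h1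
          · exact ih _ _ _ _ _ _ h.1 hkl hkh hrl h1 hzl hzh
          · exact ih _ _ _ _ _ _ h.2 hkl hkh h1 hrh hzl hzh
        · rw [cond_true, Bool.and_eq_true] at h
          rcases split (x := k) (Nat.div (Nat.add kl kh) 2) with h1 | h1
          · exact ih _ _ _ _ _ _ h.1 hkl h1 hrl hrh hzl hzh
          · exact ih _ _ _ _ _ _ h.2 h1 hkh hrl hrh hzl hzh

end

end Pool.Agent.S3.P3
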