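import Pool.Agent.S3.LowA

/-!
# Phase 3 of the slide: the dictionary
-/

set_option autoImplicit false

namespace Pool.Agent.S3.P3

open Complex

/-! ### Sines -/

theorem sn (a b : ℝ) : sin ((Real.pi : ℂ) * ((a : ℂ) + (b : ℂ) * I)) =
    ((Real.sin (Real.pi * a) * Real.cosh (Real.pi * b) : ℝ) : ℂ) +
      ((Real.cos (Real.pi * a) * Real.sinh (Real.pi * b) : ℝ) : ℂ) * I := by
  have e : (Real.pi : ℂ) * ((a : ℂ) + (b : ℂ) * I) =
      ((Real.pi * a : ℝ) : ℂ) + ((Real.pi * b : ℝ) : ℂ) * I := by push_cast; ring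
  rw [e, Complex.sin_add, Complex.cos_mul_I, Complex.sin_mul_I, ← ofReal_cosh, ← ofReal_sinh,
    ← ofReal_sin, ← ofReal_cos]
  push_cast
  ring

theorem csn (a b : ℝ) : cos ((Real.pi : ℂ) * ((a : ℂ) + (b : ℂ) * I)) =
    ((Real.cos (Real.pi * a) * Real.cosh (Real.pi * b) : ℝ) : ℂ) -
      ((Real.sin (Real.pi * a) * Real.sinh (Real.pi * b) : ℝ) : ℂ) * I := by
  have e : (Real.pi : ℂ) * ((a : ℂ) + (b : ℂ) * I) =
      ((Real.pi * a : ℝ) : ℂ) + ((Real.pi * b : ℝ) : ℂ) * I := by push_cast; ring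
  rw [e, Complex.cos_add, Complex.cos_mul_I, Complex.sin_mul_I, ← ofReal_cosh, ← ofReal_sinh,
    ← ofReal_sin, ← ofReal_cos]
  push_cast
  ring

theorem nsn (a b : ℝ) : ‖sin ((Real.pi : ℂ) * ((a : ℂ) + (b : ℂ) * I))‖ ^ 2 =
    Real.sin (Real.pi * a) ^ 2 + Real.sinh (Real.pi * b) ^ 2 := by
  rw [sn, ← normSq_eq_norm_sq, normSq_add_mul_I]
  have h1 := Real.sin_sq_add_cos_sq (Real.pi * a)
  have h2 := Real.cosh_sq (Real.pi * b)
  have e : (Real.sin (Real.pi * a) * Real.cosh (Real.pi * b)) ^ 2 +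
      (Real.cos (Real.pi * a) * Real.sinh (Real.pi * b)) ^ 2 =
      Real.sin (Real.pi * a) ^ 2 * (Real.cosh (Real.pi * b) ^ 2) +
      Real.cos (Real.pi * a) ^ 2 * Real.sinh (Real.pi * b) ^ 2 := by ring
  rw [e, h2]
  have h3 : Real.cos (Real.pi * a) ^ 2 = 1 - Real.sin (Real.pi * a) ^ 2 := by linarith
  rw [h3]; ring

theorem ncs (a b : ℝ) : ‖cos ((Real.pi : ℂ) * ((a : ℂ) + (b : ℂ) * I))‖ ^ 2 =
    Real.cos (Real.pi * a) ^ 2 + Real.sinh (Real.pi * b) ^ 2 := by
  rw [csn, sub_eq_add_neg, ← neg_mul, ← ofReal_neg, ← normSq_eq_norm_sq, normSq_add_mul_I]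
  have h1 := Real.sin_sq_add_cos_sq (Real.pi * a)
  have h2 := Real.cosh_sq (Real.pi * b)
  have e : (Real.cos (Real.pi * a) * Real.cosh (Real.pi * b)) ^ 2 +
      (-(Real.sin (Real.pi * a) * Real.sinh (Real.pi * b))) ^ 2 =
      Real.cos (Real.pi * a) ^ 2 * (Real.cosh (Real.pi * b) ^ 2) +
      Real.sin (Real.pi * a) ^ 2 * Real.sinh (Real.pi * b) ^ 2 := by ring
  rw [e, h2]
  have h3 : Real.sin (Real.pi * a) ^ 2 = 1 - Real.cos (Real.pi * a) ^ 2 := by linarith
  rw [h3]; ring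

/-- `cos² π z` -/
theorem cs2 (a b : ℝ) : cos ((Real.pi : ℂ) * ((a : ℂ) + (b : ℂ) * I)) ^ 2 =
    ((Real.cos (Real.pi * a) ^ 2 + Real.sinh (Real.pi * b) ^ 2 *
      (2 * Real.cos (Real.pi * a) ^ 2 - 1) : ℝ) : ℂ) -
      ((2 * (Real.sin (Real.pi * a) * Real.cos (Real.pi * a)) *
        (Real.sinh (Real.pi * b) * Real.cosh (Real.pi * b)) : ℝ) : ℂ) * I := by
  rw [csn]
  have h1 := Real.sin_sq_add_cos_sq (Real.pi * a)
  have h2 := Real.cosh_sq (Real.pi * b)
  generalize Real.cos (Real.pi * a) = c at *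
  generalize Real.sin (Real.pi * a) = s at *
  generalize Real.cosh (Real.pi * b) = C at *
  generalize Real.sinh (Real.pi * b) = S at *
  have e : (((c * C : ℝ) : ℂ) - ((s * S : ℝ) : ℂ) * I) ^ 2 =
      (((c * C) ^ 2 - (s * S) ^ 2 : ℝ) : ℂ) - ((2 * (s * c) * (S * C) : ℝ) : ℂ) * I := by
    push_cast
    linear_combination (((s : ℂ) * S) ^ 2) * I_sq
  rw [e]
  have e2 : (c * C) ^ 2 - (s * S) ^ 2 = c ^ 2 + S ^ 2 * (2 * c ^ 2 - 1) := by
    have h3 : s ^ 2 = 1 - c ^ 2 := by linarith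
    rw [mul_pow, mul_pow, h2, h3]; ring
  rw [e2]

/-- `sin π (y - w) sin π (y + w) = cos² π w - cos² π y` -/
theorem sin_mul_sin (y w : ℂ) : sin (Real.pi * (y - w)) * sin (Real.pi * (y + w)) =
    cos (Real.pi * w) ^ 2 - cos (Real.pi * y) ^ 2 := by
  have e1 : (Real.pi : ℂ) * (y - w) = Real.pi * y - Real.pi * w := by ring
  have e2 : (Real.pi : ℂ) * (y + w) = Real.pi * y + Real.pi * w := by ring
  rw [e1, e2, Complex.sin_sub, Complex.sin_add]
  have h1 := Complex.sin_sq_add_cos_sq (Real.pi * y)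
  have h2 := Complex.sin_sq_add_cos_sq (Real.pi * w)
  linear_combination (cos (Real.pi * w) ^ 2) * h1 - (cos (Real.pi * y) ^ 2) * h2

/-! ### Arguments -/

theorem he_im_right {a b : ℝ} (hb : b ≠ 0) (h0 : 0 < a) (h1 : a < 1) :
    (he ((a : ℂ) + (b : ℂ) * I)).im =
      Real.arctan (Real.cos (Real.pi * a) / Real.sin (Real.pi * a) * Real.tanh (Real.pi * b)) := by
  have hpi := Real.pi_pos
  have hf : fdom ((a : ℂ) + (b : ℂ) * I) := by
    left; simpa using hb
  have hs : 0 < Real.sin (Real.pi * a) :=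
    Real.sin_pos_of_pos_of_lt_pi (by positivity) (by nlinarith)
  have hC := Real.cosh_pos (Real.pi * b)
  rw [he_eq_log hf (by simp; linarith) (by simpa using h1), log_im, sn]
  have e : (2 : ℂ) * (((Real.sin (Real.pi * a) * Real.cosh (Real.pi * b) : ℝ) : ℂ) +
      ((Real.cos (Real.pi * a) * Real.sinh (Real.pi * b) : ℝ) : ℂ) * I) =
      ((2 * (Real.sin (Real.pi * a) * Real.cosh (Real.pi * b)) : ℝ) : ℂ) +
      ((2 * (Real.cos (Real.pi * a) * Real.sinh (Real.pi * b)) : ℝ) : ℂ) * I := by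
    push_cast; ring
  rw [e, arg_eq_arctan (by simp [-ofReal_mul]; positivity)]
  congr 1
  rw [Real.tanh_eq_sinh_div_cosh]
  simp only [add_re, add_im, ofReal_re, ofReal_im, mul_re, mul_im, I_re, I_im, mul_zero, mul_one,
    zero_add, add_zero, sub_zero]
  field_simp

theorem he_im_neg {a b : ℝ} (hb : b < 0) (h0 : -1 / 2 < a) (h1 : a < 1 / 2) :
    (he ((a : ℂ) + (b : ℂ) * I)).im =
      -(Real.pi / 2 - Real.arctan (Real.sin (Real.pi * a) / Real.cos (Real.pi * a) /
        Real.tanh (Real.pi * (-b)))) := by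
  have hpi := Real.pi_pos
  have hf : fdom ((a : ℂ) + (b : ℂ) * I) := by
    left; simpa using hb.ne
  have hc : 0 < Real.cos (Real.pi * a) := by
    apply Real.cos_pos_of_mem_Ioo
    constructor <;> nlinarith
  have hS : 0 < Real.sinh (Real.pi * (-b)) := by
    apply Real.sinh_pos_iff.2
    have : 0 < -b := by linarith
    positivity
  have hC := Real.cosh_pos (Real.pi * (-b))
  rw [he_eq_log hf (by simpa using h0) (by simp; linarith), log_im, sn]
  have eS : Real.sinh (Real.pi * b) = -Real.sinh (Real.pi * (-b)) := by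
    rw [← Real.sinh_neg]; congr 1; ring
  have eC : Real.cosh (Real.pi * b) = Real.cosh (Real.pi * (-b)) := by
    rw [← Real.cosh_neg]; congr 1; ring
  rw [eS, eC, Real.tanh_eq_sinh_div_cosh]
  generalize Real.sinh (Real.pi * (-b)) = S at *
  generalize Real.cosh (Real.pi * (-b)) = C at *
  generalize Real.sin (Real.pi * a) = s at *
  generalize Real.cos (Real.pi * a) = c at *
  -- `z = 2 (s C - c S I)`, `I z = 2 (c S + s C I)`
  have e1 : (2 : ℂ) * (((s * C : ℝ) : ℂ) + ((c * -S : ℝ) : ℂ) * I) =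
      -I * (((2 * (c * S) : ℝ) : ℂ) + ((2 * (s * C) : ℝ) : ℂ) * I) := by
    push_cast
    linear_combination (2 * (s : ℂ) * C) * I_sq
  rw [e1]
  set x : ℂ := ((2 * (c * S) : ℝ) : ℂ) + ((2 * (s * C) : ℝ) : ℂ) * I with hx
  have hre : 0 < x.re := by
    rw [hx]; simp [-ofReal_mul]; positivity
  have ha := arg_eq_arctan hre
  have hb1 := abs_lt.1 (abs_arg_lt_pi_div_two_iff.2 (Or.inl hre))
  have hx0 : x ≠ 0 := by
    intro h; rw [h] at hre; simp at hre
  have hI : (-I).arg = -(Real.pi / 2) := arg_neg_I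
  have hI0 : (-I : ℂ) ≠ 0 := neg_ne_zero.2 I_ne_zero
  rw [arg_mul hI0 hx0 (by rw [hI]; constructor <;> linarith [hb1.1, hb1.2]), hI, ha]
  have e2 : x.im / x.re = s / c / (S / C) := by
    rw [hx]
    simp only [add_re, add_im, ofReal_re, ofReal_im, mul_re, mul_im, I_re, I_im, mul_zero, mul_one,
      zero_add, add_zero, sub_zero]
    field_simp
  rw [e2]; ring

/-! ### Hyperbolic tangents -/

theorem tanh_sum (a b : ℝ) : Real.tanh (a + b) =
    (Real.tanh a + Real.tanh b) / (1 + Real.tanh a * Real.tanh b) := by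
  have h1 := Real.cosh_pos a
  have h2 := Real.cosh_pos b
  have h3 := Real.cosh_pos (a + b)
  rw [Real.tanh_eq_sinh_div_cosh, Real.tanh_eq_sinh_div_cosh a, Real.tanh_eq_sinh_div_cosh b,
    Real.sinh_add]
  rw [Real.cosh_add] at h3 ⊢
  have h4 : 1 + Real.sinh a / Real.cosh a * (Real.sinh b / Real.cosh b) ≠ 0 := by
    have : 1 + Real.sinh a / Real.cosh a * (Real.sinh b / Real.cosh b) =
        (Real.cosh a * Real.cosh b + Real.sinh a * Real.sinh b) / (Real.cosh a * Real.cosh b) := by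
      field_simp
    rw [this]; positivity
  field_simp

theorem sinh_sum_sq (a b : ℝ) : Real.sinh (a + b) ^ 2 =
    (Real.tanh a + Real.tanh b) ^ 2 / ((1 - Real.tanh a ^ 2) * (1 - Real.tanh b ^ 2)) := by
  have h1 := Real.cosh_pos a
  have h2 := Real.cosh_pos b
  have k1 := Real.cosh_sq a
  have k2 := Real.cosh_sq b
  have e1 : 1 - Real.tanh a ^ 2 = 1 / Real.cosh a ^ 2 := by
    rw [Real.tanh_eq_sinh_div_cosh]
    field_simp
    linarith
  have e2 : 1 - Real.tanh b ^ 2 = 1 / Real.cosh b ^ 2 := by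
    rw [Real.tanh_eq_sinh_div_cosh]
    field_simp
    linarith
  rw [e1, e2, Real.tanh_eq_sinh_div_cosh, Real.tanh_eq_sinh_div_cosh b, Real.sinh_add]
  field_simp

theorem sinh_sq_tanh (a : ℝ) : Real.sinh a ^ 2 = Real.tanh a ^ 2 / (1 - Real.tanh a ^ 2) := by
  have h1 := Real.cosh_pos a
  have k1 := Real.cosh_sq a
  have e1 : 1 - Real.tanh a ^ 2 = 1 / Real.cosh a ^ 2 := by
    rw [Real.tanh_eq_sinh_div_cosh]
    field_simp
    linarith
  rw [e1, Real.tanh_eq_sinh_div_cosh]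
  field_simp

theorem sinh_cosh_tanh (a : ℝ) : Real.sinh a * Real.cosh a = Real.tanh a / (1 - Real.tanh a ^ 2) := by
  have h1 := Real.cosh_pos a
  have k1 := Real.cosh_sq a
  have e1 : 1 - Real.tanh a ^ 2 = 1 / Real.cosh a ^ 2 := by
    rw [Real.tanh_eq_sinh_div_cosh]
    field_simp
    linarith
  rw [e1, Real.tanh_eq_sinh_div_cosh]
  field_simp

/-- `x ≤ k (1 + 37/100 k²)` for `k = tanh x` up to `.3`. -/
theorem arg_le {x : ℝ} (hx : 0 ≤ x) (hk : Real.tanh x ^ 2 ≤ 9 / 100) :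
    x ≤ Real.tanh x * (1 + 37 / 100 * Real.tanh x ^ 2) := by
  have hmono : ∀ y, 0 ≤ y → y ≤ x → Real.tanh y ^ 2 ≤ 9 / 100 := by
    intro y hy hyx
    have h1 : 0 ≤ Real.tanh y := by
      rw [Real.tanh_eq_sinh_div_cosh]
      exact div_nonneg (Real.sinh_nonneg_iff.2 hy) (Real.cosh_pos y).le
    have h2 : Real.tanh y ≤ Real.tanh x := by
      rw [Real.tanh_eq_sinh_div_cosh, Real.tanh_eq_sinh_div_cosh,
        div_le_div_iff₀ (Real.cosh_pos y) (Real.cosh_pos x)]
      have h3 : 0 ≤ Real.sinh (x - y) := Real.sinh_nonneg_iff.2 (by linarith)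
      rw [Real.sinh_sub] at h3
      linarith
    nlinarith
  have h := LowA_pos (b := x)
    (f := fun y => Real.tanh y * (1 + 37 / 100 * Real.tanh y ^ 2) - y)
    (f' := fun y => (1 - Real.tanh y ^ 2) * (1 + 111 / 100 * Real.tanh y ^ 2) - 1)
    (fun y _ _ => by
      have hd : HasDerivAt Real.tanh (1 - Real.tanh y ^ 2) y := by
        have h1 := (Real.hasDerivAt_sinh y).div (Real.hasDerivAt_cosh y) (Real.cosh_pos y).ne'
        have e : (fun y => Real.sinh y / Real.cosh y) = Real.tanh := by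
          funext y; rw [Real.tanh_eq_sinh_div_cosh]
        have h2 : HasDerivAt Real.tanh ((Real.cosh y * Real.cosh y - Real.sinh y * Real.sinh y) /
            Real.cosh y ^ 2) y := by
          rw [← e]; exact h1
        refine h2.congr_deriv ?_
        have := Real.cosh_pos y
        rw [Real.tanh_eq_sinh_div_cosh]
        field_simp
      have h3 := (hd.mul (((hd.pow 2).const_mul (37 / 100)).const_add 1)).sub (hasDerivAt_id' y)
      refine h3.congr_deriv ?_
      norm_num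
      ring)
    (by simp) (fun y hy hyx => by
      have h1 := hmono y hy hyx
      have h2 : 0 ≤ Real.tanh y ^ 2 := by positivity
      nlinarith) hx le_rfl
  linarith

/-! ### The point `cos² π w` -/

/-- its real part, `w = x - u I`. -/
noncomputable def wr (x u : ℝ) : ℝ := Real.cos (Real.pi * x) ^ 2 +
  Real.sinh (Real.pi * u) ^ 2 * (2 * Real.cos (Real.pi * x) ^ 2 - 1)
/-- its imaginary part. -/
noncomputable def wi (x u : ℝ) : ℝ := 2 * (Real.sin (Real.pi * x) * Real.cos (Real.pi * x)) *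
  (Real.sinh (Real.pi * u) * Real.cosh (Real.pi * u))

/-- the phase of `cos² π w - cos² π y`. -/
noncomputable def wW (t h x u : ℝ) : ℝ :=
  (he (((t - x : ℝ) : ℂ) + ((h + u : ℝ) : ℂ) * I)).im +
    (he (((t + x : ℝ) : ℂ) + ((h - u : ℝ) : ℂ) * I)).im

section
variable {η h t ρ x u h' : ℝ}

theorem wW_spec (hh : 0 < h) (ht0 : 0 < t) (ht1 : t < 1 / 2) (hx0 : 0 ≤ x) (hx1 : x < 1 / 2)
    (hu : 0 ≤ u) : 0 ≤ wW t h x u ∧ wW t h x u ≤ Real.pi ∧
    cos ((Real.pi : ℂ) * ((x : ℂ) + ((-u : ℝ) : ℂ) * I)) ^ 2 -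
      cos ((Real.pi : ℂ) * ((t : ℂ) + (h : ℂ) * I)) ^ 2 =
      ((‖cos ((Real.pi : ℂ) * ((x : ℂ) + ((-u : ℝ) : ℂ) * I)) ^ 2 -
      cos ((Real.pi : ℂ) * ((t : ℂ) + (h : ℂ) * I)) ^ 2‖ : ℝ) : ℂ) *
        (((Real.cos (wW t h x u) : ℝ) : ℂ) + ((Real.sin (wW t h x u) : ℝ) : ℂ) * I) := by
  have hpi := Real.pi_pos
  set z1 : ℂ := ((t - x : ℝ) : ℂ) + ((h + u : ℝ) : ℂ) * I with hz1
  set z2 : ℂ := ((t + x : ℝ) : ℂ) + ((h - u : ℝ) : ℂ) * I with hz2
  have re1 : z1.re = t - x := by rw [hz1]; simp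
  have im1 : z1.im = h + u := by rw [hz1]; simp
  have re2 : z2.re = t + x := by rw [hz2]; simp
  have im2 : z2.im = h - u := by rw [hz2]; simp
  have f1 : fdom z1 := by left; rw [im1]; positivity
  have f2 : fdom z2 := by right; rw [re2]; constructor <;> linarith
  -- the sum of the logarithms
  have E : exp (he z1 + he z2) = 4 * (cos ((Real.pi : ℂ) * ((x : ℂ) + ((-u : ℝ) : ℂ) * I)) ^ 2 -
      cos ((Real.pi : ℂ) * ((t : ℂ) + (h : ℂ) * I)) ^ 2) := by
    rw [exp_add, exp_he f1, exp_he f2]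
    have k := sin_mul_sin ((t : ℂ) + (h : ℂ) * I) ((x : ℂ) + ((-u : ℝ) : ℂ) * I)
    have e1 : ((t : ℂ) + (h : ℂ) * I) - ((x : ℂ) + ((-u : ℝ) : ℂ) * I) = z1 := by
      rw [hz1]; push_cast; ring
    have e2 : ((t : ℂ) + (h : ℂ) * I) + ((x : ℂ) + ((-u : ℝ) : ℂ) * I) = z2 := by
      rw [hz2]; push_cast; ring
    rw [e1, e2] at k
    rw [← k]; ring
  -- bounds of the two arguments
  have a1 : 0 < (he z1).im ∧ (he z1).im < Real.pi := by
    have b := he_im_bounds (z := z1) (by rw [im1]; positivity) (by rw [re1]; linarith)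
      (by rw [re1]; linarith)
    refine ⟨?_, b.2⟩
    rw [he_eq_log f1 (by rw [re1]; linarith) (by rw [re1]; linarith), log_im]
    have h5 : 0 < (2 * sin ((Real.pi : ℂ) * z1)).im := by
      rw [sin_pi_im, re1, im1]
      have h6 : 0 < Real.cos (Real.pi * (t - x)) := by
        apply Real.cos_pos_of_mem_Ioo
        constructor <;> nlinarith
      have h7 : 0 < Real.sinh (Real.pi * (h + u)) := Real.sinh_pos_iff.2 (by positivity)
      positivity
    have h8 := arg_nonneg_iff.2 h5.le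
    rcases eq_or_lt_of_le h8 with h9 | h9
    · exfalso
      have := (arg_eq_zero_iff.1 h9.symm).2
      linarith
    · exact h9
  have a2 : -(Real.pi / 2) < (he z2).im ∧ (he z2).im < Real.pi / 2 := by
    rw [he_eq_log f2 (by rw [re2]; linarith) (by rw [re2]; linarith), log_im]
    have hs : 0 < Real.sin (Real.pi * z2.re) := by
      rw [re2]
      exact Real.sin_pos_of_pos_of_lt_pi (by positivity) (by nlinarith)
    have e : z2 = ((z2.re : ℝ) : ℂ) + ((z2.im : ℝ) : ℂ) * I := (re_add_im z2).symm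
    have h5 : 0 < (2 * sin ((Real.pi : ℂ) * z2)).re := by
      rw [e, sn]
      have hC := Real.cosh_pos (Real.pi * z2.im)
      have : (2 * (((Real.sin (Real.pi * z2.re) * Real.cosh (Real.pi * z2.im) : ℝ) : ℂ) +
        ((Real.cos (Real.pi * z2.re) * Real.sinh (Real.pi * z2.im) : ℝ) : ℂ) * I)).re =
        2 * (Real.sin (Real.pi * z2.re) * Real.cosh (Real.pi * z2.im)) := by
        simp only [mul_re, add_re, ofReal_re, ofReal_im, I_re, I_im, re_ofNat, im_ofNat, add_im,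
          mul_im, mul_zero, mul_one, zero_mul, sub_zero, add_zero, zero_add]
      rw [this]; positivity
    exact abs_lt.1 (abs_arg_lt_pi_div_two_iff.2 (Or.inl h5))
  have hW : wW t h x u = (he z1 + he z2).im := by rw [add_im]; rfl
  set L := he z1 + he z2 with hL
  have E2 := congrArg Complex.im E
  have E3 : exp L = ((Real.exp L.re : ℝ) : ℂ) * (((Real.cos L.im : ℝ) : ℂ) +
      ((Real.sin L.im : ℝ) : ℂ) * I) := by
    conv_lhs => rw [← re_add_im L]
    rw [exp_add, exp_mul_I, ofReal_exp, ofReal_cos, ofReal_sin]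
  have im3 : (cos ((Real.pi : ℂ) * ((x : ℂ) + ((-u : ℝ) : ℂ) * I)) ^ 2 -
      cos ((Real.pi : ℂ) * ((t : ℂ) + (h : ℂ) * I)) ^ 2).im =
      2 * (Real.sin (Real.pi * x) * Real.cos (Real.pi * x)) *
        (Real.sinh (Real.pi * u) * Real.cosh (Real.pi * u)) +
      2 * (Real.sin (Real.pi * t) * Real.cos (Real.pi * t)) *
        (Real.sinh (Real.pi * h) * Real.cosh (Real.pi * h)) := by
    rw [cs2, cs2]
    have e1 : Real.sinh (Real.pi * (-u)) = -Real.sinh (Real.pi * u) := by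
      rw [← Real.sinh_neg]; congr 1; ring
    have e2 : Real.cosh (Real.pi * (-u)) = Real.cosh (Real.pi * u) := by
      rw [← Real.cosh_neg (Real.pi * u)]; congr 1; ring
    rw [e1, e2]
    simp only [sub_im, ofReal_im, mul_im, ofReal_re, I_re, I_im, mul_zero, mul_one, zero_add,
      add_zero, zero_sub]
    ring
  have sx : 0 ≤ Real.sin (Real.pi * x) := Real.sin_nonneg_of_nonneg_of_le_pi (by positivity) (by nlinarith)
  have cx : 0 ≤ Real.cos (Real.pi * x) := by
    apply Real.cos_nonneg_of_mem_Icc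
    constructor <;> nlinarith
  have st : 0 < Real.sin (Real.pi * t) := Real.sin_pos_of_pos_of_lt_pi (by positivity) (by nlinarith)
  have ct : 0 < Real.cos (Real.pi * t) := by
    apply Real.cos_pos_of_mem_Ioo
    constructor <;> nlinarith
  have Su : 0 ≤ Real.sinh (Real.pi * u) := Real.sinh_nonneg_iff.2 (by positivity)
  have Sh : 0 < Real.sinh (Real.pi * h) := Real.sinh_pos_iff.2 (by positivity)
  have Cu := Real.cosh_pos (Real.pi * u)
  have Ch := Real.cosh_pos (Real.pi * h)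
  have im4 : 0 < (exp L).im := by
    rw [E]
    have : (4 * (cos ((Real.pi : ℂ) * ((x : ℂ) + ((-u : ℝ) : ℂ) * I)) ^ 2 -
      cos ((Real.pi : ℂ) * ((t : ℂ) + (h : ℂ) * I)) ^ 2)).im =
      4 * (cos ((Real.pi : ℂ) * ((x : ℂ) + ((-u : ℝ) : ℂ) * I)) ^ 2 -
      cos ((Real.pi : ℂ) * ((t : ℂ) + (h : ℂ) * I)) ^ 2).im := by
      simp only [mul_im, re_ofNat, im_ofNat, zero_mul, add_zero]
    rw [this, im3]
    positivity
  have im5 : 0 < Real.sin L.im := by
    rw [E3] at im4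
    have : (((Real.exp L.re : ℝ) : ℂ) * (((Real.cos L.im : ℝ) : ℂ) +
      ((Real.sin L.im : ℝ) : ℂ) * I)).im = Real.exp L.re * Real.sin L.im := by
      simp only [mul_im, add_re, add_im, ofReal_re, ofReal_im, I_re, I_im, mul_zero, mul_one,
        zero_mul, add_zero, zero_add]
    rw [this] at im4
    have h9 := Real.exp_pos L.re
    by_contra hc
    push Not at hc
    nlinarith
  have Lim : L.im = (he z1).im + (he z2).im := by rw [hL, add_im]
  have r1 : 0 < L.im := by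
    by_contra hc
    push Not at hc
    have : Real.sin L.im ≤ 0 :=
      Real.sin_nonpos_of_nonpos_of_neg_pi_le hc (by rw [Lim]; linarith [a1.1, a2.1])
    linarith
  have r2 : L.im < Real.pi := by
    by_contra hc
    push Not at hc
    have : Real.sin (L.im - 2 * Real.pi) ≤ 0 :=
      Real.sin_nonpos_of_nonpos_of_neg_pi_le (by rw [Lim]; linarith [a1.2, a2.2]) (by linarith)
    rw [Real.sin_sub_two_pi] at this
    linarith
  refine ⟨by rw [hW]; exact r1.le, by rw [hW]; exact r2.le, ?_⟩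
  rw [hW]
  generalize cos ((Real.pi : ℂ) * ((x : ℂ) + ((-u : ℝ) : ℂ) * I)) ^ 2 -
      cos ((Real.pi : ℂ) * ((t : ℂ) + (h : ℂ) * I)) ^ 2 = D at *
  have n1 : Real.exp L.re = 4 * ‖D‖ := by
    have := congrArg norm E
    rw [norm_exp, norm_mul] at this
    rw [this]; norm_num
  have : D = (1 / 4 : ℂ) * exp L := by rw [E]; ring
  conv_lhs => rw [this, E3, n1]
  push_cast
  ring

end

end Pool.Agent.S3.P3
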