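import Pool.Agent.S3.W2.P3E
import Pool.Agent.S3.W2.P3G
import Pool.Agent.S3.W2.Slide

/-!
# Phase 3 of the slide: the reduction to the test
-/

set_option autoImplicit false

namespace Pool.Agent.S3.P3

open Complex

theorem cos25 : Real.cos (Real.pi * (2 / 5)) = sB := by
  unfold sB
  rw [← Real.cos_pi_div_two_sub]
  congr 1; ring

theorem sin25 : Real.sin (Real.pi * (2 / 5)) = cA := by
  unfold cA
  rw [← Real.sin_pi_div_two_sub]
  congr 1; ring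

section
variable {η h t ρ x u h' : ℝ}

theorem vN_eq (κ : ℝ) (hκ : Real.tanh (Real.pi * h) = κ) :
    ‖cos ((Real.pi : ℂ) * ((t : ℂ) + (h : ℂ) * I))‖ ^ 2 = vN (Real.cos (Real.pi * t)) κ := by
  rw [ncs, sinh_sq_tanh, hκ]
  rfl

theorem vE_eq (k : ℝ) (hk : Real.tanh (Real.pi * η) = k)
    (hκ : Real.tanh (Real.pi * h) = k * ρ) :
    ‖sin ((Real.pi : ℂ) * (((t + 2 / 5 : ℝ) : ℂ) + ((h + η : ℝ) : ℂ) * I))‖ ^ 2 =
      vE k ρ (Real.sin (Real.pi * t)) (Real.cos (Real.pi * t)) := by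
  rw [nsn]
  unfold vE
  have e1 : Real.pi * (t + 2 / 5) = Real.pi * t + Real.pi * (2 / 5) := by ring
  have e2 : Real.pi * (h + η) = Real.pi * η + Real.pi * h := by ring
  rw [e1, e2, Real.sin_add, cos25, sin25, sinh_sum_sq, hk, hκ]
  ring

theorem vF_eq (k : ℝ) (hk : Real.tanh (Real.pi * η) = k)
    (hκ : Real.tanh (Real.pi * h) = k * ρ) :
    ‖sin ((Real.pi : ℂ) * (((t - 2 / 5 : ℝ) : ℂ) + ((h - η : ℝ) : ℂ) * I))‖ ^ 2 =
      vF k ρ (Real.sin (Real.pi * t)) (Real.cos (Real.pi * t)) := by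
  rw [nsn]
  unfold vF
  have e1 : Real.pi * (t - 2 / 5) = Real.pi * t - Real.pi * (2 / 5) := by ring
  have e2 : Real.pi * (h - η) = -(Real.pi * η + -(Real.pi * h)) := by ring
  rw [e1, e2, Real.sin_sub, cos25, sin25, Real.sinh_neg, neg_sq, sinh_sum_sq, hk, Real.tanh_neg, hκ]
  have : (k + -(k * ρ)) ^ 2 = (k * (1 - ρ)) ^ 2 := by ring
  rw [this, neg_sq]
  ring

theorem aP_eq (k : ℝ) (hk : Real.tanh (Real.pi * η) = k) (hη : 0 < η) (hh : 0 < h) (ht0 : 0 < t)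
    (ht1 : t < 1 / 2) (hκ : Real.tanh (Real.pi * h) = k * ρ) :
    (he (((t + 2 / 5 : ℝ) : ℂ) + ((h + η : ℝ) : ℂ) * I)).im =
      -aP k ρ (Real.sin (Real.pi * t)) (Real.cos (Real.pi * t)) := by
  rw [he_im_right (by positivity) (by linarith) (by linarith)]
  unfold aP
  have e1 : Real.pi * (t + 2 / 5) = Real.pi * t + Real.pi * (2 / 5) := by ring
  have e2 : Real.pi * (h + η) = Real.pi * η + Real.pi * h := by ring
  rw [e1, e2, Real.sin_add, Real.cos_add, cos25, sin25, tanh_sum, hk, hκ, ← Real.arctan_neg]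
  congr 1
  have e3 : Real.sin (Real.pi * t) * sB + Real.cos (Real.pi * t) * cA =
    cA * Real.cos (Real.pi * t) + sB * Real.sin (Real.pi * t) := by ring
  have e4 : (k + k * ρ) / (1 + k * (k * ρ)) = (1 + ρ) / (1 + ρ * k ^ 2) * k := by
    have : 1 + k * (k * ρ) = 1 + ρ * k ^ 2 := by ring
    rw [this]; ring
  rw [e3, e4]
  ring

theorem aN_eq (k : ℝ) (hk : Real.tanh (Real.pi * η) = k) (hhη : h < η) (ht0 : 0 < t)
    (ht1 : t < 1 / 2) (hκ : Real.tanh (Real.pi * h) = k * ρ) :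
    (he (((t - 2 / 5 : ℝ) : ℂ) + ((h - η : ℝ) : ℂ) * I)).im =
      -aN k ρ (Real.sin (Real.pi * t)) (Real.cos (Real.pi * t)) := by
  rw [he_im_neg (by linarith) (by linarith) (by linarith)]
  unfold aN
  have e1 : Real.pi * (t - 2 / 5) = Real.pi * t - Real.pi * (2 / 5) := by ring
  have e2 : Real.pi * -(h - η) = Real.pi * η + -(Real.pi * h) := by ring
  rw [e1, e2, Real.sin_sub, Real.cos_sub, cos25, sin25, tanh_sum, Real.tanh_neg, hk, hκ]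
  congr 3
  have e4 : (k + -(k * ρ)) / (1 + k * -(k * ρ)) = (1 - ρ) / (1 - ρ * k ^ 2) * k := by
    have : 1 + k * -(k * ρ) = 1 - ρ * k ^ 2 := by ring
    rw [this]; ring
  rw [e4, div_div]
  congr 1 <;> ring

theorem aH_eq (k : ℝ) (hh : 0 < h) (ht0 : 0 < t) (ht1 : t < 1 / 2)
    (hκ : Real.tanh (Real.pi * h) = k * ρ) :
    (he (((t + 1 / 2 : ℝ) : ℂ) + ((h : ℝ) : ℂ) * I)).im =
      -Real.arctan (ρ * Real.sin (Real.pi * t) / Real.cos (Real.pi * t) * k) := by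
  rw [he_im_right hh.ne' (by linarith) (by linarith)]
  have e1 : Real.pi * (t + 1 / 2) = Real.pi * t + Real.pi / 2 := by ring
  rw [e1, Real.sin_add_pi_div_two, Real.cos_add_pi_div_two, hκ, ← Real.arctan_neg]
  congr 1
  ring

theorem cosy (k : ℝ) (hκ : Real.tanh (Real.pi * h) = k * ρ) :
    cos ((Real.pi : ℂ) * ((t : ℂ) + (h : ℂ) * I)) ^ 2 =
      ((Real.cos (Real.pi * t) ^ 2 * (1 + 2 * ((k * ρ) ^ 2 / (1 - (k * ρ) ^ 2))) -
        (k * ρ) ^ 2 / (1 - (k * ρ) ^ 2) : ℝ) : ℂ) -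
      ((vY (Real.sin (Real.pi * t)) (Real.cos (Real.pi * t)) (k * ρ) : ℝ) : ℂ) * I := by
  rw [cs2, sinh_sq_tanh, sinh_cosh_tanh, hκ]
  unfold vY
  have e1 : Real.cos (Real.pi * t) ^ 2 + (k * ρ) ^ 2 / (1 - (k * ρ) ^ 2) *
      (2 * Real.cos (Real.pi * t) ^ 2 - 1) =
      Real.cos (Real.pi * t) ^ 2 * (1 + 2 * ((k * ρ) ^ 2 / (1 - (k * ρ) ^ 2))) -
        (k * ρ) ^ 2 / (1 - (k * ρ) ^ 2) := by ring
  have e2 : 2 * (Real.sin (Real.pi * t) * Real.cos (Real.pi * t)) *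
      (k * ρ / (1 - (k * ρ) ^ 2)) =
      2 * (Real.sin (Real.pi * t) * Real.cos (Real.pi * t) * (k * ρ)) / (1 - (k * ρ) ^ 2) := by ring
  rw [e1, e2]

theorem cosw : cos ((Real.pi : ℂ) * ((x : ℂ) + ((-u : ℝ) : ℂ) * I)) ^ 2 =
    ((wr x u : ℝ) : ℂ) + ((wi x u : ℝ) : ℂ) * I := by
  rw [cs2]
  have e1 : Real.sinh (Real.pi * (-u)) = -Real.sinh (Real.pi * u) := by
    rw [← Real.sinh_neg]; congr 1; ring
  have e2 : Real.cosh (Real.pi * (-u)) = Real.cosh (Real.pi * u) := by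
    rw [← Real.cosh_neg (Real.pi * u)]; congr 1; ring
  rw [e1, e2]
  unfold wr wi
  push_cast
  ring

/-- The data of a point at which the growth function is critical. -/
theorem dat_of {c1 c2 r2 la mu i0 k : ℝ} (hk : Real.tanh (Real.pi * η) = k) (hη : 0 < η) (hh : 0 < h)
    (hρ0 : 0 ≤ ρ) (hρ1 : ρ < 1) (ht0 : 0 < t) (ht1 : t < 1 / 2) (hx0 : 0 ≤ x) (hx1 : x < 1 / 2)
    (hu : 0 ≤ u) (hκ : Real.tanh (Real.pi * h) = k * ρ) (h'0 : 0 ≤ h') (h'1 : h' ≤ 1)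
    (hcr : gPd ((t : ℂ) + (h : ℂ) * I) (((2 / 5 : ℝ) : ℂ) + (η : ℂ) * I)
      ((x : ℂ) + ((-u : ℝ) : ℂ) * I) = ‖cos ((Real.pi : ℂ) * ((t : ℂ) + (h : ℂ) * I))‖ ^ 4)
    (hi00 : 0 ≤ i0) (hi0 : i0 ≤ wi x u) (hr2 : wr x u ≤ r2) (hc1 : wr x u ≤ c1 + la * (wi x u - i0))
    (hc2 : c2 ≤ wr x u + mu * (wi x u - i0)) :
    Dat c1 c2 r2 la mu i0 k ρ (Real.sin (Real.pi * t)) (Real.cos (Real.pi * t)) h'
      ‖cos ((Real.pi : ℂ) * ((x : ℂ) + ((-u : ℝ) : ℂ) * I)) ^ 2 -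
      cos ((Real.pi : ℂ) * ((t : ℂ) + (h : ℂ) * I)) ^ 2‖ (wW t h x u) (wr x u) (wi x u - i0) := by
  have hpi := Real.pi_pos
  have st : 0 < Real.sin (Real.pi * t) := Real.sin_pos_of_pos_of_lt_pi (by positivity) (by nlinarith)
  have ct : 0 < Real.cos (Real.pi * t) := by
    apply Real.cos_pos_of_mem_Ioo
    constructor <;> nlinarith
  have k0 : 0 < k := by
    rw [← hk, Real.tanh_eq_sinh_div_cosh]
    exact div_pos (Real.sinh_pos_iff.2 (by positivity)) (Real.cosh_pos _)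
  have k1 : k < 1 := by
    rw [← hk, Real.tanh_eq_sinh_div_cosh, div_lt_one (Real.cosh_pos _)]
    exact Real.sinh_lt_cosh _
  have sx : 0 ≤ Real.sin (Real.pi * x) := Real.sin_nonneg_of_nonneg_of_le_pi (by positivity) (by nlinarith)
  have cx : 0 ≤ Real.cos (Real.pi * x) := by
    apply Real.cos_nonneg_of_mem_Icc
    constructor <;> nlinarith
  have Su : 0 ≤ Real.sinh (Real.pi * u) := Real.sinh_nonneg_iff.2 (by positivity)
  have Cu := Real.cosh_pos (Real.pi * u)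
  have wi0 : 0 ≤ wi x u := by unfold wi; positivity
  obtain ⟨W0, W1, W2⟩ := wW_spec hh ht0 ht1 hx0 hx1 hu
  set M := ‖cos ((Real.pi : ℂ) * ((x : ℂ) + ((-u : ℝ) : ℂ) * I)) ^ 2 -
      cos ((Real.pi : ℂ) * ((t : ℂ) + (h : ℂ) * I)) ^ 2‖ with hM
  have κ1 : k * ρ < 1 := by nlinarith
  have κ0 : 0 ≤ k * ρ := by positivity
  have κ2 : 0 < 1 - (k * ρ) ^ 2 := by nlinarith
  -- the critical equation
  have e1 : ((t : ℂ) + (h : ℂ) * I) - (((2 / 5 : ℝ) : ℂ) + (η : ℂ) * I) =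
      ((t - 2 / 5 : ℝ) : ℂ) + ((h - η : ℝ) : ℂ) * I := by push_cast; ring
  have e2 : ((t : ℂ) + (h : ℂ) * I) + (((2 / 5 : ℝ) : ℂ) + (η : ℂ) * I) =
      ((t + 2 / 5 : ℝ) : ℂ) + ((h + η : ℝ) : ℂ) * I := by push_cast; ring
  have N0 := vN_eq (t := t) _ hκ
  have E0 := vE_eq (t := t) k hk hκ
  have F0 := vF_eq (t := t) k hk hκ
  unfold gPd at hcr
  rw [e1, e2] at hcr
  have hM2 : ‖sin ((Real.pi : ℂ) * (((t : ℂ) + (h : ℂ) * I) - ((x : ℂ) + ((-u : ℝ) : ℂ) * I)))‖ *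
      ‖sin ((Real.pi : ℂ) * (((t : ℂ) + (h : ℂ) * I) + ((x : ℂ) + ((-u : ℝ) : ℂ) * I)))‖ = M := by
    rw [← norm_mul, sin_mul_sin, hM]
  rw [hM2] at hcr
  have hcr2 : M ^ 2 * (vE k ρ (Real.sin (Real.pi * t)) (Real.cos (Real.pi * t)) *
      vF k ρ (Real.sin (Real.pi * t)) (Real.cos (Real.pi * t))) =
      vN (Real.cos (Real.pi * t)) (k * ρ) ^ 4 := by
    rw [← N0, ← E0, ← F0]
    have h7 := congrArg (fun z : ℝ => z ^ 2) hcr
    have h8 : (‖sin ((Real.pi : ℂ) * (((t - 2 / 5 : ℝ) : ℂ) + ((h - η : ℝ) : ℂ) * I))‖ *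
      ‖sin ((Real.pi : ℂ) * (((t + 2 / 5 : ℝ) : ℂ) + ((h + η : ℝ) : ℂ) * I))‖ * M) ^ 2 =
      (‖cos ((Real.pi : ℂ) * ((t : ℂ) + (h : ℂ) * I))‖ ^ 4) ^ 2 := h7
    linear_combination h8
  have M0 : 0 < M := by
    have hM0 : 0 ≤ M := norm_nonneg _
    rcases eq_or_lt_of_le hM0 with h0 | h0
    · exfalso
      rw [← h0] at hcr2
      have : 0 < vN (Real.cos (Real.pi * t)) (k * ρ) := by unfold vN; positivity
      have h4 : 0 < vN (Real.cos (Real.pi * t)) (k * ρ) ^ 4 := by positivity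
      rw [← hcr2] at h4
      norm_num at h4
    · exact h0
  have re_im := W2
  rw [cosw, cosy k hκ] at re_im
  have r1 := congrArg Complex.re re_im
  have i1 := congrArg Complex.im re_im
  simp only [sub_re, sub_im, add_re, add_im, ofReal_re, ofReal_im, mul_re, mul_im, I_re, I_im,
    mul_zero, mul_one, zero_mul, sub_zero, add_zero, zero_add] at r1 i1
  refine ⟨k0, k1, hρ0, hρ1, st, ct, h'0, h'1, ⟨M0, ?_, W0, W1, sub_nonneg.2 hi0, ?_, ?_, hr2, hc1, hc2⟩, hcr2⟩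
  · unfold vY; positivity
  · linarith
  · linarith

end

end Pool.Agent.S3.P3
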