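import Pool.Agent.S3.W2.P3H

/-!
# Phase 3 of the slide: the gain on the vertical, general form
-/

set_option autoImplicit false

namespace Pool.Agent.S3.P3

open Complex

/-- The rational conditions on a polygon. -/
structure Pg (S cc c1 c2 r2 la mu : ℝ) : Prop where
  S0 : 0 ≤ S
  c20 : 0 ≤ c2
  c11 : cc ≤ 1
  h1 : cc ≤ r2
  h2 : cc + S ^ 2 * cc * (2 * cc - 1) ≤ r2
  h3 : (cc ≤ c1 ∧ (S ^ 2 * (2 * cc - 1) ^ 2 ≤ 4 * la ^ 2 * (1 - cc) ∨ 2 * cc ≤ 1)) ∨ r2 ≤ c1
  h4 : S ^ 2 * (1 - 2 * c2) ^ 2 ≤ 4 * mu ^ 2 * (1 - c2) ∨ 1 ≤ 2 * c2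

section
variable {S cc c1 c2 r2 la mu x u : ℝ}

theorem poly (h : Pg S cc c1 c2 r2 la mu) (hla : 0 ≤ la) (hmu : 0 ≤ mu) (hx0 : 0 ≤ x)
    (hx1 : x < 1 / 2) (hu : 0 ≤ u) (hS : Real.sinh (Real.pi * u) ≤ S * Real.cos (Real.pi * x))
    (hc1 : Real.cos (Real.pi * x) ^ 2 ≤ cc) (hc2 : c2 ≤ Real.cos (Real.pi * x) ^ 2) :
    wr x u ≤ r2 ∧ wr x u ≤ c1 + la * wi x u ∧ c2 ≤ wr x u + mu * wi x u := by
  have hpi := Real.pi_pos
  obtain ⟨S0, c20, c11, h1, h2, h3, h4⟩ := h
  have s0 : 0 ≤ Real.sin (Real.pi * x) :=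
    Real.sin_nonneg_of_nonneg_of_le_pi (by positivity) (by nlinarith only [hx1, hpi])
  have a0 : 0 < Real.cos (Real.pi * x) := by
    apply Real.cos_pos_of_mem_Ioo
    constructor <;> nlinarith only [hx0, hpi, hx1]
  have sh0 : 0 ≤ Real.sinh (Real.pi * u) := Real.sinh_nonneg_iff.2 (by positivity)
  have ch1 := Real.one_le_cosh (Real.pi * u)
  have hsc := Real.sin_sq_add_cos_sq (Real.pi * x)
  unfold wr wi
  generalize Real.sin (Real.pi * x) = s at *
  generalize Real.cos (Real.pi * x) = a at *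
  generalize Real.sinh (Real.pi * u) = σ at *
  generalize Real.cosh (Real.pi * u) = C at *
  have σ2 : σ ^ 2 ≤ S ^ 2 * a ^ 2 := by
    have := pow_le_pow_left₀ sh0 hS 2
    rwa [mul_pow] at this
  have wi1 : 2 * s * a * σ ≤ 2 * (s * a) * (σ * C) := by
    have : 0 ≤ 2 * s * a * σ * (C - 1) := by
      have : 0 ≤ C - 1 := by linarith
      positivity
    linarith only [this]
  have wi0 : 0 ≤ 2 * s * a * σ := by positivity
  have s2 : s ^ 2 = 1 - a ^ 2 := by linarith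
  -- `a² ≥ 1/2` or not
  rcases le_total (2 * a ^ 2) 1 with hA | hA
  · refine ⟨?_, ?_, ?_⟩
    · have : σ ^ 2 * (2 * a ^ 2 - 1) ≤ 0 := mul_nonpos_of_nonneg_of_nonpos (by positivity) (by linarith)
      linarith
    · have k1 : σ ^ 2 * (2 * a ^ 2 - 1) ≤ 0 := mul_nonpos_of_nonneg_of_nonpos (by positivity) (by linarith)
      have k2 : 0 ≤ la * (2 * (s * a) * (σ * C)) := mul_nonneg hla (wi0.trans wi1)
      rcases h3 with h3 | h3
      · linarith [h3.1]
      · linarith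
    · -- `σ² (1 - 2 a²) ≤ mu * (2 s a σ)`
      have key : S * (1 - 2 * a ^ 2) ≤ 2 * mu * s := by
        have t0 : 0 ≤ 1 - 2 * a ^ 2 := by linarith
        have hs12 : 1 / 2 ≤ s ^ 2 := by rw [s2]; linarith
        have hs0 : 0 < s := by
          rcases eq_or_lt_of_le s0 with h0 | h0
          · rw [← h0] at hs12; norm_num at hs12
          · exact h0
        rcases h4 with h4 | h4
        · apply le_of_sq_le_sq _ (by positivity)
          -- `S² (1-2a²)² ≤ 4 mu² s²`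
          set q := Real.sqrt (1 - c2) with hq
          have c2a : c2 ≤ 1 / 2 := by linarith
          have q2 : q ^ 2 = 1 - c2 := Real.sq_sqrt (by linarith)
          have q0 : 0 < q := Real.sqrt_pos.2 (by linarith)
          have sq1 : s ≤ q := by
            apply le_of_sq_le_sq _ q0.le
            rw [q2, s2]; linarith
          -- `(2 s² - 1) q ≤ (2 q² - 1) s`
          have m1 : (2 * s ^ 2 - 1) * q ≤ (2 * q ^ 2 - 1) * s := by
            have : 0 ≤ (q - s) * (2 * s * q + 1) := mul_nonneg (by linarith) (by positivity)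
            linarith only [this]
          have m2 : ((2 * s ^ 2 - 1) * q) ^ 2 ≤ ((2 * q ^ 2 - 1) * s) ^ 2 :=
            pow_le_pow_left₀ (by nlinarith only [hs12, q0]) m1 2
          have m3 : S ^ 2 * ((2 * s ^ 2 - 1) * q) ^ 2 ≤ 4 * mu ^ 2 * q ^ 2 * s ^ 2 := by
            have e1 : S ^ 2 * ((2 * q ^ 2 - 1) * s) ^ 2 ≤ 4 * mu ^ 2 * q ^ 2 * s ^ 2 := by
              have e2 : 2 * q ^ 2 - 1 = 1 - 2 * c2 := by rw [q2]; ring
              rw [e2, q2, mul_pow]
              have := mul_le_mul_of_nonneg_right h4 (sq_nonneg s)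
              linarith only [this]
            exact (mul_le_mul_of_nonneg_left m2 (sq_nonneg S)).trans e1
          have e3 : 1 - 2 * a ^ 2 = 2 * s ^ 2 - 1 := by rw [s2]; ring
          rw [mul_pow, mul_pow, mul_pow, e3]
          have q20 : 0 < q ^ 2 := by positivity
          have e4 : S ^ 2 * (2 * s ^ 2 - 1) ^ 2 * q ^ 2 ≤ 2 ^ 2 * mu ^ 2 * s ^ 2 * q ^ 2 := by
            linarith only [m3]
          exact le_of_mul_le_mul_right e4 q20
        · have : a ^ 2 = 1 / 2 := by linarith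
          rw [this]
          have : 0 ≤ 2 * mu * s := by positivity
          linarith
      have k1 : σ ^ 2 * (1 - 2 * a ^ 2) ≤ mu * (2 * s * a * σ) := by
        have k2 : σ * (1 - 2 * a ^ 2) ≤ a * (2 * mu * s) := by
          have k3 : σ * (1 - 2 * a ^ 2) ≤ S * a * (1 - 2 * a ^ 2) :=
            mul_le_mul_of_nonneg_right hS (by linarith)
          have k4 := mul_le_mul_of_nonneg_left key a0.le
          linarith
        have := mul_le_mul_of_nonneg_left k2 sh0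
        linarith only [this]
      have k5 : mu * (2 * s * a * σ) ≤ mu * (2 * (s * a) * (σ * C)) :=
        mul_le_mul_of_nonneg_left wi1 hmu
      linarith only [hc2, k1, k5]
  · refine ⟨?_, ?_, ?_⟩
    · have k1 : σ ^ 2 * (2 * a ^ 2 - 1) ≤ S ^ 2 * a ^ 2 * (2 * a ^ 2 - 1) :=
        mul_le_mul_of_nonneg_right σ2 (by linarith)
      have k2 : S ^ 2 * a ^ 2 * (2 * a ^ 2 - 1) ≤ S ^ 2 * cc * (2 * cc - 1) := by
        have k3 : a ^ 2 * (2 * a ^ 2 - 1) ≤ cc * (2 * cc - 1) :=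
          mul_le_mul hc1 (by linarith) (by linarith) ((sq_nonneg a).trans hc1)
        have := mul_le_mul_of_nonneg_left k3 (sq_nonneg S)
        linarith only [this]
      linarith
    · have w0 : 0 ≤ la * (2 * (s * a) * (σ * C)) := mul_nonneg hla (wi0.trans wi1)
      rcases h3 with ⟨h5, h3⟩ | h3
      · have key : S * (2 * a ^ 2 - 1) ≤ 2 * la * s := by
          rcases h3 with h3 | h3
          · apply le_of_sq_le_sq _ (by positivity)
            have k1 : (2 * a ^ 2 - 1) ^ 2 ≤ (2 * cc - 1) ^ 2 :=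
              pow_le_pow_left₀ (by linarith) (by linarith) 2
            have k2 : S ^ 2 * (2 * a ^ 2 - 1) ^ 2 ≤ S ^ 2 * (2 * cc - 1) ^ 2 :=
              mul_le_mul_of_nonneg_left k1 (sq_nonneg S)
            have k3 : 4 * la ^ 2 * (1 - cc) ≤ 4 * la ^ 2 * s ^ 2 := by
              rw [s2]
              exact mul_le_mul_of_nonneg_left (by linarith) (by positivity)
            linarith only [h3, k2, k3]
          · have : a ^ 2 = 1 / 2 := by linarith
            rw [this]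
            have : 0 ≤ 2 * la * s := by positivity
            linarith
        have k1 : σ ^ 2 * (2 * a ^ 2 - 1) ≤ la * (2 * s * a * σ) := by
          have k2 : σ * (2 * a ^ 2 - 1) ≤ a * (2 * la * s) := by
            have k3 : σ * (2 * a ^ 2 - 1) ≤ S * a * (2 * a ^ 2 - 1) :=
              mul_le_mul_of_nonneg_right hS (by linarith)
            have k4 := mul_le_mul_of_nonneg_left key a0.le
            linarith
          have := mul_le_mul_of_nonneg_left k2 sh0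
          linarith only [this]
        have k5 : la * (2 * s * a * σ) ≤ la * (2 * (s * a) * (σ * C)) :=
          mul_le_mul_of_nonneg_left wi1 hla
        linarith
      · have k1 : σ ^ 2 * (2 * a ^ 2 - 1) ≤ S ^ 2 * a ^ 2 * (2 * a ^ 2 - 1) :=
          mul_le_mul_of_nonneg_right σ2 (by linarith)
        have k3 : a ^ 2 * (2 * a ^ 2 - 1) ≤ cc * (2 * cc - 1) :=
          mul_le_mul hc1 (by linarith) (by linarith) ((sq_nonneg a).trans hc1)
        have k4 := mul_le_mul_of_nonneg_left k3 (sq_nonneg S)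
        linarith only [h2, hc1, w0, h3, k1, k4]
    · have k1 : 0 ≤ σ ^ 2 * (2 * a ^ 2 - 1) := mul_nonneg (by positivity) (by linarith)
      have k2 : 0 ≤ mu * (2 * (s * a) * (σ * C)) := mul_nonneg hmu (wi0.trans wi1)
      linarith

end

theorem tanh_max {η : ℝ} (hη : 0 ≤ η) (h : Real.sinh (Real.pi * η) ≤ Real.cos (2 * Real.pi / 5)) :
    Real.tanh (Real.pi * η) ^ 2 ≤ 871722 / 10000000 := by
  have hpi := Real.pi_pos
  have e : Real.cos (2 * Real.pi / 5) = sB := by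
    rw [← cos25]; congr 1; ring
  rw [e] at h
  have h0 : 0 ≤ Real.sinh (Real.pi * η) := Real.sinh_nonneg_iff.2 (by positivity)
  have h1 := pow_le_pow_left₀ h0 h 2
  rw [sB_sq] at h1
  have h5 := sqrt5_bd.1
  have h2 := Real.cosh_sq (Real.pi * η)
  rw [Real.tanh_eq_sinh_div_cosh, div_pow, div_le_iff₀ (by have := Real.cosh_pos (Real.pi * η); positivity), h2]
  linarith only [h1, h5]

/-- **The gain on the vertical of an inner 2**, for a point `w` in a polygon. -/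
theorem gain0 {m : Bool} {P : Prm} {K c1 c2 r2 la mu i0 : ℝ}
    (hP : PR P (K / Real.pi) c1 c2 r2 la mu i0) {f rl rh km : ℕ}
    (hb : bb m P f 0 km rl rh 0 1073741824 = true)
    {η h t ρ x u : ℝ} (hη : 0 < η) (hkm : Ub (Real.tanh (Real.pi * η)) km)
    (kmax : Real.tanh (Real.pi * η) ^ 2 ≤ 871722 / 10000000)
    (hh : 0 < h) (hρl : Lb ρ rl) (hρh : Ub ρ rh) (hρ1 : ρ < 1)
    (hκ : Real.tanh (Real.pi * h) = ρ * Real.tanh (Real.pi * η))
    (ht0 : 0 < t) (ht1 : t < 1 / 2) (hx0 : 0 ≤ x) (hx1 : x < 1 / 2) (hu : 0 ≤ u)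
    (p0 : i0 ≤ wi x u) (p1 : wr x u ≤ r2) (p2 : wr x u ≤ c1 + la * (wi x u - i0))
    (p3 : c2 ≤ wr x u + mu * (wi x u - i0))
    (hcr : gPd ((t : ℂ) + (h : ℂ) * I) (((2 / 5 : ℝ) : ℂ) + (η : ℂ) * I)
      ((x : ℂ) + ((-u : ℝ) : ℂ) * I) = ‖cos ((Real.pi : ℂ) * ((t : ℂ) + (h : ℂ) * I))‖ ^ 4) :
    K * η ≤ (he ((t : ℂ) + (h : ℂ) * I + (((2 / 5 : ℝ) : ℂ) + (η : ℂ) * I))).im -
      (he ((t : ℂ) + (h : ℂ) * I - (((2 / 5 : ℝ) : ℂ) + (η : ℂ) * I))).im -
      hm m (Real.tanh (Real.pi * η)) ρ * (eY ((t : ℂ) + (h : ℂ) * I)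
        (((2 / 5 : ℝ) : ℂ) + (η : ℂ) * I) ((x : ℂ) + ((-u : ℝ) : ℂ) * I)).im := by
  have hpi := Real.pi_pos
  have hU := U_pos
  set k := Real.tanh (Real.pi * η) with hk
  have hρ0 : 0 ≤ ρ := hρl.nonneg
  have k0 : 0 < k := by
    rw [hk, Real.tanh_eq_sinh_div_cosh]
    exact div_pos (Real.sinh_pos_iff.2 (by positivity)) (Real.cosh_pos _)
  have k1 : k < 1 := by
    rw [hk, Real.tanh_eq_sinh_div_cosh, div_lt_one (Real.cosh_pos _)]
    exact Real.sinh_lt_cosh _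
  have hκ' : Real.tanh (Real.pi * h) = k * ρ := by rw [hκ]; ring
  have hhη : h < η := by
    by_contra hc
    push Not at hc
    have h1 : Real.pi * η ≤ Real.pi * h := mul_le_mul_of_nonneg_left hc hpi.le
    have h2 : k ≤ Real.tanh (Real.pi * h) := by
      rw [hk, Real.tanh_eq_sinh_div_cosh, Real.tanh_eq_sinh_div_cosh,
        div_le_div_iff₀ (Real.cosh_pos _) (Real.cosh_pos _)]
      have h3 : 0 ≤ Real.sinh (Real.pi * h - Real.pi * η) := Real.sinh_nonneg_iff.2 (by linarith)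
      rw [Real.sinh_sub] at h3
      linarith
    rw [hκ'] at h2
    nlinarith only [hρ1, k0, h2]
  have hmb : 0 ≤ hm m k ρ ∧ hm m k ρ ≤ 1 := by
    rcases m with _ | _
    · exact hv_bd k0 k1 hρ0 hρ1
    · have e : hm true k ρ = 0 := rfl
      rw [e]; norm_num
  have D := dat_of (h' := hm m k ρ) (c1 := c1) (c2 := c2) (r2 := r2) (la := la) (mu := mu) hk.symm hη hh hρ0
    hρ1 ht0 ht1 hx0 hx1 hu hκ' hmb.1 hmb.2 hcr hP.i00 p0 p1 p2 p3
  -- the variable `z`
  set z := Real.tan (Real.pi * t / 2) with hz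
  have hct : 0 < Real.cos (Real.pi * t / 2) := by
    apply Real.cos_pos_of_mem_Ioo
    constructor <;> nlinarith only [ht0, hpi, ht1]
  have hst : 0 < Real.sin (Real.pi * t / 2) :=
    Real.sin_pos_of_pos_of_lt_pi (by positivity) (by nlinarith only [ht1, hpi])
  have z0 : 0 < z := by rw [hz, Real.tan_eq_sin_div_cos]; positivity
  have e2 : Real.pi * t = 2 * (Real.pi * t / 2) := by ring
  have hsc := Real.sin_sq_add_cos_sq (Real.pi * t / 2)
  have c0 : 0 < Real.cos (Real.pi * t) := D.c0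
  have s1 : Real.sin (Real.pi * t) = 2 * z / (1 + z ^ 2) := by
    conv_lhs => rw [e2]
    rw [Real.sin_two_mul, hz, Real.tan_eq_sin_div_cos]
    generalize Real.sin (Real.pi * t / 2) = a at *
    generalize Real.cos (Real.pi * t / 2) = b at *
    have : 1 + (a / b) ^ 2 = 1 / b ^ 2 := by field_simp; linarith
    rw [this]; field_simp
  have c1' : Real.cos (Real.pi * t) = (1 - z ^ 2) / (1 + z ^ 2) := by
    conv_lhs => rw [e2]
    rw [Real.cos_two_mul, hz, Real.tan_eq_sin_div_cos]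
    generalize Real.sin (Real.pi * t / 2) = a at *
    generalize Real.cos (Real.pi * t / 2) = b at *
    have : 1 + (a / b) ^ 2 = 1 / b ^ 2 := by field_simp; linarith
    rw [this]; field_simp; linarith
  have z1 : z < 1 := by
    rw [c1'] at c0
    by_contra hc
    push Not at hc
    have : (1 - z ^ 2) / (1 + z ^ 2) ≤ 0 :=
      div_nonpos_of_nonpos_of_nonneg (by nlinarith only [hc]) (by positivity)
    linarith
  have hzl : Lb z 0 := lb_zero z0.le
  have hzh : Ub z 1073741824 := by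
    unfold Ub U
    push_cast
    linarith
  have hkl : Lb k 0 := lb_zero k0.le
  have G := bb_sound hP D z0 z1 s1 c1' f 0 km rl rh 0 1073741824 hb hkl hkm hρl hρh hzl hzh
  unfold Goal at G
  -- the left hand side
  have kk0 := hP.kk0
  have l1 : Real.pi * η ≤ k * (1 + 37 / 100 * k ^ 2) := arg_le (by positivity) (by rw [← hk]; linarith)
  have l2 : K * η ≤ K / Real.pi * (1 + 37 / 100 * k ^ 2) * k := by
    have l3 := mul_le_mul_of_nonneg_left l1 kk0
    have l4 : K / Real.pi * (Real.pi * η) = K * η := by field_simp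
    rw [l4] at l3
    linarith
  refine (l2.trans G).trans (le_of_eq ?_)
  -- the dictionary
  have d1 : (t : ℂ) + (h : ℂ) * I + (((2 / 5 : ℝ) : ℂ) + (η : ℂ) * I) =
      ((t + 2 / 5 : ℝ) : ℂ) + ((h + η : ℝ) : ℂ) * I := by push_cast; ring
  have d2 : (t : ℂ) + (h : ℂ) * I - (((2 / 5 : ℝ) : ℂ) + (η : ℂ) * I) =
      ((t - 2 / 5 : ℝ) : ℂ) + ((h - η : ℝ) : ℂ) * I := by push_cast; ring
  have d3 : (t : ℂ) + (h : ℂ) * I + 1 / 2 = ((t + 1 / 2 : ℝ) : ℂ) + ((h : ℝ) : ℂ) * I := by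
    push_cast; ring
  have d4 : (t : ℂ) + (h : ℂ) * I - ((x : ℂ) + ((-u : ℝ) : ℂ) * I) =
      ((t - x : ℝ) : ℂ) + ((h + u : ℝ) : ℂ) * I := by push_cast; ring
  have d5 : (t : ℂ) + (h : ℂ) * I + ((x : ℂ) + ((-u : ℝ) : ℂ) * I) =
      ((t + x : ℝ) : ℂ) + ((h - u : ℝ) : ℂ) * I := by push_cast; ring
  unfold eY
  rw [d1, d2, d3, d4, d5]
  simp only [sub_im, mul_im, re_ofNat, im_ofNat, zero_mul, add_zero]
  rw [aP_eq k hk.symm hη hh ht0 ht1 hκ', aN_eq k hk.symm hhη ht0 ht1 hκ', aH_eq k hh ht0 ht1 hκ']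
  unfold vG wW
  ring

theorem km_ub {η : ℝ} (h : Real.tanh (Real.pi * η) ^ 2 ≤ 871722 / 10000000) :
    Ub (Real.tanh (Real.pi * η)) 317022273 := by
  unfold Ub U
  push_cast
  have : Real.tanh (Real.pi * η) ≤ 317022273 / 1073741824 := by
    apply le_of_sq_le_sq _ (by norm_num)
    refine h.trans (by norm_num)
  linarith

/-- The gain for a point `w` below a line. -/
theorem gain {m : Bool} {P : Prm} {K S cc c1 c2 r2 la mu : ℝ}
    (hP : PR P (K / Real.pi) c1 c2 r2 la mu 0) (hg : Pg S cc c1 c2 r2 la mu) {f rl rh : ℕ}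
    (hb : bb m P f 0 317022273 rl rh 0 1073741824 = true)
    {η h t ρ x u : ℝ} (hη : 0 < η) (hη1 : Real.sinh (Real.pi * η) ≤ Real.cos (2 * Real.pi / 5))
    (hh : 0 < h) (hρl : Lb ρ rl) (hρh : Ub ρ rh) (hρ1 : ρ < 1)
    (hκ : Real.tanh (Real.pi * h) = ρ * Real.tanh (Real.pi * η))
    (ht0 : 0 < t) (ht1 : t < 1 / 2) (hx0 : 0 ≤ x) (hx1 : x < 1 / 2) (hu : 0 ≤ u)
    (hS : Real.sinh (Real.pi * u) ≤ S * Real.cos (Real.pi * x))
    (hc1 : Real.cos (Real.pi * x) ^ 2 ≤ cc) (hc2 : c2 ≤ Real.cos (Real.pi * x) ^ 2)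
    (hcr : gPd ((t : ℂ) + (h : ℂ) * I) (((2 / 5 : ℝ) : ℂ) + (η : ℂ) * I)
      ((x : ℂ) + ((-u : ℝ) : ℂ) * I) = ‖cos ((Real.pi : ℂ) * ((t : ℂ) + (h : ℂ) * I))‖ ^ 4) :
    K * η ≤ (he ((t : ℂ) + (h : ℂ) * I + (((2 / 5 : ℝ) : ℂ) + (η : ℂ) * I))).im -
      (he ((t : ℂ) + (h : ℂ) * I - (((2 / 5 : ℝ) : ℂ) + (η : ℂ) * I))).im -
      hm m (Real.tanh (Real.pi * η)) ρ * (eY ((t : ℂ) + (h : ℂ) * I)
        (((2 / 5 : ℝ) : ℂ) + (η : ℂ) * I) ((x : ℂ) + ((-u : ℝ) : ℂ) * I)).im := by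
  obtain ⟨p1, p2, p3⟩ := poly hg hP.la0 hP.mu0 hx0 hx1 hu hS hc1 hc2
  have kmax := tanh_max hη.le hη1
  have wi0 : 0 ≤ wi x u := by
    have hpi := Real.pi_pos
    have sx : 0 ≤ Real.sin (Real.pi * x) :=
      Real.sin_nonneg_of_nonneg_of_le_pi (by positivity) (by nlinarith only [hx1, hpi])
    have cx : 0 ≤ Real.cos (Real.pi * x) := by
      apply Real.cos_nonneg_of_mem_Icc
      constructor <;> nlinarith only [hx0, hpi, hx1]
    have Su : 0 ≤ Real.sinh (Real.pi * u) := Real.sinh_nonneg_iff.2 (by positivity)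
    have Cu := Real.cosh_pos (Real.pi * u)
    unfold wi; positivity
  exact gain0 hP hb hη (km_ub kmax) kmax hh hρl hρh hρ1 hκ ht0 ht1 hx0 hx1 hu wi0 p1
    (by rw [sub_zero]; exact p2) (by rw [sub_zero]; exact p3) hcr

end Pool.Agent.S3.P3
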