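import Pool.Agent.S3.W2.P3G

/-!
# Phase 3 of the slide: the polygon of a point on its line
-/

set_option autoImplicit false

namespace Pool.Agent.S3.P3

open Complex

/-- The value at `S` of the right polygon side. -/
def cdR (cc i0 sA al be c1 la S : ℝ) : Prop :=
  cc + S ^ 2 * (cc * (2 * cc - 1)) ≤ c1 + la * (2 * sA * (al * S + be * S ^ 2) - i0)

/-- The value at `S` of the left polygon side. -/
def cdL (cl i0 q1 g1 c2 mu S : ℝ) : Prop :=
  0 ≤ 1 - S ^ 2 * (1 - 2 * cl) + 2 * mu * S * q1 * g1 ∧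
    c2 + mu * i0 ≤ cl * (1 - S ^ 2 * (1 - 2 * cl) + 2 * mu * S * q1 * g1)

/-- The rational conditions on a polygon for the points of the lines `S1 ≤ tan θ' ≤ S2`. -/
structure Pl (S1 S2 cc cl i0 sA al be q1 g1 c1 c2 r2 la mu : ℝ) : Prop where
  S10 : 0 < S1
  S11 : S1 ≤ 1
  S12 : S1 ≤ S2
  cl0 : 0 ≤ cl
  cc1 : cc ≤ 1
  i00 : 0 ≤ i0
  hi : i0 ^ 2 ≤ 4 * S1 ^ 2 * (cl * (cc * (1 - cc))) * (1 + S1 ^ 2 * cl)
  hi' : i0 ^ 2 ≤ 4 * S1 ^ 2 * (cl * (cl * (1 - cl))) * (1 + S1 ^ 2 * cl)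
  r : (1 ≤ 2 * cc ∧ cc + S2 ^ 2 * cc * (2 * cc - 1) ≤ r2) ∨
    (2 * cc ≤ 1 ∧ cc + S1 ^ 2 * cc * (2 * cc - 1) ≤ r2)
  c : r2 ≤ c1 ∨ ((1 ≤ 2 * cc ∧ 0 ≤ sA ∧ sA ^ 2 ≤ cl * (cc * (1 - cc)) ∧
    sA ^ 2 ≤ cl * (cl * (1 - cl))) ∧ (0 ≤ al ∧ 0 ≤ be ∧ al ≤ 1 ∧ be ^ 2 < cl ∧
    al ^ 2 * be ^ 2 ≤ (cl - be ^ 2) * (1 - al ^ 2)) ∧ 2 * la * sA * be ≤ cc * (2 * cc - 1) ∧
    cdR cc i0 sA al be c1 la S1 ∧ cdR cc i0 sA al be c1 la S2)
  d : (1 ≤ 2 * cl ∧ c2 ≤ cl + S1 ^ 2 * cl * (2 * cl - 1)) ∨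
    ((2 * cl ≤ 1 ∧ 0 ≤ q1 ∧ q1 ^ 2 ≤ 1 - cc ∧ 0 ≤ g1 ∧ g1 ^ 2 ≤ 1 + S1 ^ 2 * cl) ∧
      cdL cl i0 q1 g1 c2 mu S1 ∧ cdL cl i0 q1 g1 c2 mu S2)

/-- a concave quadratic function on an interval. -/
theorem conc {a b c S1 S2 S : ℝ} (ha : a ≤ 0) (h1 : S1 ≤ S) (h2 : S ≤ S2)
    (e1 : 0 ≤ a * S1 ^ 2 + b * S1 + c) (e2 : 0 ≤ a * S2 ^ 2 + b * S2 + c) :
    0 ≤ a * S ^ 2 + b * S + c := by
  rcases eq_or_lt_of_le (h1.trans h2) with h | h
  · have : S = S1 := le_antisymm (by rw [h]; exact h2) h1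
    rw [this]; exact e1
  · have k1 := mul_nonneg (sub_nonneg.2 h2) e1
    have k2 := mul_nonneg (sub_nonneg.2 h1) e2
    have k3 : (S2 - S1) * (a * S ^ 2 + b * S + c) =
        (S2 - S) * (a * S1 ^ 2 + b * S1 + c) + (S - S1) * (a * S2 ^ 2 + b * S2 + c) +
          (-a) * ((S - S1) * ((S2 - S) * (S2 - S1))) := by ring
    have k4 : 0 ≤ (-a) * ((S - S1) * ((S2 - S) * (S2 - S1))) :=
      mul_nonneg (by linarith) (mul_nonneg (by linarith) (mul_nonneg (by linarith) (by linarith)))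
    have k5 : 0 ≤ (S2 - S1) * (a * S ^ 2 + b * S + c) := by rw [k3]; linarith
    exact nonneg_of_mul_nonneg_right k5 (by linarith)

section
variable {S1 S2 cc cl i0 sA al be q1 g1 c1 c2 r2 la mu S x u : ℝ}

theorem poly1 (h : Pl S1 S2 cc cl i0 sA al be q1 g1 c1 c2 r2 la mu) (hla : 0 ≤ la) (hmu : 0 ≤ mu)
    (hx0 : 0 ≤ x) (hx1 : x < 1 / 2) (hu : 0 ≤ u)
    (hσ : Real.sinh (Real.pi * u) = S * Real.cos (Real.pi * x)) (hS1 : S1 ≤ S) (hS2 : S ≤ S2)
    (hc1 : Real.cos (Real.pi * x) ^ 2 ≤ cc) (hc2 : cl ≤ Real.cos (Real.pi * x) ^ 2) :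
    i0 ≤ wi x u ∧ wr x u ≤ r2 ∧ wr x u ≤ c1 + la * (wi x u - i0) ∧
      c2 ≤ wr x u + mu * (wi x u - i0) := by
  have hpi := Real.pi_pos
  obtain ⟨S10, S11, S12, cl0, cc1, i00, hi, hi', hr, hc, hd⟩ := h
  have s0 : 0 ≤ Real.sin (Real.pi * x) :=
    Real.sin_nonneg_of_nonneg_of_le_pi (by positivity) (by nlinarith only [hx1, hpi])
  have a0 : 0 < Real.cos (Real.pi * x) := by
    apply Real.cos_pos_of_mem_Ioo
    constructor <;> nlinarith only [hx0, hpi, hx1]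
  have C0 := Real.cosh_pos (Real.pi * u)
  have hC := Real.cosh_sq (Real.pi * u)
  have hsc := Real.sin_sq_add_cos_sq (Real.pi * x)
  unfold wr wi
  generalize Real.sin (Real.pi * x) = s at *
  generalize Real.cos (Real.pi * x) = a at *
  generalize Real.sinh (Real.pi * u) = σ at *
  generalize Real.cosh (Real.pi * u) = C at *
  subst hσ
  have S0 : 0 < S := by linarith
  obtain ⟨c, hcdef⟩ : ∃ c, c = a ^ 2 := ⟨_, rfl⟩
  rw [← hcdef] at hc1 hc2
  have c0 : 0 < c := by rw [hcdef]; positivity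
  have s2 : s ^ 2 = 1 - c := by rw [hcdef]; linarith
  have C2 : C ^ 2 = 1 + S ^ 2 * c := by rw [hC, hcdef]; ring
  obtain ⟨i, hidef⟩ : ∃ i, i = 2 * (s * a) * (S * a * C) := ⟨_, rfl⟩
  have i0' : 0 ≤ i := by rw [hidef]; positivity
  have i2 : i ^ 2 = 4 * S ^ 2 * (c * (c * (1 - c))) * (1 + S ^ 2 * c) := by
    rw [hidef]
    have : (2 * (s * a) * (S * a * C)) ^ 2 = 4 * S ^ 2 * (a ^ 2 * (a ^ 2 * s ^ 2)) * C ^ 2 := by ring
    rw [this, C2, s2, hcdef]
  have ie : i = 2 * S * c * s * C := by rw [hidef, hcdef]; ring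
  have hre : a ^ 2 + (S * a) ^ 2 * (2 * a ^ 2 - 1) = c + S ^ 2 * c * (2 * c - 1) := by
    rw [hcdef]; ring
  rw [← hidef, hre]
  have c1' : c ≤ 1 := hc1.trans cc1
  have SS : S1 ^ 2 ≤ S ^ 2 := pow_le_pow_left₀ S10.le hS1 2
  have SS' : S ^ 2 ≤ S2 ^ 2 := pow_le_pow_left₀ S0.le hS2 2
  -- `c (1 - c)`
  have hq : cc * (1 - cc) ≤ c * (1 - c) ∨ cl * (1 - cl) ≤ c * (1 - c) := by
    rcases le_total (1 - c - cc) 0 with h | h
    · left; nlinarith only [hc1, h]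
    · right; nlinarith only [hc2, hc1, h]
  have hi0 : i0 ≤ i := by
    apply le_of_sq_le_sq _ i0'
    rw [i2]
    have f1 : 1 + S1 ^ 2 * cl ≤ 1 + S ^ 2 * c := by
      have := mul_le_mul SS hc2 cl0 (sq_nonneg S)
      linarith
    have f2 : ∀ A : ℝ, 0 ≤ A → A ≤ c * (1 - c) →
        4 * S1 ^ 2 * (cl * A) * (1 + S1 ^ 2 * cl) ≤
          4 * S ^ 2 * (c * (c * (1 - c))) * (1 + S ^ 2 * c) := by
      intro A A0 hA
      have g1 : cl * A ≤ c * (c * (1 - c)) := mul_le_mul hc2 hA A0 c0.le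
      have g2 : 4 * S1 ^ 2 * (cl * A) ≤ 4 * S ^ 2 * (c * (c * (1 - c))) :=
        mul_le_mul (by linarith) g1 (mul_nonneg cl0 A0) (by positivity)
      exact mul_le_mul g2 f1 (by positivity) (by
        have : 0 ≤ c * (1 - c) := mul_nonneg c0.le (by linarith)
        positivity)
    rcases hq with hq | hq
    · exact hi.trans (f2 _ (mul_nonneg (by linarith) (by linarith)) hq)
    · exact hi'.trans (f2 _ (mul_nonneg cl0 (by linarith)) hq)
  have hrr : c + S ^ 2 * c * (2 * c - 1) ≤ r2 := by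
    rcases hr with ⟨h1, h2⟩ | ⟨h1, h2⟩
    · refine le_trans ?_ h2
      have g1 : c * (2 * c - 1) ≤ cc * (2 * cc - 1) := by
        rcases le_total 0 (2 * c - 1) with h | h
        · exact mul_le_mul hc1 (by linarith) h (c0.le.trans hc1)
        · have k1 : c * (2 * c - 1) ≤ 0 := mul_nonpos_of_nonneg_of_nonpos c0.le h
          have k2 : 0 ≤ cc * (2 * cc - 1) := mul_nonneg (c0.le.trans hc1) (by linarith)
          linarith
      have k2 : 0 ≤ cc * (2 * cc - 1) := mul_nonneg (c0.le.trans hc1) (by linarith)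
      have g2 : S ^ 2 * (c * (2 * c - 1)) ≤ S ^ 2 * (cc * (2 * cc - 1)) :=
        mul_le_mul_of_nonneg_left g1 (sq_nonneg S)
      have g3 : S ^ 2 * (cc * (2 * cc - 1)) ≤ S2 ^ 2 * (cc * (2 * cc - 1)) :=
        mul_le_mul_of_nonneg_right SS' k2
      linarith only [hc1, g2, g3]
    · refine le_trans ?_ h2
      have g1 : S1 ^ 2 * (c * (1 - 2 * c)) ≤ S ^ 2 * (c * (1 - 2 * c)) :=
        mul_le_mul_of_nonneg_right SS (mul_nonneg c0.le (by linarith))
      have g2 : 0 ≤ (cc - c) * (S1 ^ 2 * (2 * (cc + c)) + (1 - S1 ^ 2)) := by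
        have h3 : 0 ≤ 1 - S1 ^ 2 := by nlinarith only [S10, S11]
        have h4 : 0 ≤ cc := c0.le.trans hc1
        exact mul_nonneg (by linarith) (by positivity)
      linarith only [g1, g2]
  refine ⟨hi0, hrr, ?_, ?_⟩
  · rcases hc with h | ⟨⟨h1, h2, h3, h3'⟩, ⟨h4, h5, h6, h7, h8⟩, h9, h10, h11⟩
    · have : 0 ≤ la * (i - i0) := mul_nonneg hla (by linarith)
      linarith
    · have B0 : 0 ≤ cc * (2 * cc - 1) := mul_nonneg (c0.le.trans hc1) (by linarith)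
      have g1 : c * (2 * c - 1) ≤ cc * (2 * cc - 1) := by
        rcases le_total 0 (2 * c - 1) with h | h
        · exact mul_le_mul hc1 (by linarith) h (c0.le.trans hc1)
        · have k1 : c * (2 * c - 1) ≤ 0 := mul_nonpos_of_nonneg_of_nonpos c0.le h
          linarith
      have g2 : S ^ 2 * (c * (2 * c - 1)) ≤ S ^ 2 * (cc * (2 * cc - 1)) :=
        mul_le_mul_of_nonneg_left g1 (sq_nonneg S)
      -- `i ≥ 2 S sA (al + be S)`
      have t1 : (al + be * S) ^ 2 ≤ 1 + cl * S ^ 2 := by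
        have P0 : 0 < cl - be ^ 2 := by linarith
        have k1 : 0 ≤ (cl - be ^ 2) * ((cl - be ^ 2) * S ^ 2 - 2 * (al * be) * S + (1 - al ^ 2)) := by
          linarith only [sq_nonneg ((cl - be ^ 2) * S - al * be), h8]
        have k2 := nonneg_of_mul_nonneg_right k1 P0
        linarith only [k2]
      have hA : sA ^ 2 ≤ cl * (c * (1 - c)) := by
        rcases hq with hq | hq
        · exact h3.trans (mul_le_mul_of_nonneg_left hq cl0)
        · exact h3'.trans (mul_le_mul_of_nonneg_left hq cl0)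
      have hA' : sA ^ 2 ≤ c * (c * (1 - c)) :=
        hA.trans (mul_le_mul_of_nonneg_right hc2 (mul_nonneg c0.le (by linarith)))
      have t2 : 2 * sA * (al * S + be * S ^ 2) ≤ i := by
        apply le_of_sq_le_sq _ i0'
        rw [i2]
        have e : (2 * sA * (al * S + be * S ^ 2)) ^ 2 = 4 * S ^ 2 * (sA ^ 2 * (al + be * S) ^ 2) := by
          ring
        rw [e]
        have t3 : (al + be * S) ^ 2 ≤ 1 + S ^ 2 * c := by
          have := mul_le_mul_of_nonneg_right hc2 (sq_nonneg S)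
          linarith
        have t4 : sA ^ 2 * (al + be * S) ^ 2 ≤ (c * (c * (1 - c))) * (1 + S ^ 2 * c) :=
          mul_le_mul hA' t3 (sq_nonneg _) (mul_nonneg c0.le (mul_nonneg c0.le (by linarith)))
        have := mul_le_mul_of_nonneg_left t4 (by positivity : (0:ℝ) ≤ 4 * S ^ 2)
        linarith
      have t5 := mul_le_mul_of_nonneg_left t2 hla
      unfold cdR at h10 h11
      have t6 : 0 ≤ (2 * la * sA * be - cc * (2 * cc - 1)) * S ^ 2 + (2 * la * sA * al) * S +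
          (c1 - la * i0 - cc) := by
        refine conc (by linarith) hS1 hS2 ?_ ?_
        · linarith
        · linarith
      linarith
  · rcases hd with ⟨h1, h2⟩ | ⟨⟨h1, h2, h3, h4, h5⟩, ⟨h6, h7⟩, h8, h9⟩
    · have : 0 ≤ mu * (i - i0) := mul_nonneg hmu (by linarith)
      have k1 : cl * (2 * cl - 1) ≤ c * (2 * c - 1) := mul_le_mul hc2 (by linarith) (by linarith) c0.le
      have k2 : S1 ^ 2 * (cl * (2 * cl - 1)) ≤ S ^ 2 * (c * (2 * c - 1)) :=
        mul_le_mul SS k1 (mul_nonneg cl0 (by linarith)) (sq_nonneg S)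
      linarith
    · have sq1 : q1 ≤ s := by
        apply le_of_sq_le_sq _ s0
        rw [s2]; linarith
      have Cg : g1 ≤ C := by
        apply le_of_sq_le_sq _ C0.le
        rw [C2]
        have := mul_le_mul SS hc2 cl0 (sq_nonneg S)
        linarith
      have t1 : 2 * S * c * (q1 * g1) ≤ i := by
        rw [ie]
        have := mul_le_mul sq1 Cg h4 s0
        have k := mul_le_mul_of_nonneg_left this (by positivity : (0:ℝ) ≤ 2 * S * c)
        linarith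
      have t2 := mul_le_mul_of_nonneg_left t1 hmu
      have F0 : 0 ≤ (-(1 - 2 * cl)) * S ^ 2 + (2 * mu * q1 * g1) * S + 1 := by
        refine conc (by linarith) hS1 hS2 ?_ ?_
        · linarith
        · linarith
      have F1 : 0 ≤ (-(cl * (1 - 2 * cl))) * S ^ 2 + (cl * (2 * mu * q1 * g1)) * S +
          (cl - c2 - mu * i0) := by
        refine conc (by
          have : 0 ≤ cl * (1 - 2 * cl) := mul_nonneg cl0 (by linarith)
          linarith) hS1 hS2 ?_ ?_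
        · linarith
        · linarith
      have F2 : cl * ((-(1 - 2 * cl)) * S ^ 2 + (2 * mu * q1 * g1) * S + 1) ≤
          c * ((-(1 - 2 * cl)) * S ^ 2 + (2 * mu * q1 * g1) * S + 1) :=
        mul_le_mul_of_nonneg_right hc2 F0
      have F3 : 0 ≤ S ^ 2 * c * (c - cl) := mul_nonneg (by positivity) (by linarith)
      linarith only [t2, F1, F2, F3]

end

end Pool.Agent.S3.P3
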