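import Pool.Agent.S3.LX8
import Pool.Agent.S3.W2.P3I
import Pool.Agent.S3.W2.Scheme

/-!
# Phase 3 of the slide: the statements for the windows of `Re w`

`P3a K S x1 x2`: the gain `K η` along the vertical `v = 2/5 + i η` at the critical points of the
height `hgt ρ η`, `7/10 ≤ ρ ≤ 19/20`, for all `w` with `x1 ≤ Re w ≤ x2`, `Im w ≤ 0` and
`sinh (π |Im w|) ≤ S cos (π Re w)`. `P3b`: the same with the height frozen below `7/10`.
-/

set_option autoImplicit false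

namespace Pool.Agent.S3

open Complex Set

/-- Phase 3 with the moving height. -/
def P3a (K S x1 x2 : ℝ) : Prop := ∀ w : ℂ, x1 ≤ w.re → w.re ≤ x2 → w.im ≤ 0 →
  Real.sinh (Real.pi * -w.im) ≤ S * Real.cos (Real.pi * w.re) →
  ∀ ρ : ℝ, 7 / 10 ≤ ρ → ρ ≤ 19 / 20 → ∀ η : ℝ, 0 < η →
  Real.sinh (Real.pi * η) ≤ Real.cos (2 * Real.pi / 5) →
  ∀ t ∈ Ioo (0 : ℝ) (1 / 2),
  gPd ((t : ℂ) + (hgt ρ η : ℂ) * I) (vv η) w =
    ‖cos (Real.pi * ((t : ℂ) + (hgt ρ η : ℂ) * I))‖ ^ 4 →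
  K * η < (he ((t : ℂ) + (hgt ρ η : ℂ) * I + vv η) - he ((t : ℂ) + (hgt ρ η : ℂ) * I - vv η)).im -
    rp ρ η * (eY ((t : ℂ) + (hgt ρ η : ℂ) * I) (vv η) w).im

/-- Phase 3 with the frozen height. -/
def P3b (K S x1 x2 : ℝ) : Prop := ∀ w : ℂ, x1 ≤ w.re → w.re ≤ x2 → w.im ≤ 0 →
  Real.sinh (Real.pi * -w.im) ≤ S * Real.cos (Real.pi * w.re) →
  ∀ h : ℝ, 0 < h → ∀ η : ℝ, 0 < η →
  Real.sinh (Real.pi * η) ≤ Real.cos (2 * Real.pi / 5) →
  Real.tanh (Real.pi * h) ≤ 7 / 10 * Real.tanh (Real.pi * η) →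
  ∀ t ∈ Ioo (0 : ℝ) (1 / 2),
  gPd ((t : ℂ) + (h : ℂ) * I) (vv η) w = ‖cos (Real.pi * ((t : ℂ) + (h : ℂ) * I))‖ ^ 4 →
  K * η < (he ((t : ℂ) + (h : ℂ) * I + vv η) - he ((t : ℂ) + (h : ℂ) * I - vv η)).im

theorem P3a.mono {K K' S S' x1 x2 y1 y2 : ℝ} (H : P3a K S x1 x2) (hK : K' ≤ K) (hS : S' ≤ S)
    (h1 : x1 ≤ y1) (h2 : y2 ≤ x2) (h0 : -(1 / 2) ≤ y1) (h3 : y2 ≤ 1 / 2) : P3a K' S' y1 y2 := by
  intro w w1 w2 w3 w4 ρ r1 r2 η e0 e1 t ht hg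
  have hpi := Real.pi_pos
  have hc : 0 ≤ Real.cos (Real.pi * w.re) :=
    Real.cos_nonneg_of_mem_Icc ⟨by nlinarith, by nlinarith⟩
  have h := H w (h1.trans w1) (w2.trans h2) w3
    (w4.trans (mul_le_mul_of_nonneg_right hS hc)) ρ r1 r2 η e0 e1 t ht hg
  exact (mul_le_mul_of_nonneg_right hK e0.le).trans_lt h

theorem P3b.mono {K K' S S' x1 x2 y1 y2 : ℝ} (H : P3b K S x1 x2) (hK : K' ≤ K) (hS : S' ≤ S)
    (h1 : x1 ≤ y1) (h2 : y2 ≤ x2) (h0 : -(1 / 2) ≤ y1) (h3 : y2 ≤ 1 / 2) : P3b K' S' y1 y2 := by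
  intro w w1 w2 w3 w4 h hh η e0 e1 r t ht hg
  have hpi := Real.pi_pos
  have hc : 0 ≤ Real.cos (Real.pi * w.re) :=
    Real.cos_nonneg_of_mem_Icc ⟨by nlinarith, by nlinarith⟩
  have h := H w (h1.trans w1) (w2.trans h2) w3
    (w4.trans (mul_le_mul_of_nonneg_right hS hc)) h hh η e0 e1 r t ht hg
  exact (mul_le_mul_of_nonneg_right hK e0.le).trans_lt h

/-- The vertical part of a point below the line of `θ`. -/
theorem p3_eta {θ η : ℝ} (ht : Real.tan θ ≤ 1) (h : η ≤ bl θ (2 / 5)) :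
    Real.sinh (Real.pi * η) ≤ Real.cos (2 * Real.pi / 5) := by
  have hpi := Real.pi_pos
  have h1 : Real.sinh (Real.pi * η) ≤ Real.sinh (Real.pi * bl θ (2 / 5)) :=
    Real.sinh_le_sinh.2 (mul_le_mul_of_nonneg_left h hpi.le)
  have h2 : Real.sinh (Real.pi * bl θ (2 / 5)) = Real.tan θ * Real.cos (Real.pi * (2 / 5)) := by
    rw [bl, mul_div_cancel₀ _ Real.pi_ne_zero, Real.sinh_arsinh]
  have h3 : 0 ≤ Real.cos (2 * Real.pi / 5) :=
    Real.cos_nonneg_of_mem_Icc ⟨by linarith, by linarith⟩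
  rw [h2, show Real.pi * (2 / 5) = 2 * Real.pi / 5 by ring] at h1
  nlinarith

/-- (3a) in the form of `OO.slideH` and `vert_all`. -/
theorem P3a.use {K S x1 x2 θ h0 : ℝ} {w : ℂ} (H : P3a K S x1 x2) (ht : Real.tan θ ≤ 1)
    (w1 : x1 ≤ w.re) (w2 : w.re ≤ x2) (w3 : w.im ≤ 0)
    (w4 : Real.sinh (Real.pi * -w.im) ≤ S * Real.cos (Real.pi * w.re)) :
    ∀ ρ : ℝ, 7 / 10 ≤ ρ → ρ ≤ 19 / 20 → ∀ η ∈ Ioc (0 : ℝ) (bl θ (2 / 5)), hgt ρ η ≤ h0 →
      ∀ t ∈ Ico (1 / 200 : ℝ) (1 / 2),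
      gPd ((t : ℂ) + (hgt ρ η : ℂ) * I) (vv η) w =
        ‖cos (Real.pi * ((t : ℂ) + (hgt ρ η : ℂ) * I))‖ ^ 4 →
      K * η < (he ((t : ℂ) + (hgt ρ η : ℂ) * I + vv η) - he ((t : ℂ) + (hgt ρ η : ℂ) * I - vv η)).im -
        rp ρ η * (eY ((t : ℂ) + (hgt ρ η : ℂ) * I) (vv η) w).im :=
  fun ρ r1 r2 η e _ t ht' hg => H w w1 w2 w3 w4 ρ r1 r2 η e.1 (p3_eta ht e.2) t
    ⟨by linarith [ht'.1], ht'.2⟩ hg

/-- (3b) in the form of `OO.slideH` and `vert_all`. -/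
theorem P3b.use {K S x1 x2 θ h0 : ℝ} {w : ℂ} (H : P3b K S x1 x2) (ht : Real.tan θ ≤ 1)
    (w1 : x1 ≤ w.re) (w2 : w.re ≤ x2) (w3 : w.im ≤ 0)
    (w4 : Real.sinh (Real.pi * -w.im) ≤ S * Real.cos (Real.pi * w.re)) :
    ∀ h1 : ℝ, 0 < h1 → h1 ≤ h0 → ∀ η ∈ Ioc (0 : ℝ) (bl θ (2 / 5)),
      Real.tanh (Real.pi * h1) ≤ 7 / 10 * Real.tanh (Real.pi * η) →
      ∀ t ∈ Ico (1 / 200 : ℝ) (1 / 2),
      gPd ((t : ℂ) + (h1 : ℂ) * I) (vv η) w =
        ‖cos (Real.pi * ((t : ℂ) + (h1 : ℂ) * I))‖ ^ 4 →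
      K * η < (he ((t : ℂ) + (h1 : ℂ) * I + vv η) - he ((t : ℂ) + (h1 : ℂ) * I - vv η)).im :=
  fun h1 hh _ η e r t ht' hg => H w w1 w2 w3 w4 h1 hh η e.1 (p3_eta ht e.2) r t
    ⟨by linarith [ht'.1], ht'.2⟩ hg

/-- (3b) is empty when the height is not small. -/
theorem p3b_void {θ h0 k1 : ℝ} (hθ : 0 < Real.tan θ) (hk : 2164 / 10000 ≤ k1)
    (h : k1 * Real.tan θ ≤ Real.sinh (Real.pi * h0)) (hh : 0 < h0) {η : ℝ} (h1 : 0 < η)
    (h2 : η ≤ bl θ (2 / 5)) (h3 : Real.tanh (Real.pi * h0) ≤ 7 / 10 * Real.tanh (Real.pi * η)) :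
    False := by
  have hpi := Real.pi_pos
  have e0 : Real.sinh (Real.pi * η) ≤ Real.tan θ * Real.cos (2 * Real.pi / 5) := by
    have := Real.sinh_le_sinh.2 (mul_le_mul_of_nonneg_left h2 hpi.le)
    rwa [show Real.sinh (Real.pi * bl θ (2 / 5)) = Real.tan θ * Real.cos (2 * Real.pi / 5) by
      rw [bl, mul_div_cancel₀ _ Real.pi_ne_zero, Real.sinh_arsinh,
        show Real.pi * (2 / 5) = 2 * Real.pi / 5 by ring]] at this
  have e1 : Real.cos (2 * Real.pi / 5) ≤ 30903 / 100000 := by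
    have c1 : Real.cos (2 * Real.pi / 5) = 2 * Real.cos (Real.pi / 5) ^ 2 - 1 := by
      rw [← Real.cos_two_mul]; congr 1; ring
    rw [c1, Real.cos_pi_div_five]
    have s5 : Real.sqrt 5 ≤ 2236068 / 1000000 := by
      rw [Real.sqrt_le_left (by norm_num)]; norm_num
    have s5' : 0 ≤ Real.sqrt 5 := Real.sqrt_nonneg 5
    nlinarith [Real.sq_sqrt (show (0 : ℝ) ≤ 5 by norm_num)]
  have hhη : h0 < η := by
    by_contra hc
    push Not at hc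
    have tp : 0 < Real.tanh (Real.pi * η) := by
      rw [Real.tanh_eq_sinh_div_cosh]
      exact div_pos (Real.sinh_pos_iff.2 (by positivity)) (Real.cosh_pos _)
    have h4 : Real.tanh (Real.pi * η) ≤ Real.tanh (Real.pi * h0) := by
      rw [Real.tanh_eq_sinh_div_cosh, Real.tanh_eq_sinh_div_cosh,
        div_le_div_iff₀ (Real.cosh_pos _) (Real.cosh_pos _)]
      have h5 : 0 ≤ Real.sinh (Real.pi * h0 - Real.pi * η) :=
        Real.sinh_nonneg_iff.2 (by nlinarith)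
      rw [Real.sinh_sub] at h5
      linarith
    linarith
  rw [Real.tanh_eq_sinh_div_cosh, Real.tanh_eq_sinh_div_cosh, ← mul_div_assoc,
    div_le_div_iff₀ (Real.cosh_pos _) (Real.cosh_pos _)] at h3
  have c2 : Real.cosh (Real.pi * h0) ≤ Real.cosh (Real.pi * η) := by
    rw [Real.cosh_le_cosh, abs_of_pos (by positivity), abs_of_pos (by positivity)]
    nlinarith
  have s2 : 0 < Real.sinh (Real.pi * h0) := Real.sinh_pos_iff.2 (by positivity)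
  have s3 : 0 < Real.sinh (Real.pi * η) := Real.sinh_pos_iff.2 (by positivity)
  have c3 := Real.cosh_pos (Real.pi * h0)
  have e2 : Real.sinh (Real.pi * h0) ≤ 7 / 10 * Real.sinh (Real.pi * η) := by
    by_contra hc
    push Not at hc
    nlinarith
  nlinarith

namespace P3

theorem vv_eq (η : ℝ) : vv η = ((2 / 5 : ℝ) : ℂ) + (η : ℂ) * I := rfl

theorem w_eq (w : ℂ) : w = (w.re : ℂ) + ((-(-w.im) : ℝ) : ℂ) * I := by
  apply Complex.ext <;> simp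

/-- (3a) from the branch and bound. -/
theorem a_of {P : Prm} {K K' S cc c1 c2 r2 la mu x1 x2 : ℝ} (hP : PR P (K' / Real.pi) c1 c2 r2 la mu 0)
    (hg : Pg S cc c1 c2 r2 la mu) {f : ℕ}
    (hb : bb false P f 0 317022273 751619276 1020054734 0 1073741824 = true)
    (hK : K < K') (hx1 : 0 ≤ x1) (hx2 : x2 < 1 / 2)
    (hc1 : Real.cos (Real.pi * x1) ^ 2 ≤ cc) (hc2 : c2 ≤ Real.cos (Real.pi * x2) ^ 2) :
    P3a K S x1 x2 := by
  intro w w1 w2 w3 w4 ρ r1 r2 η e0 e1 t ht hg'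
  have r0 : 0 < ρ := by linarith
  have hrl : Lb ρ 751619276 := by
    unfold Lb U; push_cast; linarith
  have hrh : Ub ρ 1020054734 := by
    unfold Ub U; push_cast; linarith
  have x0 : 0 ≤ w.re := hx1.trans w1
  have x5 : w.re < 1 / 2 := w2.trans_lt hx2
  have hw := w_eq w
  rw [vv_eq, hw] at hg' ⊢
  have hh := hgt_pos (ρ := ρ) (x := η) r0 (by linarith) e0
  have hc : K * η < K' * η := mul_lt_mul_of_pos_right hK e0
  have := gain hP hg hb (η := η) (h := hgt ρ η) (t := t) (ρ := ρ) (x := w.re) (u := -w.im) e0 e1 hh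
    hrl hrh (by linarith) (tanh_hgt r0.le (by linarith) η) ht.1 ht.2 x0 x5 (by linarith) w4
    ((lx_cs_anti hx1 w1 x5.le).trans hc1) (hc2.trans (lx_cs_anti x0 w2 hx2.le)) hg'
  refine hc.trans_le (this.trans (le_of_eq ?_))
  have e : hm false (Real.tanh (Real.pi * η)) ρ = rp ρ η := by
    show hv _ _ = _
    unfold hv rp
    rw [mul_comm ρ (Real.tanh (Real.pi * η))]
  rw [e]
  simp only [sub_im]

/-- (3b) from the branch and bound. -/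
theorem b_of {P : Prm} {K K' S cc c1 c2 r2 la mu x1 x2 : ℝ} (hP : PR P (K' / Real.pi) c1 c2 r2 la mu 0)
    (hg : Pg S cc c1 c2 r2 la mu) {f : ℕ}
    (hb : bb true P f 0 317022273 0 751619277 0 1073741824 = true)
    (hK : K < K') (hx1 : 0 ≤ x1) (hx2 : x2 < 1 / 2)
    (hc1 : Real.cos (Real.pi * x1) ^ 2 ≤ cc) (hc2 : c2 ≤ Real.cos (Real.pi * x2) ^ 2) :
    P3b K S x1 x2 := by
  intro w w1 w2 w3 w4 h hh η e0 e1 hr t ht hg'
  have hpi := Real.pi_pos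
  have tη : 0 < Real.tanh (Real.pi * η) := by
    rw [Real.tanh_eq_sinh_div_cosh]
    exact div_pos (Real.sinh_pos_iff.2 (by positivity)) (Real.cosh_pos _)
  have th : 0 < Real.tanh (Real.pi * h) := by
    rw [Real.tanh_eq_sinh_div_cosh]
    exact div_pos (Real.sinh_pos_iff.2 (by positivity)) (Real.cosh_pos _)
  obtain ⟨ρ, hρ⟩ : ∃ ρ, ρ = Real.tanh (Real.pi * h) / Real.tanh (Real.pi * η) := ⟨_, rfl⟩
  have r0 : 0 < ρ := by rw [hρ]; positivity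
  have r2 : ρ ≤ 7 / 10 := by rw [hρ, div_le_iff₀ tη]; exact hr
  have hk : Real.tanh (Real.pi * h) = ρ * Real.tanh (Real.pi * η) := by
    rw [hρ]; field_simp
  have hrl : Lb ρ 0 := lb_zero r0.le
  have hrh : Ub ρ 751619277 := by
    unfold Ub U; push_cast; linarith
  have x0 : 0 ≤ w.re := hx1.trans w1
  have x5 : w.re < 1 / 2 := w2.trans_lt hx2
  have hw := w_eq w
  rw [vv_eq, hw] at hg'
  rw [vv_eq]
  have hc : K * η < K' * η := mul_lt_mul_of_pos_right hK e0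
  have := gain hP hg hb (η := η) (h := h) (t := t) (ρ := ρ) (x := w.re) (u := -w.im) e0 e1 hh
    hrl hrh (by linarith) hk ht.1 ht.2 x0 x5 (by linarith) w4
    ((lx_cs_anti hx1 w1 x5.le).trans hc1) (hc2.trans (lx_cs_anti x0 w2 hx2.le)) hg'
  refine hc.trans_le (this.trans (le_of_eq ?_))
  have e : hm true (Real.tanh (Real.pi * η)) ρ = 0 := rfl
  rw [e]
  simp only [sub_im, zero_mul, sub_zero]

end P3

end Pool.Agent.S3
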