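import Pool.Agent.S3.LX8
import Pool.Agent.S3.W2.P3C

/-!
# Phase 3 of the slide: numerical values of `cos² π a`, and constructors
-/

set_option autoImplicit false

namespace Pool.Agent.S3

namespace P3

open NI

theorem pr_mk {P : Prm} {K c1 c2 r2 la mu i0 : ℝ} (hK : 0 ≤ K)
    (h1 : K * 1073741824 ≤ (P.kk : ℝ) * (3141592 / 1000000))
    (h2 : c1 * 1073741824 ≤ (P.c1 : ℝ)) (h3 : (P.c2 : ℝ) ≤ c2 * 1073741824)
    (h4 : r2 * 1073741824 ≤ (P.r2 : ℝ)) (h5 : 0 ≤ la) (h6 : la * 1073741824 ≤ (P.la : ℝ))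
    (h7 : 0 ≤ mu) (h8 : mu ≤ 9 / 10) (h9 : mu * 1073741824 ≤ (P.mu : ℝ))
    (h10 : (P.mul : ℝ) ≤ mu * 1073741824) (h11 : 0 ≤ i0) (h12 : (P.i0 : ℝ) ≤ i0 * 1073741824) :
    PR P (K / Real.pi) c1 c2 r2 la mu i0 where
  kk0 := div_nonneg hK Real.pi_pos.le
  hkk := by
    unfold Ub U
    rw [div_mul_eq_mul_div, div_le_iff₀ Real.pi_pos]
    have := Real.pi_gt_d6
    exact h1.trans (mul_le_mul_of_nonneg_left (by linarith) (Nat.cast_nonneg _))
  hc1 := h2
  hc2 := h3
  hr2 := h4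
  la0 := h5
  hla := h6
  mu0 := h7
  mu1 := h8
  hmu := h9
  hmul := h10
  i00 := h11
  hi0 := h12

theorem bb_k {m : Bool} {P : Prm} {f kl kh rl rh zl zh kc : ℕ}
    (h1 : Nat.ble (Nat.mul 2 (Nat.sub zh zl)) (mx (Nat.sub kh kl) (Nat.sub rh rl)) = true)
    (h2 : Nat.ble (Nat.sub rh rl) (Nat.sub kh kl) = true) (h3 : Nat.div (Nat.add kl kh) 2 = kc)
    (a : bb m P f kl kc rl rh zl zh = true) (b : bb m P f kc kh rl rh zl zh = true) :
    bb m P (Nat.succ f) kl kh rl rh zl zh = true := by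
  rw [bb, h1, h2, h3, a, b]
  simp

theorem bb_r {m : Bool} {P : Prm} {f kl kh rl rh zl zh rc : ℕ}
    (h1 : Nat.ble (Nat.mul 2 (Nat.sub zh zl)) (mx (Nat.sub kh kl) (Nat.sub rh rl)) = true)
    (h2 : Nat.ble (Nat.sub rh rl) (Nat.sub kh kl) = false) (h3 : Nat.div (Nat.add rl rh) 2 = rc)
    (a : bb m P f kl kh rl rc zl zh = true) (b : bb m P f kl kh rc rh zl zh = true) :
    bb m P (Nat.succ f) kl kh rl rh zl zh = true := by
  rw [bb, h1, h2, h3, a, b]
  simp

theorem bb_z {m : Bool} {P : Prm} {f kl kh rl rh zl zh zc : ℕ}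
    (h1 : Nat.ble (Nat.mul 2 (Nat.sub zh zl)) (mx (Nat.sub kh kl) (Nat.sub rh rl)) = false)
    (h3 : Nat.div (Nat.add zl zh) 2 = zc)
    (a : bb m P f kl kh rl rh zl zc = true) (b : bb m P f kl kh rl rh zc zh = true) :
    bb m P (Nat.succ f) kl kh rl rh zl zh = true := by
  rw [bb, h1, h3, a, b]
  simp

theorem cs_0 : Real.cos (Real.pi * 0) ^ 2 ≤ 1 := by simp

theorem cu_1_25 : Real.cos (Real.pi * (1 / 25)) ^ 2 ≤ 9843 / 10000 := by
  have h := lx_sin_hi (r := 1 / 2 - 2 * (1 / 25)) (y := 65973453 / 50000000) (s := 4843 / 5000) (by norm_num) (by norm_num)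
    (by norm_num) (by norm_num) (by norm_num)
  rw [lx_cos_sq']
  linarith
theorem cl_1_25 : 3937 / 4000 ≤ Real.cos (Real.pi * (1 / 25)) ^ 2 := by
  have h := lx_sin_lo (r := 1 / 2 - 2 * (1 / 25)) (y := 8246679 / 6250000) (s := 1937 / 2000) (by norm_num) (by norm_num)
    (by norm_num) (by norm_num)
  rw [lx_cos_sq']
  linarith

theorem cu_9_25 : Real.cos (Real.pi * (9 / 25)) ^ 2 ≤ 1813 / 10000 :=
  lx_cs_hi (y := 4319689 / 6250000) (by norm_num) (by norm_num) (by norm_num) (by norm_num)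
theorem cl_9_25 : 1133 / 6250 ≤ Real.cos (Real.pi * (9 / 25)) ^ 2 :=
  lx_cs_lo (y := 34557523 / 50000000) (by norm_num) (by norm_num) (by norm_num) (by norm_num) (by norm_num)

theorem cu_69_200 : Real.cos (Real.pi * (69 / 200)) ^ 2 ≤ 21897 / 100000 :=
  lx_cs_hi (y := 7461281 / 12500000) (by norm_num) (by norm_num) (by norm_num) (by norm_num)
theorem cl_69_200 : 4379 / 20000 ≤ Real.cos (Real.pi * (69 / 200)) ^ 2 :=
  lx_cs_lo (y := 59690267 / 100000000) (by norm_num) (by norm_num) (by norm_num) (by norm_num) (by norm_num)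

theorem cu_73_200 : Real.cos (Real.pi * (73 / 200)) ^ 2 ≤ 3387 / 20000 :=
  lx_cs_hi (y := 9032077 / 12500000) (by norm_num) (by norm_num) (by norm_num) (by norm_num)
theorem cl_73_200 : 8467 / 50000 ≤ Real.cos (Real.pi * (73 / 200)) ^ 2 :=
  lx_cs_lo (y := 72256639 / 100000000) (by norm_num) (by norm_num) (by norm_num) (by norm_num) (by norm_num)

theorem cu_19_50 : Real.cos (Real.pi * (19 / 50)) ^ 2 ≤ 847 / 6250 :=
  lx_cs_hi (y := 5105087 / 6250000) (by norm_num) (by norm_num) (by norm_num) (by norm_num)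
theorem cl_19_50 : 13551 / 100000 ≤ Real.cos (Real.pi * (19 / 50)) ^ 2 :=
  lx_cs_lo (y := 40840709 / 50000000) (by norm_num) (by norm_num) (by norm_num) (by norm_num) (by norm_num)

theorem cu_77_200 : Real.cos (Real.pi * (77 / 200)) ^ 2 ≤ 2499 / 20000 :=
  lx_cs_hi (y := 10602873 / 12500000) (by norm_num) (by norm_num) (by norm_num) (by norm_num)
theorem cl_77_200 : 6247 / 50000 ≤ Real.cos (Real.pi * (77 / 200)) ^ 2 :=
  lx_cs_lo (y := 84823011 / 100000000) (by norm_num) (by norm_num) (by norm_num) (by norm_num) (by norm_num)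

theorem cu_2_25 : Real.cos (Real.pi * (2 / 25)) ^ 2 ≤ 11727 / 12500 := by
  have h := lx_sin_hi (r := 1 / 2 - 2 * (2 / 25)) (y := 53407081 / 50000000) (s := 5477 / 6250) (by norm_num) (by norm_num)
    (by norm_num) (by norm_num) (by norm_num)
  rw [lx_cos_sq']
  linarith
theorem cl_2_25 : 18763 / 20000 ≤ Real.cos (Real.pi * (2 / 25)) ^ 2 := by
  have h := lx_sin_lo (r := 1 / 2 - 2 * (2 / 25)) (y := 6675883 / 6250000) (s := 8763 / 10000) (by norm_num) (by norm_num)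
    (by norm_num) (by norm_num)
  rw [lx_cos_sq']
  linarith

theorem cu_3_25 : Real.cos (Real.pi * (3 / 25)) ^ 2 ≤ 86449 / 100000 := by
  have h := lx_sin_hi (r := 1 / 2 - 2 * (3 / 25)) (y := 40840709 / 50000000) (s := 36449 / 50000) (by norm_num) (by norm_num)
    (by norm_num) (by norm_num) (by norm_num)
  rw [lx_cos_sq']
  linarith
theorem cl_3_25 : 5403 / 6250 ≤ Real.cos (Real.pi * (3 / 25)) ^ 2 := by
  have h := lx_sin_lo (r := 1 / 2 - 2 * (3 / 25)) (y := 5105087 / 6250000) (s := 2278 / 3125) (by norm_num) (by norm_num)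
    (by norm_num) (by norm_num)
  rw [lx_cos_sq']
  linarith

theorem cu_4_25 : Real.cos (Real.pi * (4 / 25)) ^ 2 ≤ 9599 / 12500 := by
  have h := lx_sin_hi (r := 1 / 2 - 2 * (4 / 25)) (y := 28274337 / 50000000) (s := 3349 / 6250) (by norm_num) (by norm_num)
    (by norm_num) (by norm_num) (by norm_num)
  rw [lx_cos_sq']
  linarith
theorem cl_4_25 : 76791 / 100000 ≤ Real.cos (Real.pi * (4 / 25)) ^ 2 := by
  have h := lx_sin_lo (r := 1 / 2 - 2 * (4 / 25)) (y := 3534291 / 6250000) (s := 26791 / 50000) (by norm_num) (by norm_num)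
    (by norm_num) (by norm_num)
  rw [lx_cos_sq']
  linarith

theorem cu_1_5 : Real.cos (Real.pi * (1 / 5)) ^ 2 ≤ 16363 / 25000 := by
  have h := lx_sin_hi (r := 1 / 2 - 2 * (1 / 5)) (y := 3141593 / 10000000) (s := 3863 / 12500) (by norm_num) (by norm_num)
    (by norm_num) (by norm_num) (by norm_num)
  rw [lx_cos_sq']
  linarith
theorem cl_1_5 : 1309 / 2000 ≤ Real.cos (Real.pi * (1 / 5)) ^ 2 := by
  have h := lx_sin_lo (r := 1 / 2 - 2 * (1 / 5)) (y := 392699 / 1250000) (s := 309 / 1000) (by norm_num) (by norm_num)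
    (by norm_num) (by norm_num)
  rw [lx_cos_sq']
  linarith

theorem cu_6_25 : Real.cos (Real.pi * (6 / 25)) ^ 2 ≤ 2657 / 5000 := by
  have h := lx_sin_hi (r := 1 / 2 - 2 * (6 / 25)) (y := 3141593 / 50000000) (s := 157 / 2500) (by norm_num) (by norm_num)
    (by norm_num) (by norm_num) (by norm_num)
  rw [lx_cos_sq']
  linarith
theorem cl_6_25 : 53139 / 100000 ≤ Real.cos (Real.pi * (6 / 25)) ^ 2 := by
  have h := lx_sin_lo (r := 1 / 2 - 2 * (6 / 25)) (y := 392699 / 6250000) (s := 3139 / 50000) (by norm_num) (by norm_num)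
    (by norm_num) (by norm_num)
  rw [lx_cos_sq']
  linarith

theorem cu_7_25 : Real.cos (Real.pi * (7 / 25)) ^ 2 ≤ 5079 / 12500 :=
  lx_cs_hi (y := 1178097 / 6250000) (by norm_num) (by norm_num) (by norm_num) (by norm_num)
theorem cl_7_25 : 4063 / 10000 ≤ Real.cos (Real.pi * (7 / 25)) ^ 2 :=
  lx_cs_lo (y := 9424779 / 50000000) (by norm_num) (by norm_num) (by norm_num) (by norm_num) (by norm_num)

theorem cu_3_10 : Real.cos (Real.pi * (3 / 10)) ^ 2 ≤ 691 / 2000 :=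
  lx_cs_hi (y := 392699 / 1250000) (by norm_num) (by norm_num) (by norm_num) (by norm_num)
theorem cl_3_10 : 8637 / 25000 ≤ Real.cos (Real.pi * (3 / 10)) ^ 2 :=
  lx_cs_lo (y := 3141593 / 10000000) (by norm_num) (by norm_num) (by norm_num) (by norm_num) (by norm_num)

theorem cu_8_25 : Real.cos (Real.pi * (8 / 25)) ^ 2 ≤ 3589 / 12500 :=
  lx_cs_hi (y := 2748893 / 6250000) (by norm_num) (by norm_num) (by norm_num) (by norm_num)
theorem cl_8_25 : 2871 / 10000 ≤ Real.cos (Real.pi * (8 / 25)) ^ 2 :=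
  lx_cs_lo (y := 21991151 / 50000000) (by norm_num) (by norm_num) (by norm_num) (by norm_num) (by norm_num)

theorem cu_13_40 : Real.cos (Real.pi * (13 / 40)) ^ 2 ≤ 27301 / 100000 :=
  lx_cs_hi (y := 1178097 / 2500000) (by norm_num) (by norm_num) (by norm_num) (by norm_num)
theorem cl_13_40 : 273 / 1000 ≤ Real.cos (Real.pi * (13 / 40)) ^ 2 :=
  lx_cs_lo (y := 9424779 / 20000000) (by norm_num) (by norm_num) (by norm_num) (by norm_num) (by norm_num)

theorem cu_71_200 : Real.cos (Real.pi * (71 / 200)) ^ 2 ≤ 3871 / 20000 :=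
  lx_cs_hi (y := 8246679 / 12500000) (by norm_num) (by norm_num) (by norm_num) (by norm_num)
theorem cl_71_200 : 9677 / 50000 ≤ Real.cos (Real.pi * (71 / 200)) ^ 2 :=
  lx_cs_lo (y := 65973453 / 100000000) (by norm_num) (by norm_num) (by norm_num) (by norm_num) (by norm_num)

theorem cu_3_8 : Real.cos (Real.pi * (3 / 8)) ^ 2 ≤ 2929 / 20000 :=
  lx_cs_hi (y := 392699 / 500000) (by norm_num) (by norm_num) (by norm_num) (by norm_num)
theorem cl_3_8 : 3661 / 25000 ≤ Real.cos (Real.pi * (3 / 8)) ^ 2 :=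
  lx_cs_lo (y := 3141593 / 4000000) (by norm_num) (by norm_num) (by norm_num) (by norm_num) (by norm_num)

theorem cu_39_100 : Real.cos (Real.pi * (39 / 100)) ^ 2 ≤ 459 / 4000 :=
  lx_cs_hi (y := 2748893 / 3125000) (by norm_num) (by norm_num) (by norm_num) (by norm_num)
theorem cl_39_100 : 5737 / 50000 ≤ Real.cos (Real.pi * (39 / 100)) ^ 2 :=
  lx_cs_lo (y := 21991151 / 25000000) (by norm_num) (by norm_num) (by norm_num) (by norm_num) (by norm_num)

end P3

end Pool.Agent.S3
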