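import Pool.Agent.S3.W2.P3J
import Pool.Agent.S3.W2.P3L

/-!
# Phase 3 of the slide for a point `w` on its line

`LP3 r0 K S1 S2 T x1 x2`: the gain `K η` along the vertical `v = 2/5 + i η`,
`sinh (π η) ≤ T cos (2π/5)`, at the critical points, for `w` on a line `S1 ≤ tan θ' ≤ S2`,
`x1 ≤ Re w ≤ x2`: (a) for the height `hgt ρ η`, `r0 ≤ ρ ≤ 19/20`; (b) for a frozen height `h` with
`tanh (π h) ≤ r0 tanh (π η)`.
-/

set_option autoImplicit false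

namespace Pool.Agent.S3

open Complex Set

/-- Phase 3 for a point on its line. -/
structure LP3 (r0 K S1 S2 T x1 x2 : ℝ) : Prop where
  a : ∀ (w : ℂ) (S : ℝ), S1 ≤ S → S ≤ S2 → x1 ≤ w.re → w.re ≤ x2 → w.im ≤ 0 →
    Real.sinh (Real.pi * -w.im) = S * Real.cos (Real.pi * w.re) →
    ∀ ρ : ℝ, r0 ≤ ρ → ρ ≤ 19 / 20 → ∀ η : ℝ, 0 < η →
    Real.sinh (Real.pi * η) ≤ T * Real.cos (2 * Real.pi / 5) →
    ∀ t ∈ Ioo (0 : ℝ) (1 / 2),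
    gPd ((t : ℂ) + (hgt ρ η : ℂ) * I) (vv η) w =
      ‖cos (Real.pi * ((t : ℂ) + (hgt ρ η : ℂ) * I))‖ ^ 4 →
    K * η < (he ((t : ℂ) + (hgt ρ η : ℂ) * I + vv η) - he ((t : ℂ) + (hgt ρ η : ℂ) * I - vv η)).im -
      rp ρ η * (eY ((t : ℂ) + (hgt ρ η : ℂ) * I) (vv η) w).im
  b : ∀ (w : ℂ) (S : ℝ), S1 ≤ S → S ≤ S2 → x1 ≤ w.re → w.re ≤ x2 → w.im ≤ 0 →
    Real.sinh (Real.pi * -w.im) = S * Real.cos (Real.pi * w.re) →
    ∀ h : ℝ, 0 < h → ∀ η : ℝ, 0 < η →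
    Real.sinh (Real.pi * η) ≤ T * Real.cos (2 * Real.pi / 5) →
    Real.tanh (Real.pi * h) ≤ r0 * Real.tanh (Real.pi * η) →
    ∀ t ∈ Ioo (0 : ℝ) (1 / 2),
    gPd ((t : ℂ) + (h : ℂ) * I) (vv η) w = ‖cos (Real.pi * ((t : ℂ) + (h : ℂ) * I))‖ ^ 4 →
    K * η < (he ((t : ℂ) + (h : ℂ) * I + vv η) - he ((t : ℂ) + (h : ℂ) * I - vv η)).im

theorem LP3.mono {r0 K K' S1 S1' S2 S2' T T' x1 x1' x2 x2' : ℝ} (H : LP3 r0 K S1 S2 T x1 x2)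
    (hK : K' ≤ K) (h1 : S1 ≤ S1') (h2 : S2' ≤ S2) (hT : T' ≤ T) (hx1 : x1 ≤ x1') (hx2 : x2' ≤ x2) :
    LP3 r0 K' S1' S2' T' x1' x2' := by
  have hpi := Real.pi_pos
  have hc : 0 ≤ Real.cos (2 * Real.pi / 5) :=
    Real.cos_nonneg_of_mem_Icc ⟨by linarith, by linarith⟩
  constructor
  · intro w S a1 a2 w1 w2 w3 w4 ρ r1 r2 η e0 e1 t ht hg
    have h := H.a w S (h1.trans a1) (a2.trans h2) (hx1.trans w1) (w2.trans hx2) w3 w4 ρ r1 r2 η e0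
      (e1.trans (mul_le_mul_of_nonneg_right hT hc)) t ht hg
    exact (mul_le_mul_of_nonneg_right hK e0.le).trans_lt h
  · intro w S a1 a2 w1 w2 w3 w4 h hh η e0 e1 r t ht hg
    have h := H.b w S (h1.trans a1) (a2.trans h2) (hx1.trans w1) (w2.trans hx2) w3 w4 h hh η e0
      (e1.trans (mul_le_mul_of_nonneg_right hT hc)) r t ht hg
    exact (mul_le_mul_of_nonneg_right hK e0.le).trans_lt h

theorem l3_eta {θ η T : ℝ} (ht : Real.tan θ ≤ T) (h : η ≤ bl θ (2 / 5)) :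
    Real.sinh (Real.pi * η) ≤ T * Real.cos (2 * Real.pi / 5) := by
  have hpi := Real.pi_pos
  have h1 : Real.sinh (Real.pi * η) ≤ Real.sinh (Real.pi * bl θ (2 / 5)) :=
    Real.sinh_le_sinh.2 (mul_le_mul_of_nonneg_left h hpi.le)
  have h2 : Real.sinh (Real.pi * bl θ (2 / 5)) = Real.tan θ * Real.cos (Real.pi * (2 / 5)) := by
    rw [bl, mul_div_cancel₀ _ Real.pi_ne_zero, Real.sinh_arsinh]
  have h3 : 0 ≤ Real.cos (2 * Real.pi / 5) :=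
    Real.cos_nonneg_of_mem_Icc ⟨by linarith, by linarith⟩
  rw [h2, show Real.pi * (2 / 5) = 2 * Real.pi / 5 by ring] at h1
  exact h1.trans (mul_le_mul_of_nonneg_right ht h3)

theorem l3_w {θ' : ℝ} {w : ℂ} (ht : 0 ≤ Real.tan θ') (w1 : 0 ≤ w.re) (w2 : w.re ≤ 1 / 2)
    (hw : w.im = bl θ' w.re) : ((starRingEnd ℂ) w).im ≤ 0 ∧
    Real.sinh (Real.pi * -((starRingEnd ℂ) w).im) =
      Real.tan θ' * Real.cos (Real.pi * ((starRingEnd ℂ) w).re) := by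
  have hpi := Real.pi_pos
  have h3 : 0 ≤ Real.cos (Real.pi * w.re) :=
    Real.cos_nonneg_of_mem_Icc ⟨by nlinarith, by nlinarith⟩
  rw [conj_im, conj_re, neg_neg, hw]
  refine ⟨?_, ?_⟩
  · have : 0 ≤ bl θ' w.re := by
      rw [bl]
      apply div_nonneg _ hpi.le
      rw [Real.arsinh_nonneg_iff]
      exact mul_nonneg ht h3
    linarith
  · rw [bl, mul_div_cancel₀ _ Real.pi_ne_zero, Real.sinh_arsinh]

/-- (3a) in the form of the slide. -/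
theorem LP3.use_a {r0 K S1 S2 T x1 x2 θ θ' h0 : ℝ} {w : ℂ} (H : LP3 r0 K S1 S2 T x1 x2)
    (hS : 0 ≤ S1) (hx1 : 0 ≤ x1) (hx2 : x2 ≤ 1 / 2) (ht : Real.tan θ ≤ T)
    (h1 : S1 ≤ Real.tan θ') (h2 : Real.tan θ' ≤ S2)
    (w1 : x1 ≤ w.re) (w2 : w.re ≤ x2) (hw : w.im = bl θ' w.re) :
    ∀ ρ : ℝ, r0 ≤ ρ → ρ ≤ 19 / 20 → ∀ η ∈ Ioc (0 : ℝ) (bl θ (2 / 5)), hgt ρ η ≤ h0 →
      ∀ t ∈ Ico (1 / 200 : ℝ) (1 / 2),
      gPd ((t : ℂ) + (hgt ρ η : ℂ) * I) (vv η) ((starRingEnd ℂ) w) =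
        ‖cos (Real.pi * ((t : ℂ) + (hgt ρ η : ℂ) * I))‖ ^ 4 →
      K * η < (he ((t : ℂ) + (hgt ρ η : ℂ) * I + vv η) - he ((t : ℂ) + (hgt ρ η : ℂ) * I - vv η)).im -
        rp ρ η * (eY ((t : ℂ) + (hgt ρ η : ℂ) * I) (vv η) ((starRingEnd ℂ) w)).im := by
  obtain ⟨e1, e2⟩ := l3_w (hS.trans h1) (hx1.trans w1) (w2.trans hx2) hw
  intro ρ r1 r2 η e _ t ht' hg
  exact H.a _ _ h1 h2 (by rw [conj_re]; exact w1) (by rw [conj_re]; exact w2) e1 e2 ρ r1 r2 η e.1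
    (l3_eta ht e.2) t ⟨by linarith [ht'.1], ht'.2⟩ hg

/-- (3b) in the form of the slide. -/
theorem LP3.use_b {r0 K S1 S2 T x1 x2 θ θ' h0 : ℝ} {w : ℂ} (H : LP3 r0 K S1 S2 T x1 x2)
    (hS : 0 ≤ S1) (hx1 : 0 ≤ x1) (hx2 : x2 ≤ 1 / 2) (ht : Real.tan θ ≤ T)
    (h1 : S1 ≤ Real.tan θ') (h2 : Real.tan θ' ≤ S2)
    (w1 : x1 ≤ w.re) (w2 : w.re ≤ x2) (hw : w.im = bl θ' w.re) :
    ∀ h1 : ℝ, 0 < h1 → h1 ≤ h0 → ∀ η ∈ Ioc (0 : ℝ) (bl θ (2 / 5)),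
      Real.tanh (Real.pi * h1) ≤ r0 * Real.tanh (Real.pi * η) →
      ∀ t ∈ Ico (1 / 200 : ℝ) (1 / 2),
      gPd ((t : ℂ) + (h1 : ℂ) * I) (vv η) ((starRingEnd ℂ) w) =
        ‖cos (Real.pi * ((t : ℂ) + (h1 : ℂ) * I))‖ ^ 4 →
      K * η < (he ((t : ℂ) + (h1 : ℂ) * I + vv η) - he ((t : ℂ) + (h1 : ℂ) * I - vv η)).im := by
  obtain ⟨e1, e2⟩ := l3_w (hS.trans h1) (hx1.trans w1) (w2.trans hx2) hw
  intro h hh _ η e r t ht' hg
  exact H.b _ _ h1 h2 (by rw [conj_re]; exact w1) (by rw [conj_re]; exact w2) e1 e2 h hh η e.1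
    (l3_eta ht e.2) r t ⟨by linarith [ht'.1], ht'.2⟩ hg

namespace P3

theorem tanh_T {T κ η : ℝ} (hη : 0 ≤ η) (hT0 : 0 ≤ T) (hT1 : T ≤ 1) (hκ0 : 0 ≤ κ) (hκ1 : κ ≤ 1)
    (hκ : T ^ 2 * (954916 / 10000000) * (1 - κ ^ 2) ≤ κ ^ 2)
    (h : Real.sinh (Real.pi * η) ≤ T * Real.cos (2 * Real.pi / 5)) :
    Real.tanh (Real.pi * η) ≤ κ ∧ Real.tanh (Real.pi * η) ^ 2 ≤ 871722 / 10000000 := by
  have hpi := Real.pi_pos
  have e : Real.cos (2 * Real.pi / 5) = sB := by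
    rw [← cos25]; congr 1; ring
  have sB0 := sB_pos
  have h0 : 0 ≤ Real.sinh (Real.pi * η) := Real.sinh_nonneg_iff.2 (by positivity)
  have h' : Real.sinh (Real.pi * η) ≤ Real.cos (2 * Real.pi / 5) := by
    refine h.trans ?_
    rw [e]
    nlinarith
  refine ⟨?_, tanh_max hη h'⟩
  rw [e] at h
  have h1 := pow_le_pow_left₀ h0 h 2
  rw [mul_pow, sB_sq] at h1
  have h5 := sqrt5_bd.1
  have h2 := Real.cosh_sq (Real.pi * η)
  have cp := Real.cosh_pos (Real.pi * η)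
  apply le_of_sq_le_sq _ hκ0
  rw [Real.tanh_eq_sinh_div_cosh, div_pow, div_le_iff₀ (by positivity), h2]
  have h3 : Real.sinh (Real.pi * η) ^ 2 ≤ T ^ 2 * (954916 / 10000000) := by
    refine h1.trans (mul_le_mul_of_nonneg_left ?_ (sq_nonneg T))
    linarith
  have h4 : 0 ≤ 1 - κ ^ 2 := by nlinarith
  have h6 := mul_le_mul_of_nonneg_right h3 h4
  linarith

/-- Both statements from the branch and bound. -/
theorem l_of {P : Prm} {r0 K K' S1 S2 T cc cl sA al be q1 g1 c1 c2 r2 la mu i0 x1 x2 κ : ℝ}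
    (hP : PR P (K' / Real.pi) c1 c2 r2 la mu i0)
    (hg : Pl S1 S2 cc cl i0 sA al be q1 g1 c1 c2 r2 la mu) {f km rl rh : ℕ}
    (ha : bb false P f 0 km rl 1020054734 0 1073741824 = true)
    (hb : bb true P f 0 km 0 rh 0 1073741824 = true)
    (hr0 : 0 < r0) (hr1 : r0 < 1) (hrl : Lb r0 rl) (hrh : Ub r0 rh) (hT0 : 0 ≤ T) (hT1 : T ≤ 1)
    (hκ0 : 0 ≤ κ) (hκ1 : κ ≤ 1) (hκ : T ^ 2 * (954916 / 10000000) * (1 - κ ^ 2) ≤ κ ^ 2)
    (hkm : Ub κ km) (hK : K < K') (hx1 : 0 ≤ x1) (hx2 : x2 < 1 / 2)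
    (hc1 : Real.cos (Real.pi * x1) ^ 2 ≤ cc) (hc2 : cl ≤ Real.cos (Real.pi * x2) ^ 2) :
    LP3 r0 K S1 S2 T x1 x2 := by
  have hpi := Real.pi_pos
  have hU := U_pos
  constructor
  · intro w S a1 a2 w1 w2 w3 w4 ρ r1 r2' η e0 e1 t ht hg'
    have ρ0 : 0 < ρ := by linarith
    obtain ⟨k1, k2⟩ := tanh_T e0.le hT0 hT1 hκ0 hκ1 hκ e1
    have hρl : Lb ρ rl := hrl.mono r1
    have hρh : Ub ρ 1020054734 := by
      unfold Ub U; push_cast; linarith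
    have x0 : 0 ≤ w.re := hx1.trans w1
    have x5 : w.re < 1 / 2 := w2.trans_lt hx2
    have hw := w_eq w
    rw [vv_eq, hw] at hg' ⊢
    have hh := hgt_pos (ρ := ρ) (x := η) ρ0 (by linarith) e0
    have hc : K * η < K' * η := mul_lt_mul_of_pos_right hK e0
    obtain ⟨p0, p1, p2, p3⟩ := poly1 hg hP.la0 hP.mu0 x0 x5 (by linarith : 0 ≤ -w.im) w4 a1 a2
      ((lx_cs_anti hx1 w1 x5.le).trans hc1) (hc2.trans (lx_cs_anti x0 w2 hx2.le))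
    have := gain0 hP ha (η := η) (h := hgt ρ η) (t := t) (ρ := ρ) (x := w.re) (u := -w.im) e0
      (hkm.mono k1) k2 hh hρl hρh (by linarith) (tanh_hgt ρ0.le (by linarith) η) ht.1 ht.2 x0 x5
      (by linarith) p0 p1 p2 p3 hg'
    refine hc.trans_le (this.trans (le_of_eq ?_))
    have e : hm false (Real.tanh (Real.pi * η)) ρ = rp ρ η := by
      show hv _ _ = _
      unfold hv rp
      rw [mul_comm ρ (Real.tanh (Real.pi * η))]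
    rw [e]
    simp only [sub_im]
  · intro w S a1 a2 w1 w2 w3 w4 h hh η e0 e1 hr t ht hg'
    have tη : 0 < Real.tanh (Real.pi * η) := by
      rw [Real.tanh_eq_sinh_div_cosh]
      exact div_pos (Real.sinh_pos_iff.2 (by positivity)) (Real.cosh_pos _)
    have th : 0 < Real.tanh (Real.pi * h) := by
      rw [Real.tanh_eq_sinh_div_cosh]
      exact div_pos (Real.sinh_pos_iff.2 (by positivity)) (Real.cosh_pos _)
    obtain ⟨k1, k2⟩ := tanh_T e0.le hT0 hT1 hκ0 hκ1 hκ e1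
    obtain ⟨ρ, hρ⟩ : ∃ ρ, ρ = Real.tanh (Real.pi * h) / Real.tanh (Real.pi * η) := ⟨_, rfl⟩
    have ρ0 : 0 < ρ := by rw [hρ]; positivity
    have ρ1 : ρ ≤ r0 := by rw [hρ, div_le_iff₀ tη]; exact hr
    have hk : Real.tanh (Real.pi * h) = ρ * Real.tanh (Real.pi * η) := by
      rw [hρ]; field_simp
    have hρl : Lb ρ 0 := lb_zero ρ0.le
    have hρh : Ub ρ rh := hrh.mono ρ1
    have x0 : 0 ≤ w.re := hx1.trans w1
    have x5 : w.re < 1 / 2 := w2.trans_lt hx2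
    have hw := w_eq w
    rw [vv_eq, hw] at hg'
    rw [vv_eq]
    have hc : K * η < K' * η := mul_lt_mul_of_pos_right hK e0
    obtain ⟨p0, p1, p2, p3⟩ := poly1 hg hP.la0 hP.mu0 x0 x5 (by linarith : 0 ≤ -w.im) w4 a1 a2
      ((lx_cs_anti hx1 w1 x5.le).trans hc1) (hc2.trans (lx_cs_anti x0 w2 hx2.le))
    have := gain0 hP hb (η := η) (h := h) (t := t) (ρ := ρ) (x := w.re) (u := -w.im) e0
      (hkm.mono k1) k2 hh hρl hρh (by linarith) hk ht.1 ht.2 x0 x5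
      (by linarith) p0 p1 p2 p3 hg'
    refine hc.trans_le (this.trans (le_of_eq ?_))
    have e : hm true (Real.tanh (Real.pi * η)) ρ = 0 := rfl
    rw [e]
    simp only [sub_im, zero_mul, sub_zero]

end P3

end Pool.Agent.S3
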