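import Pool.Agent.S3.W2.P3M
import Pool.Agent.S3.W2.P3Q

/-!
# Phase 3 of the slide: certificates (`w` on its line, `Re w ≤ 3/25`)
-/

set_option autoImplicit false

namespace Pool.Agent.S3

namespace P3

def q_l0 : Prm := ⟨2771857771, 1888327469, 1312713804, 1888327469, 0, 0, 0, 0⟩

theorem pr_l0 : PR q_l0 ((811 / 100) / Real.pi) (879321 / 500000) (7641 / 6250) (879321 / 500000) (0) (0) (0) := by
  apply pr_mk <;> norm_num [q_l0]

theorem pl_l0 : Pl (1 / 2) (871 / 1000) (1) (3937 / 4000) (0) (0) (0) (0) (0) (0)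
    (879321 / 500000) (7641 / 6250) (879321 / 500000) (0) (0) := by
  constructor <;> norm_num [cdR, cdL]

theorem bb_l0a0 : bb false q_l0 39 0 279172875 429496729 1020054734 0 536870912 = true := by
  decide +kernel

theorem bb_l0a1 : bb false q_l0 39 0 279172875 429496729 1020054734 536870912 1073741824 = true := by
  decide +kernel

theorem bb_l0a : bb false q_l0 40 0 279172875 429496729 1020054734 0 1073741824 = true :=
  bb_z rfl rfl bb_l0a0 bb_l0a1


theorem bb_l0b : bb true q_l0 40 0 279172875 0 429496730 0 1073741824 = true := by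
  decide +kernel


theorem l0 : LP3 (2 / 5) (81 / 10) (1 / 2) (871 / 1000) (871 / 1000) (0) (1 / 25) := by
  refine l_of pr_l0 pl_l0 bb_l0a bb_l0b (κ := 26 / 100) ?_ ?_ ?_ ?_ ?_ ?_ ?_ ?_ ?_ ?_ ?_ ?_ ?_
    cs_0 cl_1_25 <;> norm_num [Lb, Ub, U]

def q_l1 : Prm := ⟨3831384168, 1317482292, 1228010606, 1833505433, 3720515421, 0, 0, 143645181⟩

theorem pr_l1 : PR q_l1 ((1121 / 100) / Real.pi) (1227001 / 1000000) (571837 / 500000) (341517 / 200000) (693 / 200) (0) (6689 / 50000) := by
  apply pr_mk <;> norm_num [q_l1]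

theorem pl_l1 : Pl (1 / 2) (871 / 1000) (9843 / 10000) (18763 / 20000) (6689 / 50000) (301 / 2500) (8329 / 10000) (1339 / 2500) (0) (0)
    (1227001 / 1000000) (571837 / 500000) (341517 / 200000) (693 / 200) (0) := by
  constructor <;> norm_num [cdR, cdL]

theorem bb_l1a0 : bb false q_l1 38 0 279172875 429496729 1020054734 0 268435456 = true := by
  decide +kernel

theorem bb_l1a1 : bb false q_l1 38 0 279172875 429496729 1020054734 268435456 536870912 = true := by
  decide +kernel

theorem bb_l1a2 : bb false q_l1 39 0 279172875 429496729 1020054734 0 536870912 = true :=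
  bb_z rfl rfl bb_l1a0 bb_l1a1

theorem bb_l1a3 : bb false q_l1 39 0 279172875 429496729 1020054734 536870912 1073741824 = true := by
  decide +kernel

theorem bb_l1a : bb false q_l1 40 0 279172875 429496729 1020054734 0 1073741824 = true :=
  bb_z rfl rfl bb_l1a2 bb_l1a3


theorem bb_l1b : bb true q_l1 40 0 279172875 0 429496730 0 1073741824 = true := by
  decide +kernel


theorem l1 : LP3 (2 / 5) (56 / 5) (1 / 2) (871 / 1000) (871 / 1000) (1 / 25) (2 / 25) := by
  refine l_of pr_l1 pl_l1 bb_l1a bb_l1b (κ := 26 / 100) ?_ ?_ ?_ ?_ ?_ ?_ ?_ ?_ ?_ ?_ ?_ ?_ ?_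
    cu_1_25 cl_2_25 <;> norm_num [Lb, Ub, U]

def q_l2 : Prm := ⟨4788375753, 1231953387, 1097386692, 1677036553, 1769526526, 0, 0, 265171280⟩

theorem pr_l2 : PR q_l2 ((1401 / 100) / Real.pi) (573673 / 500000) (1022021 / 1000000) (780931 / 500000) (206 / 125) (0) (3087 / 12500) := by
  apply pr_mk <;> norm_num [q_l2]

theorem pl_l2 : Pl (1 / 2) (871 / 1000) (11727 / 12500) (5403 / 6250) (3087 / 12500) (11197 / 50000) (8431 / 10000) (1249 / 2500) (0) (0)
    (573673 / 500000) (1022021 / 1000000) (780931 / 500000) (206 / 125) (0) := by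
  constructor <;> norm_num [cdR, cdL]

theorem bb_l2a0 : bb false q_l2 38 0 279172875 429496729 1020054734 0 268435456 = true := by
  decide +kernel

theorem bb_l2a1 : bb false q_l2 37 0 279172875 429496729 724775731 268435456 536870912 = true := by
  decide +kernel

theorem bb_l2a2 : bb false q_l2 35 0 279172875 724775731 872415232 268435456 402653184 = true := by
  decide +kernel

theorem bb_l2a3 : bb false q_l2 34 0 139586437 872415232 1020054734 268435456 402653184 = true := by
  decide +kernel

theorem bb_l2a4 : bb false q_l2 33 139586437 279172875 872415232 1020054734 268435456 335544320 = true := by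
  decide +kernel

theorem bb_l2a5 : bb false q_l2 33 139586437 279172875 872415232 1020054734 335544320 402653184 = true := by
  decide +kernel

theorem bb_l2a6 : bb false q_l2 34 139586437 279172875 872415232 1020054734 268435456 402653184 = true :=
  bb_z rfl rfl bb_l2a4 bb_l2a5

theorem bb_l2a7 : bb false q_l2 35 0 279172875 872415232 1020054734 268435456 402653184 = true :=
  bb_k rfl rfl rfl bb_l2a3 bb_l2a6

theorem bb_l2a8 : bb false q_l2 36 0 279172875 724775731 1020054734 268435456 402653184 = true :=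
  bb_r rfl rfl rfl bb_l2a2 bb_l2a7

theorem bb_l2a9 : bb false q_l2 36 0 279172875 724775731 1020054734 402653184 536870912 = true := by
  decide +kernel

theorem bb_l2a10 : bb false q_l2 37 0 279172875 724775731 1020054734 268435456 536870912 = true :=
  bb_z rfl rfl bb_l2a8 bb_l2a9

theorem bb_l2a11 : bb false q_l2 38 0 279172875 429496729 1020054734 268435456 536870912 = true :=
  bb_r rfl rfl rfl bb_l2a1 bb_l2a10

theorem bb_l2a12 : bb false q_l2 39 0 279172875 429496729 1020054734 0 536870912 = true :=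
  bb_z rfl rfl bb_l2a0 bb_l2a11

theorem bb_l2a13 : bb false q_l2 39 0 279172875 429496729 1020054734 536870912 1073741824 = true := by
  decide +kernel

theorem bb_l2a : bb false q_l2 40 0 279172875 429496729 1020054734 0 1073741824 = true :=
  bb_z rfl rfl bb_l2a12 bb_l2a13


theorem bb_l2b : bb true q_l2 40 0 279172875 0 429496730 0 1073741824 = true := by
  decide +kernel


theorem l2 : LP3 (2 / 5) (14) (1 / 2) (871 / 1000) (871 / 1000) (2 / 25) (3 / 25) := by
  refine l_of pr_l2 pl_l2 bb_l2a bb_l2b (κ := 26 / 100) ?_ ?_ ?_ ?_ ?_ ?_ ?_ ?_ ?_ ?_ ?_ ?_ ?_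
    cu_2_25 cl_3_25 <;> norm_num [Lb, Ub, U]

end P3

end Pool.Agent.S3
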