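import Pool.Agent.S3.W2.P3M
import Pool.Agent.S3.W2.P3Q

/-!
# Phase 3 of the slide: certificates (`w` on its line, `3/25 ≤ Re w ≤ 1/5`)
-/

set_option autoImplicit false

namespace Pool.Agent.S3

namespace P3

def q_l3 : Prm := ⟨5608654254, 1100275059, 934986463, 1441588594, 1050119504, 0, 0, 351596760⟩

theorem pr_l3 : PR q_l3 ((1641 / 100) / Real.pi) (1024711 / 1000000) (435387 / 500000) (167823 / 125000) (489 / 500) (0) (6549 / 20000) := by
  apply pr_mk <;> norm_num [q_l3]

theorem pl_l3 : Pl (1 / 2) (871 / 1000) (86449 / 100000) (76791 / 100000) (6549 / 20000) (29993 / 100000) (8571 / 10000) (4511 / 10000) (0) (0)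
    (1024711 / 1000000) (435387 / 500000) (167823 / 125000) (489 / 500) (0) := by
  constructor <;> norm_num [cdR, cdL]

theorem bb_l3a0 : bb false q_l3 38 0 279172875 429496729 1020054734 0 268435456 = true := by
  decide +kernel

theorem bb_l3a1 : bb false q_l3 37 0 279172875 429496729 724775731 268435456 536870912 = true := by
  decide +kernel

theorem bb_l3a2 : bb false q_l3 35 0 279172875 724775731 872415232 268435456 402653184 = true := by
  decide +kernel

theorem bb_l3a3 : bb false q_l3 34 0 139586437 872415232 1020054734 268435456 402653184 = true := by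
  decide +kernel

theorem bb_l3a4 : bb false q_l3 33 139586437 279172875 872415232 1020054734 268435456 335544320 = true := by
  decide +kernel

theorem bb_l3a5 : bb false q_l3 32 139586437 279172875 872415232 946234983 335544320 402653184 = true := by
  decide +kernel

theorem bb_l3a6 : bb false q_l3 31 139586437 209379656 946234983 1020054734 335544320 402653184 = true := by
  decide +kernel

theorem bb_l3a7 : bb false q_l3 31 209379656 279172875 946234983 1020054734 335544320 402653184 = true := by
  decide +kernel

theorem bb_l3a8 : bb false q_l3 32 139586437 279172875 946234983 1020054734 335544320 402653184 = true :=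
  bb_k rfl rfl rfl bb_l3a6 bb_l3a7

theorem bb_l3a9 : bb false q_l3 33 139586437 279172875 872415232 1020054734 335544320 402653184 = true :=
  bb_r rfl rfl rfl bb_l3a5 bb_l3a8

theorem bb_l3a10 : bb false q_l3 34 139586437 279172875 872415232 1020054734 268435456 402653184 = true :=
  bb_z rfl rfl bb_l3a4 bb_l3a9

theorem bb_l3a11 : bb false q_l3 35 0 279172875 872415232 1020054734 268435456 402653184 = true :=
  bb_k rfl rfl rfl bb_l3a3 bb_l3a10

theorem bb_l3a12 : bb false q_l3 36 0 279172875 724775731 1020054734 268435456 402653184 = true :=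
  bb_r rfl rfl rfl bb_l3a2 bb_l3a11

theorem bb_l3a13 : bb false q_l3 36 0 279172875 724775731 1020054734 402653184 536870912 = true := by
  decide +kernel

theorem bb_l3a14 : bb false q_l3 37 0 279172875 724775731 1020054734 268435456 536870912 = true :=
  bb_z rfl rfl bb_l3a12 bb_l3a13

theorem bb_l3a15 : bb false q_l3 38 0 279172875 429496729 1020054734 268435456 536870912 = true :=
  bb_r rfl rfl rfl bb_l3a1 bb_l3a14

theorem bb_l3a16 : bb false q_l3 39 0 279172875 429496729 1020054734 0 536870912 = true :=
  bb_z rfl rfl bb_l3a0 bb_l3a15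

theorem bb_l3a17 : bb false q_l3 38 0 279172875 429496729 1020054734 536870912 805306368 = true := by
  decide +kernel

theorem bb_l3a18 : bb false q_l3 38 0 279172875 429496729 1020054734 805306368 1073741824 = true := by
  decide +kernel

theorem bb_l3a19 : bb false q_l3 39 0 279172875 429496729 1020054734 536870912 1073741824 = true :=
  bb_z rfl rfl bb_l3a17 bb_l3a18

theorem bb_l3a : bb false q_l3 40 0 279172875 429496729 1020054734 0 1073741824 = true :=
  bb_z rfl rfl bb_l3a16 bb_l3a19


theorem bb_l3b : bb true q_l3 40 0 279172875 0 429496730 0 1073741824 = true := by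
  decide +kernel


theorem l3 : LP3 (2 / 5) (82 / 5) (1 / 2) (871 / 1000) (871 / 1000) (3 / 25) (4 / 25) := by
  refine l_of pr_l3 pl_l3 bb_l3a bb_l3b (κ := 26 / 100) ?_ ?_ ?_ ?_ ?_ ?_ ?_ ?_ ?_ ?_ ?_ ?_ ?_
    cu_3_25 cl_4_25 <;> norm_num [Lb, Ub, U]

def q_l4 : Prm := ⟨6326397943, 936768875, 757051336, 1159736733, 629212709, 0, 0, 395577225⟩

theorem pr_l4 : PR q_l4 ((1851 / 100) / Real.pi) (436217 / 500000) (705059 / 1000000) (1080089 / 1000000) (293 / 500) (0) (36841 / 100000) := by
  apply pr_mk <;> norm_num [q_l4]

theorem pl_l4 : Pl (1 / 2) (871 / 1000) (9599 / 12500) (1309 / 2000) (36841 / 100000) (34153 / 100000) (1093 / 1250) (1961 / 5000) (0) (0)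
    (436217 / 500000) (705059 / 1000000) (1080089 / 1000000) (293 / 500) (0) := by
  constructor <;> norm_num [cdR, cdL]

theorem bb_l4a0 : bb false q_l4 38 0 279172875 429496729 1020054734 0 268435456 = true := by
  decide +kernel

theorem bb_l4a1 : bb false q_l4 37 0 279172875 429496729 724775731 268435456 536870912 = true := by
  decide +kernel

theorem bb_l4a2 : bb false q_l4 35 0 279172875 724775731 872415232 268435456 402653184 = true := by
  decide +kernel

theorem bb_l4a3 : bb false q_l4 34 0 139586437 872415232 1020054734 268435456 402653184 = true := by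
  decide +kernel

theorem bb_l4a4 : bb false q_l4 33 139586437 279172875 872415232 1020054734 268435456 335544320 = true := by
  decide +kernel

theorem bb_l4a5 : bb false q_l4 32 139586437 279172875 872415232 946234983 335544320 402653184 = true := by
  decide +kernel

theorem bb_l4a6 : bb false q_l4 32 139586437 279172875 946234983 1020054734 335544320 402653184 = true := by
  decide +kernel

theorem bb_l4a7 : bb false q_l4 33 139586437 279172875 872415232 1020054734 335544320 402653184 = true :=
  bb_r rfl rfl rfl bb_l4a5 bb_l4a6

theorem bb_l4a8 : bb false q_l4 34 139586437 279172875 872415232 1020054734 268435456 402653184 = true :=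
  bb_z rfl rfl bb_l4a4 bb_l4a7

theorem bb_l4a9 : bb false q_l4 35 0 279172875 872415232 1020054734 268435456 402653184 = true :=
  bb_k rfl rfl rfl bb_l4a3 bb_l4a8

theorem bb_l4a10 : bb false q_l4 36 0 279172875 724775731 1020054734 268435456 402653184 = true :=
  bb_r rfl rfl rfl bb_l4a2 bb_l4a9

theorem bb_l4a11 : bb false q_l4 35 0 279172875 724775731 872415232 402653184 536870912 = true := by
  decide +kernel

theorem bb_l4a12 : bb false q_l4 34 0 139586437 872415232 1020054734 402653184 536870912 = true := by
  decide +kernel

theorem bb_l4a13 : bb false q_l4 32 139586437 279172875 872415232 946234983 402653184 469762048 = true := by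
  decide +kernel

theorem bb_l4a14 : bb false q_l4 31 139586437 209379656 946234983 1020054734 402653184 469762048 = true := by
  decide +kernel

theorem bb_l4a15 : bb false q_l4 29 209379656 279172875 946234983 983144858 402653184 436207616 = true := by
  decide +kernel

theorem bb_l4a16 : bb false q_l4 29 209379656 279172875 983144858 1020054734 402653184 436207616 = true := by
  decide +kernel

theorem bb_l4a17 : bb false q_l4 30 209379656 279172875 946234983 1020054734 402653184 436207616 = true :=
  bb_r rfl rfl rfl bb_l4a15 bb_l4a16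

theorem bb_l4a18 : bb false q_l4 30 209379656 279172875 946234983 1020054734 436207616 469762048 = true := by
  decide +kernel

theorem bb_l4a19 : bb false q_l4 31 209379656 279172875 946234983 1020054734 402653184 469762048 = true :=
  bb_z rfl rfl bb_l4a17 bb_l4a18

theorem bb_l4a20 : bb false q_l4 32 139586437 279172875 946234983 1020054734 402653184 469762048 = true :=
  bb_k rfl rfl rfl bb_l4a14 bb_l4a19

theorem bb_l4a21 : bb false q_l4 33 139586437 279172875 872415232 1020054734 402653184 469762048 = true :=
  bb_r rfl rfl rfl bb_l4a13 bb_l4a20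

theorem bb_l4a22 : bb false q_l4 33 139586437 279172875 872415232 1020054734 469762048 536870912 = true := by
  decide +kernel

theorem bb_l4a23 : bb false q_l4 34 139586437 279172875 872415232 1020054734 402653184 536870912 = true :=
  bb_z rfl rfl bb_l4a21 bb_l4a22

theorem bb_l4a24 : bb false q_l4 35 0 279172875 872415232 1020054734 402653184 536870912 = true :=
  bb_k rfl rfl rfl bb_l4a12 bb_l4a23

theorem bb_l4a25 : bb false q_l4 36 0 279172875 724775731 1020054734 402653184 536870912 = true :=
  bb_r rfl rfl rfl bb_l4a11 bb_l4a24

theorem bb_l4a26 : bb false q_l4 37 0 279172875 724775731 1020054734 268435456 536870912 = true :=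
  bb_z rfl rfl bb_l4a10 bb_l4a25

theorem bb_l4a27 : bb false q_l4 38 0 279172875 429496729 1020054734 268435456 536870912 = true :=
  bb_r rfl rfl rfl bb_l4a1 bb_l4a26

theorem bb_l4a28 : bb false q_l4 39 0 279172875 429496729 1020054734 0 536870912 = true :=
  bb_z rfl rfl bb_l4a0 bb_l4a27

theorem bb_l4a29 : bb false q_l4 37 0 279172875 429496729 724775731 536870912 805306368 = true := by
  decide +kernel

theorem bb_l4a30 : bb false q_l4 36 0 279172875 724775731 1020054734 536870912 671088640 = true := by
  decide +kernel

theorem bb_l4a31 : bb false q_l4 35 0 279172875 724775731 872415232 671088640 805306368 = true := by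
  decide +kernel

theorem bb_l4a32 : bb false q_l4 34 0 139586437 872415232 1020054734 671088640 805306368 = true := by
  decide +kernel

theorem bb_l4a33 : bb false q_l4 34 139586437 279172875 872415232 1020054734 671088640 805306368 = true := by
  decide +kernel

theorem bb_l4a34 : bb false q_l4 35 0 279172875 872415232 1020054734 671088640 805306368 = true :=
  bb_k rfl rfl rfl bb_l4a32 bb_l4a33

theorem bb_l4a35 : bb false q_l4 36 0 279172875 724775731 1020054734 671088640 805306368 = true :=
  bb_r rfl rfl rfl bb_l4a31 bb_l4a34

theorem bb_l4a36 : bb false q_l4 37 0 279172875 724775731 1020054734 536870912 805306368 = true :=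
  bb_z rfl rfl bb_l4a30 bb_l4a35

theorem bb_l4a37 : bb false q_l4 38 0 279172875 429496729 1020054734 536870912 805306368 = true :=
  bb_r rfl rfl rfl bb_l4a29 bb_l4a36

theorem bb_l4a38 : bb false q_l4 38 0 279172875 429496729 1020054734 805306368 1073741824 = true := by
  decide +kernel

theorem bb_l4a39 : bb false q_l4 39 0 279172875 429496729 1020054734 536870912 1073741824 = true :=
  bb_z rfl rfl bb_l4a37 bb_l4a38

theorem bb_l4a : bb false q_l4 40 0 279172875 429496729 1020054734 0 1073741824 = true :=
  bb_z rfl rfl bb_l4a28 bb_l4a39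


theorem bb_l4b : bb true q_l4 40 0 279172875 0 429496730 0 1073741824 = true := by
  decide +kernel


theorem l4 : LP3 (2 / 5) (37 / 2) (1 / 2) (871 / 1000) (871 / 1000) (4 / 25) (1 / 5) := by
  refine l_of pr_l4 pl_l4 bb_l4a bb_l4b (κ := 26 / 100) ?_ ?_ ?_ ?_ ?_ ?_ ?_ ?_ ?_ ?_ ?_ ?_ ?_
    cu_4_25 cl_1_5 <;> norm_num [Lb, Ub, U]

end P3

end Pool.Agent.S3
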