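import Pool.Agent.S3.W2.P3M
import Pool.Agent.S3.W2.P3Q

/-!
# Phase 3 of the slide: certificates (`w` on its line, `1/5 ≤ Re w ≤ 7/25`)
-/

set_option autoImplicit false

namespace Pool.Agent.S3

namespace P3

def q_l5 : Prm := ⟨6839072006, 757874897, 579529600, 867555477, 322122548, 0, 0, 396146308⟩

theorem pr_l5 : PR q_l5 ((2001 / 100) / Real.pi) (352913 / 500000) (539729 / 1000000) (403987 / 500000) (3 / 10) (0) (18447 / 50000) := by
  apply pr_mk <;> norm_num [q_l5]

theorem pl_l5 : Pl (1 / 2) (871 / 1000) (16363 / 25000) (53139 / 100000) (18447 / 50000) (4333 / 12500) (559 / 625) (3257 / 10000) (0) (0)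
    (352913 / 500000) (539729 / 1000000) (403987 / 500000) (3 / 10) (0) := by
  constructor <;> norm_num [cdR, cdL]

theorem bb_l5a0 : bb false q_l5 38 0 279172875 429496729 1020054734 0 268435456 = true := by
  decide +kernel

theorem bb_l5a1 : bb false q_l5 37 0 279172875 429496729 724775731 268435456 536870912 = true := by
  decide +kernel

theorem bb_l5a2 : bb false q_l5 36 0 279172875 724775731 1020054734 268435456 402653184 = true := by
  decide +kernel

theorem bb_l5a3 : bb false q_l5 35 0 279172875 724775731 872415232 402653184 536870912 = true := by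
  decide +kernel

theorem bb_l5a4 : bb false q_l5 34 0 139586437 872415232 1020054734 402653184 536870912 = true := by
  decide +kernel

theorem bb_l5a5 : bb false q_l5 32 139586437 279172875 872415232 946234983 402653184 469762048 = true := by
  decide +kernel

theorem bb_l5a6 : bb false q_l5 32 139586437 279172875 946234983 1020054734 402653184 469762048 = true := by
  decide +kernel

theorem bb_l5a7 : bb false q_l5 33 139586437 279172875 872415232 1020054734 402653184 469762048 = true :=
  bb_r rfl rfl rfl bb_l5a5 bb_l5a6

theorem bb_l5a8 : bb false q_l5 33 139586437 279172875 872415232 1020054734 469762048 536870912 = true := by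
  decide +kernel

theorem bb_l5a9 : bb false q_l5 34 139586437 279172875 872415232 1020054734 402653184 536870912 = true :=
  bb_z rfl rfl bb_l5a7 bb_l5a8

theorem bb_l5a10 : bb false q_l5 35 0 279172875 872415232 1020054734 402653184 536870912 = true :=
  bb_k rfl rfl rfl bb_l5a4 bb_l5a9

theorem bb_l5a11 : bb false q_l5 36 0 279172875 724775731 1020054734 402653184 536870912 = true :=
  bb_r rfl rfl rfl bb_l5a3 bb_l5a10

theorem bb_l5a12 : bb false q_l5 37 0 279172875 724775731 1020054734 268435456 536870912 = true :=
  bb_z rfl rfl bb_l5a2 bb_l5a11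

theorem bb_l5a13 : bb false q_l5 38 0 279172875 429496729 1020054734 268435456 536870912 = true :=
  bb_r rfl rfl rfl bb_l5a1 bb_l5a12

theorem bb_l5a14 : bb false q_l5 39 0 279172875 429496729 1020054734 0 536870912 = true :=
  bb_z rfl rfl bb_l5a0 bb_l5a13

theorem bb_l5a15 : bb false q_l5 37 0 279172875 429496729 724775731 536870912 805306368 = true := by
  decide +kernel

theorem bb_l5a16 : bb false q_l5 36 0 279172875 724775731 1020054734 536870912 671088640 = true := by
  decide +kernel

theorem bb_l5a17 : bb false q_l5 35 0 279172875 724775731 872415232 671088640 805306368 = true := by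
  decide +kernel

theorem bb_l5a18 : bb false q_l5 34 0 139586437 872415232 1020054734 671088640 805306368 = true := by
  decide +kernel

theorem bb_l5a19 : bb false q_l5 33 139586437 279172875 872415232 1020054734 671088640 738197504 = true := by
  decide +kernel

theorem bb_l5a20 : bb false q_l5 32 139586437 279172875 872415232 946234983 738197504 805306368 = true := by
  decide +kernel

theorem bb_l5a21 : bb false q_l5 32 139586437 279172875 946234983 1020054734 738197504 805306368 = true := by
  decide +kernel

theorem bb_l5a22 : bb false q_l5 33 139586437 279172875 872415232 1020054734 738197504 805306368 = true :=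
  bb_r rfl rfl rfl bb_l5a20 bb_l5a21

theorem bb_l5a23 : bb false q_l5 34 139586437 279172875 872415232 1020054734 671088640 805306368 = true :=
  bb_z rfl rfl bb_l5a19 bb_l5a22

theorem bb_l5a24 : bb false q_l5 35 0 279172875 872415232 1020054734 671088640 805306368 = true :=
  bb_k rfl rfl rfl bb_l5a18 bb_l5a23

theorem bb_l5a25 : bb false q_l5 36 0 279172875 724775731 1020054734 671088640 805306368 = true :=
  bb_r rfl rfl rfl bb_l5a17 bb_l5a24

theorem bb_l5a26 : bb false q_l5 37 0 279172875 724775731 1020054734 536870912 805306368 = true :=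
  bb_z rfl rfl bb_l5a16 bb_l5a25

theorem bb_l5a27 : bb false q_l5 38 0 279172875 429496729 1020054734 536870912 805306368 = true :=
  bb_r rfl rfl rfl bb_l5a15 bb_l5a26

theorem bb_l5a28 : bb false q_l5 38 0 279172875 429496729 1020054734 805306368 1073741824 = true := by
  decide +kernel

theorem bb_l5a29 : bb false q_l5 39 0 279172875 429496729 1020054734 536870912 1073741824 = true :=
  bb_z rfl rfl bb_l5a27 bb_l5a28

theorem bb_l5a : bb false q_l5 40 0 279172875 429496729 1020054734 0 1073741824 = true :=
  bb_z rfl rfl bb_l5a14 bb_l5a29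


theorem bb_l5b : bb true q_l5 40 0 279172875 0 429496730 0 1073741824 = true := by
  decide +kernel


theorem l5 : LP3 (2 / 5) (20) (1 / 2) (871 / 1000) (871 / 1000) (1 / 5) (6 / 25) := by
  refine l_of pr_l5 pl_l5 bb_l5a bb_l5b (κ := 26 / 100) ?_ ?_ ?_ ?_ ?_ ?_ ?_ ?_ ?_ ?_ ?_ ?_ ?_
    cu_1_5 cl_6_25 <;> norm_num [Lb, Ub, U]

def q_l6 : Prm := ⟨6839072006, 579660598, 408769217, 597772475, 63350768, 192199787, 192199786, 352799351⟩

theorem pr_l6 : PR q_l6 ((2001 / 100) / Real.pi) (539851 / 1000000) (47587 / 125000) (556719 / 1000000) (59 / 1000) (179 / 1000) (32857 / 100000) := by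
  apply pr_mk <;> norm_num [q_l6]

theorem pl_l6 : Pl (1 / 2) (871 / 1000) (2657 / 5000) (4063 / 10000) (32857 / 100000) (15653 / 50000) (4581 / 5000) (2551 / 10000) (1369 / 2000) (2099 / 2000)
    (539851 / 1000000) (47587 / 125000) (556719 / 1000000) (59 / 1000) (179 / 1000) := by
  constructor <;> norm_num [cdR, cdL]

theorem bb_l6a0 : bb false q_l6 39 0 279172875 429496729 1020054734 0 536870912 = true := by
  decide +kernel

theorem bb_l6a1 : bb false q_l6 37 0 279172875 429496729 724775731 536870912 805306368 = true := by
  decide +kernel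

theorem bb_l6a2 : bb false q_l6 36 0 279172875 724775731 1020054734 536870912 671088640 = true := by
  decide +kernel

theorem bb_l6a3 : bb false q_l6 35 0 279172875 724775731 872415232 671088640 805306368 = true := by
  decide +kernel

theorem bb_l6a4 : bb false q_l6 34 0 139586437 872415232 1020054734 671088640 805306368 = true := by
  decide +kernel

theorem bb_l6a5 : bb false q_l6 33 139586437 279172875 872415232 1020054734 671088640 738197504 = true := by
  decide +kernel

theorem bb_l6a6 : bb false q_l6 32 139586437 279172875 872415232 946234983 738197504 805306368 = true := by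
  decide +kernel

theorem bb_l6a7 : bb false q_l6 32 139586437 279172875 946234983 1020054734 738197504 805306368 = true := by
  decide +kernel

theorem bb_l6a8 : bb false q_l6 33 139586437 279172875 872415232 1020054734 738197504 805306368 = true :=
  bb_r rfl rfl rfl bb_l6a6 bb_l6a7

theorem bb_l6a9 : bb false q_l6 34 139586437 279172875 872415232 1020054734 671088640 805306368 = true :=
  bb_z rfl rfl bb_l6a5 bb_l6a8

theorem bb_l6a10 : bb false q_l6 35 0 279172875 872415232 1020054734 671088640 805306368 = true :=
  bb_k rfl rfl rfl bb_l6a4 bb_l6a9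

theorem bb_l6a11 : bb false q_l6 36 0 279172875 724775731 1020054734 671088640 805306368 = true :=
  bb_r rfl rfl rfl bb_l6a3 bb_l6a10

theorem bb_l6a12 : bb false q_l6 37 0 279172875 724775731 1020054734 536870912 805306368 = true :=
  bb_z rfl rfl bb_l6a2 bb_l6a11

theorem bb_l6a13 : bb false q_l6 38 0 279172875 429496729 1020054734 536870912 805306368 = true :=
  bb_r rfl rfl rfl bb_l6a1 bb_l6a12

theorem bb_l6a14 : bb false q_l6 38 0 279172875 429496729 1020054734 805306368 1073741824 = true := by
  decide +kernel

theorem bb_l6a15 : bb false q_l6 39 0 279172875 429496729 1020054734 536870912 1073741824 = true :=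
  bb_z rfl rfl bb_l6a13 bb_l6a14

theorem bb_l6a : bb false q_l6 40 0 279172875 429496729 1020054734 0 1073741824 = true :=
  bb_z rfl rfl bb_l6a0 bb_l6a15


theorem bb_l6b : bb true q_l6 40 0 279172875 0 429496730 0 1073741824 = true := by
  decide +kernel


theorem l6 : LP3 (2 / 5) (20) (1 / 2) (871 / 1000) (871 / 1000) (6 / 25) (7 / 25) := by
  refine l_of pr_l6 pl_l6 bb_l6a bb_l6b (κ := 26 / 100) ?_ ?_ ?_ ?_ ?_ ?_ ?_ ?_ ?_ ?_ ?_ ?_ ?_
    cu_6_25 cl_7_25 <;> norm_num [Lb, Ub, U]

end P3

end Pool.Agent.S3
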