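import Pool.Agent.S3.W2.P3M
import Pool.Agent.S3.W2.P3Q

/-!
# Phase 3 of the slide: certificates (`w` on its line, `7/25 ≤ Re w ≤ 69/200`)
-/

set_option autoImplicit false

namespace Pool.Agent.S3

namespace P3

def q_l7 : Prm := ⟨6839072006, 415848398, 266826990, 415848398, 0, 392989508, 392989507, 269455510⟩

theorem pr_l7 : PR q_l7 ((2001 / 100) / Real.pi) (387289 / 1000000) (124251 / 500000) (387289 / 1000000) (0) (183 / 500) (5019 / 20000) := by
  apply pr_mk <;> norm_num [q_l7]

theorem pl_l7 : Pl (1 / 2) (871 / 1000) (5079 / 12500) (2871 / 10000) (5019 / 20000) (303 / 1250) (0) (0) (1541 / 2000) (647 / 625)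
    (387289 / 1000000) (124251 / 500000) (387289 / 1000000) (0) (183 / 500) := by
  constructor <;> norm_num [cdR, cdL]

theorem bb_l7a0 : bb false q_l7 39 0 279172875 429496729 1020054734 0 536870912 = true := by
  decide +kernel

theorem bb_l7a1 : bb false q_l7 36 0 279172875 429496729 724775731 536870912 671088640 = true := by
  decide +kernel

theorem bb_l7a2 : bb false q_l7 36 0 279172875 429496729 724775731 671088640 805306368 = true := by
  decide +kernel

theorem bb_l7a3 : bb false q_l7 37 0 279172875 429496729 724775731 536870912 805306368 = true :=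
  bb_z rfl rfl bb_l7a1 bb_l7a2

theorem bb_l7a4 : bb false q_l7 36 0 279172875 724775731 1020054734 536870912 671088640 = true := by
  decide +kernel

theorem bb_l7a5 : bb false q_l7 34 0 139586437 724775731 872415232 671088640 805306368 = true := by
  decide +kernel

theorem bb_l7a6 : bb false q_l7 33 139586437 279172875 724775731 872415232 671088640 738197504 = true := by
  decide +kernel

theorem bb_l7a7 : bb false q_l7 32 139586437 279172875 724775731 798595481 738197504 805306368 = true := by
  decide +kernel

theorem bb_l7a8 : bb false q_l7 31 139586437 209379656 798595481 872415232 738197504 805306368 = true := by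
  decide +kernel

theorem bb_l7a9 : bb false q_l7 31 209379656 279172875 798595481 872415232 738197504 805306368 = true := by
  decide +kernel

theorem bb_l7a10 : bb false q_l7 32 139586437 279172875 798595481 872415232 738197504 805306368 = true :=
  bb_k rfl rfl rfl bb_l7a8 bb_l7a9

theorem bb_l7a11 : bb false q_l7 33 139586437 279172875 724775731 872415232 738197504 805306368 = true :=
  bb_r rfl rfl rfl bb_l7a7 bb_l7a10

theorem bb_l7a12 : bb false q_l7 34 139586437 279172875 724775731 872415232 671088640 805306368 = true :=
  bb_z rfl rfl bb_l7a6 bb_l7a11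

theorem bb_l7a13 : bb false q_l7 35 0 279172875 724775731 872415232 671088640 805306368 = true :=
  bb_k rfl rfl rfl bb_l7a5 bb_l7a12

theorem bb_l7a14 : bb false q_l7 34 0 139586437 872415232 1020054734 671088640 805306368 = true := by
  decide +kernel

theorem bb_l7a15 : bb false q_l7 34 139586437 279172875 872415232 1020054734 671088640 805306368 = true := by
  decide +kernel

theorem bb_l7a16 : bb false q_l7 35 0 279172875 872415232 1020054734 671088640 805306368 = true :=
  bb_k rfl rfl rfl bb_l7a14 bb_l7a15

theorem bb_l7a17 : bb false q_l7 36 0 279172875 724775731 1020054734 671088640 805306368 = true :=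
  bb_r rfl rfl rfl bb_l7a13 bb_l7a16

theorem bb_l7a18 : bb false q_l7 37 0 279172875 724775731 1020054734 536870912 805306368 = true :=
  bb_z rfl rfl bb_l7a4 bb_l7a17

theorem bb_l7a19 : bb false q_l7 38 0 279172875 429496729 1020054734 536870912 805306368 = true :=
  bb_r rfl rfl rfl bb_l7a3 bb_l7a18

theorem bb_l7a20 : bb false q_l7 38 0 279172875 429496729 1020054734 805306368 1073741824 = true := by
  decide +kernel

theorem bb_l7a21 : bb false q_l7 39 0 279172875 429496729 1020054734 536870912 1073741824 = true :=
  bb_z rfl rfl bb_l7a19 bb_l7a20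

theorem bb_l7a : bb false q_l7 40 0 279172875 429496729 1020054734 0 1073741824 = true :=
  bb_z rfl rfl bb_l7a0 bb_l7a21


theorem bb_l7b : bb true q_l7 40 0 279172875 0 429496730 0 1073741824 = true := by
  decide +kernel


theorem l7 : LP3 (2 / 5) (20) (1 / 2) (871 / 1000) (871 / 1000) (7 / 25) (8 / 25) := by
  refine l_of pr_l7 pl_l7 bb_l7a bb_l7b (κ := 26 / 100) ?_ ?_ ?_ ?_ ?_ ?_ ?_ ?_ ?_ ?_ ?_ ?_ ?_
    cu_7_25 cl_8_25 <;> norm_num [Lb, Ub, U]

def q_l8 : Prm := ⟨6839072006, 275479203, 197819751, 275479203, 0, 477815112, 477815111, 213373975⟩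

theorem pr_l8 : PR q_l8 ((2001 / 100) / Real.pi) (3207 / 12500) (92117 / 500000) (3207 / 12500) (0) (89 / 200) (621 / 3125) := by
  apply pr_mk <;> norm_num [q_l8]

theorem pl_l8 : Pl (1 / 2) (871 / 1000) (3589 / 12500) (4379 / 20000) (621 / 3125) (387 / 2000) (0) (0) (8443 / 10000) (1027 / 1000)
    (3207 / 12500) (92117 / 500000) (3207 / 12500) (0) (89 / 200) := by
  constructor <;> norm_num [cdR, cdL]

theorem bb_l8a0 : bb false q_l8 39 0 279172875 429496729 1020054734 0 536870912 = true := by
  decide +kernel

theorem bb_l8a1 : bb false q_l8 36 0 279172875 429496729 724775731 536870912 671088640 = true := by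
  decide +kernel

theorem bb_l8a2 : bb false q_l8 35 0 279172875 429496729 577136230 671088640 805306368 = true := by
  decide +kernel

theorem bb_l8a3 : bb false q_l8 34 0 139586437 577136230 724775731 671088640 805306368 = true := by
  decide +kernel

theorem bb_l8a4 : bb false q_l8 33 139586437 279172875 577136230 724775731 671088640 738197504 = true := by
  decide +kernel

theorem bb_l8a5 : bb false q_l8 33 139586437 279172875 577136230 724775731 738197504 805306368 = true := by
  decide +kernel

theorem bb_l8a6 : bb false q_l8 34 139586437 279172875 577136230 724775731 671088640 805306368 = true :=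
  bb_z rfl rfl bb_l8a4 bb_l8a5

theorem bb_l8a7 : bb false q_l8 35 0 279172875 577136230 724775731 671088640 805306368 = true :=
  bb_k rfl rfl rfl bb_l8a3 bb_l8a6

theorem bb_l8a8 : bb false q_l8 36 0 279172875 429496729 724775731 671088640 805306368 = true :=
  bb_r rfl rfl rfl bb_l8a2 bb_l8a7

theorem bb_l8a9 : bb false q_l8 37 0 279172875 429496729 724775731 536870912 805306368 = true :=
  bb_z rfl rfl bb_l8a1 bb_l8a8

theorem bb_l8a10 : bb false q_l8 36 0 279172875 724775731 1020054734 536870912 671088640 = true := by
  decide +kernel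

theorem bb_l8a11 : bb false q_l8 34 0 139586437 724775731 872415232 671088640 805306368 = true := by
  decide +kernel

theorem bb_l8a12 : bb false q_l8 33 139586437 279172875 724775731 872415232 671088640 738197504 = true := by
  decide +kernel

theorem bb_l8a13 : bb false q_l8 32 139586437 279172875 724775731 798595481 738197504 805306368 = true := by
  decide +kernel

theorem bb_l8a14 : bb false q_l8 32 139586437 279172875 798595481 872415232 738197504 805306368 = true := by
  decide +kernel

theorem bb_l8a15 : bb false q_l8 33 139586437 279172875 724775731 872415232 738197504 805306368 = true :=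
  bb_r rfl rfl rfl bb_l8a13 bb_l8a14

theorem bb_l8a16 : bb false q_l8 34 139586437 279172875 724775731 872415232 671088640 805306368 = true :=
  bb_z rfl rfl bb_l8a12 bb_l8a15

theorem bb_l8a17 : bb false q_l8 35 0 279172875 724775731 872415232 671088640 805306368 = true :=
  bb_k rfl rfl rfl bb_l8a11 bb_l8a16

theorem bb_l8a18 : bb false q_l8 35 0 279172875 872415232 1020054734 671088640 805306368 = true := by
  decide +kernel

theorem bb_l8a19 : bb false q_l8 36 0 279172875 724775731 1020054734 671088640 805306368 = true :=
  bb_r rfl rfl rfl bb_l8a17 bb_l8a18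

theorem bb_l8a20 : bb false q_l8 37 0 279172875 724775731 1020054734 536870912 805306368 = true :=
  bb_z rfl rfl bb_l8a10 bb_l8a19

theorem bb_l8a21 : bb false q_l8 38 0 279172875 429496729 1020054734 536870912 805306368 = true :=
  bb_r rfl rfl rfl bb_l8a9 bb_l8a20

theorem bb_l8a22 : bb false q_l8 38 0 279172875 429496729 1020054734 805306368 1073741824 = true := by
  decide +kernel

theorem bb_l8a23 : bb false q_l8 39 0 279172875 429496729 1020054734 536870912 1073741824 = true :=
  bb_z rfl rfl bb_l8a21 bb_l8a22

theorem bb_l8a : bb false q_l8 40 0 279172875 429496729 1020054734 0 1073741824 = true :=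
  bb_z rfl rfl bb_l8a0 bb_l8a23


theorem bb_l8b : bb true q_l8 40 0 279172875 0 429496730 0 1073741824 = true := by
  decide +kernel


theorem l8 : LP3 (2 / 5) (20) (1 / 2) (871 / 1000) (871 / 1000) (8 / 25) (69 / 200) := by
  refine l_of pr_l8 pl_l8 bb_l8a bb_l8b (κ := 26 / 100) ?_ ?_ ?_ ?_ ?_ ?_ ?_ ?_ ?_ ?_ ?_ ?_ ?_
    cu_8_25 cl_69_200 <;> norm_num [Lb, Ub, U]

end P3

end Pool.Agent.S3
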