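import Pool.Agent.S3.W2.P3M
import Pool.Agent.S3.W2.P3Q

/-!
# Phase 3 of the slide: certificates (`w` on its line, `69/200 ≤ Re w ≤ 73/200`)
-/

set_option autoImplicit false

namespace Pool.Agent.S3

namespace P3

def q_l9 : Prm := ⟨6839072006, 202081433, 174548544, 202081433, 0, 499289949, 499289948, 191083094⟩

theorem pr_l9 : PR q_l9 ((2001 / 100) / Real.pi) (188203 / 1000000) (162561 / 1000000) (188203 / 1000000) (0) (93 / 200) (4449 / 25000) := by
  apply pr_mk <;> norm_num [q_l9]

theorem pl_l9 : Pl (1 / 2) (871 / 1000) (21897 / 100000) (9677 / 50000) (4449 / 25000) (869 / 5000) (0) (0) (8837 / 10000) (10239 / 10000)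
    (188203 / 1000000) (162561 / 1000000) (188203 / 1000000) (0) (93 / 200) := by
  constructor <;> norm_num [cdR, cdL]

theorem bb_l9a0 : bb false q_l9 39 0 279172875 429496729 1020054734 0 536870912 = true := by
  decide +kernel

theorem bb_l9a1 : bb false q_l9 36 0 279172875 429496729 724775731 536870912 671088640 = true := by
  decide +kernel

theorem bb_l9a2 : bb false q_l9 35 0 279172875 429496729 577136230 671088640 805306368 = true := by
  decide +kernel

theorem bb_l9a3 : bb false q_l9 34 0 139586437 577136230 724775731 671088640 805306368 = true := by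
  decide +kernel

theorem bb_l9a4 : bb false q_l9 33 139586437 279172875 577136230 724775731 671088640 738197504 = true := by
  decide +kernel

theorem bb_l9a5 : bb false q_l9 33 139586437 279172875 577136230 724775731 738197504 805306368 = true := by
  decide +kernel

theorem bb_l9a6 : bb false q_l9 34 139586437 279172875 577136230 724775731 671088640 805306368 = true :=
  bb_z rfl rfl bb_l9a4 bb_l9a5

theorem bb_l9a7 : bb false q_l9 35 0 279172875 577136230 724775731 671088640 805306368 = true :=
  bb_k rfl rfl rfl bb_l9a3 bb_l9a6

theorem bb_l9a8 : bb false q_l9 36 0 279172875 429496729 724775731 671088640 805306368 = true :=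
  bb_r rfl rfl rfl bb_l9a2 bb_l9a7

theorem bb_l9a9 : bb false q_l9 37 0 279172875 429496729 724775731 536870912 805306368 = true :=
  bb_z rfl rfl bb_l9a1 bb_l9a8

theorem bb_l9a10 : bb false q_l9 36 0 279172875 724775731 1020054734 536870912 671088640 = true := by
  decide +kernel

theorem bb_l9a11 : bb false q_l9 35 0 279172875 724775731 872415232 671088640 805306368 = true := by
  decide +kernel

theorem bb_l9a12 : bb false q_l9 35 0 279172875 872415232 1020054734 671088640 805306368 = true := by
  decide +kernel

theorem bb_l9a13 : bb false q_l9 36 0 279172875 724775731 1020054734 671088640 805306368 = true :=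
  bb_r rfl rfl rfl bb_l9a11 bb_l9a12

theorem bb_l9a14 : bb false q_l9 37 0 279172875 724775731 1020054734 536870912 805306368 = true :=
  bb_z rfl rfl bb_l9a10 bb_l9a13

theorem bb_l9a15 : bb false q_l9 38 0 279172875 429496729 1020054734 536870912 805306368 = true :=
  bb_r rfl rfl rfl bb_l9a9 bb_l9a14

theorem bb_l9a16 : bb false q_l9 38 0 279172875 429496729 1020054734 805306368 1073741824 = true := by
  decide +kernel

theorem bb_l9a17 : bb false q_l9 39 0 279172875 429496729 1020054734 536870912 1073741824 = true :=
  bb_z rfl rfl bb_l9a15 bb_l9a16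

theorem bb_l9a : bb false q_l9 40 0 279172875 429496729 1020054734 0 1073741824 = true :=
  bb_z rfl rfl bb_l9a0 bb_l9a17


theorem bb_l9b : bb true q_l9 40 0 279172875 0 429496730 0 1073741824 = true := by
  decide +kernel


theorem l9 : LP3 (2 / 5) (20) (1 / 2) (871 / 1000) (871 / 1000) (69 / 200) (71 / 200) := by
  refine l_of pr_l9 pl_l9 bb_l9a bb_l9b (κ := 26 / 100) ?_ ?_ ?_ ?_ ?_ ?_ ?_ ?_ ?_ ?_ ?_ ?_ ?_
    cu_69_200 cl_71_200 <;> norm_num [Lb, Ub, U]

def q_l10 : Prm := ⟨6839072006, 175980917, 150528940, 175980917, 0, 531502203, 531502202, 169189499⟩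

theorem pr_l10 : PR q_l10 ((2001 / 100) / Real.pi) (32779 / 200000) (140191 / 1000000) (32779 / 200000) (0) (99 / 200) (15757 / 100000) := by
  apply pr_mk <;> norm_num [q_l10]

theorem pl_l10 : Pl (1 / 2) (871 / 1000) (3871 / 20000) (8467 / 50000) (15757 / 100000) (15433 / 100000) (0) (0) (449 / 500) (10209 / 10000)
    (32779 / 200000) (140191 / 1000000) (32779 / 200000) (0) (99 / 200) := by
  constructor <;> norm_num [cdR, cdL]

theorem bb_l10a0 : bb false q_l10 39 0 279172875 429496729 1020054734 0 536870912 = true := by
  decide +kernel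

theorem bb_l10a1 : bb false q_l10 36 0 279172875 429496729 724775731 536870912 671088640 = true := by
  decide +kernel

theorem bb_l10a2 : bb false q_l10 34 0 139586437 429496729 577136230 671088640 805306368 = true := by
  decide +kernel

theorem bb_l10a3 : bb false q_l10 33 139586437 279172875 429496729 577136230 671088640 738197504 = true := by
  decide +kernel

theorem bb_l10a4 : bb false q_l10 33 139586437 279172875 429496729 577136230 738197504 805306368 = true := by
  decide +kernel

theorem bb_l10a5 : bb false q_l10 34 139586437 279172875 429496729 577136230 671088640 805306368 = true :=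
  bb_z rfl rfl bb_l10a3 bb_l10a4

theorem bb_l10a6 : bb false q_l10 35 0 279172875 429496729 577136230 671088640 805306368 = true :=
  bb_k rfl rfl rfl bb_l10a2 bb_l10a5

theorem bb_l10a7 : bb false q_l10 34 0 139586437 577136230 724775731 671088640 805306368 = true := by
  decide +kernel

theorem bb_l10a8 : bb false q_l10 33 139586437 279172875 577136230 724775731 671088640 738197504 = true := by
  decide +kernel

theorem bb_l10a9 : bb false q_l10 32 139586437 279172875 577136230 650955980 738197504 805306368 = true := by
  decide +kernel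

theorem bb_l10a10 : bb false q_l10 32 139586437 279172875 650955980 724775731 738197504 805306368 = true := by
  decide +kernel

theorem bb_l10a11 : bb false q_l10 33 139586437 279172875 577136230 724775731 738197504 805306368 = true :=
  bb_r rfl rfl rfl bb_l10a9 bb_l10a10

theorem bb_l10a12 : bb false q_l10 34 139586437 279172875 577136230 724775731 671088640 805306368 = true :=
  bb_z rfl rfl bb_l10a8 bb_l10a11

theorem bb_l10a13 : bb false q_l10 35 0 279172875 577136230 724775731 671088640 805306368 = true :=
  bb_k rfl rfl rfl bb_l10a7 bb_l10a12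

theorem bb_l10a14 : bb false q_l10 36 0 279172875 429496729 724775731 671088640 805306368 = true :=
  bb_r rfl rfl rfl bb_l10a6 bb_l10a13

theorem bb_l10a15 : bb false q_l10 37 0 279172875 429496729 724775731 536870912 805306368 = true :=
  bb_z rfl rfl bb_l10a1 bb_l10a14

theorem bb_l10a16 : bb false q_l10 36 0 279172875 724775731 1020054734 536870912 671088640 = true := by
  decide +kernel

theorem bb_l10a17 : bb false q_l10 35 0 279172875 724775731 872415232 671088640 805306368 = true := by
  decide +kernel

theorem bb_l10a18 : bb false q_l10 35 0 279172875 872415232 1020054734 671088640 805306368 = true := by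
  decide +kernel

theorem bb_l10a19 : bb false q_l10 36 0 279172875 724775731 1020054734 671088640 805306368 = true :=
  bb_r rfl rfl rfl bb_l10a17 bb_l10a18

theorem bb_l10a20 : bb false q_l10 37 0 279172875 724775731 1020054734 536870912 805306368 = true :=
  bb_z rfl rfl bb_l10a16 bb_l10a19

theorem bb_l10a21 : bb false q_l10 38 0 279172875 429496729 1020054734 536870912 805306368 = true :=
  bb_r rfl rfl rfl bb_l10a15 bb_l10a20

theorem bb_l10a22 : bb false q_l10 38 0 279172875 429496729 1020054734 805306368 1073741824 = true := by
  decide +kernel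

theorem bb_l10a23 : bb false q_l10 39 0 279172875 429496729 1020054734 536870912 1073741824 = true :=
  bb_z rfl rfl bb_l10a21 bb_l10a22

theorem bb_l10a : bb false q_l10 40 0 279172875 429496729 1020054734 0 1073741824 = true :=
  bb_z rfl rfl bb_l10a0 bb_l10a23


theorem bb_l10b : bb true q_l10 40 0 279172875 0 429496730 0 1073741824 = true := by
  decide +kernel


theorem l10 : LP3 (2 / 5) (20) (1 / 2) (871 / 1000) (871 / 1000) (71 / 200) (73 / 200) := by
  refine l_of pr_l10 pl_l10 bb_l10a bb_l10b (κ := 26 / 100) ?_ ?_ ?_ ?_ ?_ ?_ ?_ ?_ ?_ ?_ ?_ ?_ ?_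
    cu_71_200 cl_73_200 <;> norm_num [Lb, Ub, U]

end P3

end Pool.Agent.S3
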