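import Pool.Agent.S3.W2.P3M
import Pool.Agent.S3.W2.P3Q

/-!
# Phase 3 of the slide: certificates (`w` on its line, `73/200 ≤ Re w ≤ 77/200`)
-/

set_option autoImplicit false

namespace Pool.Agent.S3

namespace P3

def q_l11 : Prm := ⟨6668180652, 151777702, 128396973, 151777702, 0, 561566974, 561566973, 147897198⟩

theorem pr_l11 : PR q_l11 ((1951 / 100) / Real.pi) (70677 / 500000) (119579 / 1000000) (70677 / 500000) (0) (523 / 1000) (6887 / 50000) := by
  apply pr_mk <;> norm_num [q_l11]

theorem pl_l11 : Pl (1 / 2) (871 / 1000) (3387 / 20000) (3661 / 25000) (6887 / 50000) (13529 / 100000) (0) (0) (4557 / 5000) (10181 / 10000)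
    (70677 / 500000) (119579 / 1000000) (70677 / 500000) (0) (523 / 1000) := by
  constructor <;> norm_num [cdR, cdL]

theorem bb_l11a0 : bb false q_l11 39 0 279172875 429496729 1020054734 0 536870912 = true := by
  decide +kernel

theorem bb_l11a1 : bb false q_l11 36 0 279172875 429496729 724775731 536870912 671088640 = true := by
  decide +kernel

theorem bb_l11a2 : bb false q_l11 34 0 139586437 429496729 577136230 671088640 805306368 = true := by
  decide +kernel

theorem bb_l11a3 : bb false q_l11 33 139586437 279172875 429496729 577136230 671088640 738197504 = true := by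
  decide +kernel

theorem bb_l11a4 : bb false q_l11 33 139586437 279172875 429496729 577136230 738197504 805306368 = true := by
  decide +kernel

theorem bb_l11a5 : bb false q_l11 34 139586437 279172875 429496729 577136230 671088640 805306368 = true :=
  bb_z rfl rfl bb_l11a3 bb_l11a4

theorem bb_l11a6 : bb false q_l11 35 0 279172875 429496729 577136230 671088640 805306368 = true :=
  bb_k rfl rfl rfl bb_l11a2 bb_l11a5

theorem bb_l11a7 : bb false q_l11 34 0 139586437 577136230 724775731 671088640 805306368 = true := by
  decide +kernel

theorem bb_l11a8 : bb false q_l11 33 139586437 279172875 577136230 724775731 671088640 738197504 = true := by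
  decide +kernel

theorem bb_l11a9 : bb false q_l11 32 139586437 279172875 577136230 650955980 738197504 805306368 = true := by
  decide +kernel

theorem bb_l11a10 : bb false q_l11 32 139586437 279172875 650955980 724775731 738197504 805306368 = true := by
  decide +kernel

theorem bb_l11a11 : bb false q_l11 33 139586437 279172875 577136230 724775731 738197504 805306368 = true :=
  bb_r rfl rfl rfl bb_l11a9 bb_l11a10

theorem bb_l11a12 : bb false q_l11 34 139586437 279172875 577136230 724775731 671088640 805306368 = true :=
  bb_z rfl rfl bb_l11a8 bb_l11a11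

theorem bb_l11a13 : bb false q_l11 35 0 279172875 577136230 724775731 671088640 805306368 = true :=
  bb_k rfl rfl rfl bb_l11a7 bb_l11a12

theorem bb_l11a14 : bb false q_l11 36 0 279172875 429496729 724775731 671088640 805306368 = true :=
  bb_r rfl rfl rfl bb_l11a6 bb_l11a13

theorem bb_l11a15 : bb false q_l11 37 0 279172875 429496729 724775731 536870912 805306368 = true :=
  bb_z rfl rfl bb_l11a1 bb_l11a14

theorem bb_l11a16 : bb false q_l11 37 0 279172875 724775731 1020054734 536870912 805306368 = true := by
  decide +kernel

theorem bb_l11a17 : bb false q_l11 38 0 279172875 429496729 1020054734 536870912 805306368 = true :=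
  bb_r rfl rfl rfl bb_l11a15 bb_l11a16

theorem bb_l11a18 : bb false q_l11 38 0 279172875 429496729 1020054734 805306368 1073741824 = true := by
  decide +kernel

theorem bb_l11a19 : bb false q_l11 39 0 279172875 429496729 1020054734 536870912 1073741824 = true :=
  bb_z rfl rfl bb_l11a17 bb_l11a18

theorem bb_l11a : bb false q_l11 40 0 279172875 429496729 1020054734 0 1073741824 = true :=
  bb_z rfl rfl bb_l11a0 bb_l11a19


theorem bb_l11b : bb true q_l11 40 0 279172875 0 429496730 0 1073741824 = true := by
  decide +kernel


theorem l11 : LP3 (2 / 5) (39 / 2) (1 / 2) (871 / 1000) (871 / 1000) (73 / 200) (3 / 8) := by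
  refine l_of pr_l11 pl_l11 bb_l11a bb_l11b (κ := 26 / 100) ?_ ?_ ?_ ?_ ?_ ?_ ?_ ?_ ?_ ?_ ?_ ?_ ?_
    cu_73_200 cl_3_8 <;> norm_num [Lb, Ub, U]

def q_l12 : Prm := ⟨6668180652, 129453536, 118505663, 129453536, 0, 572304393, 572304392, 137557065⟩

theorem pr_l12 : PR q_l12 ((1951 / 100) / Real.pi) (120563 / 1000000) (110367 / 1000000) (120563 / 1000000) (0) (533 / 1000) (12811 / 100000) := by
  apply pr_mk <;> norm_num [q_l12]

theorem pl_l12 : Pl (1 / 2) (871 / 1000) (2929 / 20000) (13551 / 100000) (12811 / 100000) (12599 / 100000) (0) (0) (4619 / 5000) (10167 / 10000)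
    (120563 / 1000000) (110367 / 1000000) (120563 / 1000000) (0) (533 / 1000) := by
  constructor <;> norm_num [cdR, cdL]

theorem bb_l12a0 : bb false q_l12 39 0 279172875 429496729 1020054734 0 536870912 = true := by
  decide +kernel

theorem bb_l12a1 : bb false q_l12 36 0 279172875 429496729 724775731 536870912 671088640 = true := by
  decide +kernel

theorem bb_l12a2 : bb false q_l12 34 0 139586437 429496729 577136230 671088640 805306368 = true := by
  decide +kernel

theorem bb_l12a3 : bb false q_l12 32 139586437 279172875 429496729 503316479 671088640 738197504 = true := by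
  decide +kernel

theorem bb_l12a4 : bb false q_l12 32 139586437 279172875 503316479 577136230 671088640 738197504 = true := by
  decide +kernel

theorem bb_l12a5 : bb false q_l12 33 139586437 279172875 429496729 577136230 671088640 738197504 = true :=
  bb_r rfl rfl rfl bb_l12a3 bb_l12a4

theorem bb_l12a6 : bb false q_l12 33 139586437 279172875 429496729 577136230 738197504 805306368 = true := by
  decide +kernel

theorem bb_l12a7 : bb false q_l12 34 139586437 279172875 429496729 577136230 671088640 805306368 = true :=
  bb_z rfl rfl bb_l12a5 bb_l12a6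

theorem bb_l12a8 : bb false q_l12 35 0 279172875 429496729 577136230 671088640 805306368 = true :=
  bb_k rfl rfl rfl bb_l12a2 bb_l12a7

theorem bb_l12a9 : bb false q_l12 34 0 139586437 577136230 724775731 671088640 805306368 = true := by
  decide +kernel

theorem bb_l12a10 : bb false q_l12 33 139586437 279172875 577136230 724775731 671088640 738197504 = true := by
  decide +kernel

theorem bb_l12a11 : bb false q_l12 32 139586437 279172875 577136230 650955980 738197504 805306368 = true := by
  decide +kernel

theorem bb_l12a12 : bb false q_l12 32 139586437 279172875 650955980 724775731 738197504 805306368 = true := by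
  decide +kernel

theorem bb_l12a13 : bb false q_l12 33 139586437 279172875 577136230 724775731 738197504 805306368 = true :=
  bb_r rfl rfl rfl bb_l12a11 bb_l12a12

theorem bb_l12a14 : bb false q_l12 34 139586437 279172875 577136230 724775731 671088640 805306368 = true :=
  bb_z rfl rfl bb_l12a10 bb_l12a13

theorem bb_l12a15 : bb false q_l12 35 0 279172875 577136230 724775731 671088640 805306368 = true :=
  bb_k rfl rfl rfl bb_l12a9 bb_l12a14

theorem bb_l12a16 : bb false q_l12 36 0 279172875 429496729 724775731 671088640 805306368 = true :=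
  bb_r rfl rfl rfl bb_l12a8 bb_l12a15

theorem bb_l12a17 : bb false q_l12 37 0 279172875 429496729 724775731 536870912 805306368 = true :=
  bb_z rfl rfl bb_l12a1 bb_l12a16

theorem bb_l12a18 : bb false q_l12 37 0 279172875 724775731 1020054734 536870912 805306368 = true := by
  decide +kernel

theorem bb_l12a19 : bb false q_l12 38 0 279172875 429496729 1020054734 536870912 805306368 = true :=
  bb_r rfl rfl rfl bb_l12a17 bb_l12a18

theorem bb_l12a20 : bb false q_l12 38 0 279172875 429496729 1020054734 805306368 1073741824 = true := by
  decide +kernel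

theorem bb_l12a21 : bb false q_l12 39 0 279172875 429496729 1020054734 536870912 1073741824 = true :=
  bb_z rfl rfl bb_l12a19 bb_l12a20

theorem bb_l12a : bb false q_l12 40 0 279172875 429496729 1020054734 0 1073741824 = true :=
  bb_z rfl rfl bb_l12a0 bb_l12a21


theorem bb_l12b0 : bb true q_l12 39 0 279172875 0 429496730 0 536870912 = true := by
  decide +kernel

theorem bb_l12b1 : bb true q_l12 37 0 279172875 0 429496730 536870912 671088640 = true := by
  decide +kernel

theorem bb_l12b2 : bb true q_l12 36 0 279172875 0 214748365 671088640 805306368 = true := by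
  decide +kernel

theorem bb_l12b3 : bb true q_l12 36 0 279172875 214748365 429496730 671088640 805306368 = true := by
  decide +kernel

theorem bb_l12b4 : bb true q_l12 37 0 279172875 0 429496730 671088640 805306368 = true :=
  bb_r rfl rfl rfl bb_l12b2 bb_l12b3

theorem bb_l12b5 : bb true q_l12 38 0 279172875 0 429496730 536870912 805306368 = true :=
  bb_z rfl rfl bb_l12b1 bb_l12b4

theorem bb_l12b6 : bb true q_l12 38 0 279172875 0 429496730 805306368 1073741824 = true := by
  decide +kernel

theorem bb_l12b7 : bb true q_l12 39 0 279172875 0 429496730 536870912 1073741824 = true :=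
  bb_z rfl rfl bb_l12b5 bb_l12b6

theorem bb_l12b : bb true q_l12 40 0 279172875 0 429496730 0 1073741824 = true :=
  bb_z rfl rfl bb_l12b0 bb_l12b7


theorem l12 : LP3 (2 / 5) (39 / 2) (1 / 2) (871 / 1000) (871 / 1000) (3 / 8) (19 / 50) := by
  refine l_of pr_l12 pl_l12 bb_l12a bb_l12b (κ := 26 / 100) ?_ ?_ ?_ ?_ ?_ ?_ ?_ ?_ ?_ ?_ ?_ ?_ ?_
    cu_3_8 cl_19_50 <;> norm_num [Lb, Ub, U]

def q_l13 : Prm := ⟨6565645839, 118996364, 108563888, 118996364, 0, 585189295, 585189294, 127431679⟩

theorem pr_l13 : PR q_l13 ((1921 / 100) / Real.pi) (13853 / 125000) (25277 / 250000) (13853 / 125000) (0) (109 / 200) (2967 / 25000) := by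
  apply pr_mk <;> norm_num [q_l13]

theorem pl_l13 : Pl (1 / 2) (871 / 1000) (847 / 6250) (6247 / 50000) (2967 / 25000) (11687 / 100000) (0) (0) (9297 / 10000) (5077 / 5000)
    (13853 / 125000) (25277 / 250000) (13853 / 125000) (0) (109 / 200) := by
  constructor <;> norm_num [cdR, cdL]

theorem bb_l13a0 : bb false q_l13 39 0 279172875 429496729 1020054734 0 536870912 = true := by
  decide +kernel

theorem bb_l13a1 : bb false q_l13 36 0 279172875 429496729 724775731 536870912 671088640 = true := by
  decide +kernel

theorem bb_l13a2 : bb false q_l13 34 0 139586437 429496729 577136230 671088640 805306368 = true := by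
  decide +kernel

theorem bb_l13a3 : bb false q_l13 32 139586437 279172875 429496729 503316479 671088640 738197504 = true := by
  decide +kernel

theorem bb_l13a4 : bb false q_l13 32 139586437 279172875 503316479 577136230 671088640 738197504 = true := by
  decide +kernel

theorem bb_l13a5 : bb false q_l13 33 139586437 279172875 429496729 577136230 671088640 738197504 = true :=
  bb_r rfl rfl rfl bb_l13a3 bb_l13a4

theorem bb_l13a6 : bb false q_l13 33 139586437 279172875 429496729 577136230 738197504 805306368 = true := by
  decide +kernel

theorem bb_l13a7 : bb false q_l13 34 139586437 279172875 429496729 577136230 671088640 805306368 = true :=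
  bb_z rfl rfl bb_l13a5 bb_l13a6

theorem bb_l13a8 : bb false q_l13 35 0 279172875 429496729 577136230 671088640 805306368 = true :=
  bb_k rfl rfl rfl bb_l13a2 bb_l13a7

theorem bb_l13a9 : bb false q_l13 35 0 279172875 577136230 724775731 671088640 805306368 = true := by
  decide +kernel

theorem bb_l13a10 : bb false q_l13 36 0 279172875 429496729 724775731 671088640 805306368 = true :=
  bb_r rfl rfl rfl bb_l13a8 bb_l13a9

theorem bb_l13a11 : bb false q_l13 37 0 279172875 429496729 724775731 536870912 805306368 = true :=
  bb_z rfl rfl bb_l13a1 bb_l13a10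

theorem bb_l13a12 : bb false q_l13 37 0 279172875 724775731 1020054734 536870912 805306368 = true := by
  decide +kernel

theorem bb_l13a13 : bb false q_l13 38 0 279172875 429496729 1020054734 536870912 805306368 = true :=
  bb_r rfl rfl rfl bb_l13a11 bb_l13a12

theorem bb_l13a14 : bb false q_l13 38 0 279172875 429496729 1020054734 805306368 1073741824 = true := by
  decide +kernel

theorem bb_l13a15 : bb false q_l13 39 0 279172875 429496729 1020054734 536870912 1073741824 = true :=
  bb_z rfl rfl bb_l13a13 bb_l13a14

theorem bb_l13a : bb false q_l13 40 0 279172875 429496729 1020054734 0 1073741824 = true :=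
  bb_z rfl rfl bb_l13a0 bb_l13a15


theorem bb_l13b0 : bb true q_l13 39 0 279172875 0 429496730 0 536870912 = true := by
  decide +kernel

theorem bb_l13b1 : bb true q_l13 37 0 279172875 0 429496730 536870912 671088640 = true := by
  decide +kernel

theorem bb_l13b2 : bb true q_l13 36 0 279172875 0 214748365 671088640 805306368 = true := by
  decide +kernel

theorem bb_l13b3 : bb true q_l13 36 0 279172875 214748365 429496730 671088640 805306368 = true := by
  decide +kernel

theorem bb_l13b4 : bb true q_l13 37 0 279172875 0 429496730 671088640 805306368 = true :=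
  bb_r rfl rfl rfl bb_l13b2 bb_l13b3

theorem bb_l13b5 : bb true q_l13 38 0 279172875 0 429496730 536870912 805306368 = true :=
  bb_z rfl rfl bb_l13b1 bb_l13b4

theorem bb_l13b6 : bb true q_l13 38 0 279172875 0 429496730 805306368 1073741824 = true := by
  decide +kernel

theorem bb_l13b7 : bb true q_l13 39 0 279172875 0 429496730 536870912 1073741824 = true :=
  bb_z rfl rfl bb_l13b5 bb_l13b6

theorem bb_l13b : bb true q_l13 40 0 279172875 0 429496730 0 1073741824 = true :=
  bb_z rfl rfl bb_l13b0 bb_l13b7


theorem l13 : LP3 (2 / 5) (96 / 5) (1 / 2) (871 / 1000) (871 / 1000) (19 / 50) (77 / 200) := by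
  refine l_of pr_l13 pl_l13 bb_l13a bb_l13b (κ := 26 / 100) ?_ ?_ ?_ ?_ ?_ ?_ ?_ ?_ ?_ ?_ ?_ ?_ ?_
    cu_19_50 cl_77_200 <;> norm_num [Lb, Ub, U]

end P3

end Pool.Agent.S3
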