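import Pool.Agent.S3.W2.P3L
import Pool.Agent.S3.W2.P3M

/-!
# Phase 3 of the slide: certificates (2 | a ≥ 3, `Re w ≤ 2/25`)
-/

set_option autoImplicit false

namespace Pool.Agent.S3

namespace P3

def q_w0 : Prm := ⟨3523779730, 1342178354, 1007330892, 1342178354, 0, 0, 0, 0⟩

theorem pr_w0 : PR q_w0 ((1031 / 100) / Real.pi) (1250001 / 1000000) (18763 / 20000) (1250001 / 1000000) (0) (0) 0 := by
  apply pr_mk <;> norm_num [q_w0]

theorem pg_w0 : Pg (1 / 2) (1) (1250001 / 1000000) (18763 / 20000) (1250001 / 1000000) (0) (0) := by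
  constructor <;> norm_num

theorem bb_w0a0 : bb false q_w0 38 0 317022273 751619276 1020054734 0 268435456 = true := by
  decide +kernel

theorem bb_w0a1 : bb false q_w0 37 0 317022273 751619276 1020054734 268435456 402653184 = true := by
  decide +kernel

theorem bb_w0a2 : bb false q_w0 36 0 158511136 751619276 1020054734 402653184 536870912 = true := by
  decide +kernel

theorem bb_w0a3 : bb false q_w0 36 158511136 317022273 751619276 1020054734 402653184 536870912 = true := by
  decide +kernel

theorem bb_w0a4 : bb false q_w0 37 0 317022273 751619276 1020054734 402653184 536870912 = true :=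
  bb_k rfl rfl rfl bb_w0a2 bb_w0a3

theorem bb_w0a5 : bb false q_w0 38 0 317022273 751619276 1020054734 268435456 536870912 = true :=
  bb_z rfl rfl bb_w0a1 bb_w0a4

theorem bb_w0a6 : bb false q_w0 39 0 317022273 751619276 1020054734 0 536870912 = true :=
  bb_z rfl rfl bb_w0a0 bb_w0a5

theorem bb_w0a7 : bb false q_w0 39 0 317022273 751619276 1020054734 536870912 1073741824 = true := by
  decide +kernel

theorem bb_w0a : bb false q_w0 40 0 317022273 751619276 1020054734 0 1073741824 = true :=
  bb_z rfl rfl bb_w0a6 bb_w0a7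


theorem w0a : P3a (103 / 10) (1 / 2) (0) (2 / 25) :=
  a_of pr_w0 pg_w0 bb_w0a (by norm_num) (by norm_num) (by norm_num) cs_0 cl_2_25

theorem bb_w0b : bb true q_w0 40 0 317022273 0 751619277 0 1073741824 = true := by
  decide +kernel


theorem w0b : P3b (103 / 10) (1 / 2) (0) (2 / 25) :=
  b_of pr_w0 pg_w0 bb_w0b (by norm_num) (by norm_num) (by norm_num) cs_0 cl_2_25

end P3

end Pool.Agent.S3
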