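import Pool.Agent.S3.W2.P3L
import Pool.Agent.S3.W2.P3M

/-!
# Phase 3 of the slide: certificates (2 | a ≥ 3, `2/25 ≤ Re w ≤ 4/25`)
-/

set_option autoImplicit false

namespace Pool.Agent.S3

namespace P3

def q_w1 : Prm := ⟨4241523419, 1007341630, 824537084, 1228032082, 946073922, 0, 0, 0⟩

theorem pr_w1 : PR q_w1 ((1241 / 100) / Real.pi) (11727 / 12500) (76791 / 100000) (571847 / 500000) (8811 / 10000) (0) 0 := by
  apply pr_mk <;> norm_num [q_w1]

theorem pg_w1 : Pg (1 / 2) (11727 / 12500) (11727 / 12500) (76791 / 100000) (571847 / 500000) (8811 / 10000) (0) := by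
  constructor <;> norm_num

theorem bb_w1a0 : bb false q_w1 38 0 317022273 751619276 1020054734 0 268435456 = true := by
  decide +kernel

theorem bb_w1a1 : bb false q_w1 37 0 317022273 751619276 1020054734 268435456 402653184 = true := by
  decide +kernel

theorem bb_w1a2 : bb false q_w1 36 0 158511136 751619276 1020054734 402653184 536870912 = true := by
  decide +kernel

theorem bb_w1a3 : bb false q_w1 35 158511136 317022273 751619276 885837005 402653184 536870912 = true := by
  decide +kernel

theorem bb_w1a4 : bb false q_w1 33 158511136 237766704 885837005 1020054734 402653184 469762048 = true := by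
  decide +kernel

theorem bb_w1a5 : bb false q_w1 32 237766704 317022273 885837005 952945869 402653184 469762048 = true := by
  decide +kernel

theorem bb_w1a6 : bb false q_w1 32 237766704 317022273 952945869 1020054734 402653184 469762048 = true := by
  decide +kernel

theorem bb_w1a7 : bb false q_w1 33 237766704 317022273 885837005 1020054734 402653184 469762048 = true :=
  bb_r rfl rfl rfl bb_w1a5 bb_w1a6

theorem bb_w1a8 : bb false q_w1 34 158511136 317022273 885837005 1020054734 402653184 469762048 = true :=
  bb_k rfl rfl rfl bb_w1a4 bb_w1a7

theorem bb_w1a9 : bb false q_w1 33 158511136 237766704 885837005 1020054734 469762048 536870912 = true := by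
  decide +kernel

theorem bb_w1a10 : bb false q_w1 32 237766704 317022273 885837005 952945869 469762048 536870912 = true := by
  decide +kernel

theorem bb_w1a11 : bb false q_w1 30 237766704 277394488 952945869 1020054734 469762048 503316480 = true := by
  decide +kernel

theorem bb_w1a12 : bb false q_w1 29 277394488 317022273 952945869 986500301 469762048 503316480 = true := by
  decide +kernel

theorem bb_w1a13 : bb false q_w1 28 277394488 317022273 986500301 1020054734 469762048 486539264 = true := by
  decide +kernel

theorem bb_w1a14 : bb false q_w1 28 277394488 317022273 986500301 1020054734 486539264 503316480 = true := by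
  decide +kernel

theorem bb_w1a15 : bb false q_w1 29 277394488 317022273 986500301 1020054734 469762048 503316480 = true :=
  bb_z rfl rfl bb_w1a13 bb_w1a14

theorem bb_w1a16 : bb false q_w1 30 277394488 317022273 952945869 1020054734 469762048 503316480 = true :=
  bb_r rfl rfl rfl bb_w1a12 bb_w1a15

theorem bb_w1a17 : bb false q_w1 31 237766704 317022273 952945869 1020054734 469762048 503316480 = true :=
  bb_k rfl rfl rfl bb_w1a11 bb_w1a16

theorem bb_w1a18 : bb false q_w1 30 237766704 277394488 952945869 1020054734 503316480 536870912 = true := by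
  decide +kernel

theorem bb_w1a19 : bb false q_w1 30 277394488 317022273 952945869 1020054734 503316480 536870912 = true := by
  decide +kernel

theorem bb_w1a20 : bb false q_w1 31 237766704 317022273 952945869 1020054734 503316480 536870912 = true :=
  bb_k rfl rfl rfl bb_w1a18 bb_w1a19

theorem bb_w1a21 : bb false q_w1 32 237766704 317022273 952945869 1020054734 469762048 536870912 = true :=
  bb_z rfl rfl bb_w1a17 bb_w1a20

theorem bb_w1a22 : bb false q_w1 33 237766704 317022273 885837005 1020054734 469762048 536870912 = true :=
  bb_r rfl rfl rfl bb_w1a10 bb_w1a21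

theorem bb_w1a23 : bb false q_w1 34 158511136 317022273 885837005 1020054734 469762048 536870912 = true :=
  bb_k rfl rfl rfl bb_w1a9 bb_w1a22

theorem bb_w1a24 : bb false q_w1 35 158511136 317022273 885837005 1020054734 402653184 536870912 = true :=
  bb_z rfl rfl bb_w1a8 bb_w1a23

theorem bb_w1a25 : bb false q_w1 36 158511136 317022273 751619276 1020054734 402653184 536870912 = true :=
  bb_r rfl rfl rfl bb_w1a3 bb_w1a24

theorem bb_w1a26 : bb false q_w1 37 0 317022273 751619276 1020054734 402653184 536870912 = true :=
  bb_k rfl rfl rfl bb_w1a2 bb_w1a25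

theorem bb_w1a27 : bb false q_w1 38 0 317022273 751619276 1020054734 268435456 536870912 = true :=
  bb_z rfl rfl bb_w1a1 bb_w1a26

theorem bb_w1a28 : bb false q_w1 39 0 317022273 751619276 1020054734 0 536870912 = true :=
  bb_z rfl rfl bb_w1a0 bb_w1a27

theorem bb_w1a29 : bb false q_w1 36 0 158511136 751619276 1020054734 536870912 671088640 = true := by
  decide +kernel

theorem bb_w1a30 : bb false q_w1 35 158511136 317022273 751619276 885837005 536870912 671088640 = true := by
  decide +kernel

theorem bb_w1a31 : bb false q_w1 35 158511136 317022273 885837005 1020054734 536870912 671088640 = true := by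
  decide +kernel

theorem bb_w1a32 : bb false q_w1 36 158511136 317022273 751619276 1020054734 536870912 671088640 = true :=
  bb_r rfl rfl rfl bb_w1a30 bb_w1a31

theorem bb_w1a33 : bb false q_w1 37 0 317022273 751619276 1020054734 536870912 671088640 = true :=
  bb_k rfl rfl rfl bb_w1a29 bb_w1a32

theorem bb_w1a34 : bb false q_w1 37 0 317022273 751619276 1020054734 671088640 805306368 = true := by
  decide +kernel

theorem bb_w1a35 : bb false q_w1 38 0 317022273 751619276 1020054734 536870912 805306368 = true :=
  bb_z rfl rfl bb_w1a33 bb_w1a34

theorem bb_w1a36 : bb false q_w1 38 0 317022273 751619276 1020054734 805306368 1073741824 = true := by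
  decide +kernel

theorem bb_w1a37 : bb false q_w1 39 0 317022273 751619276 1020054734 536870912 1073741824 = true :=
  bb_z rfl rfl bb_w1a35 bb_w1a36

theorem bb_w1a : bb false q_w1 40 0 317022273 751619276 1020054734 0 1073741824 = true :=
  bb_z rfl rfl bb_w1a28 bb_w1a37


theorem w1a : P3a (62 / 5) (1 / 2) (2 / 25) (4 / 25) :=
  a_of pr_w1 pg_w1 bb_w1a (by norm_num) (by norm_num) (by norm_num) cu_2_25 cl_4_25

theorem bb_w1b : bb true q_w1 40 0 317022273 0 751619277 0 1073741824 = true := by
  decide +kernel


theorem w1b : P3b (62 / 5) (1 / 2) (2 / 25) (4 / 25) :=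
  b_of pr_w1 pg_w1 bb_w1b (by norm_num) (by norm_num) (by norm_num) cu_2_25 cl_4_25

end P3

end Pool.Agent.S3
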