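import Pool.Agent.S3.W2.P3L
import Pool.Agent.S3.W2.P3M

/-!
# Phase 3 of the slide: certificates (2 | a ≥ 3, `7/25 ≤ Re w`)
-/

set_option autoImplicit false

namespace Pool.Agent.S3

namespace P3

def q_w5 : Prm := ⟨4275701690, 436282778, 370956325, 436283852, 0, 123158188, 123158187, 0⟩

theorem pr_w5 : PR q_w5 ((1251 / 100) / Real.pi) (5079 / 12500) (8637 / 25000) (406321 / 1000000) (0) (1147 / 10000) 0 := by
  apply pr_mk <;> norm_num [q_w5]

theorem pg_w5 : Pg (3 / 5) (5079 / 12500) (5079 / 12500) (8637 / 25000) (406321 / 1000000) (0) (1147 / 10000) := by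
  constructor <;> norm_num

theorem bb_w5a0 : bb false q_w5 39 0 317022273 751619276 1020054734 0 536870912 = true := by
  decide +kernel

theorem bb_w5a1 : bb false q_w5 37 0 317022273 751619276 1020054734 536870912 671088640 = true := by
  decide +kernel

theorem bb_w5a2 : bb false q_w5 36 0 158511136 751619276 1020054734 671088640 805306368 = true := by
  decide +kernel

theorem bb_w5a3 : bb false q_w5 36 158511136 317022273 751619276 1020054734 671088640 805306368 = true := by
  decide +kernel

theorem bb_w5a4 : bb false q_w5 37 0 317022273 751619276 1020054734 671088640 805306368 = true :=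
  bb_k rfl rfl rfl bb_w5a2 bb_w5a3

theorem bb_w5a5 : bb false q_w5 38 0 317022273 751619276 1020054734 536870912 805306368 = true :=
  bb_z rfl rfl bb_w5a1 bb_w5a4

theorem bb_w5a6 : bb false q_w5 38 0 317022273 751619276 1020054734 805306368 1073741824 = true := by
  decide +kernel

theorem bb_w5a7 : bb false q_w5 39 0 317022273 751619276 1020054734 536870912 1073741824 = true :=
  bb_z rfl rfl bb_w5a5 bb_w5a6

theorem bb_w5a : bb false q_w5 40 0 317022273 751619276 1020054734 0 1073741824 = true :=
  bb_z rfl rfl bb_w5a0 bb_w5a7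


theorem w5a : P3a (25 / 2) (3 / 5) (7 / 25) (3 / 10) :=
  a_of pr_w5 pg_w5 bb_w5a (by norm_num) (by norm_num) (by norm_num) cu_7_25 cl_3_10

theorem bb_w5b0 : bb true q_w5 39 0 317022273 0 751619277 0 536870912 = true := by
  decide +kernel

theorem bb_w5b1 : bb true q_w5 38 0 317022273 0 751619277 536870912 805306368 = true := by
  decide +kernel

theorem bb_w5b2 : bb true q_w5 38 0 317022273 0 751619277 805306368 1073741824 = true := by
  decide +kernel

theorem bb_w5b3 : bb true q_w5 39 0 317022273 0 751619277 536870912 1073741824 = true :=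
  bb_z rfl rfl bb_w5b1 bb_w5b2

theorem bb_w5b : bb true q_w5 40 0 317022273 0 751619277 0 1073741824 = true :=
  bb_z rfl rfl bb_w5b0 bb_w5b3


theorem w5b : P3b (25 / 2) (3 / 5) (7 / 25) (3 / 10) :=
  b_of pr_w5 pg_w5 bb_w5b (by norm_num) (by norm_num) (by norm_num) cu_7_25 cl_3_10

def q_w6 : Prm := ⟨3181997021, 436282778, 293131517, 436283852, 0, 171691318, 171691317, 0⟩

theorem pr_w6 : PR q_w6 ((931 / 100) / Real.pi) (5079 / 12500) (273 / 1000) (406321 / 1000000) (0) (1599 / 10000) 0 := by
  apply pr_mk <;> norm_num [q_w6]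

theorem pg_w6 : Pg (3 / 5) (5079 / 12500) (5079 / 12500) (273 / 1000) (406321 / 1000000) (0) (1599 / 10000) := by
  constructor <;> norm_num

theorem bb_w6a : bb false q_w6 40 0 317022273 751619276 1020054734 0 1073741824 = true := by
  decide +kernel


theorem w6a : P3a (93 / 10) (3 / 5) (7 / 25) (13 / 40) :=
  a_of pr_w6 pg_w6 bb_w6a (by norm_num) (by norm_num) (by norm_num) cu_7_25 cl_13_40

theorem bb_w6b0 : bb true q_w6 39 0 317022273 0 751619277 0 536870912 = true := by
  decide +kernel

theorem bb_w6b1 : bb true q_w6 38 0 317022273 0 751619277 536870912 805306368 = true := by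
  decide +kernel

theorem bb_w6b2 : bb true q_w6 38 0 317022273 0 751619277 805306368 1073741824 = true := by
  decide +kernel

theorem bb_w6b3 : bb true q_w6 39 0 317022273 0 751619277 536870912 1073741824 = true :=
  bb_z rfl rfl bb_w6b1 bb_w6b2

theorem bb_w6b : bb true q_w6 40 0 317022273 0 751619277 0 1073741824 = true :=
  bb_z rfl rfl bb_w6b0 bb_w6b3


theorem w6b : P3b (93 / 10) (3 / 5) (7 / 25) (13 / 40) :=
  b_of pr_w6 pg_w6 bb_w6b (by norm_num) (by norm_num) (by norm_num) cu_7_25 cl_13_40

end P3

end Pool.Agent.S3
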