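import Pool.Agent.H63.GO.MTaylor
import Pool.Agent.H63.VC.Asym
import Pool.Agent.H63.VC.EndB
import Pool.Agent.H63.VC.Riem
import Pool.Agent.H63.VC.SlowL
import Pool.Agent.H63.VC.SlowU
import Pool.Agent.H63.VC3.CritB
import Pool.Agent.H63.VC3.Upper
import Pool.Agent.H63.VC4.GaussN
import Pool.Agent.H63.VC4.KBN
import Pool.Agent.H63.VC4.LaplaceN
import Pool.Agent.H63.VC4.UpperN
import Pool.Agent.H63.VC5.Defs
import Pool.Agent.H63.VC6.LocU
import Pool.Agent.H63.VC6.SlotU
import Pool.Agent.H63.VC7.Link
import Pool.Agent.S3.Asm.Def
import Pool.Agent.S3.FlatT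
import Pool.Agent.S3.LX6
import Pool.Agent.S3.W2.P3L
import Pool.Agent.S3.W2.P3M
import Pool.Agent.S3.W2.PhiB

/-!
# Phase 3 of the slide: certificates (2 | 2, `Re w ≤ 3/25`)
-/

set_option autoImplicit false

namespace Pool.Agent.S3

namespace P3

def q_x0 : Prm := ⟨2669322958, 1943473776, 1007330892, 1943473776, 0, 0, 0, 0⟩

theorem pr_x0 : PR q_x0 ((781 / 100) / Real.pi) (1810001 / 1000000) (18763 / 20000) (1810001 / 1000000) (0) (0) 0 := by
  apply pr_mk <;> norm_num [q_x0]

theorem pg_x0 : Pg (9 / 10) (1) (1810001 / 1000000) (18763 / 20000) (1810001 / 1000000) (0) (0) := by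
  constructor <;> norm_num

theorem bb_x0a0 : bb false q_x0 37 0 317022273 751619276 1020054734 0 134217728 = true := by
  decide +kernel

theorem bb_x0a1 : bb false q_x0 36 0 158511136 751619276 1020054734 134217728 268435456 = true := by
  decide +kernel

theorem bb_x0a2 : bb false q_x0 35 158511136 317022273 751619276 885837005 134217728 268435456 = true := by
  decide +kernel

theorem bb_x0a3 : bb false q_x0 34 158511136 317022273 885837005 1020054734 134217728 201326592 = true := by
  decide +kernel

theorem bb_x0a4 : bb false q_x0 33 158511136 237766704 885837005 1020054734 201326592 268435456 = true := by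
  decide +kernel

theorem bb_x0a5 : bb false q_x0 33 237766704 317022273 885837005 1020054734 201326592 268435456 = true := by
  decide +kernel

theorem bb_x0a6 : bb false q_x0 34 158511136 317022273 885837005 1020054734 201326592 268435456 = true :=
  bb_k rfl rfl rfl bb_x0a4 bb_x0a5

theorem bb_x0a7 : bb false q_x0 35 158511136 317022273 885837005 1020054734 134217728 268435456 = true :=
  bb_z rfl rfl bb_x0a3 bb_x0a6

theorem bb_x0a8 : bb false q_x0 36 158511136 317022273 751619276 1020054734 134217728 268435456 = true :=
  bb_r rfl rfl rfl bb_x0a2 bb_x0a7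

theorem bb_x0a9 : bb false q_x0 37 0 317022273 751619276 1020054734 134217728 268435456 = true :=
  bb_k rfl rfl rfl bb_x0a1 bb_x0a8

theorem bb_x0a10 : bb false q_x0 38 0 317022273 751619276 1020054734 0 268435456 = true :=
  bb_z rfl rfl bb_x0a0 bb_x0a9

theorem bb_x0a11 : bb false q_x0 38 0 317022273 751619276 1020054734 268435456 536870912 = true := by
  decide +kernel

theorem bb_x0a12 : bb false q_x0 39 0 317022273 751619276 1020054734 0 536870912 = true :=
  bb_z rfl rfl bb_x0a10 bb_x0a11

theorem bb_x0a13 : bb false q_x0 39 0 317022273 751619276 1020054734 536870912 1073741824 = true := by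
  decide +kernel

theorem bb_x0a : bb false q_x0 40 0 317022273 751619276 1020054734 0 1073741824 = true :=
  bb_z rfl rfl bb_x0a12 bb_x0a13


theorem x0a : P3a (39 / 5) (9 / 10) (0) (2 / 25) :=
  a_of pr_x0 pg_x0 bb_x0a (by norm_num) (by norm_num) (by norm_num) cs_0 cl_2_25

theorem bb_x0b : bb true q_x0 40 0 317022273 0 751619277 0 1073741824 = true := by
  decide +kernel


theorem x0b : P3b (39 / 5) (9 / 10) (0) (2 / 25) :=
  b_of pr_x0 pg_x0 bb_x0b (by norm_num) (by norm_num) (by norm_num) cs_0 cl_2_25

def q_x1 : Prm := ⟨4173166877, 1007341630, 928228332, 1722373154, 1702847159, 0, 0, 0⟩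

theorem pr_x1 : PR q_x1 ((1221 / 100) / Real.pi) (11727 / 12500) (5403 / 6250) (320817 / 200000) (15859 / 10000) (0) 0 := by
  apply pr_mk <;> norm_num [q_x1]

theorem pg_x1 : Pg (9 / 10) (11727 / 12500) (11727 / 12500) (5403 / 6250) (320817 / 200000) (15859 / 10000) (0) := by
  constructor <;> norm_num

theorem bb_x1a0 : bb false q_x1 38 0 317022273 751619276 1020054734 0 268435456 = true := by
  decide +kernel

theorem bb_x1a1 : bb false q_x1 36 0 158511136 751619276 1020054734 268435456 402653184 = true := by
  decide +kernel

theorem bb_x1a2 : bb false q_x1 35 158511136 317022273 751619276 885837005 268435456 402653184 = true := by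
  decide +kernel

theorem bb_x1a3 : bb false q_x1 34 158511136 317022273 885837005 1020054734 268435456 335544320 = true := by
  decide +kernel

theorem bb_x1a4 : bb false q_x1 33 158511136 237766704 885837005 1020054734 335544320 402653184 = true := by
  decide +kernel

theorem bb_x1a5 : bb false q_x1 32 237766704 317022273 885837005 952945869 335544320 402653184 = true := by
  decide +kernel

theorem bb_x1a6 : bb false q_x1 31 237766704 317022273 952945869 1020054734 335544320 369098752 = true := by
  decide +kernel

theorem bb_x1a7 : bb false q_x1 31 237766704 317022273 952945869 1020054734 369098752 402653184 = true := by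
  decide +kernel

theorem bb_x1a8 : bb false q_x1 32 237766704 317022273 952945869 1020054734 335544320 402653184 = true :=
  bb_z rfl rfl bb_x1a6 bb_x1a7

theorem bb_x1a9 : bb false q_x1 33 237766704 317022273 885837005 1020054734 335544320 402653184 = true :=
  bb_r rfl rfl rfl bb_x1a5 bb_x1a8

theorem bb_x1a10 : bb false q_x1 34 158511136 317022273 885837005 1020054734 335544320 402653184 = true :=
  bb_k rfl rfl rfl bb_x1a4 bb_x1a9

theorem bb_x1a11 : bb false q_x1 35 158511136 317022273 885837005 1020054734 268435456 402653184 = true :=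
  bb_z rfl rfl bb_x1a3 bb_x1a10

theorem bb_x1a12 : bb false q_x1 36 158511136 317022273 751619276 1020054734 268435456 402653184 = true :=
  bb_r rfl rfl rfl bb_x1a2 bb_x1a11

theorem bb_x1a13 : bb false q_x1 37 0 317022273 751619276 1020054734 268435456 402653184 = true :=
  bb_k rfl rfl rfl bb_x1a1 bb_x1a12

theorem bb_x1a14 : bb false q_x1 36 0 158511136 751619276 1020054734 402653184 536870912 = true := by
  decide +kernel

theorem bb_x1a15 : bb false q_x1 35 158511136 317022273 751619276 885837005 402653184 536870912 = true := by
  decide +kernel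

theorem bb_x1a16 : bb false q_x1 33 158511136 237766704 885837005 1020054734 402653184 469762048 = true := by
  decide +kernel

theorem bb_x1a17 : bb false q_x1 32 237766704 317022273 885837005 952945869 402653184 469762048 = true := by
  decide +kernel

theorem bb_x1a18 : bb false q_x1 31 237766704 317022273 952945869 1020054734 402653184 436207616 = true := by
  decide +kernel

theorem bb_x1a19 : bb false q_x1 30 237766704 277394488 952945869 1020054734 436207616 469762048 = true := by
  decide +kernel

theorem bb_x1a20 : bb false q_x1 30 277394488 317022273 952945869 1020054734 436207616 469762048 = true := by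
  decide +kernel

theorem bb_x1a21 : bb false q_x1 31 237766704 317022273 952945869 1020054734 436207616 469762048 = true :=
  bb_k rfl rfl rfl bb_x1a19 bb_x1a20

theorem bb_x1a22 : bb false q_x1 32 237766704 317022273 952945869 1020054734 402653184 469762048 = true :=
  bb_z rfl rfl bb_x1a18 bb_x1a21

theorem bb_x1a23 : bb false q_x1 33 237766704 317022273 885837005 1020054734 402653184 469762048 = true :=
  bb_r rfl rfl rfl bb_x1a17 bb_x1a22

theorem bb_x1a24 : bb false q_x1 34 158511136 317022273 885837005 1020054734 402653184 469762048 = true :=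
  bb_k rfl rfl rfl bb_x1a16 bb_x1a23

theorem bb_x1a25 : bb false q_x1 33 158511136 237766704 885837005 1020054734 469762048 536870912 = true := by
  decide +kernel

theorem bb_x1a26 : bb false q_x1 32 237766704 317022273 885837005 952945869 469762048 536870912 = true := by
  decide +kernel

theorem bb_x1a27 : bb false q_x1 30 237766704 277394488 952945869 1020054734 469762048 503316480 = true := by
  decide +kernel

theorem bb_x1a28 : bb false q_x1 29 277394488 317022273 952945869 986500301 469762048 503316480 = true := by
  decide +kernel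

theorem bb_x1a29 : bb false q_x1 29 277394488 317022273 986500301 1020054734 469762048 503316480 = true := by
  decide +kernel

theorem bb_x1a30 : bb false q_x1 30 277394488 317022273 952945869 1020054734 469762048 503316480 = true :=
  bb_r rfl rfl rfl bb_x1a28 bb_x1a29

theorem bb_x1a31 : bb false q_x1 31 237766704 317022273 952945869 1020054734 469762048 503316480 = true :=
  bb_k rfl rfl rfl bb_x1a27 bb_x1a30

theorem bb_x1a32 : bb false q_x1 31 237766704 317022273 952945869 1020054734 503316480 536870912 = true := by
  decide +kernel

theorem bb_x1a33 : bb false q_x1 32 237766704 317022273 952945869 1020054734 469762048 536870912 = true :=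
  bb_z rfl rfl bb_x1a31 bb_x1a32

theorem bb_x1a34 : bb false q_x1 33 237766704 317022273 885837005 1020054734 469762048 536870912 = true :=
  bb_r rfl rfl rfl bb_x1a26 bb_x1a33

theorem bb_x1a35 : bb false q_x1 34 158511136 317022273 885837005 1020054734 469762048 536870912 = true :=
  bb_k rfl rfl rfl bb_x1a25 bb_x1a34

theorem bb_x1a36 : bb false q_x1 35 158511136 317022273 885837005 1020054734 402653184 536870912 = true :=
  bb_z rfl rfl bb_x1a24 bb_x1a35

theorem bb_x1a37 : bb false q_x1 36 158511136 317022273 751619276 1020054734 402653184 536870912 = true :=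
  bb_r rfl rfl rfl bb_x1a15 bb_x1a36

theorem bb_x1a38 : bb false q_x1 37 0 317022273 751619276 1020054734 402653184 536870912 = true :=
  bb_k rfl rfl rfl bb_x1a14 bb_x1a37

theorem bb_x1a39 : bb false q_x1 38 0 317022273 751619276 1020054734 268435456 536870912 = true :=
  bb_z rfl rfl bb_x1a13 bb_x1a38

theorem bb_x1a40 : bb false q_x1 39 0 317022273 751619276 1020054734 0 536870912 = true :=
  bb_z rfl rfl bb_x1a0 bb_x1a39

theorem bb_x1a41 : bb false q_x1 37 0 317022273 751619276 1020054734 536870912 671088640 = true := by
  decide +kernel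

theorem bb_x1a42 : bb false q_x1 37 0 317022273 751619276 1020054734 671088640 805306368 = true := by
  decide +kernel

theorem bb_x1a43 : bb false q_x1 38 0 317022273 751619276 1020054734 536870912 805306368 = true :=
  bb_z rfl rfl bb_x1a41 bb_x1a42

theorem bb_x1a44 : bb false q_x1 38 0 317022273 751619276 1020054734 805306368 1073741824 = true := by
  decide +kernel

theorem bb_x1a45 : bb false q_x1 39 0 317022273 751619276 1020054734 536870912 1073741824 = true :=
  bb_z rfl rfl bb_x1a43 bb_x1a44

theorem bb_x1a : bb false q_x1 40 0 317022273 751619276 1020054734 0 1073741824 = true :=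
  bb_z rfl rfl bb_x1a40 bb_x1a45


theorem x1a : P3a (61 / 5) (9 / 10) (2 / 25) (3 / 25) :=
  a_of pr_x1 pg_x1 bb_x1a (by norm_num) (by norm_num) (by norm_num) cu_2_25 cl_3_25

theorem bb_x1b : bb true q_x1 40 0 317022273 0 751619277 0 1073741824 = true := by
  decide +kernel


theorem x1b : P3b (61 / 5) (9 / 10) (2 / 25) (3 / 25) :=
  b_of pr_x1 pg_x1 bb_x1b (by norm_num) (by norm_num) (by norm_num) cu_2_25 cl_3_25

end P3

end Pool.Agent.S3
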