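import Pool.Agent.H63.GO.MTaylor
import Pool.Agent.H63.VC.Asym
import Pool.Agent.H63.VC.EndB
import Pool.Agent.H63.VC.Riem
import Pool.Agent.H63.VC.SlowL
import Pool.Agent.H63.VC.SlowU
import Pool.Agent.H63.VC3.CritB
import Pool.Agent.H63.VC3.Upper
import Pool.Agent.H63.VC4.GaussN
import Pool.Agent.H63.VC4.KBN
import Pool.Agent.H63.VC4.LaplaceN
import Pool.Agent.H63.VC4.UpperN
import Pool.Agent.H63.VC5.Defs
import Pool.Agent.H63.VC6.LocU
import Pool.Agent.H63.VC6.SlotU
import Pool.Agent.H63.VC7.Link
import Pool.Agent.S3.Asm.Def
import Pool.Agent.S3.FlatT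
import Pool.Agent.S3.LX6
import Pool.Agent.S3.W2.P3L
import Pool.Agent.S3.W2.P3M
import Pool.Agent.S3.W2.PhiB

/-!
# Phase 3 of the slide: certificates (2 | 2, `3/25 ≤ Re w ≤ 4/25`)
-/

set_option autoImplicit false

namespace Pool.Agent.S3

namespace P3

def q_x2 : Prm := ⟨4446593044, 928239070, 824537084, 1476341321, 957026088, 0, 0, 0⟩

theorem pr_x2 : PR q_x2 ((1301 / 100) / Real.pi) (86449 / 100000) (76791 / 100000) (27499 / 20000) (8913 / 10000) (0) 0 := by
  apply pr_mk <;> norm_num [q_x2]

theorem pg_x2 : Pg (9 / 10) (86449 / 100000) (86449 / 100000) (76791 / 100000) (27499 / 20000) (8913 / 10000) (0) := by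
  constructor <;> norm_num

theorem bb_x2a0 : bb false q_x2 38 0 317022273 751619276 1020054734 0 268435456 = true := by
  decide +kernel

theorem bb_x2a1 : bb false q_x2 37 0 317022273 751619276 1020054734 268435456 402653184 = true := by
  decide +kernel

theorem bb_x2a2 : bb false q_x2 36 0 158511136 751619276 1020054734 402653184 536870912 = true := by
  decide +kernel

theorem bb_x2a3 : bb false q_x2 35 158511136 317022273 751619276 885837005 402653184 536870912 = true := by
  decide +kernel

theorem bb_x2a4 : bb false q_x2 33 158511136 237766704 885837005 1020054734 402653184 469762048 = true := by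
  decide +kernel

theorem bb_x2a5 : bb false q_x2 33 237766704 317022273 885837005 1020054734 402653184 469762048 = true := by
  decide +kernel

theorem bb_x2a6 : bb false q_x2 34 158511136 317022273 885837005 1020054734 402653184 469762048 = true :=
  bb_k rfl rfl rfl bb_x2a4 bb_x2a5

theorem bb_x2a7 : bb false q_x2 33 158511136 237766704 885837005 1020054734 469762048 536870912 = true := by
  decide +kernel

theorem bb_x2a8 : bb false q_x2 31 237766704 317022273 885837005 952945869 469762048 503316480 = true := by
  decide +kernel

theorem bb_x2a9 : bb false q_x2 31 237766704 317022273 885837005 952945869 503316480 536870912 = true := by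
  decide +kernel

theorem bb_x2a10 : bb false q_x2 32 237766704 317022273 885837005 952945869 469762048 536870912 = true :=
  bb_z rfl rfl bb_x2a8 bb_x2a9

theorem bb_x2a11 : bb false q_x2 30 237766704 277394488 952945869 1020054734 469762048 503316480 = true := by
  decide +kernel

theorem bb_x2a12 : bb false q_x2 30 277394488 317022273 952945869 1020054734 469762048 503316480 = true := by
  decide +kernel

theorem bb_x2a13 : bb false q_x2 31 237766704 317022273 952945869 1020054734 469762048 503316480 = true :=
  bb_k rfl rfl rfl bb_x2a11 bb_x2a12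

theorem bb_x2a14 : bb false q_x2 30 237766704 277394488 952945869 1020054734 503316480 536870912 = true := by
  decide +kernel

theorem bb_x2a15 : bb false q_x2 29 277394488 317022273 952945869 986500301 503316480 536870912 = true := by
  decide +kernel

theorem bb_x2a16 : bb false q_x2 28 277394488 317022273 986500301 1020054734 503316480 520093696 = true := by
  decide +kernel

theorem bb_x2a17 : bb false q_x2 27 277394488 297208380 986500301 1020054734 520093696 536870912 = true := by
  decide +kernel

theorem bb_x2a18 : bb false q_x2 27 297208380 317022273 986500301 1020054734 520093696 536870912 = true := by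
  decide +kernel

theorem bb_x2a19 : bb false q_x2 28 277394488 317022273 986500301 1020054734 520093696 536870912 = true :=
  bb_k rfl rfl rfl bb_x2a17 bb_x2a18

theorem bb_x2a20 : bb false q_x2 29 277394488 317022273 986500301 1020054734 503316480 536870912 = true :=
  bb_z rfl rfl bb_x2a16 bb_x2a19

theorem bb_x2a21 : bb false q_x2 30 277394488 317022273 952945869 1020054734 503316480 536870912 = true :=
  bb_r rfl rfl rfl bb_x2a15 bb_x2a20

theorem bb_x2a22 : bb false q_x2 31 237766704 317022273 952945869 1020054734 503316480 536870912 = true :=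
  bb_k rfl rfl rfl bb_x2a14 bb_x2a21

theorem bb_x2a23 : bb false q_x2 32 237766704 317022273 952945869 1020054734 469762048 536870912 = true :=
  bb_z rfl rfl bb_x2a13 bb_x2a22

theorem bb_x2a24 : bb false q_x2 33 237766704 317022273 885837005 1020054734 469762048 536870912 = true :=
  bb_r rfl rfl rfl bb_x2a10 bb_x2a23

theorem bb_x2a25 : bb false q_x2 34 158511136 317022273 885837005 1020054734 469762048 536870912 = true :=
  bb_k rfl rfl rfl bb_x2a7 bb_x2a24

theorem bb_x2a26 : bb false q_x2 35 158511136 317022273 885837005 1020054734 402653184 536870912 = true :=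
  bb_z rfl rfl bb_x2a6 bb_x2a25

theorem bb_x2a27 : bb false q_x2 36 158511136 317022273 751619276 1020054734 402653184 536870912 = true :=
  bb_r rfl rfl rfl bb_x2a3 bb_x2a26

theorem bb_x2a28 : bb false q_x2 37 0 317022273 751619276 1020054734 402653184 536870912 = true :=
  bb_k rfl rfl rfl bb_x2a2 bb_x2a27

theorem bb_x2a29 : bb false q_x2 38 0 317022273 751619276 1020054734 268435456 536870912 = true :=
  bb_z rfl rfl bb_x2a1 bb_x2a28

theorem bb_x2a30 : bb false q_x2 39 0 317022273 751619276 1020054734 0 536870912 = true :=
  bb_z rfl rfl bb_x2a0 bb_x2a29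

theorem bb_x2a31 : bb false q_x2 36 0 158511136 751619276 1020054734 536870912 671088640 = true := by
  decide +kernel

theorem bb_x2a32 : bb false q_x2 35 158511136 317022273 751619276 885837005 536870912 671088640 = true := by
  decide +kernel

theorem bb_x2a33 : bb false q_x2 33 158511136 237766704 885837005 1020054734 536870912 603979776 = true := by
  decide +kernel

theorem bb_x2a34 : bb false q_x2 32 237766704 317022273 885837005 952945869 536870912 603979776 = true := by
  decide +kernel

theorem bb_x2a35 : bb false q_x2 31 237766704 317022273 952945869 1020054734 536870912 570425344 = true := by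
  decide +kernel

theorem bb_x2a36 : bb false q_x2 31 237766704 317022273 952945869 1020054734 570425344 603979776 = true := by
  decide +kernel

theorem bb_x2a37 : bb false q_x2 32 237766704 317022273 952945869 1020054734 536870912 603979776 = true :=
  bb_z rfl rfl bb_x2a35 bb_x2a36

theorem bb_x2a38 : bb false q_x2 33 237766704 317022273 885837005 1020054734 536870912 603979776 = true :=
  bb_r rfl rfl rfl bb_x2a34 bb_x2a37

theorem bb_x2a39 : bb false q_x2 34 158511136 317022273 885837005 1020054734 536870912 603979776 = true :=
  bb_k rfl rfl rfl bb_x2a33 bb_x2a38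

theorem bb_x2a40 : bb false q_x2 34 158511136 317022273 885837005 1020054734 603979776 671088640 = true := by
  decide +kernel

theorem bb_x2a41 : bb false q_x2 35 158511136 317022273 885837005 1020054734 536870912 671088640 = true :=
  bb_z rfl rfl bb_x2a39 bb_x2a40

theorem bb_x2a42 : bb false q_x2 36 158511136 317022273 751619276 1020054734 536870912 671088640 = true :=
  bb_r rfl rfl rfl bb_x2a32 bb_x2a41

theorem bb_x2a43 : bb false q_x2 37 0 317022273 751619276 1020054734 536870912 671088640 = true :=
  bb_k rfl rfl rfl bb_x2a31 bb_x2a42

theorem bb_x2a44 : bb false q_x2 36 0 158511136 751619276 1020054734 671088640 805306368 = true := by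
  decide +kernel

theorem bb_x2a45 : bb false q_x2 36 158511136 317022273 751619276 1020054734 671088640 805306368 = true := by
  decide +kernel

theorem bb_x2a46 : bb false q_x2 37 0 317022273 751619276 1020054734 671088640 805306368 = true :=
  bb_k rfl rfl rfl bb_x2a44 bb_x2a45

theorem bb_x2a47 : bb false q_x2 38 0 317022273 751619276 1020054734 536870912 805306368 = true :=
  bb_z rfl rfl bb_x2a43 bb_x2a46

theorem bb_x2a48 : bb false q_x2 38 0 317022273 751619276 1020054734 805306368 1073741824 = true := by
  decide +kernel

theorem bb_x2a49 : bb false q_x2 39 0 317022273 751619276 1020054734 536870912 1073741824 = true :=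
  bb_z rfl rfl bb_x2a47 bb_x2a48

theorem bb_x2a : bb false q_x2 40 0 317022273 751619276 1020054734 0 1073741824 = true :=
  bb_z rfl rfl bb_x2a30 bb_x2a49


theorem x2a : P3a (13) (9 / 10) (3 / 25) (4 / 25) :=
  a_of pr_x2 pg_x2 bb_x2a (by norm_num) (by norm_num) (by norm_num) cu_3_25 cl_4_25

theorem bb_x2b : bb true q_x2 40 0 317022273 0 751619277 0 1073741824 = true := by
  decide +kernel


theorem x2b : P3b (13) (9 / 10) (3 / 25) (4 / 25) :=
  b_of pr_x2 pg_x2 bb_x2b (by norm_num) (by norm_num) (by norm_num) cu_3_25 cl_4_25

end P3

end Pool.Agent.S3
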