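import Pool.Agent.S3.W2.P3L
import Pool.Agent.S3.W2.P3M

/-!
# Phase 3 of the slide: certificates (`4/25 ≤ Re w ≤ 1/5`)
-/

set_option autoImplicit false

namespace Pool.Agent.S3

namespace P3

def q_x3 : Prm := ⟨4651662670, 824547822, 702764023, 1182428119, 537622532, 0, 0, 0⟩

theorem pr_x3 : PR q_x3 ((1361 / 100) / Real.pi) (9599 / 12500) (1309 / 2000) (550611 / 500000) (5007 / 10000) (0) 0 := by
  apply pr_mk <;> norm_num [q_x3]

theorem pg_x3 : Pg (9 / 10) (9599 / 12500) (9599 / 12500) (1309 / 2000) (550611 / 500000) (5007 / 10000) (0) := by
  constructor <;> norm_num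

theorem bb_x3a0 : bb false q_x3 38 0 317022273 751619276 1020054734 0 268435456 = true := by
  decide +kernel

theorem bb_x3a1 : bb false q_x3 37 0 317022273 751619276 1020054734 268435456 402653184 = true := by
  decide +kernel

theorem bb_x3a2 : bb false q_x3 36 0 158511136 751619276 1020054734 402653184 536870912 = true := by
  decide +kernel

theorem bb_x3a3 : bb false q_x3 35 158511136 317022273 751619276 885837005 402653184 536870912 = true := by
  decide +kernel

theorem bb_x3a4 : bb false q_x3 34 158511136 317022273 885837005 1020054734 402653184 469762048 = true := by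
  decide +kernel

theorem bb_x3a5 : bb false q_x3 33 158511136 237766704 885837005 1020054734 469762048 536870912 = true := by
  decide +kernel

theorem bb_x3a6 : bb false q_x3 32 237766704 317022273 885837005 952945869 469762048 536870912 = true := by
  decide +kernel

theorem bb_x3a7 : bb false q_x3 32 237766704 317022273 952945869 1020054734 469762048 536870912 = true := by
  decide +kernel

theorem bb_x3a8 : bb false q_x3 33 237766704 317022273 885837005 1020054734 469762048 536870912 = true :=
  bb_r rfl rfl rfl bb_x3a6 bb_x3a7

theorem bb_x3a9 : bb false q_x3 34 158511136 317022273 885837005 1020054734 469762048 536870912 = true :=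
  bb_k rfl rfl rfl bb_x3a5 bb_x3a8

theorem bb_x3a10 : bb false q_x3 35 158511136 317022273 885837005 1020054734 402653184 536870912 = true :=
  bb_z rfl rfl bb_x3a4 bb_x3a9

theorem bb_x3a11 : bb false q_x3 36 158511136 317022273 751619276 1020054734 402653184 536870912 = true :=
  bb_r rfl rfl rfl bb_x3a3 bb_x3a10

theorem bb_x3a12 : bb false q_x3 37 0 317022273 751619276 1020054734 402653184 536870912 = true :=
  bb_k rfl rfl rfl bb_x3a2 bb_x3a11

theorem bb_x3a13 : bb false q_x3 38 0 317022273 751619276 1020054734 268435456 536870912 = true :=
  bb_z rfl rfl bb_x3a1 bb_x3a12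

theorem bb_x3a14 : bb false q_x3 39 0 317022273 751619276 1020054734 0 536870912 = true :=
  bb_z rfl rfl bb_x3a0 bb_x3a13

theorem bb_x3a15 : bb false q_x3 36 0 158511136 751619276 1020054734 536870912 671088640 = true := by
  decide +kernel

theorem bb_x3a16 : bb false q_x3 33 158511136 237766704 751619276 885837005 536870912 603979776 = true := by
  decide +kernel

theorem bb_x3a17 : bb false q_x3 32 237766704 317022273 751619276 818728140 536870912 603979776 = true := by
  decide +kernel

theorem bb_x3a18 : bb false q_x3 32 237766704 317022273 818728140 885837005 536870912 603979776 = true := by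
  decide +kernel

theorem bb_x3a19 : bb false q_x3 33 237766704 317022273 751619276 885837005 536870912 603979776 = true :=
  bb_r rfl rfl rfl bb_x3a17 bb_x3a18

theorem bb_x3a20 : bb false q_x3 34 158511136 317022273 751619276 885837005 536870912 603979776 = true :=
  bb_k rfl rfl rfl bb_x3a16 bb_x3a19

theorem bb_x3a21 : bb false q_x3 34 158511136 317022273 751619276 885837005 603979776 671088640 = true := by
  decide +kernel

theorem bb_x3a22 : bb false q_x3 35 158511136 317022273 751619276 885837005 536870912 671088640 = true :=
  bb_z rfl rfl bb_x3a20 bb_x3a21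

theorem bb_x3a23 : bb false q_x3 33 158511136 237766704 885837005 1020054734 536870912 603979776 = true := by
  decide +kernel

theorem bb_x3a24 : bb false q_x3 30 237766704 277394488 885837005 952945869 536870912 570425344 = true := by
  decide +kernel

theorem bb_x3a25 : bb false q_x3 30 277394488 317022273 885837005 952945869 536870912 570425344 = true := by
  decide +kernel

theorem bb_x3a26 : bb false q_x3 31 237766704 317022273 885837005 952945869 536870912 570425344 = true :=
  bb_k rfl rfl rfl bb_x3a24 bb_x3a25

theorem bb_x3a27 : bb false q_x3 31 237766704 317022273 885837005 952945869 570425344 603979776 = true := by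
  decide +kernel

theorem bb_x3a28 : bb false q_x3 32 237766704 317022273 885837005 952945869 536870912 603979776 = true :=
  bb_z rfl rfl bb_x3a26 bb_x3a27

theorem bb_x3a29 : bb false q_x3 30 237766704 277394488 952945869 1020054734 536870912 570425344 = true := by
  decide +kernel

theorem bb_x3a30 : bb false q_x3 29 277394488 317022273 952945869 986500301 536870912 570425344 = true := by
  decide +kernel

theorem bb_x3a31 : bb false q_x3 29 277394488 317022273 986500301 1020054734 536870912 570425344 = true := by
  decide +kernel

theorem bb_x3a32 : bb false q_x3 30 277394488 317022273 952945869 1020054734 536870912 570425344 = true :=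
  bb_r rfl rfl rfl bb_x3a30 bb_x3a31

theorem bb_x3a33 : bb false q_x3 31 237766704 317022273 952945869 1020054734 536870912 570425344 = true :=
  bb_k rfl rfl rfl bb_x3a29 bb_x3a32

theorem bb_x3a34 : bb false q_x3 31 237766704 317022273 952945869 1020054734 570425344 603979776 = true := by
  decide +kernel

theorem bb_x3a35 : bb false q_x3 32 237766704 317022273 952945869 1020054734 536870912 603979776 = true :=
  bb_z rfl rfl bb_x3a33 bb_x3a34

theorem bb_x3a36 : bb false q_x3 33 237766704 317022273 885837005 1020054734 536870912 603979776 = true :=
  bb_r rfl rfl rfl bb_x3a28 bb_x3a35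

theorem bb_x3a37 : bb false q_x3 34 158511136 317022273 885837005 1020054734 536870912 603979776 = true :=
  bb_k rfl rfl rfl bb_x3a23 bb_x3a36

theorem bb_x3a38 : bb false q_x3 34 158511136 317022273 885837005 1020054734 603979776 671088640 = true := by
  decide +kernel

theorem bb_x3a39 : bb false q_x3 35 158511136 317022273 885837005 1020054734 536870912 671088640 = true :=
  bb_z rfl rfl bb_x3a37 bb_x3a38

theorem bb_x3a40 : bb false q_x3 36 158511136 317022273 751619276 1020054734 536870912 671088640 = true :=
  bb_r rfl rfl rfl bb_x3a22 bb_x3a39

theorem bb_x3a41 : bb false q_x3 37 0 317022273 751619276 1020054734 536870912 671088640 = true :=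
  bb_k rfl rfl rfl bb_x3a15 bb_x3a40

theorem bb_x3a42 : bb false q_x3 36 0 158511136 751619276 1020054734 671088640 805306368 = true := by
  decide +kernel

theorem bb_x3a43 : bb false q_x3 35 158511136 317022273 751619276 885837005 671088640 805306368 = true := by
  decide +kernel

theorem bb_x3a44 : bb false q_x3 35 158511136 317022273 885837005 1020054734 671088640 805306368 = true := by
  decide +kernel

theorem bb_x3a45 : bb false q_x3 36 158511136 317022273 751619276 1020054734 671088640 805306368 = true :=
  bb_r rfl rfl rfl bb_x3a43 bb_x3a44

theorem bb_x3a46 : bb false q_x3 37 0 317022273 751619276 1020054734 671088640 805306368 = true :=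
  bb_k rfl rfl rfl bb_x3a42 bb_x3a45

theorem bb_x3a47 : bb false q_x3 38 0 317022273 751619276 1020054734 536870912 805306368 = true :=
  bb_z rfl rfl bb_x3a41 bb_x3a46

theorem bb_x3a48 : bb false q_x3 38 0 317022273 751619276 1020054734 805306368 1073741824 = true := by
  decide +kernel

theorem bb_x3a49 : bb false q_x3 39 0 317022273 751619276 1020054734 536870912 1073741824 = true :=
  bb_z rfl rfl bb_x3a47 bb_x3a48

theorem bb_x3a : bb false q_x3 40 0 317022273 751619276 1020054734 0 1073741824 = true :=
  bb_z rfl rfl bb_x3a14 bb_x3a49


theorem x3a : P3a (68 / 5) (9 / 10) (4 / 25) (1 / 5) :=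
  a_of pr_x3 pg_x3 bb_x3a (by norm_num) (by norm_num) (by norm_num) cu_4_25 cl_1_5

theorem bb_x3b : bb true q_x3 40 0 317022273 0 751619277 0 1073741824 = true := by
  decide +kernel


theorem x3b : P3b (68 / 5) (9 / 10) (4 / 25) (1 / 5) :=
  b_of pr_x3 pg_x3 bb_x3b (by norm_num) (by norm_num) (by norm_num) cu_4_25 cl_1_5

end P3

end Pool.Agent.S3
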