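import Pool.Agent.S3.W2.P3L
import Pool.Agent.S3.W2.P3M

/-!
# Phase 3 of the slide: certificates (`1/5 ≤ Re w ≤ 7/25`)
-/

set_option autoImplicit false

namespace Pool.Agent.S3

namespace P3

def q_x4 : Prm := ⟨4754197482, 702785499, 570575667, 878710581, 254262064, 0, 0, 0⟩

theorem pr_x4 : PR q_x4 ((1391 / 100) / Real.pi) (16363 / 25000) (53139 / 100000) (818363 / 1000000) (148 / 625) (0) 0 := by
  apply pr_mk <;> norm_num [q_x4]

theorem pg_x4 : Pg (9 / 10) (16363 / 25000) (16363 / 25000) (53139 / 100000) (818363 / 1000000) (148 / 625) (0) := by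
  constructor <;> norm_num

theorem bb_x4a0 : bb false q_x4 39 0 317022273 751619276 1020054734 0 536870912 = true := by
  decide +kernel

theorem bb_x4a1 : bb false q_x4 36 0 158511136 751619276 1020054734 536870912 671088640 = true := by
  decide +kernel

theorem bb_x4a2 : bb false q_x4 34 158511136 317022273 751619276 885837005 536870912 603979776 = true := by
  decide +kernel

theorem bb_x4a3 : bb false q_x4 33 158511136 237766704 751619276 885837005 603979776 671088640 = true := by
  decide +kernel

theorem bb_x4a4 : bb false q_x4 32 237766704 317022273 751619276 818728140 603979776 671088640 = true := by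
  decide +kernel

theorem bb_x4a5 : bb false q_x4 32 237766704 317022273 818728140 885837005 603979776 671088640 = true := by
  decide +kernel

theorem bb_x4a6 : bb false q_x4 33 237766704 317022273 751619276 885837005 603979776 671088640 = true :=
  bb_r rfl rfl rfl bb_x4a4 bb_x4a5

theorem bb_x4a7 : bb false q_x4 34 158511136 317022273 751619276 885837005 603979776 671088640 = true :=
  bb_k rfl rfl rfl bb_x4a3 bb_x4a6

theorem bb_x4a8 : bb false q_x4 35 158511136 317022273 751619276 885837005 536870912 671088640 = true :=
  bb_z rfl rfl bb_x4a2 bb_x4a7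

theorem bb_x4a9 : bb false q_x4 33 158511136 237766704 885837005 1020054734 536870912 603979776 = true := by
  decide +kernel

theorem bb_x4a10 : bb false q_x4 33 237766704 317022273 885837005 1020054734 536870912 603979776 = true := by
  decide +kernel

theorem bb_x4a11 : bb false q_x4 34 158511136 317022273 885837005 1020054734 536870912 603979776 = true :=
  bb_k rfl rfl rfl bb_x4a9 bb_x4a10

theorem bb_x4a12 : bb false q_x4 33 158511136 237766704 885837005 1020054734 603979776 671088640 = true := by
  decide +kernel

theorem bb_x4a13 : bb false q_x4 32 237766704 317022273 885837005 952945869 603979776 671088640 = true := by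
  decide +kernel

theorem bb_x4a14 : bb false q_x4 32 237766704 317022273 952945869 1020054734 603979776 671088640 = true := by
  decide +kernel

theorem bb_x4a15 : bb false q_x4 33 237766704 317022273 885837005 1020054734 603979776 671088640 = true :=
  bb_r rfl rfl rfl bb_x4a13 bb_x4a14

theorem bb_x4a16 : bb false q_x4 34 158511136 317022273 885837005 1020054734 603979776 671088640 = true :=
  bb_k rfl rfl rfl bb_x4a12 bb_x4a15

theorem bb_x4a17 : bb false q_x4 35 158511136 317022273 885837005 1020054734 536870912 671088640 = true :=
  bb_z rfl rfl bb_x4a11 bb_x4a16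

theorem bb_x4a18 : bb false q_x4 36 158511136 317022273 751619276 1020054734 536870912 671088640 = true :=
  bb_r rfl rfl rfl bb_x4a8 bb_x4a17

theorem bb_x4a19 : bb false q_x4 37 0 317022273 751619276 1020054734 536870912 671088640 = true :=
  bb_k rfl rfl rfl bb_x4a1 bb_x4a18

theorem bb_x4a20 : bb false q_x4 36 0 158511136 751619276 1020054734 671088640 805306368 = true := by
  decide +kernel

theorem bb_x4a21 : bb false q_x4 33 158511136 237766704 751619276 885837005 671088640 738197504 = true := by
  decide +kernel

theorem bb_x4a22 : bb false q_x4 32 237766704 317022273 751619276 818728140 671088640 738197504 = true := by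
  decide +kernel

theorem bb_x4a23 : bb false q_x4 32 237766704 317022273 818728140 885837005 671088640 738197504 = true := by
  decide +kernel

theorem bb_x4a24 : bb false q_x4 33 237766704 317022273 751619276 885837005 671088640 738197504 = true :=
  bb_r rfl rfl rfl bb_x4a22 bb_x4a23

theorem bb_x4a25 : bb false q_x4 34 158511136 317022273 751619276 885837005 671088640 738197504 = true :=
  bb_k rfl rfl rfl bb_x4a21 bb_x4a24

theorem bb_x4a26 : bb false q_x4 33 158511136 237766704 751619276 885837005 738197504 805306368 = true := by
  decide +kernel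

theorem bb_x4a27 : bb false q_x4 33 237766704 317022273 751619276 885837005 738197504 805306368 = true := by
  decide +kernel

theorem bb_x4a28 : bb false q_x4 34 158511136 317022273 751619276 885837005 738197504 805306368 = true :=
  bb_k rfl rfl rfl bb_x4a26 bb_x4a27

theorem bb_x4a29 : bb false q_x4 35 158511136 317022273 751619276 885837005 671088640 805306368 = true :=
  bb_z rfl rfl bb_x4a25 bb_x4a28

theorem bb_x4a30 : bb false q_x4 34 158511136 317022273 885837005 1020054734 671088640 738197504 = true := by
  decide +kernel

theorem bb_x4a31 : bb false q_x4 34 158511136 317022273 885837005 1020054734 738197504 805306368 = true := by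
  decide +kernel

theorem bb_x4a32 : bb false q_x4 35 158511136 317022273 885837005 1020054734 671088640 805306368 = true :=
  bb_z rfl rfl bb_x4a30 bb_x4a31

theorem bb_x4a33 : bb false q_x4 36 158511136 317022273 751619276 1020054734 671088640 805306368 = true :=
  bb_r rfl rfl rfl bb_x4a29 bb_x4a32

theorem bb_x4a34 : bb false q_x4 37 0 317022273 751619276 1020054734 671088640 805306368 = true :=
  bb_k rfl rfl rfl bb_x4a20 bb_x4a33

theorem bb_x4a35 : bb false q_x4 38 0 317022273 751619276 1020054734 536870912 805306368 = true :=
  bb_z rfl rfl bb_x4a19 bb_x4a34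

theorem bb_x4a36 : bb false q_x4 38 0 317022273 751619276 1020054734 805306368 1073741824 = true := by
  decide +kernel

theorem bb_x4a37 : bb false q_x4 39 0 317022273 751619276 1020054734 536870912 1073741824 = true :=
  bb_z rfl rfl bb_x4a35 bb_x4a36

theorem bb_x4a : bb false q_x4 40 0 317022273 751619276 1020054734 0 1073741824 = true :=
  bb_z rfl rfl bb_x4a0 bb_x4a37


theorem x4a : P3a (139 / 10) (9 / 10) (1 / 5) (6 / 25) :=
  a_of pr_x4 pg_x4 bb_x4a (by norm_num) (by norm_num) (by norm_num) cu_1_5 cl_6_25

theorem bb_x4b : bb true q_x4 40 0 317022273 0 751619277 0 1073741824 = true := by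
  decide +kernel


theorem x4b : P3b (139 / 10) (9 / 10) (1 / 5) (6 / 25) :=
  b_of pr_x4 pg_x4 bb_x4b (by norm_num) (by norm_num) (by norm_num) cu_1_5 cl_6_25

def q_x5 : Prm := ⟨4685840940, 570586406, 436261303, 599612869, 44452912, 117682104, 117682103, 0⟩

theorem pr_x5 : PR q_x5 ((1371 / 100) / Real.pi) (2657 / 5000) (4063 / 10000) (558433 / 1000000) (207 / 5000) (137 / 1250) 0 := by
  apply pr_mk <;> norm_num [q_x5]

theorem pg_x5 : Pg (9 / 10) (2657 / 5000) (2657 / 5000) (4063 / 10000) (558433 / 1000000) (207 / 5000) (137 / 1250) := by
  constructor <;> norm_num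

theorem bb_x5a0 : bb false q_x5 39 0 317022273 751619276 1020054734 0 536870912 = true := by
  decide +kernel

theorem bb_x5a1 : bb false q_x5 36 0 158511136 751619276 1020054734 536870912 671088640 = true := by
  decide +kernel

theorem bb_x5a2 : bb false q_x5 36 158511136 317022273 751619276 1020054734 536870912 671088640 = true := by
  decide +kernel

theorem bb_x5a3 : bb false q_x5 37 0 317022273 751619276 1020054734 536870912 671088640 = true :=
  bb_k rfl rfl rfl bb_x5a1 bb_x5a2

theorem bb_x5a4 : bb false q_x5 36 0 158511136 751619276 1020054734 671088640 805306368 = true := by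
  decide +kernel

theorem bb_x5a5 : bb false q_x5 34 158511136 317022273 751619276 885837005 671088640 738197504 = true := by
  decide +kernel

theorem bb_x5a6 : bb false q_x5 33 158511136 237766704 751619276 885837005 738197504 805306368 = true := by
  decide +kernel

theorem bb_x5a7 : bb false q_x5 31 237766704 317022273 751619276 818728140 738197504 771751936 = true := by
  decide +kernel

theorem bb_x5a8 : bb false q_x5 31 237766704 317022273 751619276 818728140 771751936 805306368 = true := by
  decide +kernel

theorem bb_x5a9 : bb false q_x5 32 237766704 317022273 751619276 818728140 738197504 805306368 = true :=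
  bb_z rfl rfl bb_x5a7 bb_x5a8

theorem bb_x5a10 : bb false q_x5 32 237766704 317022273 818728140 885837005 738197504 805306368 = true := by
  decide +kernel

theorem bb_x5a11 : bb false q_x5 33 237766704 317022273 751619276 885837005 738197504 805306368 = true :=
  bb_r rfl rfl rfl bb_x5a9 bb_x5a10

theorem bb_x5a12 : bb false q_x5 34 158511136 317022273 751619276 885837005 738197504 805306368 = true :=
  bb_k rfl rfl rfl bb_x5a6 bb_x5a11

theorem bb_x5a13 : bb false q_x5 35 158511136 317022273 751619276 885837005 671088640 805306368 = true :=
  bb_z rfl rfl bb_x5a5 bb_x5a12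

theorem bb_x5a14 : bb false q_x5 35 158511136 317022273 885837005 1020054734 671088640 805306368 = true := by
  decide +kernel

theorem bb_x5a15 : bb false q_x5 36 158511136 317022273 751619276 1020054734 671088640 805306368 = true :=
  bb_r rfl rfl rfl bb_x5a13 bb_x5a14

theorem bb_x5a16 : bb false q_x5 37 0 317022273 751619276 1020054734 671088640 805306368 = true :=
  bb_k rfl rfl rfl bb_x5a4 bb_x5a15

theorem bb_x5a17 : bb false q_x5 38 0 317022273 751619276 1020054734 536870912 805306368 = true :=
  bb_z rfl rfl bb_x5a3 bb_x5a16

theorem bb_x5a18 : bb false q_x5 38 0 317022273 751619276 1020054734 805306368 1073741824 = true := by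
  decide +kernel

theorem bb_x5a19 : bb false q_x5 39 0 317022273 751619276 1020054734 536870912 1073741824 = true :=
  bb_z rfl rfl bb_x5a17 bb_x5a18

theorem bb_x5a : bb false q_x5 40 0 317022273 751619276 1020054734 0 1073741824 = true :=
  bb_z rfl rfl bb_x5a0 bb_x5a19


theorem x5a : P3a (137 / 10) (9 / 10) (6 / 25) (7 / 25) :=
  a_of pr_x5 pg_x5 bb_x5a (by norm_num) (by norm_num) (by norm_num) cu_6_25 cl_7_25

theorem bb_x5b : bb true q_x5 40 0 317022273 0 751619277 0 1073741824 = true := by
  decide +kernel


theorem x5b : P3b (137 / 10) (9 / 10) (6 / 25) (7 / 25) :=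
  b_of pr_x5 pg_x5 bb_x5b (by norm_num) (by norm_num) (by norm_num) cu_6_25 cl_7_25

end P3

end Pool.Agent.S3
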