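import Pool.Agent.H63.GO.MTaylor
import Pool.Agent.H63.VC.Asym
import Pool.Agent.H63.VC.EndB
import Pool.Agent.H63.VC.Riem
import Pool.Agent.H63.VC.SlowL
import Pool.Agent.H63.VC.SlowU
import Pool.Agent.H63.VC3.CritB
import Pool.Agent.H63.VC3.Upper
import Pool.Agent.H63.VC4.GaussN
import Pool.Agent.H63.VC4.KBN
import Pool.Agent.H63.VC4.LaplaceN
import Pool.Agent.H63.VC4.UpperN
import Pool.Agent.H63.VC5.Defs
import Pool.Agent.H63.VC6.LocU
import Pool.Agent.H63.VC6.SlotU
import Pool.Agent.H63.VC7.Link
import Pool.Agent.S3.Asm.Def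
import Pool.Agent.S3.FlatT
import Pool.Agent.S3.LX6
import Pool.Agent.S3.W2.P3L
import Pool.Agent.S3.W2.P3M
import Pool.Agent.S3.W2.PhiB

/-!
# Phase 3 of the slide: certificates (2 | 2, `7/25 ≤ Re w`)
-/

set_option autoImplicit false

namespace Pool.Agent.S3

namespace P3

def q_x6 : Prm := ⟨3387066647, 436282778, 308271277, 436283852, 0, 243846769, 243846768, 0⟩

theorem pr_x6 : PR q_x6 ((991 / 100) / Real.pi) (5079 / 12500) (2871 / 10000) (406321 / 1000000) (0) (2271 / 10000) 0 := by
  apply pr_mk <;> norm_num [q_x6]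

theorem pg_x6 : Pg (9 / 10) (5079 / 12500) (5079 / 12500) (2871 / 10000) (406321 / 1000000) (0) (2271 / 10000) := by
  constructor <;> norm_num

theorem bb_x6a : bb false q_x6 40 0 317022273 751619276 1020054734 0 1073741824 = true := by
  decide +kernel


theorem x6a : P3a (99 / 10) (9 / 10) (7 / 25) (8 / 25) :=
  a_of pr_x6 pg_x6 bb_x6a (by norm_num) (by norm_num) (by norm_num) cu_7_25 cl_8_25

theorem bb_x6b0 : bb true q_x6 39 0 317022273 0 751619277 0 536870912 = true := by
  decide +kernel

theorem bb_x6b1 : bb true q_x6 38 0 317022273 0 751619277 536870912 805306368 = true := by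
  decide +kernel

theorem bb_x6b2 : bb true q_x6 38 0 317022273 0 751619277 805306368 1073741824 = true := by
  decide +kernel

theorem bb_x6b3 : bb true q_x6 39 0 317022273 0 751619277 536870912 1073741824 = true :=
  bb_z rfl rfl bb_x6b1 bb_x6b2

theorem bb_x6b : bb true q_x6 40 0 317022273 0 751619277 0 1073741824 = true :=
  bb_z rfl rfl bb_x6b0 bb_x6b3


theorem x6b : P3b (99 / 10) (9 / 10) (7 / 25) (8 / 25) :=
  b_of pr_x6 pg_x6 bb_x6b (by norm_num) (by norm_num) (by norm_num) cu_7_25 cl_8_25

def q_x7 : Prm := ⟨2054114082, 308292753, 207811992, 308293827, 0, 329960863, 329960862, 0⟩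

theorem pr_x7 : PR q_x7 ((601 / 100) / Real.pi) (3589 / 12500) (9677 / 50000) (287121 / 1000000) (0) (3073 / 10000) 0 := by
  apply pr_mk <;> norm_num [q_x7]

theorem pg_x7 : Pg (9 / 10) (3589 / 12500) (3589 / 12500) (9677 / 50000) (287121 / 1000000) (0) (3073 / 10000) := by
  constructor <;> norm_num

theorem bb_x7a : bb false q_x7 40 0 317022273 751619276 1020054734 0 1073741824 = true := by
  decide +kernel


theorem x7a : P3a (6) (9 / 10) (8 / 25) (71 / 200) :=
  a_of pr_x7 pg_x7 bb_x7a (by norm_num) (by norm_num) (by norm_num) cu_8_25 cl_71_200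

theorem bb_x7b0 : bb true q_x7 39 0 317022273 0 751619277 0 536870912 = true := by
  decide +kernel

theorem bb_x7b1 : bb true q_x7 38 0 317022273 0 751619277 536870912 805306368 = true := by
  decide +kernel

theorem bb_x7b2 : bb true q_x7 37 0 317022273 0 375809638 805306368 1073741824 = true := by
  decide +kernel

theorem bb_x7b3 : bb true q_x7 35 0 317022273 375809638 563714457 805306368 939524096 = true := by
  decide +kernel

theorem bb_x7b4 : bb true q_x7 34 0 158511136 563714457 751619277 805306368 939524096 = true := by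
  decide +kernel

theorem bb_x7b5 : bb true q_x7 32 158511136 317022273 563714457 657666867 805306368 872415232 = true := by
  decide +kernel

theorem bb_x7b6 : bb true q_x7 31 158511136 237766704 657666867 751619277 805306368 872415232 = true := by
  decide +kernel

theorem bb_x7b7 : bb true q_x7 31 237766704 317022273 657666867 751619277 805306368 872415232 = true := by
  decide +kernel

theorem bb_x7b8 : bb true q_x7 32 158511136 317022273 657666867 751619277 805306368 872415232 = true :=
  bb_k rfl rfl rfl bb_x7b6 bb_x7b7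

theorem bb_x7b9 : bb true q_x7 33 158511136 317022273 563714457 751619277 805306368 872415232 = true :=
  bb_r rfl rfl rfl bb_x7b5 bb_x7b8

theorem bb_x7b10 : bb true q_x7 33 158511136 317022273 563714457 751619277 872415232 939524096 = true := by
  decide +kernel

theorem bb_x7b11 : bb true q_x7 34 158511136 317022273 563714457 751619277 805306368 939524096 = true :=
  bb_z rfl rfl bb_x7b9 bb_x7b10

theorem bb_x7b12 : bb true q_x7 35 0 317022273 563714457 751619277 805306368 939524096 = true :=
  bb_k rfl rfl rfl bb_x7b4 bb_x7b11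

theorem bb_x7b13 : bb true q_x7 36 0 317022273 375809638 751619277 805306368 939524096 = true :=
  bb_r rfl rfl rfl bb_x7b3 bb_x7b12

theorem bb_x7b14 : bb true q_x7 36 0 317022273 375809638 751619277 939524096 1073741824 = true := by
  decide +kernel

theorem bb_x7b15 : bb true q_x7 37 0 317022273 375809638 751619277 805306368 1073741824 = true :=
  bb_z rfl rfl bb_x7b13 bb_x7b14

theorem bb_x7b16 : bb true q_x7 38 0 317022273 0 751619277 805306368 1073741824 = true :=
  bb_r rfl rfl rfl bb_x7b2 bb_x7b15

theorem bb_x7b17 : bb true q_x7 39 0 317022273 0 751619277 536870912 1073741824 = true :=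
  bb_z rfl rfl bb_x7b1 bb_x7b16

theorem bb_x7b : bb true q_x7 40 0 317022273 0 751619277 0 1073741824 = true :=
  bb_z rfl rfl bb_x7b0 bb_x7b17


theorem x7b : P3b (6) (9 / 10) (8 / 25) (71 / 200) :=
  b_of pr_x7 pg_x7 bb_x7b (by norm_num) (by norm_num) (by norm_num) cu_8_25 cl_71_200

def q_x8 : Prm := ⟨1199657310, 207822731, 157238752, 207823804, 0, 370011433, 370011432, 0⟩

theorem pr_x8 : PR q_x8 ((351 / 100) / Real.pi) (3871 / 20000) (3661 / 25000) (193551 / 1000000) (0) (1723 / 5000) 0 := by
  apply pr_mk <;> norm_num [q_x8]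

theorem pg_x8 : Pg (9 / 10) (3871 / 20000) (3871 / 20000) (3661 / 25000) (193551 / 1000000) (0) (1723 / 5000) := by
  constructor <;> norm_num

theorem bb_x8a : bb false q_x8 40 0 317022273 751619276 1020054734 0 1073741824 = true := by
  decide +kernel


theorem x8a : P3a (7 / 2) (9 / 10) (71 / 200) (3 / 8) :=
  a_of pr_x8 pg_x8 bb_x8a (by norm_num) (by norm_num) (by norm_num) cu_71_200 cl_3_8

theorem bb_x8b : bb true q_x8 40 0 317022273 0 751619277 0 1073741824 = true := by
  decide +kernel


theorem x8b : P3b (7 / 2) (9 / 10) (71 / 200) (3 / 8) :=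
  b_of pr_x8 pg_x8 bb_x8b (by norm_num) (by norm_num) (by norm_num) cu_71_200 cl_3_8

def q_x9 : Prm := ⟨686983246, 157249491, 123201136, 157250564, 0, 395888611, 395888610, 0⟩

theorem pr_x9 : PR q_x9 ((201 / 100) / Real.pi) (2929 / 20000) (5737 / 50000) (146451 / 1000000) (0) (3687 / 10000) 0 := by
  apply pr_mk <;> norm_num [q_x9]

theorem pg_x9 : Pg (9 / 10) (2929 / 20000) (2929 / 20000) (5737 / 50000) (146451 / 1000000) (0) (3687 / 10000) := by
  constructor <;> norm_num

theorem bb_x9a : bb false q_x9 40 0 317022273 751619276 1020054734 0 1073741824 = true := by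
  decide +kernel


theorem x9a : P3a (2) (9 / 10) (3 / 8) (39 / 100) :=
  a_of pr_x9 pg_x9 bb_x9a (by norm_num) (by norm_num) (by norm_num) cu_3_8 cl_39_100

theorem bb_x9b : bb true q_x9 40 0 317022273 0 751619277 0 1073741824 = true := by
  decide +kernel


theorem x9b : P3b (2) (9 / 10) (3 / 8) (39 / 100) :=
  b_of pr_x9 pg_x9 bb_x9b (by norm_num) (by norm_num) (by norm_num) cu_3_8 cl_39_100

end P3

end Pool.Agent.S3
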