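import Pool.Agent.S3.W2.PG
import Pool.Agent.S3.NIP

/-!
# The two phases from certificates in pieces
-/

set_option autoImplicit false

namespace Pool.Agent.S3.T2

open Complex Set
open Pool.Agent.S3.NI

/-- the property of a box, phase 2 -/
def Q2 (P : P2.Par) (p b z : ℝ) : Prop := P2.Hyp P p b z → P2.Concl P p b z

/-- A certificate of phase 2, in pieces. -/
structure Cert2 (P : P2.Par) (A B C : N) : Prop where
  hcd : 1 ≤ P.cd
  b : okB P.slo P.shi A B = true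
  z : okZ C = true
  bx : Bx3 (Q2 P) A B C

theorem q2_of {P : P2.Par} (hcd : 1 ≤ P.cd) {w0 w1 w2 n : ℕ} {A B C : N}
    (h : bbw3 (P2.test P) w0 w1 w2 n A B C = true) : Bx3 (Q2 P) A B C :=
  Bx3.of_bbw3 (fun _ _ _ h _ _ _ ha hb hc H => P2.test_sound h hcd ha hb hc H) h

theorem Cert2.of {P : P2.Par} {w0 w1 w2 n : ℕ} {A B C : N} (hc : cert2 P w0 w1 w2 n A B C = true) :
    Cert2 P A B C := by
  unfold cert2 at hc
  rw [Bool.and_eq_true, Bool.and_eq_true, Bool.and_eq_true, Nat.ble_eq] at hc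
  obtain ⟨⟨⟨c1, c2⟩, c3⟩, c4⟩ := hc
  exact ⟨c1, c2, c3, q2_of c1 c4⟩

theorem phase2P {P : P2.Par} {A B C : N} (hc : Cert2 P A B C)
    {al ah : ℝ} (hA : TA al ah A) {θ a t : ℝ} {w : ℂ} (hθ0 : 0 < θ) (hθ1 : θ < Real.pi / 2)
    (a0 : al ≤ a) (a1 : a ≤ ah) (hs0 : (P.slo : ℝ) / 1073741824 ≤ Real.tan θ ^ 2)
    (hs1 : Real.tan θ ^ 2 ≤ (P.shi : ℝ) / 1073741824) (ht : t ∈ Ico (1 / 200 : ℝ) (1 / 2))
    (v0 : 0 ≤ w.re) (v1 : w.re < 1 / 2) (wi : w.im ≤ 0) (hr : Mem (cc w).re P.r)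
    (hi : Mem (cc w).im P.i)
    (hg : gPd ((t : ℂ) + (hgt (19 / 20) (bl θ a) : ℂ) * I) (vl θ a) w =
      ‖cos (Real.pi * ((t : ℂ) + (hgt (19 / 20) (bl θ a) : ℂ) * I))‖ ^ 4) :
    (P.cn : ℝ) / P.cd * S2l θ a + ((P.dp : ℝ) - P.dn) / 1073741824 +
      ((P.ep : ℝ) - P.en) / 1073741824 * Real.tan θ ^ 2 ≤
      Ml ((t : ℂ) + (hgt (19 / 20) (bl θ a) : ℂ) * I) (vl θ a) (Tl θ a) -
        rp (19 / 20) (bl θ a) * Tl θ a / 2 *
          (eY ((t : ℂ) + (hgt (19 / 20) (bl θ a) : ℂ) * I) (vl θ a) w).im := by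
  have hpi := Real.pi_pos
  have k1 := hA.al0
  have k2 := hA.ah1
  have ha0 : 0 < a := by linarith
  have ha1 : a < 1 / 2 := by linarith
  have hbl : 0 < bl θ a := bl_pos_of hθ0 hθ1 (by rw [abs_of_pos ha0]; exact ha1)
  have hca := cos_pos_of (a := a) (by linarith) ha1
  obtain ⟨c1, c2, c3, c4⟩ := hc
  have hhp : 0 < hgt (19 / 20) (bl θ a) := hgt_pos (by norm_num) (by norm_num) hbl
  have hth : Real.tanh (Real.pi * hgt (19 / 20) (bl θ a)) =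
      19 * Real.tanh (Real.pi * bl θ a) / 20 := by
    rw [tanh_hgt (by norm_num) (by norm_num)]; ring
  have tb0 : 0 < Real.tanh (Real.pi * bl θ a) := tanh_pos_of (by positivity)
  have tb1 := Real.tanh_lt_one (Real.pi * bl θ a)
  have hlt : hgt (19 / 20) (bl θ a) < bl θ a := by
    by_contra hcc
    push Not at hcc
    have := tanh_mono (mul_le_mul_of_nonneg_left hcc hpi.le)
    rw [hth] at this
    linarith
  have hPt : Pt a (bl θ a) t (hgt (19 / 20) (bl θ a)) (Real.tan (Real.pi * a))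
      (Real.tanh (Real.pi * bl θ a)) (Real.tan (Real.pi * t / 2))
      (19 * Real.tanh (Real.pi * bl θ a) / 20) :=
    ⟨ha0, ha1, by linarith [ht.1], ht.2, hhp, hlt, rfl, rfl, rfl, hth.symm⟩
  have hp := hA.mem a0 a1
  have hSq := Sq_bl (θ := θ) hca
  have hp1 : 1 ≤ Real.tan (Real.pi * a) := by
    have := tan_mono_pi (a := 1 / 4) (a' := a) (by norm_num) (by linarith) ha1
    rwa [show Real.pi * (1 / 4) = Real.pi / 4 by ring, Real.tan_pi_div_four] at this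
  have hb2 : 0 < 1 - Real.tanh (Real.pi * bl θ a) ^ 2 := by nlinarith
  have hb := okB_sound c2 hp (by linarith) tb0 tb1 hs0 hs1 (by
    rw [← hSq, P1.Sq]
    field_simp)
  have hz := okZ_sound c3 ht.1 ht.2
  have key := c4 _ _ _ hp hb hz ⟨hp1, tb0, tb1, hPt.z0, hPt.z1, by
      rw [hSq]; rw [div_le_iff₀ (by norm_num)] at hs0; exact hs0, by
      rw [hSq]; rw [le_div_iff₀ (by norm_num)] at hs1; exact hs1⟩
  have hcr := hPt.crit v0 v1 wi hg
  have fin := key _ _ hr hi hcr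
  have e1 := hPt.Ml2_eq v0 v1 wi (Tl θ a) (rp (19 / 20) (bl θ a))
  have e2 : rp (19 / 20) (bl θ a) = P2.rho (Real.tanh (Real.pi * bl θ a)) := by
    rw [rp, P2.rho]
    have : (19 / 20 * Real.tanh (Real.pi * bl θ a)) = 19 * Real.tanh (Real.pi * bl θ a) / 20 := by
      ring
    rw [this, div_eq_mul_inv]
    ring
  have e3 := S2l_le ha0 ha1 hbl.le
  have e4 : (0 : ℝ) ≤ (P.cn : ℝ) / P.cd := by positivity
  rw [hSq] at fin
  unfold vl
  rw [e1, e2]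
  refine le_trans ?_ fin
  have := mul_le_mul_of_nonneg_left e3 e4
  linarith

/-- the property of a box, phase 1 -/
def Q1 (P : P1.Par) (cn cd d0 d1 : ℕ) (p b z k : ℝ) : Prop :=
  P1.Hyp P p b z k → P1.Concl (P1.fin cn cd d0 d1 0) P p b z k

/-- A certificate of phase 1, in pieces. -/
structure Cert1 (P : P1.Par) (cn cd d0 d1 : ℕ) (A B C D : N) : Prop where
  hcd : 1 ≤ cd
  b : okB P.slo P.shi A B = true
  z : okZ C = true
  k : okK P.slo P.shi P.klo P.khi D = true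
  bx : Bx4 (Q1 P cn cd d0 d1) A B C D

theorem q1_of {P : P1.Par} {cn cd d0 d1 w0 w1 w2 w3 n : ℕ} {A B C D : N}
    (h : bbw (P1.test (P1.fin cn cd d0 d1 0) P) w0 w1 w2 w3 n A B C D = true) :
    Bx4 (Q1 P cn cd d0 d1) A B C D :=
  Bx4.of_bbw (fun _ _ _ _ h _ _ _ _ ha hb hc hd H => P1.test_sound h ha hb hc hd H) h

theorem Cert1.of {P : P1.Par} {cn cd d0 d1 w0 w1 w2 w3 n : ℕ} {A B C D : N}
    (hc : cert1 P cn cd d0 d1 w0 w1 w2 w3 n A B C D = true) : Cert1 P cn cd d0 d1 A B C D := by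
  unfold cert1 at hc
  rw [Bool.and_eq_true, Bool.and_eq_true, Bool.and_eq_true, Bool.and_eq_true, Nat.ble_eq] at hc
  obtain ⟨⟨⟨⟨c1, c2⟩, c3⟩, c5⟩, c4⟩ := hc
  exact ⟨c1, c2, c3, c5, q1_of c4⟩

theorem phase1P {P : P1.Par} {cn cd d0 d1 : ℕ} {A B C D : N} (hc : Cert1 P cn cd d0 d1 A B C D)
    {al ah : ℝ} (hA : TA al ah A) {θ a h t : ℝ} {w : ℂ} (hθ0 : 0 < θ) (hθ1 : θ < Real.pi / 2)
    (a0 : al ≤ a) (a1 : a ≤ ah) (hs0 : (P.slo : ℝ) / 1073741824 ≤ Real.tan θ ^ 2)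
    (hs1 : Real.tan θ ^ 2 ≤ (P.shi : ℝ) / 1073741824) (h0 : 0 < h)
    (hk0 : (P.klo : ℝ) / 1073741824 * Real.tan θ ^ 2 ≤ Real.sinh (Real.pi * h) ^ 2)
    (hk1 : Real.sinh (Real.pi * h) ^ 2 ≤ (P.khi : ℝ) / 1073741824 * Real.tan θ ^ 2)
    (hk : Real.tanh (Real.pi * h) ≤ 19 / 20 * Real.tanh (Real.pi * bl θ a))
    (ht : t ∈ Ico (1 / 200 : ℝ) (1 / 2)) (hr : Mem (cc w).re P.r) (hi : Mem (cc w).im P.i)
    (hg : gPd ((t : ℂ) + (h : ℂ) * I) (vl θ a) w =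
      ‖cos (Real.pi * ((t : ℂ) + (h : ℂ) * I))‖ ^ 4) :
    (cn : ℝ) / cd * S2l θ a + d0 / 1073741824 - d1 / 1073741824 * Real.tan θ ^ 2 ≤
      Ml ((t : ℂ) + (h : ℂ) * I) (vl θ a) (Tl θ a) := by
  have hpi := Real.pi_pos
  have k1 := hA.al0
  have k2 := hA.ah1
  have ha0 : 0 < a := by linarith
  have ha1 : a < 1 / 2 := by linarith
  have hbl : 0 < bl θ a := bl_pos_of hθ0 hθ1 (by rw [abs_of_pos ha0]; exact ha1)
  have hca := cos_pos_of (a := a) (by linarith) ha1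
  obtain ⟨c1, c2, c3, c5, c4⟩ := hc
  have tb0 : 0 < Real.tanh (Real.pi * bl θ a) := tanh_pos_of (by positivity)
  have tb1 := Real.tanh_lt_one (Real.pi * bl θ a)
  obtain ⟨g1, g2, g3, g4, g5, g6, g7, g8⟩ := P1.dic (β := bl θ a) (w := w) (by linarith) ha1
    (by linarith [ht.1]) ht.2 h0 (by linarith)
  have hp := hA.mem a0 a1
  have hSq := Sq_bl (θ := θ) hca
  have hb2 : 0 < 1 - Real.tanh (Real.pi * bl θ a) ^ 2 := by nlinarith
  have hb := okB_sound c2 hp (by linarith) tb0 tb1 hs0 hs1 (by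
    rw [← hSq, P1.Sq]
    field_simp)
  have hz := okZ_sound c3 ht.1 ht.2
  obtain ⟨q0, q1, q2⟩ := ch_of (x := Real.pi * h) rfl
  have tk1 := Real.tanh_lt_one (Real.pi * h)
  have hk2 : 0 < 1 - Real.tanh (Real.pi * h) ^ 2 := by nlinarith
  have hx : Real.tanh (Real.pi * h) ^ 2 =
      Real.sinh (Real.pi * h) ^ 2 * (1 - Real.tanh (Real.pi * h) ^ 2) := by
    rw [q1, mul_pow, mul_assoc, q2, mul_one]
  have hkD := okK_sound c5 g2 tk1 hs0 hs1 hk0 hk1 hx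
  have hHq : P1.Hq (Real.tanh (Real.pi * h)) = Real.sinh (Real.pi * h) ^ 2 := by
    rw [P1.Hq, ← div_eq_mul_inv, div_eq_iff hk2.ne']
    exact hx
  have key := c4 _ _ _ _ hp hb hz hkD ⟨g1, g2, by linarith, tb1, g4, g5, by
      rw [hSq]; rw [div_le_iff₀ (by norm_num)] at hs0; exact hs0, by
      rw [hSq]; rw [le_div_iff₀ (by norm_num)] at hs1; exact hs1, by
      rw [hSq, hHq]
      rw [div_mul_eq_mul_div, div_le_iff₀ (by norm_num)] at hk0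
      exact hk0, by
      rw [hSq, hHq]
      rw [div_mul_eq_mul_div, le_div_iff₀ (by norm_num)] at hk1
      exact hk1⟩
  obtain ⟨S2, TN, s2, q, an, f1, f2, f3, f4, f5, f6⟩ := key _ _ _ hr hi g6 (g8 hg)
  have fin := P1.fin_sound (by omega) f1 f2 f3 f4 f5 f6
  have e3 := S2l_le ha0 ha1 hbl.le
  have e4 : (0 : ℝ) ≤ (cn : ℝ) / cd := by positivity
  rw [hSq, Nat.cast_zero, zero_div, mul_zero, sub_zero] at fin
  unfold vl
  rw [Ml, g7]
  have := mul_le_mul_of_nonneg_left e3 e4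
  have e5 : Tl θ a = Real.tan (Real.pi * a) * Real.tanh (Real.pi * bl θ a) := rfl
  rw [e5]
  linarith

end Pool.Agent.S3.T2
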