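import Pool.Agent.S3.Cl.Num
import Pool.Agent.S3.W2.PG

/-!
# The constants of the rows of the slides
-/

set_option autoImplicit false

namespace Pool.Agent.S3.T2

open Pool.Agent.S3.NI

private theorem nPos3 {f f' : ℝ → ℝ} (hd : ∀ x, HasDerivAt f (f' x) x) (h0 : f 0 = 0)
    (hp : ∀ x, 0 ≤ x → 0 ≤ f' x) {x : ℝ} (hx : 0 ≤ x) : 0 ≤ f x := by
  have hm : MonotoneOn f (Set.Ici 0) := by
    apply monotoneOn_of_deriv_nonneg (convex_Ici 0)
    · exact fun y _ => (hd y).continuousAt.continuousWithinAt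
    · exact fun y _ => (hd y).differentiableAt.differentiableWithinAt
    · intro y hy
      rw [interior_Ici] at hy
      rw [(hd y).deriv]
      exact hp y (le_of_lt hy)
  have := hm (Set.self_mem_Ici) hx hx
  rwa [h0] at this

theorem rc_s7 {x : ℝ} (hx : 0 ≤ x) :
    x - x ^ 3 / 6 + x ^ 5 / 120 - x ^ 7 / 5040 ≤ Real.sin x := by
  have h := nPos3 (f := fun x => Real.sin x - (x - x ^ 3 / 6 + x ^ 5 / 120 - x ^ 7 / 5040))
    (f' := fun x => Real.cos x - (1 - x ^ 2 / 2 + x ^ 4 / 24 - x ^ 6 / 720))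
    (fun x => by
      have h1 := (Real.hasDerivAt_sin x).sub ((((hasDerivAt_id' x).sub
        ((hasDerivAt_pow 3 x).div_const 6)).add ((hasDerivAt_pow 5 x).div_const 120)).sub
        ((hasDerivAt_pow 7 x).div_const 5040))
      refine h1.congr_deriv ?_
      norm_num
      try ring)
    (by simp) (fun x hx => by have := Cl.n_c6 hx; linarith) hx
  linarith

theorem rc_c8 {x : ℝ} (hx : 0 ≤ x) :
    Real.cos x ≤ 1 - x ^ 2 / 2 + x ^ 4 / 24 - x ^ 6 / 720 + x ^ 8 / 40320 := by
  have h := nPos3 (f := fun x => (1 - x ^ 2 / 2 + x ^ 4 / 24 - x ^ 6 / 720 + x ^ 8 / 40320)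
      - Real.cos x)
    (f' := fun x => Real.sin x - (x - x ^ 3 / 6 + x ^ 5 / 120 - x ^ 7 / 5040))
    (fun x => by
      have h1 := ((((((hasDerivAt_const x (1 : ℝ)).sub ((hasDerivAt_pow 2 x).div_const 2)).add
        ((hasDerivAt_pow 4 x).div_const 24)).sub ((hasDerivAt_pow 6 x).div_const 720)).add
        ((hasDerivAt_pow 8 x).div_const 40320))).sub (Real.hasDerivAt_cos x)
      refine h1.congr_deriv ?_
      norm_num
      try ring)
    (by simp) (fun x hx => by have := rc_s7 hx; linarith) hx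
  linarith

theorem cosq_lo {q l c : ℝ} (h0 : 0 ≤ q) (h1 : q ≤ 1 / 2) (hl : 0 ≤ l)
    (h : l ≤ 1 - (3141593 / 1000000 * q) ^ 2 / 2 + (3141593 / 1000000 * q) ^ 4 / 24 -
      (3141593 / 1000000 * q) ^ 6 / 720) (hc : c ≤ l ^ 2) : c ≤ Real.cos (Real.pi * q) ^ 2 := by
  have hpi := Real.pi_gt_d6
  have hpi2 := Real.pi_lt_d6
  have h2 : Real.cos (3141593 / 1000000 * q) ≤ Real.cos (Real.pi * q) :=
    Real.cos_le_cos_of_nonneg_of_le_pi (by nlinarith) (by nlinarith) (by nlinarith)
  have h3 := Cl.n_c6 (x := 3141593 / 1000000 * q) (by positivity)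
  exact hc.trans (pow_le_pow_left₀ hl (h.trans (h3.trans h2)) 2)

theorem cosq_hi {q u c : ℝ} (h0 : 0 ≤ q) (h1 : q ≤ 1 / 2)
    (h : 1 - (3141592 / 1000000 * q) ^ 2 / 2 + (3141592 / 1000000 * q) ^ 4 / 24 -
      (3141592 / 1000000 * q) ^ 6 / 720 + (3141592 / 1000000 * q) ^ 8 / 40320 ≤ u)
    (hc : u ^ 2 ≤ c) : Real.cos (Real.pi * q) ^ 2 ≤ c := by
  have hpi := Real.pi_gt_d6
  have hpi2 := Real.pi_lt_d6
  have h2 : Real.cos (Real.pi * q) ≤ Real.cos (3141592 / 1000000 * q) :=
    Real.cos_le_cos_of_nonneg_of_le_pi (by nlinarith) (by nlinarith) (by nlinarith)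
  have h3 := rc_c8 (x := 3141592 / 1000000 * q) (by positivity)
  have h4 : 0 ≤ Real.cos (Real.pi * q) :=
    Real.cos_nonneg_of_neg_pi_div_two_le_of_le (by nlinarith) (by nlinarith)
  exact (pow_le_pow_left₀ h4 (h2.trans (h3.trans h)) 2).trans hc

theorem cosq_anti {x y : ℝ} (h0 : 0 ≤ x) (h : x ≤ y) (h1 : y ≤ 1 / 2) :
    Real.cos (Real.pi * y) ^ 2 ≤ Real.cos (Real.pi * x) ^ 2 := by
  have hpi := Real.pi_pos
  have h4 : 0 ≤ Real.cos (Real.pi * y) :=
    Real.cos_nonneg_of_neg_pi_div_two_le_of_le (by nlinarith) (by nlinarith)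
  exact pow_le_pow_left₀ h4 (Real.cos_le_cos_of_nonneg_of_le_pi (by positivity) (by nlinarith)
    (mul_le_mul_of_nonneg_left h hpi.le)) 2

theorem cl_1_25 : (98426 : ℝ) / 100000 ≤ Real.cos (Real.pi * (1 / 25)) ^ 2 :=
  cosq_lo (l := 9920988 / 10000000) (by norm_num) (by norm_num) (by norm_num) (by norm_num) (by norm_num)

theorem cu_1_25 : Real.cos (Real.pi * (1 / 25)) ^ 2 ≤ (98430 : ℝ) / 100000 :=
  cosq_hi (u := 9921189 / 10000000) (by norm_num) (by norm_num) (by norm_num) (by norm_num)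

theorem cl_2_25 : (93812 : ℝ) / 100000 ≤ Real.cos (Real.pi * (2 / 25)) ^ 2 :=
  cosq_lo (l := 9685660 / 10000000) (by norm_num) (by norm_num) (by norm_num) (by norm_num) (by norm_num)

theorem cu_2_25 : Real.cos (Real.pi * (2 / 25)) ^ 2 ≤ (93816 : ℝ) / 100000 :=
  cosq_hi (u := 9685865 / 10000000) (by norm_num) (by norm_num) (by norm_num) (by norm_num)

theorem cl_4_25 : (76788 : ℝ) / 100000 ≤ Real.cos (Real.pi * (4 / 25)) ^ 2 :=
  cosq_lo (l := 8762877 / 10000000) (by norm_num) (by norm_num) (by norm_num) (by norm_num) (by norm_num)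

theorem cu_4_25 : Real.cos (Real.pi * (4 / 25)) ^ 2 ≤ (76792 : ℝ) / 100000 :=
  cosq_hi (u := 8763104 / 10000000) (by norm_num) (by norm_num) (by norm_num) (by norm_num)

theorem cl_1_5 : (65447 : ℝ) / 100000 ≤ Real.cos (Real.pi * (1 / 5)) ^ 2 :=
  cosq_lo (l := 8089933 / 10000000) (by norm_num) (by norm_num) (by norm_num) (by norm_num) (by norm_num)

theorem cu_1_5 : Real.cos (Real.pi * (1 / 5)) ^ 2 ≤ (65452 : ℝ) / 100000 :=
  cosq_hi (u := 8090241 / 10000000) (by norm_num) (by norm_num) (by norm_num) (by norm_num)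

theorem cl_6_25 : (53136 : ℝ) / 100000 ≤ Real.cos (Real.pi * (6 / 25)) ^ 2 :=
  cosq_lo (l := 7289445 / 10000000) (by norm_num) (by norm_num) (by norm_num) (by norm_num) (by norm_num)

theorem cu_6_25 : Real.cos (Real.pi * (6 / 25)) ^ 2 ≤ (53141 : ℝ) / 100000 :=
  cosq_hi (u := 7289787 / 10000000) (by norm_num) (by norm_num) (by norm_num) (by norm_num)

theorem cl_7_25 : (40627 : ℝ) / 100000 ≤ Real.cos (Real.pi * (7 / 25)) ^ 2 :=
  cosq_lo (l := 6373932 / 10000000) (by norm_num) (by norm_num) (by norm_num) (by norm_num) (by norm_num)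

theorem cu_7_25 : Real.cos (Real.pi * (7 / 25)) ^ 2 ≤ (40632 : ℝ) / 100000 :=
  cosq_hi (u := 6374323 / 10000000) (by norm_num) (by norm_num) (by norm_num) (by norm_num)

theorem cl_29_100 : (37562 : ℝ) / 100000 ≤ Real.cos (Real.pi * (29 / 100)) ^ 2 :=
  cosq_lo (l := 6128785 / 10000000) (by norm_num) (by norm_num) (by norm_num) (by norm_num) (by norm_num)

theorem cu_29_100 : Real.cos (Real.pi * (29 / 100)) ^ 2 ≤ (37567 : ℝ) / 100000 :=
  cosq_hi (u := 6129192 / 10000000) (by norm_num) (by norm_num) (by norm_num) (by norm_num)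

theorem cl_13_40 : (27297 : ℝ) / 100000 ≤ Real.cos (Real.pi * (13 / 40)) ^ 2 :=
  cosq_lo (l := 5224654 / 10000000) (by norm_num) (by norm_num) (by norm_num) (by norm_num) (by norm_num)

theorem ta_333_1000 : TA (333 / 1000) (2 / 5) ⟨1854856358, 3305067032⟩ := by
  have h1 := Real.pi_gt_d6
  have h2 := Real.pi_lt_d6
  refine ⟨by norm_num, by norm_num, le_tan_of (by norm_num) (by norm_num) (by norm_num) ?_,
    tan_le_of (by norm_num) (by norm_num) (by norm_num) ?_⟩
  · refine le_trans (b := 3141593 / 1000000 * (1 / 2 - 333 / 1000)) (by linarith) ?_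
    norm_num
  · refine le_trans ?_ (b := 3141592 / 1000000 * (1 / 2 - 2 / 5)) (by linarith)
    norm_num

theorem ta_47_125 : TA (47 / 125) (2 / 5) ⟨2615022746, 3305067032⟩ := by
  have h1 := Real.pi_gt_d6
  have h2 := Real.pi_lt_d6
  refine ⟨by norm_num, by norm_num, le_tan_of (by norm_num) (by norm_num) (by norm_num) ?_,
    tan_le_of (by norm_num) (by norm_num) (by norm_num) ?_⟩
  · refine le_trans (b := 3141593 / 1000000 * (1 / 2 - 47 / 125)) (by linarith) ?_
    norm_num
  · refine le_trans ?_ (b := 3141592 / 1000000 * (1 / 2 - 2 / 5)) (by linarith)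
    norm_num

theorem ta_927_2500 : TA (927 / 2500) (2 / 5) ⟨2498050860, 3305067032⟩ := by
  have h1 := Real.pi_gt_d6
  have h2 := Real.pi_lt_d6
  refine ⟨by norm_num, by norm_num, le_tan_of (by norm_num) (by norm_num) (by norm_num) ?_,
    tan_le_of (by norm_num) (by norm_num) (by norm_num) ?_⟩
  · refine le_trans (b := 3141593 / 1000000 * (1 / 2 - 927 / 2500)) (by linarith) ?_
    norm_num
  · refine le_trans ?_ (b := 3141592 / 1000000 * (1 / 2 - 2 / 5)) (by linarith)
    norm_num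

theorem ta_3719_10000 : TA (3719 / 10000) (2 / 5) ⟨2522045160, 3305067032⟩ := by
  have h1 := Real.pi_gt_d6
  have h2 := Real.pi_lt_d6
  refine ⟨by norm_num, by norm_num, le_tan_of (by norm_num) (by norm_num) (by norm_num) ?_,
    tan_le_of (by norm_num) (by norm_num) (by norm_num) ?_⟩
  · refine le_trans (b := 3141593 / 1000000 * (1 / 2 - 3719 / 10000)) (by linarith) ?_
    norm_num
  · refine le_trans ?_ (b := 3141592 / 1000000 * (1 / 2 - 2 / 5)) (by linarith)
    norm_num

theorem ta_238_625 : TA (238 / 625) (2 / 5) ⟨2731573654, 3305067032⟩ := by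
  have h1 := Real.pi_gt_d6
  have h2 := Real.pi_lt_d6
  refine ⟨by norm_num, by norm_num, le_tan_of (by norm_num) (by norm_num) (by norm_num) ?_,
    tan_le_of (by norm_num) (by norm_num) (by norm_num) ?_⟩
  · refine le_trans (b := 3141593 / 1000000 * (1 / 2 - 238 / 625)) (by linarith) ?_
    norm_num
  · refine le_trans ?_ (b := 3141592 / 1000000 * (1 / 2 - 2 / 5)) (by linarith)
    norm_num

theorem ta_373_1000 : TA (373 / 1000) (2 / 5) ⟨2546432239, 3305067032⟩ := by
  have h1 := Real.pi_gt_d6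
  have h2 := Real.pi_lt_d6
  refine ⟨by norm_num, by norm_num, le_tan_of (by norm_num) (by norm_num) (by norm_num) ?_,
    tan_le_of (by norm_num) (by norm_num) (by norm_num) ?_⟩
  · refine le_trans (b := 3141593 / 1000000 * (1 / 2 - 373 / 1000)) (by linarith) ?_
    norm_num
  · refine le_trans ?_ (b := 3141592 / 1000000 * (1 / 2 - 2 / 5)) (by linarith)
    norm_num

theorem ta_169_500 : TA (169 / 500) (2 / 5) ⟨1923958762, 3305067032⟩ := by
  have h1 := Real.pi_gt_d6
  have h2 := Real.pi_lt_d6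
  refine ⟨by norm_num, by norm_num, le_tan_of (by norm_num) (by norm_num) (by norm_num) ?_,
    tan_le_of (by norm_num) (by norm_num) (by norm_num) ?_⟩
  · refine le_trans (b := 3141593 / 1000000 * (1 / 2 - 169 / 500)) (by linarith) ?_
    norm_num
  · refine le_trans ?_ (b := 3141592 / 1000000 * (1 / 2 - 2 / 5)) (by linarith)
    norm_num

theorem ta_953_2500 : TA (953 / 2500) (2 / 5) ⟨2741690501, 3305067032⟩ := by
  have h1 := Real.pi_gt_d6
  have h2 := Real.pi_lt_d6
  refine ⟨by norm_num, by norm_num, le_tan_of (by norm_num) (by norm_num) (by norm_num) ?_,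
    tan_le_of (by norm_num) (by norm_num) (by norm_num) ?_⟩
  · refine le_trans (b := 3141593 / 1000000 * (1 / 2 - 953 / 2500)) (by linarith) ?_
    norm_num
  · refine le_trans ?_ (b := 3141592 / 1000000 * (1 / 2 - 2 / 5)) (by linarith)
    norm_num

theorem ta_173_500 : TA (173 / 500) (2 / 5) ⟨2043013865, 3305067032⟩ := by
  have h1 := Real.pi_gt_d6
  have h2 := Real.pi_lt_d6
  refine ⟨by norm_num, by norm_num, le_tan_of (by norm_num) (by norm_num) (by norm_num) ?_,
    tan_le_of (by norm_num) (by norm_num) (by norm_num) ?_⟩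
  · refine le_trans (b := 3141593 / 1000000 * (1 / 2 - 173 / 500)) (by linarith) ?_
    norm_num
  · refine le_trans ?_ (b := 3141592 / 1000000 * (1 / 2 - 2 / 5)) (by linarith)
    norm_num

theorem ta_3881_10000 : TA (3881 / 10000) (2 / 5) ⟨2927056734, 3305067032⟩ := by
  have h1 := Real.pi_gt_d6
  have h2 := Real.pi_lt_d6
  refine ⟨by norm_num, by norm_num, le_tan_of (by norm_num) (by norm_num) (by norm_num) ?_,
    tan_le_of (by norm_num) (by norm_num) (by norm_num) ?_⟩
  · refine le_trans (b := 3141593 / 1000000 * (1 / 2 - 3881 / 10000)) (by linarith) ?_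
    norm_num
  · refine le_trans ?_ (b := 3141592 / 1000000 * (1 / 2 - 2 / 5)) (by linarith)
    norm_num

theorem ta_351_1000 : TA (351 / 1000) (2 / 5) ⟨2123375594, 3305067032⟩ := by
  have h1 := Real.pi_gt_d6
  have h2 := Real.pi_lt_d6
  refine ⟨by norm_num, by norm_num, le_tan_of (by norm_num) (by norm_num) (by norm_num) ?_,
    tan_le_of (by norm_num) (by norm_num) (by norm_num) ?_⟩
  · refine le_trans (b := 3141593 / 1000000 * (1 / 2 - 351 / 1000)) (by linarith) ?_
    norm_num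
  · refine le_trans ?_ (b := 3141592 / 1000000 * (1 / 2 - 2 / 5)) (by linarith)
    norm_num

theorem ta_93_250 : TA (93 / 250) (2 / 5) ⟨2524245784, 3305067032⟩ := by
  have h1 := Real.pi_gt_d6
  have h2 := Real.pi_lt_d6
  refine ⟨by norm_num, by norm_num, le_tan_of (by norm_num) (by norm_num) (by norm_num) ?_,
    tan_le_of (by norm_num) (by norm_num) (by norm_num) ?_⟩
  · refine le_trans (b := 3141593 / 1000000 * (1 / 2 - 93 / 250)) (by linarith) ?_
    norm_num
  · refine le_trans ?_ (b := 3141592 / 1000000 * (1 / 2 - 2 / 5)) (by linarith)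
    norm_num

theorem ta_3_8 : TA (3 / 8) (2 / 5) ⟨2591812577, 3305067032⟩ := by
  have h1 := Real.pi_gt_d6
  have h2 := Real.pi_lt_d6
  refine ⟨by norm_num, by norm_num, le_tan_of (by norm_num) (by norm_num) (by norm_num) ?_,
    tan_le_of (by norm_num) (by norm_num) (by norm_num) ?_⟩
  · refine le_trans (b := 3141593 / 1000000 * (1 / 2 - 3 / 8)) (by linarith) ?_
    norm_num
  · refine le_trans ?_ (b := 3141592 / 1000000 * (1 / 2 - 2 / 5)) (by linarith)
    norm_num

theorem tp_47_125 : Real.tan (Real.pi * (47 / 125)) ≤ 24363 / 10000 := by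
  have h1 := Real.pi_gt_d6
  refine tan_le_of (by norm_num) (by norm_num) (by norm_num) ?_
  refine le_trans ?_ (b := 3141592 / 1000000 * (1 / 2 - 47 / 125)) (by linarith)
  norm_num

theorem tp_927_2500 : Real.tan (Real.pi * (927 / 2500)) ≤ 23273 / 10000 := by
  have h1 := Real.pi_gt_d6
  refine tan_le_of (by norm_num) (by norm_num) (by norm_num) ?_
  refine le_trans ?_ (b := 3141592 / 1000000 * (1 / 2 - 927 / 2500)) (by linarith)
  norm_num

theorem tp_3719_10000 : Real.tan (Real.pi * (3719 / 10000)) ≤ 23497 / 10000 := by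
  have h1 := Real.pi_gt_d6
  refine tan_le_of (by norm_num) (by norm_num) (by norm_num) ?_
  refine le_trans ?_ (b := 3141592 / 1000000 * (1 / 2 - 3719 / 10000)) (by linarith)
  norm_num

theorem tp_238_625 : Real.tan (Real.pi * (238 / 625)) ≤ 3181 / 1250 := by
  have h1 := Real.pi_gt_d6
  refine tan_le_of (by norm_num) (by norm_num) (by norm_num) ?_
  refine le_trans ?_ (b := 3141592 / 1000000 * (1 / 2 - 238 / 625)) (by linarith)
  norm_num

theorem tp_373_1000 : Real.tan (Real.pi * (373 / 1000)) ≤ 5931 / 2500 := by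
  have h1 := Real.pi_gt_d6
  refine tan_le_of (by norm_num) (by norm_num) (by norm_num) ?_
  refine le_trans ?_ (b := 3141592 / 1000000 * (1 / 2 - 373 / 1000)) (by linarith)
  norm_num

theorem tp_953_2500 : Real.tan (Real.pi * (953 / 2500)) ≤ 12771 / 5000 := by
  have h1 := Real.pi_gt_d6
  refine tan_le_of (by norm_num) (by norm_num) (by norm_num) ?_
  refine le_trans ?_ (b := 3141592 / 1000000 * (1 / 2 - 953 / 2500)) (by linarith)
  norm_num

theorem tp_3881_10000 : Real.tan (Real.pi * (3881 / 10000)) ≤ 27269 / 10000 := by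
  have h1 := Real.pi_gt_d6
  refine tan_le_of (by norm_num) (by norm_num) (by norm_num) ?_
  refine le_trans ?_ (b := 3141592 / 1000000 * (1 / 2 - 3881 / 10000)) (by linarith)
  norm_num

theorem tp_2_5 : Real.tan (Real.pi * (2 / 5)) ≤ 30781 / 10000 := by
  have h1 := Real.pi_gt_d6
  refine tan_le_of (by norm_num) (by norm_num) (by norm_num) ?_
  refine le_trans ?_ (b := 3141592 / 1000000 * (1 / 2 - 2 / 5)) (by linarith)
  norm_num

end Pool.Agent.S3.T2
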