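import Pool.Agent.S3.W2.SlideN
import Pool.Agent.S3.W2.PH

/-!
# The rows of the slides: from the kernel certificates and the rectangle of `c_w`
-/

set_option autoImplicit false

namespace Pool.Agent.S3.T2

open Complex Set
open Pool.Agent.S3.NI
open Pool.Agent.H25.RK (gdv gdv_re_lt gdv_hasDerivAt)

/-! ### The rectangle of `c_w` -/

theorem cc_conj_re (w : ℂ) : (cc ((starRingEnd ℂ) w)).re = Real.cos (Real.pi * w.re) ^ 2 +
    Real.sinh (Real.pi * w.im) ^ 2 * (2 * Real.cos (Real.pi * w.re) ^ 2 - 1) := by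
  have h := cc_re w.re (-w.im)
  have e : ((w.re : ℝ) : ℂ) + ((-w.im : ℝ) : ℂ) * I = (starRingEnd ℂ) w := by
    apply Complex.ext
    · rw [line_re, conj_re]
    · rw [line_im, conj_im]
  rw [e, mul_neg, Real.sinh_neg, neg_sq] at h
  exact h

theorem cc_conj_im (w : ℂ) : (cc ((starRingEnd ℂ) w)).im =
    2 * (Real.sin (Real.pi * w.re) * Real.cos (Real.pi * w.re)) *
      (Real.sinh (Real.pi * w.im) * Real.cosh (Real.pi * w.im)) := by
  have h := cc_im w.re (-w.im)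
  have e : ((w.re : ℝ) : ℂ) + ((-w.im : ℝ) : ℂ) * I = (starRingEnd ℂ) w := by
    apply Complex.ext
    · rw [line_re, conj_re]
    · rw [line_im, conj_im]
  rw [e, mul_neg, Real.sinh_neg, Real.cosh_neg] at h
  rw [h]
  ring

theorem cc_conj_im_sq (w : ℂ) : (cc ((starRingEnd ℂ) w)).im ^ 2 =
    4 * Real.cos (Real.pi * w.re) ^ 2 * (1 - Real.cos (Real.pi * w.re) ^ 2) *
      Real.sinh (Real.pi * w.im) ^ 2 * (1 + Real.sinh (Real.pi * w.im) ^ 2) := by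
  have h1 := Real.sin_sq_add_cos_sq (Real.pi * w.re)
  have h2 := Real.cosh_sq (Real.pi * w.im)
  rw [cc_conj_im]
  rw [show 1 - Real.cos (Real.pi * w.re) ^ 2 = Real.sin (Real.pi * w.re) ^ 2 by linarith,
    show 1 + Real.sinh (Real.pi * w.im) ^ 2 = Real.cosh (Real.pi * w.im) ^ 2 by linarith]
  ring

theorem cc_conj_im_nonneg {w : ℂ} (h0 : 0 ≤ w.re) (h1 : w.re ≤ 1 / 2) (hi : 0 ≤ w.im) :
    0 ≤ (cc ((starRingEnd ℂ) w)).im := by
  have hpi := Real.pi_pos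
  rw [cc_conj_im]
  have a1 : 0 ≤ Real.sin (Real.pi * w.re) :=
    Real.sin_nonneg_of_nonneg_of_le_pi (by positivity) (by nlinarith)
  have a2 : 0 ≤ Real.cos (Real.pi * w.re) :=
    Real.cos_nonneg_of_neg_pi_div_two_le_of_le (by nlinarith) (by nlinarith)
  have a3 : 0 ≤ Real.sinh (Real.pi * w.im) := Real.sinh_nonneg_iff.2 (by positivity)
  have a4 := Real.cosh_pos (Real.pi * w.im)
  positivity

/-- The rectangle of `c_w` for the points below the line. -/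
theorem rect_und {w : ℂ} {c1 c2 T M : ℝ} {R J : N} (h0 : 0 ≤ w.re) (h1 : w.re ≤ 1 / 2)
    (hi : 0 ≤ w.im) (hT0 : 0 ≤ T) (hT1 : T ≤ 1)
    (hX : Real.sinh (Real.pi * w.im) ^ 2 ≤ T * Real.cos (Real.pi * w.re) ^ 2) (hc2 : 0 ≤ c2)
    (g2 : c2 ≤ Real.cos (Real.pi * w.re) ^ 2) (g1 : Real.cos (Real.pi * w.re) ^ 2 ≤ c1)
    (r1 : (R.lo : ℝ) ≤ c2 * 1073741824)
    (r2 : (R.lo : ℝ) ≤ (c2 + T * (c2 * (2 * c2 - 1))) * 1073741824)
    (r3 : c1 * 1073741824 ≤ R.hi)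
    (r4 : (c1 + T * (c1 * (2 * c1 - 1))) * 1073741824 ≤ R.hi)
    (hM : ∀ c : ℝ, c2 ≤ c → c ≤ c1 → c ^ 2 * (1 - c) ≤ M) (j0 : J.lo = 0)
    (j1 : 4 * T * M * (1 + T * c1) ≤ ((J.hi : ℝ) / 1073741824) ^ 2) :
    Mem (cc ((starRingEnd ℂ) w)).re R ∧ Mem (cc ((starRingEnd ℂ) w)).im J := by
  obtain ⟨c, hc⟩ : ∃ c, c = Real.cos (Real.pi * w.re) ^ 2 := ⟨_, rfl⟩
  obtain ⟨X, hX'⟩ : ∃ X, X = Real.sinh (Real.pi * w.im) ^ 2 := ⟨_, rfl⟩
  have e1 := cc_conj_re w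
  have e2 := cc_conj_im_sq w
  have e3 := cc_conj_im_nonneg h0 h1 hi
  rw [← hc, ← hX'] at e1 e2
  rw [← hc] at g1 g2
  rw [← hc, ← hX'] at hX
  have hX0 : 0 ≤ X := by rw [hX']; positivity
  have c0 : 0 ≤ c := hc2.trans g2
  have c01 : c ≤ 1 := by rw [hc]; exact Real.cos_sq_le_one _
  -- the line value is increasing in `c`
  have mono : ∀ u v : ℝ, 0 ≤ u → u ≤ v → u + T * (u * (2 * u - 1)) ≤ v + T * (v * (2 * v - 1)) := by
    intro u v hu huv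
    have k1 : 0 ≤ (v - u) * (1 - T + 2 * T * (u + v)) := by
      apply mul_nonneg (by linarith)
      have : 0 ≤ 2 * T * (u + v) := by
        apply mul_nonneg (by linarith); linarith
      linarith
    nlinarith
  constructor
  · rw [e1]
    have m2 := mono c2 c hc2 g2
    have m1 := mono c c1 c0 g1
    rcases le_total (2 * c - 1) 0 with h | h
    · constructor
      · have : T * c * (2 * c - 1) ≤ X * (2 * c - 1) := mul_le_mul_of_nonpos_right hX h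
        nlinarith
      · have : X * (2 * c - 1) ≤ 0 := mul_nonpos_of_nonneg_of_nonpos hX0 h
        nlinarith
    · constructor
      · have : 0 ≤ X * (2 * c - 1) := mul_nonneg hX0 h
        nlinarith
      · have : X * (2 * c - 1) ≤ T * c * (2 * c - 1) := mul_le_mul_of_nonneg_right hX h
        nlinarith
  · constructor
    · rw [j0, Nat.cast_zero]
      positivity
    · have hj : 0 ≤ (J.hi : ℝ) / 1073741824 := by positivity
      have k1 : (cc ((starRingEnd ℂ) w)).im ^ 2 ≤ ((J.hi : ℝ) / 1073741824) ^ 2 := by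
        rw [e2]
        refine le_trans ?_ j1
        have a1 : X * (1 + X) ≤ (T * c) * (1 + T * c1) := by
          apply mul_le_mul hX _ (by linarith) (by positivity)
          have := mul_le_mul_of_nonneg_left g1 hT0
          linarith
        have a2 := hM c g2 g1
        have a3 : 0 ≤ 4 * c * (1 - c) := by
          apply mul_nonneg (by linarith); linarith
        have a4 : 0 ≤ 1 + T * c1 := by
          have := mul_nonneg hT0 (c0.trans g1)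
          linarith
        calc 4 * c * (1 - c) * X * (1 + X) = 4 * c * (1 - c) * (X * (1 + X)) := by ring
          _ ≤ 4 * c * (1 - c) * ((T * c) * (1 + T * c1)) := mul_le_mul_of_nonneg_left a1 a3
          _ = 4 * T * (c ^ 2 * (1 - c)) * (1 + T * c1) := by ring
          _ ≤ 4 * T * M * (1 + T * c1) := by
            apply mul_le_mul_of_nonneg_right _ a4
            exact mul_le_mul_of_nonneg_left a2 (by linarith)
      have k2 := (pow_le_pow_iff_left₀ e3 hj two_ne_zero).1 k1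
      rw [le_div_iff₀ (by norm_num)] at k2
      exact k2

/-- The rectangle of `c_w` for the points of the line. -/
theorem rect_line {w : ℂ} {c1 c2 T T1 T2 M m : ℝ} {R J : N} (h0 : 0 ≤ w.re) (h1 : w.re ≤ 1 / 2)
    (hi : 0 ≤ w.im) (hT1 : 0 ≤ T1) (ht1 : T1 ≤ T) (ht2 : T ≤ T2) (hT2 : T2 ≤ 1)
    (hX : Real.sinh (Real.pi * w.im) ^ 2 = T * Real.cos (Real.pi * w.re) ^ 2) (hc2 : 1 / 2 ≤ c2)
    (g2 : c2 ≤ Real.cos (Real.pi * w.re) ^ 2) (g1 : Real.cos (Real.pi * w.re) ^ 2 ≤ c1)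
    (r2 : (R.lo : ℝ) ≤ (c2 + T1 * (c2 * (2 * c2 - 1))) * 1073741824)
    (r4 : (c1 + T2 * (c1 * (2 * c1 - 1))) * 1073741824 ≤ R.hi)
    (hM : ∀ c : ℝ, c2 ≤ c → c ≤ c1 → c ^ 2 * (1 - c) ≤ M)
    (hm : ∀ c : ℝ, c2 ≤ c → c ≤ c1 → m ≤ c ^ 2 * (1 - c)) (m0 : 0 ≤ m)
    (j0 : ((J.lo : ℝ) / 1073741824) ^ 2 ≤ 4 * T1 * m * (1 + T1 * c2))
    (j1 : 4 * T2 * M * (1 + T2 * c1) ≤ ((J.hi : ℝ) / 1073741824) ^ 2) :
    Mem (cc ((starRingEnd ℂ) w)).re R ∧ Mem (cc ((starRingEnd ℂ) w)).im J := by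
  obtain ⟨c, hc⟩ : ∃ c, c = Real.cos (Real.pi * w.re) ^ 2 := ⟨_, rfl⟩
  have e1 := cc_conj_re w
  have e2 := cc_conj_im_sq w
  have e3 := cc_conj_im_nonneg h0 h1 hi
  rw [← hc] at g1 g2 hX
  rw [hX, ← hc] at e1 e2
  have c0 : 0 < c := by linarith
  have c01 : c ≤ 1 := by rw [hc]; exact Real.cos_sq_le_one _
  have mono : ∀ S u v : ℝ, 0 ≤ S → S ≤ 1 → 0 ≤ u → u ≤ v →
      u + S * (u * (2 * u - 1)) ≤ v + S * (v * (2 * v - 1)) := by
    intro S u v hS hS1 hu huv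
    have k1 : 0 ≤ (v - u) * (1 - S + 2 * S * (u + v)) := by
      apply mul_nonneg (by linarith)
      have : 0 ≤ 2 * S * (u + v) := by
        apply mul_nonneg (by linarith); linarith
      linarith
    nlinarith
  have q : 0 ≤ c * (2 * c - 1) := mul_nonneg c0.le (by linarith)
  have q1 := mul_le_mul_of_nonneg_right ht1 q
  have q2 := mul_le_mul_of_nonneg_right ht2 q
  have T0 : 0 ≤ T := hT1.trans ht1
  constructor
  · rw [e1]
    have m2 := mono T1 c2 c hT1 (by linarith) (by linarith) g2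
    have m1 := mono T2 c c1 (by linarith) hT2 c0.le g1
    constructor <;> nlinarith
  · have a2 := hM c g2 g1
    have a5 := hm c g2 g1
    have e4 : (cc ((starRingEnd ℂ) w)).im ^ 2 = 4 * T * (c ^ 2 * (1 - c)) * (1 + T * c) := by
      rw [e2]; ring
    constructor
    · have hj : 0 ≤ (J.lo : ℝ) / 1073741824 := by positivity
      have k1 : ((J.lo : ℝ) / 1073741824) ^ 2 ≤ (cc ((starRingEnd ℂ) w)).im ^ 2 := by
        rw [e4]
        refine j0.trans ?_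
        apply mul_le_mul
        · apply mul_le_mul (by linarith) a5 m0 (by linarith)
        · have := mul_le_mul ht1 g2 (by linarith) T0
          linarith
        · have := mul_nonneg hT1 (by linarith : (0:ℝ) ≤ c2)
          linarith
        · apply mul_nonneg (by linarith) (m0.trans a5)
      have k2 := (pow_le_pow_iff_left₀ hj e3 two_ne_zero).1 k1
      rw [div_le_iff₀ (by norm_num)] at k2
      exact k2
    · have hj : 0 ≤ (J.hi : ℝ) / 1073741824 := by positivity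
      have k1 : (cc ((starRingEnd ℂ) w)).im ^ 2 ≤ ((J.hi : ℝ) / 1073741824) ^ 2 := by
        rw [e4]
        refine le_trans ?_ j1
        have hM0 : 0 ≤ M := m0.trans (a5.trans a2)
        apply mul_le_mul
        · apply mul_le_mul (by linarith) a2 (m0.trans a5) (by linarith)
        · have := mul_le_mul ht2 g1 c0.le (T0.trans ht2)
          linarith
        · have := mul_nonneg T0 c0.le
          linarith
        · have := T0.trans ht2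
          positivity
      have k2 := (pow_le_pow_iff_left₀ e3 hj two_ne_zero).1 k1
      rw [le_div_iff₀ (by norm_num)] at k2
      exact k2

section

variable {Φ : ℂ → ℂ → ℂ} {θ θ' xc xc' b b' v1' μ μ' : ℝ} {w : ℂ}

/-- **A row of slides.** -/
theorem OO.rowN (H : OO Φ θ θ' xc xc' b b' (2 / 5) v1') (ht0 : 3 / 10 ≤ Real.tan θ ^ 2)
    (ht : Real.tan θ ^ 2 ≤ 1) (ht' : Real.tan θ' ^ 2 ≤ 923 / 1000) (hw : w ∈ G0 θ' v1')
    (hw0 : 0 ≤ w.re) {P : P1.Par} {d0 d1 dp dn : ℕ}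
    {A B C D A' B' C' : N} (hc1 : Cert1 P 4 3 d0 d1 A B C D)
    {a0 x0 K E3 h0 k1 k2 P0 : ℝ} (hA : TA a0 (2 / 5) A)
    (hc2 : x0 < 2 / 5 → Cert2 ⟨P.r, P.i, P.slo, P.shi, 4, 3, dp, dn, 0, 0⟩ A' B' C' ∧
      TA x0 (2 / 5) A') (hslo : (P.slo : ℝ) ≤ 3 / 10 * 1073741824)
    (hshi : 1073741824 ≤ (P.shi : ℝ)) (hklo : (P.klo : ℝ) ≤ k1 ^ 2 * 1073741824)
    (hkhi : k2 ^ 2 * 1073741824 ≤ (P.khi : ℝ))
    (hrc : Mem (cc ((starRingEnd ℂ) (cmp v1' w))).re P.r ∧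
      Mem (cc ((starRingEnd ℂ) (cmp v1' w))).im P.i)
    (ha0 : 29 / 100 ≤ a0) (hx0 : a0 ≤ x0)
    (hx1 : x0 ≤ 2 / 5) (hwa : (cmp v1' w).re ≤ a0) (hh : 1 / 100 ≤ h0) (hk0 : 0 ≤ k1)
    (hk : 0 ≤ k2) (hk1 : k1 * Real.tan θ ≤ Real.sinh (Real.pi * h0))
    (hk2 : Real.sinh (Real.pi * h0) ≤ k2 * Real.tan θ) (hP : Real.tan (Real.pi * x0) ≤ P0)
    (hn : k2 ^ 2 * (1 + P0 ^ 2) + 39 / 400 * k2 ^ 2 ≤ 361 / 400)
    (hbase : ∀ t ∈ Icc (0 : ℝ) (1 / 2),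
      EE (.op (vl θ a0)) (.op ((starRingEnd ℂ) (cmp v1' w))) ((t : ℂ) + (h0 : ℂ) * I) <
        LM Φ θ θ' b b' xc xc' (2 / 5) v1' μ μ' (vl θ a0) w -
          49 / 50 * BP b (gdv (UU xc θ)) (vl θ a0))
    (hE1 : ∀ a ∈ Ioc a0 (2 / 5),
      rl b (gdv (UU xc θ)) (qq (UU xc θ) (UU xc' (-θ'))) θ a ≤ 4 / 3 * S2l θ a)
    (hE3 : μ * bl θ (2 / 5) - 49 / 50 * BP b (gdv (UU xc θ)) (vl θ a0) ≤ E3)
    (h3a : ∀ ρ : ℝ, 7 / 10 ≤ ρ → ρ ≤ 19 / 20 → ∀ η ∈ Ioc (0 : ℝ) (bl θ (2 / 5)), hgt ρ η ≤ h0 →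
      ∀ t ∈ Ico (1 / 200 : ℝ) (1 / 2),
      gPd ((t : ℂ) + (hgt ρ η : ℂ) * I) (vv η) ((starRingEnd ℂ) (cmp v1' w)) =
        ‖cos (Real.pi * ((t : ℂ) + (hgt ρ η : ℂ) * I))‖ ^ 4 →
      K * η < (he ((t : ℂ) + (hgt ρ η : ℂ) * I + vv η) - he ((t : ℂ) + (hgt ρ η : ℂ) * I - vv η)).im -
        rp ρ η * (eY ((t : ℂ) + (hgt ρ η : ℂ) * I) (vv η) ((starRingEnd ℂ) (cmp v1' w))).im)
    (h3b : ∀ h1 : ℝ, 0 < h1 → h1 ≤ h0 → ∀ η ∈ Ioc (0 : ℝ) (bl θ (2 / 5)),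
      Real.tanh (Real.pi * h1) ≤ 7 / 10 * Real.tanh (Real.pi * η) →
      ∀ t ∈ Ico (1 / 200 : ℝ) (1 / 2),
      gPd ((t : ℂ) + (h1 : ℂ) * I) (vv η) ((starRingEnd ℂ) (cmp v1' w)) =
        ‖cos (Real.pi * ((t : ℂ) + (h1 : ℂ) * I))‖ ^ 4 →
      K * η < (he ((t : ℂ) + (h1 : ℂ) * I + vv η) - he ((t : ℂ) + (h1 : ℂ) * I - vv η)).im)
    (hK : 0 ≤ K) (n0 : ((dp : ℝ) - dn) / 1073741824 ≤ ((d0 : ℝ) - d1) / 1073741824)
    (n1 : 1 / 100000 ≤ ((d0 : ℝ) - d1) / 1073741824)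
    (n2 : E3 + 1 / 100000 < 2 * (x0 - a0) * ((d0 : ℝ) / 1073741824 - (d1 : ℝ) / 1073741824 * (3 / 10)) +
      2 * (((dp : ℝ) - dn) / 1073741824) * (2 / 5 - x0) +
      K / 2 * (1013 / 10000 * (954 / 10000 * (3 / 10) - 31 / 10000 * (3 / 10) ^ 2)))
    (n3 : E3 + 1 / 100000 < 2 * (x0 - a0) * ((d0 : ℝ) / 1073741824 - (d1 : ℝ) / 1073741824 * 1) +
      2 * (((dp : ℝ) - dn) / 1073741824) * (2 / 5 - x0) +
      K / 2 * (1013 / 10000 * (954 / 10000 * 1 - 31 / 10000 * 1 ^ 2)))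
    (n4 : 0 < 2 * ((d0 : ℝ) / 1073741824 - (d1 : ℝ) / 1073741824 - 1 / 100000) * (x0 - a0) +
      2 * (((dp : ℝ) - dn) / 1073741824 - 1 / 100000) * (2 / 5 - x0))
    (hEnd : ∀ v : ℂ, v ∈ G0 θ (2 / 5) → 0 ≤ v.re → Real.pi * (v.im + w.im) <
      LM Φ θ θ' b b' xc xc' (2 / 5) v1' μ μ' v w) :
    ∀ v : ℂ, v ∈ G0 θ (2 / 5) → a0 ≤ v.re → ∃ h : ℝ, |h| ≤ 1 ∧
      (∀ Y ∈ Set.uIcc 0 h, EE (.op (cmp (2 / 5) v)) (.op ((starRingEnd ℂ) (cmp v1' w)))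
        ((Y : ℂ) * I) < LM Φ θ θ' b b' xc xc' (2 / 5) v1' μ μ' v w) ∧
      ∀ t ∈ Icc (0 : ℝ) (1 / 2),
        EE (.op (cmp (2 / 5) v)) (.op ((starRingEnd ℂ) (cmp v1' w))) ((t : ℂ) + h * I) <
          LM Φ θ θ' b b' xc xc' (2 / 5) v1' μ μ' v w := by
  have ht00 : 0 < Real.tan θ := Real.tan_pos_of_pos_of_lt_pi_div_two H.hθ.pos H.hθ.lt
  have hs0 : (P.slo : ℝ) / 1073741824 ≤ Real.tan θ ^ 2 := by
    rw [div_le_iff₀ (by norm_num)]; linarith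
  have hs1 : Real.tan θ ^ 2 ≤ (P.shi : ℝ) / 1073741824 := by
    rw [le_div_iff₀ (by norm_num)]; linarith
  have hk1' : (P.klo : ℝ) / 1073741824 * Real.tan θ ^ 2 ≤ Real.sinh (Real.pi * h0) ^ 2 := by
    have := pow_le_pow_left₀ (by positivity) hk1 2
    refine le_trans ?_ this
    rw [mul_pow]
    apply mul_le_mul_of_nonneg_right _ (sq_nonneg _)
    rw [div_le_iff₀ (by norm_num)]; exact hklo
  have hk2' : Real.sinh (Real.pi * h0) ^ 2 ≤ (P.khi : ℝ) / 1073741824 * Real.tan θ ^ 2 := by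
    have h1 : 0 ≤ Real.sinh (Real.pi * h0) := le_trans (by positivity) hk1
    have := pow_le_pow_left₀ h1 hk2 2
    refine this.trans ?_
    rw [mul_pow]
    apply mul_le_mul_of_nonneg_right _ (sq_nonneg _)
    rw [le_div_iff₀ (by norm_num)]; exact hkhi
  have uw := cmp_und H.hv1' hw hw0 H.hθ'
  have rw0 : 0 ≤ ((starRingEnd ℂ) (cmp v1' w)).re := by rw [conj_re]; exact uw.re0
  have rw1 : ((starRingEnd ℂ) (cmp v1' w)).re < 1 / 2 := by rw [conj_re]; linarith [uw.re1]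
  have rwi : ((starRingEnd ℂ) (cmp v1' w)).im ≤ 0 := by rw [conj_im]; linarith [uw.im0]
  have d10 : (0 : ℝ) ≤ d1 := d1.cast_nonneg
  refine H.slideN ht0 ht ht' hw hw0 (a0 := a0) (x0 := x0) (D0 := (d0 : ℝ) / 1073741824)
    (D1 := (d1 : ℝ) / 1073741824) (D2 := ((dp : ℝ) - dn) / 1073741824) (K := K) (E3 := E3)
    (h0 := h0) (k2 := k2) (P0 := P0) ha0 hx0 hx1 hwa hh hk hk2 hP hn hbase ?_ ?_ hE1 hE3 h3a h3b hK
    (by positivity) (by rw [← sub_div]; exact n0) (by rw [← sub_div]; exact n1) n2 n3 n4 hEnd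
  · intro a ha h1 t ht2 hg
    have := phase1P hc1 hA H.hθ.pos H.hθ.lt ha.1.le ha.2 hs0 hs1 (by linarith) hk1' hk2' h1 ht2
      hrc.1 hrc.2 hg
    push_cast at this
    linarith
  · intro a ha t ht2 hg
    obtain ⟨c2, hA2⟩ := hc2 (lt_of_lt_of_le ha.1 ha.2)
    have := phase2P c2 hA2 H.hθ.pos H.hθ.lt ha.1.le ha.2 hs0 hs1 ht2 rw0 rw1 rwi hrc.1 hrc.2 hg
    push_cast at this
    rw [sub_zero, zero_div, zero_mul, add_zero] at this
    linarith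

end

end Pool.Agent.S3.T2
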