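import Pool.Agent.S3.Sc.W0h
import Pool.Agent.S3.Sc.W0ta
import Pool.Agent.S3.Sc.W0tb
import Pool.Agent.S3.Sc.W1h
import Pool.Agent.S3.Sc.W1t
import Pool.Agent.S3.Sc.W2
import Pool.Agent.S3.Sc.W3
import Pool.Agent.S3.Sc.W4
import Pool.Agent.S3.Sc.W5a
import Pool.Agent.S3.Sc.W5b
import Pool.Agent.S3.W2.E23D
import Pool.Agent.S3.W2.P3W1
import Pool.Agent.S3.W2.P3W2
import Pool.Agent.S3.W2.P3W3
import Pool.Agent.S3.W2.P3X3
import Pool.Agent.S3.W2.P3X4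
import Pool.Agent.S3.W2.RowC
import Pool.Agent.S3.W2.RowN

/-!
# The slides of a vertex with two half twists next to one with at least three: the rows
-/

set_option autoImplicit false

namespace Pool.Agent.S3.T2

open Complex Set
open Pool.Agent.S3.NI
open Pool.Agent.H25.RK (gdv gdv_re_lt gdv_hasDerivAt)

section

variable {Φ : ℂ → ℂ → ℂ} {θ θ' xc xc' b b' : ℝ} {a' : ℕ} {w : ℂ}

/-- Row W0h. -/
theorem D23.rW0h (D : D23 Φ θ θ' xc xc' b b' a') (E : E23 θ θ' xc xc' b)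
    (hw : w ∈ G0 θ' (13 / 40)) (hw0 : 0 ≤ w.re) (y1 : 0 ≤ (cmp (13 / 40) w).re)
    (y2 : (cmp (13 / 40) w).re ≤ 2 / 25) (hT : Real.tan θ' ^ 2 ≤ 103 / 1000)
    (k1 : 81 / 250 * Real.tan θ ≤ Real.sinh (Real.pi * (yv (vl θ (333 / 1000)) (cmp (13 / 40) w)).im))
    (k2 : Real.sinh (Real.pi * (yv (vl θ (333 / 1000)) (cmp (13 / 40) w)).im) ≤ 179 / 500 * Real.tan θ)
    (hEnd : ∀ v : ℂ, v ∈ G0 θ (2 / 5) → 0 ≤ v.re → Real.pi * (v.im + w.im) <
      LM Φ θ θ' b b' xc xc' (2 / 5) (13 / 40) (mu b (2 : ℝ) (2 / 5)) (mu b' (a' : ℝ) (13 / 40)) v w) :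
    ∀ v : ℂ, v ∈ G0 θ (2 / 5) → 333 / 1000 ≤ v.re → ∃ h : ℝ, |h| ≤ 1 ∧
      (∀ Y ∈ Set.uIcc 0 h, EE (.op (cmp (2 / 5) v)) (.op ((starRingEnd ℂ) (cmp (13 / 40) w)))
        ((Y : ℂ) * I) < LM Φ θ θ' b b' xc xc' (2 / 5) (13 / 40) (mu b (2 : ℝ) (2 / 5))
          (mu b' (a' : ℝ) (13 / 40)) v w) ∧
      ∀ t ∈ Icc (0 : ℝ) (1 / 2),
        EE (.op (cmp (2 / 5) v)) (.op ((starRingEnd ℂ) (cmp (13 / 40) w))) ((t : ℂ) + h * I) <
          LM Φ θ θ' b b' xc xc' (2 / 5) (13 / 40) (mu b (2 : ℝ) (2 / 5))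
            (mu b' (a' : ℝ) (13 / 40)) v w := by
  have uw := cmp_und D.H.hv1' hw hw0 D.H.hθ'
  have ht0 : 0 < Real.tan θ := Real.tan_pos_of_pos_of_lt_pi_div_two D.H.hθ.pos D.H.hθ.lt
  have ht1 : Real.tan θ ≤ 1 := by
    have := D.t1
    by_contra hc
    push Not at hc
    nlinarith
  have hS := tan_le_half D.t2
  have u0 := uw.re0
  have u1 := uw.re1
  have g2 : (93812 : ℝ) / 100000 ≤ Real.cos (Real.pi * (cmp (13 / 40) w).re) ^ 2 :=
    cl_2_25.trans (cosq_anti u0 y2 (by norm_num))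
  have g1 : Real.cos (Real.pi * (cmp (13 / 40) w).re) ^ 2 ≤ 1 := Real.cos_sq_le_one _
  have hM : ∀ c : ℝ, 93812 / 100000 ≤ c → c ≤ 1 → c ^ 2 * (1 - c) ≤ 54459 / 1000000 := by
    intro c h1 h2
    have e : c ^ 2 * (1 - c) ≤ (93812 / 100000) ^ 2 * (1 - 93812 / 100000) := by
      nlinarith [mul_nonneg (sub_nonneg.2 h1) (sub_nonneg.2 h2), mul_nonneg (sub_nonneg.2 h1) (sq_nonneg (c - 2 / 3))]
    exact e.trans (by norm_num)
  have hrc := rect_und (R := ScW0h.P.r) (J := ScW0h.P.i) (T := 103 / 1000) u0 (by linarith) uw.im0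
    (by norm_num) (by norm_num) (und_X2 uw hT) (by norm_num) g2 g1 (by norm_num [ScW0h.P])
    (by norm_num [ScW0h.P]) (by norm_num [ScW0h.P]) (by norm_num [ScW0h.P]) hM
    (by norm_num [ScW0h.P]) (by norm_num [ScW0h.P])
  refine D.H.rowN (a0 := 333 / 1000) (x0 := 47 / 125) (K := 103 / 10) (E3 := 31 / 500)
    (h0 := (yv (vl θ (333 / 1000)) (cmp (13 / 40) w)).im) (k1 := 81 / 250) (k2 := 179 / 500) (dp := 0) (dn := 0)
    E.s3 D.t1.le (by linarith [D.t2]) hw hw0 ScW0h.c1 ta_333_1000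
    (fun _ => ⟨ScW0h.c2, ta_47_125⟩) (by norm_num [ScW0h.P]) (by norm_num [ScW0h.P]) (by norm_num [ScW0h.P])
    (by norm_num [ScW0h.P]) hrc (by norm_num) (by norm_num) (by norm_num) (by linarith)
    (h0_ge E.s3 ht0 (by norm_num) k1) (by norm_num) (by norm_num) k1 k2 tp_47_125 (by norm_num)
    (fun t ht => D.base hw hw0 (by norm_num) (Or.inl ⟨by linarith, by norm_num⟩) ht)
    (fun a ha => E.e1 a ⟨by linarith [ha.1], ha.2⟩) (le_trans E.e333 (by norm_num))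
    (P3a.use (P3a.mono P3.w0a (K' := 103 / 10) (S' := 1 / 2) (y1 := 0) (y2 := 2 / 25) (by norm_num) (by norm_num)
      (by norm_num) (by norm_num) (by norm_num) (by norm_num)) ht1 (by rw [conj_re]; linarith) (by rw [conj_re]; linarith)
      (by rw [conj_im]; linarith [uw.im0]) (und_S uw hS))
    (P3b.use (P3b.mono P3.w0b (K' := 103 / 10) (S' := 1 / 2) (y1 := 0) (y2 := 2 / 25) (by norm_num) (by norm_num)
      (by norm_num) (by norm_num) (by norm_num) (by norm_num)) ht1 (by rw [conj_re]; linarith) (by rw [conj_re]; linarith)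
      (by rw [conj_im]; linarith [uw.im0]) (und_S uw hS))
    (by norm_num) (by norm_num) (by norm_num) (by norm_num) (by norm_num) (by norm_num) hEnd

/-- Row W0ta. -/
theorem D23.rW0ta (D : D23 Φ θ θ' xc xc' b b' a') (E : E23 θ θ' xc xc' b)
    (hw : w ∈ G0 θ' (13 / 40)) (hw0 : 0 ≤ w.re) (y1 : 0 ≤ (cmp (13 / 40) w).re)
    (y2 : (cmp (13 / 40) w).re ≤ 1 / 25) (hT : 1 / 16 ≤ Real.tan θ' ^ 2)
    (hE : E3L θ xc b (333 / 1000) (55 / 1000))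
    (k1 : 341 / 1000 * Real.tan θ ≤ Real.sinh (Real.pi * (yv (vl θ (333 / 1000)) (cmp (13 / 40) w)).im))
    (k2 : Real.sinh (Real.pi * (yv (vl θ (333 / 1000)) (cmp (13 / 40) w)).im) ≤ 93 / 250 * Real.tan θ)
    (hEnd : ∀ v : ℂ, v ∈ G0 θ (2 / 5) → 0 ≤ v.re → Real.pi * (v.im + w.im) <
      LM Φ θ θ' b b' xc xc' (2 / 5) (13 / 40) (mu b (2 : ℝ) (2 / 5)) (mu b' (a' : ℝ) (13 / 40)) v w) :
    ∀ v : ℂ, v ∈ G0 θ (2 / 5) → 333 / 1000 ≤ v.re → ∃ h : ℝ, |h| ≤ 1 ∧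
      (∀ Y ∈ Set.uIcc 0 h, EE (.op (cmp (2 / 5) v)) (.op ((starRingEnd ℂ) (cmp (13 / 40) w)))
        ((Y : ℂ) * I) < LM Φ θ θ' b b' xc xc' (2 / 5) (13 / 40) (mu b (2 : ℝ) (2 / 5))
          (mu b' (a' : ℝ) (13 / 40)) v w) ∧
      ∀ t ∈ Icc (0 : ℝ) (1 / 2),
        EE (.op (cmp (2 / 5) v)) (.op ((starRingEnd ℂ) (cmp (13 / 40) w))) ((t : ℂ) + h * I) <
          LM Φ θ θ' b b' xc xc' (2 / 5) (13 / 40) (mu b (2 : ℝ) (2 / 5))
            (mu b' (a' : ℝ) (13 / 40)) v w := by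
  have uw := cmp_und D.H.hv1' hw hw0 D.H.hθ'
  have ht0 : 0 < Real.tan θ := Real.tan_pos_of_pos_of_lt_pi_div_two D.H.hθ.pos D.H.hθ.lt
  have ht1 : Real.tan θ ≤ 1 := by
    have := D.t1
    by_contra hc
    push Not at hc
    nlinarith
  have hS := tan_le_half D.t2
  have u0 := uw.re0
  have u1 := uw.re1
  have g2 : (98426 : ℝ) / 100000 ≤ Real.cos (Real.pi * (cmp (13 / 40) w).re) ^ 2 :=
    cl_1_25.trans (cosq_anti u0 y2 (by norm_num))
  have g1 : Real.cos (Real.pi * (cmp (13 / 40) w).re) ^ 2 ≤ 1 := Real.cos_sq_le_one _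
  have hM : ∀ c : ℝ, 98426 / 100000 ≤ c → c ≤ 1 → c ^ 2 * (1 - c) ≤ 15249 / 1000000 := by
    intro c h1 h2
    have e : c ^ 2 * (1 - c) ≤ (98426 / 100000) ^ 2 * (1 - 98426 / 100000) := by
      nlinarith [mul_nonneg (sub_nonneg.2 h1) (sub_nonneg.2 h2), mul_nonneg (sub_nonneg.2 h1) (sq_nonneg (c - 2 / 3))]
    exact e.trans (by norm_num)
  have hm : ∀ c : ℝ, 98426 / 100000 ≤ c → c ≤ 1 → 0 ≤ c ^ 2 * (1 - c) := by
    intro c h1 h2
    exact mul_nonneg (sq_nonneg _) (by linarith)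
  obtain ⟨l1, l2⟩ := line_of_cmp hw hw0 (lt_of_le_of_lt y2 (by norm_num))
  have hX : Real.sinh (Real.pi * (cmp (13 / 40) w).im) ^ 2 =
      Real.tan θ' ^ 2 * Real.cos (Real.pi * (cmp (13 / 40) w).re) ^ 2 := by
    rw [l1, l2, sinh_pi_bl, mul_pow]
  have hrc := rect_line (R := ScW0ta.P.r) (J := ScW0ta.P.i) u0 (by linarith) uw.im0 (by norm_num)
    hT D.t2 (by norm_num) hX (by norm_num) g2 g1 (by norm_num [ScW0ta.P]) (by norm_num [ScW0ta.P])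
    hM hm (by norm_num) (by norm_num [ScW0ta.P]) (by norm_num [ScW0ta.P])
  refine D.H.rowN (a0 := 333 / 1000) (x0 := 927 / 2500) (K := 103 / 10) (E3 := 11 / 200)
    (h0 := (yv (vl θ (333 / 1000)) (cmp (13 / 40) w)).im) (k1 := 341 / 1000) (k2 := 93 / 250) (dp := 0) (dn := 32212254)
    E.s3 D.t1.le (by linarith [D.t2]) hw hw0 ScW0ta.c1 ta_333_1000
    (fun _ => ⟨ScW0ta.c2, ta_927_2500⟩) (by norm_num [ScW0ta.P]) (by norm_num [ScW0ta.P]) (by norm_num [ScW0ta.P])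
    (by norm_num [ScW0ta.P]) hrc (by norm_num) (by norm_num) (by norm_num) (by linarith)
    (h0_ge E.s3 ht0 (by norm_num) k1) (by norm_num) (by norm_num) k1 k2 tp_927_2500 (by norm_num)
    (fun t ht => D.base hw hw0 (by norm_num) (Or.inl ⟨by linarith, by norm_num⟩) ht)
    (fun a ha => E.e1 a ⟨by linarith [ha.1], ha.2⟩) (le_trans hE (by norm_num))
    (P3a.use (P3a.mono P3.w0a (K' := 103 / 10) (S' := 1 / 2) (y1 := 0) (y2 := 1 / 25) (by norm_num) (by norm_num)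
      (by norm_num) (by norm_num) (by norm_num) (by norm_num)) ht1 (by rw [conj_re]; linarith) (by rw [conj_re]; linarith)
      (by rw [conj_im]; linarith [uw.im0]) (und_S uw hS))
    (P3b.use (P3b.mono P3.w0b (K' := 103 / 10) (S' := 1 / 2) (y1 := 0) (y2 := 1 / 25) (by norm_num) (by norm_num)
      (by norm_num) (by norm_num) (by norm_num) (by norm_num)) ht1 (by rw [conj_re]; linarith) (by rw [conj_re]; linarith)
      (by rw [conj_im]; linarith [uw.im0]) (und_S uw hS))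
    (by norm_num) (by norm_num) (by norm_num) (by norm_num) (by norm_num) (by norm_num) hEnd

/-- Row W0tb. -/
theorem D23.rW0tb (D : D23 Φ θ θ' xc xc' b b' a') (E : E23 θ θ' xc xc' b)
    (hw : w ∈ G0 θ' (13 / 40)) (hw0 : 0 ≤ w.re) (y1 : 1 / 25 ≤ (cmp (13 / 40) w).re)
    (y2 : (cmp (13 / 40) w).re ≤ 2 / 25) (hT : 1 / 16 ≤ Real.tan θ' ^ 2)
    (hE : E3L θ xc b (333 / 1000) (55 / 1000))
    (k1 : 333 / 1000 * Real.tan θ ≤ Real.sinh (Real.pi * (yv (vl θ (333 / 1000)) (cmp (13 / 40) w)).im))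
    (k2 : Real.sinh (Real.pi * (yv (vl θ (333 / 1000)) (cmp (13 / 40) w)).im) ≤ 369 / 1000 * Real.tan θ)
    (hEnd : ∀ v : ℂ, v ∈ G0 θ (2 / 5) → 0 ≤ v.re → Real.pi * (v.im + w.im) <
      LM Φ θ θ' b b' xc xc' (2 / 5) (13 / 40) (mu b (2 : ℝ) (2 / 5)) (mu b' (a' : ℝ) (13 / 40)) v w) :
    ∀ v : ℂ, v ∈ G0 θ (2 / 5) → 333 / 1000 ≤ v.re → ∃ h : ℝ, |h| ≤ 1 ∧
      (∀ Y ∈ Set.uIcc 0 h, EE (.op (cmp (2 / 5) v)) (.op ((starRingEnd ℂ) (cmp (13 / 40) w)))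
        ((Y : ℂ) * I) < LM Φ θ θ' b b' xc xc' (2 / 5) (13 / 40) (mu b (2 : ℝ) (2 / 5))
          (mu b' (a' : ℝ) (13 / 40)) v w) ∧
      ∀ t ∈ Icc (0 : ℝ) (1 / 2),
        EE (.op (cmp (2 / 5) v)) (.op ((starRingEnd ℂ) (cmp (13 / 40) w))) ((t : ℂ) + h * I) <
          LM Φ θ θ' b b' xc xc' (2 / 5) (13 / 40) (mu b (2 : ℝ) (2 / 5))
            (mu b' (a' : ℝ) (13 / 40)) v w := by
  have uw := cmp_und D.H.hv1' hw hw0 D.H.hθ'
  have ht0 : 0 < Real.tan θ := Real.tan_pos_of_pos_of_lt_pi_div_two D.H.hθ.pos D.H.hθ.lt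
  have ht1 : Real.tan θ ≤ 1 := by
    have := D.t1
    by_contra hc
    push Not at hc
    nlinarith
  have hS := tan_le_half D.t2
  have u0 := uw.re0
  have u1 := uw.re1
  have g2 : (93812 : ℝ) / 100000 ≤ Real.cos (Real.pi * (cmp (13 / 40) w).re) ^ 2 :=
    cl_2_25.trans (cosq_anti u0 y2 (by norm_num))
  have g1 : Real.cos (Real.pi * (cmp (13 / 40) w).re) ^ 2 ≤ (98430 : ℝ) / 100000 :=
    (cosq_anti (by norm_num) y1 (by linarith)).trans cu_1_25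
  have hM : ∀ c : ℝ, 93812 / 100000 ≤ c → c ≤ 98430 / 100000 → c ^ 2 * (1 - c) ≤ 54459 / 1000000 := by
    intro c h1 h2
    have e : c ^ 2 * (1 - c) ≤ (93812 / 100000) ^ 2 * (1 - 93812 / 100000) := by
      nlinarith [mul_nonneg (sub_nonneg.2 h1) (sub_nonneg.2 h2), mul_nonneg (sub_nonneg.2 h1) (sq_nonneg (c - 2 / 3))]
    exact e.trans (by norm_num)
  have hm : ∀ c : ℝ, 93812 / 100000 ≤ c → c ≤ 98430 / 100000 → 15210 / 1000000 ≤ c ^ 2 * (1 - c) := by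
    intro c h1 h2
    have e : (98430 / 100000) ^ 2 * (1 - 98430 / 100000) ≤ c ^ 2 * (1 - c) := by
      nlinarith [mul_nonneg (sub_nonneg.2 h1) (sub_nonneg.2 h2), mul_nonneg (sub_nonneg.2 h2) (sq_nonneg (c - 2 / 3))]
    exact le_trans (by norm_num) e
  obtain ⟨l1, l2⟩ := line_of_cmp hw hw0 (lt_of_le_of_lt y2 (by norm_num))
  have hX : Real.sinh (Real.pi * (cmp (13 / 40) w).im) ^ 2 =
      Real.tan θ' ^ 2 * Real.cos (Real.pi * (cmp (13 / 40) w).re) ^ 2 := by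
    rw [l1, l2, sinh_pi_bl, mul_pow]
  have hrc := rect_line (R := ScW0tb.P.r) (J := ScW0tb.P.i) u0 (by linarith) uw.im0 (by norm_num)
    hT D.t2 (by norm_num) hX (by norm_num) g2 g1 (by norm_num [ScW0tb.P]) (by norm_num [ScW0tb.P])
    hM hm (by norm_num) (by norm_num [ScW0tb.P]) (by norm_num [ScW0tb.P])
  refine D.H.rowN (a0 := 333 / 1000) (x0 := 3719 / 10000) (K := 103 / 10) (E3 := 11 / 200)
    (h0 := (yv (vl θ (333 / 1000)) (cmp (13 / 40) w)).im) (k1 := 333 / 1000) (k2 := 369 / 1000) (dp := 0) (dn := 0)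
    E.s3 D.t1.le (by linarith [D.t2]) hw hw0 ScW0tb.c1 ta_333_1000
    (fun _ => ⟨ScW0tb.c2, ta_3719_10000⟩) (by norm_num [ScW0tb.P]) (by norm_num [ScW0tb.P]) (by norm_num [ScW0tb.P])
    (by norm_num [ScW0tb.P]) hrc (by norm_num) (by norm_num) (by norm_num) (by linarith)
    (h0_ge E.s3 ht0 (by norm_num) k1) (by norm_num) (by norm_num) k1 k2 tp_3719_10000 (by norm_num)
    (fun t ht => D.base hw hw0 (by norm_num) (Or.inl ⟨by linarith, by norm_num⟩) ht)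
    (fun a ha => E.e1 a ⟨by linarith [ha.1], ha.2⟩) (le_trans hE (by norm_num))
    (P3a.use (P3a.mono P3.w0a (K' := 103 / 10) (S' := 1 / 2) (y1 := 1 / 25) (y2 := 2 / 25) (by norm_num) (by norm_num)
      (by norm_num) (by norm_num) (by norm_num) (by norm_num)) ht1 (by rw [conj_re]; linarith) (by rw [conj_re]; linarith)
      (by rw [conj_im]; linarith [uw.im0]) (und_S uw hS))
    (P3b.use (P3b.mono P3.w0b (K' := 103 / 10) (S' := 1 / 2) (y1 := 1 / 25) (y2 := 2 / 25) (by norm_num) (by norm_num)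
      (by norm_num) (by norm_num) (by norm_num) (by norm_num)) ht1 (by rw [conj_re]; linarith) (by rw [conj_re]; linarith)
      (by rw [conj_im]; linarith [uw.im0]) (und_S uw hS))
    (by norm_num) (by norm_num) (by norm_num) (by norm_num) (by norm_num) (by norm_num) hEnd

/-- Row W1h. -/
theorem D23.rW1h (D : D23 Φ θ θ' xc xc' b b' a') (E : E23 θ θ' xc xc' b)
    (hw : w ∈ G0 θ' (13 / 40)) (hw0 : 0 ≤ w.re) (y1 : 2 / 25 ≤ (cmp (13 / 40) w).re)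
    (y2 : (cmp (13 / 40) w).re ≤ 4 / 25) (hT : Real.tan θ' ^ 2 ≤ 103 / 1000)
    (k1 : 29 / 100 * Real.tan θ ≤ Real.sinh (Real.pi * (yv (vl θ (333 / 1000)) (cmp (13 / 40) w)).im))
    (k2 : Real.sinh (Real.pi * (yv (vl θ (333 / 1000)) (cmp (13 / 40) w)).im) ≤ 69 / 200 * Real.tan θ)
    (hEnd : ∀ v : ℂ, v ∈ G0 θ (2 / 5) → 0 ≤ v.re → Real.pi * (v.im + w.im) <
      LM Φ θ θ' b b' xc xc' (2 / 5) (13 / 40) (mu b (2 : ℝ) (2 / 5)) (mu b' (a' : ℝ) (13 / 40)) v w) :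
    ∀ v : ℂ, v ∈ G0 θ (2 / 5) → 333 / 1000 ≤ v.re → ∃ h : ℝ, |h| ≤ 1 ∧
      (∀ Y ∈ Set.uIcc 0 h, EE (.op (cmp (2 / 5) v)) (.op ((starRingEnd ℂ) (cmp (13 / 40) w)))
        ((Y : ℂ) * I) < LM Φ θ θ' b b' xc xc' (2 / 5) (13 / 40) (mu b (2 : ℝ) (2 / 5))
          (mu b' (a' : ℝ) (13 / 40)) v w) ∧
      ∀ t ∈ Icc (0 : ℝ) (1 / 2),
        EE (.op (cmp (2 / 5) v)) (.op ((starRingEnd ℂ) (cmp (13 / 40) w))) ((t : ℂ) + h * I) <
          LM Φ θ θ' b b' xc xc' (2 / 5) (13 / 40) (mu b (2 : ℝ) (2 / 5))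
            (mu b' (a' : ℝ) (13 / 40)) v w := by
  have uw := cmp_und D.H.hv1' hw hw0 D.H.hθ'
  have ht0 : 0 < Real.tan θ := Real.tan_pos_of_pos_of_lt_pi_div_two D.H.hθ.pos D.H.hθ.lt
  have ht1 : Real.tan θ ≤ 1 := by
    have := D.t1
    by_contra hc
    push Not at hc
    nlinarith
  have hS := tan_le_half D.t2
  have u0 := uw.re0
  have u1 := uw.re1
  have g2 : (76788 : ℝ) / 100000 ≤ Real.cos (Real.pi * (cmp (13 / 40) w).re) ^ 2 :=
    cl_4_25.trans (cosq_anti u0 y2 (by norm_num))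
  have g1 : Real.cos (Real.pi * (cmp (13 / 40) w).re) ^ 2 ≤ (93816 : ℝ) / 100000 :=
    (cosq_anti (by norm_num) y1 (by linarith)).trans cu_2_25
  have hM : ∀ c : ℝ, 76788 / 100000 ≤ c → c ≤ 93816 / 100000 → c ^ 2 * (1 - c) ≤ 136868 / 1000000 := by
    intro c h1 h2
    have e : c ^ 2 * (1 - c) ≤ (76788 / 100000) ^ 2 * (1 - 76788 / 100000) := by
      nlinarith [mul_nonneg (sub_nonneg.2 h1) (sub_nonneg.2 h2), mul_nonneg (sub_nonneg.2 h1) (sq_nonneg (c - 2 / 3))]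
    exact e.trans (by norm_num)
  have hrc := rect_und (R := ScW1h.P.r) (J := ScW1h.P.i) (T := 103 / 1000) u0 (by linarith) uw.im0
    (by norm_num) (by norm_num) (und_X2 uw hT) (by norm_num) g2 g1 (by norm_num [ScW1h.P])
    (by norm_num [ScW1h.P]) (by norm_num [ScW1h.P]) (by norm_num [ScW1h.P]) hM
    (by norm_num [ScW1h.P]) (by norm_num [ScW1h.P])
  refine D.H.rowN (a0 := 333 / 1000) (x0 := 238 / 625) (K := 62 / 5) (E3 := 31 / 500)
    (h0 := (yv (vl θ (333 / 1000)) (cmp (13 / 40) w)).im) (k1 := 29 / 100) (k2 := 69 / 200) (dp := 42949673) (dn := 0)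
    E.s3 D.t1.le (by linarith [D.t2]) hw hw0 ScW1h.c1 ta_333_1000
    (fun _ => ⟨ScW1h.c2, ta_238_625⟩) (by norm_num [ScW1h.P]) (by norm_num [ScW1h.P]) (by norm_num [ScW1h.P])
    (by norm_num [ScW1h.P]) hrc (by norm_num) (by norm_num) (by norm_num) (by linarith)
    (h0_ge E.s3 ht0 (by norm_num) k1) (by norm_num) (by norm_num) k1 k2 tp_238_625 (by norm_num)
    (fun t ht => D.base hw hw0 (by norm_num) (Or.inl ⟨by linarith, by norm_num⟩) ht)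
    (fun a ha => E.e1 a ⟨by linarith [ha.1], ha.2⟩) (le_trans E.e333 (by norm_num))
    (P3a.use (P3a.mono P3.w1a (K' := 62 / 5) (S' := 1 / 2) (y1 := 2 / 25) (y2 := 4 / 25) (by norm_num) (by norm_num)
      (by norm_num) (by norm_num) (by norm_num) (by norm_num)) ht1 (by rw [conj_re]; linarith) (by rw [conj_re]; linarith)
      (by rw [conj_im]; linarith [uw.im0]) (und_S uw hS))
    (P3b.use (P3b.mono P3.w1b (K' := 62 / 5) (S' := 1 / 2) (y1 := 2 / 25) (y2 := 4 / 25) (by norm_num) (by norm_num)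
      (by norm_num) (by norm_num) (by norm_num) (by norm_num)) ht1 (by rw [conj_re]; linarith) (by rw [conj_re]; linarith)
      (by rw [conj_im]; linarith [uw.im0]) (und_S uw hS))
    (by norm_num) (by norm_num) (by norm_num) (by norm_num) (by norm_num) (by norm_num) hEnd

/-- Row W1t. -/
theorem D23.rW1t (D : D23 Φ θ θ' xc xc' b b' a') (E : E23 θ θ' xc xc' b)
    (hw : w ∈ G0 θ' (13 / 40)) (hw0 : 0 ≤ w.re) (y1 : 2 / 25 ≤ (cmp (13 / 40) w).re)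
    (y2 : (cmp (13 / 40) w).re ≤ 4 / 25) (hT : 1 / 16 ≤ Real.tan θ' ^ 2)
    (hE : E3L θ xc b (333 / 1000) (55 / 1000))
    (k1 : 37 / 125 * Real.tan θ ≤ Real.sinh (Real.pi * (yv (vl θ (333 / 1000)) (cmp (13 / 40) w)).im))
    (k2 : Real.sinh (Real.pi * (yv (vl θ (333 / 1000)) (cmp (13 / 40) w)).im) ≤ 183 / 500 * Real.tan θ)
    (hEnd : ∀ v : ℂ, v ∈ G0 θ (2 / 5) → 0 ≤ v.re → Real.pi * (v.im + w.im) <
      LM Φ θ θ' b b' xc xc' (2 / 5) (13 / 40) (mu b (2 : ℝ) (2 / 5)) (mu b' (a' : ℝ) (13 / 40)) v w) :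
    ∀ v : ℂ, v ∈ G0 θ (2 / 5) → 333 / 1000 ≤ v.re → ∃ h : ℝ, |h| ≤ 1 ∧
      (∀ Y ∈ Set.uIcc 0 h, EE (.op (cmp (2 / 5) v)) (.op ((starRingEnd ℂ) (cmp (13 / 40) w)))
        ((Y : ℂ) * I) < LM Φ θ θ' b b' xc xc' (2 / 5) (13 / 40) (mu b (2 : ℝ) (2 / 5))
          (mu b' (a' : ℝ) (13 / 40)) v w) ∧
      ∀ t ∈ Icc (0 : ℝ) (1 / 2),
        EE (.op (cmp (2 / 5) v)) (.op ((starRingEnd ℂ) (cmp (13 / 40) w))) ((t : ℂ) + h * I) <
          LM Φ θ θ' b b' xc xc' (2 / 5) (13 / 40) (mu b (2 : ℝ) (2 / 5))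
            (mu b' (a' : ℝ) (13 / 40)) v w := by
  have uw := cmp_und D.H.hv1' hw hw0 D.H.hθ'
  have ht0 : 0 < Real.tan θ := Real.tan_pos_of_pos_of_lt_pi_div_two D.H.hθ.pos D.H.hθ.lt
  have ht1 : Real.tan θ ≤ 1 := by
    have := D.t1
    by_contra hc
    push Not at hc
    nlinarith
  have hS := tan_le_half D.t2
  have u0 := uw.re0
  have u1 := uw.re1
  have g2 : (76788 : ℝ) / 100000 ≤ Real.cos (Real.pi * (cmp (13 / 40) w).re) ^ 2 :=
    cl_4_25.trans (cosq_anti u0 y2 (by norm_num))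
  have g1 : Real.cos (Real.pi * (cmp (13 / 40) w).re) ^ 2 ≤ (93816 : ℝ) / 100000 :=
    (cosq_anti (by norm_num) y1 (by linarith)).trans cu_2_25
  have hM : ∀ c : ℝ, 76788 / 100000 ≤ c → c ≤ 93816 / 100000 → c ^ 2 * (1 - c) ≤ 136868 / 1000000 := by
    intro c h1 h2
    have e : c ^ 2 * (1 - c) ≤ (76788 / 100000) ^ 2 * (1 - 76788 / 100000) := by
      nlinarith [mul_nonneg (sub_nonneg.2 h1) (sub_nonneg.2 h2), mul_nonneg (sub_nonneg.2 h1) (sq_nonneg (c - 2 / 3))]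
    exact e.trans (by norm_num)
  have hm : ∀ c : ℝ, 76788 / 100000 ≤ c → c ≤ 93816 / 100000 → 54428 / 1000000 ≤ c ^ 2 * (1 - c) := by
    intro c h1 h2
    have e : (93816 / 100000) ^ 2 * (1 - 93816 / 100000) ≤ c ^ 2 * (1 - c) := by
      nlinarith [mul_nonneg (sub_nonneg.2 h1) (sub_nonneg.2 h2), mul_nonneg (sub_nonneg.2 h2) (sq_nonneg (c - 2 / 3))]
    exact le_trans (by norm_num) e
  obtain ⟨l1, l2⟩ := line_of_cmp hw hw0 (lt_of_le_of_lt y2 (by norm_num))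
  have hX : Real.sinh (Real.pi * (cmp (13 / 40) w).im) ^ 2 =
      Real.tan θ' ^ 2 * Real.cos (Real.pi * (cmp (13 / 40) w).re) ^ 2 := by
    rw [l1, l2, sinh_pi_bl, mul_pow]
  have hrc := rect_line (R := ScW1t.P.r) (J := ScW1t.P.i) u0 (by linarith) uw.im0 (by norm_num)
    hT D.t2 (by norm_num) hX (by norm_num) g2 g1 (by norm_num [ScW1t.P]) (by norm_num [ScW1t.P])
    hM hm (by norm_num) (by norm_num [ScW1t.P]) (by norm_num [ScW1t.P])
  refine D.H.rowN (a0 := 333 / 1000) (x0 := 373 / 1000) (K := 62 / 5) (E3 := 11 / 200)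
    (h0 := (yv (vl θ (333 / 1000)) (cmp (13 / 40) w)).im) (k1 := 37 / 125) (k2 := 183 / 500) (dp := 21474837) (dn := 0)
    E.s3 D.t1.le (by linarith [D.t2]) hw hw0 ScW1t.c1 ta_333_1000
    (fun _ => ⟨ScW1t.c2, ta_373_1000⟩) (by norm_num [ScW1t.P]) (by norm_num [ScW1t.P]) (by norm_num [ScW1t.P])
    (by norm_num [ScW1t.P]) hrc (by norm_num) (by norm_num) (by norm_num) (by linarith)
    (h0_ge E.s3 ht0 (by norm_num) k1) (by norm_num) (by norm_num) k1 k2 tp_373_1000 (by norm_num)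
    (fun t ht => D.base hw hw0 (by norm_num) (Or.inl ⟨by linarith, by norm_num⟩) ht)
    (fun a ha => E.e1 a ⟨by linarith [ha.1], ha.2⟩) (le_trans hE (by norm_num))
    (P3a.use (P3a.mono P3.w1a (K' := 62 / 5) (S' := 1 / 2) (y1 := 2 / 25) (y2 := 4 / 25) (by norm_num) (by norm_num)
      (by norm_num) (by norm_num) (by norm_num) (by norm_num)) ht1 (by rw [conj_re]; linarith) (by rw [conj_re]; linarith)
      (by rw [conj_im]; linarith [uw.im0]) (und_S uw hS))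
    (P3b.use (P3b.mono P3.w1b (K' := 62 / 5) (S' := 1 / 2) (y1 := 2 / 25) (y2 := 4 / 25) (by norm_num) (by norm_num)
      (by norm_num) (by norm_num) (by norm_num) (by norm_num)) ht1 (by rw [conj_re]; linarith) (by rw [conj_re]; linarith)
      (by rw [conj_im]; linarith [uw.im0]) (und_S uw hS))
    (by norm_num) (by norm_num) (by norm_num) (by norm_num) (by norm_num) (by norm_num) hEnd

/-- Row W2. -/
theorem D23.rW2 (D : D23 Φ θ θ' xc xc' b b' a') (E : E23 θ θ' xc xc' b)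
    (hw : w ∈ G0 θ' (13 / 40)) (hw0 : 0 ≤ w.re) (y1 : 4 / 25 ≤ (cmp (13 / 40) w).re)
    (y2 : (cmp (13 / 40) w).re ≤ 1 / 5)
    (k1 : 131 / 500 * Real.tan θ ≤ Real.sinh (Real.pi * (yv (vl θ (169 / 500)) (cmp (13 / 40) w)).im))
    (k2 : Real.sinh (Real.pi * (yv (vl θ (169 / 500)) (cmp (13 / 40) w)).im) ≤ 43 / 125 * Real.tan θ)
    (hEnd : ∀ v : ℂ, v ∈ G0 θ (2 / 5) → 0 ≤ v.re → Real.pi * (v.im + w.im) <
      LM Φ θ θ' b b' xc xc' (2 / 5) (13 / 40) (mu b (2 : ℝ) (2 / 5)) (mu b' (a' : ℝ) (13 / 40)) v w) :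
    ∀ v : ℂ, v ∈ G0 θ (2 / 5) → 169 / 500 ≤ v.re → ∃ h : ℝ, |h| ≤ 1 ∧
      (∀ Y ∈ Set.uIcc 0 h, EE (.op (cmp (2 / 5) v)) (.op ((starRingEnd ℂ) (cmp (13 / 40) w)))
        ((Y : ℂ) * I) < LM Φ θ θ' b b' xc xc' (2 / 5) (13 / 40) (mu b (2 : ℝ) (2 / 5))
          (mu b' (a' : ℝ) (13 / 40)) v w) ∧
      ∀ t ∈ Icc (0 : ℝ) (1 / 2),
        EE (.op (cmp (2 / 5) v)) (.op ((starRingEnd ℂ) (cmp (13 / 40) w))) ((t : ℂ) + h * I) <
          LM Φ θ θ' b b' xc xc' (2 / 5) (13 / 40) (mu b (2 : ℝ) (2 / 5))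
            (mu b' (a' : ℝ) (13 / 40)) v w := by
  have uw := cmp_und D.H.hv1' hw hw0 D.H.hθ'
  have ht0 : 0 < Real.tan θ := Real.tan_pos_of_pos_of_lt_pi_div_two D.H.hθ.pos D.H.hθ.lt
  have ht1 : Real.tan θ ≤ 1 := by
    have := D.t1
    by_contra hc
    push Not at hc
    nlinarith
  have hS := tan_le_half D.t2
  have u0 := uw.re0
  have u1 := uw.re1
  have g2 : (65447 : ℝ) / 100000 ≤ Real.cos (Real.pi * (cmp (13 / 40) w).re) ^ 2 :=
    cl_1_5.trans (cosq_anti u0 y2 (by norm_num))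
  have g1 : Real.cos (Real.pi * (cmp (13 / 40) w).re) ^ 2 ≤ (76792 : ℝ) / 100000 :=
    (cosq_anti (by norm_num) y1 (by linarith)).trans cu_4_25
  have hM : ∀ c : ℝ, 65447 / 100000 ≤ c → c ≤ 76792 / 100000 → c ^ 2 * (1 - c) ≤ 148149 / 1000000 := by
    intro c h1 h2
    have e : c ^ 2 * (1 - c) ≤ 4 / 27 := by
      nlinarith [mul_nonneg (by linarith : (0 : ℝ) ≤ c + 1 / 3) (sq_nonneg (c - 2 / 3))]
    exact e.trans (by norm_num)
  have hrc := rect_und (R := ScW2.P.r) (J := ScW2.P.i) (T := 1 / 4) u0 (by linarith) uw.im0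
    (by norm_num) (by norm_num) (und_X2 uw D.t2) (by norm_num) g2 g1 (by norm_num [ScW2.P])
    (by norm_num [ScW2.P]) (by norm_num [ScW2.P]) (by norm_num [ScW2.P]) hM
    (by norm_num [ScW2.P]) (by norm_num [ScW2.P])
  refine D.H.rowN (a0 := 169 / 500) (x0 := 953 / 2500) (K := 27 / 2) (E3 := 3 / 50)
    (h0 := (yv (vl θ (169 / 500)) (cmp (13 / 40) w)).im) (k1 := 131 / 500) (k2 := 43 / 125) (dp := 53687092) (dn := 0)
    E.s3 D.t1.le (by linarith [D.t2]) hw hw0 ScW2.c1 ta_169_500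
    (fun _ => ⟨ScW2.c2, ta_953_2500⟩) (by norm_num [ScW2.P]) (by norm_num [ScW2.P]) (by norm_num [ScW2.P])
    (by norm_num [ScW2.P]) hrc (by norm_num) (by norm_num) (by norm_num) (by linarith)
    (h0_ge E.s3 ht0 (by norm_num) k1) (by norm_num) (by norm_num) k1 k2 tp_953_2500 (by norm_num)
    (fun t ht => D.base hw hw0 (by norm_num) (Or.inr (Or.inl ⟨⟨y1, y2⟩, by norm_num⟩)) ht)
    (fun a ha => E.e1 a ⟨by linarith [ha.1], ha.2⟩) (le_trans E.e338 (by norm_num))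
    (P3a.use (P3a.mono P3.x3a (K' := 27 / 2) (S' := 9 / 10) (y1 := 4 / 25) (y2 := 1 / 5) (by norm_num) (by norm_num)
      (by norm_num) (by norm_num) (by norm_num) (by norm_num)) ht1 (by rw [conj_re]; linarith) (by rw [conj_re]; linarith)
      (by rw [conj_im]; linarith [uw.im0]) (und_S uw (by linarith)))
    (P3b.use (P3b.mono P3.x3b (K' := 27 / 2) (S' := 9 / 10) (y1 := 4 / 25) (y2 := 1 / 5) (by norm_num) (by norm_num)
      (by norm_num) (by norm_num) (by norm_num) (by norm_num)) ht1 (by rw [conj_re]; linarith) (by rw [conj_re]; linarith)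
      (by rw [conj_im]; linarith [uw.im0]) (und_S uw (by linarith)))
    (by norm_num) (by norm_num) (by norm_num) (by norm_num) (by norm_num) (by norm_num) hEnd

/-- Row W3. -/
theorem D23.rW3 (D : D23 Φ θ θ' xc xc' b b' a') (E : E23 θ θ' xc xc' b)
    (hw : w ∈ G0 θ' (13 / 40)) (hw0 : 0 ≤ w.re) (y1 : 1 / 5 ≤ (cmp (13 / 40) w).re)
    (y2 : (cmp (13 / 40) w).re ≤ 6 / 25)
    (k1 : 57 / 250 * Real.tan θ ≤ Real.sinh (Real.pi * (yv (vl θ (173 / 500)) (cmp (13 / 40) w)).im))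
    (k2 : Real.sinh (Real.pi * (yv (vl θ (173 / 500)) (cmp (13 / 40) w)).im) ≤ 13 / 40 * Real.tan θ)
    (hEnd : ∀ v : ℂ, v ∈ G0 θ (2 / 5) → 0 ≤ v.re → Real.pi * (v.im + w.im) <
      LM Φ θ θ' b b' xc xc' (2 / 5) (13 / 40) (mu b (2 : ℝ) (2 / 5)) (mu b' (a' : ℝ) (13 / 40)) v w) :
    ∀ v : ℂ, v ∈ G0 θ (2 / 5) → 173 / 500 ≤ v.re → ∃ h : ℝ, |h| ≤ 1 ∧
      (∀ Y ∈ Set.uIcc 0 h, EE (.op (cmp (2 / 5) v)) (.op ((starRingEnd ℂ) (cmp (13 / 40) w)))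
        ((Y : ℂ) * I) < LM Φ θ θ' b b' xc xc' (2 / 5) (13 / 40) (mu b (2 : ℝ) (2 / 5))
          (mu b' (a' : ℝ) (13 / 40)) v w) ∧
      ∀ t ∈ Icc (0 : ℝ) (1 / 2),
        EE (.op (cmp (2 / 5) v)) (.op ((starRingEnd ℂ) (cmp (13 / 40) w))) ((t : ℂ) + h * I) <
          LM Φ θ θ' b b' xc xc' (2 / 5) (13 / 40) (mu b (2 : ℝ) (2 / 5))
            (mu b' (a' : ℝ) (13 / 40)) v w := by
  have uw := cmp_und D.H.hv1' hw hw0 D.H.hθ'
  have ht0 : 0 < Real.tan θ := Real.tan_pos_of_pos_of_lt_pi_div_two D.H.hθ.pos D.H.hθ.lt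
  have ht1 : Real.tan θ ≤ 1 := by
    have := D.t1
    by_contra hc
    push Not at hc
    nlinarith
  have hS := tan_le_half D.t2
  have u0 := uw.re0
  have u1 := uw.re1
  have g2 : (53136 : ℝ) / 100000 ≤ Real.cos (Real.pi * (cmp (13 / 40) w).re) ^ 2 :=
    cl_6_25.trans (cosq_anti u0 y2 (by norm_num))
  have g1 : Real.cos (Real.pi * (cmp (13 / 40) w).re) ^ 2 ≤ (65452 : ℝ) / 100000 :=
    (cosq_anti (by norm_num) y1 (by linarith)).trans cu_1_5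
  have hM : ∀ c : ℝ, 53136 / 100000 ≤ c → c ≤ 65452 / 100000 → c ^ 2 * (1 - c) ≤ 148003 / 1000000 := by
    intro c h1 h2
    have e : c ^ 2 * (1 - c) ≤ (65452 / 100000) ^ 2 * (1 - 65452 / 100000) := by
      nlinarith [mul_nonneg (sub_nonneg.2 h1) (sub_nonneg.2 h2), mul_nonneg (sub_nonneg.2 h2) (sq_nonneg (c - 2 / 3))]
    exact e.trans (by norm_num)
  have hrc := rect_und (R := ScW3.P.r) (J := ScW3.P.i) (T := 1 / 4) u0 (by linarith) uw.im0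
    (by norm_num) (by norm_num) (und_X2 uw D.t2) (by norm_num) g2 g1 (by norm_num [ScW3.P])
    (by norm_num [ScW3.P]) (by norm_num [ScW3.P]) (by norm_num [ScW3.P]) hM
    (by norm_num [ScW3.P]) (by norm_num [ScW3.P])
  refine D.H.rowN (a0 := 173 / 500) (x0 := 3881 / 10000) (K := 27 / 2) (E3 := 11 / 200)
    (h0 := (yv (vl θ (173 / 500)) (cmp (13 / 40) w)).im) (k1 := 57 / 250) (k2 := 13 / 40) (dp := 53687092) (dn := 0)
    E.s3 D.t1.le (by linarith [D.t2]) hw hw0 ScW3.c1 ta_173_500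
    (fun _ => ⟨ScW3.c2, ta_3881_10000⟩) (by norm_num [ScW3.P]) (by norm_num [ScW3.P]) (by norm_num [ScW3.P])
    (by norm_num [ScW3.P]) hrc (by norm_num) (by norm_num) (by norm_num) (by linarith)
    (h0_ge E.s3 ht0 (by norm_num) k1) (by norm_num) (by norm_num) k1 k2 tp_3881_10000 (by norm_num)
    (fun t ht => D.base hw hw0 (by norm_num) (Or.inr (Or.inr (Or.inl ⟨⟨y1, y2⟩, by norm_num⟩))) ht)
    (fun a ha => E.e1 a ⟨by linarith [ha.1], ha.2⟩) (le_trans E.e346 (by norm_num))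
    (P3a.use (P3a.mono P3.x4a (K' := 27 / 2) (S' := 9 / 10) (y1 := 1 / 5) (y2 := 6 / 25) (by norm_num) (by norm_num)
      (by norm_num) (by norm_num) (by norm_num) (by norm_num)) ht1 (by rw [conj_re]; linarith) (by rw [conj_re]; linarith)
      (by rw [conj_im]; linarith [uw.im0]) (und_S uw (by linarith)))
    (P3b.use (P3b.mono P3.x4b (K' := 27 / 2) (S' := 9 / 10) (y1 := 1 / 5) (y2 := 6 / 25) (by norm_num) (by norm_num)
      (by norm_num) (by norm_num) (by norm_num) (by norm_num)) ht1 (by rw [conj_re]; linarith) (by rw [conj_re]; linarith)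
      (by rw [conj_im]; linarith [uw.im0]) (und_S uw (by linarith)))
    (by norm_num) (by norm_num) (by norm_num) (by norm_num) (by norm_num) (by norm_num) hEnd

/-- Row W4. -/
theorem D23.rW4 (D : D23 Φ θ θ' xc xc' b b' a') (E : E23 θ θ' xc xc' b)
    (hw : w ∈ G0 θ' (13 / 40)) (hw0 : 0 ≤ w.re) (y1 : 6 / 25 ≤ (cmp (13 / 40) w).re)
    (y2 : (cmp (13 / 40) w).re ≤ 7 / 25)
    (k1 : 177 / 1000 * Real.tan θ ≤ Real.sinh (Real.pi * (yv (vl θ (351 / 1000)) (cmp (13 / 40) w)).im))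
    (k2 : Real.sinh (Real.pi * (yv (vl θ (351 / 1000)) (cmp (13 / 40) w)).im) ≤ 583 / 2000 * Real.tan θ)
    (hEnd : ∀ v : ℂ, v ∈ G0 θ (2 / 5) → 0 ≤ v.re → Real.pi * (v.im + w.im) <
      LM Φ θ θ' b b' xc xc' (2 / 5) (13 / 40) (mu b (2 : ℝ) (2 / 5)) (mu b' (a' : ℝ) (13 / 40)) v w) :
    ∀ v : ℂ, v ∈ G0 θ (2 / 5) → 351 / 1000 ≤ v.re → ∃ h : ℝ, |h| ≤ 1 ∧
      (∀ Y ∈ Set.uIcc 0 h, EE (.op (cmp (2 / 5) v)) (.op ((starRingEnd ℂ) (cmp (13 / 40) w)))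
        ((Y : ℂ) * I) < LM Φ θ θ' b b' xc xc' (2 / 5) (13 / 40) (mu b (2 : ℝ) (2 / 5))
          (mu b' (a' : ℝ) (13 / 40)) v w) ∧
      ∀ t ∈ Icc (0 : ℝ) (1 / 2),
        EE (.op (cmp (2 / 5) v)) (.op ((starRingEnd ℂ) (cmp (13 / 40) w))) ((t : ℂ) + h * I) <
          LM Φ θ θ' b b' xc xc' (2 / 5) (13 / 40) (mu b (2 : ℝ) (2 / 5))
            (mu b' (a' : ℝ) (13 / 40)) v w := by
  have uw := cmp_und D.H.hv1' hw hw0 D.H.hθ'
  have ht0 : 0 < Real.tan θ := Real.tan_pos_of_pos_of_lt_pi_div_two D.H.hθ.pos D.H.hθ.lt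
  have ht1 : Real.tan θ ≤ 1 := by
    have := D.t1
    by_contra hc
    push Not at hc
    nlinarith
  have hS := tan_le_half D.t2
  have u0 := uw.re0
  have u1 := uw.re1
  have g2 : (40627 : ℝ) / 100000 ≤ Real.cos (Real.pi * (cmp (13 / 40) w).re) ^ 2 :=
    cl_7_25.trans (cosq_anti u0 y2 (by norm_num))
  have g1 : Real.cos (Real.pi * (cmp (13 / 40) w).re) ^ 2 ≤ (53141 : ℝ) / 100000 :=
    (cosq_anti (by norm_num) y1 (by linarith)).trans cu_6_25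
  have hM : ∀ c : ℝ, 40627 / 100000 ≤ c → c ≤ 53141 / 100000 → c ^ 2 * (1 - c) ≤ 132329 / 1000000 := by
    intro c h1 h2
    have e : c ^ 2 * (1 - c) ≤ (53141 / 100000) ^ 2 * (1 - 53141 / 100000) := by
      nlinarith [mul_nonneg (sub_nonneg.2 h1) (sub_nonneg.2 h2), mul_nonneg (sub_nonneg.2 h2) (sq_nonneg (c - 2 / 3))]
    exact e.trans (by norm_num)
  have hrc := rect_und (R := ScW4.P.r) (J := ScW4.P.i) (T := 1 / 4) u0 (by linarith) uw.im0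
    (by norm_num) (by norm_num) (und_X2 uw D.t2) (by norm_num) g2 g1 (by norm_num [ScW4.P])
    (by norm_num [ScW4.P]) (by norm_num [ScW4.P]) (by norm_num [ScW4.P]) hM
    (by norm_num [ScW4.P]) (by norm_num [ScW4.P])
  refine D.H.rowN (a0 := 351 / 1000) (x0 := 2 / 5) (K := 13) (E3 := 13 / 250)
    (h0 := (yv (vl θ (351 / 1000)) (cmp (13 / 40) w)).im) (k1 := 177 / 1000) (k2 := 583 / 2000) (dp := 0) (dn := 0)
    (A' := ⟨0, 0⟩) (B' := ⟨0, 0⟩) (C' := ⟨0, 0⟩)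
    E.s3 D.t1.le (by linarith [D.t2]) hw hw0 ScW4.c1 ta_351_1000
    (fun h => absurd h (lt_irrefl _)) (by norm_num [ScW4.P]) (by norm_num [ScW4.P]) (by norm_num [ScW4.P])
    (by norm_num [ScW4.P]) hrc (by norm_num) (by norm_num) (by norm_num) (by linarith)
    (h0_ge E.s3 ht0 (by norm_num) k1) (by norm_num) (by norm_num) k1 k2 tp_2_5 (by norm_num)
    (fun t ht => D.base hw hw0 (by norm_num) (Or.inr (Or.inr (Or.inr (Or.inl ⟨⟨y1, y2⟩, by norm_num⟩)))) ht)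
    (fun a ha => E.e1 a ⟨by linarith [ha.1], ha.2⟩) (le_trans E.e351 (by norm_num))
    (P3a.use (P3a.mono P3.x5a (K' := 13) (S' := 9 / 10) (y1 := 6 / 25) (y2 := 7 / 25) (by norm_num) (by norm_num)
      (by norm_num) (by norm_num) (by norm_num) (by norm_num)) ht1 (by rw [conj_re]; linarith) (by rw [conj_re]; linarith)
      (by rw [conj_im]; linarith [uw.im0]) (und_S uw (by linarith)))
    (P3b.use (P3b.mono P3.x5b (K' := 13) (S' := 9 / 10) (y1 := 6 / 25) (y2 := 7 / 25) (by norm_num) (by norm_num)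
      (by norm_num) (by norm_num) (by norm_num) (by norm_num)) ht1 (by rw [conj_re]; linarith) (by rw [conj_re]; linarith)
      (by rw [conj_im]; linarith [uw.im0]) (und_S uw (by linarith)))
    (by norm_num) (by norm_num) (by norm_num) (by norm_num) (by norm_num) (by norm_num) hEnd

/-- Row W5a. -/
theorem D23.rW5a (D : D23 Φ θ θ' xc xc' b b' a') (E : E23 θ θ' xc xc' b)
    (hw : w ∈ G0 θ' (13 / 40)) (hw0 : 0 ≤ w.re) (y1 : 7 / 25 ≤ (cmp (13 / 40) w).re)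
    (y2 : (cmp (13 / 40) w).re ≤ 29 / 100)
    (k1 : 39 / 200 * Real.tan θ ≤ Real.sinh (Real.pi * (yv (vl θ (93 / 250)) (cmp (13 / 40) w)).im))
    (k2 : Real.sinh (Real.pi * (yv (vl θ (93 / 250)) (cmp (13 / 40) w)).im) ≤ 537 / 2000 * Real.tan θ)
    (hEnd : ∀ v : ℂ, v ∈ G0 θ (2 / 5) → 0 ≤ v.re → Real.pi * (v.im + w.im) <
      LM Φ θ θ' b b' xc xc' (2 / 5) (13 / 40) (mu b (2 : ℝ) (2 / 5)) (mu b' (a' : ℝ) (13 / 40)) v w) :
    ∀ v : ℂ, v ∈ G0 θ (2 / 5) → 93 / 250 ≤ v.re → ∃ h : ℝ, |h| ≤ 1 ∧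
      (∀ Y ∈ Set.uIcc 0 h, EE (.op (cmp (2 / 5) v)) (.op ((starRingEnd ℂ) (cmp (13 / 40) w)))
        ((Y : ℂ) * I) < LM Φ θ θ' b b' xc xc' (2 / 5) (13 / 40) (mu b (2 : ℝ) (2 / 5))
          (mu b' (a' : ℝ) (13 / 40)) v w) ∧
      ∀ t ∈ Icc (0 : ℝ) (1 / 2),
        EE (.op (cmp (2 / 5) v)) (.op ((starRingEnd ℂ) (cmp (13 / 40) w))) ((t : ℂ) + h * I) <
          LM Φ θ θ' b b' xc xc' (2 / 5) (13 / 40) (mu b (2 : ℝ) (2 / 5))
            (mu b' (a' : ℝ) (13 / 40)) v w := by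
  have uw := cmp_und D.H.hv1' hw hw0 D.H.hθ'
  have ht0 : 0 < Real.tan θ := Real.tan_pos_of_pos_of_lt_pi_div_two D.H.hθ.pos D.H.hθ.lt
  have ht1 : Real.tan θ ≤ 1 := by
    have := D.t1
    by_contra hc
    push Not at hc
    nlinarith
  have hS := tan_le_half D.t2
  have u0 := uw.re0
  have u1 := uw.re1
  have g2 : (37562 : ℝ) / 100000 ≤ Real.cos (Real.pi * (cmp (13 / 40) w).re) ^ 2 :=
    cl_29_100.trans (cosq_anti u0 y2 (by norm_num))
  have g1 : Real.cos (Real.pi * (cmp (13 / 40) w).re) ^ 2 ≤ (40632 : ℝ) / 100000 :=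
    (cosq_anti (by norm_num) y1 (by linarith)).trans cu_7_25
  have hM : ∀ c : ℝ, 37562 / 100000 ≤ c → c ≤ 40632 / 100000 → c ^ 2 * (1 - c) ≤ 98015 / 1000000 := by
    intro c h1 h2
    have e : c ^ 2 * (1 - c) ≤ (40632 / 100000) ^ 2 * (1 - 40632 / 100000) := by
      nlinarith [mul_nonneg (sub_nonneg.2 h1) (sub_nonneg.2 h2), mul_nonneg (sub_nonneg.2 h2) (sq_nonneg (c - 2 / 3))]
    exact e.trans (by norm_num)
  have hrc := rect_und (R := ScW5a.P.r) (J := ScW5a.P.i) (T := 1 / 4) u0 (by linarith) uw.im0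
    (by norm_num) (by norm_num) (und_X2 uw D.t2) (by norm_num) g2 g1 (by norm_num [ScW5a.P])
    (by norm_num [ScW5a.P]) (by norm_num [ScW5a.P]) (by norm_num [ScW5a.P]) hM
    (by norm_num [ScW5a.P]) (by norm_num [ScW5a.P])
  refine D.H.rowN (a0 := 93 / 250) (x0 := 2 / 5) (K := 46 / 5) (E3 := 9 / 250)
    (h0 := (yv (vl θ (93 / 250)) (cmp (13 / 40) w)).im) (k1 := 39 / 200) (k2 := 537 / 2000) (dp := 0) (dn := 0)
    (A' := ⟨0, 0⟩) (B' := ⟨0, 0⟩) (C' := ⟨0, 0⟩)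
    E.s3 D.t1.le (by linarith [D.t2]) hw hw0 ScW5a.c1 ta_93_250
    (fun h => absurd h (lt_irrefl _)) (by norm_num [ScW5a.P]) (by norm_num [ScW5a.P]) (by norm_num [ScW5a.P])
    (by norm_num [ScW5a.P]) hrc (by norm_num) (by norm_num) (by norm_num) (by linarith)
    (h0_ge E.s3 ht0 (by norm_num) k1) (by norm_num) (by norm_num) k1 k2 tp_2_5 (by norm_num)
    (fun t ht => D.base hw hw0 (by norm_num) (Or.inr (Or.inr (Or.inr (Or.inr (Or.inl ⟨⟨y1, y2⟩, by norm_num⟩))))) ht)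
    (fun a ha => E.e1 a ⟨by linarith [ha.1], ha.2⟩) (le_trans E.e372 (by norm_num))
    (P3a.use (P3a.mono P3.w6a (K' := 46 / 5) (S' := 3 / 5) (y1 := 7 / 25) (y2 := 29 / 100) (by norm_num) (by norm_num)
      (by norm_num) (by norm_num) (by norm_num) (by norm_num)) ht1 (by rw [conj_re]; linarith) (by rw [conj_re]; linarith)
      (by rw [conj_im]; linarith [uw.im0]) (und_S uw (by linarith)))
    (P3b.use (P3b.mono P3.w6b (K' := 46 / 5) (S' := 3 / 5) (y1 := 7 / 25) (y2 := 29 / 100) (by norm_num) (by norm_num)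
      (by norm_num) (by norm_num) (by norm_num) (by norm_num)) ht1 (by rw [conj_re]; linarith) (by rw [conj_re]; linarith)
      (by rw [conj_im]; linarith [uw.im0]) (und_S uw (by linarith)))
    (by norm_num) (by norm_num) (by norm_num) (by norm_num) (by norm_num) (by norm_num) hEnd

/-- Row W5b. -/
theorem D23.rW5b (D : D23 Φ θ θ' xc xc' b b' a') (E : E23 θ θ' xc xc' b)
    (hw : w ∈ G0 θ' (13 / 40)) (hw0 : 0 ≤ w.re) (y1 : 29 / 100 ≤ (cmp (13 / 40) w).re)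
    (y2 : (cmp (13 / 40) w).re ≤ 13 / 40)
    (k1 : 27 / 200 * Real.tan θ ≤ Real.sinh (Real.pi * (yv (vl θ (3 / 8)) (cmp (13 / 40) w)).im))
    (k2 : Real.sinh (Real.pi * (yv (vl θ (3 / 8)) (cmp (13 / 40) w)).im) ≤ 103 / 400 * Real.tan θ)
    (hEnd : ∀ v : ℂ, v ∈ G0 θ (2 / 5) → 0 ≤ v.re → Real.pi * (v.im + w.im) <
      LM Φ θ θ' b b' xc xc' (2 / 5) (13 / 40) (mu b (2 : ℝ) (2 / 5)) (mu b' (a' : ℝ) (13 / 40)) v w) :
    ∀ v : ℂ, v ∈ G0 θ (2 / 5) → 3 / 8 ≤ v.re → ∃ h : ℝ, |h| ≤ 1 ∧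
      (∀ Y ∈ Set.uIcc 0 h, EE (.op (cmp (2 / 5) v)) (.op ((starRingEnd ℂ) (cmp (13 / 40) w)))
        ((Y : ℂ) * I) < LM Φ θ θ' b b' xc xc' (2 / 5) (13 / 40) (mu b (2 : ℝ) (2 / 5))
          (mu b' (a' : ℝ) (13 / 40)) v w) ∧
      ∀ t ∈ Icc (0 : ℝ) (1 / 2),
        EE (.op (cmp (2 / 5) v)) (.op ((starRingEnd ℂ) (cmp (13 / 40) w))) ((t : ℂ) + h * I) <
          LM Φ θ θ' b b' xc xc' (2 / 5) (13 / 40) (mu b (2 : ℝ) (2 / 5))
            (mu b' (a' : ℝ) (13 / 40)) v w := by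
  have uw := cmp_und D.H.hv1' hw hw0 D.H.hθ'
  have ht0 : 0 < Real.tan θ := Real.tan_pos_of_pos_of_lt_pi_div_two D.H.hθ.pos D.H.hθ.lt
  have ht1 : Real.tan θ ≤ 1 := by
    have := D.t1
    by_contra hc
    push Not at hc
    nlinarith
  have hS := tan_le_half D.t2
  have u0 := uw.re0
  have u1 := uw.re1
  have g2 : (27297 : ℝ) / 100000 ≤ Real.cos (Real.pi * (cmp (13 / 40) w).re) ^ 2 :=
    cl_13_40.trans (cosq_anti u0 y2 (by norm_num))
  have g1 : Real.cos (Real.pi * (cmp (13 / 40) w).re) ^ 2 ≤ (37567 : ℝ) / 100000 :=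
    (cosq_anti (by norm_num) y1 (by linarith)).trans cu_29_100
  have hM : ∀ c : ℝ, 27297 / 100000 ≤ c → c ≤ 37567 / 100000 → c ^ 2 * (1 - c) ≤ 88111 / 1000000 := by
    intro c h1 h2
    have e : c ^ 2 * (1 - c) ≤ (37567 / 100000) ^ 2 * (1 - 37567 / 100000) := by
      nlinarith [mul_nonneg (sub_nonneg.2 h1) (sub_nonneg.2 h2), mul_nonneg (sub_nonneg.2 h2) (sq_nonneg (c - 2 / 3))]
    exact e.trans (by norm_num)
  have hrc := rect_und (R := ScW5b.P.r) (J := ScW5b.P.i) (T := 1 / 4) u0 (by linarith) uw.im0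
    (by norm_num) (by norm_num) (und_X2 uw D.t2) (by norm_num) g2 g1 (by norm_num [ScW5b.P])
    (by norm_num [ScW5b.P]) (by norm_num [ScW5b.P]) (by norm_num [ScW5b.P]) hM
    (by norm_num [ScW5b.P]) (by norm_num [ScW5b.P])
  refine D.H.rowN (a0 := 3 / 8) (x0 := 2 / 5) (K := 46 / 5) (E3 := 17 / 500)
    (h0 := (yv (vl θ (3 / 8)) (cmp (13 / 40) w)).im) (k1 := 27 / 200) (k2 := 103 / 400) (dp := 0) (dn := 0)
    (A' := ⟨0, 0⟩) (B' := ⟨0, 0⟩) (C' := ⟨0, 0⟩)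
    E.s3 D.t1.le (by linarith [D.t2]) hw hw0 ScW5b.c1 ta_3_8
    (fun h => absurd h (lt_irrefl _)) (by norm_num [ScW5b.P]) (by norm_num [ScW5b.P]) (by norm_num [ScW5b.P])
    (by norm_num [ScW5b.P]) hrc (by norm_num) (by norm_num) (by norm_num) (by linarith)
    (h0_ge E.s3 ht0 (by norm_num) k1) (by norm_num) (by norm_num) k1 k2 tp_2_5 (by norm_num)
    (fun t ht => D.base hw hw0 (by norm_num) (R23_375 y1 y2) ht)
    (fun a ha => E.e1 a ⟨by linarith [ha.1], ha.2⟩) (le_trans E.e375 (by norm_num))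
    (P3a.use (P3a.mono P3.w6a (K' := 46 / 5) (S' := 3 / 5) (y1 := 29 / 100) (y2 := 13 / 40) (by norm_num) (by norm_num)
      (by norm_num) (by norm_num) (by norm_num) (by norm_num)) ht1 (by rw [conj_re]; linarith) (by rw [conj_re]; linarith)
      (by rw [conj_im]; linarith [uw.im0]) (und_S uw (by linarith)))
    (P3b.use (P3b.mono P3.w6b (K' := 46 / 5) (S' := 3 / 5) (y1 := 29 / 100) (y2 := 13 / 40) (by norm_num) (by norm_num)
      (by norm_num) (by norm_num) (by norm_num) (by norm_num)) ht1 (by rw [conj_re]; linarith) (by rw [conj_re]; linarith)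
      (by rw [conj_im]; linarith [uw.im0]) (und_S uw (by linarith)))
    (by norm_num) (by norm_num) (by norm_num) (by norm_num) (by norm_num) (by norm_num) hEnd

end

end Pool.Agent.S3.T2
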