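import Pool.Agent.S3.W2.Geo
import Pool.Agent.S3.W2.SlideH

/-!
# A slide from its certificates
-/

set_option autoImplicit false

namespace Pool.Agent.S3.T2

open Complex Set
open Pool.Agent.S3.NI
open Pool.Agent.H25.RK (gdv gdv_re_lt gdv_hasDerivAt)

/-- The bound of the height at the end of phase 1. -/
theorem tanh_le_bl {θ h x P k : ℝ} (hθ0 : 0 < θ) (hθ1 : θ < Real.pi / 2) (ht : Real.tan θ ^ 2 ≤ 1)
    (h0 : 0 ≤ h) (hk : 0 ≤ k) (hs : Real.sinh (Real.pi * h) ≤ k * Real.tan θ) (x0 : 0 ≤ x)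
    (x1 : x < 1 / 2) (hP : Real.tan (Real.pi * x) ≤ P)
    (hn : k ^ 2 * (1 + P ^ 2) + 39 / 400 * k ^ 2 ≤ 361 / 400) :
    Real.tanh (Real.pi * h) ≤ 19 / 20 * Real.tanh (Real.pi * bl θ x) := by
  have hpi := Real.pi_pos
  have hca := cos_pos_of (a := x) (by linarith) x1
  have ht0 : 0 < Real.tan θ := Real.tan_pos_of_pos_of_lt_pi_div_two hθ0 hθ1
  have htx : 0 ≤ Real.tan (Real.pi * x) :=
    Real.tan_nonneg_of_nonneg_of_le_pi_div_two (by positivity) (by nlinarith)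
  have hbl : 0 < bl θ x := bl_pos_of hθ0 hθ1 (by rw [abs_of_nonneg x0]; exact x1)
  obtain ⟨q0, q1, q2⟩ := ch_of (x := Real.pi * h) rfl
  obtain ⟨d0, d1, d2⟩ := ch_of (x := Real.pi * bl θ x) rfl
  have th0 : 0 ≤ Real.tanh (Real.pi * h) := tanh_nonneg_of (by positivity)
  have tb0 : 0 < Real.tanh (Real.pi * bl θ x) := tanh_pos_of (by positivity)
  have tb1 := Real.tanh_lt_one (Real.pi * bl θ x)
  have tk1 := Real.tanh_lt_one (Real.pi * h)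
  have hsb := sinh_pi_bl θ x
  -- `c = cos² πx`, `c (1 + tan²) = 1`
  have hcP : 1 ≤ Real.cos (Real.pi * x) ^ 2 * (1 + P ^ 2) := by
    have h2 : Real.cos (Real.pi * x) ^ 2 * (1 + Real.tan (Real.pi * x) ^ 2) = 1 := by
      rw [Real.tan_eq_sin_div_cos]
      field_simp
      rw [add_comm, Real.sin_sq_add_cos_sq]
    have h3 : Real.tan (Real.pi * x) ^ 2 ≤ P ^ 2 := pow_le_pow_left₀ htx hP 2
    have h4 := mul_le_mul_of_nonneg_left h3 (sq_nonneg (Real.cos (Real.pi * x)))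
    nlinarith
  obtain ⟨c, hc⟩ : ∃ c, c = Real.cos (Real.pi * x) ^ 2 := ⟨_, rfl⟩
  obtain ⟨s, hs'⟩ : ∃ s, s = Real.tan θ ^ 2 := ⟨_, rfl⟩
  have hc1 : c ≤ 1 := by
    rw [hc]
    have := Real.sin_sq_add_cos_sq (Real.pi * x)
    nlinarith [sq_nonneg (Real.sin (Real.pi * x))]
  have hc0 : 0 < c := by rw [hc]; positivity
  have hs0 : 0 < s := by rw [hs']; positivity
  rw [← hc] at hcP
  rw [← hs'] at ht
  -- `H = sinh² πh`, `X = s c = sinh² πβ`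
  have hH : Real.sinh (Real.pi * h) ^ 2 ≤ k ^ 2 * s := by
    have := pow_le_pow_left₀ (Real.sinh_nonneg_iff.2 (by positivity)) hs 2
    rw [hs']
    calc _ ≤ _ := this
      _ = _ := by ring
  have hX : Real.sinh (Real.pi * bl θ x) ^ 2 = s * c := by
    rw [hsb, hs', hc]; ring
  have e1 : Real.tanh (Real.pi * h) ^ 2 * (1 + Real.sinh (Real.pi * h) ^ 2) =
      Real.sinh (Real.pi * h) ^ 2 := by
    have := Real.cosh_sq (Real.pi * h)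
    rw [show 1 + Real.sinh (Real.pi * h) ^ 2 = Real.cosh (Real.pi * h) ^ 2 by linarith]
    rw [Real.tanh_eq_sinh_div_cosh]
    have := Real.cosh_pos (Real.pi * h)
    field_simp
  have e2 : Real.tanh (Real.pi * bl θ x) ^ 2 * (1 + s * c) = s * c := by
    have := Real.cosh_sq (Real.pi * bl θ x)
    rw [hX] at this
    rw [show 1 + s * c = Real.cosh (Real.pi * bl θ x) ^ 2 by linarith, ← hX,
      Real.tanh_eq_sinh_div_cosh]
    have := Real.cosh_pos (Real.pi * bl θ x)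
    field_simp
  obtain ⟨H, hH'⟩ : ∃ H, H = Real.sinh (Real.pi * h) ^ 2 := ⟨_, rfl⟩
  rw [← hH'] at hH e1
  have hH0 : 0 ≤ H := by rw [hH']; positivity
  have key : H * (1 + 39 / 400 * (s * c)) ≤ 361 / 400 * (s * c) := by
    have a1 : k ^ 2 * (1 + 39 / 400 * (s * c)) ≤ 361 / 400 * c := by
      have a2 : k ^ 2 * (39 / 400 * (s * c)) ≤ k ^ 2 * (39 / 400 * c) := by
        apply mul_le_mul_of_nonneg_left _ (sq_nonneg k)
        nlinarith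
      have a3 : k ^ 2 ≤ k ^ 2 * (c * (1 + P ^ 2)) :=
        le_mul_of_one_le_right (sq_nonneg k) hcP
      have a4 := mul_le_mul_of_nonneg_left hn hc0.le
      nlinarith
    have a5 : 0 ≤ 1 + 39 / 400 * (s * c) := by positivity
    calc H * (1 + 39 / 400 * (s * c)) ≤ k ^ 2 * s * (1 + 39 / 400 * (s * c)) :=
          mul_le_mul_of_nonneg_right hH a5
      _ = s * (k ^ 2 * (1 + 39 / 400 * (s * c))) := by ring
      _ ≤ s * (361 / 400 * c) := mul_le_mul_of_nonneg_left a1 hs0.le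
      _ = _ := by ring
  refine (pow_le_pow_iff_left₀ th0 (by positivity) two_ne_zero).1 ?_
  rw [mul_pow]
  have hsc : 0 < s * c := by positivity
  have e3 : Real.tanh (Real.pi * h) ^ 2 = H / (1 + H) := by
    rw [eq_div_iff (by positivity)]; exact e1
  have e4 : Real.tanh (Real.pi * bl θ x) ^ 2 = s * c / (1 + s * c) := by
    rw [eq_div_iff (by positivity)]; exact e2
  rw [e3, e4, show (19 / 20 : ℝ) ^ 2 * (s * c / (1 + s * c)) = (361 / 400 * (s * c)) / (1 + s * c) by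
    ring, div_le_div_iff₀ (by positivity) (by positivity)]
  nlinarith

/-- `bl θ (2/5)`. -/
theorem bl25_sq {θ : ℝ} (hθ0 : 0 < θ) (hθ1 : θ < Real.pi / 2) (ht : Real.tan θ ^ 2 ≤ 1) :
    1013 / 10000 * (954 / 10000 * Real.tan θ ^ 2 - 31 / 10000 * (Real.tan θ ^ 2) ^ 2) ≤
      bl θ (2 / 5) ^ 2 := by
  have hpi := Real.pi_pos
  have hpi2 := Real.pi_lt_d4
  have ht0 : 0 < Real.tan θ := Real.tan_pos_of_pos_of_lt_pi_div_two hθ0 hθ1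
  have hbl : 0 < bl θ (2 / 5) := bl_pos_of hθ0 hθ1 (by rw [abs_of_pos] <;> norm_num)
  obtain ⟨x, hx⟩ : ∃ x, x = Real.pi * bl θ (2 / 5) := ⟨_, rfl⟩
  have hx0 : 0 < x := by rw [hx]; positivity
  have hsb : Real.sinh x = Real.tan θ * Real.cos (Real.pi * (2 / 5)) := by
    rw [hx]; exact sinh_pi_bl θ (2 / 5)
  obtain ⟨c, hc⟩ : ∃ c, c = Real.cos (Real.pi * (2 / 5)) ^ 2 := ⟨_, rfl⟩
  have hcv : c = (3 - √5) / 8 := by
    have h1 : Real.cos (Real.pi * (2 / 5)) = 2 * Real.cos (Real.pi / 5) ^ 2 - 1 := by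
      rw [← Real.cos_two_mul]; congr 1; ring
    have h5 : (√5) ^ 2 = 5 := Real.sq_sqrt (by norm_num)
    rw [hc, h1, Real.cos_pi_div_five]
    have : (2 * ((1 + √5) / 4) ^ 2 - 1) ^ 2 - (3 - √5) / 8 =
      ((√5) ^ 2 - 5) * ((√5) ^ 2 + 4 * √5 - 5) / 64 := by ring
    have h6 : ((√5) ^ 2 - 5) = 0 := by rw [h5]; ring
    rw [h6, zero_mul, zero_div] at this
    linarith
  have h5a : √5 ≤ 2236068 / 1000000 := by
    rw [Real.sqrt_le_left (by norm_num)]; norm_num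
  have h5b : 2236067 / 1000000 ≤ √5 := by
    apply Real.le_sqrt_of_sq_le; norm_num
  have c0 : 95491 / 1000000 ≤ c := by rw [hcv]; linarith
  have c1 : c ≤ 95492 / 1000000 := by rw [hcv]; linarith
  obtain ⟨y, hy⟩ : ∃ y, y = Real.sinh x := ⟨_, rfl⟩
  have hy0 : 0 < y := by rw [hy]; exact Real.sinh_pos_iff.2 hx0
  have hy2 : y ^ 2 = Real.tan θ ^ 2 * c := by rw [hy, hsb, hc]; ring
  obtain ⟨s, hs⟩ : ∃ s, s = Real.tan θ ^ 2 := ⟨_, rfl⟩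
  have hs0 : 0 < s := by rw [hs]; positivity
  rw [← hs] at ht hy2 ⊢
  have hxy : y - y ^ 3 / 6 ≤ x := by
    rw [hy]; exact Pool.Agent.S3.gain_arsinh hx0.le
  have hyc : y ^ 2 ≤ 1 / 10 := by rw [hy2]; nlinarith
  have hy3 : 0 ≤ y - y ^ 3 / 6 := by nlinarith
  have hx2 : y ^ 2 - y ^ 4 / 3 ≤ x ^ 2 := by
    have := pow_le_pow_left₀ hy3 hxy 2
    nlinarith [sq_nonneg (y ^ 3)]
  have hb2 : bl θ (2 / 5) ^ 2 * Real.pi ^ 2 = x ^ 2 := by rw [hx]; ring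
  have hp2 : Real.pi ^ 2 ≤ 98697 / 10000 := by nlinarith
  have hb0 : 0 ≤ bl θ (2 / 5) ^ 2 := sq_nonneg _
  have h1 : s * c - s ^ 2 * c ^ 2 / 3 ≤ bl θ (2 / 5) ^ 2 * (98697 / 10000) := by
    have e : y ^ 4 = s ^ 2 * c ^ 2 := by
      calc y ^ 4 = (y ^ 2) ^ 2 := by ring
        _ = _ := by rw [hy2]; ring
    rw [← e, ← hy2]
    calc _ ≤ x ^ 2 := hx2
      _ = bl θ (2 / 5) ^ 2 * Real.pi ^ 2 := hb2.symm
      _ ≤ _ := mul_le_mul_of_nonneg_left hp2 hb0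
  have h2 : s * c - s ^ 2 * c ^ 2 / 3 ≥ s * (95491 / 1000000) - s ^ 2 * (304 / 100000) := by
    have : c ^ 2 ≤ 912 / 100000 := by nlinarith
    nlinarith [sq_nonneg s, mul_le_mul_of_nonneg_left this (sq_nonneg s),
      mul_le_mul_of_nonneg_left c0 hs0.le]
  nlinarith [sq_nonneg s]

section

variable {Φ : ℂ → ℂ → ℂ} {θ θ' xc xc' b b' v1' μ μ' : ℝ} {w : ℂ}

/-- the numerical end of a slide -/
theorem num_end {s β2 B a0 x0 D0 D1 D2 K E3 m : ℝ} (s0 : 3 / 10 ≤ s) (s1 : s ≤ 1)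
    (hβ : 1013 / 10000 * (954 / 10000 * s - 31 / 10000 * s ^ 2) ≤ β2) (hK : 0 ≤ K)
    (h3 : m - B ≤ E3)
    (n2 : E3 + 1 / 100000 < 2 * (x0 - a0) * (D0 - D1 * (3 / 10)) + 2 * D2 * (2 / 5 - x0) +
      K / 2 * (1013 / 10000 * (954 / 10000 * (3 / 10) - 31 / 10000 * (3 / 10) ^ 2)))
    (n3 : E3 + 1 / 100000 < 2 * (x0 - a0) * (D0 - D1 * 1) + 2 * D2 * (2 / 5 - x0) +
      K / 2 * (1013 / 10000 * (954 / 10000 * 1 - 31 / 10000 * 1 ^ 2)))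
    (n0 : 2 / 5 - a0 ≤ 1 / 2) :
    m < B + 2 * (D0 - D1 * s - 1 / 100000) * (x0 - a0) + 2 * (D2 - 1 / 100000) * (2 / 5 - x0) +
      K * β2 / 2 := by
  have q1 : 0 ≤ (s - 3 / 10) * (1 - s) := mul_nonneg (by linarith) (by linarith)
  have q2 : K * (1013 / 10000 * (954 / 10000 * s - 31 / 10000 * s ^ 2)) ≤ K * β2 :=
    mul_le_mul_of_nonneg_left hβ hK
  have q3 : 0 ≤ K * ((s - 3 / 10) * (1 - s)) := mul_nonneg hK q1
  obtain ⟨l, hl⟩ : ∃ l, l = (1 - s) / (7 / 10) := ⟨_, rfl⟩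
  have l0 : 0 ≤ l := by rw [hl]; apply div_nonneg <;> linarith
  have l1 : l ≤ 1 := by rw [hl, div_le_one (by norm_num)]; linarith
  have hs : s = 1 - 7 / 10 * l := by rw [hl]; ring
  have m2 := mul_le_mul_of_nonneg_left n2.le l0
  have m3 := mul_le_mul_of_nonneg_left n3.le (sub_nonneg.2 l1)
  have m4 : 0 < l * (2 * (x0 - a0) * (D0 - D1 * (3 / 10)) + 2 * D2 * (2 / 5 - x0) +
      K / 2 * (1013 / 10000 * (954 / 10000 * (3 / 10) - 31 / 10000 * (3 / 10) ^ 2)) -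
      (E3 + 1 / 100000)) + (1 - l) * (2 * (x0 - a0) * (D0 - D1 * 1) + 2 * D2 * (2 / 5 - x0) +
      K / 2 * (1013 / 10000 * (954 / 10000 * 1 - 31 / 10000 * 1 ^ 2)) - (E3 + 1 / 100000)) := by
    rcases l0.lt_or_eq with h | h
    · have p1 := mul_pos h (sub_pos.2 n2)
      have p2 := mul_nonneg (sub_nonneg.2 l1) (sub_pos.2 n3).le
      linarith
    · rw [← h]
      linarith
  rw [hs] at q2 q3
  rw [hs]
  nlinarith

/-- **A slide from its certificates.** -/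
theorem OO.slideN (H : OO Φ θ θ' xc xc' b b' (2 / 5) v1') (ht0 : 3 / 10 ≤ Real.tan θ ^ 2)
    (ht : Real.tan θ ^ 2 ≤ 1) (ht' : Real.tan θ' ^ 2 ≤ 923 / 1000) (hw : w ∈ G0 θ' v1')
    (hw0 : 0 ≤ w.re) {a0 x0 D0 D1 D2 K E3 h0 k2 P0 : ℝ} (ha0 : 29 / 100 ≤ a0) (hx0 : a0 ≤ x0)
    (hx1 : x0 ≤ 2 / 5) (hwa : (cmp v1' w).re ≤ a0) (hh : 1 / 100 ≤ h0) (hk : 0 ≤ k2)
    (hk2 : Real.sinh (Real.pi * h0) ≤ k2 * Real.tan θ) (hP : Real.tan (Real.pi * x0) ≤ P0)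
    (hn : k2 ^ 2 * (1 + P0 ^ 2) + 39 / 400 * k2 ^ 2 ≤ 361 / 400)
    (hbase : ∀ t ∈ Icc (0 : ℝ) (1 / 2),
      EE (.op (vl θ a0)) (.op ((starRingEnd ℂ) (cmp v1' w))) ((t : ℂ) + (h0 : ℂ) * I) <
        LM Φ θ θ' b b' xc xc' (2 / 5) v1' μ μ' (vl θ a0) w -
          49 / 50 * BP b (gdv (UU xc θ)) (vl θ a0))
    (hP1 : ∀ a ∈ Ioc a0 (2 / 5),
      Real.tanh (Real.pi * h0) ≤ 19 / 20 * Real.tanh (Real.pi * bl θ a) →
      ∀ t ∈ Ico (1 / 200 : ℝ) (1 / 2),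
      gPd ((t : ℂ) + (h0 : ℂ) * I) (vl θ a) ((starRingEnd ℂ) (cmp v1' w)) =
        ‖cos (Real.pi * ((t : ℂ) + (h0 : ℂ) * I))‖ ^ 4 →
      4 / 3 * S2l θ a + D0 - D1 * Real.tan θ ^ 2 ≤
        Ml ((t : ℂ) + (h0 : ℂ) * I) (vl θ a) (Tl θ a))
    (hP2 : ∀ a ∈ Ioc x0 (2 / 5), ∀ t ∈ Ico (1 / 200 : ℝ) (1 / 2),
      gPd ((t : ℂ) + (hgt (19 / 20) (bl θ a) : ℂ) * I) (vl θ a) ((starRingEnd ℂ) (cmp v1' w)) =
        ‖cos (Real.pi * ((t : ℂ) + (hgt (19 / 20) (bl θ a) : ℂ) * I))‖ ^ 4 →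
      4 / 3 * S2l θ a + D2 ≤
        Ml ((t : ℂ) + (hgt (19 / 20) (bl θ a) : ℂ) * I) (vl θ a) (Tl θ a) -
        rp (19 / 20) (bl θ a) * Tl θ a / 2 *
          (eY ((t : ℂ) + (hgt (19 / 20) (bl θ a) : ℂ) * I) (vl θ a)
            ((starRingEnd ℂ) (cmp v1' w))).im)
    (hE1 : ∀ a ∈ Ioc a0 (2 / 5),
      rl b (gdv (UU xc θ)) (qq (UU xc θ) (UU xc' (-θ'))) θ a ≤ 4 / 3 * S2l θ a)
    (hE3 : μ * bl θ (2 / 5) - 49 / 50 * BP b (gdv (UU xc θ)) (vl θ a0) ≤ E3)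
    (h3a : ∀ ρ : ℝ, 7 / 10 ≤ ρ → ρ ≤ 19 / 20 → ∀ η ∈ Ioc (0 : ℝ) (bl θ (2 / 5)), hgt ρ η ≤ h0 →
      ∀ t ∈ Ico (1 / 200 : ℝ) (1 / 2),
      gPd ((t : ℂ) + (hgt ρ η : ℂ) * I) (vv η) ((starRingEnd ℂ) (cmp v1' w)) =
        ‖cos (Real.pi * ((t : ℂ) + (hgt ρ η : ℂ) * I))‖ ^ 4 →
      K * η < (he ((t : ℂ) + (hgt ρ η : ℂ) * I + vv η) - he ((t : ℂ) + (hgt ρ η : ℂ) * I - vv η)).im -
        rp ρ η * (eY ((t : ℂ) + (hgt ρ η : ℂ) * I) (vv η) ((starRingEnd ℂ) (cmp v1' w))).im)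
    (h3b : ∀ h1 : ℝ, 0 < h1 → h1 ≤ h0 → ∀ η ∈ Ioc (0 : ℝ) (bl θ (2 / 5)),
      Real.tanh (Real.pi * h1) ≤ 7 / 10 * Real.tanh (Real.pi * η) →
      ∀ t ∈ Ico (1 / 200 : ℝ) (1 / 2),
      gPd ((t : ℂ) + (h1 : ℂ) * I) (vv η) ((starRingEnd ℂ) (cmp v1' w)) =
        ‖cos (Real.pi * ((t : ℂ) + (h1 : ℂ) * I))‖ ^ 4 →
      K * η < (he ((t : ℂ) + (h1 : ℂ) * I + vv η) - he ((t : ℂ) + (h1 : ℂ) * I - vv η)).im)
    (hK : 0 ≤ K) (hD1 : 0 ≤ D1) (n0 : D2 ≤ D0 - D1) (n1 : 1 / 100000 ≤ D0 - D1)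
    (n2 : E3 + 1 / 100000 < 2 * (x0 - a0) * (D0 - D1 * (3 / 10)) + 2 * D2 * (2 / 5 - x0) +
      K / 2 * (1013 / 10000 * (954 / 10000 * (3 / 10) - 31 / 10000 * (3 / 10) ^ 2)))
    (n3 : E3 + 1 / 100000 < 2 * (x0 - a0) * (D0 - D1 * 1) + 2 * D2 * (2 / 5 - x0) +
      K / 2 * (1013 / 10000 * (954 / 10000 * 1 - 31 / 10000 * 1 ^ 2)))
    (n4 : 0 < 2 * (D0 - D1 - 1 / 100000) * (x0 - a0) + 2 * (D2 - 1 / 100000) * (2 / 5 - x0))
    (hEnd : ∀ v : ℂ, v ∈ G0 θ (2 / 5) → 0 ≤ v.re → Real.pi * (v.im + w.im) <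
      LM Φ θ θ' b b' xc xc' (2 / 5) v1' μ μ' v w) :
    ∀ v : ℂ, v ∈ G0 θ (2 / 5) → a0 ≤ v.re → ∃ h : ℝ, |h| ≤ 1 ∧
      (∀ Y ∈ Set.uIcc 0 h, EE (.op (cmp (2 / 5) v)) (.op ((starRingEnd ℂ) (cmp v1' w)))
        ((Y : ℂ) * I) < LM Φ θ θ' b b' xc xc' (2 / 5) v1' μ μ' v w) ∧
      ∀ t ∈ Icc (0 : ℝ) (1 / 2),
        EE (.op (cmp (2 / 5) v)) (.op ((starRingEnd ℂ) (cmp v1' w))) ((t : ℂ) + h * I) <
          LM Φ θ θ' b b' xc xc' (2 / 5) v1' μ μ' v w := by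
  obtain ⟨s, hs⟩ : ∃ s, s = Real.tan θ ^ 2 := ⟨_, rfl⟩
  have hbl := bl25_sq H.hθ.pos H.hθ.lt ht
  have hBP : 0 ≤ BP b (gdv (UU xc θ)) (vl θ a0) := by
    obtain ⟨c1, c2, c3, c4⟩ := H.crit0
    have c5 := line_im_bl H.hθ.abs (x := xc)
    exact BP_nonneg H.hθ.pos.le H.hθ.lt H.hs.b0.le (by rw [vl_re]; linarith)
      (by rw [vl_re]; linarith) c1 (by linarith) (by rw [vl_im, vl_re]) c5
  rw [← hs] at ht0 ht hbl hP1
  have hm : D1 * s ≤ D1 := by nlinarith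
  refine H.slideH (by rw [← hs]; exact ht) ht' hw hw0 (a0 := a0) (am := x0) (x0 := x0)
    (Da := D0 - D1 * s - 1 / 100000) (Db := D0 - D1 * s - 1 / 100000) (D2 := D2 - 1 / 100000)
    (B := 49 / 50 * BP b (gdv (UU xc θ)) (vl θ a0)) (K := K) (h0 := h0)
    (E := 49 / 50 * BP b (gdv (UU xc θ)) (vl θ a0) +
      2 * (D0 - D1 * s - 1 / 100000) * (x0 - a0) + 2 * (D0 - D1 * s - 1 / 100000) * (x0 - x0) +
      2 * (D2 - 1 / 100000) * (2 / 5 - x0))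
    (Or.inr hh) ha0 hx0 le_rfl hx1 hwa (by linarith)
    (tanh_le_bl H.hθ.pos H.hθ.lt (by rw [← hs]; exact ht) (by linarith) hk hk2 (by linarith)
      (by linarith) hP hn) hbase ?_ ?_ h3a h3b (by positivity) ?_ (by linarith) ?_ rfl ?_ hK ?_ hEnd
  · intro a ha h1 t ht2 hg
    have e1 := hE1 a ha
    have e2 := hP1 a ha h1 t ht2 hg
    split_ifs <;> linarith
  · intro a ha _ t ht2 hg
    have e1 := hE1 a ⟨by linarith [ha.1], ha.2⟩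
    have e2 := hP2 a ha t ht2 hg
    linarith
  · have : 0 ≤ 2 * (D0 - D1 * s - 1 / 100000) * (x0 - a0) :=
      mul_nonneg (by linarith) (by linarith)
    linarith
  · have : 0 ≤ 2 * (D0 - D1 * s - 1 / 100000) * (x0 - a0) :=
      mul_nonneg (by linarith) (by linarith)
    have : 0 ≤ 2 * (D0 - D1 * s - 1 / 100000) * (2 / 5 - x0) :=
      mul_nonneg (by linarith) (by linarith)
    linarith
  · have : 2 * (D0 - D1 - 1 / 100000) * (x0 - a0) ≤ 2 * (D0 - D1 * s - 1 / 100000) * (x0 - a0) :=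
      mul_le_mul_of_nonneg_right (by linarith) (by linarith)
    have : (49 : ℝ) / 50 * BP b (gdv (UU xc θ)) (vl θ a0) ≥ 0 := by positivity
    rw [sub_self, mul_zero]
    linarith
  · have := num_end ht0 ht hbl hK hE3 n2 n3 (by linarith)
    rw [sub_self, mul_zero]
    linarith

end

end Pool.Agent.S3.T2
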