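import Pool.Agent.S3.W2.Right23
import Pool.Agent.S3.Ho.K23R0
import Pool.Agent.S3.Ho.K23R1
import Pool.Agent.S3.Ho.K23R2
import Pool.Agent.S3.Ho.K23R3

/-!
# The slides of a vertex with two half twists next to one with at least three
-/

set_option autoImplicit false

namespace Pool.Agent.S3.T2

open Complex Set
open Pool.Agent.H25.RK (gdv gdv_re_lt gdv_hasDerivAt)

section

variable {Φ : ℂ → ℂ → ℂ} {θ θ' xc xc' b b' : ℝ} {a' : ℕ} {v w : ℂ}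

/-- The pair of a base and a second vertex. -/
theorem D23.prb (D : D23 Φ θ θ' xc xc' b b' a') (hw : w ∈ G0 θ' (13 / 40)) (hw0 : 0 ≤ w.re)
    {a0 : ℝ} (h0 : 0 ≤ a0) (h1 : a0 ≤ 2 / 5) : Pr θ θ' (vl θ a0) (cmp (13 / 40) w) := by
  have hv0 : 0 ≤ (vl θ a0).re := by rw [vl_re]; exact h0
  have hv1 : (vl θ a0).re ≤ 2 / 5 := by rw [vl_re]; exact h1
  have hvl : (vl θ a0).im = bl θ (vl θ a0).re := by rw [vl_im, vl_re]
  have hv : vl θ a0 ∈ G0 θ (2 / 5) := Or.inl ⟨by rwa [abs_of_nonneg hv0], hvl⟩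
  have hp := D.H.pr hv hv0 hw hw0
  rwa [show cmp (2 / 5) (vl θ a0) = vl θ a0 from if_pos hv1] at hp

/-- **The flats beyond the bases.** -/
theorem D23.right (D : D23 Φ θ θ' xc xc' b b' a') (E : E23 θ θ' xc xc' b)
    (hv : v ∈ G0 θ (2 / 5)) (hw : w ∈ G0 θ' (13 / 40)) (hw0 : 0 ≤ w.re)
    (hx : A23 (cmp (13 / 40) w).re ≤ v.re)
    (hEnd : ∀ v : ℂ, v ∈ G0 θ (2 / 5) → 0 ≤ v.re → Real.pi * (v.im + w.im) <
      LM Φ θ θ' b b' xc xc' (2 / 5) (13 / 40) (mu b (2 : ℝ) (2 / 5)) (mu b' (a' : ℝ) (13 / 40)) v w) :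
    ∃ h : ℝ, |h| ≤ 1 ∧
      (∀ Y ∈ Set.uIcc 0 h, EE (.op (cmp (2 / 5) v)) (.op ((starRingEnd ℂ) (cmp (13 / 40) w)))
        ((Y : ℂ) * I) < LM Φ θ θ' b b' xc xc' (2 / 5) (13 / 40) (mu b (2 : ℝ) (2 / 5))
          (mu b' (a' : ℝ) (13 / 40)) v w) ∧
      ∀ t ∈ Icc (0 : ℝ) (1 / 2),
        EE (.op (cmp (2 / 5) v)) (.op ((starRingEnd ℂ) (cmp (13 / 40) w))) ((t : ℂ) + h * I) <
          LM Φ θ θ' b b' xc xc' (2 / 5) (13 / 40) (mu b (2 : ℝ) (2 / 5))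
            (mu b' (a' : ℝ) (13 / 40)) v w := by
  have uw := cmp_und D.H.hv1' hw hw0 D.H.hθ'
  have hy0 := uw.re0
  have hy3 := cmp_re_le (v1 := 13 / 40) w
  unfold A23 at hx
  rcases le_or_gt (cmp (13 / 40) w).re (4 / 25) with c1 | c1
  · rw [if_pos c1] at hx
    rcases E.ty with hT | ⟨hT, hE⟩
    · rcases le_or_gt (cmp (13 / 40) w).re (2 / 25) with d | d
      · obtain ⟨k1, k2⟩ := k23_0 (D.prb hw hw0 (a0 := 333 / 1000) (by norm_num) (by norm_num)) hy0 d E.s3 D.t1.le hT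
        exact D.rW0h E hw hw0 hy0 d hT k1 k2 hEnd v hv hx
      · obtain ⟨k1, k2⟩ := k23_3 (D.prb hw hw0 (a0 := 333 / 1000) (by norm_num) (by norm_num)) d.le c1 E.s3 D.t1.le hT
        exact D.rW1h E hw hw0 d.le c1 hT k1 k2 hEnd v hv hx
    · have hl : (cmp (13 / 40) w).im = bl θ' (cmp (13 / 40) w).re := by
        obtain ⟨l1, l2⟩ := line_of_cmp hw hw0 (lt_of_le_of_lt c1 (by norm_num))
        rw [l1, l2]
      rcases le_or_gt (cmp (13 / 40) w).re (2 / 25) with d | d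
      · rcases le_or_gt (cmp (13 / 40) w).re (1 / 25) with e | e
        · obtain ⟨k1, k2⟩ := k23_1 (D.prb hw hw0 (a0 := 333 / 1000) (by norm_num) (by norm_num)) hy0 e E.s3 D.t1.le D.t2 hl hT
          exact D.rW0ta E hw hw0 hy0 e hT hE k1 k2 hEnd v hv hx
        · obtain ⟨k1, k2⟩ := k23_2 (D.prb hw hw0 (a0 := 333 / 1000) (by norm_num) (by norm_num)) e.le d E.s3 D.t1.le D.t2 hl hT
          exact D.rW0tb E hw hw0 e.le d hT hE k1 k2 hEnd v hv hx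
      · obtain ⟨k1, k2⟩ := k23_4 (D.prb hw hw0 (a0 := 333 / 1000) (by norm_num) (by norm_num)) d.le c1 E.s3 D.t1.le D.t2 hl hT
        exact D.rW1t E hw hw0 d.le c1 hT hE k1 k2 hEnd v hv hx
  rw [if_neg (not_le.2 c1)] at hx
  rcases le_or_gt (cmp (13 / 40) w).re (1 / 5) with c2 | c2
  · rw [if_pos c2] at hx
    obtain ⟨k1, k2⟩ := k23_5 (D.prb hw hw0 (a0 := 338 / 1000) (by norm_num) (by norm_num)) c1.le c2 E.s3 D.t1.le D.t2
    rw [show (338 / 1000 : ℝ) = 169 / 500 by norm_num] at k1 k2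
    exact D.rW2 E hw hw0 c1.le c2 k1 k2 hEnd v hv (by linarith)
  rw [if_neg (not_le.2 c2)] at hx
  rcases le_or_gt (cmp (13 / 40) w).re (6 / 25) with c3 | c3
  · rw [if_pos c3] at hx
    obtain ⟨k1, k2⟩ := k23_6 (D.prb hw hw0 (a0 := 346 / 1000) (by norm_num) (by norm_num)) c2.le c3 E.s3 D.t1.le D.t2
    rw [show (346 / 1000 : ℝ) = 173 / 500 by norm_num] at k1 k2
    exact D.rW3 E hw hw0 c2.le c3 k1 k2 hEnd v hv (by linarith)
  rw [if_neg (not_le.2 c3)] at hx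
  rcases le_or_gt (cmp (13 / 40) w).re (7 / 25) with c4 | c4
  · rw [if_pos c4] at hx
    obtain ⟨k1, k2⟩ := k23_7 (D.prb hw hw0 (a0 := 351 / 1000) (by norm_num) (by norm_num)) c3.le c4 E.s3 D.t1.le D.t2
    exact D.rW4 E hw hw0 c3.le c4 k1 k2 hEnd v hv (by linarith)
  rw [if_neg (not_le.2 c4)] at hx
  rcases le_or_gt (cmp (13 / 40) w).re (29 / 100) with c5 | c5
  · rw [if_pos c5] at hx
    obtain ⟨k1, k2⟩ := k23_8 (D.prb hw hw0 (a0 := 372 / 1000) (by norm_num) (by norm_num)) c4.le c5 E.s3 D.t1.le D.t2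
    rw [show (372 / 1000 : ℝ) = 93 / 250 by norm_num] at k1 k2
    exact D.rW5a E hw hw0 c4.le c5 k1 k2 hEnd v hv (by linarith)
  · rw [if_neg (not_le.2 c5)] at hx
    obtain ⟨k1, k2⟩ := k23_9 (D.prb hw hw0 (a0 := 375 / 1000) (by norm_num) (by norm_num)) c5.le hy3 E.s3 D.t1.le D.t2
    rw [show (375 / 1000 : ℝ) = 3 / 8 by norm_num] at k1 k2
    exact D.rW5b E hw hw0 c5.le hy3 k1 k2 hEnd v hv (by linarith)

/-- **The flats of an edge between two and at least three half twists**, from the hole. -/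
theorem D23.flat (D : D23 Φ θ θ' xc xc' b b' a') (E : E23 θ θ' xc xc' b)
    (hEnd : EndAll Φ θ θ' xc xc' b b' (2 / 5) (13 / 40) (mu b (2 : ℝ) (2 / 5))
      (mu b' (a' : ℝ) (13 / 40)))
    (hole : ∀ v w : ℂ, v ∈ G0 θ (2 / 5) → 0 ≤ v.re → w ∈ G0 θ' (13 / 40) → 0 ≤ w.re →
      v.re < V23 (cmp (13 / 40) w).re →
      ∃ H : ℝ, |H| ≤ 1 ∧ (Side (yv (cmp (2 / 5) v) (cmp (13 / 40) w)) H ∨
        ∀ Y ∈ Set.uIcc 0 H, EE (.op (cmp (2 / 5) v)) (.op ((starRingEnd ℂ) (cmp (13 / 40) w)))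
          ((Y : ℂ) * I) < LM Φ θ θ' b b' xc xc' (2 / 5) (13 / 40) (mu b (2 : ℝ) (2 / 5))
            (mu b' (a' : ℝ) (13 / 40)) v w) ∧ ∀ t ∈ Set.Icc (0 : ℝ) (1 / 2),
        EE (.op (cmp (2 / 5) v)) (.op ((starRingEnd ℂ) (cmp (13 / 40) w))) ((t : ℂ) + H * I) <
          LM Φ θ θ' b b' xc xc' (2 / 5) (13 / 40) (mu b (2 : ℝ) (2 / 5))
            (mu b' (a' : ℝ) (13 / 40)) v w) :
    FlatH Φ θ θ' xc xc' b b' (2 / 5) (13 / 40) (mu b (2 : ℝ) (2 / 5))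
      (mu b' (a' : ℝ) (13 / 40)) := by
  intro v w hv hv0 hw hw0 hne
  rcases lt_or_ge v.re (V23 (cmp (13 / 40) w).re) with h1 | h1
  · exact hole v w hv hv0 hw hw0 h1
  rcases le_or_gt v.re (A23 (cmp (13 / 40) w).re) with h2 | h2
  · exact D.left hv hv0 hw hw0 hne (R23_of (cmp_re_le w) h1 h2)
  · obtain ⟨h, k1, k2, k3⟩ := D.right E hv hw hw0 h2.le
      (fun v hv hv0 => (hEnd v w hv hv0 hw hw0).1)
    exact ⟨h, k1, Or.inr k2, k3⟩

end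

end Pool.Agent.S3.T2
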