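import Pool.Agent.H25.RK.DGI
import Pool.Agent.H25.RK.DGf
import Pool.Agent.H63.GO.MTaylor
import Pool.Agent.H63.VC.Asym
import Pool.Agent.H63.VC.EndB
import Pool.Agent.H63.VC.Riem
import Pool.Agent.H63.VC.SlowL
import Pool.Agent.H63.VC.SlowU
import Pool.Agent.H63.VC3.CritB
import Pool.Agent.H63.VC3.Upper
import Pool.Agent.H63.VC4.GaussN
import Pool.Agent.H63.VC4.KBN
import Pool.Agent.H63.VC4.LaplaceN
import Pool.Agent.H63.VC4.UpperN
import Pool.Agent.H63.VC5.Defs
import Pool.Agent.H63.VC6.LocU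
import Pool.Agent.H63.VC6.SlotU
import Pool.Agent.H63.VC7.Link
import Pool.Agent.S3.Asm.Def
import Pool.Agent.S3.Cl.Rng2c
import Pool.Agent.S3.E.Geo
import Pool.Agent.S3.E.J2
import Pool.Agent.S3.E.Sl
import Pool.Agent.S3.E.Two
import Pool.Agent.S3.W.Edg1
import Pool.Agent.S3.W2.Cfg2
import Pool.Agent.S3.W2.NL
import Pool.Agent.S3.W2.PhiV

/-!
# The condition at the vertices of a chain
-/

set_option autoImplicit false

namespace Pool.Agent.S3.T2

open Complex
open Pool.Agent.S3.E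
open Pool.Agent.H25.RK (gdv gdv_re_lt gdv_hasDerivAt ul)

variable {m : ℕ}

/-- The last abscissa of the contour. -/
noncomputable def vv (a : ℕ) : ℝ := if a = 2 then 2 / 5 else 13 / 40

theorem vv_two : vv 2 = 2 / 5 := if_pos rfl

theorem vv_three {a : ℕ} (ha : 3 ≤ a) : vv a = 13 / 40 := if_neg (by omega)

theorem V1_vv (a : ℕ) : V1 (vv a) := by
  unfold vv
  split_ifs
  · exact ⟨by norm_num, by norm_num⟩
  · exact ⟨by norm_num, by norm_num⟩

section

variable {a : Fin (m + 1) → ℕ} {z : Fin (m + 1) → ℂ}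

theorem bwo_nonneg (h : Zr (fun i => (a i : ℝ)) chL chR 1 z) (i : Fin (m + 1))
    {o : Option (Fin (m + 1))} (ho : chL i = o ∨ chR i = o) : 0 ≤ bwo z i o := by
  cases o with
  | none => exact le_rfl
  | some j => exact (h.bw_pos ho).le

/-- The weights are at most `a`. -/
theorem bw_le (h : Zr (fun i => (a i : ℝ)) chL chR 1 z) {i j : Fin (m + 1)}
    (hij : chL i = some j ∨ chR i = some j) : bw (z i) (z j) ≤ a i := by
  have h1 := h.sum_bwo i
  have h2 := bwo_nonneg h i (Or.inl rfl)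
  have h3 := bwo_nonneg h i (Or.inr rfl)
  rcases hij with e | e
  · rw [e] at h1
    change bw (z i) (z j) + _ = _ at h1
    linarith
  · rw [e] at h1
    change _ + bw (z i) (z j) = _ at h1
    linarith

/-- The height from the norm and the abscissa. -/
theorem tan_ge_of {R I : ℝ} (h0 : 3 / 10 * Real.pi < R) (h1 : R < Real.pi / 2) (hI : 0 < I)
    (hth : 0 < th R I) (hth1 : th R I < Real.pi / 2)
    (hk : (4 / 9 : ℝ) ≤ k2 R I) : 535 / 1000 ≤ Real.tan (th R I) := by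
  have hpi := Real.pi_pos
  have e1 := tan_th_sq (by linarith) h1 hI
  have e2 : k2 R I = Real.cos R ^ 2 + Real.sinh I ^ 2 := by
    unfold k2 cc gg
    rw [Real.cosh_two_mul, Real.cos_two_mul, Real.cosh_sq]
    ring
  have c0 : 0 < Real.cos R := Real.cos_pos_of_mem_Ioo ⟨by linarith, h1⟩
  have c1 : Real.cos R ≤ Real.cos (Real.pi * (3 / 10)) :=
    Real.cos_le_cos_of_nonneg_of_le_pi (by positivity) (by linarith) (by linarith)
  obtain ⟨r1, r2, r3, r4⟩ := gain2_cos
  have c2 : Real.cos (Real.pi * (3 / 10)) ^ 2 ≤ 3455 / 10000 := by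
    have e3 : Real.cos (Real.pi * (3 / 10)) ^ 2 = (1 - Real.cos (Real.pi * (2 / 5))) / 2 := by
      rw [Real.cos_sq, show 2 * (Real.pi * (3 / 10)) = Real.pi - Real.pi * (2 / 5) by ring,
        Real.cos_pi_sub]
      ring
    rw [e3]
    linarith
  have c3 : Real.cos R ^ 2 ≤ 3455 / 10000 := (pow_le_pow_left₀ c0.le c1 2).trans c2
  have t0 : 0 ≤ Real.tan (th R I) := (Real.tan_pos_of_pos_of_lt_pi_div_two hth hth1).le
  rw [e2, ← e1] at hk
  by_contra hcon
  push Not at hcon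
  have h3 : Real.tan (th R I) ^ 2 ≤ (535 / 1000) ^ 2 := pow_le_pow_left₀ t0 hcon.le 2
  have h4 : (1 + Real.tan (th R I) ^ 2) * Real.cos R ^ 2 ≤
      (1 + (535 / 1000) ^ 2) * (3455 / 10000) :=
    mul_le_mul (by linarith) c3 (sq_nonneg _) (by norm_num)
  linarith

/-- The ranges which are used at the open vertices. -/
structure VHyp (a : Fin (m + 1) → ℕ) (z : Fin (m + 1) → ℂ) : Prop where
  t2 : ∀ i, ¬ clo a i → a i = 2 → 1 / 3 ≤ th (z i).re (z i).im
  r2 : ∀ i j, (chL i = some j ∨ chR i = some j) → ¬ clo a i → ¬ clo a j → a i = 2 →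
    (z i).re ≤ 3 / 10 * Real.pi ∨ ((z i).re ≤ 31 / 100 * Real.pi ∧ 2 / 3 ≤ ‖cos (z i)‖ ∧
      bw (z i) (z j) ≤ 8 / 5)
  t3 : ∀ i, ¬ clo a i → a i = 3 → th (z i).re (z i).im ≤ 27 / 50
  g3 : ∀ i j, (chL i = some j ∨ chR i = some j) → ¬ clo a i → ¬ clo a j → a i = 3 →
    mu (bw (z i) (z j)) (a i) (13 / 40) ≤ 14 / 25 * Real.tan (th (z i).re (z i).im) ∨
      ((z i).re ≤ 3 / 10 * Real.pi ∧ 1 / 5 ≤ Real.tan (th (z i).re (z i).im))

theorem VHyp.vok (H : VHyp a z) (h : Zr (fun i => (a i : ℝ)) chL chR 1 z) (ha : ∀ i, 2 ≤ a i)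
    {i j : Fin (m + 1)} (hij : chL i = some j ∨ chR i = some j) (hi : ¬ clo a i)
    (hj : ¬ clo a j) :
    VOK (a i) (th (z i).re (z i).im) ((z i).re / Real.pi) (bw (z i) (z j)) (vv (a i)) := by
  have hpi := Real.pi_pos
  have hb := bw_le h hij
  have hth := h.thpos i
  have hp := h.pos i
  have hth1 : th (z i).re (z i).im < Real.pi / 2 :=
    (abs_lt.1 (abs_th_lt hp.1 hp.2.1 hp.2.2)).2
  have h3 := ha i
  by_cases e : a i = 2
  · left
    rw [e] at hb ⊢
    push_cast at hb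
    refine ⟨rfl, vv_two, H.t2 i hi e, hb, ?_⟩
    rcases H.r2 i j hij hi hj e with h1 | ⟨h1, h2, h3⟩
    · left
      rw [div_le_iff₀ hpi]
      exact h1
    · rcases le_or_gt (z i).re (3 / 10 * Real.pi) with h4 | h4
      · left
        rw [div_le_iff₀ hpi]
        exact h4
      · right
        refine ⟨by rw [div_le_iff₀ hpi]; exact h1, ?_, h3⟩
        apply tan_ge_of h4 hp.2.1 hp.2.2 hth hth1
        rw [← norm_cos_sq]
        have := pow_le_pow_left₀ (by norm_num) h2 2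
        linarith
  · by_cases e3 : a i = 3
    · right
      left
      have hT := H.t3 i hi e3
      have hg := H.g3 i j hij hi hj e3
      rw [e3] at hb hg ⊢
      push_cast at hb hg
      refine ⟨rfl, vv_three le_rfl, (Ht_of hth hT).tan, hb, ?_⟩
      rcases hg with h1 | ⟨h1, h2⟩
      · exact Or.inl h1
      · right
        exact ⟨by rw [div_le_iff₀ hpi]; exact h1, h2⟩
    · right
      right
      exact ⟨by omega, vv_three (by omega)⟩

/-- **The value at the critical point is less than the bound**, at an edge of a chain. -/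
theorem VHyp.phi_lt {Φ : ℂ → ℂ → ℂ} (H : VHyp a z)
    (h : Zr (fun i => (a i : ℝ)) chL chR 1 z) (ha : ∀ i, 2 ≤ a i) {n p : Fin (m + 1)}
    (hnp : chL n = some p ∨ chR n = some p) (hn : ¬ clo a n) (hp : ¬ clo a p)
    (h2 : a n = 2 ∨ a p = 2)
    (K : OO Φ (th (z n).re (z n).im) (th (z p).re (z p).im) (xx (z n).re (z n).im)
      (xx (z p).re (z p).im) (bw (z n) (z p)) (bw (z p) (z n)) (vv (a n)) (vv (a p)))
    {v w : ℂ} (hv : v ∈ G0 (th (z n).re (z n).im) (vv (a n))) (hv0 : 0 ≤ v.re)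
    (hw : w ∈ G0 (th (z p).re (z p).im) (vv (a p))) (hw0 : 0 ≤ w.re)
    (hne : v ≠ gdv (UU (xx (z n).re (z n).im) (th (z n).re (z n).im)) ∨
      w ≠ gdv (UU (xx (z p).re (z p).im) (th (z p).re (z p).im))) :
    (Φ (cmp (vv (a n)) v) ((starRingEnd ℂ) (cmp (vv (a p)) w))).re <
      LM Φ (th (z n).re (z n).im) (th (z p).re (z p).im) (bw (z n) (z p)) (bw (z p) (z n))
        (xx (z n).re (z n).im) (xx (z p).re (z p).im) (vv (a n)) (vv (a p))
        (mu (bw (z n) (z p)) (a n) (vv (a n))) (mu (bw (z p) (z n)) (a p) (vv (a p))) v w := by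
  have k1 := H.vok h ha hnp hn hp
  have k2 := H.vok h ha (h.N.symm n p hnp) hp hn
  rw [← gdv_re_eq h] at k1 k2
  exact K.Phi_ltV (ha n) (ha p) h2 k1 k2 hv hv0 hw hw0 hne

end

end Pool.Agent.S3.T2
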