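import Pool.Agent.S3.W2.VokC
import Pool.Agent.S3.E.RngB
import Pool.Agent.S3.T.RngT

/-!
# The ranges at the open vertices
-/

set_option autoImplicit false

namespace Pool.Agent.S3.T2

open Complex
open Pool.Agent.S3.E
open Pool.Agent.H25.RK (gdv gdv_re_lt gdv_hasDerivAt ul)

variable {m : ℕ} {a : Fin (m + 1) → ℕ} {z : Fin (m + 1) → ℂ}

/-- Inner vertices have two neighbours. -/
theorem in2_of {i : Fin (m + 1)} (h0 : i ≠ 0) (h1 : i ≠ Fin.last m) :
    ∃ j k : Fin (m + 1), chL i = some j ∧ chR i = some k := by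
  obtain ⟨j, rfl⟩ := Fin.exists_succ_eq.2 h0
  refine ⟨j.castSucc, ?_⟩
  obtain ⟨k, hk⟩ := Fin.exists_castSucc_eq.2 h1
  refine ⟨k.succ, chL_succ j, ?_⟩
  rw [← hk]
  exact chR_castSucc k

theorem open_two {i : Fin (m + 1)} (hi : ¬ clo a i) (e : a i = 2) : i ≠ 0 ∧ i ≠ Fin.last m := by
  constructor
  · intro h
    exact hi ⟨e, Or.inl h⟩
  · intro h
    exact hi ⟨e, Or.inr h⟩

theorem cast2 {i : Fin (m + 1)} (h : a i = 2) : (fun i => (a i : ℝ)) i = 2 := by
  show ((a i : ℕ) : ℝ) = 2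
  rw [h]; norm_num

theorem cast3' {i : Fin (m + 1)} (h : a i = 3) : (fun i => (a i : ℝ)) i = 3 := by
  show ((a i : ℕ) : ℝ) = 3
  rw [h]; norm_num

/-- The ranges, from the bound at the twos with two open neighbours. -/
theorem vhyp_of (h : Zr (fun i => (a i : ℝ)) chL chR 1 z) (ha : ∀ i, 2 ≤ a i)
    (hR : ∀ i j k : Fin (m + 1), a i = 2 → chL i = some j → chR i = some k → ¬ clo a j →
      ¬ clo a k → (z i).re ≤ 3 / 10 * Real.pi) : VHyp a z where
  t2 := fun i hi e => by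
    obtain ⟨h0, h1⟩ := open_two hi e
    obtain ⟨j, k, hj, hk⟩ := in2_of h0 h1
    exact h.two_th_ge (cast2 e) ⟨j, k, hj, hk⟩
  r2 := fun i j hij hi hj e => by
    obtain ⟨h0, h1⟩ := open_two hi e
    obtain ⟨l, r, hl, hr⟩ := in2_of h0 h1
    have key : ∀ k : Fin (m + 1), (chL i = some k ∨ chR i = some k) → clo a k →
        (z i).re ≤ 3 / 10 * Real.pi ∨ ((z i).re ≤ 31 / 100 * Real.pi ∧ 2 / 3 ≤ ‖cos (z i)‖ ∧
          bw (z i) (z j) ≤ 8 / 5) := by
      intro k hk hck
      exact Cl.rng_end2 h (T.isEnd2_of_clo hk hck) (cast2 e) ⟨l, r, hl, hr⟩ hij (by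
        rintro rfl
        exact hj hck)
    by_cases c1 : clo a l
    · exact key l (Or.inl hl) c1
    · by_cases c2 : clo a r
      · exact key r (Or.inr hr) c2
      · exact Or.inl (hR i l r e hl hr c1 c2)
  t3 := fun i _ e => T.hT_t1 h (by omega)
  g3 := fun i j hij _ hj e => by
    have k := h.gain3' (cast3' e) hij (by
      by_cases e2 : a j = 2
      · obtain ⟨h0, h1⟩ := open_two hj e2
        exact Or.inr (in2_of h0 h1)
      · left
        have := ha j
        exact T.cast3 (by omega))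
    rcases k with k | ⟨k1, k2⟩
    · left
      rw [e, mu_three]
      linarith
    · right
      refine ⟨k1, k2.trans ?_⟩
      have hp := h.pos i
      exact Real.le_tan (by linarith) (abs_lt.1 (abs_th_lt hp.1 hp.2.1 hp.2.2)).2

end Pool.Agent.S3.T2
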